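import Pool.Agent.H57.AVG.HiJ
import Pool.Agent.H71.AVG.Law

/-!
# The codes of the base coordinates from the own jets at the time

`dv_first`: two lines over the same chart which agree on the coordinates of the chart: the own paths
of the next coordinate have the same coefficients of the orders `≥ 2`. `ac_near`: the codes `ac` are
near each other if the own jets at the time of low order have the same digits. `CH_ac`: the codes
are few bits given these digits, the time and the base data.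
-/

set_option autoImplicit false

namespace Pool.AVG57

open Finset Real MvPolynomial
open Pool.Agent.H49.Ent Pool.Agent.H32.Dense Pool.STK Pool.KA Pool.KSAT Pool.K2S Pool.PB Pool.S6C
open Pool.GEN Pool.CHT Pool.LA91 Pool.AVG71
open Pool.PB.Trl (rt rt_mem t_rt)

/-! ### Entropy -/

section ent

variable {Ω S T : Type} [Fintype Ω] {p : Ω → ℝ}

/-- Finitely many variables. -/
theorem ch_vec (hp : ∀ ω, 0 ≤ p ω) (W : Ω → T) {c : ℝ} : ∀ (n : ℕ) (X : Ω → Fin n → S),
    (∀ i, CH p (fun ω => X ω i) W ≤ c) → CH p X W ≤ n * c := by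
  intro n
  induction n with
  | zero =>
    intro X _
    rw [CH_eq_zero hp (fun ω ω' _ _ _ => funext fun i => Fin.elim0 i)]
    simp
  | succ n ih =>
    intro X hX
    have h1 := CH_subadd hp (fun ω => X ω 0) (fun ω (i : Fin n) => X ω i.succ) W
    have h2 := ih (fun ω i => X ω i.succ) (fun i => hX i.succ)
    have h3 := hX 0
    have h4 : CH p X W ≤ CH p (fun ω => (X ω 0, fun i : Fin n => X ω i.succ)) W := by
      refine CH_mono_left hp fun ω ω' _ _ e => ?_
      have e1 := (Prod.ext_iff.mp e).1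
      funext i
      refine Fin.cases ?_ (fun j => ?_) i
      · exact (Prod.ext_iff.mp e1).1
      · exact congrFun (Prod.ext_iff.mp e1).2 j
    push_cast
    linarith

/-- A matrix of integers which are near for equal conditions. -/
theorem CH_mat (hp : IsLaw p) {k n : ℕ} (X : Ω → Fin k → Fin n → ℤ) (W : Ω → T) {D : ℝ}
    (hD : 0 ≤ D) (h : ∀ ω ω', 0 < p ω → 0 < p ω' → W ω = W ω' → ∀ i j,
      |(X ω i j : ℝ) - X ω' i j| ≤ D) : CH p X W ≤ k * (n * Real.log (2 * D + 1)) :=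
  ch_vec hp.nonneg W k X fun i => ch_vec hp.nonneg W n (fun ω => X ω i) fun j =>
    CH_pair_int hp _ W hD fun ω ω' a a' e => h ω ω' a a' e i j

end ent

/-! ### Digits -/

/-- Equal digits. -/
theorem near_of_floor {s x y : ℝ} (hs : 0 < s) (h : ⌊s * x⌋ = ⌊s * y⌋) : |x - y| ≤ 1 / s := by
  have h1 := Int.floor_le (s * x)
  have h2 := Int.lt_floor_add_one (s * x)
  have h3 := Int.floor_le (s * y)
  have h4 := Int.lt_floor_add_one (s * y)
  rw [h] at h1 h2
  have e : |x - y| * s = |(x - y) * s| := by rw [abs_mul, abs_of_pos hs]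
  rw [le_div_iff₀ hs, e, abs_le]
  constructor <;> nlinarith

/-- Digits of near numbers. -/
theorem floor_near' {x y D : ℝ} (h : |x - y| ≤ D) : |((⌊x⌋ : ℤ) : ℝ) - ⌊y⌋| ≤ D + 1 := by
  have h1 := Int.floor_le x
  have h2 := Int.lt_floor_add_one x
  have h3 := Int.floor_le y
  have h4 := Int.lt_floor_add_one y
  have h5 := abs_le.mp h
  rw [abs_le]
  constructor <;> linarith

/-! ### The first coordinate -/

variable {m J : ℕ}

/-- **The own paths over a chart which sees the same path**: the coefficients of the orders `≥ 2`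
are the same. -/
theorem dv_first {ζ : Type} {c : ℕ → Fin m} {l a : ℕ}
    {H : ((Fin m → ℝ) × (Fin m → ℝ)) × ζ × ℕ → ℕ → MvPolynomial (Option (Fin m)) ℝ}
    {s s' : ((Fin m → ℝ) × (Fin m → ℝ)) × ζ × ℕ} (hdep : DepC c l (H s l)) (hH : H s l = H s' l)
    (ht : s.2.2 = s'.2.2)
    (hs : ∀ j < l, s.1.1 (c j) = s'.1.1 (c j) ∧ s.1.2 (c j) = s'.1.2 (c j)) {b : ℕ} (hb : 2 ≤ b) :
    (dv a (fun s _ => H s l) (c l) s).coeff b = (dv a (fun s _ => H s l) (c l) s').coeff b := by
  have e1 : aeval (lc a s) (H s l) = aeval (lc a s') (H s' l) := by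
    rw [← hH]
    refine Polynomial.funext fun τ => ?_
    rw [Pool.KBX.eval_aeval_poly, Pool.KBX.eval_aeval_poly]
    refine hdep _ _ ?_ fun j hj => ?_
    · show (lc a s none).eval τ = (lc a s' none).eval τ
      simp only [lc, ht]
    · show (lc a s (some (c j))).eval τ = (lc a s' (some (c j))).eval τ
      simp only [lc, ht, (hs j hj).1, (hs j hj).2]
  have h0 : ∀ s : ((Fin m → ℝ) × (Fin m → ℝ)) × ζ × ℕ, (lc a s (some (c l))).coeff b = 0 :=
    fun s => Polynomial.coeff_eq_zero_of_natDegree_lt ((natDegree_lc a s _).trans_lt (by omega))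
  unfold dv
  rw [Polynomial.coeff_sub, Polynomial.coeff_sub, h0, h0, e1]

/-! ### The codes -/

/-- **The coefficients from the jets at the time.** -/
theorem dv_near {F : Fam m J} {a : ℕ} (ha : a ≤ J) {k : Fin m} {N a₀ : ℕ}
    {G : LnT F → Fin m → MvPolynomial (Option (Fin m)) ℝ} {ω ν : F.Ω}
    (hN : ∀ s, (dv a G k s).natDegree ≤ N) (ht : rt F a ω = rt F a ν) {ε δ : ℝ} (hε : 0 ≤ ε)
    (hδ : 0 ≤ δ) (h : ∀ b ≥ a₀, |(dv a G k (slam F a ω)).coeff b -
      (dv a G k (slam F a ν)).coeff b| ≤ ε)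
    (hj : ∀ j < a₀, |ojet F k j (G (slam F a ω) k) ω - ojet F k j (G (slam F a ν) k) ν| /
      (2 ^ a) ^ j ≤ δ) (b : ℕ) :
    |(dv a G k (slam F a ω)).coeff b - (dv a G k (slam F a ν)).coeff b| ≤
      (N + 1) * 2 ^ N * (δ + (N + 1) * 2 ^ N * ε) := by
  rw [← Polynomial.coeff_sub]
  refine tay_all (s := rt F a ω) (a₀ := a₀) ((Polynomial.natDegree_sub_le _ _).trans
    (max_le (hN _) (hN _))) ?_ hε hδ (fun b hb => ?_) (fun j hjj => ?_) b
  · rw [abs_of_nonneg (rt_mem F a ω).1]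
    exact (rt_mem F a ω).2
  · rw [Polynomial.coeff_sub]
    exact h b hb
  · rw [map_sub, Polynomial.coeff_sub, ojet_tay F ha ω k G j, ht, ojet_tay F ha ν k G j, ← sub_div,
      abs_div]
    have h1 : (1 : ℝ) ≤ (j.factorial : ℝ) := by exact_mod_cast j.factorial_pos
    have h2 : (0 : ℝ) < (2 ^ a) ^ j := by positivity
    rw [abs_of_pos (by positivity : (0 : ℝ) < (j.factorial : ℝ) * (2 ^ a) ^ j)]
    refine le_trans ?_ (hj j hjj)
    refine div_le_div_of_nonneg_left (abs_nonneg _) h2 ?_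
    exact le_mul_of_one_le_left h2.le h1

variable {F : Fam m J} {β : Type} {k : ℕ}

/-- The codes of one coordinate are near each other. -/
theorem ac_near {d : AD F.Ω β k} {K a : ℕ} (ha : a ≤ J) {κ : Fin m} {a₀ : ℕ}
    {G : LnT F → Fin m → MvPolynomial (Option (Fin m)) ℝ} {ω ν : F.Ω} {j : Fin k} {E : ℕ}
    (hA : ∀ ω, d.A ω j = Polynomial.C (2 ^ E) * dv a G κ (slam F a ω))
    (hN : ∀ s, (dv a G κ s).natDegree ≤ K) (ht : rt F a ω = rt F a ν) {ε δ : ℝ} (hε : 0 ≤ ε)
    (hδ : 0 ≤ δ) (h : ∀ b ≥ a₀, |(dv a G κ (slam F a ω)).coeff b -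
      (dv a G κ (slam F a ν)).coeff b| ≤ ε)
    (hj : ∀ j < a₀, |ojet F κ j (G (slam F a ω) κ) ω - ojet F κ j (G (slam F a ν) κ) ν| /
      (2 ^ a) ^ j ≤ δ) {D : ℝ}
    (hD : 2 ^ (E + d.X + d.m) * ((K + 1) * 2 ^ K * (δ + (K + 1) * 2 ^ K * ε)) ≤ D)
    (b : Fin (K + 1)) : |(d.ac K ω j b : ℝ) - d.ac K ν j b| ≤ D + 1 := by
  unfold AD.ac
  refine floor_near' ?_
  have h1 := dv_near ha hN ht hε hδ h hj (b : ℕ)
  rw [hA, hA, Polynomial.coeff_C_mul, Polynomial.coeff_C_mul, ← mul_sub, ← mul_sub, abs_mul,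
    abs_mul, abs_of_pos (by positivity : (0 : ℝ) < 2 ^ (d.X + d.m)),
    abs_of_pos (by positivity : (0 : ℝ) < 2 ^ E)]
  refine le_trans ?_ hD
  have e1 : (2 : ℝ) ^ (E + d.X + d.m) = 2 ^ (d.X + d.m) * 2 ^ E := by
    rw [← pow_add]
    congr 1
    ring
  rw [e1, mul_assoc]
  exact mul_le_mul_of_nonneg_left (mul_le_mul_of_nonneg_left h1 (by positivity)) (by positivity)

/-- The digits of the own position and of the own velocity at the time, over the chart `G`. -/
noncomputable def jd (F : Fam m J) (κ : Fin m) (a : ℕ) (G : LnT F → Fin m →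
    MvPolynomial (Option (Fin m)) ℝ) (n₀ n₁ : ℝ) (ω : F.Ω) : ℤ × ℤ :=
  (⌊(2 : ℝ) ^ n₀ * ojet F κ 0 (G (slam F a ω) κ) ω⌋,
    ⌊(2 : ℝ) ^ n₁ * ojet F κ 1 (G (slam F a ω) κ) ω⌋)

/-- **The code of the first base coordinate** is few bits given its own position and velocity at
the time. `l`: the place of the coordinate, the lower coordinates are known exactly. -/
theorem CH_ac_first {d : AD F.Ω β k} {p : F.Ω → ℝ} (hp : IsLaw p) {K a : ℕ} (ha : a ≤ J)
    {c : ℕ → Fin m} {l : ℕ} {H : LnT F → ℕ → MvPolynomial (Option (Fin m)) ℝ} {j : Fin k} {E : ℕ}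
    (hA : ∀ ω, d.A ω j = Polynomial.C (2 ^ E) * dv a (fun s _ => H s l) (c l) (slam F a ω))
    (hN : ∀ s, (dv a (fun s _ => H s l) (c l) s).natDegree ≤ K) (hdep : ∀ s, DepC c l (H s l))
    (hth : ∀ ω, d.th ω = rt F a ω)
    (hz : ∀ ω ν, 0 < p ω → 0 < p ν → d.z ω = d.z ν → F.T1 a ω = F.T1 a ν ∧
      H (slam F a ω) l = H (slam F a ν) l ∧
      ∀ i < l, F.u ω (c i) = F.u ν (c i) ∧ F.d ω (c i) = F.d ν (c i))
    {n₀ n₁ : ℝ} (h0 : (E + d.X + d.m : ℕ) ≤ n₀) (h1 : ((E + d.X + d.m : ℕ) : ℝ) ≤ n₁ + a) :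
    CH p (fun ω => d.ac K ω j) (fun ω => (jd F (c l) a (fun s _ => H s l) n₀ n₁ ω,
      (d.th ω, d.z ω))) ≤ (K + 1) * Real.log (2 * ((K + 1) * 2 ^ K + 1) + 1) := by
  have key : ∀ ω ν, 0 < p ω → 0 < p ν → (jd F (c l) a (fun s _ => H s l) n₀ n₁ ω,
      (d.th ω, d.z ω)) = (jd F (c l) a (fun s _ => H s l) n₀ n₁ ν, (d.th ν, d.z ν)) →
      ∀ b, |(d.ac K ω j b : ℝ) - d.ac K ν j b| ≤ (K + 1) * 2 ^ K + 1 := by
    intro ω ν hω hν e b
    simp only [Prod.mk.injEq] at e
    obtain ⟨e1, e2, e3⟩ := e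
    obtain ⟨z1, z2, z3⟩ := hz ω ν hω hν e3
    have ht : rt F a ω = rt F a ν := by rw [← hth, ← hth, e2]
    have ea0 : (0 : ℝ) < 2 ^ (E + d.X + d.m) := by positivity
    refine ac_near (G := fun s _ => H s l) (E := E) (a₀ := 2) (ε := 0)
      (δ := 1 / 2 ^ (E + d.X + d.m)) ha hA hN ht le_rfl (by positivity) (fun b hb => ?_)
      (fun i hi => ?_) ?_ b
    · rw [dv_first (hdep _) z2 z1 z3 hb, sub_self, abs_zero]
    · obtain ⟨f0, f1⟩ := Prod.ext_iff.mp e1
      have g0 := near_of_floor (Real.rpow_pos_of_pos two_pos n₀) f0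
      have g1 := near_of_floor (Real.rpow_pos_of_pos two_pos n₁) f1
      rcases Nat.lt_or_ge i 1 with hi1 | hi1
      · have : i = 0 := by omega
        subst this
        rw [pow_zero, div_one]
        refine g0.trans (one_div_le_one_div_of_le ea0 ?_)
        rw [← Real.rpow_natCast]
        exact Real.rpow_le_rpow_of_exponent_le one_le_two h0
      · have : i = 1 := by omega
        subst this
        rw [pow_one]
        have e4 : (1 : ℝ) / 2 ^ n₁ / 2 ^ a = 1 / 2 ^ (n₁ + a) := by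
          rw [div_div, Real.rpow_add two_pos, Real.rpow_natCast]
        refine (div_le_div_of_nonneg_right g1 (by positivity)).trans ?_
        rw [e4]
        refine one_div_le_one_div_of_le ea0 ?_
        rw [← Real.rpow_natCast]
        exact Real.rpow_le_rpow_of_exponent_le one_le_two h1
    · rw [mul_zero, add_zero]
      refine le_of_eq ?_
      field_simp
  have h2 := ch_vec hp.nonneg (fun ω => (jd F (c l) a (fun s _ => H s l) n₀ n₁ ω,
    (d.th ω, d.z ω))) (K + 1) (fun ω => d.ac K ω j)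
    (c := Real.log (2 * ((K + 1) * 2 ^ K + 1) + 1)) fun b =>
      CH_pair_int hp _ _ (by positivity) fun ω ν a a' e => key ω ν a a' e b
  push_cast at h2
  exact h2

end Pool.AVG57
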