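import Pool.Agent.H57.AVG.Vg
import Pool.Agent.H57.AVG.Vc
import Pool.Agent.H71.GEN.Stm2

/-!
# The data of the average in a class

`upw`: the code of a line at an earlier window. `adM`: the data `AD` for the own paths over the
charts `H` of the window `w`, written in the window `W ≥ w` (where the time is alive), with the
record `zw`; base data: the record, side information, window and the lines of the first `k₀`
coordinates. `yv`: time, side information and all digits of the first `k₀` coordinates (`Kn 1 1`).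
`adM_yz`, `adM_zy`: `(th, z)` and `(zw, yv)` determine each other. `adM_w`: `AdW`. `adM_ti`: the
field `ti`.
-/

set_option autoImplicit false

namespace Pool.AVG57

open Finset Real MvPolynomial
open Pool.Agent.H49.Ent Pool.Agent.H32.Dense Pool.STK Pool.KA Pool.KSAT Pool.K2S Pool.PB Pool.S6C
open Pool.GEN Pool.CHT Pool.CHX Pool.ISO Pool.LA91 Pool.AVG71
open Pool.PB.Trl (rt rt_mem t_rt)
open Pool.D2R (AdW gnh hgt)
open Pool.KVA (MI)

variable {m J : ℕ}

/-! ### Windows -/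

/-- The code of the line at an earlier window. -/
def upw {F : Fam m J} (w W : ℕ) (s : LnT F) : LnT F := (s.1, s.2.1, s.2.2 / 2 ^ (W - w))

theorem upw_slam (F : Fam m J) {w W : ℕ} (h : w ≤ W) (hW : W ≤ J) (ω : F.Ω) :
    upw w W (slam F W ω) = slam F w ω := by
  have e : F.T ω / 2 ^ (J - W) / 2 ^ (W - w) = F.T ω / 2 ^ (J - w) := by
    rw [Nat.div_div_eq_div_mul, ← pow_add, show J - W + (W - w) = J - w by omega]
  unfold upw slam Fam.T1
  simp only [e]

/-! ### The data -/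

/-- **The data of the average.** -/
noncomputable def adM (F : Fam m J) (c : ℕ → Fin m) (k₀ k n q w W X mm : ℕ) (γ : ℕ → ℕ)
    (G : ℕ → PtT F → ℕ → MvPolynomial (Option (Fin m)) ℝ)
    (H : LnT F → ℕ → MvPolynomial (Option (Fin m)) ℝ) {ζ : Type} (zw : F.Ω → ζ) :
    AD F.Ω (ζ × ((F.ζ × ℕ) × (Fin k₀ → ℝ × ℝ))) k where
  z ω := (zw ω, ((slam F W ω).2, fun l => (F.u ω (c l), F.d ω (c l))))
  th := rt F W
  P ω := Polynomial.C (2 ^ (γ (k₀ + k) + q)) *
    dv W (fun s (_ : Fin m) => H (upw w W s) (k₀ + k)) (c (k₀ + k)) (slam F W ω)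
  A ω j := Polynomial.C (2 ^ (γ (k₀ + j) + q)) *
    dv W (fun s (_ : Fin m) => H (upw w W s) (k₀ + j)) (c (k₀ + j)) (slam F W ω)
  bb ω j := (⌊2 ^ X * gnh F c (k₀ + k) γ (G 0) (G n) ω (k₀ + j)⌋ : ℤ) / 2 ^ X
  X := X
  m := mm

/-- Time, side information and all digits of the first coordinates. -/
noncomputable def yv (c : ℕ → Fin m) (k₀ : ℕ) (J : ℕ) (F : Fam m J) (ω : F.Ω) :
    (ℕ × F.ζ) × ((Fin m → ℤ) × (Fin m → ℤ)) :=
  (F.W ω, (fun i => if i ∈ (range k₀).image c then F.X J ω i else 0,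
    fun i => if i ∈ (range k₀).image c then F.D J ω i else 0))

theorem kn_yv (c : ℕ → Fin m) (k₀ : ℕ) : Kn ((range k₀).image c) 1 1 (yv c k₀) := by
  intro J F
  refine ⟨fun v => (v.1.1, (v.2.1, v.2.2)), fun ω => ?_⟩
  have e : ⌊(1 : ℝ) * J⌋₊ = J := by rw [one_mul, Nat.floor_natCast]
  rw [e]
  rfl

section

variable {F : Fam m J} {c : ℕ → Fin m} {k₀ k n q w W X mm : ℕ} {γ : ℕ → ℕ}
  {G : ℕ → PtT F → ℕ → MvPolynomial (Option (Fin m)) ℝ}
  {H : LnT F → ℕ → MvPolynomial (Option (Fin m)) ℝ} {ζ : Type} {zw : F.Ω → ζ} {B : F.Ω → Prop}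

/-- **The own paths.** -/
theorem adM_w (hc : Clsd F (k₀ + k + 1) w B (G 0) H) (hwW : w ≤ W) (hW : W ≤ J) :
    AdW F c k₀ k n q W γ B G (fun s => H (upw w W s))
      (adM F c k₀ k n q w W X mm γ G H zw) where
  th := fun _ _ => rfl
  P := fun _ _ => rfl
  A := fun _ _ _ => rfl
  bb := fun _ _ _ => rfl
  zt := fun ω ν _ _ e => by
    have e1 := (Prod.ext_iff.mp (Prod.ext_iff.mp e).2).1
    exact (Prod.ext_iff.mp e1).2
  zx := fun ω ν _ _ e l hl => by
    have e1 := (Prod.ext_iff.mp (Prod.ext_iff.mp e).2).2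
    have e2 := congrFun e1 ⟨l, hl⟩
    exact ⟨(Prod.ext_iff.mp e2).1, (Prod.ext_iff.mp e2).2⟩
  cls := fun ω hω l hl => by
    show G 0 (ptr F J ω) l = H (upw w W (slam F W ω)) l
    rw [upw_slam F hwW hW]
    exact hc ω hω l hl

/-! ### Degrees and the time -/

theorem adM_dP {D K : ℕ} (hH : ∀ s l, (H s l).totalDegree ≤ D) (hK : D + 1 ≤ K) (ω : F.Ω) :
    ((adM F c k₀ k n q w W X mm γ G H zw).P ω).natDegree ≤ K := by
  refine (Polynomial.natDegree_C_mul_le _ _).trans ((natDegree_dv W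
    (G := fun s (_ : Fin m) => H (upw w W s) (k₀ + k)) (fun s _ => hH _ _) _ _).trans hK)

theorem adM_dA {D K : ℕ} (hH : ∀ s l, (H s l).totalDegree ≤ D) (hK : D + 1 ≤ K) (ω : F.Ω)
    (j : Fin k) : ((adM F c k₀ k n q w W X mm γ G H zw).A ω j).natDegree ≤ K := by
  refine (Polynomial.natDegree_C_mul_le _ _).trans ((natDegree_dv W
    (G := fun s (_ : Fin m) => H (upw w W s) (k₀ + j)) (fun s _ => hH _ _) _ _).trans hK)

theorem adM_th (hW : W ≤ J) (ω : F.Ω) : 0 ≤ (adM F c k₀ k n q w W X mm γ G H zw).th ω ∧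
    (adM F c k₀ k n q w W X mm γ G H zw).th ω < 1 := by
  have h := tw_mem F hW ω
  rw [tw_rt F hW ω] at h
  exact h

/-! ### The base data -/

/-- The time is a function of the window and the position in it. -/
theorem adM_T (hW : W ≤ J) {ω ν : F.Ω} (h1 : rt F W ω = rt F W ν)
    (h2 : (slam F W ω).2 = (slam F W ν).2) : F.W ω = F.W ν := by
  obtain ⟨e4, e5⟩ := Prod.ext_iff.mp h2
  have e4' : F.Z ω = F.Z ν := e4
  have e5' : F.T1 W ω = F.T1 W ν := e5
  rw [← tw_rt F hW, ← tw_rt F hW] at h1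
  exact Prod.ext (T_of_tw F hW e5' h1) e4'

theorem adM_yz (hW : W ≤ J) (p : F.Ω → ℝ) :
    Det p (fun ω => ((adM F c k₀ k n q w W X mm γ G H zw).th ω,
      (adM F c k₀ k n q w W X mm γ G H zw).z ω)) (fun ω => (zw ω, yv c k₀ J F ω)) := by
  intro ω ν _ _ e
  obtain ⟨h1, h2⟩ := Prod.ext_iff.mp e
  obtain ⟨e1, e2⟩ := Prod.ext_iff.mp h2
  obtain ⟨e0, e3⟩ := Prod.ext_iff.mp e2
  have hWW := adM_T hW h1 e0
  have hT : F.T ω = F.T ν := (Prod.ext_iff.mp hWW).1
  have ht : F.t ω = F.t ν := by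
    unfold Fam.t
    rw [hT]
  have hu : ∀ i ∈ (range k₀).image c, F.u ω i = F.u ν i ∧ F.d ω i = F.d ν i := by
    intro i hi
    obtain ⟨l, hl, rfl⟩ := Finset.mem_image.1 hi
    have e4 := congrFun e3 ⟨l, Finset.mem_range.1 hl⟩
    exact ⟨(Prod.ext_iff.mp e4).1, (Prod.ext_iff.mp e4).2⟩
  refine Prod.ext e1 (Prod.ext hWW (Prod.ext ?_ ?_))
  · funext i
    show (if i ∈ (range k₀).image c then F.X J ω i else 0) =
      if i ∈ (range k₀).image c then F.X J ν i else 0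
    by_cases hi : i ∈ (range k₀).image c
    · rw [if_pos hi, if_pos hi]
      show ⌊(2 : ℝ) ^ J * F.x ω i⌋ = ⌊(2 : ℝ) ^ J * F.x ν i⌋
      unfold Fam.x
      rw [(hu i hi).1, (hu i hi).2, ht]
    · rw [if_neg hi, if_neg hi]
  · funext i
    show (if i ∈ (range k₀).image c then F.D J ω i else 0) =
      if i ∈ (range k₀).image c then F.D J ν i else 0
    by_cases hi : i ∈ (range k₀).image c
    · rw [if_pos hi, if_pos hi]
      show ⌊(2 : ℝ) ^ J * F.d ω i⌋ = ⌊(2 : ℝ) ^ J * F.d ν i⌋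
      rw [(hu i hi).2]
    · rw [if_neg hi, if_neg hi]

theorem adM_zy (hG : Gd F) (hW : W ≤ J) (p : F.Ω → ℝ) :
    Det p (fun ω => (zw ω, yv c k₀ J F ω))
      (fun ω => ((adM F c k₀ k n q w W X mm γ G H zw).th ω,
        (adM F c k₀ k n q w W X mm γ G H zw).z ω)) := by
  intro ω ν _ _ e
  obtain ⟨e1, e2⟩ := Prod.ext_iff.mp e
  obtain ⟨e3, e4⟩ := Prod.ext_iff.mp e2
  obtain ⟨e5, e6⟩ := Prod.ext_iff.mp e4
  have hT : F.T ω = F.T ν := (Prod.ext_iff.mp e3).1
  have hZ : F.Z ω = F.Z ν := (Prod.ext_iff.mp e3).2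
  have ht : F.t ω = F.t ν := by
    unfold Fam.t
    rw [hT]
  have h2 : (2 : ℝ) ^ J ≠ 0 := by positivity
  have hud : ∀ l < k₀, F.u ω (c l) = F.u ν (c l) ∧ F.d ω (c l) = F.d ν (c l) := by
    intro l hl
    have hi : c l ∈ (range k₀).image c := Finset.mem_image.2 ⟨l, Finset.mem_range.2 hl, rfl⟩
    have f5 : ⌊(2 : ℝ) ^ J * F.x ω (c l)⌋ = ⌊(2 : ℝ) ^ J * F.x ν (c l)⌋ := by
      have h7 : (if c l ∈ (range k₀).image c then F.X J ω (c l) else 0) =
        (if c l ∈ (range k₀).image c then F.X J ν (c l) else 0) := congrFun e5 (c l)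
      rw [if_pos hi, if_pos hi] at h7
      exact h7
    have f6 : ⌊(2 : ℝ) ^ J * F.d ω (c l)⌋ = ⌊(2 : ℝ) ^ J * F.d ν (c l)⌋ := by
      have h7 : (if c l ∈ (range k₀).image c then F.D J ω (c l) else 0) =
        (if c l ∈ (range k₀).image c then F.D J ν (c l) else 0) := congrFun e6 (c l)
      rw [if_pos hi, if_pos hi] at h7
      exact h7
    obtain ⟨-, -, ⟨a, ha⟩, ⟨b, hb⟩⟩ := hG ω (c l)
    obtain ⟨-, -, ⟨a', ha'⟩, ⟨b', hb'⟩⟩ := hG ν (c l)
    have g1 : ∀ x : ℤ, (2 : ℝ) ^ J * ((x : ℝ) / 2 ^ J) = x := fun x => by field_simp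
    rw [hb, hb', g1, g1, Int.floor_intCast, Int.floor_intCast] at f6
    have hd : F.d ω (c l) = F.d ν (c l) := by rw [hb, hb', f6]
    refine ⟨?_, hd⟩
    have g2 : ∀ o : F.Ω, (2 : ℝ) ^ J * F.x o (c l) = 2 ^ J * F.u o (c l) +
        2 ^ J * (F.t o * F.d o (c l)) := fun o => by
      unfold Fam.x
      ring
    rw [g2, g2, ha, ha', g1, g1, ht, hd, Int.floor_intCast_add, Int.floor_intCast_add] at f5
    have f7 : a = a' := by omega
    rw [ha, ha', f7]
  refine Prod.ext ?_ (Prod.ext e1 (Prod.ext ?_ ?_))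
  · show rt F W ω = rt F W ν
    rw [← tw_rt F hW, ← tw_rt F hW]
    exact tw_of_T F hT
  · show (F.Z ω, F.T1 W ω) = (F.Z ν, F.T1 W ν)
    unfold Fam.T1
    rw [hZ, hT]
  · funext l
    exact Prod.ext (hud l l.2).1 (hud l l.2).2

/-- The code of the line is a function of the line. -/
theorem adM_L (p : F.Ω → ℝ) (hz : Det p (slam F W) zw) (K : ℕ) :
    Det p (slam F W) ((adM F c k₀ k n q w W X mm γ G H zw).L K) := by
  intro ω ν hω hν e
  have e1 := hz ω ν hω hν e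
  have e2 : F.l ω = F.l ν := (Prod.ext_iff.mp e).1
  have e3 : (slam F W ω).2 = (slam F W ν).2 := (Prod.ext_iff.mp e).2
  have e4 : F.u ω = F.u ν := (Prod.ext_iff.mp e2).1
  have e5 : F.d ω = F.d ν := (Prod.ext_iff.mp e2).2
  have z1 : (adM F c k₀ k n q w W X mm γ G H zw).z ω =
      (adM F c k₀ k n q w W X mm γ G H zw).z ν := by
    refine Prod.ext e1 (Prod.ext e3 ?_)
    funext l
    show (F.u ω (c l), F.d ω (c l)) = (F.u ν (c l), F.d ν (c l))
    rw [e4, e5]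
  have P1 : (adM F c k₀ k n q w W X mm γ G H zw).P ω =
      (adM F c k₀ k n q w W X mm γ G H zw).P ν := by
    show Polynomial.C (2 ^ (γ (k₀ + k) + q)) * dv W (fun s (_ : Fin m) => H (upw w W s) (k₀ + k))
      (c (k₀ + k)) (slam F W ω) = Polynomial.C (2 ^ (γ (k₀ + k) + q)) *
      dv W (fun s (_ : Fin m) => H (upw w W s) (k₀ + k)) (c (k₀ + k)) (slam F W ν)
    rw [e]
  have A1 : (adM F c k₀ k n q w W X mm γ G H zw).A ω =
      (adM F c k₀ k n q w W X mm γ G H zw).A ν := by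
    funext j
    show Polynomial.C (2 ^ (γ (k₀ + j) + q)) * dv W (fun s (_ : Fin m) => H (upw w W s) (k₀ + j))
      (c (k₀ + j)) (slam F W ω) = Polynomial.C (2 ^ (γ (k₀ + j) + q)) *
      dv W (fun s (_ : Fin m) => H (upw w W s) (k₀ + j)) (c (k₀ + j)) (slam F W ν)
    rw [e]
  unfold AD.L AD.ac AD.nc
  rw [z1, P1, A1]

/-- **The field `ti`.** -/
theorem adM_ti {p : F.Ω → ℝ} (hp : IsLaw p) {j₀ : ℕ} {ε₀ ψ : ℝ} (hT : TimW F p W j₀ ε₀ ψ)
    (hz : Det p (slam F W) zw) (K : ℕ) :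
    MI p (adM F c k₀ k n q w W X mm γ G H zw).th ((adM F c k₀ k n q w W X mm γ G H zw).L K)
      ((adM F c k₀ k n q w W X mm γ G H zw).g K) ≤ ψ * J := by
  have h0 := hp.nonneg
  have hW : W ≤ J := by
    have := hT.le
    omega
  have hL := adM_L (c := c) (k₀ := k₀) (k := k) (n := n) (q := q) (w := w) (X := X) (mm := mm)
    (γ := γ) (G := G) (H := H) p hz K
  have hg : Det p (slam F W) ((adM F c k₀ k n q w W X mm γ G H zw).g K) := fun ω ν a b e =>
    AD.g_of (hL ω ν a b e)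
  have hgW : Det p ((adM F c k₀ k n q w W X mm γ G H zw).g K) (F.T1 W) := fun ω ν _ _ e => by
    have e1 := (Prod.ext_iff.mp e).1
    have e2 := (Prod.ext_iff.mp (Prod.ext_iff.mp e1).2).1
    exact (Prod.ext_iff.mp e2).2
  have h1 := mi_tim_code hp hT ((adM F c k₀ k n q w W X mm γ G H zw).g K) hg hgW
    ((adM F c k₀ k n q w W X mm γ G H zw).L K) hL (fun _ => ()) (fun _ => ())
    (fun _ _ _ _ _ => rfl) (E := 0) (by
      have e1 : MI p (fun _ : F.Ω => ()) ((adM F c k₀ k n q w W X mm γ G H zw).L K)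
          (fun ω => (F.tw W ω, (adM F c k₀ k n q w W X mm γ G H zw).g K ω)) = 0 := by
        rw [MI_eq h0, CH_eq_zero h0 (fun _ _ _ _ _ => rfl), CH_eq_zero h0 (fun _ _ _ _ _ => rfl),
          sub_zero]
      exact le_of_eq e1)
  rw [add_zero] at h1
  refine le_trans (le_of_eq ?_) h1
  have e0 : (adM F c k₀ k n q w W X mm γ G H zw).th = F.tw W := by
    funext ω
    exact (tw_rt F hW ω).symm
  rw [e0, MI_eq h0, MI_eq h0]
  congr 1
  · refine CH_congr h0 (fun ω ν _ _ e => ?_) (fun ω ν _ _ e => ?_) (fun _ _ _ _ h => h)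
      (fun _ _ _ _ h => h)
    · exact Prod.ext (Prod.ext_iff.mp e).1 rfl
    · exact (Prod.ext_iff.mp (Prod.ext_iff.mp e).1).1
  · refine CH_congr h0 (fun ω ν _ _ e => ?_) (fun ω ν _ _ e => ?_) (fun _ _ _ _ h => h)
      (fun _ _ _ _ h => h)
    · exact Prod.ext (Prod.ext_iff.mp e).1 rfl
    · exact (Prod.ext_iff.mp (Prod.ext_iff.mp e).1).1

end

end Pool.AVG57
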