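import Pool.Agent.H57.AVG.Hi
import Pool.Agent.H91.LA.Fml

/-!
# The jets at the time and the coefficients of the own path

`ojet_tay`: the coefficients of the own path at the centre `rt` (relative time of the sample) are
the own jets.
-/

set_option autoImplicit false

namespace Pool.AVG57

open Finset Real MvPolynomial
open Pool.KA Pool.KSAT Pool.GEN Pool.CHT Pool.LA91
open Pool.PB.Trl (rt rt_mem t_rt)

variable {m J : ℕ}

theorem iter_der_zero (p : Polynomial ℝ) (j : ℕ) :
    (Polynomial.derivative^[j] p).eval 0 = (j.factorial : ℝ) * p.coeff j := by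
  rw [← Polynomial.coeff_zero_eq_eval_zero, Polynomial.coeff_iterate_derivative, zero_add,
    Nat.descFactorial_self, nsmul_eq_mul]

/-- The line at the relative time `rt + τ`. -/
theorem lc_rt (F : Fam m J) {a : ℕ} (ha : a ≤ J) (ω : F.Ω) (τ : ℝ) (o : Option (Fin m)) :
    (lc a (slam F a ω) o).eval (rt F a ω + τ) = bt F ω o + 1 / 2 ^ a * τ * bd F ω o := by
  have ht := t_rt F ha ω
  have h2 : (2 : ℝ) ^ a ≠ 0 := by positivity
  have hx : ∀ k, F.x ω k = F.u ω k + F.t ω * F.d ω k := fun _ => rfl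
  cases o with
  | none =>
    show (lc a (slam F a ω) none).eval (rt F a ω + τ) = F.t ω + 1 / 2 ^ a * τ * 1
    simp only [lc, Polynomial.eval_add, Polynomial.eval_mul, Polynomial.eval_C, Polynomial.eval_X]
    rw [ht]
    field_simp
    ring
  | some k =>
    show (lc a (slam F a ω) (some k)).eval (rt F a ω + τ) = F.x ω k + 1 / 2 ^ a * τ * F.d ω k
    simp only [lc, Polynomial.eval_add, Polynomial.eval_mul, Polynomial.eval_C, Polynomial.eval_X]
    rw [hx, ht]
    show F.u ω k + F.d ω k * ((((slam F a ω).2.2 : ℝ)) / 2 ^ a + 1 / 2 ^ a * (rt F a ω + τ)) = _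
    field_simp
    ring

/-- **The coefficients at the centre `rt`** are the own jets. -/
theorem ojet_tay (F : Fam m J) {a : ℕ} (ha : a ≤ J) (ω : F.Ω) (k : Fin m)
    (G : LnT F → Fin m → MvPolynomial (Option (Fin m)) ℝ) (j : ℕ) :
    (Polynomial.taylor (rt F a ω) (dv a G k (slam F a ω))).coeff j =
      ojet F k j (G (slam F a ω) k) ω / ((j.factorial : ℝ) * (2 ^ a) ^ j) := by
  obtain ⟨q, hq⟩ : ∃ q : Polynomial ℝ, q = aeval (lp (bt F ω) (bd F ω))
      (X (some k) - G (slam F a ω) k) := ⟨_, rfl⟩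
  have e1 : Polynomial.taylor (rt F a ω) (dv a G k (slam F a ω)) =
      q.comp (Polynomial.C (1 / 2 ^ a) * Polynomial.X) := by
    refine Polynomial.funext fun τ => ?_
    have h2 : (Polynomial.C (1 / 2 ^ a : ℝ) * Polynomial.X).eval τ = 1 / 2 ^ a * τ := by simp
    rw [Polynomial.taylor_eval, Polynomial.eval_comp, h2, hq, eval_alp]
    unfold dv
    rw [Polynomial.eval_sub, Pool.KBX.eval_aeval_poly, map_sub, eval_X]
    have h3 : (fun o => (lc a (slam F a ω) o).eval (τ + rt F a ω)) =
        fun o => bt F ω o + 1 / 2 ^ a * τ * bd F ω o := by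
      funext o
      rw [add_comm τ]
      exact lc_rt F ha ω τ o
    rw [h3, ← lc_rt F ha ω τ (some k), add_comm τ]
  have h4 : ojet F k j (G (slam F a ω) k) ω = (j.factorial : ℝ) * q.coeff j := by
    unfold ojet jet
    rw [← hq, iter_der_zero]
  rw [e1, Polynomial.comp_C_mul_X_coeff, h4]
  have h5 : (j.factorial : ℝ) ≠ 0 := by exact_mod_cast j.factorial_ne_zero
  have h6 : ((2 : ℝ) ^ a) ^ j ≠ 0 := by positivity
  rw [one_div, inv_pow, mul_div_mul_left _ _ h5, ← div_eq_mul_inv]

end Pool.AVG57
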