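import Pool.Agent.H45.EXA.ExvB

/-!
# The time fields of `AvgA`, for a class

`alive_cls`: on every large event there is a window a little later than `w` behind which the first
digits of the time are full up to a constant, the digits of the time behind the window are full, and
the time is nearly independent of the line in every context. `mi_tim`: the field `h1`, if the
coefficients are few bits given the time and the context.
-/

set_option autoImplicit false

namespace Pool.AVG57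

open Finset Real
open Pool.Agent.H49.Ent Pool.Agent.H32.Dense Pool.STK Pool.KA Pool.KSAT Pool.K2S Pool.PB
open Pool.GEN Pool.GRW Pool.S6C

variable {m : ℕ}

/-- **The time in one law.** `W`: the window; `h1a`, `h1f`, `h1` of `AvgA` for the real time
`F.tw W`. -/
structure TimW {J : ℕ} (F : Fam m J) (p : F.Ω → ℝ) (W j₀ : ℕ) (ε₀ ψ : ℝ) : Prop where
  le : W + j₀ ≤ J
  a : j₀ * Real.log 2 - ε₀ ≤ CH p (fun ω => ⌊(2 : ℝ) ^ j₀ * F.tw W ω⌋) (slam F W)
  f : ∀ X : ℕ, W + X ≤ J →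
    X * Real.log 2 - ψ * J ≤ CH p (fun ω => ⌊(2 : ℝ) ^ X * F.tw W ω⌋) (slam F W)
  mi : ∀ {β : Type} (b : F.Ω → β), Det p (slam F W) b → Det p b (F.T1 W) →
    Pool.KVA.MI p F.T (slam F W) b ≤ ψ * J

/-- The position in the window is between `0` and `1`. -/
theorem tw_mem {J : ℕ} (F : Fam m J) {W : ℕ} (h : W ≤ J) (ω : F.Ω) :
    0 ≤ F.tw W ω ∧ F.tw W ω < 1 := by
  have h1 := Pool.Agent.H25.M5.floor_tw F (w := W) (X := 0) (by omega) ω
  simp only [pow_zero, one_mul, add_zero, sub_self] at h1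
  exact Int.floor_eq_zero_iff.1 h1

/-- The time is a function of the window and the position in it. -/
theorem T_of_tw {J : ℕ} (F : Fam m J) {W : ℕ} (h : W ≤ J) {ω ω' : F.Ω}
    (h1 : F.T1 W ω = F.T1 W ω') (h2 : F.tw W ω = F.tw W ω') : F.T ω = F.T ω' := by
  have e1 := Pool.Agent.H25.M5.floor_tw F (w := W) (X := J - W) (by omega) ω
  have e2 := Pool.Agent.H25.M5.floor_tw F (w := W) (X := J - W) (by omega) ω'
  rw [h2, e2, h1, show W + (J - W) = J by omega, Pool.Agent.H25.M5.T1_J,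
    Pool.Agent.H25.M5.T1_J] at e1
  have e3 : (F.T ω' : ℤ) = F.T ω := by linarith
  exact_mod_cast e3.symm

/-- The position in the window is a function of the time. -/
theorem tw_of_T {J : ℕ} (F : Fam m J) {W : ℕ} {ω ω' : F.Ω}
    (h : F.T ω = F.T ω') : F.tw W ω = F.tw W ω' := by
  unfold Fam.tw Fam.t Fam.T1
  rw [h]

/-- **Windows behind which the time is alive**, in one law. -/
theorem alive_one {J : ℕ} {F : Fam m J} {q : F.Ω → ℝ} (hq : IsLaw q) {e : ℝ}
    (he : (J : ℝ) * Real.log 2 - e ≤ CH q F.T (fun ω => (F.l ω, F.Z ω))) {W₀ I j₀ : ℕ}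
    (hI : 0 < I) (hJ : W₀ + I + j₀ ≤ J) {ε₀ ψ : ℝ} (h1 : j₀ * e ≤ ε₀ * I) (h2 : e ≤ ψ * J) :
    ∃ i < I, TimW F q (W₀ + i) j₀ ε₀ ψ := by
  obtain ⟨i, hi, h3⟩ := Pool.Agent.H25.M5.alive he hq hI hJ
  refine ⟨i, hi, by omega, ?_, fun X hX => ?_, fun b hb hw => ?_⟩
  · rw [Pool.Agent.H25.M5.ctx_digits hq (by omega)]
    refine le_trans ?_ h3
    have hI' : (0 : ℝ) < I := by exact_mod_cast hI
    have h4 : (j₀ : ℝ) * e / I ≤ ε₀ := by rwa [div_le_iff₀ hI']
    linarith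
  · rw [Pool.Agent.H25.M5.ctx_digits hq hX]
    have h4 := Pool.Agent.H25.M5.time_full he hq (Nat.le_add_right (W₀ + i) X) hX
    rw [Nat.add_sub_cancel_left] at h4
    linarith
  · exact (Pool.Agent.H25.M5.MI_time he hq (by omega) b hb hw).trans h2

/-- **Windows behind which the time is alive**, in a class, at every place `W₀` and in every range
`I` of a fixed proportion. -/
theorem alive_cls {S : PCl m} {C₀ : ℝ} (h : TmC S C₀) (j₀ : ℕ) {ε₀ δ ψ : ℝ} (hε₀ : 0 < ε₀)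
    (hδ : 0 < δ) (hψ : 0 < ψ) :
    Bas S (fun J F A => 0 < Pe F.p A ∧ ∀ W₀ I : ℕ, δ * J ≤ I → W₀ + I + j₀ ≤ J →
      ∃ i < I, TimW F (Pool.Agent.H49.Ent.cond F.p A True) (W₀ + i) j₀ ε₀ ψ) := by
  obtain ⟨e, he⟩ : ∃ e : ℝ, e = min ψ (ε₀ * δ / (j₀ + 1)) := ⟨_, rfl⟩
  have he0 : 0 < e := by rw [he]; exact lt_min hψ (by positivity)
  have he1 : e ≤ ψ := by rw [he]; exact min_le_left _ _
  have he2 : (j₀ + 1) * e ≤ ε₀ * δ := by
    have : e ≤ ε₀ * δ / (j₀ + 1) := by rw [he]; exact min_le_right _ _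
    rw [le_div_iff₀ (by positivity)] at this
    linarith
  refine (tmc_bas h he0).mono 1 fun J hJ F A hh => ⟨hh.1, fun W₀ I hI hJ' => ?_⟩
  have hJ0 : (0 : ℝ) < J := by
    have : 0 < J := hJ
    exact_mod_cast this
  have hI0 : (0 : ℝ) < I := (mul_pos hδ hJ0).trans_le hI
  refine alive_one (isLaw_cond F.isLaw hh.1) hh.2 (by exact_mod_cast hI0) hJ' ?_
    (mul_le_mul_of_nonneg_right he1 hJ0.le)
  have h3 : ε₀ * (δ * J) ≤ ε₀ * I := mul_le_mul_of_nonneg_left hI hε₀.le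
  have h4 : (j₀ + 1) * e * J ≤ ε₀ * δ * J := mul_le_mul_of_nonneg_right he2 hJ0.le
  have h5 : 0 ≤ e * J := by positivity
  linarith

/-- **The field `h1`**: the time together with coefficients `bb` which are few bits given the
position in the window and the context, and a function `s` of these. -/
theorem mi_tim {J : ℕ} {F : Fam m J} {p : F.Ω → ℝ} (hp : IsLaw p) {W j₀ : ℕ} {ε₀ ψ : ℝ}
    (h : TimW F p W j₀ ε₀ ψ) {γ B S : Type} (g : F.Ω → γ) (hg : Det p (slam F W) g)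
    (hgW : Det p g (F.T1 W)) (bb : F.Ω → B) (s : F.Ω → S)
    (hs : Det p (fun ω => (bb ω, (F.tw W ω, g ω))) s) {E : ℝ}
    (hb : CH p bb (fun ω => (F.tw W ω, g ω)) ≤ E) :
    Pool.KVA.MI p (fun ω => (F.tw W ω, (bb ω, s ω))) (slam F W) g ≤ ψ * J + E := by
  have h0 := hp.nonneg
  have hW : W ≤ J := by
    have := h.le
    omega
  have h1 := Pool.Agent.H25.M5.MI_pair_le h0 (F.tw W) (fun ω => (bb ω, s ω)) (slam F W) g
  have h2 : CH p (fun ω => (bb ω, s ω)) (fun ω => (F.tw W ω, g ω)) =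
      CH p bb (fun ω => (F.tw W ω, g ω)) := by
    refine CH_congr h0 (fun ω ω' a b e => ?_) (fun ω ω' a b e => ?_) (fun _ _ _ _ h => h)
      (fun _ _ _ _ h => h)
    · exact (Prod.ext_iff.mp (Prod.ext_iff.mp e).1).1
    · exact Prod.ext (Prod.ext_iff.mp e).1 (hs ω ω' a b e)
  have h3 : Pool.KVA.MI p (F.tw W) (slam F W) g ≤ Pool.KVA.MI p F.T (slam F W) g := by
    have e1 : CH p (F.tw W) g ≤ CH p F.T g :=
      CH_mono_left h0 fun ω ω' _ _ e => tw_of_T F (Prod.ext_iff.mp e).1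
    have e2 : CH p (fun ω => (F.T ω, slam F W ω)) g ≤ CH p (fun ω => (F.tw W ω, slam F W ω)) g :=
      CH_mono_left h0 fun ω ω' _ _ e => by
        have e3 := Prod.ext_iff.mp e
        have e4 := Prod.ext_iff.mp e3.1
        have e5 : slam F W ω = slam F W ω' := e4.2
        have e6 : F.T1 W ω = F.T1 W ω' := (Prod.ext_iff.mp (Prod.ext_iff.mp e5).2).2
        exact Prod.ext (T_of_tw F hW e6 e4.1) e5
    unfold Pool.KVA.MI
    linarith
  have h4 := h.mi g hg hgW
  linarith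

/-- A variable `b` and a function of it: the information about `L` in a pair. -/
theorem mi_pair {Ω A B S Λ γ : Type} [Fintype Ω] {p : Ω → ℝ} (h0 : ∀ ω, 0 ≤ p ω) (t : Ω → A)
    (bb : Ω → B) (s : Ω → S) (L : Ω → Λ) (g : Ω → γ)
    (hs : Det p (fun ω => (bb ω, (t ω, g ω))) s) :
    Pool.KVA.MI p (fun ω => (t ω, (bb ω, s ω))) L g =
      Pool.KVA.MI p t L g + Pool.KVA.MI p bb L (fun ω => (t ω, g ω)) := by
  have e1 : CH p (fun ω => (t ω, (bb ω, s ω))) g = CH p (fun ω => (bb ω, t ω)) g := by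
    refine CH_congr h0 (fun ω ω' a b e => ?_) (fun ω ω' a b e => ?_) (fun _ _ _ _ h => h)
      (fun _ _ _ _ h => h)
    · simp only [Prod.mk.injEq] at e ⊢
      tauto
    · simp only [Prod.mk.injEq] at e ⊢
      have := hs ω ω' a b (by simp only [Prod.mk.injEq]; tauto)
      tauto
  have e2 : CH p (fun ω => ((t ω, (bb ω, s ω)), L ω)) g =
      CH p (fun ω => (bb ω, (t ω, L ω))) g := by
    refine CH_congr h0 (fun ω ω' a b e => ?_) (fun ω ω' a b e => ?_) (fun _ _ _ _ h => h)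
      (fun _ _ _ _ h => h)
    · simp only [Prod.mk.injEq] at e ⊢
      tauto
    · simp only [Prod.mk.injEq] at e ⊢
      have := hs ω ω' a b (by simp only [Prod.mk.injEq]; tauto)
      tauto
  have e3 : CH p (fun ω => (bb ω, L ω)) (fun ω => (t ω, g ω)) =
      CH p bb (fun ω => (L ω, (t ω, g ω))) + CH p L (fun ω => (t ω, g ω)) := by
    rw [CH_chain h0, add_comm]
  have e4 : CH p (fun ω => (bb ω, (t ω, L ω))) g =
      CH p bb (fun ω => ((t ω, L ω), g ω)) + CH p (fun ω => (t ω, L ω)) g := by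
    rw [CH_chain h0, add_comm]
  have e5 : CH p (fun ω => (bb ω, t ω)) g = CH p bb (fun ω => (t ω, g ω)) + CH p t g := by
    rw [CH_chain h0, add_comm]
  have e6 : CH p (fun ω => (L ω, t ω)) g = CH p L (fun ω => (t ω, g ω)) + CH p t g := by
    rw [CH_chain h0, add_comm]
  have e7 : CH p bb (fun ω => ((t ω, L ω), g ω)) = CH p bb (fun ω => (L ω, (t ω, g ω))) := by
    refine le_antisymm ?_ ?_ <;>
    · refine CH_mono_cond h0 fun ω ω' _ _ h => ?_
      simp only [Prod.mk.injEq] at h ⊢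
      tauto
  have e8 : CH p (fun ω => (L ω, t ω)) g = CH p (fun ω => (t ω, L ω)) g := by
    refine CH_congr h0 ?_ ?_ (fun _ _ _ _ h => h) (fun _ _ _ _ h => h) <;>
    · intro ω ω' _ _ h
      simp only [Prod.mk.injEq] at h ⊢
      tauto
  unfold Pool.KVA.MI
  linarith

/-- Fewer data in the second place. -/
theorem mi_mono {Ω A S T γ : Type} [Fintype Ω] {p : Ω → ℝ} (h0 : ∀ ω, 0 ≤ p ω) (a : Ω → A)
    {b : Ω → S} {b' : Ω → T} {g : Ω → γ} (h : Det p (fun ω => (b ω, g ω)) b') :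
    Pool.KVA.MI p a b' g ≤ Pool.KVA.MI p a b g := by
  have e1 : CH p (fun ω => (a ω, b' ω)) g = CH p a (fun ω => (b' ω, g ω)) + CH p b' g := by
    rw [CH_chain h0, add_comm]
  have e2 : CH p (fun ω => (a ω, b ω)) g = CH p a (fun ω => (b ω, g ω)) + CH p b g := by
    rw [CH_chain h0, add_comm]
  have e3 := CH_mono_cond h0 (X := a) (W' := fun ω => (b ω, g ω)) (W := fun ω => (b' ω, g ω))
    (fun ω ω' a1 a2 e => Prod.ext (h ω ω' a1 a2 e) (Prod.ext_iff.mp e).2)
  unfold Pool.KVA.MI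
  linarith

/-- **The field `h1` for a code `L` of the line**: the coefficients `bb` need not be few bits given
the time and the context, they are nearly independent of the code. -/
theorem mi_tim_code {J : ℕ} {F : Fam m J} {p : F.Ω → ℝ} (hp : IsLaw p) {W j₀ : ℕ} {ε₀ ψ : ℝ}
    (h : TimW F p W j₀ ε₀ ψ) {γ B S Λ : Type} (g : F.Ω → γ) (hg : Det p (slam F W) g)
    (hgW : Det p g (F.T1 W)) (L : F.Ω → Λ) (hL : Det p (slam F W) L) (bb : F.Ω → B) (s : F.Ω → S)
    (hs : Det p (fun ω => (bb ω, (F.tw W ω, g ω))) s) {E : ℝ}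
    (hb : Pool.KVA.MI p bb L (fun ω => (F.tw W ω, g ω)) ≤ E) :
    Pool.KVA.MI p (fun ω => (F.tw W ω, (bb ω, s ω))) L g ≤ ψ * J + E := by
  have h0 := hp.nonneg
  have h1 := mi_pair h0 (F.tw W) bb s L g hs
  have h2 := mi_tim hp h g hg hgW (fun _ => ()) (fun _ => ()) (fun _ _ _ _ _ => rfl) (E := 0)
    (le_of_eq (CH_eq_zero h0 fun _ _ _ _ _ => rfl))
  have h3 := mi_pair h0 (F.tw W) (fun _ => ()) (fun _ => ()) (slam F W) g (fun _ _ _ _ _ => rfl)
  have h4 : 0 ≤ Pool.KVA.MI p (fun _ : F.Ω => ()) (slam F W) (fun ω => (F.tw W ω, g ω)) := by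
    have e1 := CH_mono_left h0 (X := fun ω => ((() : Unit), slam F W ω)) (X' := slam F W)
      (W := fun ω => (F.tw W ω, g ω)) fun ω ω' _ _ e => Prod.ext rfl (Prod.ext_iff.mp e).1
    have e2 := CH_nonneg h0 (fun _ : F.Ω => ()) (fun ω => (F.tw W ω, g ω))
    unfold Pool.KVA.MI
    linarith
  have h5 : Pool.KVA.MI p (F.tw W) L g ≤ Pool.KVA.MI p (F.tw W) (slam F W) g :=
    mi_mono h0 _ fun ω ω' a b e => hL ω ω' a b (Prod.ext_iff.mp e).1
  linarith

end Pool.AVG57
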