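import Pool.Agent.H57.AVG.Vc
import Pool.Agent.H71.AVG.Avg
import Pool.Agent.H57.AVG.Tim
import Pool.Agent.H28.D2.FrU

/-!
# The fields `vb` and `vy`: near frame digits

`vfd_vb`: the number of the near frame digits. `vfd_few`: near frame digits, if the first `X` digits
of the coordinates `i j`, `j < k`, are few. `A_near`: the own paths of the base coordinates at the
time are near if near digits of the positions, time and context are equal. `vy_ad`: the field `vy`,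
from the link `lk` between own paths and positions in the frame. `lk_first`: the link for the first
base coordinate.
-/

set_option autoImplicit false

namespace Pool.AVG57

open Finset Real MvPolynomial
open Pool.Agent.H49.Ent Pool.Agent.H32.Dense Pool.STK Pool.KA Pool.KSAT Pool.K2S Pool.PB Pool.S6C
open Pool.GEN Pool.CHT Pool.LA91 Pool.AVG71 Pool.D2F2
open Pool.PB.Trl (rt rt_mem t_rt)
open Pool.OWN68 (CH_pis CH_le_Hu)

variable {m J : ℕ}

/-- The position in the window. -/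
theorem tw_rt (F : Fam m J) {w : ℕ} (hw : w ≤ J) (ω : F.Ω) : F.tw w ω = rt F w ω := by
  have h1 := t_rt F hw ω
  have h2 : (slam F w ω).2.2 = F.T1 w ω := rfl
  rw [h2] at h1
  unfold Fam.tw
  rw [h1]
  field_simp
  ring

/-- The own path at the time. -/
theorem dv_rt (F : Fam m J) {a : ℕ} (ha : a ≤ J) (ω : F.Ω) (k : Fin m)
    (G : LnT F → Fin m → MvPolynomial (Option (Fin m)) ℝ) :
    (dv a G k (slam F a ω)).eval (rt F a ω) =
      F.x ω k - eval (bt F ω) (G (slam F a ω) k) := by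
  have h1 : ∀ o, (lc a (slam F a ω) o).eval (rt F a ω) = bt F ω o := fun o => by
    have := lc_rt F ha ω 0 o
    rw [add_zero, mul_zero, zero_mul, add_zero] at this
    exact this
  unfold dv
  rw [Polynomial.eval_sub, Pool.KBX.eval_aeval_poly, h1]
  have h2 : (fun o => (lc a (slam F a ω) o).eval (rt F a ω)) = bt F ω := funext h1
  rw [h2]
  rfl

/-! ### Digits -/

/-- **Digits between two levels**, if the digits to a level between them are few. -/
theorem mod_mid {Ω T : Type} [Fintype Ω] {p : Ω → ℝ} (hp : IsLaw p) (x : Ω → ℝ) (Z : Ω → T)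
    {u v X : ℕ} (huv : v + X ≤ u) {K : ℝ} (hK : 0 ≤ K)
    (hx : ∀ ω ω', 0 < p ω → 0 < p ω' → Z ω = Z ω' →
      |(2 : ℝ) ^ (v + X) * x ω - 2 ^ (v + X) * x ω'| ≤ K) :
    CH p (fun ω => ⌊(2 : ℝ) ^ u * x ω⌋ % 2 ^ (u - v)) Z ≤
      ((u - v : ℕ) : ℝ) * Real.log 2 - X * Real.log 2 + Real.log (2 * (K + 1) + 1) := by
  have h0 := hp.nonneg
  obtain ⟨n, hn⟩ : ∃ n : ℕ, n = u - v - X := ⟨_, rfl⟩
  have hu : u = v + X + n := by omega
  have huv' : u - v = X + n := by omega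
  -- the digits to the middle level
  have s1 : CH p (fun ω => ⌊(2 : ℝ) ^ (v + X) * x ω⌋) Z ≤ Real.log (2 * (K + 1) + 1) :=
    CH_pair_int hp _ Z (by linarith) fun ω ω' a b e => floor_near' (hx ω ω' a b e)
  have s2 := CH_le_add h0 (fun ω => ⌊(2 : ℝ) ^ u * x ω⌋ % 2 ^ (u - v))
    (fun ω => ⌊(2 : ℝ) ^ (v + X) * x ω⌋) Z
  -- the digits behind
  have hdiv : ∀ ω, ⌊(2 : ℝ) ^ u * x ω⌋ / 2 ^ n = ⌊(2 : ℝ) ^ (v + X) * x ω⌋ := by
    intro ω
    have h1 := Int.floor_div_natCast ((2 : ℝ) ^ u * x ω) (2 ^ n)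
    have e1 : (2 : ℝ) ^ u * x ω / ((2 ^ n : ℕ) : ℝ) = 2 ^ (v + X) * x ω := by
      rw [hu, pow_add (2 : ℝ) (v + X) n]
      push_cast
      field_simp
    rw [e1] at h1
    push_cast at h1
    exact h1.symm
  have s3 : CH p (fun ω => ⌊(2 : ℝ) ^ u * x ω⌋ % 2 ^ (u - v))
      (fun ω => (⌊(2 : ℝ) ^ (v + X) * x ω⌋, Z ω)) ≤
      CH p (fun ω => ⌊(2 : ℝ) ^ u * x ω⌋ % 2 ^ n)
      (fun ω => (⌊(2 : ℝ) ^ (v + X) * x ω⌋, Z ω)) := by
    refine CH_mono_left h0 fun ω ω' _ _ e => ?_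
    simp only [Prod.mk.injEq] at e
    obtain ⟨e1, e2, -⟩ := e
    have a1 := Int.emod_add_mul_ediv ⌊(2 : ℝ) ^ u * x ω⌋ (2 ^ n)
    have a2 := Int.emod_add_mul_ediv ⌊(2 : ℝ) ^ u * x ω'⌋ (2 ^ n)
    rw [hdiv ω, e1, e2] at a1
    rw [hdiv ω'] at a2
    show ⌊(2 : ℝ) ^ u * x ω⌋ % 2 ^ (u - v) = ⌊(2 : ℝ) ^ u * x ω'⌋ % 2 ^ (u - v)
    rw [a1.symm.trans a2]
  have s4 := CH_le_card h0 hp.sum_one (fun ω => ⌊(2 : ℝ) ^ u * x ω⌋ % 2 ^ n)
      (fun ω => (⌊(2 : ℝ) ^ (v + X) * x ω⌋, Z ω))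
      (fun _ => Finset.Ico (0 : ℤ) (2 ^ n)) (fun ω _ => by
        rw [Finset.mem_Ico]
        exact ⟨Int.emod_nonneg _ (by positivity), Int.emod_lt_of_pos _ (by positivity)⟩)
  rw [Ex_const hp.sum_one, Int.card_Ico, sub_zero] at s4
  have e2 : ((2 : ℤ) ^ n).toNat = 2 ^ n := by
    have : (2 : ℤ) ^ n = ((2 ^ n : ℕ) : ℤ) := by push_cast; rfl
    rw [this, Int.toNat_natCast]
  rw [e2] at s4
  push_cast at s4
  rw [Real.log_pow] at s4
  have e3 : ((u - v : ℕ) : ℝ) * Real.log 2 - X * Real.log 2 = n * Real.log 2 := by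
    rw [huv']
    push_cast
    ring
  linarith

section

variable {F : Fam m J} {κ : Type} {r D : ℕ}

/-- **The field `vb`**: the number of the near frame digits. -/
theorem vfd_vb (d : Dat F κ r D) (W : ℕ) (u v : ℕ → ℕ) {q : F.Ω → ℝ} (hq : IsLaw q) {γ : Type}
    (Z : F.Ω → γ) :
    CH q (Vfd d W u v) Z ≤ ∑ l ∈ range r, ((u l - v l : ℕ) : ℝ) * Real.log 2 :=
  (CH_le_Hu hq _ _).trans (H_Vfd d W u v hq)

/-- **Near frame digits**, if the first `X` digits of the coordinates `i j` are few. -/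
theorem vfd_few (d : Dat F κ r D) (W : ℕ) {u v : ℕ → ℕ} {p : F.Ω → ℝ} (hp : IsLaw p) {γ : Type}
    (Z : F.Ω → γ) {k X : ℕ} (i : Fin k → Fin r) (hi : Function.Injective i)
    (hX : ∀ j, v (i j) + X ≤ u (i j)) {K : ℝ} (hK : 0 ≤ K)
    (h : ∀ ω ω', 0 < p ω → 0 < p ω' → Z ω = Z ω' → ∀ j,
      |(2 : ℝ) ^ (v (i j) + X) * d.v W (i j) ω - 2 ^ (v (i j) + X) * d.v W (i j) ω'| ≤ K) :
    CH p (Vfd d W u v) Z ≤ ∑ l ∈ range r, ((u l - v l : ℕ) : ℝ) * Real.log 2 -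
      k * X * Real.log 2 + k * Real.log (2 * (K + 1) + 1) := by
  classical
  have h0 := hp.nonneg
  refine (CH_pis h0 _ _).trans ?_
  rw [← Fin.sum_univ_eq_sum_range (fun l => ((u l - v l : ℕ) : ℝ) * Real.log 2)]
  -- one coordinate
  have h1 : ∀ l : Fin r, CH p (fun ω => Vfd d W u v ω l) Z ≤
      ((u l - v l : ℕ) : ℝ) * Real.log 2 + if l ∈ Finset.univ.image i then
        (-(X * Real.log 2) + Real.log (2 * (K + 1) + 1)) else 0 := by
    intro l
    by_cases hl : l ∈ Finset.univ.image i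
    · rw [if_pos hl]
      obtain ⟨j, -, rfl⟩ := Finset.mem_image.1 hl
      have h2 := mod_mid hp (fun ω => d.v W (i j) ω) Z (hX j) hK fun ω ω' a b e => h ω ω' a b e j
      refine le_trans (le_of_eq ?_) (h2.trans (le_of_eq ?_))
      · rfl
      · ring
    · rw [if_neg hl, add_zero]
      have h2 := CH_le_card h0 hp.sum_one (fun ω => Vfd d W u v ω l) Z
        (fun _ => Finset.Ico (0 : ℤ) (2 ^ (u l - v l))) (fun ω _ => by
          rw [Finset.mem_Ico]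
          unfold Vfd
          exact ⟨Int.emod_nonneg _ (by positivity), Int.emod_lt_of_pos _ (by positivity)⟩)
      refine h2.trans (le_of_eq ?_)
      rw [Ex_const hp.sum_one, Int.card_Ico, sub_zero]
      have e2 : ((2 : ℤ) ^ (u l - v l)).toNat = 2 ^ (u l - v l) := by
        have : (2 : ℤ) ^ (u l - v l) = ((2 ^ (u l - v l) : ℕ) : ℤ) := by push_cast; rfl
        rw [this, Int.toNat_natCast]
      rw [e2]
      push_cast
      rw [Real.log_pow]
  refine (Finset.sum_le_sum fun l _ => h1 l).trans (le_of_eq ?_)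
  rw [Finset.sum_add_distrib, Finset.sum_ite_mem, Finset.univ_inter, Finset.sum_const,
    Finset.card_image_of_injective _ hi, Finset.card_univ, Fintype.card_fin, nsmul_eq_mul]
  ring

end

/-! ### The own paths of the base coordinates at the time -/

section ad

variable {Ω β : Type} {k K : ℕ} {d : AD Ω β k}

/-- Near digits of the positions, time and context determine the codes of the base coordinates. -/
theorem ac_of {ω ω' : Ω} (hY : d.Y K ω = d.Y K ω') (hg : d.g K ω = d.g K ω') :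
    d.ac K ω = d.ac K ω' := by
  obtain ⟨_, g2⟩ := Prod.ext_iff.mp hg
  obtain ⟨g3, _⟩ := Prod.ext_iff.mp g2
  obtain ⟨g5, g6⟩ := Prod.ext_iff.mp g3
  obtain ⟨g7, g8⟩ := Prod.ext_iff.mp g6
  funext j a
  refine Fin.cases ?_ (fun b => ?_) a
  · have e1 := AD.ac_eq (d := d) (K := K) ω j
    have e2 := AD.ac_eq (d := d) (K := K) ω' j
    have e3 : d.ac K ω j 0 / 2 ^ (d.X + d.m) = d.ac K ω' j 0 / 2 ^ (d.X + d.m) := congrFun g7 j
    have e4 : d.ac K ω j 0 % 2 ^ d.m = d.ac K ω' j 0 % 2 ^ d.m := congrFun g8 j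
    have e5 : d.Y K ω j = d.Y K ω' j := congrFun hY j
    rw [e1, e2, e3, e4, e5]
  · exact congrFun (congrFun g5 j) b

/-- **The own paths at the time are near** if the codes and the time are the same. -/
theorem A_near {ω ω' : Ω} (ht : d.th ω = d.th ω') (hth : 0 ≤ d.th ω ∧ d.th ω < 1)
    (hac : d.ac K ω = d.ac K ω') {j : Fin k} (hA : (d.A ω j).natDegree ≤ K)
    (hA' : (d.A ω' j).natDegree ≤ K) :
    |(d.A ω j).eval (d.th ω) - (d.A ω' j).eval (d.th ω')| ≤ (K + 1) / 2 ^ (d.X + d.m) := by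
  have hs : (0 : ℝ) < 2 ^ (d.X + d.m) := by positivity
  rw [← ht, AD.eval_fin hA, AD.eval_fin hA', ← Finset.sum_sub_distrib]
  refine (Finset.abs_sum_le_sum_abs _ _).trans ?_
  refine (Finset.sum_le_sum (g := fun _ => 1 / 2 ^ (d.X + d.m)) fun a _ => ?_).trans
    (le_of_eq ?_)
  · have e1 : ⌊(2 : ℝ) ^ (d.X + d.m) * (d.A ω j).coeff a⌋ =
        ⌊(2 : ℝ) ^ (d.X + d.m) * (d.A ω' j).coeff a⌋ := congrFun (congrFun hac j) a
    have e2 := near_of_floor hs e1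
    rw [← sub_mul, abs_mul]
    have e3 : |d.th ω ^ (a : ℕ)| ≤ 1 := by
      rw [abs_of_nonneg (pow_nonneg hth.1 _)]
      exact pow_le_one₀ hth.1 hth.2.le
    calc _ ≤ 1 / 2 ^ (d.X + d.m) * 1 := mul_le_mul e2 e3 (abs_nonneg _) (by positivity)
      _ = _ := mul_one _
  · rw [Finset.sum_const, Finset.card_univ, Fintype.card_fin, nsmul_eq_mul]
    push_cast
    ring

end ad

/-! ### The field `vy` -/

section vy

variable {F : Fam m J} {κ : Type} {r D : ℕ} {β : Type} {k : ℕ}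

/-- **The link** between own paths and positions in the frame. `i`: the places of the base
coordinates; `E j`: the digits of the own path `j` in front of the context's last one. -/
def Lk (d : AD F.Ω β k) (K : ℕ) (Df : Dat F κ r D) (W : ℕ) (i : Fin k → Fin r)
    (p : F.Ω → ℝ) (v : ℕ → ℕ) (B : ℝ) : Prop :=
  ∀ ω ω', 0 < p ω → 0 < p ω' → d.th ω = d.th ω' → d.g K ω = d.g K ω' →
    (∀ j, |(d.A ω j).eval (d.th ω) - (d.A ω' j).eval (d.th ω')| ≤ (K + 1) / 2 ^ (d.X + d.m)) →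
    ∀ j, |(2 : ℝ) ^ (v (i j) + d.X) * Df.v W (i j) ω - 2 ^ (v (i j) + d.X) * Df.v W (i j) ω'| ≤ B

/-- **The field `vy`.** -/
theorem vy_ad {d : AD F.Ω β k} {K : ℕ} {Df : Dat F κ r D} {W : ℕ} {i : Fin k → Fin r}
    {p : F.Ω → ℝ} (hp : IsLaw p) {u v : ℕ → ℕ} {B : ℝ} (hB : 0 ≤ B) (h : Lk d K Df W i p v B)
    (hi : Function.Injective i) (hX : ∀ j, v (i j) + d.X ≤ u (i j))
    (hth : ∀ ω, 0 < p ω → 0 ≤ d.th ω ∧ d.th ω < 1)
    (hA : ∀ ω, 0 < p ω → ∀ j, (d.A ω j).natDegree ≤ K) :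
    CH p (Vfd Df W u v) (fun ω => (d.Y K ω, (d.th ω, d.g K ω))) ≤
      ∑ l ∈ range r, ((u l - v l : ℕ) : ℝ) * Real.log 2 - k * d.X * Real.log 2 +
        k * Real.log (2 * (B + 1) + 1) := by
  refine vfd_few Df W hp _ i hi hX hB fun ω ω' a b e j => ?_
  simp only [Prod.mk.injEq] at e
  obtain ⟨e1, e2, e3⟩ := e
  exact h ω ω' a b e2 e3 (fun j => A_near e2 (hth ω a) (ac_of e1 e3) (hA ω a j) (hA ω' b j)) j

/-- **The link for the first base coordinate**: the lower coordinates are known exactly. -/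
theorem lk_first {d : AD F.Ω β 1} {K : ℕ} {Df : Dat F κ r D} {W a : ℕ} (ha : a ≤ J)
    {p : F.Ω → ℝ} {A : F.Ω → Prop} {c : ℕ → Fin m} {E₀ : ℕ} (hF : FrD Df A W c E₀)
    (hpA : ∀ ω, 0 < p ω → A ω) {l : Fin r} {v : ℕ → ℕ}
    {H : LnT F → ℕ → MvPolynomial (Option (Fin m)) ℝ} {E : ℕ} (hE : v l ≤ E + d.m)
    (hA : ∀ ω, d.A ω 0 = Polynomial.C (2 ^ E) * dv a (fun s _ => H s l) (c l) (slam F a ω))
    (hdep : ∀ s, DepC c l (H s l)) (hth : ∀ ω, d.th ω = rt F a ω)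
    (hz : ∀ ω ν, 0 < p ω → 0 < p ν → d.z ω = d.z ν → F.T1 a ω = F.T1 a ν ∧
      Df.fc (slam F W ω) = Df.fc (slam F W ν) ∧
      H (slam F a ω) l = H (slam F a ν) l ∧
      ∀ i < (l : ℕ), F.u ω (c i) = F.u ν (c i) ∧ F.d ω (c i) = F.d ν (c i)) :
    Lk d K Df W (fun _ => l) p v (K + 1) := by
  intro ω ω' hω hω' e1 e2 e3 j
  have e4 : d.z ω = d.z ω' := (Prod.ext_iff.mp e2).1
  obtain ⟨z1, z2, z3, z4⟩ := hz ω ω' hω hω' e4
  have ht : rt F a ω = rt F a ω' := by rw [← hth, ← hth, e1]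
  have hT : F.T ω = F.T ω' := T_of_tw F ha z1 (by rw [tw_rt F ha, tw_rt F ha, ht])
  obtain ⟨φ, -, f2⟩ := hF.frm ω' ω (hpA ω' hω') (hpA ω hω) hT.symm z2.symm l l.2.le
  have htt : F.t ω = F.t ω' := by
    unfold Fam.t
    rw [hT]
  have hx : ∀ i < (l : ℕ), F.x ω (c i) = F.x ω' (c i) := fun i hi => by
    have := z4 i hi
    show F.u ω (c i) + F.t ω * F.d ω (c i) = F.u ω' (c i) + F.t ω' * F.d ω' (c i)
    rw [this.1, this.2, htt]
  have f3 : ∑ i ∈ range (l : ℕ), φ i * (F.x ω (c i) - F.x ω' (c i)) = 0 :=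
    Finset.sum_eq_zero fun i hi => by
      rw [hx i (Finset.mem_range.1 hi), sub_self, mul_zero]
  rw [f3, sub_zero] at f2
  -- the own position
  have g1 : ∀ ω, (d.A ω 0).eval (d.th ω) =
      2 ^ E * (F.x ω (c l) - eval (bt F ω) (H (slam F a ω) l)) := by
    intro ω
    rw [hA ω, Polynomial.eval_mul, Polynomial.eval_C, hth, dv_rt F ha]
  have g2 : eval (bt F ω) (H (slam F a ω) l) = eval (bt F ω') (H (slam F a ω') l) := by
    rw [z3]
    refine hdep _ _ _ ?_ fun i hi => ?_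
    · exact htt
    · exact hx i hi
  have g3 := e3 0
  rw [g1, g1, g2] at g3
  have hs : (0 : ℝ) < 2 ^ (d.X + d.m) := by positivity
  rw [← mul_sub, f2, abs_mul, abs_of_pos (by positivity : (0 : ℝ) < 2 ^ (v l + d.X))]
  have g4 : 2 ^ E * |F.x ω (c l) - F.x ω' (c l)| ≤ (K + 1) / 2 ^ (d.X + d.m) := by
    refine le_trans (le_of_eq ?_) g3
    rw [← mul_sub, abs_mul, abs_of_pos (by positivity : (0 : ℝ) < 2 ^ E)]
    congr 2
    ring
  rw [le_div_iff₀ hs] at g4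
  refine le_trans ?_ g4
  have g5 : (2 : ℝ) ^ (v l + d.X) ≤ 2 ^ E * 2 ^ (d.X + d.m) := by
    rw [← pow_add]
    exact pow_le_pow_right₀ (by norm_num) (by omega)
  calc _ ≤ (2 ^ E * 2 ^ (d.X + d.m)) * |F.x ω (c l) - F.x ω' (c l)| :=
        mul_le_mul_of_nonneg_right g5 (abs_nonneg _)
    _ = _ := by ring

end vy

end Pool.AVG57
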