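import Pool.Agent.H57.AVG.Cvt

/-!
# The digits of the own jets of orders zero and one are few bits given the context

`nat_v`: digits of the jets of the base coordinates given `(th, v)`. `jet2`: the digits of the own
jets of orders `0`, `1` of the coordinates `r₀ ≤ l < r` (a function for the quantity `qJets`);
`jet2_v`: they are few bits given `(th, v)`. `prN_g`: position and velocity of the target given
`(th, g)`.
-/

set_option autoImplicit false

namespace Pool.AVG57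

open Finset Real MvPolynomial
open Pool.Agent.H49.Ent Pool.Agent.H32.Dense Pool.STK Pool.KA Pool.KSAT Pool.K2S Pool.PB Pool.S6C
open Pool.GEN Pool.CHT Pool.CHX Pool.ISO Pool.LA91 Pool.AVG71 Pool.AVG5
open Pool.PB.Trl (rt rt_mem t_rt)
open Pool.KVA (MI)

variable {m J : ℕ}

section pure

variable {Ω β : Type} {k K : ℕ} {d : AD Ω β k}

/-- The jets of the base coordinates from the higher coefficients and the upper digits. -/
theorem ja_v {ω ω' : Ω} (hth : 0 ≤ d.th ω ∧ d.th ω < 1) (hT : d.th ω = d.th ω') {j : Fin k}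
    (hP : (d.A ω j).natDegree ≤ K) (hP' : (d.A ω' j).natDegree ≤ K)
    (h1' : ∀ a : Fin K, d.ac K ω j a.succ = d.ac K ω' j a.succ)
    (h2' : d.ac K ω j 0 / 2 ^ (d.X + d.m) = d.ac K ω' j 0 / 2 ^ (d.X + d.m)) :
    |(d.A ω j).eval (d.th ω) - (d.A ω' j).eval (d.th ω')| ≤ 2 ^ (K + 1) ∧ ∀ a, 1 ≤ a →
      |jt (d.A ω j) (d.th ω) a - jt (d.A ω' j) (d.th ω') a| ≤
        2 ^ (K + 1) * (1 / 2 ^ (d.X + d.m)) := by
  have hs : ∀ i : Fin (K + 1), 1 ≤ (i : ℕ) → d.ac K ω j i = d.ac K ω' j i := by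
    intro i hi
    have h3 := h1' ⟨i - 1, by omega⟩
    have h4 : (⟨(i : ℕ) - 1, by omega⟩ : Fin K).succ = i := Fin.ext (by simp; omega)
    rwa [h4] at h3
  constructor
  · rw [← jt_zero, ← jt_zero, ← hT]
    have h5 := jt_dif hP hP' (th_abs hth hT) zero_le_one (θ := d.th ω) (a := 0) fun i _ hK => ?_
    · rwa [mul_one] at h5
    · rcases Nat.eq_zero_or_pos i with h6 | h6
      · rw [h6]
        exact Pool.AVG5.ac_near hth hT h2'
      · have h7 := hs ⟨i, by omega⟩ h6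
        unfold AD.ac at h7
        have h8 := of_fl (by positivity) h7
        refine h8.trans ?_
        rw [div_le_one (by positivity)]
        exact one_le_pow₀ (by norm_num)
  · intro a ha
    exact ja_co hth hT hP hP' fun i hi => hs i (ha.trans hi)

variable [Fintype Ω] {p : Ω → ℝ}

/-- **Natural digits of the jets of the base coordinates are few given `(th, v)`.** -/
theorem nat_v (H : Pth d K p) {ι : Type} [Fintype ι] (kd : ι → Fin k × ℕ) (τ : ι → ℝ)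
    (h0 : ∀ i, 0 ≤ τ i) (h1 : ∀ i, τ i ≤ 1 ∨ (1 ≤ (kd i).2 ∧ τ i ≤ 2 ^ (d.X + d.m))) :
    CH p (fun ω i => ⌊τ i * jj d ω (some (kd i).1) (kd i).2⌋) (fun ω => (d.th ω, d.v K ω)) ≤
      Fintype.card ι * cJ K := by
  refine CH_near H.law _ _ (c_pos K) fun ω ω' hω hω' e i => ?_
  simp only [Prod.mk.injEq] at e
  have hT : d.th ω = d.th ω' := e.1
  have e2 := e.2
  unfold AD.v at e2
  simp only [Prod.mk.injEq] at e2
  obtain ⟨-, e3, e4⟩ := e2
  obtain ⟨j, hj⟩ : ∃ j, j = (kd i).1 := ⟨_, rfl⟩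
  have key : |τ i * jj d ω (some (kd i).1) (kd i).2 - τ i * jj d ω' (some (kd i).1) (kd i).2| ≤
      2 ^ (K + 1) := by
    rw [← mul_sub, abs_mul, abs_of_nonneg (h0 i), ← hj]
    have p0 : (0 : ℝ) < 2 ^ (K + 1) := by positivity
    obtain ⟨h4, h5⟩ := ja_v (H.th ω hω) hT (H.dA ω hω j) (H.dA ω' hω' j)
      (fun a => congrFun (congrFun e3 j) a) (congrFun e4 j)
    rcases h1 i with h3 | ⟨h6, h3⟩
    · have h7 : |jj d ω (some j) (kd i).2 - jj d ω' (some j) (kd i).2| ≤ 2 ^ (K + 1) := by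
        rcases Nat.eq_zero_or_pos (kd i).2 with h8 | h8
        · rw [h8]
          have h9 : ∀ o, jj d o (some j) 0 = (d.A o j).eval (d.th o) := fun o => jt_zero _ _
          rw [h9, h9]
          exact h4
        · refine (h5 _ h8).trans (mul_le_of_le_one_right p0.le ?_)
          rw [div_le_one (by positivity)]
          exact one_le_pow₀ (by norm_num)
      calc τ i * |jj d ω (some j) (kd i).2 - jj d ω' (some j) (kd i).2| ≤ 1 * 2 ^ (K + 1) :=
            mul_le_mul h3 h7 (abs_nonneg _) zero_le_one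
        _ = _ := one_mul _
    · have h7 := h5 _ h6
      calc τ i * |jj d ω (some j) (kd i).2 - jj d ω' (some j) (kd i).2| ≤
          2 ^ (d.X + d.m) * (2 ^ (K + 1) * (1 / 2 ^ (d.X + d.m))) :=
            mul_le_mul h3 h7 (abs_nonneg _) (by positivity)
        _ = _ := by field_simp
  have h2 := fl_abs (τ i * jj d ω (some (kd i).1) (kd i).2)
    (τ i * jj d ω' (some (kd i).1) (kd i).2)
  linarith

end pure

/-- **The digits of the own jets** of orders `0`, `1` of the coordinates `r₀ ≤ l < r`. -/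
noncomputable def jet2 (F : Fam m J) (c : ℕ → Fin m) (w : ℕ)
    (H : LnT F → ℕ → MvPolynomial (Option (Fin m)) ℝ) (r₀ r : ℕ) (N : ℕ → ℕ → ℝ) (ω : F.Ω)
    (l j' : ℕ) : ℤ :=
  if r₀ ≤ l ∧ l < r ∧ j' ≤ 1 then
    ⌊(2 : ℝ) ^ (N l j' * J) * ojet F (c l) j' (H (slam F w ω) l) ω⌋ else 0

/-- Position and velocity of the coordinate `l`. -/
noncomputable def pr2 (F : Fam m J) (c : ℕ → Fin m) (w : ℕ)
    (H : LnT F → ℕ → MvPolynomial (Option (Fin m)) ℝ) (l : ℕ) (N : ℕ → ℝ) (ω : F.Ω) : ℤ × ℤ :=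
  (⌊(2 : ℝ) ^ (N 0 * J) * ojet F (c l) 0 (H (slam F w ω) l) ω⌋,
    ⌊(2 : ℝ) ^ (N 1 * J) * ojet F (c l) 1 (H (slam F w ω) l) ω⌋)

section

variable {F : Fam m J} {c : ℕ → Fin m} {k₀ k n q w W X mm : ℕ} {γ : ℕ → ℕ}
  {G : ℕ → PtT F → ℕ → MvPolynomial (Option (Fin m)) ℝ}
  {H : LnT F → ℕ → MvPolynomial (Option (Fin m)) ℝ} {ζ : Type} {zw : F.Ω → ζ} {B : F.Ω → Prop}

/-- The paths of `adM`. -/
theorem adM_pth {p : F.Ω → ℝ} (hp : IsLaw p) {D K : ℕ} (hH : ∀ s l, (H s l).totalDegree ≤ D)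
    (hK : D + 1 ≤ K) (hW : W ≤ J) : Pth (adM F c k₀ k n q w W X mm γ G H zw) K p where
  law := hp
  th := fun ω _ => adM_th hW ω
  dP := fun ω _ => adM_dP hH hK ω
  dA := fun ω _ j => adM_dA hH hK ω j

theorem two_rp (J : ℕ) (N : ℝ) (n : ℕ) (h : N * J ≤ n) : (2 : ℝ) ^ (N * J) ≤ 2 ^ n := by
  rw [← Real.rpow_natCast]
  exact Real.rpow_le_rpow_of_exponent_le one_le_two h

/-- **The jets of the base coordinates given `(th, v)`.** -/
theorem jet2_v {p : F.Ω → ℝ} (hp : IsLaw p) {D K : ℕ} (hH : ∀ s l, (H s l).totalDegree ≤ D)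
    (hK : D + 1 ≤ K) (hwW : w ≤ W) (hW : W ≤ J) {N : ℕ → ℕ → ℝ}
    (h0 : ∀ l, k₀ ≤ l → l < k₀ + k → N l 0 * J ≤ (γ l + q : ℕ))
    (h1 : ∀ l, k₀ ≤ l → l < k₀ + k → N l 1 * J + W ≤ (γ l + q + (X + mm) : ℕ)) :
    CH p (jet2 F c w H k₀ (k₀ + k) N) (fun ω => ((adM F c k₀ k n q w W X mm γ G H zw).th ω,
      (adM F c k₀ k n q w W X mm γ G H zw).v K ω)) ≤ 2 * k * cJ K := by
  obtain ⟨d, hd⟩ : ∃ d, d = adM F c k₀ k n q w W X mm γ G H zw := ⟨_, rfl⟩
  have hP := adM_pth (c := c) (k₀ := k₀) (k := k) (n := n) (q := q) (w := w) (X := X) (mm := mm)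
    (γ := γ) (G := G) (zw := zw) hp hH hK hW
  have hX : (adM F c k₀ k n q w W X mm γ G H zw).X = X := rfl
  have hm : (adM F c k₀ k n q w W X mm γ G H zw).m = mm := rfl
  have hj := fun (ω : F.Ω) (j : Fin k) (a : ℕ) => jt_adM (c := c) (k₀ := k₀) (n := n) (q := q)
    (X := X) (mm := mm) (γ := γ) (G := G) (H := H) (zw := zw) hwW hW ω (some j) a
  rw [← hd] at hP hX hm ⊢
  simp only [← hd] at hj
  obtain ⟨τ, hτ⟩ : ∃ τ : Fin k × Fin 2 → ℝ, τ = fun i => (2 : ℝ) ^ (N (k₀ + i.1) i.2 * J) *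
    (2 ^ W) ^ (i.2 : ℕ) / 2 ^ (γ (k₀ + i.1) + q) := ⟨_, rfl⟩
  have b := nat_v hP (fun i : Fin k × Fin 2 => (i.1, (i.2 : ℕ))) τ (fun i => by
    rw [hτ]
    positivity) (fun i => ?_)
  · have e : ∀ (ω : F.Ω) (i : Fin k × Fin 2), ⌊τ i * jj d ω (some i.1) (i.2 : ℕ)⌋ =
        jet2 F c w H k₀ (k₀ + k) N ω (k₀ + i.1) i.2 := by
      rintro ω ⟨j, a⟩
      have hj2 := j.2
      have ha := a.2
      unfold jet2
      rw [if_pos ⟨by omega, by omega, by omega⟩, hj ω j a, hτ]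
      congr 1
      have hf : ((a : ℕ).factorial : ℝ) = 1 := by
        have : (a : ℕ) = 0 ∨ (a : ℕ) = 1 := by omega
        rcases this with h | h <;> rw [h] <;> simp
      have h3 : (0 : ℝ) < (2 ^ W) ^ (a : ℕ) := by positivity
      show 2 ^ (N (k₀ + j) a * J) * (2 ^ W) ^ (a : ℕ) / 2 ^ (γ (k₀ + j) + q) *
        (2 ^ (γ (k₀ + j) + q) * (ojet F (c (k₀ + j)) a (H (slam F w ω) (k₀ + j)) ω /
          (((a : ℕ).factorial : ℝ) * (2 ^ W) ^ (a : ℕ)))) = _
      rw [hf, one_mul]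
      field_simp
    have e2 : CH p (jet2 F c w H k₀ (k₀ + k) N) (fun ω => (d.th ω, d.v K ω)) ≤
        CH p (fun ω (i : Fin k × Fin 2) => ⌊τ i * jj d ω (some i.1) (i.2 : ℕ)⌋)
          (fun ω => (d.th ω, d.v K ω)) := by
      refine CH_mono_left hp.nonneg fun ω ν _ _ hh => ?_
      have h2 := (Prod.ext_iff.mp hh).1
      funext l j'
      by_cases h3 : k₀ ≤ l ∧ l < k₀ + k ∧ j' ≤ 1
      · obtain ⟨a1, a2, a3⟩ := h3
        have h4 := congrFun h2 (⟨l - k₀, by omega⟩, ⟨j', by omega⟩)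
        simp only [e] at h4
        rw [show k₀ + (l - k₀) = l by omega] at h4
        exact h4
      · unfold jet2
        rw [if_neg h3, if_neg h3]
    refine e2.trans (b.trans (le_of_eq ?_))
    rw [Fintype.card_prod, Fintype.card_fin, Fintype.card_fin]
    push_cast
    ring
  · obtain ⟨j, a⟩ := i
    have hj2 := j.2
    have ha := a.2
    rw [hτ, hX, hm]
    have p1 : (0 : ℝ) < 2 ^ (γ (k₀ + j) + q) := by positivity
    rcases Nat.eq_zero_or_pos (a : ℕ) with h2 | h2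
    · left
      show (2 : ℝ) ^ (N (k₀ + j) a * J) * (2 ^ W) ^ (a : ℕ) / 2 ^ (γ (k₀ + j) + q) ≤ 1
      rw [h2, pow_zero, mul_one, div_le_one p1]
      exact two_rp J _ _ (h0 (k₀ + j) (by omega) (by omega))
    · right
      have h3 : (a : ℕ) = 1 := by omega
      refine ⟨h2, ?_⟩
      show (2 : ℝ) ^ (N (k₀ + j) a * J) * (2 ^ W) ^ (a : ℕ) / 2 ^ (γ (k₀ + j) + q) ≤ 2 ^ (X + mm)
      rw [h3, pow_one, div_le_iff₀ p1, ← pow_add, ← Real.rpow_natCast, ← Real.rpow_natCast,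
        ← Real.rpow_add two_pos]
      refine Real.rpow_le_rpow_of_exponent_le one_le_two ?_
      have := h1 (k₀ + j) (by omega) (by omega)
      refine this.trans (le_of_eq ?_)
      push_cast
      ring

/-- **Position and velocity of the target given `(th, g)`.** -/
theorem prN_g {p : F.Ω → ℝ} (hp : IsLaw p) {D K : ℕ} (hH : ∀ s l, (H s l).totalDegree ≤ D)
    (hK : D + 1 ≤ K) (hwW : w ≤ W) (hW : W ≤ J) {N : ℕ → ℝ}
    (h0 : N 0 * J ≤ (γ (k₀ + k) + q : ℕ)) (h1 : N 1 * J + W ≤ (γ (k₀ + k) + q : ℕ)) :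
    CH p (pr2 F c w H (k₀ + k) N) (fun ω => ((adM F c k₀ k n q w W X mm γ G H zw).th ω,
      (adM F c k₀ k n q w W X mm γ G H zw).g K ω)) ≤ 2 * cJ K := by
  obtain ⟨d, hd⟩ : ∃ d, d = adM F c k₀ k n q w W X mm γ G H zw := ⟨_, rfl⟩
  have hP := adM_pth (c := c) (k₀ := k₀) (k := k) (n := n) (q := q) (w := w) (X := X) (mm := mm)
    (γ := γ) (G := G) (zw := zw) hp hH hK hW
  have hj := fun (ω : F.Ω) (a : ℕ) => jt_adM (c := c) (k₀ := k₀) (k := k) (n := n) (q := q)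
    (X := X) (mm := mm) (γ := γ) (G := G) (H := H) (zw := zw) hwW hW ω none a
  rw [← hd] at hP ⊢
  simp only [← hd] at hj
  obtain ⟨τ, hτ⟩ : ∃ τ : Fin 2 → ℝ, τ = fun i : Fin 2 => (2 : ℝ) ^ (N (i : ℕ) * J) *
    (2 ^ W) ^ (i : ℕ) / 2 ^ (γ (k₀ + k) + q) := ⟨_, rfl⟩
  have p1 : (0 : ℝ) < 2 ^ (γ (k₀ + k) + q) := by positivity
  have b := nat_g hP (fun i : Fin 2 => ((none : Option (Fin k)), (i : ℕ))) τ (fun i => by
    rw [hτ]
    positivity) (fun i => ?_)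
  · have e : ∀ (ω : F.Ω) (i : Fin 2), ⌊τ i * jj d ω none (i : ℕ)⌋ =
        ⌊(2 : ℝ) ^ (N i * J) * ojet F (c (k₀ + k)) i (H (slam F w ω) (k₀ + k)) ω⌋ := by
      intro ω a
      have ha := a.2
      rw [hj ω a, hτ]
      congr 1
      have hf : ((a : ℕ).factorial : ℝ) = 1 := by
        have : (a : ℕ) = 0 ∨ (a : ℕ) = 1 := by omega
        rcases this with h | h <;> rw [h] <;> simp
      have h3 : (0 : ℝ) < (2 ^ W) ^ (a : ℕ) := by positivity
      show 2 ^ (N a * J) * (2 ^ W) ^ (a : ℕ) / 2 ^ (γ (k₀ + k) + q) *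
        (2 ^ (γ (k₀ + k) + q) * (ojet F (c (k₀ + k)) a (H (slam F w ω) (k₀ + k)) ω /
          (((a : ℕ).factorial : ℝ) * (2 ^ W) ^ (a : ℕ)))) = _
      rw [hf, one_mul]
      field_simp
    have e2 : CH p (pr2 F c w H (k₀ + k) N) (fun ω => (d.th ω, d.g K ω)) ≤
        CH p (fun ω (i : Fin 2) => ⌊τ i * jj d ω none (i : ℕ)⌋)
          (fun ω => (d.th ω, d.g K ω)) := by
      refine CH_mono_left hp.nonneg fun ω ν _ _ hh => ?_
      have h2 := (Prod.ext_iff.mp hh).1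
      have h3 := congrFun h2 0
      have h4 := congrFun h2 1
      simp only [e] at h3 h4
      exact Prod.ext h3 h4
    refine e2.trans (b.trans (le_of_eq ?_))
    rw [Fintype.card_fin]
    push_cast
    ring
  · left
    have ha := i.2
    rw [hτ]
    show (2 : ℝ) ^ (N i * J) * (2 ^ W) ^ (i : ℕ) / 2 ^ (γ (k₀ + k) + q) ≤ 1
    rw [div_le_one p1]
    rcases Nat.eq_zero_or_pos (i : ℕ) with h2 | h2
    · rw [h2, pow_zero, mul_one]
      exact two_rp J _ _ h0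
    · have h3 : (i : ℕ) = 1 := by omega
      rw [h3, pow_one, ← Real.rpow_natCast, ← Real.rpow_natCast, ← Real.rpow_add two_pos]
      exact Real.rpow_le_rpow_of_exponent_le one_le_two h1

end

end Pool.AVG57
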