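import Pool.Agent.H57.AVG.Gda

/-!
# `AD.Hyp` for arbitrary moved places, context and gradient

`jetm`: the digits of the own jets of orders `0`, `1` of the moved places. `PrG`: the inputs on one
event and one law: `z` the context, `zw` the record of the window `w`, `Yc` the side information.
`PrG.hyp`: `AD.Hyp` for `adG`.
-/

set_option autoImplicit false

namespace Pool.AVG57

open Finset Real MvPolynomial
open Pool.Agent.H49.Ent Pool.Agent.H32.Dense Pool.STK Pool.KA Pool.KSAT Pool.K2S Pool.PB Pool.S6C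
open Pool.GEN Pool.CHT Pool.CHX Pool.ISO Pool.LA91 Pool.AVG71 Pool.AVG5 Pool.D2F2
open Pool.PB.Trl (rt rt_mem t_rt)
open Pool.D2R (hgt)
open Pool.KVA (MI)
open Pool.KAF (rs Pr)
open Pool.OWN68 (CH_chain2)

variable {m J : ℕ}

section ent

variable {Ω 𝓡 𝓨 𝓦 𝓥 : Type} [Fintype Ω] {p : Ω → ℝ}

/-- A common component. -/
theorem CH_pair_ctx (h0 : ∀ ω, 0 ≤ p ω) {Y : Ω → 𝓨} {W : Ω → 𝓦} {W' : Ω → 𝓥} {e : ℝ}
    (h : CH p W W' ≤ e) : CH p (fun ω => (Y ω, W ω)) (fun ω => (Y ω, W' ω)) ≤ e := by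
  have b1 := CH_subadd h0 Y W (fun ω => (Y ω, W' ω))
  have b2 : CH p Y (fun ω => (Y ω, W' ω)) = 0 :=
    CH_eq_zero h0 fun _ _ _ _ e => (Prod.ext_iff.mp e).1
  have b3 : CH p W (fun ω => (Y ω, W' ω)) ≤ CH p W W' :=
    CH_mono_cond h0 fun _ _ _ _ e => (Prod.ext_iff.mp e).2
  linarith

/-- The mutual information under a change of the condition by few bits. -/
theorem MI_few (h0 : ∀ ω, 0 ≤ p ω) (R : Ω → 𝓡) (Y : Ω → 𝓨) {W : Ω → 𝓦} {W' : Ω → 𝓥} {e₁ e₂ : ℝ}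
    (h1 : CH p W W' ≤ e₁) (h2 : CH p W' W ≤ e₂) : MI p R Y W ≤ MI p R Y W' + e₁ + e₂ := by
  rw [MI_eq h0, MI_eq h0]
  have a1 := CH_le_add h0 R W' W
  have a2 : CH p R (fun ω => (W' ω, W ω)) ≤ CH p R W' :=
    CH_mono_cond h0 fun _ _ _ _ e => (Prod.ext_iff.mp e).1
  have a3 := CH_le_add h0 R (fun ω => (Y ω, W ω)) (fun ω => (Y ω, W' ω))
  have a4 : CH p (fun ω => (Y ω, W ω)) (fun ω => (Y ω, W' ω)) ≤ e₁ := CH_pair_ctx h0 h1
  have a5 : CH p R (fun ω => ((Y ω, W ω), (Y ω, W' ω))) ≤ CH p R (fun ω => (Y ω, W ω)) :=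
    CH_mono_cond h0 fun _ _ _ _ e => (Prod.ext_iff.mp e).1
  linarith

end ent

/-- **The digits of the own jets** of orders `0`, `1` of the moved places. -/
noncomputable def jetm (F : Fam m J) (c : ℕ → Fin m) {k : ℕ} (mv : Fin k → ℕ) (w : ℕ)
    (H : LnT F → ℕ → MvPolynomial (Option (Fin m)) ℝ) (N : Fin k → ℕ → ℝ) (ω : F.Ω)
    (i : Fin k × Fin 2) : ℤ :=
  ⌊(2 : ℝ) ^ (N i.1 i.2 * J) * ojet F (c (mv i.1)) i.2 (H (slam F w ω) (mv i.1)) ω⌋

section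

variable {F : Fam m J} {c : ℕ → Fin m} {k : ℕ} {mv : Fin k → ℕ} {i q w W X mm : ℕ} {γ : ℕ → ℕ}
  {gg : F.Ω → Fin k → ℝ} {H : LnT F → ℕ → MvPolynomial (Option (Fin m)) ℝ} {ζ : Type}
  {z : F.Ω → ζ} {B : F.Ω → Prop}

/-- The paths of `adG`. -/
theorem adG_pth {p : F.Ω → ℝ} (hp : IsLaw p) {D K : ℕ} (hH : ∀ s l, (H s l).totalDegree ≤ D)
    (hK : D + 1 ≤ K) (hW : W ≤ J) : Pth (adG F c mv i q w W X mm γ gg H z) K p where
  law := hp
  th := fun ω _ => by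
    have h := tw_mem F hW ω
    rw [tw_rt F hW ω] at h
    exact h
  dP := fun ω _ => (Polynomial.natDegree_C_mul_le _ _).trans ((natDegree_dv W
    (G := fun s (_ : Fin m) => H (upw w W s) i) (fun s _ => hH _ _) _ _).trans hK)
  dA := fun ω _ j => (Polynomial.natDegree_C_mul_le _ _).trans ((natDegree_dv W
    (G := fun s (_ : Fin m) => H (upw w W s) (mv j)) (fun s _ => hH _ _) _ _).trans hK)

/-- **The jets of `adG` are the own jets.** -/
theorem jj_adG (hwW : w ≤ W) (hW : W ≤ J) (ω : F.Ω) (o : Option (Fin k)) (a : ℕ) :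
    jj (adG F c mv i q w W X mm γ gg H z) ω o a = 2 ^ (γ (o.elim i mv) + q) *
      (ojet F (c (o.elim i mv)) a (H (slam F w ω) (o.elim i mv)) ω /
        ((a.factorial : ℝ) * (2 ^ W) ^ a)) := by
  have key : ∀ l : ℕ, jt (Polynomial.C (2 ^ (γ l + q)) *
      dv W (fun s (_ : Fin m) => H (upw w W s) l) (c l) (slam F W ω)) (rt F W ω) a =
      2 ^ (γ l + q) * (ojet F (c l) a (H (slam F w ω) l) ω /
        ((a.factorial : ℝ) * (2 ^ W) ^ a)) := by
    intro l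
    have h1 := ojet_tay F hW ω (c l) (fun s (_ : Fin m) => H (upw w W s) l) a
    rw [upw_slam F hwW hW] at h1
    rw [← h1]
    unfold jt
    rw [Polynomial.taylor_mul, Polynomial.taylor_C, Polynomial.coeff_C_mul]
  cases o with
  | none => exact key i
  | some j => exact key (mv j)

/-- **The jets of the moved places given `(th, v)`.** -/
theorem jetm_v {p : F.Ω → ℝ} (hp : IsLaw p) {D K : ℕ} (hH : ∀ s l, (H s l).totalDegree ≤ D)
    (hK : D + 1 ≤ K) (hwW : w ≤ W) (hW : W ≤ J) {N : Fin k → ℕ → ℝ}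
    (h0 : ∀ j, N j 0 * J ≤ (γ (mv j) + q : ℕ))
    (h1 : ∀ j, N j 1 * J + W ≤ (γ (mv j) + q + (X + mm) : ℕ)) :
    CH p (jetm F c mv w H N) (fun ω => ((adG F c mv i q w W X mm γ gg H z).th ω,
      (adG F c mv i q w W X mm γ gg H z).v K ω)) ≤ 2 * k * cJ K := by
  have hP := adG_pth (c := c) (mv := mv) (i := i) (q := q) (w := w) (X := X) (mm := mm) (γ := γ)
    (gg := gg) (z := z) hp hH hK hW
  have hX : (adG F c mv i q w W X mm γ gg H z).X = X := rfl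
  have hm : (adG F c mv i q w W X mm γ gg H z).m = mm := rfl
  have hj := fun (ω : F.Ω) (j : Fin k) (a : ℕ) => jj_adG (c := c) (mv := mv) (i := i) (q := q)
    (X := X) (mm := mm) (γ := γ) (gg := gg) (H := H) (z := z) hwW hW ω (some j) a
  obtain ⟨d, hd⟩ : ∃ d, d = adG F c mv i q w W X mm γ gg H z := ⟨_, rfl⟩
  rw [← hd] at hP hX hm ⊢
  simp only [← hd] at hj
  obtain ⟨τ, hτ⟩ : ∃ τ : Fin k × Fin 2 → ℝ, τ = fun o => (2 : ℝ) ^ (N o.1 o.2 * J) *
    (2 ^ W) ^ (o.2 : ℕ) / 2 ^ (γ (mv o.1) + q) := ⟨_, rfl⟩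
  have b := nat_v hP (fun o : Fin k × Fin 2 => (o.1, (o.2 : ℕ))) τ (fun o => by
    rw [hτ]
    positivity) (fun o => ?_)
  · have e : ∀ (ω : F.Ω) (o : Fin k × Fin 2), ⌊τ o * jj d ω (some o.1) (o.2 : ℕ)⌋ =
        jetm F c mv w H N ω o := by
      rintro ω ⟨j, a⟩
      have ha := a.2
      unfold jetm
      rw [hj ω j a, hτ]
      congr 1
      have hf : ((a : ℕ).factorial : ℝ) = 1 := by
        have : (a : ℕ) = 0 ∨ (a : ℕ) = 1 := by omega
        rcases this with h | h <;> rw [h] <;> simp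
      have h3 : (0 : ℝ) < (2 ^ W) ^ (a : ℕ) := by positivity
      show 2 ^ (N j a * J) * (2 ^ W) ^ (a : ℕ) / 2 ^ (γ (mv j) + q) *
        (2 ^ (γ (mv j) + q) * (ojet F (c (mv j)) a (H (slam F w ω) (mv j)) ω /
          (((a : ℕ).factorial : ℝ) * (2 ^ W) ^ (a : ℕ)))) = _
      rw [hf, one_mul]
      field_simp
    have e2 : CH p (jetm F c mv w H N) (fun ω => (d.th ω, d.v K ω)) ≤
        CH p (fun ω (o : Fin k × Fin 2) => ⌊τ o * jj d ω (some o.1) (o.2 : ℕ)⌋)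
          (fun ω => (d.th ω, d.v K ω)) := by
      refine CH_mono_left hp.nonneg fun ω ν _ _ hh => ?_
      have h2 := (Prod.ext_iff.mp hh).1
      funext o
      have h4 := congrFun h2 o
      simp only [e] at h4
      exact h4
    refine e2.trans (b.trans (le_of_eq ?_))
    rw [Fintype.card_prod, Fintype.card_fin, Fintype.card_fin]
    push_cast
    ring
  · obtain ⟨j, a⟩ := o
    have ha := a.2
    rw [hτ, hX, hm]
    have p1 : (0 : ℝ) < 2 ^ (γ (mv j) + q) := by positivity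
    rcases Nat.eq_zero_or_pos (a : ℕ) with h2 | h2
    · left
      show (2 : ℝ) ^ (N j a * J) * (2 ^ W) ^ (a : ℕ) / 2 ^ (γ (mv j) + q) ≤ 1
      rw [h2, pow_zero, mul_one, div_le_one p1]
      exact two_rp J _ _ (h0 j)
    · right
      have h3 : (a : ℕ) = 1 := by omega
      refine ⟨h2, ?_⟩
      show (2 : ℝ) ^ (N j a * J) * (2 ^ W) ^ (a : ℕ) / 2 ^ (γ (mv j) + q) ≤ 2 ^ (X + mm)
      rw [h3, pow_one, div_le_iff₀ p1, ← pow_add, ← Real.rpow_natCast, ← Real.rpow_natCast,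
        ← Real.rpow_add two_pos]
      refine Real.rpow_le_rpow_of_exponent_le one_le_two ?_
      have := h1 j
      refine this.trans (le_of_eq ?_)
      push_cast
      ring

/-- **Position and velocity of the target given `(th, g)`.** -/
theorem prG_g {p : F.Ω → ℝ} (hp : IsLaw p) {D K : ℕ} (hH : ∀ s l, (H s l).totalDegree ≤ D)
    (hK : D + 1 ≤ K) (hwW : w ≤ W) (hW : W ≤ J) {N : ℕ → ℝ}
    (h0 : N 0 * J ≤ (γ i + q : ℕ)) (h1 : N 1 * J + W ≤ (γ i + q : ℕ)) :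
    CH p (pr2 F c w H i N) (fun ω => ((adG F c mv i q w W X mm γ gg H z).th ω,
      (adG F c mv i q w W X mm γ gg H z).g K ω)) ≤ 2 * cJ K := by
  have hP := adG_pth (c := c) (mv := mv) (i := i) (q := q) (w := w) (X := X) (mm := mm) (γ := γ)
    (gg := gg) (z := z) hp hH hK hW
  have hj := fun (ω : F.Ω) (a : ℕ) => jj_adG (c := c) (mv := mv) (i := i) (q := q)
    (X := X) (mm := mm) (γ := γ) (gg := gg) (H := H) (z := z) hwW hW ω none a
  obtain ⟨d, hd⟩ : ∃ d, d = adG F c mv i q w W X mm γ gg H z := ⟨_, rfl⟩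
  rw [← hd] at hP ⊢
  simp only [← hd] at hj
  obtain ⟨τ, hτ⟩ : ∃ τ : Fin 2 → ℝ, τ = fun o : Fin 2 => (2 : ℝ) ^ (N (o : ℕ) * J) *
    (2 ^ W) ^ (o : ℕ) / 2 ^ (γ i + q) := ⟨_, rfl⟩
  have p1 : (0 : ℝ) < 2 ^ (γ i + q) := by positivity
  have b := nat_g hP (fun o : Fin 2 => ((none : Option (Fin k)), (o : ℕ))) τ (fun o => by
    rw [hτ]
    positivity) (fun o => ?_)
  · have e : ∀ (ω : F.Ω) (o : Fin 2), ⌊τ o * jj d ω none (o : ℕ)⌋ =
        ⌊(2 : ℝ) ^ (N o * J) * ojet F (c i) o (H (slam F w ω) i) ω⌋ := by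
      intro ω a
      have ha := a.2
      rw [hj ω a, hτ]
      congr 1
      have hf : ((a : ℕ).factorial : ℝ) = 1 := by
        have : (a : ℕ) = 0 ∨ (a : ℕ) = 1 := by omega
        rcases this with h | h <;> rw [h] <;> simp
      have h3 : (0 : ℝ) < (2 ^ W) ^ (a : ℕ) := by positivity
      show 2 ^ (N a * J) * (2 ^ W) ^ (a : ℕ) / 2 ^ (γ i + q) *
        (2 ^ (γ i + q) * (ojet F (c i) a (H (slam F w ω) i) ω /
          (((a : ℕ).factorial : ℝ) * (2 ^ W) ^ (a : ℕ)))) = _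
      rw [hf, one_mul]
      field_simp
    have e2 : CH p (pr2 F c w H i N) (fun ω => (d.th ω, d.g K ω)) ≤
        CH p (fun ω (o : Fin 2) => ⌊τ o * jj d ω none (o : ℕ)⌋)
          (fun ω => (d.th ω, d.g K ω)) := by
      refine CH_mono_left hp.nonneg fun ω ν _ _ hh => ?_
      have h2 := (Prod.ext_iff.mp hh).1
      have h3 := congrFun h2 0
      have h4 := congrFun h2 1
      simp only [e] at h3 h4
      exact Prod.ext h3 h4
    refine e2.trans (b.trans (le_of_eq ?_))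
    rw [Fintype.card_fin]
    push_cast
    ring
  · left
    have ha := o.2
    rw [hτ]
    show (2 : ℝ) ^ (N o * J) * (2 ^ W) ^ (o : ℕ) / 2 ^ (γ i + q) ≤ 1
    rw [div_le_one p1]
    rcases Nat.eq_zero_or_pos (o : ℕ) with h2 | h2
    · rw [h2, pow_zero, mul_one]
      exact two_rp J _ _ h0
    · have h3 : (o : ℕ) = 1 := by omega
      rw [h3, pow_one, ← Real.rpow_natCast, ← Real.rpow_natCast, ← Real.rpow_add two_pos]
      exact Real.rpow_le_rpow_of_exponent_le one_le_two h1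

end

/-- **The inputs** on one event `B` and for one law `p`, general form. `Rj`, `Rx`: the records of the
balls `j`, `x`; `Cj`, `Cx`: their charts; `zw`: the record of `w`; `Yc`: the side information; `z`: the
context, a function of the line and the window. -/
structure PrG (F : Fam m J) (c : ℕ → Fin m) {k : ℕ} (mv : Fin k → ℕ) (i q w W X mm D K : ℕ)
    (γ : ℕ → ℕ) (B : F.Ω → Prop) (G₀ : PtT F → ℕ → MvPolynomial (Option (Fin m)) ℝ)
    (H : LnT F → ℕ → MvPolynomial (Option (Fin m)) ℝ) (gg : F.Ω → Fin k → ℝ)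
    {ζ ζ' υ' χ₁ χ₂ ρ₁ ρ₂ υ : Type} (z : F.Ω → ζ) (zw : F.Ω → ζ') (Yc : F.Ω → υ')
    (Cj : F.Ω → χ₁) (Cx : F.Ω → χ₂) (Rj : F.Ω → ρ₁) (Rx : F.Ω → ρ₂) (V : F.Ω → υ)
    (p : F.Ω → ℝ) (Nf Nn Nx Nu Nv : Fin k → ℕ → ℝ) (Mf Mn : ℕ → ℝ) (U Fv e : ℝ) : Prop where
  law : IsLaw p
  sup : ∀ ω, 0 < p ω → B ω
  wW : w ≤ W
  WJ : W ≤ J
  deg : ∀ s l, (H s l).totalDegree ≤ D
  DK : D + 1 ≤ K
  KX : (K : ℝ) ≤ 2 ^ (X + mm)
  cls : ClsG F mv i w B G₀ H
  grd : GrdA F c mv i q X γ U B G₀ gg z Cj Cx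
  mU : U + 1 ≤ 2 ^ mm
  zT : Det p z (F.T1 W)
  czy : CH p (fun ω => (rt F W ω, z ω)) (fun ω => (zw ω, Yc ω)) ≤ e
  cyz : CH p (fun ω => (zw ω, Yc ω)) (fun ω => (rt F W ω, z ω)) ≤ e
  ti : MI p (rt F W) ((adG F c mv i q w W X mm γ gg H z).L K)
    ((adG F c mv i q w W X mm γ gg H z).g K) ≤ e
  mj : MI p Rj (fun ω => (jetm F c mv w H Nf ω, pr2 F c w H i Mf ω))
    (fun ω => ((jetm F c mv w H Nn ω, pr2 F c w H i Mn ω), (zw ω, Yc ω))) ≤ e
  mx : MI p Rx (jetm F c mv w H Nf)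
    (fun ω => (jetm F c mv w H Nx ω, (zw ω, Yc ω))) ≤ e
  chj : CH p Cj Rj ≤ e
  chx : CH p Cx Rx ≤ e
  zx : CH p zw Rx ≤ e
  n0 : ∀ j, Nn j 0 * J ≤ (γ (mv j) + q : ℕ)
  n1 : ∀ j, Nn j 1 * J + W ≤ (γ (mv j) + q + (X + mm) : ℕ)
  x0 : ∀ j, Nx j 0 * J ≤ (γ (mv j) + q : ℕ)
  x1 : ∀ j, Nx j 1 * J + W ≤ (γ (mv j) + q + (X + mm) : ℕ)
  u0 : ∀ j, Nu j 0 * J ≤ (γ (mv j) + q : ℕ)
  u1 : ∀ j, Nu j 1 * J + W ≤ (γ (mv j) + q + (X + mm) : ℕ)
  m0 : Mn 0 * J ≤ (γ i + q : ℕ)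
  m1 : Mn 1 * J + W ≤ (γ i + q : ℕ)
  mf : ((γ i + q + X : ℕ) : ℝ) ≤ Mf 0 * J
  ac : CH p ((adG F c mv i q w W X mm γ gg H z).ac K) (fun ω =>
    (jetm F c mv w H Nf ω, (rt F W ω, z ω))) ≤ e
  va : CH p (fun ω => ((adG F c mv i q w W X mm γ gg H z).v K ω).2) (fun ω =>
    (jetm F c mv w H Nv ω, (rt F W ω, z ω))) ≤ e
  dj : CH p (cod F w (fun s => H s i) (c i) (γ i + q + X) 1 K)
    (fun ω => (jetm F c mv w H Nf ω, (zw ω, Yc ω))) ≤ e
  jt : CH p (cod F w (fun s => H s i) (c i) (γ i + q) 0 K)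
    (fun ω => (jetm F c mv w H Nu ω, (Rx ω, Yc ω))) ≤ e
  vf : Fv - e ≤ CH p V (fun ω => (jetm F c mv w H Nv ω, (Rx ω, Yc ω)))

section

variable {F : Fam m J} {c : ℕ → Fin m} {k : ℕ} {mv : Fin k → ℕ} {i q w W X mm D K : ℕ} {γ : ℕ → ℕ}
  {B : F.Ω → Prop} {G₀ : PtT F → ℕ → MvPolynomial (Option (Fin m)) ℝ}
  {H : LnT F → ℕ → MvPolynomial (Option (Fin m)) ℝ} {gg : F.Ω → Fin k → ℝ}
  {ζ ζ' υ' χ₁ χ₂ ρ₁ ρ₂ υ : Type} {z : F.Ω → ζ} {zw : F.Ω → ζ'} {Yc : F.Ω → υ'}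
  {Cj : F.Ω → χ₁} {Cx : F.Ω → χ₂} {Rj : F.Ω → ρ₁} {Rx : F.Ω → ρ₂} {V : F.Ω → υ} {M : F.Ω → ℤ}
  {p : F.Ω → ℝ} {Nf Nn Nx Nu Nv : Fin k → ℕ → ℝ} {Mf Mn : ℕ → ℝ} {U Fv e : ℝ}

/-- **`AD.Hyp` for `adG`.** -/
theorem PrG.hyp (P : PrG F c mv i q w W X mm D K γ B G₀ H gg z zw Yc Cj Cx Rj Rx V p Nf Nn
      Nx Nu Nv Mf Mn U Fv e) {π₀ Ur Bq eV : ℝ} {h : ℕ} (hB0 : 0 ≤ Bq) (heV : 0 ≤ eV)
    (hvb : ∀ q' : F.Ω → ℝ, IsLaw q' → (∀ ω, 0 < q' ω → 0 < p ω) →
      CH q' V (fun ω => ((adG F c mv i q w W X mm γ gg H z).T ω,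
        (adG F c mv i q w W X mm γ gg H z).g K ω)) ≤ Fv + eV)
    (hvy : CH p V (fun ω => ((adG F c mv i q w W X mm γ gg H z).Y K ω,
        (rt F W ω, (adG F c mv i q w W X mm γ gg H z).g K ω))) ≤
      Fv + eV - k * X * Real.log 2)
    (hqv : ∀ ω ω', 0 < p ω → 0 < p ω' → V ω = V ω' →
      (adG F c mv i q w W X mm γ gg H z).T ω = (adG F c mv i q w W X mm γ gg H z).T ω' →
      (adG F c mv i q w W X mm γ gg H z).g K ω = (adG F c mv i q w W X mm γ gg H z).g K ω' →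
      |((adG F c mv i q w W X mm γ gg H z).Q ω - M ω) -
        ((adG F c mv i q w W X mm γ gg H z).Q ω' - M ω')| ≤ Bq)
    (hrow : ∀ j : ℕ, (j + 1) * h ≤ X → ∀ E : Set F.Ω, π₀ ≤ Pr p E →
      CH (rs p E) (fun ω => M ω / 2 ^ (X - (j + 1) * h))
        (fun ω => (M ω / 2 ^ (X - j * h), (V ω,
          ((adG F c mv i q w W X mm γ gg H z).T ω,
            (adG F c mv i q w W X mm γ gg H z).g K ω)))) ≤ Ur) :
    (adG F c mv i q w W X mm γ gg H z).Hyp K p Rj Rx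
      (fun ω => (jetm F c mv w H Nn ω, pr2 F c w H i Mn ω))
      (jetm F c mv w H Nx)
      (fun ω => (jetm F c mv w H Nf ω, pr2 F c w H i Mf ω))
      (jetm F c mv w H Nf) V M (Fv + eV) (4 * e + cE0 k K U + eV) Bq Ur π₀ h := by
  have hp := P.law
  have h0 := hp.nonneg
  have hwW := P.wW
  have hW := P.WJ
  have he : 0 ≤ e := (CH_nonneg h0 _ _).trans P.chj
  have hU := P.grd.U0
  have hcJ := cJ_nonneg K
  have hcA := cA_nonneg K
  have hl5 : 0 ≤ Real.log 5 := Real.log_nonneg (by norm_num)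
  have hlU : 0 ≤ Real.log (2 * (U + 1) + 1) := Real.log_nonneg (by linarith)
  have hkU : 0 ≤ k * Real.log (2 * (U + 1) + 1) := by positivity
  have hlN : 0 ≤ Real.log (2 * (U + 4 * k + 2 * ((K + 1) * (k + 1)) + 1) + 1) := by
    refine Real.log_nonneg ?_
    have : (0 : ℝ) ≤ 4 * k + 2 * ((K + 1) * (k + 1)) := by positivity
    linarith
  have hkJ : 0 ≤ (2 * (k : ℝ) + 3) * cJ K := by positivity
  have hk2 : 0 ≤ 2 * (k : ℝ) * cJ K := by positivity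
  have hkJ' : (2 * (k : ℝ) + 3) * cJ K = 2 * k * cJ K + 3 * cJ K := by ring
  have hE0 : cE0 k K U = cA K + (2 * k + 3) * cJ K + Real.log 5 +
    k * Real.log (2 * (U + 1) + 1) +
    Real.log (2 * (U + 4 * k + 2 * ((K + 1) * (k + 1)) + 1) + 1) := rfl
  have hPth : Pth (adG F c mv i q w W X mm γ gg H z) K p := adG_pth hp P.deg P.DK hW
  have hdeg : ∀ s, (dv w (fun s (_ : Fin m) => H s i) (c i) s).natDegree ≤ K :=
    fun s => (natDegree_dv w (G := fun s (_ : Fin m) => H s i) (fun s _ => P.deg s _) _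
      s).trans P.DK
  have hth : ∀ ω, 0 < p ω → 0 ≤ (adG F c mv i q w W X mm γ gg H z).th ω ∧
    (adG F c mv i q w W X mm γ gg H z).th ω < 1 := hPth.th
  have hA := hPth.dA
  have hPd := hPth.dP
  have hbm : ∀ ω, B ω → ∀ j, |(adG F c mv i q w W X mm γ gg H z).bb ω j| ≤ U + 1 :=
    fun ω hω j => adG_bm P.grd hω j
  have f_nc : ∀ (𝓦 : Type) (Z : F.Ω → 𝓦), Det p Z (F.T1 W) → ∀ e : ℝ,
      CH p (cod F w (fun s => H s i) (c i) (γ i + q + X) 1 K) Z ≤ e →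
      CH p (fun ω (a : Fin K) => (adG F c mv i q w W X mm γ gg H z).nc K ω a.succ) Z ≤
        e + cA K := fun 𝓦 Z hZ e he => CH_nc (c := c) (k₀ := i) (k := 0) (n := 0) (q := q)
    (X := X) (mm := mm) (γ := γ) (G := fun _ _ _ => 0) (zw := fun _ => ()) hp hwW hW hdeg Z hZ he
  have f_ncd : ∀ (𝓦 : Type) (Z : F.Ω → 𝓦), Det p Z (F.T1 W) → ∀ e : ℝ,
      CH p (cod F w (fun s => H s i) (c i) (γ i + q) 0 K) Z ≤ e →
      CH p (fun ω (a : Fin (K + 1)) => (adG F c mv i q w W X mm γ gg H z).nc K ω a / 2 ^ X) Z ≤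
        e + cA K := fun 𝓦 Z hZ e he => CH_ncd (c := c) (k₀ := i) (k := 0) (n := 0) (q := q)
    (X := X) (mm := mm) (γ := γ) (G := fun _ _ _ => 0) (zw := fun _ => ()) hp hwW hW hdeg Z hZ he
  have f_val : ∀ (𝓦 : Type) (Z : F.Ω → 𝓦), Det p Z (pr2 F c w H i Mf) →
      CH p (fun ω => ⌊(2 : ℝ) ^ X * ((adG F c mv i q w W X mm γ gg H z).P ω).eval
        ((adG F c mv i q w W X mm γ gg H z).th ω)⌋) Z ≤ Real.log 5 := fun 𝓦 Z hZ =>
    CH_val (c := c) (k₀ := i) (k := 0) (n := 0) (q := q) (X := X) (mm := mm) (γ := γ)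
      (G := fun _ _ _ => 0) (H := H) (zw := fun _ => ()) hp hwW hW Z P.mf hZ
  have jn := jetm_v (c := c) (mv := mv) (i := i) (q := q) (X := X) (mm := mm) (γ := γ) (gg := gg)
    (z := z) hp P.deg P.DK hwW hW P.n0 P.n1
  have jx := jetm_v (c := c) (mv := mv) (i := i) (q := q) (X := X) (mm := mm) (γ := γ) (gg := gg)
    (z := z) hp P.deg P.DK hwW hW P.x0 P.x1
  have ju := jetm_v (c := c) (mv := mv) (i := i) (q := q) (X := X) (mm := mm) (γ := γ) (gg := gg)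
    (z := z) hp P.deg P.DK hwW hW P.u0 P.u1
  have pn := prG_g (c := c) (mv := mv) (i := i) (q := q) (X := X) (mm := mm) (γ := γ) (gg := gg)
    (z := z) hp P.deg P.DK hwW hW P.m0 P.m1
  have hzz : ∀ ω, (adG F c mv i q w W X mm γ gg H z).z ω = z ω := fun _ => rfl
  have hbv := fun (χ : Type) (Cc : F.Ω → χ) (hb : ∀ ω ν, B ω → B ν → F.t ω = F.t ν → z ω = z ν →
      Cc ω = Cc ν → (∀ j, |hgt F c G₀ ω (mv j) - hgt F c G₀ ν (mv j)| ≤
        2 ^ 2 / 2 ^ (γ (mv j) + q)) → ∀ j, |gg ω j - gg ν j| ≤ U / 2 ^ X) (ρ : Type)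
      (R : F.Ω → ρ) => adG_bb_v (i := i) (mm := mm) (gg := gg) hwW hW P.cls hU hb hp P.sup P.zT hth
    hA P.KX R
  have hNx := adG_Nx hwW hW P.cls P.grd hp P.sup P.zT hth hPd hA P.KX P.mU Rx
  have hti := P.ti
  have hac := P.ac
  have hva := P.va
  obtain ⟨d, hd⟩ : ∃ d, d = adG F c mv i q w W X mm γ gg H z := ⟨_, rfl⟩
  have hX : d.X = X := by rw [hd]; rfl
  have hm : d.m = mm := by rw [hd]; rfl
  have htt : rt F W = d.th := by rw [hd]; rfl
  have hdz : z = d.z := by rw [hd]; rfl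
  have hczy := P.czy
  have hcyz := P.cyz
  have hT1 : Det p d.z (F.T1 W) := by rw [← hdz]; exact P.zT
  simp only [← hd] at *
  rw [htt] at hti hac hva hvy hczy hcyz
  simp only [hdz] at hac hva hczy hcyz
  have hgv : Det p (fun ω => (d.th ω, d.g K ω)) (fun ω => (d.th ω, d.v K ω)) :=
    fun ω ν a b e => Prod.ext (Prod.ext_iff.mp e).1
      (AD.det_wv p ω ν a b (AD.det_gw p ω ν a b (Prod.ext_iff.mp e).2))
  have hwv : Det p (fun ω => (d.th ω, d.w K ω)) (fun ω => (d.th ω, d.v K ω)) :=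
    fun ω ν a b e => Prod.ext (Prod.ext_iff.mp e).1
      (AD.det_wv p ω ν a b (Prod.ext_iff.mp e).2)
  -- the higher codes of the target from the far digits
  have hnc : CH p (fun ω (a : Fin K) => d.nc K ω a.succ)
      (fun ω => (jetm F c mv w H Nf ω, (d.th ω, d.z ω))) ≤ (e + e) + cA K := by
    refine f_nc _ _ (fun ω ν a b e => hT1 ω ν a b ?_) (e + e) ?_
    · exact (Prod.ext_iff.mp (Prod.ext_iff.mp e).2).2
    · refine CH_via h0 _ (fun ω => (zw ω, Yc ω)) (W' := fun ω =>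
        (jetm F c mv w H Nf ω, (zw ω, Yc ω))) (le_trans (CH_mono_cond h0
          fun ω ν _ _ e => (Prod.ext_iff.mp e).2) hcyz) P.dj (fun ω ν a b e => ?_)
      obtain ⟨e1, e2⟩ := Prod.ext_iff.mp e
      exact Prod.ext (Prod.ext_iff.mp e2).1 e1
  refine
    { law := hp
      th := hth
      dP := hPd
      dA := hA
      bm := fun ω hω j => by
        rw [hm]
        exact (hbm ω (P.sup ω hω) j).trans P.mU
      ti := by linarith
      mj := ?_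
      fj := ?_
      Lj := ?_
      bbj := ?_
      mx := ?_
      fx := ?_
      Lx := ?_
      bbx := ?_
      jt := ?_
      Nx := ?_
      vf := ?_
      vb := ?_
      vy := ?_
      B0 := hB0
      qv := ?_
      row := ?_ }
  · -- mj
    have e1 := MI_few h0 Rj
        (fun ω => (jetm F c mv w H Nf ω, pr2 F c w H i Mf ω))
        (W := fun ω => ((jetm F c mv w H Nn ω, pr2 F c w H i Mn ω), (d.th ω, d.z ω)))
        (W' := fun ω => ((jetm F c mv w H Nn ω, pr2 F c w H i Mn ω), (zw ω, Yc ω)))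
        (CH_pair_ctx h0 hczy) (CH_pair_ctx h0 hcyz)
    have := P.mj
    linarith
  · -- fj
    have h1 := CH_subadd h0 (jetm F c mv w H Nn) (pr2 F c w H i Mn) (fun ω => (d.th ω, d.g K ω))
    have h2 : CH p (jetm F c mv w H Nn) (fun ω => (d.th ω, d.g K ω)) ≤
        CH p (jetm F c mv w H Nn) (fun ω => (d.th ω, d.v K ω)) := CH_mono_cond h0 hgv
    linarith
  · -- Lj
    have hN : CH p (fun ω => ⌊(2 : ℝ) ^ d.X * (d.P ω).eval (d.th ω)⌋)
        (fun ω => ((jetm F c mv w H Nf ω, pr2 F c w H i Mf ω),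
          ((jetm F c mv w H Nn ω, pr2 F c w H i Mn ω), (d.th ω, d.z ω)))) ≤
        Real.log 5 := by
      rw [hX]
      exact f_val _ _ (fun ω ν a b e => (Prod.ext_iff.mp (Prod.ext_iff.mp e).1).2)
    have h1 := Lj_of hPth hac hnc hN
    linarith
  · -- bbj
    have h1 := hbv _ Cj P.grd.bj _ Rj
    have h2 : CH p d.bb (fun ω => (Rj ω, (d.th ω, d.g K ω))) ≤
        CH p d.bb (fun ω => (Rj ω, (d.th ω, d.v K ω))) := CH_mono_cond h0 fun ω ν a b e => by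
      obtain ⟨e1, e2⟩ := Prod.ext_iff.mp e
      exact Prod.ext e1 (hgv ω ν a b e2)
    have := P.chj
    linarith
  · -- mx
    have e1 := MI_few h0 Rx (jetm F c mv w H Nf)
        (W := fun ω => (jetm F c mv w H Nx ω, (d.th ω, d.z ω)))
        (W' := fun ω => (jetm F c mv w H Nx ω, (zw ω, Yc ω)))
        (CH_pair_ctx h0 hczy) (CH_pair_ctx h0 hcyz)
    have := P.mx
    linarith
  · -- fx
    have h2 : CH p (jetm F c mv w H Nx) (fun ω => (d.th ω, d.w K ω)) ≤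
        CH p (jetm F c mv w H Nx) (fun ω => (d.th ω, d.v K ω)) := CH_mono_cond h0 hwv
    linarith
  · -- Lx
    have h1 := Lx_of (n := jetm F c mv w H Nx) h0 hac hnc
    linarith
  · -- bbx
    have h1 := hbv _ Cx P.grd.bx _ Rx
    have h2 : CH p d.bb (fun ω => (Rx ω, (d.th ω, d.w K ω))) ≤
        CH p d.bb (fun ω => (Rx ω, (d.th ω, d.v K ω))) := CH_mono_cond h0 fun ω ν a b e => by
      obtain ⟨e1, e2⟩ := Prod.ext_iff.mp e
      exact Prod.ext e1 (hwv ω ν a b e2)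
    have := P.chx
    linarith
  · -- jt
    have hYv : CH p Yc (fun ω => (jetm F c mv w H Nu ω, (Rx ω, (d.th ω, d.v K ω)))) ≤ e := by
      refine le_trans ?_ hcyz
      have a1 : CH p Yc (fun ω => (jetm F c mv w H Nu ω, (Rx ω, (d.th ω, d.v K ω)))) ≤
          CH p (fun ω => (zw ω, Yc ω))
            (fun ω => (jetm F c mv w H Nu ω, (Rx ω, (d.th ω, d.v K ω)))) :=
        CH_mono_left h0 fun ω ν _ _ e => (Prod.ext_iff.mp (Prod.ext_iff.mp e).1).2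
      refine a1.trans (CH_mono_cond h0 fun ω ν _ _ e => ?_)
      obtain ⟨_, e2⟩ := Prod.ext_iff.mp e
      obtain ⟨_, e4⟩ := Prod.ext_iff.mp e2
      obtain ⟨e5, e6⟩ := Prod.ext_iff.mp e4
      exact Prod.ext e5 (Prod.ext_iff.mp e6).1
    have h1 : CH p (cod F w (fun s => H s i) (c i) (γ i + q) 0 K)
        (fun ω => (Rx ω, (d.th ω, d.v K ω))) ≤ 2 * k * cJ K + (e + e) := by
      refine CH_via h0 _ (jetm F c mv w H Nu) (W' := fun ω =>
        (jetm F c mv w H Nu ω, (Rx ω, (d.th ω, d.v K ω)))) (le_trans (CH_mono_cond h0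
          fun ω ν _ _ e => (Prod.ext_iff.mp e).2) ju) ?_ (fun ω ν a b e => e)
      refine CH_via h0 _ Yc (W' := fun ω => (jetm F c mv w H Nu ω, (Rx ω, Yc ω))) hYv P.jt
        (fun ω ν a b e => ?_)
      obtain ⟨e1, e2⟩ := Prod.ext_iff.mp e
      obtain ⟨e3, e4⟩ := Prod.ext_iff.mp e2
      exact Prod.ext e3 (Prod.ext (Prod.ext_iff.mp e4).1 e1)
    have h2 := f_ncd _ _ (fun ω ν a b e => hT1 ω ν a b
      (Prod.ext_iff.mp (Prod.ext_iff.mp (Prod.ext_iff.mp e).2).2).1) _ h1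
    rw [← hX] at h2
    linarith
  · -- Nx
    have := P.chx
    linarith
  · -- vf
    obtain ⟨W', hW'⟩ : ∃ W' : F.Ω → _, W' = fun ω =>
        (jetm F c mv w H Nv ω, (Rx ω, Yc ω)) := ⟨_, rfl⟩
    have h1 := P.vf
    rw [← hW'] at h1
    obtain ⟨E, hE⟩ : ∃ E : F.Ω → _, E = fun ω => ((d.th ω, d.z ω), (d.v K ω).2) := ⟨_, rfl⟩
    have h2 := CH_le_add h0 V (fun ω => (zw ω, E ω)) W'
    have h3 : CH p (fun ω => (zw ω, E ω)) W' ≤ e + (e + e) := by
      have a1 := CH_subadd h0 zw E W'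
      have a1' : CH p (fun ω => (zw ω, E ω)) W' = CH p zw W' + CH p E (fun ω => (zw ω, W' ω)) :=
        CH_chain2 h0 zw E W'
      have a3 : CH p zw W' ≤ CH p zw Rx := CH_mono_cond h0 fun ω ν _ _ e => by
        rw [hW'] at e
        exact (Prod.ext_iff.mp (Prod.ext_iff.mp e).2).1
      have a4 : CH p E (fun ω => (zw ω, W' ω)) = CH p (fun ω => (d.th ω, d.z ω))
          (fun ω => (zw ω, W' ω)) + CH p (fun ω => (d.v K ω).2) (fun ω => ((d.th ω, d.z ω),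
            (zw ω, W' ω))) := by
        rw [hE]
        exact CH_chain2 h0 (fun ω => (d.th ω, d.z ω)) (fun ω => (d.v K ω).2)
          (fun ω => (zw ω, W' ω))
      have a5 : CH p (fun ω => (d.th ω, d.z ω)) (fun ω => (zw ω, W' ω)) ≤ e := by
        refine le_trans (CH_mono_cond h0 fun ω ν a b e => ?_) hczy
        obtain ⟨e1, e2⟩ := Prod.ext_iff.mp e
        rw [hW'] at e2
        exact Prod.ext e1 (Prod.ext_iff.mp (Prod.ext_iff.mp e2).2).2
      have a6 : CH p (fun ω => (d.v K ω).2) (fun ω => ((d.th ω, d.z ω), (zw ω, W' ω))) ≤ e := by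
        refine le_trans (CH_mono_cond h0 fun ω ν a b e => ?_) hva
        obtain ⟨e1, e2⟩ := Prod.ext_iff.mp e
        obtain ⟨_, e4⟩ := Prod.ext_iff.mp e2
        rw [hW'] at e4
        exact Prod.ext (Prod.ext_iff.mp e4).1 e1
      have := P.zx
      linarith
    have h4 : CH p V (fun ω => ((zw ω, E ω), W' ω)) ≤
        CH p V (fun ω => (Rx ω, (d.th ω, d.v K ω))) :=
      CH_mono_cond h0 fun ω ν a b e => by
        obtain ⟨e1, e2⟩ := Prod.ext_iff.mp e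
        obtain ⟨_, e4⟩ := Prod.ext_iff.mp e1
        rw [hE] at e4
        obtain ⟨e5, e6⟩ := Prod.ext_iff.mp e4
        obtain ⟨e7, e8⟩ := Prod.ext_iff.mp e5
        rw [hW'] at e2
        exact Prod.ext (Prod.ext_iff.mp (Prod.ext_iff.mp e2).2).1
          (Prod.ext e7 (Prod.ext e8 e6))
    linarith
  · -- vb
    exact hvb
  · -- vy
    rw [hX]
    linarith
  · -- qv
    exact hqv
  · -- row
    rw [hX]
    exact hrow

end

end Pool.AVG57
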