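import Pool.Agent.H57.AVG.C2a

/-!
# The closed gradient in a class at almost every `g`

`CGr`: the conclusion of `c1_cls`. `c1_box`: from `C1X` and `C1R`. `c1_gen`: at almost every `g` the
inputs `C1R` of a box are enough.
-/

set_option autoImplicit false

namespace Pool.AVG57

open Finset Real MvPolynomial MeasureTheory Filter Topology
open Pool.Agent.H49.Ent Pool.Agent.H32.Dense Pool.STK Pool.KA Pool.KSAT Pool.K2S Pool.PB Pool.S6C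
open Pool.GEN Pool.CHT Pool.CHX Pool.ISO Pool.RCD Pool.LA91 Pool.AVG96
open Pool.PB.Trl (rt rt_mem t_rt)
open Pool.D2R (hgt gnh GrdE chs)
open Pool.BFL (Pb)

variable {m : ℕ} {γ : ∀ J : ℕ, Fam m J → Type}

/-- **The gradient in the direction of the place `v` is closed** at a window between `w` and
`w + δW`, up to the accuracy `2 ^ (-κ₂ ξ J)` and the mass `ε`, for all charts with the natural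
gradients. -/
def CGr (S : PCl m) (c : ℕ → Fin m) (v K : ℕ) (w δW j x : ℝ) (p s : ℕ → ℝ) (q ξ μ κ₂ ι : ℝ)
    (k₁ : ℕ) (ε : ℝ) : Prop :=
  ∀ E : ℝ, Bas S (fun J F B => ∀ (ks nn : ℕ) (gm : ℕ → ℕ)
    (G : ℕ → PtT F → ℕ → MvPolynomial (Option (Fin m)) ℝ)
    (H : LnT F → ℕ → MvPolynomial (Option (Fin m)) ℝ) (U : ℝ),
    LbsE F c v K w p s E gm B (G 0) H → ClU F (v + 2) ks ⌊j * J⌋₊ B G →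
    ClU F (v + 2) nn ⌊x * J⌋₊ B G → ks ≤ nn →
    GrdE F c 0 (v + 1) ks nn ⌊q * J⌋₊ ⌊ξ * J⌋₊ gm U B G → U ≤ 2 ^ (μ / 2 * J) →
    ∃ W : ℕ, ⌊w * J⌋₊ ≤ W ∧ (W : ℝ) ≤ (w + δW) * J ∧ ∃ mu : LnT F → Polynomial ℝ,
      (∀ s, (mu s).natDegree ≤ K + 1) ∧
      (∀ s (u : ℝ), |(mu s).eval u| ≤ ((K + 1 : ℕ) + 1) * (2 ^ k₁ * (|u| + 1)) ^ (K + 1) *
        (2 : ℝ) ^ (ι * ⌊ξ * J⌋₊)) ∧
      Pb (Pool.Agent.H49.Ent.cond F.p B True) (fun ω => (2 : ℝ) ^ (-(κ₂ * ⌊ξ * J⌋₊)) <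
        |gnh F c (v + 1) gm (G 0) (G nn) ω v -
          (mu (slam F W ω)).eval (rt F W ω)|) ≤ ε)

/-- **The closed gradient at a box.** -/
theorem c1_box (v K : ℕ) {h ε : ℝ} (hh : 0 < h) (hh1 : h ≤ 1) (hε : 0 < ε) :
    ∃ (κ₂ ι θ : ℝ) (k₁ : ℕ), 0 < κ₂ ∧ κ₂ ≤ 1 ∧ 0 < ι ∧ 0 < θ ∧ θ ≤ 1 ∧
      ∀ {m : ℕ} {γ : ∀ J : ℕ, Fam m J → Type} {S : PCl m}
        {y : ∀ (J : ℕ) (F : Fam m J), F.Ω → γ J F} {c : ℕ → Fin m} {r₀ : ℕ}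
        {sn : ℝ → ℕ → ℝ} {a : ℕ → ℝ} {w j x δW q ξ μ ν : ℝ} {p s n n' : ℕ → ℝ} {lo hi η : ℝ}
        (_ : C1X S y c r₀ v sn a w j x δW q ξ μ ν p s n n' η)
        (_ : C1R S y c r₀ v K sn a w x q ξ μ ν p s n n' h lo hi η),
        0 ≤ η → η ≤ θ * ξ → μ ≤ θ * ξ → ν ≤ θ * ξ → lo + θ * ξ ≤ p (v + 1) + q →
        s (v + 1) + q + ξ + θ * ξ ≤ hi → CGr S c v K w δW j x p s q ξ μ κ₂ ι k₁ ε := by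
  obtain ⟨κ₂, ι, θ, k₁, h1, h2, h3, h4, h5, H⟩ := c1_cls v K hh hh1 hε
  refine ⟨κ₂, ι, θ, k₁, h1, h2, h3, h4, h5, ?_⟩
  intro m γ S y c r₀ sn a w j x δW q ξ μ ν p s n n' lo hi η X R hη0 hη hμ hν hlo hhi
  exact H X.num (X.cc R) hη0 hη hμ (by linarith) hlo hhi

/-- **The closed gradient in the direction of the last place of the chain at almost every `g`**:
in all small boxes the inputs `C1R` are enough. The constants depend on `v`, `K`, `h`, `ε` only. -/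
theorem c1_ge (v K : ℕ) {hd ε : ℝ} (hh : 0 < hd) (hh1 : hd ≤ 1) (hε : 0 < ε) :
    ∃ (κ₂ ι θ : ℝ) (k₁ : ℕ), 0 < κ₂ ∧ κ₂ ≤ 1 ∧ 0 < ι ∧ 0 < θ ∧ θ ≤ 1 ∧
      ∀ {m : ℕ} {γ : ∀ J : ℕ, Fam m J → Type} {S : PCl m}
        {y : ∀ (J : ℕ) (F : Fam m J), F.Ω → γ J F} {c : ℕ → Fin m} {r₀ : ℕ}
        {s₀ A B Λ : ℝ} {sn : ℝ → ℕ → ℝ} {G : Set ℝ}
        (_ : GCh S (fun J F => ptr F J) y c r₀ (v + 1) s₀ A B Λ sn G)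
        (_ : HNum S (fun J F => ptr F J) y c r₀ (v + 1) s₀ (PG G A s₀) (B - s₀) Λ (whG G A s₀)
          (scG sn G A s₀)) (_ : r₀ ≤ v),
      ∀ᵐ g : ℝ, A < g → g < B → ∀ Sl : ℕ → ℝ, SlpG sn r₀ (v + 1) G g Sl → 1 < Sl (v + 1) →
        ∀ ξ₀ ν₀ C δ : ℝ, 0 < ξ₀ → 0 < ν₀ → 0 < C → 0 < δ →
        ∃ φ : ℝ, 0 < φ ∧ ∃ a : ℕ → ℝ,
        (∀ l, r₀ ≤ l → l ≤ v + 1 → a l ∈ G ∧ g < a l ∧ a l < g + δ ∧ a l < B) ∧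
        ∃ ρ : ℝ, 0 < ρ ∧ ∃ (lv : ℕ → ℝ) (σ₀ : ℝ),
          FarR sn G r₀ (v + 1) a Λ (g - ρ) (g + ρ) lv σ₀ ∧ C * ρ ≤ σ₀ / 2 ∧
          C * ρ + σ₀ / 2 ≤ Λ ∧
          ∀ R : ℝ, 0 < R → R < ρ → ∀ w ∈ G, ∀ j x : ℝ, g - R ≤ w → j ≤ g + R → x ≤ g + R →
            ∀ (δW q ξ μ ν : ℝ) (p s n n' : ℕ → ℝ) (lo hi : ℝ), ξ₀ * R ≤ ξ → ν₀ * R ≤ ν →
            μ ≤ θ * ξ → ν ≤ θ * ξ → lo + θ * ξ ≤ p (v + 1) + q →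
            s (v + 1) + q + ξ + θ * ξ ≤ hi →
            Bx1 sn r₀ v Sl w j x δW q ξ μ ν (φ * R) (C * R) p s n n' →
            C1R S y c r₀ v K sn a w x q ξ μ ν p s n n' hd lo hi (θ * ξ₀ * R) →
            CGr S c v K w δW j x p s q ξ μ κ₂ ι k₁ ε := by
  obtain ⟨κ₂, ι, θ, k₁, a1, a2, a3, a4, a5, H⟩ := c1_box v K hh hh1 hε
  refine ⟨κ₂, ι, θ, k₁, a1, a2, a3, a4, a5, ?_⟩
  intro m γ S y c r₀ s₀ A B Λ sn G h hn hr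
  filter_upwards [c1_ae h hn hr] with g hg hgA hgB Sl hSl hσ ξ₀ ν₀ C δ hξ hν hC hδ
  obtain ⟨φ, hφ, a, ha, ρ, hρ, lv, σ₀, hF, c1, c2, X⟩ :=
    hg hgA hgB Sl hSl hσ (θ * ξ₀) ν₀ C δ (by positivity) hν hC hδ
  refine ⟨φ, hφ, a, ha, ρ, hρ, lv, σ₀, hF, c1, c2, ?_⟩
  intro R hR hRρ w hw j x w1 j2 x2 δW q ξ μ ν p s n n' lo hi hξR hνR hμθ hνθ hlo hhi N RR
  refine H (X R hR hRρ w hw j x w1 j2 x2 δW q ξ μ ν p s n n' hνR N) RR (by positivity) ?_ hμθ hνθ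
    hlo hhi
  rw [mul_assoc]
  exact mul_le_mul_of_nonneg_left hξR a4.le

variable {S : PCl m} {y : ∀ (J : ℕ) (F : Fam m J), F.Ω → γ J F} {c : ℕ → Fin m} {r₀ v : ℕ}
  {s₀ A B Λ : ℝ} {sn : ℝ → ℕ → ℝ} {G : Set ℝ}

/-- The form with the constants after `g`. -/
theorem c1_gen (h : GCh S (fun J F => ptr F J) y c r₀ (v + 1) s₀ A B Λ sn G)
    (hn : HNum S (fun J F => ptr F J) y c r₀ (v + 1) s₀ (PG G A s₀) (B - s₀) Λ (whG G A s₀)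
      (scG sn G A s₀)) (hr : r₀ ≤ v) :
    ∀ᵐ g : ℝ, A < g → g < B → ∀ Sl : ℕ → ℝ, SlpG sn r₀ (v + 1) G g Sl → 1 < Sl (v + 1) →
      ∀ (K : ℕ) (hd ε : ℝ), 0 < hd → hd ≤ 1 → 0 < ε → ∃ (κ₂ ι θ : ℝ) (k₁ : ℕ), 0 < κ₂ ∧ κ₂ ≤ 1 ∧
        0 < ι ∧ 0 < θ ∧ θ ≤ 1 ∧ ∀ ξ₀ ν₀ C δ : ℝ, 0 < ξ₀ → 0 < ν₀ → 0 < C → 0 < δ →
        ∃ φ : ℝ, 0 < φ ∧ ∃ a : ℕ → ℝ,
        (∀ l, r₀ ≤ l → l ≤ v + 1 → a l ∈ G ∧ g < a l ∧ a l < g + δ ∧ a l < B) ∧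
        ∃ ρ : ℝ, 0 < ρ ∧ ∃ (lv : ℕ → ℝ) (σ₀ : ℝ),
          FarR sn G r₀ (v + 1) a Λ (g - ρ) (g + ρ) lv σ₀ ∧ C * ρ ≤ σ₀ / 2 ∧
          C * ρ + σ₀ / 2 ≤ Λ ∧
          ∀ R : ℝ, 0 < R → R < ρ → ∀ w ∈ G, ∀ j x : ℝ, g - R ≤ w → j ≤ g + R → x ≤ g + R →
            ∀ (δW q ξ μ ν : ℝ) (p s n n' : ℕ → ℝ) (lo hi : ℝ), ξ₀ * R ≤ ξ → ν₀ * R ≤ ν →
            μ ≤ θ * ξ → ν ≤ θ * ξ → lo + θ * ξ ≤ p (v + 1) + q →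
            s (v + 1) + q + ξ + θ * ξ ≤ hi →
            Bx1 sn r₀ v Sl w j x δW q ξ μ ν (φ * R) (C * R) p s n n' →
            C1R S y c r₀ v K sn a w x q ξ μ ν p s n n' hd lo hi (θ * ξ₀ * R) →
            CGr S c v K w δW j x p s q ξ μ κ₂ ι k₁ ε := by
  filter_upwards [c1_ae h hn hr] with g hg hgA hgB Sl hSl hσ K hd ε h1 h2 h3
  obtain ⟨κ₂, ι, θ, k₁, a1, a2, a3, a4, a5, H⟩ := c1_box v K h1 h2 h3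
  refine ⟨κ₂, ι, θ, k₁, a1, a2, a3, a4, a5, fun ξ₀ ν₀ C δ hξ hν hC hδ => ?_⟩
  obtain ⟨φ, hφ, a, ha, ρ, hρ, lv, σ₀, hF, c1, c2, X⟩ :=
    hg hgA hgB Sl hSl hσ (θ * ξ₀) ν₀ C δ (by positivity) hν hC hδ
  refine ⟨φ, hφ, a, ha, ρ, hρ, lv, σ₀, hF, c1, c2, ?_⟩
  intro R hR hRρ w hw j x w1 j2 x2 δW q ξ μ ν p s n n' lo hi hξR hνR hμθ hνθ hlo hhi N RR
  refine H (X R hR hRρ w hw j x w1 j2 x2 δW q ξ μ ν p s n n' hνR N) RR (by positivity) ?_ hμθ hνθ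
    hlo hhi
  rw [mul_assoc]
  exact mul_le_mul_of_nonneg_left hξR a4.le

end Pool.AVG57
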