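import Pool.Agent.H57.AVG.Av1

/-!
# The first moved place over exact base coordinates

`AvF`: the inputs on one event and for one law, `k₀` exact base coordinates, the moved place `k₀`, the
target `i`, the places between them in a side path `sd`. `avf_ev`: the gradient of the target in the
direction of the place `k₀` is closed.
-/

set_option autoImplicit false

namespace Pool.AVG57

open Finset Real MvPolynomial
open Pool.Agent.H49.Ent Pool.Agent.H32.Dense Pool.STK Pool.KA Pool.KSAT Pool.K2S Pool.PB Pool.S6C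
open Pool.GEN Pool.CHT Pool.CHX Pool.ISO Pool.LA91 Pool.AVG71 Pool.AVG5 Pool.D2F2
open Pool.PB.Trl (rt rt_mem t_rt)
open Pool.D2R (hgt gnh GrdE chs)
open Pool.KVA (MI)
open Pool.KAF (rs Pr)
open Pool.BFL (Pb)

variable {m J : ℕ}

/-- Two polynomials with the same coefficients of the orders `≥ 2`. -/
theorem lin_tay {A A' : Polynomial ℝ} (h : ∀ b, 2 ≤ b → A.coeff b = A'.coeff b) (r : ℝ) :
    A.coeff 1 - A'.coeff 1 =
      (Polynomial.taylor r A).coeff 1 - (Polynomial.taylor r A').coeff 1 ∧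
    A.coeff 0 - A'.coeff 0 = (Polynomial.taylor r A).coeff 0 - (Polynomial.taylor r A').coeff 0 -
      (A.coeff 1 - A'.coeff 1) * r := by
  obtain ⟨q, hq⟩ : ∃ q, q = A - A' := ⟨_, rfl⟩
  have hd : q.natDegree ≤ 1 := Polynomial.natDegree_le_iff_coeff_eq_zero.2 fun b hb => by
    rw [hq, Polynomial.coeff_sub, h b (by omega), sub_self]
  have e := Polynomial.eq_X_add_C_of_natDegree_le_one hd
  have t1 : (Polynomial.taylor r q).coeff 1 = q.coeff 1 := by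
    rw [Polynomial.taylor_coeff_one]
    conv_lhs => rw [e]
    simp
  have t0 : (Polynomial.taylor r q).coeff 0 = q.coeff 1 * r + q.coeff 0 := by
    rw [Polynomial.taylor_coeff_zero]
    conv_lhs => rw [e]
    simp
  rw [hq, map_sub, Polynomial.coeff_sub, Polynomial.coeff_sub] at t1
  rw [hq, map_sub, Polynomial.coeff_sub, Polynomial.coeff_sub, Polynomial.coeff_sub] at t0
  exact ⟨t1.symm, by linarith⟩

/-- The constant of the codes of the moved place. -/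
noncomputable def cW (K : ℕ) : ℝ := (K + 1) * Real.log (2 * ((K + 1) * 2 ^ K + 2) + 1)

/-- The digits of the own jets of the orders `0`, `1`. -/
noncomputable def jt1 (F : Fam m J) (c : ℕ → Fin m) (v w : ℕ)
    (H : LnT F → ℕ → MvPolynomial (Option (Fin m)) ℝ) (N : ℕ → ℝ) : F.Ω → Fin 1 × Fin 2 → ℤ :=
  jetm F c (fun _ : Fin 1 => v) w H (fun _ => N)

/-- **The inputs**: `k₀` exact base coordinates, the moved place `k₀`, the target `i`. `sd`: the side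
path in the context; `sy`: the side digits. -/
structure AvF (F : Fam m J) (c : ℕ → Fin m) (k₀ i q w W X mm D K ks n : ℕ) (γ : ℕ → ℕ)
    (B : F.Ω → Prop) (G : ℕ → PtT F → ℕ → MvPolynomial (Option (Fin m)) ℝ)
    (H : LnT F → ℕ → MvPolynomial (Option (Fin m)) ℝ) {ζ σ τ ρ₁ ρ₂ : Type} (zw : F.Ω → ζ)
    (sd : F.Ω → σ) (sy : F.Ω → τ) (Rj : F.Ω → ρ₁) (Rx : F.Ω → ρ₂) (p : F.Ω → ℝ)
    (Nf Nn Nx Nu Nv Mf Mn : ℕ → ℝ) (U Nb e : ℝ) : Prop where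
  law : IsLaw p
  sup : ∀ ω, 0 < p ω → B ω
  gd : Gd F
  wW : w ≤ W
  WJ : W ≤ J
  ki : k₀ < i
  deg : ∀ s l, (H s l).totalDegree ≤ D
  dep : ∀ s l, DepC c l (H s l)
  DK : D + 1 ≤ K
  KX : (K : ℝ) ≤ 2 ^ (X + mm)
  cls : Clsd F (i + 1) w B (G 0) H
  grd : GrdE F c 0 i ks n q X γ U B G
  kn : ks ≤ n
  mU : U + 8 * i * U + 1 ≤ 2 ^ mm
  zc : ∀ ω ν, B ω → B ν → zw ω = zw ν → ∀ l ≤ i, G 0 (ptr F J ω) l = G 0 (ptr F J ν) l
  hd : ∀ ω ν, B ω → B ν → F.t ω = F.t ν → zxs F c k₀ W zw sd ω = zxs F c k₀ W zw sd ν →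
    ∀ l < i, k₀ < l → |hgt F c (G 0) ω l - hgt F c (G 0) ν l| ≤ 2 ^ 2 / 2 ^ (γ l + (q + X))
  zL : Det p (slam F W) zw
  sL : Det p (slam F W) sd
  sdy : CH p sd (fun ω => (zw ω, (yv c k₀ J F ω, sy ω))) ≤ e
  syd : CH p sy (fun ω => (rt F W ω, zxs F c k₀ W zw sd ω)) ≤ e
  mj : MI p Rj (fun ω => (jt1 F c k₀ w H Nf ω, pr2 F c w H i Mf ω))
    (fun ω => ((jt1 F c k₀ w H Nn ω, pr2 F c w H i Mn ω),
      (zw ω, (yv c k₀ J F ω, sy ω)))) ≤ e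
  mx : MI p Rx (jt1 F c k₀ w H Nf)
    (fun ω => (jt1 F c k₀ w H Nx ω, (zw ω, (yv c k₀ J F ω, sy ω)))) ≤ e
  chj : CH p (chs F i ks G) Rj ≤ e
  chx : CH p (chs F i n G) Rx ≤ e
  zx : CH p zw Rx ≤ e
  n0 : Nn 0 * J ≤ (γ k₀ + q : ℕ)
  n1 : Nn 1 * J + W ≤ (γ k₀ + q + (X + mm) : ℕ)
  x0 : Nx 0 * J ≤ (γ k₀ + q : ℕ)
  x1 : Nx 1 * J + W ≤ (γ k₀ + q + (X + mm) : ℕ)
  u0 : Nu 0 * J ≤ (γ k₀ + q : ℕ)
  u1 : Nu 1 * J + W ≤ (γ k₀ + q + (X + mm) : ℕ)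
  m0 : Mn 0 * J ≤ (γ i + q : ℕ)
  m1 : Mn 1 * J + W ≤ (γ i + q : ℕ)
  mf : ((γ i + q + X : ℕ) : ℝ) ≤ Mf 0 * J
  f0 : ((γ k₀ + q + (X + mm) : ℕ) : ℝ) ≤ Nf 0 * J
  f1 : ((γ k₀ + q + (X + mm) : ℕ) : ℝ) ≤ Nf 1 * J + W
  v0 : ((γ k₀ + q : ℕ) : ℝ) ≤ Nv 0 * J
  v1 : ((γ k₀ + q + (X + mm) : ℕ) : ℝ) ≤ Nv 1 * J + W
  ce : cW K ≤ e
  dj : CH p (cod F w (fun s => H s i) (c i) (γ i + q + X) 1 K)
    (fun ω => (jt1 F c k₀ w H Nf ω, (zw ω, (yv c k₀ J F ω, sy ω)))) ≤ e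
  jt : CH p (cod F w (fun s => H s i) (c i) (γ i + q) 0 K)
    (fun ω => (jt1 F c k₀ w H Nu ω, (Rx ω, (yv c k₀ J F ω, sy ω)))) ≤ e
  vf : (Nb - Nv 0 * J) * Real.log 2 - e ≤ CH p (Vh F c k₀ w H Nb)
    (fun ω => (jt1 F c k₀ w H Nv ω, (Rx ω, (yv c k₀ J F ω, sy ω))))

section

variable {F : Fam m J} {c : ℕ → Fin m} {k₀ i q w W X mm D K ks n : ℕ} {γ : ℕ → ℕ}
  {B : F.Ω → Prop} {G : ℕ → PtT F → ℕ → MvPolynomial (Option (Fin m)) ℝ}
  {H : LnT F → ℕ → MvPolynomial (Option (Fin m)) ℝ} {ζ σ τ ρ₁ ρ₂ : Type} {zw : F.Ω → ζ}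
  {sd : F.Ω → σ} {sy : F.Ω → τ} {Rj : F.Ω → ρ₁} {Rx : F.Ω → ρ₂} {p : F.Ω → ℝ}
  {Nf Nn Nx Nu Nv Mf Mn : ℕ → ℝ} {U Nb e : ℝ}

namespace AvF

/-- The base coordinates for equal contexts. -/
theorem bas (P : AvF F c k₀ i q w W X mm D K ks n γ B G H zw sd sy Rj Rx p Nf Nn Nx Nu Nv Mf Mn U
    Nb e) {ω ν : F.Ω} (hω : B ω) (hν : B ν)
    (hz : zxs F c k₀ W zw sd ω = zxs F c k₀ W zw sd ν) :
    F.T1 W ω = F.T1 W ν ∧ (∀ l ≤ i, H (upw w W (slam F W ω)) l = H (upw w W (slam F W ν)) l) ∧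
      ∀ l < k₀, F.u ω (c l) = F.u ν (c l) ∧ F.d ω (c l) = F.d ν (c l) := by
  obtain ⟨z1, z2⟩ := Prod.ext_iff.mp hz
  obtain ⟨z3, z4⟩ := Prod.ext_iff.mp z2
  obtain ⟨z5, z6⟩ := Prod.ext_iff.mp z4
  refine ⟨(Prod.ext_iff.mp z3).2, fun l hl => ?_, fun l hl => ?_⟩
  · rw [upw_slam F P.wW P.WJ, upw_slam F P.wW P.WJ, ← P.cls ω hω l (by omega),
      ← P.cls ν hν l (by omega)]
    exact P.zc ω ν hω hν z1 l hl
  · have e1 := congrFun z5 ⟨l, hl⟩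
    exact ⟨(Prod.ext_iff.mp e1).1, (Prod.ext_iff.mp e1).2⟩

/-- **The coefficients of the own path of the moved place** for equal contexts and times. -/
theorem coe (P : AvF F c k₀ i q w W X mm D K ks n γ B G H zw sd sy Rj Rx p Nf Nn Nx Nu Nv Mf Mn U
    Nb e) {ω ν : F.Ω} (hω : B ω) (hν : B ν) (ht : rt F W ω = rt F W ν)
    (hz : zxs F c k₀ W zw sd ω = zxs F c k₀ W zw sd ν) {δ₀ δ₁ : ℝ}
    (h0 : 2 ^ (γ k₀ + q) * |ojet F (c k₀) 0 (H (slam F w ω) k₀) ω -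
      ojet F (c k₀) 0 (H (slam F w ν) k₀) ν| ≤ δ₀)
    (h1 : 2 ^ (γ k₀ + q) * (|ojet F (c k₀) 1 (H (slam F w ω) k₀) ω -
      ojet F (c k₀) 1 (H (slam F w ν) k₀) ν| / 2 ^ W) ≤ δ₁)
    (gg : F.Ω → Fin 1 → ℝ) :
    (∀ b, 1 ≤ b → |((adG F c (fun _ : Fin 1 => k₀) i q w W X mm γ gg H
        (zxs F c k₀ W zw sd)).A ω 0).coeff b -
      ((adG F c (fun _ : Fin 1 => k₀) i q w W X mm γ gg H
        (zxs F c k₀ W zw sd)).A ν 0).coeff b| ≤ δ₁) ∧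
    |((adG F c (fun _ : Fin 1 => k₀) i q w W X mm γ gg H
        (zxs F c k₀ W zw sd)).A ω 0).coeff 0 -
      ((adG F c (fun _ : Fin 1 => k₀) i q w W X mm γ gg H
        (zxs F c k₀ W zw sd)).A ν 0).coeff 0| ≤ δ₀ + δ₁ := by
  obtain ⟨b1, b2, b3⟩ := P.bas hω hν hz
  have hki := P.ki
  have p2 : (0 : ℝ) < 2 ^ (γ k₀ + q) := by positivity
  have pW : (0 : ℝ) < 2 ^ W := by positivity
  have hA : ∀ o : F.Ω, (adG F c (fun _ : Fin 1 => k₀) i q w W X mm γ gg H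
      (zxs F c k₀ W zw sd)).A o 0 = Polynomial.C (2 ^ (γ k₀ + q)) *
      dv W (fun s (_ : Fin m) => H (upw w W s) k₀) (c k₀) (slam F W o) := fun _ => rfl
  have hb : ∀ b, 2 ≤ b → (dv W (fun s (_ : Fin m) => H (upw w W s) k₀) (c k₀)
      (slam F W ω)).coeff b = (dv W (fun s (_ : Fin m) => H (upw w W s) k₀) (c k₀)
      (slam F W ν)).coeff b := fun b hb2 =>
    dv_first (c := c) (l := k₀) (H := fun s l => H (upw w W s) l) (P.dep _ k₀) (b2 k₀ hki.le) b1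
      b3 hb2
  obtain ⟨t1, t0⟩ := lin_tay hb (rt F W ω)
  have j1 := ojet_tay F P.WJ ω (c k₀) (fun s (_ : Fin m) => H (upw w W s) k₀)
  have j2 := ojet_tay F P.WJ ν (c k₀) (fun s (_ : Fin m) => H (upw w W s) k₀)
  rw [j1 1, ht, j2 1] at t1
  rw [j1 0, ht, j2 0] at t0
  simp only [upw_slam F P.wW P.WJ] at t1 t0
  norm_num at t1 t0
  have hδ₁ : 0 ≤ δ₁ := le_trans (by positivity) h1
  have g1 : |2 ^ (γ k₀ + q) * ((dv W (fun s (_ : Fin m) => H (upw w W s) k₀) (c k₀)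
      (slam F W ω)).coeff 1 - (dv W (fun s (_ : Fin m) => H (upw w W s) k₀) (c k₀)
      (slam F W ν)).coeff 1)| ≤ δ₁ := by
    rw [t1, ← sub_div, abs_mul, abs_of_pos p2, abs_div, abs_of_pos pW]
    exact h1
  constructor
  · intro b hb1
    rw [hA, hA, Polynomial.coeff_C_mul, Polynomial.coeff_C_mul, ← mul_sub]
    rcases Nat.lt_or_ge b 2 with h2 | h2
    · have : b = 1 := by omega
      subst this
      exact g1
    · rw [hb b h2, sub_self, mul_zero, abs_zero]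
      exact hδ₁
  · rw [hA, hA, Polynomial.coeff_C_mul, Polynomial.coeff_C_mul, ← mul_sub, t0]
    have hr := rt_mem F W ν
    have g2 : |2 ^ (γ k₀ + q) * (ojet F (c k₀) 0 (H (slam F w ω) k₀) ω -
        ojet F (c k₀) 0 (H (slam F w ν) k₀) ν)| ≤ δ₀ := by
      rw [abs_mul, abs_of_pos p2]
      exact h0
    have g3 : |2 ^ (γ k₀ + q) * ((dv W (fun s (_ : Fin m) => H (upw w W s) k₀) (c k₀)
      (slam F W ω)).coeff 1 - (dv W (fun s (_ : Fin m) => H (upw w W s) k₀) (c k₀)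
      (slam F W ν)).coeff 1) * rt F W ν| ≤ δ₁ := by
      rw [abs_mul, abs_of_nonneg hr.1]
      calc _ ≤ δ₁ * 1 := mul_le_mul g1 hr.2 hr.1 hδ₁
        _ = δ₁ := mul_one _
    rw [mul_sub]
    refine (abs_sub _ _).trans (add_le_add g2 ?_)
    rw [← mul_assoc]
    exact g3

/-- The digits of the jets are near for equal digits. -/
theorem jets (P : AvF F c k₀ i q w W X mm D K ks n γ B G H zw sd sy Rj Rx p Nf Nn Nx Nu Nv Mf Mn U
    Nb e) {N : ℕ → ℝ} {E₀ E₁ : ℕ} (h0 : ((γ k₀ + q + E₀ : ℕ) : ℝ) ≤ N 0 * J)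
    (h1 : ((γ k₀ + q + E₁ : ℕ) : ℝ) ≤ N 1 * J + W) {ω ν : F.Ω}
    (h : jt1 F c k₀ w H N ω = jt1 F c k₀ w H N ν) :
    2 ^ (γ k₀ + q) * |ojet F (c k₀) 0 (H (slam F w ω) k₀) ω -
      ojet F (c k₀) 0 (H (slam F w ν) k₀) ν| ≤ 1 / 2 ^ E₀ ∧
    2 ^ (γ k₀ + q) * (|ojet F (c k₀) 1 (H (slam F w ω) k₀) ω -
      ojet F (c k₀) 1 (H (slam F w ν) k₀) ν| / 2 ^ W) ≤ 1 / 2 ^ E₁ := by
  have p2 : (0 : ℝ) < 2 ^ (γ k₀ + q) := by positivity
  have e0 : ⌊(2 : ℝ) ^ (N 0 * J) * ojet F (c k₀) 0 (H (slam F w ω) k₀) ω⌋ =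
      ⌊(2 : ℝ) ^ (N 0 * J) * ojet F (c k₀) 0 (H (slam F w ν) k₀) ν⌋ := congrFun h (0, 0)
  have e1 : ⌊(2 : ℝ) ^ (N 1 * J) * ojet F (c k₀) 1 (H (slam F w ω) k₀) ω⌋ =
      ⌊(2 : ℝ) ^ (N 1 * J) * ojet F (c k₀) 1 (H (slam F w ν) k₀) ν⌋ := congrFun h (0, 1)
  have g0 := near_of_floor (Real.rpow_pos_of_pos two_pos (N 0 * J)) e0
  have g1 := near_of_floor (Real.rpow_pos_of_pos two_pos (N 1 * J)) e1
  constructor
  · calc _ ≤ 2 ^ (γ k₀ + q) * (1 / (2 : ℝ) ^ (N 0 * J)) := mul_le_mul_of_nonneg_left g0 p2.le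
      _ ≤ 2 ^ (γ k₀ + q) * (1 / (2 : ℝ) ^ ((γ k₀ + q + E₀ : ℕ) : ℝ)) := by
          refine mul_le_mul_of_nonneg_left (one_div_le_one_div_of_le (by positivity) ?_) p2.le
          exact Real.rpow_le_rpow_of_exponent_le one_le_two h0
      _ = 1 / 2 ^ E₀ := by
          rw [Real.rpow_natCast, pow_add _ (γ k₀ + q)]
          field_simp
  · calc _ ≤ 2 ^ (γ k₀ + q) * (1 / (2 : ℝ) ^ (N 1 * J) / 2 ^ W) := by
          exact mul_le_mul_of_nonneg_left (div_le_div_of_nonneg_right g1 (by positivity)) p2.le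
      _ = 2 ^ (γ k₀ + q) * (1 / (2 : ℝ) ^ (N 1 * J + W)) := by
          rw [Real.rpow_add two_pos, Real.rpow_natCast, div_div]
      _ ≤ 2 ^ (γ k₀ + q) * (1 / (2 : ℝ) ^ ((γ k₀ + q + E₁ : ℕ) : ℝ)) := by
          refine mul_le_mul_of_nonneg_left (one_div_le_one_div_of_le (by positivity) ?_) p2.le
          exact Real.rpow_le_rpow_of_exponent_le one_le_two h1
      _ = 1 / 2 ^ E₁ := by
          rw [Real.rpow_natCast, pow_add _ (γ k₀ + q)]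
          field_simp

/-- **The field `ac`.** -/
theorem ac (P : AvF F c k₀ i q w W X mm D K ks n γ B G H zw sd sy Rj Rx p Nf Nn Nx Nu Nv Mf Mn U
    Nb e) (gg : F.Ω → Fin 1 → ℝ) :
    CH p ((adG F c (fun _ : Fin 1 => k₀) i q w W X mm γ gg H (zxs F c k₀ W zw sd)).ac K)
      (fun ω => (jt1 F c k₀ w H Nf ω, (rt F W ω, zxs F c k₀ W zw sd ω))) ≤ cW K := by
  have hp := P.law
  have h0 := hp.nonneg
  obtain ⟨d, hd⟩ : ∃ d, d = adG F c (fun _ : Fin 1 => k₀) i q w W X mm γ gg H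
    (zxs F c k₀ W zw sd) := ⟨_, rfl⟩
  have hX : d.X = X := by rw [hd]; rfl
  have hm : d.m = mm := by rw [hd]; rfl
  have key : ∀ ω ν, 0 < p ω → 0 < p ν → (jt1 F c k₀ w H Nf ω, (rt F W ω,
      zxs F c k₀ W zw sd ω)) = (jt1 F c k₀ w H Nf ν, (rt F W ν, zxs F c k₀ W zw sd ν)) →
      ∀ b, |(d.ac K ω 0 b : ℝ) - d.ac K ν 0 b| ≤ (K + 1) * 2 ^ K + 2 := by
    intro ω ν hω hν e b
    simp only [Prod.mk.injEq] at e
    obtain ⟨e1, e2, e3⟩ := e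
    obtain ⟨g0, g1⟩ := P.jets (E₀ := X + mm) (E₁ := X + mm) P.f0 P.f1 e1
    obtain ⟨c1, c0⟩ := P.coe (P.sup ω hω) (P.sup ν hν) e2 e3 g0 g1 gg
    rw [← hd] at c1 c0
    unfold AD.ac
    rw [hX, hm]
    have pX : (0 : ℝ) < 2 ^ (X + mm) := by positivity
    have c2 : |(2 : ℝ) ^ (X + mm) * (d.A ω 0).coeff b - 2 ^ (X + mm) * (d.A ν 0).coeff b| ≤ 2 := by
      rw [← mul_sub, abs_mul, abs_of_pos pX]
      rcases Nat.eq_zero_or_pos (b : ℕ) with h | h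
      · rw [h]
        calc _ ≤ (2 : ℝ) ^ (X + mm) * (1 / 2 ^ (X + mm) + 1 / 2 ^ (X + mm)) :=
              mul_le_mul_of_nonneg_left c0 pX.le
          _ = 2 := by field_simp; norm_num
      · calc _ ≤ (2 : ℝ) ^ (X + mm) * (1 / 2 ^ (X + mm)) :=
              mul_le_mul_of_nonneg_left (c1 b h) pX.le
          _ = 1 := by field_simp
          _ ≤ 2 := by norm_num
    have h3 := floor_near' c2
    have h4 : (0 : ℝ) ≤ K := Nat.cast_nonneg K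
    have h5 : (1 : ℝ) ≤ (K + 1) * 2 ^ K := by
      have : (1 : ℝ) ≤ 2 ^ K := one_le_pow₀ (by norm_num)
      nlinarith
    linarith
  have h2 := ch_vec hp.nonneg (fun ω => (jt1 F c k₀ w H Nf ω, (rt F W ω,
    zxs F c k₀ W zw sd ω))) (K + 1) (fun ω => d.ac K ω 0)
    (c := Real.log (2 * ((K + 1) * 2 ^ K + 2) + 1)) fun b =>
      CH_pair_int hp _ _ (by positivity) fun ω ν a a' e => key ω ν a a' e b
  push_cast at h2
  rw [← hd]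
  refine le_trans (CH_mono_left (X' := fun ω => d.ac K ω 0) h0 fun ω ν _ _ e => ?_) h2
  have e1 := (Prod.ext_iff.mp e).1
  funext j
  have hj : j = 0 := Subsingleton.elim _ _
  rw [hj]
  exact e1

/-- **The field `va`.** -/
theorem va (P : AvF F c k₀ i q w W X mm D K ks n γ B G H zw sd sy Rj Rx p Nf Nn Nx Nu Nv Mf Mn U
    Nb e) (gg : F.Ω → Fin 1 → ℝ) :
    CH p (fun ω => ((adG F c (fun _ : Fin 1 => k₀) i q w W X mm γ gg H
        (zxs F c k₀ W zw sd)).v K ω).2)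
      (fun ω => (jt1 F c k₀ w H Nv ω, (rt F W ω, zxs F c k₀ W zw sd ω))) ≤ cW K := by
  have hp := P.law
  have h0 := hp.nonneg
  obtain ⟨d, hd⟩ : ∃ d, d = adG F c (fun _ : Fin 1 => k₀) i q w W X mm γ gg H
    (zxs F c k₀ W zw sd) := ⟨_, rfl⟩
  have hX : d.X = X := by rw [hd]; rfl
  have hm : d.m = mm := by rw [hd]; rfl
  obtain ⟨f, hf⟩ : ∃ f : F.Ω → Fin (K + 1) → ℤ, f = fun ω => Fin.cons
    (d.ac K ω 0 0 / 2 ^ (d.X + d.m)) (fun a : Fin K => d.ac K ω 0 a.succ) := ⟨_, rfl⟩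
  have key : ∀ ω ν, 0 < p ω → 0 < p ν → (jt1 F c k₀ w H Nv ω, (rt F W ω,
      zxs F c k₀ W zw sd ω)) = (jt1 F c k₀ w H Nv ν, (rt F W ν, zxs F c k₀ W zw sd ν)) →
      ∀ b, |(f ω b : ℝ) - f ν b| ≤ (K + 1) * 2 ^ K + 2 := by
    intro ω ν hω hν e b
    simp only [Prod.mk.injEq] at e
    obtain ⟨e1, e2, e3⟩ := e
    obtain ⟨g0, g1⟩ := P.jets (E₀ := 0) (E₁ := X + mm) P.v0 P.v1 e1
    obtain ⟨c1, c0⟩ := P.coe (P.sup ω hω) (P.sup ν hν) e2 e3 g0 g1 gg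
    rw [← hd] at c1 c0
    have pX : (0 : ℝ) < 2 ^ (X + mm) := by positivity
    have h4 : (0 : ℝ) ≤ K := Nat.cast_nonneg K
    have h5 : (1 : ℝ) ≤ (K + 1) * 2 ^ K := by
      have : (1 : ℝ) ≤ 2 ^ K := one_le_pow₀ (by norm_num)
      nlinarith
    have h6 : (1 : ℝ) / 2 ^ (X + mm) ≤ 1 := by
      rw [div_le_one pX]
      exact one_le_pow₀ (by norm_num)
    rw [hf]
    refine Fin.cases ?_ (fun a => ?_) b
    · simp only [Fin.cons_zero]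
      have e4 : ∀ o : F.Ω, d.ac K o 0 0 / 2 ^ (d.X + d.m) = ⌊(d.A o 0).coeff 0⌋ := fun o => by
        unfold AD.ac
        exact floor_div_self _ _
      rw [e4, e4]
      have h3 := floor_near' c0
      rw [pow_zero, div_one] at h3
      linarith
    · simp only [Fin.cons_succ]
      unfold AD.ac
      rw [hX, hm]
      have c2 : |(2 : ℝ) ^ (X + mm) * (d.A ω 0).coeff (a.succ : ℕ) -
          2 ^ (X + mm) * (d.A ν 0).coeff (a.succ : ℕ)| ≤ 1 := by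
        rw [← mul_sub, abs_mul, abs_of_pos pX]
        have h1 : 1 ≤ (a.succ : ℕ) := by rw [Fin.val_succ]; omega
        calc _ ≤ (2 : ℝ) ^ (X + mm) * (1 / 2 ^ (X + mm)) :=
              mul_le_mul_of_nonneg_left (c1 _ h1) pX.le
          _ = 1 := by field_simp
      have h3 := floor_near' c2
      linarith
  have h2 := ch_vec hp.nonneg (fun ω => (jt1 F c k₀ w H Nv ω, (rt F W ω,
    zxs F c k₀ W zw sd ω))) (K + 1) f
    (c := Real.log (2 * ((K + 1) * 2 ^ K + 2) + 1)) fun b =>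
      CH_pair_int hp _ _ (by positivity) fun ω ν a a' e => key ω ν a a' e b
  push_cast at h2
  rw [← hd]
  refine le_trans (CH_mono_left (X' := f) h0 fun ω ν _ _ e => ?_) h2
  have e5 : f ω = f ν := (Prod.ext_iff.mp e).1
  unfold AD.v
  refine Prod.ext ?_ ?_
  · funext j a
    have hj : j = 0 := Subsingleton.elim _ _
    rw [hj]
    have := congrFun e5 a.succ
    rw [hf] at this
    simpa using this
  · funext j
    have hj : j = 0 := Subsingleton.elim _ _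
    rw [hj]
    have := congrFun e5 0
    rw [hf] at this
    simpa using this

/-- **The gradient**. -/
theorem grA (P : AvF F c k₀ i q w W X mm D K ks n γ B G H zw sd sy Rj Rx p Nf Nn Nx Nu Nv Mf Mn U
    Nb e) : GrdA F c (fun _ : Fin 1 => k₀) i q X γ (U + 8 * i * U) B (G 0)
      (fun ω _ => gnh F c i γ (G 0) (G n) ω k₀) (zxs F c k₀ W zw sd) (chs F i ks G)
      (chs F i n G) := by
  have hki := P.ki
  refine toA0 (mv := fun _ : Fin 1 => k₀) P.grd (Function.injective_of_subsingleton _)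
    (fun _ => hki) (fun ω ν hω hν ht hz _ l hl hj => ?_) P.kn le_rfl
  rcases Nat.lt_or_ge k₀ l with h1 | h1
  · exact P.hd ω ν hω hν ht hz l hl h1
  · have h2 : l < k₀ := lt_of_le_of_ne h1 fun h => hj 0 h.symm
    obtain ⟨b1, b2, b3⟩ := P.bas hω hν hz
    have hx : ∀ j < k₀, F.x ω (c j) = F.x ν (c j) := fun j hj => by
      unfold Fam.x
      rw [(b3 j hj).1, (b3 j hj).2, ht]
    have e1 : hgt F c (G 0) ω l = hgt F c (G 0) ν l := by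
      unfold Pool.D2R.hgt
      rw [hx l h2, P.zc ω ν hω hν (Prod.ext_iff.mp hz).1 l hl.le, P.cls ν hν l (by omega)]
      congr 1
      exact P.dep _ l _ _ ht fun j hj => hx j (hj.trans h2)
    rw [e1, sub_self, abs_zero]
    positivity

/-- **The inputs of the average.** -/
theorem prg (P : AvF F c k₀ i q w W X mm D K ks n γ B G H zw sd sy Rj Rx p Nf Nn Nx Nu Nv Mf Mn U
    Nb e) {j₀ : ℕ} {ε₀ ψ : ℝ} (hT : TimW F p W j₀ ε₀ ψ) (hψ : ψ * J ≤ e) :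
    PrG F c (fun _ : Fin 1 => k₀) i q w W X mm D K γ B (G 0) H
      (fun ω _ => gnh F c i γ (G 0) (G n) ω k₀) (zxs F c k₀ W zw sd) zw
      (fun ω => (yv c k₀ J F ω, sy ω)) (chs F i ks G) (chs F i n G) Rj Rx (Vh F c k₀ w H Nb) p
      (fun _ => Nf) (fun _ => Nn) (fun _ => Nx) (fun _ => Nu) (fun _ => Nv) Mf Mn
      (U + 8 * i * U) ((Nb - Nv 0 * J) * Real.log 2) e where
  law := P.law
  sup := P.sup
  wW := P.wW
  WJ := P.WJ
  deg := P.deg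
  DK := P.DK
  KX := P.KX
  cls := fun ω hω => ⟨P.cls ω hω i (by omega), fun _ => P.cls ω hω k₀ (by have := P.ki; omega)⟩
  grd := P.grA
  mU := P.mU
  zT := zxs_T p
  czy := zxs_czy P.law P.gd P.WJ P.sdy
  cyz := zxs_cyz P.law P.WJ P.syd
  ti := (adG_ti P.law hT (zxs_L P.zL P.sL) (zxs_T p) K).trans hψ
  mj := P.mj
  mx := P.mx
  chj := P.chj
  chx := P.chx
  zx := P.zx
  n0 := fun _ => P.n0
  n1 := fun _ => P.n1
  x0 := fun _ => P.x0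
  x1 := fun _ => P.x1
  u0 := fun _ => P.u0
  u1 := fun _ => P.u1
  m0 := P.m0
  m1 := P.m1
  mf := P.mf
  ac := (P.ac _).trans P.ce
  va := (P.va _).trans P.ce
  dj := P.dj
  jt := P.jt
  vf := P.vf

end AvF

end

/-- **Closed gradient in the direction of the first moved place**, on one event. -/
theorem avf_ev (K : ℕ) (cc ε : ℝ) (hcc : 0 < cc) (hε : 0 < ε) :
    ∃ (κ₂ κ π₀ ι ε₀ : ℝ) (k₁ j₀ X₀ : ℕ), 0 < κ₂ ∧ κ₂ ≤ 1 ∧ 0 < κ ∧ κ ≤ 1 ∧ 0 < π₀ ∧ 0 < ι ∧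
      0 < ε₀ ∧
      ∀ {m J : ℕ} {F : Fam m J} {c : ℕ → Fin m} {k₀ i q w W X mm D ks n : ℕ} {γ : ℕ → ℕ}
        {B : F.Ω → Prop} {G : ℕ → PtT F → ℕ → MvPolynomial (Option (Fin m)) ℝ}
        {H : LnT F → ℕ → MvPolynomial (Option (Fin m)) ℝ} {ζ σ τ ρ₁ ρ₂ : Type} {zw : F.Ω → ζ}
        {sd : F.Ω → σ} {sy : F.Ω → τ} {Rj : F.Ω → ρ₁} {Rx : F.Ω → ρ₂} {p : F.Ω → ℝ}
        {Nf Nn Nx Nu Nv Mf Mn : ℕ → ℝ} {U Nb e : ℝ}
        (_ : AvF F c k₀ i q w W X mm D K ks n γ B G H zw sd sy Rj Rx p Nf Nn Nx Nu Nv Mf Mn U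
          Nb e)
        {Ur ψ : ℝ}, ((γ k₀ + q + X : ℕ) : ℝ) ≤ Nb → Nb ≤ (γ k₀ + q + (X + mm) : ℕ) →
        Nv 0 * J + X ≤ Nb →
        (∀ a : ℕ, a + ⌊κ * X⌋₊ ≤ X → ∀ E : Set F.Ω, π₀ ≤ Pr p E →
          CH (rs p E) (Mh F c i w H (γ i + q + (a + ⌊κ * X⌋₊)))
            (fun ω => (Mh F c i w H (γ i + q + a) ω, (Vh F c k₀ w H Nb ω,
              (F.T ω, zxs F c k₀ W zw sd ω)))) ≤ Ur) →
        TimW F p W j₀ ε₀ ψ → X₀ ≤ X → W + X ≤ J → ψ * J ≤ e →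
        ψ * J ≤ ι * X * Real.log 2 → (mm : ℝ) ≤ ι * X →
        6 * (4 * e + cE0 1 K (U + 8 * i * U) + cV K) ≤ ι * X →
        3 * (4 * e + cE0 1 K (U + 8 * i * U) + cV K) + mm * Real.log 2 ≤
          ι * X * Real.log 2 →
        Ur + cR 1 K ((U + 8 * i * U) + 2) + (4 * (4 * e + cE0 1 K (U + 8 * i * U) + cV K) +
          mm * Real.log 2 + Real.log 2) / π₀ ≤ (1 - cc) * ⌊κ * X⌋₊ * Real.log 2 →
        ∃ mu : LnT F → Polynomial ℝ, (∀ s, (mu s).natDegree ≤ K) ∧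
          (∀ s (u : ℝ), |(mu s).eval u| ≤
            (K + 1) * (2 ^ k₁ * (|u| + 1)) ^ K * (2 : ℝ) ^ (ι * X)) ∧
          Pb p (fun ω => (2 : ℝ) ^ (-(κ₂ * X)) <
            |gnh F c i γ (G 0) (G n) ω k₀ - (mu (slam F W ω)).eval (rt F W ω)|) ≤ ε := by
  obtain ⟨κ₂, κ, π₀, ι, ε₀, k₁, j₀, X₀, a1, a2, a3, a4, a5, a6, a7, Hm⟩ :=
    av1_ev K cc ε hcc hε
  refine ⟨κ₂, κ, π₀, ι, ε₀, k₁, j₀, X₀, a1, a2, a3, a4, a5, a6, a7, ?_⟩
  intro m J F c k₀ i q w W X mm D ks n γ B G H ζ σ τ ρ₁ ρ₂ zw sd sy Rj Rx p Nf Nn Nx Nu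
    Nv Mf Mn U Nb e P Ur ψ hN1 hN2 hNX hrow hT hX hJ hψe hψ hmm n1 n2 n3
  exact Hm (P.prg hT hψe) hN1 hN2 hNX hrow hT (zxs_L P.zL P.sL) hX hJ hψ hmm n1 n2 n3

end Pool.AVG57
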