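import Pool.Agent.H96.AVG.Rgb
import Pool.Agent.H57.AVG.Av1a
import Pool.Agent.H71.AVG.Cof

/-!
# The inputs of the closed gradient in a class

The base places `c 0, …, c (r₀ - 1)`, the chain `c r₀, …, c v`; the moved place is the last place `v` of
the chain, the target is `c (v + 1)`. `y`: the near path of the base at the time (it is few bits given
the own jets of the base over labels of `w`, `YfC`). `CdC`: codes of the own path over arbitrary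
labels of the window `w` are few bits. `VfC`: the moved place is full given the record of `x`. `RwC`:
the rows of the target are not full. `C1C`: all the inputs at one triple of windows `w ≤ j, x`.
`C1N`: the numbers.
-/

set_option autoImplicit false

namespace Pool.AVG57

open Finset Real MvPolynomial
open Pool.Agent.H49.Ent Pool.Agent.H32.Dense Pool.STK Pool.KA Pool.KSAT Pool.K2S Pool.PB Pool.S6C
open Pool.GEN Pool.CHT Pool.RCD Pool.LA91 Pool.AVG96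
open Pool.GRD (LbP)

variable {m : ℕ} {γ : ∀ J : ℕ, Fam m J → Type}

/-- The digits `n l` of the order `0` and `n' l - j' w` of the orders `j' ≥ 1`. -/
noncomputable def nd (n n' : ℕ → ℝ) (w : ℝ) (l j' : ℕ) : ℝ :=
  if j' = 0 then n l else n' l - (j' : ℝ) * w

/-- **The codes of the own path** of the coordinate `c κ` of order `≥ j₀` over any labels of the
window `w`, to `N` digits, are few bits given the quantity `Q`, a closed function of the window `a`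
and `y`. -/
def CdC {U : Type} (S : PCl m) (y : ∀ (J : ℕ) (F : Fam m J), F.Ω → γ J F) (c : ℕ → Fin m)
    (κ K j₀ : ℕ) (w a pκ N θ : ℝ) (Q : Qt m U) : Prop :=
  ∃ e₀ : ℝ, 0 < e₀ ∧ ∀ (K₀ : ℕ) (E : ℝ), Bas S (fun J F A => ∀ u₀ : F.Ω → U,
    Q.P K₀ e₀ J F A u₀ → ∀ (V : Type) (z : PtT F → V) (z' : LnT F → V)
    (G : V → MvPolynomial (Option (Fin m)) ℝ),
    LbP F ((range κ).image c) (c κ) K J ⌊w * J⌋₊ ⌊(pκ - e₀) * J⌋₊ A z z' G →
    (∀ ω, A ω → ∀ b, |(dv ⌊w * J⌋₊ (fun s (_ : Fin m) => G (z' s)) (c κ)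
      (slam F ⌊w * J⌋₊ ω)).coeff b| ≤ 2 ^ (E * J)) →
    ∃ (V₁ : Type) (z₁ : F.Ω → V₁), Cl2 (ptr F J) (vg a J F) A z₁ ∧
      ∀ s : ℝ, 0 < s → s ≤ 2 ^ (N * J) →
      CH (Pool.Agent.H49.Ent.cond F.p A True) (Pool.AVG71.cod F ⌊w * J⌋₊ j₀ (K + 1) s (c κ) z' G)
        (fun ω => (u₀ ω, (z₁ ω, y J F ω))) ≤ θ * J)

/-- **The near path of the base** is few bits given the own jets of the base over labels of `w`. -/
def YfC (S : PCl m) (y : ∀ (J : ℕ) (F : Fam m J), F.Ω → γ J F) (c : ℕ → Fin m) (r₀ : ℕ) (w : ℝ)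
    (p n n' : ℕ → ℝ) (θ : ℝ) : Prop :=
  ∃ e₀ : ℝ, 0 < e₀ ∧ ∀ K : ℕ, Bas S (fun J F A => ∀ u,
    (jetQ m c 0 r₀ w p (nd n n' w)).P K e₀ J F A u → ∃ (V₁ : Type) (z₁ : F.Ω → V₁),
      Cl2 (ptr F J) (vg w J F) A z₁ ∧
      CH (Pool.Agent.H49.Ent.cond F.p A True) (y J F) (fun ω => (u ω, (z₁ ω, F.W ω))) ≤ θ * J)

/-- **The moved place is full**: the digits `Na, …, Nb` of its height over labels of `w`, given its
velocity, the records of `w` and `x`, the lower places of the chain and `y`. -/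
def VfC (S : PCl m) (y : ∀ (J : ℕ) (F : Fam m J), F.Ω → γ J F) (c : ℕ → Fin m) (r₀ v : ℕ)
    (w x : ℝ) (p n n' : ℕ → ℝ) (Na Nb Nd θ : ℝ) : Prop :=
  ∃ k : ℝ, 0 < k ∧ ∃ e₀ : ℝ, 0 < e₀ ∧ ∀ K : ℕ, Bas S (fun J F A =>
    ∀ (V₁ V₂ : Type) (z : F.Ω → V₁) (zx : F.Ω → V₂),
      Mx (fun J F => ptr F J) (vg w) k F A z → Mx (fun J F => ptr F J) (vg x) k F A zx →
      ∀ u₀ a b d, (jetQ m c r₀ v w p (nd n n' w)).P K e₀ J F A u₀ →
      (qJet m ((range v).image c) (c v) 0 w (p v) Na).P K e₀ J F A a →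
      (qJet m ((range v).image c) (c v) 0 w (p v) Nb).P K e₀ J F A b →
      (qJet m ((range v).image c) (c v) 1 w (p v) Nd).P K e₀ J F A d →
      ((Nb - Na) * Real.log 2 - θ) * J ≤ CH (Pool.Agent.H49.Ent.cond F.p A True) b
        (fun ω => (a ω, (d ω, (zx ω, (z ω, (u₀ ω, y J F ω)))))))

/-- **The rows of the target are not full**: the digits `P₁, …, P₂` of its height over labels of `w`,
given the heights of the chain to `n l` digits, the record of `w` and `y`. -/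
def RwC (S : PCl m) (y : ∀ (J : ℕ) (F : Fam m J), F.Ω → γ J F) (c : ℕ → Fin m) (r₀ v : ℕ)
    (w : ℝ) (p n : ℕ → ℝ) (P₁ P₂ h δ : ℝ) : Prop :=
  ∀ c₀ : ℝ, 0 < c₀ → ∃ k : ℝ, 0 < k ∧ ∃ e₀ : ℝ, 0 < e₀ ∧ ∀ K : ℕ, Bas S (fun J F A =>
    ∀ (V : Type) (z : F.Ω → V), Mx (fun J F => ptr F J) (vg w) k F A z → ∀ u u₁ u₂,
      (qJets m c r₀ (v + 1) 0 (fun _ _ => w) (fun l _ => p l) (fun l _ => n l)).P K e₀ J F A u →
      (qJet m ((range (v + 1)).image c) (c (v + 1)) 0 w (p (v + 1)) P₁).P K e₀ J F A u₁ →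
      (qJet m ((range (v + 1)).image c) (c (v + 1)) 0 w (p (v + 1)) P₂).P K e₀ J F A u₂ →
      ∀ B' : F.Ω → Prop, Sub B' A → c₀ * Pe F.p A ≤ Pe F.p B' →
      CH (Pool.Agent.H49.Ent.cond F.p B' True) u₂
        (fun ω => (u₁ ω, (u ω, (z ω, y J F ω)))) ≤
        ((1 - h) * (P₂ - P₁) * Real.log 2 + δ) * J)

/-- **The numbers.** `s`, `p`: the levels of the places and of the target at `w` and the precisions
of the labels; `n`, `n'`: the digits of the lower places and of the codes; `qr`, `ξ`, `μ`: the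
parameters `q`, `X`, `mm` in units of `J`; `Df`, `Dn`, `Dx`, `Dd`, `nt`, `Nv`, `Ef`, `En`: digits;
`nb`: the last digit of the moved place. -/
structure C1N (r₀ v : ℕ) (w δW : ℝ) (p s n n' nt : ℕ → ℝ) (qr ξ μ Nd Nt nb : ℝ)
    (Df Dn Dx Dd : ℕ → ℕ → ℝ) (Ef En Nv : ℕ → ℝ) : Prop where
  rv : r₀ ≤ v
  ps : ∀ l ≤ v + 1, 0 ≤ p l ∧ p l ≤ s l
  w0 : 0 ≤ w
  δ0 : 0 < δW
  w1 : w + δW + ξ < 1
  q0 : 0 < qr
  ξ0 : 0 < ξ
  μ0 : 0 < μ
  n0 : Dn v 0 < p v + qr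
  n1 : Dn v 1 + w + δW < p v + qr + ξ + μ
  ns : ∀ l, r₀ ≤ l → l < v → ∀ j' ≤ 1, Dn l j' = nd n n' w l j'
  x0 : Dx v 0 < p v + qr
  x1 : Dx v 1 + w + δW < p v + qr + ξ + μ
  xs : ∀ l, r₀ ≤ l → l < v → ∀ j' ≤ 1, Dx l j' = nd n n' w l j'
  u0 : nt v < p v + qr
  u1 : nt v + δW < p v + qr + ξ + μ
  us : ∀ l, r₀ ≤ l → l < v → nt l ≤ n l
  m0 : En 0 < p (v + 1) + qr
  m1 : En 1 + w + δW < p (v + 1) + qr
  mf : s (v + 1) + qr + ξ ≤ Ef 0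
  f0 : s v + qr + ξ + μ ≤ Df v 0
  f1 : s v + qr + ξ + μ < Df v 1 + w
  v0 : s v + qr ≤ Nv 0
  v1 : s v + qr + ξ + μ < Nv 1 + w
  b0 : s v + qr + ξ ≤ nb
  b1 : nb < p v + qr + ξ + μ
  b2 : Nv 0 + ξ ≤ nb
  c0 : ∀ l ≤ v, s l + qr + ξ + μ < n l
  c1 : ∀ l < r₀, n l ≤ n' l
  c2 : ∀ l, r₀ ≤ l → l ≤ v → n' l = n l
  d0 : s (v + 1) + qr + ξ ≤ Nd
  ds : ∀ l, r₀ ≤ l → l < v → ∀ j' ≤ 1, Dd l j' = nd n n' w l j'
  dv : ∀ j' ≤ 1, Dd v j' = Df v j'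

/-- **The inputs in the class**, with the error `η`. -/
structure C1C (S : PCl m) (y : ∀ (J : ℕ) (F : Fam m J), F.Ω → γ J F) (c : ℕ → Fin m)
    (r₀ v K : ℕ) (w j x : ℝ) (p n n' nt : ℕ → ℝ) (Nd Nt nb : ℝ) (Df Dn Dx Dd : ℕ → ℕ → ℝ)
    (Ef En Nv : ℕ → ℝ) (h lo hi η : ℝ) : Prop where
  tm : ∃ C₀, TmC S C₀
  wj : w ≤ j
  j1 : j ≤ 1
  wx : w ≤ x
  x1 : x ≤ 1
  yW : ∀ (J : ℕ) (F : Fam m J), ∃ φ : γ J F → F.ζ × ℕ, ∀ ω, φ (y J F ω) = (F.Z ω, F.T ω)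
  yf : YfC S y c r₀ w p n n' η
  y0 : ∀ l < r₀, CdC S y c l K 0 w w (p l) (n l) η (Qt.fn fun _ _ _ => ())
  y1 : ∀ l < r₀, CdC S y c l K 1 w w (p l) (n' l) η (Qt.fn fun _ _ _ => ())
  mj : MIw S (fun J F => ptr F J) y w j
    ((jetQ m c r₀ (v + 1) w p Df).prod (prQ m c (v + 1) w (p (v + 1)) Ef))
    ((jetQ m c r₀ (v + 1) w p Dn).prod (prQ m c (v + 1) w (p (v + 1)) En)) η
  mx : MIw S (fun J F => ptr F J) y w x (jetQ m c r₀ (v + 1) w p Df)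
    (jetQ m c r₀ (v + 1) w p Dx) η
  cd : ∀ l, r₀ ≤ l → l ≤ v → CdC S y c l K 2 w w (p l) (n' l) η
    (jetQ m c r₀ l w p (nd n n' w))
  dj : CdC S y c (v + 1) K 1 w w (p (v + 1)) Nd η (jetQ m c r₀ (v + 1) w p Dd)
  jt : CdC S y c (v + 1) K 0 w x (p (v + 1)) Nt η
    (qJets m c r₀ (v + 1) (K + 2) (fun _ _ => w) (fun l _ => p l) (fun l j' => nt l - (j' : ℝ) * w))
  vf : VfC S y c r₀ v w x p n n' (Nv 0) nb (Nv 1) η
  row : ∀ P₁ P₂ : ℝ, lo ≤ P₁ → P₁ ≤ P₂ → P₂ ≤ hi →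
    RwC S y c r₀ v w p (fun l => if l = v then nb else n l) P₁ P₂ h η

end Pool.AVG57
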