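import Pool.Agent.H57.AVG.Cgq
import Pool.Agent.H50.AVG.Asf
import Pool.Agent.H71.CDX.Crw
import Pool.Agent.H71.CDX.Cdr
import Pool.Agent.H3.D2G.Gchf
import Pool.Agent.H3.D2G.Afq
import Pool.Agent.H4.D2.Vfq

/-!
# The closed gradient at almost every window

`asmC_all`: the data of the class for all parameters, in one subclass. `tgt_attU`: the labels of the
target with a uniform margin. `VfQ`: the moved place is full, as a property of the windows.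
-/

set_option autoImplicit false

namespace Pool.AVG57

open Finset Real MvPolynomial MeasureTheory Filter Topology
open Pool.Agent.H49.Ent Pool.Agent.H32.Dense Pool.STK Pool.KA Pool.KSAT Pool.K2S Pool.PB Pool.S6C
open Pool.GEN Pool.CHT Pool.CHX Pool.ISO Pool.RCD Pool.LA91 Pool.AVG96 Pool.AVG50 Pool.CDX
open Pool.PKG Pool.OWN68 Pool.OWN83 Pool.D2F2
open Pool.TOP (TopS)

variable {n : ℕ} {hn : 2 ≤ n} {S : PCl n} {P : ℝ → ℝ → ℝ} {rr : ℝ → ℝ}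
  {P' : ℕ → List (Fin n) × Fin n → ℝ → ℝ → ℝ} {Λ : Finset (Fin n) → Fin n → ℝ → ℝ → ℝ}
  {PB : ℕ → List (Fin n) × Fin n → ℝ → ℝ → ℝ} {PQ : ℚ → List (Fin n) × Fin n → ℝ → ℝ → ℝ}

/-- **The labels of the target** at all good windows of all orders, in one subclass, with a uniform
margin. -/
theorem tgt_attU (H : Pk hn S P rr P' Λ) (hTop : TopS n) (hF : FZX (n - 1)) :
    ∃ S' : PCl n, S'.Ne ∧
      (∀ (τ : ℝ) (J : ℕ) (F : Fam n J) (A : F.Ω → Prop), S'.St τ J F A → S.St τ J F A) ∧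
      ∀ (o : Od n) (w : ℝ), w ∈ Gs P rr P' Λ o → ∃ rk E : ℝ, 0 ≤ rk ∧ rk < 1 ∧ 0 ≤ E ∧
        E + LvL hn P P' o (n - 1) w w + tht o.2 / 2 ≤ 1 ∧
        AtE S' ((range (n - 1)).image (cc hn o.1.1)) (cc hn o.1.1 (n - 1)) w
          (LvL hn P P' o (n - 1) w w) rk E := by
  obtain ⟨S', h1, h2, h3⟩ := V0F.attU_sub H hTop hF
  refine ⟨S', h1, h2, fun o w hw => ?_⟩
  obtain ⟨α, Q, c, F⟩ := H.fac hTop hF hw
  obtain ⟨hE0, -, -⟩ := V0F.tgt_lbU H hTop hF hw F F.gα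
  obtain ⟨-, hwu, hu⟩ := V0F.gs_full H hTop hF hw
  have hc0 : tht o.2 < c := F.thc
  have hw0 := F.g0
  rw [V0F.img_lst, cc_top, lvL_last]
  exact ⟨LvL hn P P' o (n - 2) w w, 1 - c / 2 - P w w, hw0.le.trans hwu, hu, hE0, by linarith,
    h3 o w hw w α Q c F F.gα⟩

theorem ixV_mono {A B Λ A' B' Λ' : ℝ} {A₁ B₁ Λ₁ p₀ lam : ℚ} (h : IxV A B Λ A₁ B₁ Λ₁ p₀ lam)
    (hA : A' ≤ A) (hB : B ≤ B') (hΛ : Λ ≤ Λ') : IxV A' B' Λ' A₁ B₁ Λ₁ p₀ lam where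
  hA := hA.trans h.hA
  hB := h.hB.trans hB
  h0 := h.h0
  hΛ := h.hΛ.trans hΛ
  p1 := h.p1
  pm := h.pm
  p0 := h.p0
  pl := h.pl

/-- **The data of the class for all parameters**, in one subclass, for a closed set of good
windows. -/
theorem asmC_all (H : PkT hn S P rr P' Λ PB) (hTop : TopS n) (hF : FZX (n - 1)) {o : Od n}
    {G : Set ℝ} (hG : IsClosed G) (hGs : G ⊆ Gs P rr P' Λ o) {v : ℕ} (hv1 : 1 ≤ v)
    (hv : v + 1 ≤ n - 1) :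
    ∃ S' : PCl n, S'.Ne ∧
      (∀ (τ : ℝ) (J : ℕ) (F : Fam n J) (A : F.Ω → Prop), S'.St τ J F A → S.St τ J F A) ∧
      ∀ A B Λ' : ℝ, 0 ≤ A → 0 < Λ' → B + Λ' ≤ 1 → B ≤ 1 → Λ' ≤ 1 →
        AsmC S' (cc hn o.1.1) 1 v 0 A B Λ' (fun w l => LvL hn P P' o l w w) G := by
  obtain ⟨S₁, a1, a2, a3⟩ := gch_sub H hTop hF
  have hpos : ∀ (τ : ℝ) (J : ℕ) (F : Fam n J) (A : F.Ω → Prop), S.St τ J F A →
      0 < Pe F.p A := by
    obtain ⟨al, g₀, s, d, e, K₀, N, hal, hg₀, hC⟩ := H.toPk.cl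
    exact fun τ J F A h => hC.pos τ J F A h
  have hM : Bas S (fun J F A => (cnt F.p (ptr F J) A : ℝ) ≤ Real.exp ((4 * n + 1) * J)) := by
    obtain ⟨al, g₀, s, d, e, K₀, N, hal, hg₀, hC⟩ := H.toPk.cl
    exact Bas.mono 0 hC.cnt fun J _ F A h => h J le_rfl
  obtain ⟨S₂, b1, b2, η, hη⟩ := rnum_sh a1 (fun τ J F A h => hpos τ J F A (a2 τ J F A h))
    (hM.sub a2) 0
  -- the class at all parameters
  have key : ∀ {S' : PCl n}, S'.Ne →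
      (∀ (τ : ℝ) (J : ℕ) (F : Fam n J) (A : F.Ω → Prop), S'.St τ J F A → S₂.St τ J F A) →
      ∀ {A B Λ' : ℝ}, 0 ≤ A → 0 < Λ' → ∀ {γ : ∀ J : ℕ, Fam n J → Type}
        {y : ∀ (J : ℕ) (F : Fam n J), F.Ω → γ J F},
        (∃ p₀ lam : ℝ, p₀ ≤ 1 ∧ Λ' ≤ lam ∧ B + Λ' ≤ p₀ ∧
          Kn ((range 1).image (cc hn o.1.1)) p₀ lam y) →
        GCh S' (fun J F => ptr F J) y (cc hn o.1.1) 1 (v + 1) 0 A B Λ'
          (fun w l => LvL hn P P' o l w w) G := by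
    intro S' hne hs A B Λ' hA hΛ γ y hk
    exact a3 hne (fun τ J F A h => b2 τ J F A (hs τ J F A h)) hG hGs (by omega) hv
      (Or.inl (by omega)) (fun w => (hη w).sub hs) hA hΛ hk
  have hposi : ∀ {S' : PCl n},
      (∀ (τ : ℝ) (J : ℕ) (F : Fam n J) (A : F.Ω → Prop), S'.St τ J F A → S₂.St τ J F A) →
      ∀ (τ : ℝ) (J : ℕ) (F : Fam n J) (A : F.Ω → Prop), S'.St τ J F A → 0 < Pe F.p A :=
    fun hs τ J F A h => hpos τ J F A (a2 τ J F A (b2 τ J F A (hs τ J F A h)))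
  obtain ⟨S₃, c1, c2, θ, c3⟩ := velN_cls (f := fun (J : ℕ) (F : Fam n J) => ptr F J) b1
    (hposi fun _ _ _ _ h => h) ((range 1).image (cc hn o.1.1)) 0 0 1
  obtain ⟨S₄, d1, d2, d3⟩ := vnum_clsM (ι := {x : ℚ × ℚ × ℚ × ℚ × ℚ //
      IxV 0 1 1 x.1 x.2.1 x.2.2.1 x.2.2.2.1 x.2.2.2.2})
    (f := fun (J : ℕ) (F : Fam n J) => ptr F J) (c := cc hn o.1.1) (r₀ := 1) (r := v + 1)
    (s := 0) c1 (hposi c2) _
    (fun x => yT ((range 1).image (cc hn o.1.1)) x.1.2.2.2.1 x.1.2.2.2.2)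
    (fun x => PG G x.1.1 0) (fun x => (x.1.2.1 : ℝ) - 0) (fun x => x.1.2.2.1)
    (fun x => whG G x.1.1 0) (fun x => scG (fun w l => LvL hn P P' o l w w) G x.1.1 0)
    (fun x A' hA' => (key (γ := _) (y := yT ((range 1).image (cc hn o.1.1)) x.1.2.2.2.1
      x.1.2.2.2.2) c1 c2 x.2.hA x.2.h0 ⟨x.1.2.2.2.1, x.1.2.2.2.2, x.2.p1, x.2.pm, x.2.p0,
        fun _ _ => ⟨fun z => z, fun _ => rfl⟩⟩).nch hA')
    (by omega) OWN83.exs_unit (fun _ _ _ _ _ _ => few_fn_self (hposi c2))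
  have d2' : ∀ (τ : ℝ) (J : ℕ) (F : Fam n J) (A : F.Ω → Prop), S₄.St τ J F A →
      S₂.St τ J F A := fun τ J F A h => c2 τ J F A (d2 τ J F A h)
  obtain ⟨S₅, e1, e2, e3⟩ := hnum_clsM (ι := {x : ℚ × ℚ × ℚ × ℚ × ℚ //
      IxV 0 1 1 x.1 x.2.1 x.2.2.1 x.2.2.2.1 x.2.2.2.2})
    (f := fun (J : ℕ) (F : Fam n J) => ptr F J) (c := cc hn o.1.1) (r₀ := 1) (r := v + 1)
    (s := 0) d1 (hposi d2') (fun _ _ _ => _)
    (fun x => yZT ((range 1).image (cc hn o.1.1)) x.1.2.2.2.1 x.1.2.2.2.2)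
    (fun x => PG G x.1.1 0) (fun x => (x.1.2.1 : ℝ) - 0) (fun x => x.1.2.2.1)
    (fun x => whG G x.1.1 0) (fun x => scG (fun w l => LvL hn P P' o l w w) G x.1.1 0)
    (fun x A' hA' => (key (γ := _) (y := yZT ((range 1).image (cc hn o.1.1)) x.1.2.2.2.1
      x.1.2.2.2.2) d1 d2' x.2.hA x.2.h0 ⟨x.1.2.2.2.1, x.1.2.2.2.2, x.2.p1, x.2.pm, x.2.p0,
        kn_yZT⟩).nch hA')
  have e2' : ∀ (τ : ℝ) (J : ℕ) (F : Fam n J) (A : F.Ω → Prop), S₅.St τ J F A →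
      S₂.St τ J F A := fun τ J F A h => d2' τ J F A (e2 τ J F A h)
  refine ⟨S₅, e1, fun τ J F A h => a2 τ J F A (b2 τ J F A (e2' τ J F A h)), ?_⟩
  intro A B Λ' hA hΛ hBΛ hB1 hΛ1
  exact {
    gch := ⟨_, yZT ((range 1).image (cc hn o.1.1)) 1 1, key e1 e2' hA hΛ
      ⟨1, 1, le_rfl, hΛ1, hBΛ, kn_yZT⟩⟩
    vel := ⟨θ, fun k q h1 h2 => ((c3 k q (hA.trans_lt h1) (h2.trans_le hB1)).sub d2).sub e2⟩
    vnum := fun A₁ B₁ Λ₁ p₀ lam hx =>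
      (d3 ⟨(A₁, B₁, Λ₁, p₀, lam), ixV_mono hx hA hB1 hΛ1⟩).sub e2
    hnum := fun A₁ B₁ Λ₁ p₀ lam hx =>
      e3 ⟨(A₁, B₁, Λ₁, p₀, lam), ixV_mono hx hA hB1 hΛ1⟩
    atv := fun w hw _ _ => (atV_of H.toPk.lam (hGs hw).1.1.1 (hGs hw).1.1.2.1.le).sub
      fun τ J F A h => a2 τ J F A (b2 τ J F A (e2' τ J F A h))
    sn0 := fun w hw _ _ => by
      obtain ⟨u₁, rd, -, h2⟩ := gs_chn1 H.toPk hTop hF (hGs hw) (i := 2) (by omega) (by omega)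
      exact (h2.s0 1 le_rfl (by omega)).1 }

/-- **The moved place is full**, as a property of the windows. -/
def VfQ (v : ℕ) (Φ : (ℕ → ℝ) → Prop) {n : ℕ} (_ : Unit) (_ : ℕ) (S : PCl n)
    (_ : List (Fin n) × Fin n → ℝ → ℝ → ℝ) (_ : ℝ) (c : ℕ → Fin n) (_ : ℝ → ℝ → ℝ)
    (_ : ℝ → ℝ) (L _ : ℕ → ℝ → ℝ → ℝ) (_ : ℕ → Kg) (G : Set ℝ) (x : ℝ) : Prop :=
  ∀ Sl : ℕ → ℝ, (∀ l, 1 ≤ l → l ≤ v + 1 → HasDerivAt (fun w => L l w w) (Sl l) x) → Φ Sl →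
    (∀ l, 1 ≤ l → l ≤ v + 1 → 1 < Sl l) → ∀ A B Λ' : ℚ, 0 ≤ A → (A : ℝ) < x → x < B →
    0 < Λ' → B + Λ' ≤ 1 → VfG S c 1 v A B Λ' (fun w l => L l w w) G x Sl

/-- **Equal slopes of the places 1, 2.** -/
theorem aePG_vf2 {n : ℕ} (hn4 : 4 ≤ n) (hFn : ∀ k, 1 ≤ k → k ≤ 3 → FZX k) :
    AePG n (VfQ 2 (fun Sl => Sl 1 = Sl 2) : PropG n Unit) := by
  intro hn S P r P' Λ PB PQ H hTop hF o G hG hGs
  obtain ⟨S', a1, a2, a3⟩ := aePG_vu hn4 hFn hn S P r P' Λ PB PQ H hTop hF o G hG hGs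
  refine ⟨S', a1, a2, ?_⟩
  have hpos : ∀ (τ : ℝ) (J : ℕ) (F : Fam n J) (A : F.Ω → Prop), S'.St τ J F A →
      0 < Pe F.p A := by
    obtain ⟨al, g₀, s, d, e, K₀, N, hal, hg₀, hC⟩ := H.toPk.cl
    exact fun τ J F A h => hC.pos τ J F A (a2 τ J F A h)
  filter_upwards [a3] with g h1 hg κ hκ p
  refine ⟨0, fun Sl hd hΦ h2 A B Λ' _ _ _ _ _ => ?_⟩
  obtain ⟨k₀, h3⟩ := h1 hg κ hκ p
  have d1 := hd 1 le_rfl (by omega)
  have d2 := hd 2 (by omega) (by omega)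
  have e1 : Sl 1 = Sl 2 := hΦ
  have h4 := h3 (Sl 1) (h2 1 le_rfl (by omega)) d1 (by rw [e1]; exact d2)
  exact vfG_vu hpos h4 d2 one_pos fun w _ _ _ => ⟨rfl, rfl⟩

/-- The conclusion of `asm_v` for the constants `a`. -/
def AsmV (v K : ℕ) (hd ε : ℝ) (a : Cst) : Prop :=
  ∀ {m : ℕ} {S : PCl m} {c : ℕ → Fin m} {s₀ A B Λ : ℝ} {sn : ℝ → ℕ → ℝ} {G : Set ℝ}
    (_ : AsmC S c 1 v s₀ A B Λ sn G) (_ : 1 ≤ v),
  ∀ᵐ g : ℝ, A < g → g < B → ∀ Sl : ℕ → ℝ, SlpG sn 1 (v + 1) G g Sl → 1 < Sl (v + 1) →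
    AtTg S c (v + 1) sn G g → RawG S c sn G g hd (v + 1) →
    ∀ Lb : ℝ → ℝ → ℝ → Prop, CodU S c 1 v K s₀ sn G g Sl Lb → VfG S c 1 v A B Λ sn G g Sl →
    ∀ ξ₀ ν₀ C : ℝ, 0 < ξ₀ → 0 < ν₀ → 0 < C →
      ∃ Cm κ φ ρ : ℝ, 0 < Cm ∧ 0 < κ ∧ 0 < φ ∧ 0 < ρ ∧
      ∀ R : ℝ, 0 < R → R < ρ → Lb Cm κ R → ∀ w ∈ G, ∀ j x : ℝ, g - R ≤ w → j ≤ g + R →
        x ≤ g + R → ∀ (δW q ξ μ ν φ' : ℝ) (p s : ℕ → ℝ),
        Bx2 sn 1 v Sl w j x δW q ξ μ ν φ' (C * R) p s → φ' ≤ φ * R → ξ₀ * R ≤ ξ →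
        ν₀ * R ≤ ν → μ ≤ a.θ * ξ → ν ≤ a.θ * ξ → a.θ * ξ + ν ≤ q →
        CGr S c v K w δW j x p s q ξ μ a.κ a.ι a.k ε

theorem asmV_ex (v K : ℕ) {hd ε : ℝ} (hh : 0 < hd) (hh1 : hd ≤ 1) (hε : 0 < ε) :
    ∃ a : Cst, a.Ok ∧ AsmV v K hd ε a := by
  obtain ⟨κ₂, ι, θ, k₁, a1, a2, a3, a4, a5, H⟩ := asm_v v K hh hh1 hε
  exact ⟨⟨κ₂, ι, θ, k₁⟩, ⟨a1, a2, a3, a4, a5⟩, H⟩

/-- **The rate at one small scale** bounds its derivative. -/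
theorem row_deriv {r : ℝ → ℝ} {x₀ ρ' h : ℝ} (hh : 0 < h) (hr : HasDerivAt r ρ' x₀) :
    ∃ k₀ : ℕ, ∀ k, k₀ ≤ k → ∀ R : ℝ, 0 < R → R < (1 / 2) ^ k →
      RowR r x₀ h R ((1 / 2) ^ k * R) → ρ' ≤ 1 - h / 2 := by
  have h1 := (hasDerivAt_iff_isLittleO.1 hr).def (c := h / 16) (by linarith)
  obtain ⟨δ, hδ, h2⟩ := Metric.eventually_nhds_iff.1 h1
  obtain ⟨k₁, hk₁⟩ := exists_pow_lt_of_lt_one hδ (show (1 / 2 : ℝ) < 1 by norm_num)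
  obtain ⟨k₂, hk₂⟩ := exists_pow_lt_of_lt_one (show (0 : ℝ) < h / 8 by linarith)
    (show (1 / 2 : ℝ) < 1 by norm_num)
  refine ⟨max k₁ k₂, fun k hk R hR hRk H => ?_⟩
  have e1 : (1 / 2 : ℝ) ^ k ≤ (1 / 2) ^ k₁ :=
    pow_le_pow_of_le_one (by norm_num) (by norm_num) ((le_max_left _ _).trans hk)
  have e2 : (1 / 2 : ℝ) ^ k ≤ (1 / 2) ^ k₂ :=
    pow_le_pow_of_le_one (by norm_num) (by norm_num) ((le_max_right _ _).trans hk)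
  have k1 := h2 (y := x₀ - R) (by
    rw [Real.dist_eq, sub_sub_cancel_left, abs_neg, abs_of_pos hR]
    linarith)
  have k2 := h2 (y := x₀ + R) (by
    rw [Real.dist_eq, add_sub_cancel_left, abs_of_pos hR]
    linarith)
  rw [Real.norm_eq_abs, Real.norm_eq_abs, smul_eq_mul, sub_sub_cancel_left, abs_neg,
    abs_of_pos hR] at k1
  rw [Real.norm_eq_abs, Real.norm_eq_abs, smul_eq_mul, add_sub_cancel_left, abs_of_pos hR] at k2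
  have k3 := H (x₀ - R) (x₀ + R) (by rw [sub_sub_cancel_left, abs_neg, abs_of_pos hR])
    (by rw [add_sub_cancel_left, abs_of_pos hR]) (by linarith)
  have k4 := (abs_le.1 k1).2
  have k5 := (abs_le.1 k2).1
  have k6 : (1 / 2 : ℝ) ^ k * R ≤ h / 8 * R := mul_le_mul_of_nonneg_right (by linarith) hR.le
  have k7 : 2 * R * ρ' ≤ 2 * R * (1 - h / 2) := by nlinarith
  exact le_of_mul_le_mul_left k7 (by linarith)

/-- Only the slopes of the chain matter. -/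
theorem bx2_congr {sn : ℝ → ℕ → ℝ} {v : ℕ} {Sl Sl' : ℕ → ℝ} {w j x δW q ξ μ ν φ C : ℝ}
    {p s : ℕ → ℝ} (N : Bx2 sn 1 v Sl w j x δW q ξ μ ν φ C p s)
    (h : ∀ l, 1 ≤ l → l ≤ v + 1 → Sl' l = Sl l) : Bx2 sn 1 v Sl' w j x δW q ξ μ ν φ C p s where
  q0 := N.q0
  ξ0 := N.ξ0
  μ0 := N.μ0
  ν0 := N.ν0
  δ0 := N.δ0
  δν := N.δν
  δξ := N.δξ
  φν := N.φν
  φμ := N.φμ
  wj := N.wj
  wx := N.wx
  jn := fun l l0 l1 => by rw [h l l0 l1]; exact N.jn l l0 l1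
  xn := fun l l0 l1 => by rw [h l l0 (by omega)]; exact N.xn l l0 l1
  xq := by rw [h (v + 1) (by omega) le_rfl]; exact N.xq
  qC := N.qC
  base := N.base
  sc := N.sc
  p0 := N.p0
  pc := N.pc

/-- The sources of codes of the places `1, …, v` of the chain. -/
def Srs (v : ℕ) {n : ℕ} (S : PCl n) (c : ℕ → Fin n) (sn : ℝ → ℕ → ℝ) (G : Set ℝ) (g : ℝ)
    (Sl : ℕ → ℝ) : Prop :=
  ∀ l, 1 ≤ l → l ≤ v → Sl l < 2 ∨ AfG S c sn G g l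

/-- **The closed gradient at almost every window**, in a subclass, if the moved place is full. The
constants depend on `v`, `h` and the degree only. -/
theorem aePG_cg {v : ℕ} (hv1 : 1 ≤ v) (hv2 : v ≤ 2) {Φ : (ℕ → ℝ) → Prop} {h : ℝ} (hh : 0 < h)
    (hh1 : h ≤ 1) : ∃ cs : ℕ → Cst, (∀ K, (cs K).Ok) ∧ ∀ {n : ℕ}, n = 4 → v + 2 = n →
      AePG n (VfQ v Φ : PropG n Unit) → AePG n (CgQ v Φ h cs : PropG n (ℕ × ℕ)) := by
  choose cs hok hcs using fun K => asmV_ex v K (show 0 < h / 2 by linarith)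
    (show h / 2 ≤ 1 by linarith) (show (0 : ℝ) < 1 / 2 by norm_num)
  refine ⟨cs, hok, ?_⟩
  intro n hn4 hvn hvf hn S P r P' Λ PB PQ H hTop hF o G hG hGs
  have hv' : v + 1 = n - 1 := by omega
  obtain ⟨S₁, a1, a2, a3⟩ := tgt_attU H.toPk hTop hF
  have H₁ := H.sub a1 a2
  obtain ⟨S₂, b1, b2, b3⟩ := asmC_all H₁.toPkT hTop hF hG hGs hv1 hv'.le
  have H₂ := H₁.sub b1 b2
  obtain ⟨S₃, c1, c2, c3⟩ := aePG_af n hn S₂ P r P' Λ PB PQ H₂ hTop hF o G hG hGs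
  have H₃ := H₂.sub c1 c2
  obtain ⟨S₄, d1, d2, d3⟩ := hvf hn S₃ P r P' Λ PB PQ H₃ hTop hF o G hG hGs
  have H₄ := H₃.sub d1 d2
  have s2 : ∀ (τ : ℝ) (J : ℕ) (F : Fam n J) (A : F.Ω → Prop), S₄.St τ J F A → S₂.St τ J F A :=
    fun τ J F A h => c2 τ J F A (d2 τ J F A h)
  have s1 : ∀ (τ : ℝ) (J : ℕ) (F : Fam n J) (A : F.Ω → Prop), S₄.St τ J F A → S₁.St τ J F A :=
    fun τ J F A h => b2 τ J F A (s2 τ J F A h)
  refine ⟨S₄, d1, fun τ J F A h => a2 τ J F A (s1 τ J F A h), ?_⟩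
  have hX : ∀ A B Λ' : ℝ, 0 ≤ A → 0 < Λ' → B + Λ' ≤ 1 → B ≤ 1 → Λ' ≤ 1 →
      AsmC S₄ (cc hn o.1.1) 1 v 0 A B Λ' (fun w l => LvL hn P P' o l w w) G :=
    fun A B Λ' k1 k2 k3 k4 k5 => (b3 A B Λ' k1 k2 k3 k4 k5).sub d1 s2
  have hall : ∀ᵐ g : ℝ, ∀ (K : ℕ) (x : {x : ℚ × ℚ // 0 < x.2 ∧ x.1 + x.2 ≤ 1 ∧ 0 ≤ x.1}),
      (0 : ℝ) < g → g < x.1.1 → ∀ Sl : ℕ → ℝ,
      SlpG (fun w l => LvL hn P P' o l w w) 1 (v + 1) G g Sl → 1 < Sl (v + 1) →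
      AtTg S₄ (cc hn o.1.1) (v + 1) (fun w l => LvL hn P P' o l w w) G g →
      RawG S₄ (cc hn o.1.1) (fun w l => LvL hn P P' o l w w) G g (h / 2) (v + 1) →
      ∀ Lb : ℝ → ℝ → ℝ → Prop,
      CodU S₄ (cc hn o.1.1) 1 v K 0 (fun w l => LvL hn P P' o l w w) G g Sl Lb →
      VfG S₄ (cc hn o.1.1) 1 v 0 x.1.1 x.1.2 (fun w l => LvL hn P P' o l w w) G g Sl →
      ∀ ξ₀ ν₀ C : ℝ, 0 < ξ₀ → 0 < ν₀ → 0 < C →
        ∃ Cm κ φ ρ : ℝ, 0 < Cm ∧ 0 < κ ∧ 0 < φ ∧ 0 < ρ ∧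
        ∀ R : ℝ, 0 < R → R < ρ → Lb Cm κ R → ∀ w ∈ G, ∀ j x : ℝ, g - R ≤ w → j ≤ g + R →
          x ≤ g + R → ∀ (δW q ξ μ ν φ' : ℝ) (p s : ℕ → ℝ),
          Bx2 (fun w l => LvL hn P P' o l w w) 1 v Sl w j x δW q ξ μ ν φ' (C * R) p s →
          φ' ≤ φ * R → ξ₀ * R ≤ ξ → ν₀ * R ≤ ν → μ ≤ (cs K).θ * ξ → ν ≤ (cs K).θ * ξ →
          (cs K).θ * ξ + ν ≤ q →
          CGr S₄ (cc hn o.1.1) v K w δW j x p s q ξ μ (cs K).κ (cs K).ι (cs K).k (1 / 2) := by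
    rw [ae_all_iff]
    intro K
    rw [ae_all_iff]
    rintro ⟨⟨B, Λ'⟩, k1, k2, k3⟩
    have k1' : (0 : ℝ) < (Λ' : ℝ) := by exact_mod_cast k1
    have k2' : (B : ℝ) + Λ' ≤ 1 := by exact_mod_cast k2
    have k3' : (0 : ℝ) ≤ (B : ℝ) := by exact_mod_cast k3
    exact hcs K (hX 0 B Λ' le_rfl k1' k2' (by linarith) (by linarith)) hv1
  have hrl : ∀ᵐ Q : ℝ, DifferentiableAt ℝ r Q := H.toPk.rate.lip.ae_differentiableAt_real
  have hrat : ∀ᵐ g : ℝ, DifferentiableAt ℝ (dgP P) g → 0 < deriv (dgP P) g →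
      dgP P g ∉ {Q | ¬ DifferentiableAt ℝ r Q} :=
    Pool.STR.ae_notMem_of_null (dgP_mono (H.toPk.tgs.law ())) (ae_iff.1 hrl)
  filter_upwards [hall, hrat, gap_ae hG, c3, d3] with g h1 h2 h3 h4 h5 hg κ hκ p
  obtain ⟨K, N⟩ := p
  have hg0 : 0 < g := (hGs hg).1.1.1
  have hg1 : g < 1 := (hGs hg).1.1.2.1
  -- the slopes
  by_cases hex : ∃ Sl : ℕ → ℝ, (∀ l, 1 ≤ l → l ≤ v + 1 →
      HasDerivAt (fun w => LvL hn P P' o l w w) (Sl l) g) ∧ Φ Sl ∧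
      ∀ l, 1 ≤ l → l ≤ v + 1 → 1 < Sl l
  swap
  · exact ⟨0, fun Sl e1 e2 e3 => absurd ⟨Sl, e1, e2, e3⟩ hex⟩
  obtain ⟨Sl₁, e1, e2, e3⟩ := hex
  have hslp : SlpG (fun w l => LvL hn P P' o l w w) 1 (v + 1) G g Sl₁ :=
    slpG_of (fun l l0 l1 => by linarith [e3 l l0 l1]) (fun l l0 l1 => e3 l l0 (by omega))
      (fun l l0 l1 => (e1 l l0 l1).hasDerivWithinAt) (h3 hg)
  -- the rate is differentiable
  have hP : (fun w => LvL hn P P' o (v + 1) w w) = fun w => P w w := by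
    rw [hv', lvL_last]
  have hdP : HasDerivAt (fun w => P w w) (Sl₁ (v + 1)) g := by
    have := e1 (v + 1) (by omega) le_rfl
    rwa [hP] at this
  have hev : dgP P =ᶠ[𝓝 g] fun w => P w w := by
    filter_upwards [Ioo_mem_nhds hg0 hg1] with w hw
    exact dgP_eq P hw.1.le hw.2.le
  have hdP' := hdP.congr_of_eventuallyEq hev
  have hrd : DifferentiableAt ℝ r (P g g) := by
    have k1 := h2 hdP'.differentiableAt (by
      rw [hdP'.deriv]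
      linarith [e3 (v + 1) (by omega) le_rfl])
    rw [dgP_eq P hg0.le hg1.le] at k1
    by_contra k2
    exact k1 k2
  obtain ⟨ρ', hρ'⟩ : ∃ ρ' : ℝ, HasDerivAt r ρ' (P g g) := ⟨_, hrd.hasDerivAt⟩
  have hLP : LvL hn P P' o (v + 1) g g = P g g := by rw [hv', lvL_last]
  obtain ⟨k₁, hk₁⟩ := row_deriv hh hρ'
  by_cases hrow : ρ' ≤ 1 - h / 2
  swap
  · refine ⟨k₁, fun Sl _ _ _ R hR hRk hrw => ?_⟩
    rw [hLP] at hrw
    exact absurd (hk₁ k₁ le_rfl R hR hRk hrw) hrow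
  -- the inputs at `g`
  have hTg : AtTg S₄ (cc hn o.1.1) (v + 1) (fun w l => LvL hn P P' o l w w) G g := by
    refine ⟨tht o.2 / 2, by linarith [tht_pos o.2], 1, one_pos, fun w hw _ _ => ?_⟩
    obtain ⟨rk, E, t1, t2, t3, t4, t5⟩ := a3 o w (hGs hw)
    refine ⟨rk, E, t1, t2, t3, ?_, ?_⟩
    · show E + LvL hn P P' o (v + 1) w w + tht o.2 / 2 ≤ 1
      rw [hv']
      exact t4
    · show AttG S₄ ((range (v + 1)).image (cc hn o.1.1)) (cc hn o.1.1 (v + 1)) w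
        (LvL hn P P' o (v + 1) w w) rk E
      rw [hv']
      exact t5.sub s1
  have hraw : RawG S₄ (cc hn o.1.1) (fun w l => LvL hn P P' o l w w) G g (h / 2) (v + 1) := by
    refine rawG_rate H₄.toPk.tmc (rt := r) ?_ ?_ hslp hg (by omega) le_rfl ?_ ?_ (ρ' := ρ') ?_ hrow
    · rw [hv', cc_top]
      exact H₄.toPk.rate
    · rw [hv', cc_top]
      exact V0F.img_lst hn o.1.1
    · show 0 < LvL hn P P' o (v + 1) g g
      rw [hLP]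
      exact hg0.trans_le (H.toPk.tgs.low () g g hg0.le le_rfl hg1.le)
    · show LvL hn P P' o (v + 1) g g < 1
      rw [hLP]
      exact tgt_lt H.toPk hTop hF (hGs hg)
    · show HasDerivAt r ρ' (LvL hn P P' o (v + 1) g g)
      rw [hLP]
      exact hρ'
  have hsrs : Srs v S₄ (cc hn o.1.1) (fun w l => LvL hn P P' o l w w) G g Sl₁ := by
    intro l l0 l1
    obtain ⟨_, k2⟩ := h4 hg κ hκ ()
    have k3 := k2 (by omega) (by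
      rw [(e1 1 le_rfl (by omega)).deriv]
      exact e3 1 le_rfl (by omega))
    right
    obtain rfl | rfl : l = 1 ∨ l = 2 := by omega
    · exact k3.1.sub d2
    · exact k3.2.sub d2
  have hcod : CodU S₄ (cc hn o.1.1) 1 v K 0 (fun w l => LvL hn P P' o l w w) G g Sl₁
      (fun Cm κ R => LbR S₄ (cc hn o.1.1) 1 K (fun w l => LvL hn P P' o l w w) G g (Cm * R)
        (Cm * R) (κ * R) (v + 1)) := by
    have hsrc : ∀ l, 1 ≤ l → l ≤ v →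
        SrcU S₄ (cc hn o.1.1) 1 (v + 1) 0 K (fun w l => LvL hn P P' o l w w) G g l := by
      intro l
      induction l using Nat.strong_induction_on with
      | _ l ih =>
        intro l0 l1
        rcases hsrs l l0 l1 with k | k
        · exact src_natU hslp l0 (by omega) k fun l' a b => ih l' b a (by omega)
        · exact src_affU l0 (by omega) k fun l' a b => ih l' b a (by omega)
    exact fun e C ν₀ γ₀ a b c d => codes_atU hslp hv1 (e3 (v + 1) (by omega) le_rfl).le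
      (by linarith) (by linarith) hraw hsrc a b c d
  -- the interval
  obtain ⟨B, B1, B2⟩ := exists_rat_btwn hg1
  have hB0 : (0 : ℝ) < B := hg0.trans B1
  have hB0' : (0 : ℚ) < B := by exact_mod_cast hB0
  have hB1' : B < (1 : ℚ) := by exact_mod_cast B2
  obtain ⟨_, hvf'⟩ := h5 hg κ hκ ()
  have hvfg := hvf' Sl₁ e1 e2 e3 0 B (1 - B) le_rfl (by push_cast; exact hg0) B1 (by linarith)
    (by linarith)
  have hN : (0 : ℝ) < N + 1 := by positivity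
  obtain ⟨Cm, κ', φ₀, ρ, f1, f2, f3, f4, HH⟩ := h1 K ⟨(B, 1 - B), by linarith, by linarith,
    hB0'.le⟩ hg0 B1 Sl₁ hslp (e3 (v + 1) (by omega) le_rfl) hTg hraw _ hcod
    (by push_cast at hvfg ⊢; exact hvfg) (1 / (N + 1)) (1 / (N + 1)) (N + 1) (by positivity)
    (by positivity) hN
  obtain ⟨k₂, hk₂⟩ := exists_pow_lt_of_lt_one (lt_min (lt_min f2 f3) f4)
    (show (1 / 2 : ℝ) < 1 by norm_num)
  obtain ⟨k₃, hk₃⟩ := exists_nat_gt Cm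
  refine ⟨max k₂ k₃, fun Sl g1 g2 g3 R hR hRk _ hLb w hw j x w1 j1 x1 δW q ξ μ ν φ' pl sl Nm hφ'
    hξ hν hμ hνθ hθq => ?_⟩
  have hpw : (1 / 2 : ℝ) ^ (max k₂ k₃) ≤ (1 / 2) ^ k₂ :=
    pow_le_pow_of_le_one (by norm_num) (by norm_num) (le_max_left _ _)
  have m1 : (1 / 2 : ℝ) ^ (max k₂ k₃) < κ' := by
    have := min_le_left (min κ' φ₀) ρ
    have := min_le_left κ' φ₀
    linarith
  have m2 : (1 / 2 : ℝ) ^ (max k₂ k₃) < φ₀ := by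
    have := min_le_left (min κ' φ₀) ρ
    have := min_le_right κ' φ₀
    linarith
  have m3 : (1 / 2 : ℝ) ^ (max k₂ k₃) < ρ := by
    have := min_le_right (min κ' φ₀) ρ
    linarith
  have m4 : Cm ≤ 2 ^ (max k₂ k₃) := by
    have k1 : (k₃ : ℝ) ≤ 2 ^ k₃ := by
      have := Nat.lt_two_pow_self (n := k₃)
      exact_mod_cast this.le
    have k2 : (2 : ℝ) ^ k₃ ≤ 2 ^ (max k₂ k₃) := pow_le_pow_right₀ (by norm_num)
      (le_max_right _ _)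
    linarith
  have hSlE : ∀ l, 1 ≤ l → l ≤ v + 1 → Sl₁ l = Sl l := fun l l0 l1 =>
    (e1 l l0 l1).unique (g1 l l0 l1)
  rw [abs_le] at w1 j1 x1
  refine HH R hR (hRk.trans m3) ?_ w hw j x (by linarith [w1.1]) (by linarith [j1.2])
    (by linarith [x1.2]) δW q ξ μ ν φ' pl sl (bx2_congr Nm hSlE) ?_ ?_ ?_ hμ hνθ hθq
  · exact hLb.mono (mul_le_mul_of_nonneg_right m4 hR.le) (mul_le_mul_of_nonneg_right m4 hR.le)
      (mul_le_mul_of_nonneg_right m1.le hR.le)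
  · exact hφ'.trans (mul_le_mul_of_nonneg_right m2.le hR.le)
  · rw [one_div, inv_mul_eq_div]
    exact hξ
  · rw [one_div, inv_mul_eq_div]
    exact hν

end Pool.AVG57
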