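import Pool.Agent.H57.AVG.Av1a

/-!
# The codes of the own paths as a side path

`sdL`: the codes of the own paths of the places `l ≤ v` over the charts of the window `w`: of all
orders for `l < v`, of the orders `≥ 2` for the moved place `v`. `ojet_near`, `hgt_sd`, `jet2_sd`:
heights and jets from the codes. `AvL`: the inputs on one event, moved place `v`, target `v + 1`.
`avl_ev`: the gradient of the target in the direction of `v` is closed.
-/

set_option autoImplicit false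

namespace Pool.AVG57

open Finset Real MvPolynomial
open Pool.Agent.H49.Ent Pool.Agent.H32.Dense Pool.STK Pool.KA Pool.KSAT Pool.K2S Pool.PB Pool.S6C
open Pool.GEN Pool.CHT Pool.CHX Pool.ISO Pool.LA91 Pool.AVG71 Pool.AVG5 Pool.D2F2
open Pool.PB.Trl (rt rt_mem t_rt)
open Pool.D2R (hgt gnh GrdE chs)
open Pool.KVA (MI)
open Pool.KAF (rs Pr)
open Pool.BFL (Pb)

variable {m J : ℕ}

/-! ### Polynomials -/

/-- **The coefficients of the orders `≥ a₁`** from the high ones and from the jets of the orders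
`a₁ ≤ a < a₀` at one time. -/
theorem tay_hi {N : ℕ} {q : Polynomial ℝ} (hq : q.natDegree ≤ N) {a₀ a₁ : ℕ} {ε δ s : ℝ}
    (hs : |s| ≤ 1) (hε : 0 ≤ ε) (hδ : 0 ≤ δ) (h : ∀ b ≥ a₀, |q.coeff b| ≤ ε)
    (hj : ∀ a, a₁ ≤ a → a < a₀ → |(Polynomial.taylor s q).coeff a| ≤ δ) {a : ℕ} (ha : a₁ ≤ a) :
    |q.coeff a| ≤ (N + 1) * 2 ^ N * (δ + (N + 1) * 2 ^ N * ε) := by
  have h1 : ∀ b ≥ a, |(Polynomial.taylor s q).coeff b| ≤ δ + (N + 1) * 2 ^ N * ε := by
    intro b hb0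
    rcases Nat.lt_or_ge b a₀ with hb | hb
    · have : (0 : ℝ) ≤ (N + 1) * 2 ^ N * ε := by positivity
      linarith [hj b (ha.trans hb0) hb]
    · have := tay_coef hq (a := b) hs hε fun b' hb' => h b' (hb.trans hb')
      linarith
  have h2 : Polynomial.taylor (-s) (Polynomial.taylor s q) = q := by
    rw [Polynomial.taylor_taylor]
    simp
  have h3 : (Polynomial.taylor s q).natDegree ≤ N := by
    rw [Polynomial.natDegree_taylor]
    exact hq
  have h4 := tay_coef h3 (a := a) (ε := δ + (N + 1) * 2 ^ N * ε) (s := -s) (by rwa [abs_neg])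
    (by positivity) h1
  rwa [h2] at h4

/-! ### Jets from the codes -/

theorem rt_of (F : Fam m J) {w : ℕ} (hw : w ≤ J) {ω ν : F.Ω} (h : F.T ω = F.T ν) :
    rt F w ω = rt F w ν := by
  unfold Pool.PB.Trl.rt
  rw [h]

theorem T_of_t (F : Fam m J) {ω ν : F.Ω} (h : F.t ω = F.t ν) : F.T ω = F.T ν := by
  unfold Fam.t at h
  have h2 : (2 : ℝ) ^ J ≠ 0 := by positivity
  have h3 : (F.T ω : ℝ) = F.T ν := by
    field_simp at h
    exact h
  exact_mod_cast h3

/-- **The own jets from the coefficients.** -/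
theorem ojet_near (F : Fam m J) {w : ℕ} (hw : w ≤ J)
    {H : LnT F → MvPolynomial (Option (Fin m)) ℝ} {κ : Fin m} {K : ℕ}
    (hK : ∀ s, (dv w (fun s (_ : Fin m) => H s) κ s).natDegree ≤ K) {ω ν : F.Ω}
    (ht : rt F w ω = rt F w ν) {a : ℕ} {δ : ℝ} (hδ : 0 ≤ δ)
    (h : ∀ b, a ≤ b → b ≤ K → |(dv w (fun s (_ : Fin m) => H s) κ (slam F w ω)).coeff b -
      (dv w (fun s (_ : Fin m) => H s) κ (slam F w ν)).coeff b| ≤ δ) :
    |ojet F κ a (H (slam F w ω)) ω - ojet F κ a (H (slam F w ν)) ν| ≤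
      (a.factorial * (2 ^ w) ^ a) * ((K + 1) * 2 ^ K * δ) := by
  have h1 := tay_coef (q := dv w (fun s (_ : Fin m) => H s) κ (slam F w ω) -
    dv w (fun s (_ : Fin m) => H s) κ (slam F w ν)) (N := K)
    ((Polynomial.natDegree_sub_le _ _).trans (max_le (hK _) (hK _))) (a := a)
    (s := rt F w ω) (by rw [abs_of_nonneg (rt_mem F w ω).1]; exact (rt_mem F w ω).2) hδ
    fun b hb => by
      rw [Polynomial.coeff_sub]
      rcases Nat.lt_or_ge K b with h5 | h5
      · rw [Polynomial.coeff_eq_zero_of_natDegree_lt ((hK _).trans_lt h5),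
          Polynomial.coeff_eq_zero_of_natDegree_lt ((hK _).trans_lt h5), sub_self, abs_zero]
        exact hδ
      · exact h b hb h5
  have p1 : (0 : ℝ) < (a.factorial : ℝ) * (2 ^ w) ^ a := by positivity
  rw [map_sub, Polynomial.coeff_sub, ojet_tay F hw ω κ (fun s (_ : Fin m) => H s) a, ht,
    ojet_tay F hw ν κ (fun s (_ : Fin m) => H s) a, ← sub_div, abs_div, abs_of_pos p1,
    div_le_iff₀ p1] at h1
  linarith

/-- The codes `≥ a₀` are few bits if the coefficients are near. -/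
theorem cod_few {F : Fam m J} {p : F.Ω → ℝ} (hp : IsLaw p) {w : ℕ}
    {H : LnT F → MvPolynomial (Option (Fin m)) ℝ} {κ : Fin m} {N a₀ K : ℕ} {𝓦 : Type}
    (Z : F.Ω → 𝓦) {D : ℝ} (hD : 0 ≤ D)
    (h : ∀ ω ν, 0 < p ω → 0 < p ν → Z ω = Z ν → ∀ b, a₀ ≤ b → b ≤ K →
      |(dv w (fun s (_ : Fin m) => H s) κ (slam F w ω)).coeff b -
        (dv w (fun s (_ : Fin m) => H s) κ (slam F w ν)).coeff b| ≤ D / 2 ^ N) :
    CH p (cod F w H κ N a₀ K) Z ≤ (K + 1) * Real.log (2 * (D + 1) + 1) := by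
  have h2 := ch_vec hp.nonneg Z (K + 1) (cod F w H κ N a₀ K)
    (c := Real.log (2 * (D + 1) + 1)) fun b => CH_pair_int hp _ _ (by positivity)
      fun ω ν hω hν e => ?_
  · push_cast at h2
    exact h2
  · unfold cod
    by_cases hb : a₀ ≤ (b : ℕ)
    · rw [if_pos hb, if_pos hb]
      refine floor_near' ?_
      have p2 : (0 : ℝ) < 2 ^ N := by positivity
      rw [← mul_sub, abs_mul, abs_of_pos p2, mul_comm]
      exact (le_div_iff₀ p2).1 (h ω ν hω hν e b hb (Nat.lt_succ_iff.1 b.2))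
    · rw [if_neg hb, if_neg hb, sub_self, abs_zero]
      positivity

/-! ### The codes of the places -/

/-- **The codes** of the own paths of the places `l ≤ v` over the charts of the window `w`. -/
noncomputable def sdL (F : Fam m J) (c : ℕ → Fin m) (v w K : ℕ)
    (H : LnT F → ℕ → MvPolynomial (Option (Fin m)) ℝ) (nc nc' : ℕ → ℕ) (ω : F.Ω)
    (l : Fin (v + 1)) : (Fin (K + 1) → ℤ) × (Fin (K + 1) → ℤ) :=
  (cod F w (fun s => H s l) (c l) (nc l) (if (l : ℕ) = v then K + 1 else 0) K ω,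
    cod F w (fun s => H s l) (c l) (nc' l) (if (l : ℕ) = v then 2 else 1) K ω)

section

variable {F : Fam m J} {c : ℕ → Fin m} {v w W K D : ℕ}
  {H : LnT F → ℕ → MvPolynomial (Option (Fin m)) ℝ} {nc nc' : ℕ → ℕ}

theorem sdL_fst {ω ν : F.Ω} (h : sdL F c v w K H nc nc' ω = sdL F c v w K H nc nc' ν) {l : ℕ}
    (hl : l < v) : cod F w (fun s => H s l) (c l) (nc l) 0 K ω =
      cod F w (fun s => H s l) (c l) (nc l) 0 K ν := by
  have h1 := (Prod.ext_iff.mp (congrFun h ⟨l, by omega⟩)).1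
  simp only [sdL, if_neg hl.ne] at h1
  exact h1

theorem sdL_snd {ω ν : F.Ω} (h : sdL F c v w K H nc nc' ω = sdL F c v w K H nc nc' ν) {l : ℕ}
    (hl : l ≤ v) {b : ℕ} (hb : if l = v then 2 ≤ b else 1 ≤ b) (hbK : b ≤ K) :
    |(dv w (fun s (_ : Fin m) => H s l) (c l) (slam F w ω)).coeff b -
      (dv w (fun s (_ : Fin m) => H s l) (c l) (slam F w ν)).coeff b| ≤ 1 / 2 ^ nc' l := by
  have h1 := (Prod.ext_iff.mp (congrFun h ⟨l, by omega⟩)).2
  simp only [sdL] at h1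
  refine cod_near h1 ?_ hbK
  split_ifs with h2
  · rw [if_pos h2] at hb
    exact hb
  · rw [if_neg h2] at hb
    exact hb

theorem natDegree_dvH (hH : ∀ s l, (H s l).totalDegree ≤ D) (hK : D + 1 ≤ K) (l : ℕ)
    (s : LnT F) : (dv w (fun s (_ : Fin m) => H s l) (c l) s).natDegree ≤ K :=
  (natDegree_dv w (G := fun s (_ : Fin m) => H s l) (fun s _ => hH _ _) _ _).trans hK

/-- The own height is the own jet of order `0`. -/
theorem hgt_ojet (hw : w ≤ J) {G₀ : PtT F → ℕ → MvPolynomial (Option (Fin m)) ℝ} {l : ℕ} {ω : F.Ω}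
    (h : G₀ (ptr F J ω) l = H (slam F w ω) l) :
    hgt F c G₀ ω l = ojet F (c l) 0 (H (slam F w ω) l) ω := by
  have h1 := dvW_hgt (c := c) (G₀ := G₀) (H := H) le_rfl hw h
  have h2 := ojet_tay F hw ω (c l) (fun s (_ : Fin m) => H (upw w w s) l) 0
  have e1 : upw w w (slam F w ω) = slam F w ω := upw_slam F le_rfl hw ω
  rw [Polynomial.taylor_coeff_zero, h1, e1] at h2
  simpa using h2

/-- **The heights from the codes.** -/
theorem hgt_sd (hw : w ≤ J) (hH : ∀ s l, (H s l).totalDegree ≤ D) (hK : D + 1 ≤ K)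
    {B : F.Ω → Prop} {G₀ : PtT F → ℕ → MvPolynomial (Option (Fin m)) ℝ}
    (hc : Clsd F (v + 2) w B G₀ H) {ω ν : F.Ω} (hω : B ω) (hν : B ν) (hT : F.T ω = F.T ν)
    (h : sdL F c v w K H nc nc' ω = sdL F c v w K H nc nc' ν) {l E : ℕ} (hl : l < v)
    (hE : E + 2 * K ≤ nc l) : |hgt F c G₀ ω l - hgt F c G₀ ν l| ≤ 1 / 2 ^ E := by
  rw [hgt_ojet hw (hc ω hω l (by omega)), hgt_ojet hw (hc ν hν l (by omega))]
  have h1 := ojet_near F hw (natDegree_dvH (c := c) (w := w) hH hK l) (rt_of F hw hT) (a := 0)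
    (δ := 1 / 2 ^ nc l) (by positivity) fun b hb hbK => cod_near (sdL_fst h hl) hb hbK
  refine h1.trans ?_
  have hK1 : ((K : ℝ) + 1) ≤ 2 ^ K := by
    have : K + 1 ≤ 2 ^ K := K.lt_two_pow_self
    exact_mod_cast this
  have e1 : (2 : ℝ) ^ nc l = 2 ^ E * 2 ^ (2 * K) * 2 ^ (nc l - (E + 2 * K)) := by
    rw [← pow_add, ← pow_add]
    congr 1
    omega
  have e2 : (1 : ℝ) ≤ 2 ^ (nc l - (E + 2 * K)) := one_le_pow₀ (by norm_num)
  have e3 : (2 : ℝ) ^ (2 * K) = 2 ^ K * 2 ^ K := by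
    rw [← pow_add]
    congr 1
    omega
  have p2 : (0 : ℝ) < 2 ^ K := by positivity
  have pE : (0 : ℝ) < 2 ^ E := by positivity
  simp only [Nat.factorial_zero, Nat.cast_one, pow_zero, mul_one, one_mul]
  rw [mul_one_div, div_le_div_iff₀ (by positivity) pE, one_mul, e1, e3]
  calc ((K : ℝ) + 1) * 2 ^ K * 2 ^ E ≤ 2 ^ K * 2 ^ K * 2 ^ E := by gcongr
    _ = 2 ^ E * (2 ^ K * 2 ^ K) * 1 := by ring
    _ ≤ _ := by gcongr

/-- The constant of the jets from the codes. -/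
noncomputable def cS (K : ℕ) : ℝ := Real.log (2 * (2 * ((K + 1) * 2 ^ K) + 1) + 1)

theorem cS_nonneg (K : ℕ) : 0 ≤ cS K := by
  refine Real.log_nonneg ?_
  have : (0 : ℝ) ≤ (K + 1) * 2 ^ K := by positivity
  linarith

/-- **The jets of the orders `0`, `1` from the codes**: the places `r₀ ≤ l < r`, `r ≤ v`. -/
theorem jet2_sd {p : F.Ω → ℝ} (hp : IsLaw p) (hw : w ≤ J) (hH : ∀ s l, (H s l).totalDegree ≤ D)
    (hK : D + 1 ≤ K) {r₀ r : ℕ} (hr : r ≤ v) {N : ℕ → ℕ → ℝ}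
    (h0 : ∀ l, r₀ ≤ l → l < r → N l 0 * J ≤ nc l + 1)
    (h1 : ∀ l, r₀ ≤ l → l < r → N l 1 * J + w ≤ nc' l + 1) {𝓦 : Type} (Z : F.Ω → 𝓦)
    (hZ : ∀ ω ν, 0 < p ω → 0 < p ν → Z ω = Z ν → F.T ω = F.T ν ∧
      sdL F c v w K H nc nc' ω = sdL F c v w K H nc nc' ν) :
    CH p (jet2 F c w H r₀ r N) Z ≤ 2 * v * cS K := by
  have h0' := hp.nonneg
  obtain ⟨f, hf⟩ : ∃ f : F.Ω → Fin v × Fin 2 → ℤ, f = fun ω i =>
    jet2 F c w H r₀ r N ω i.1 i.2 := ⟨_, rfl⟩
  have key := CH_near hp f Z (D := 2 * ((K + 1) * 2 ^ K) + 1) (by positivity)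
    fun ω ν hω hν e i => ?_
  · refine le_trans (CH_mono_left (X' := f) h0' fun ω ν _ _ e => ?_) (key.trans (le_of_eq ?_))
    · have e1 : f ω = f ν := (Prod.ext_iff.mp e).1
      funext l j'
      rw [hf] at e1
      by_cases h : r₀ ≤ l ∧ l < r ∧ j' ≤ 1
      · exact congrFun e1 (⟨l, by omega⟩, ⟨j', by omega⟩)
      · unfold jet2
        rw [if_neg h, if_neg h]
    · rw [Fintype.card_prod, Fintype.card_fin, Fintype.card_fin]
      unfold cS
      push_cast
      ring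
  · obtain ⟨e1, e2⟩ := hZ ω ν hω hν e
    obtain ⟨⟨l, hl⟩, ⟨a, ha⟩⟩ := i
    rw [hf]
    show |((jet2 F c w H r₀ r N ω l a : ℤ) : ℝ) - (jet2 F c w H r₀ r N ν l a : ℤ)| ≤ _
    unfold jet2
    by_cases h : r₀ ≤ l ∧ l < r ∧ a ≤ 1
    swap
    · rw [if_neg h, if_neg h, sub_self, abs_zero]
      positivity
    rw [if_pos h, if_pos h]
    refine floor_near' ?_
    have p3 : (0 : ℝ) < (2 : ℝ) ^ (N l a * J) := Real.rpow_pos_of_pos two_pos _
    rw [← mul_sub, abs_mul, abs_of_pos p3]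
    have pK : (0 : ℝ) ≤ (K + 1) * 2 ^ K := by positivity
    rcases Nat.eq_zero_or_pos a with ha0 | ha0
    · subst ha0
      have g1 := ojet_near F hw (natDegree_dvH (c := c) (w := w) hH hK l) (rt_of F hw e1)
        (a := 0) (δ := 1 / 2 ^ nc l) (by positivity) fun b hb hbK =>
          cod_near (sdL_fst e2 hl) hb hbK
      simp only [Nat.factorial_zero, Nat.cast_one, pow_zero, mul_one, one_mul] at g1
      have g2 : (2 : ℝ) ^ (N l 0 * J) ≤ 2 ^ nc l * 2 := by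
        rw [← pow_succ, ← Real.rpow_natCast]
        refine Real.rpow_le_rpow_of_exponent_le one_le_two ?_
        push_cast
        exact h0 l h.1 h.2.1
      calc _ ≤ (2 : ℝ) ^ nc l * 2 * ((K + 1) * 2 ^ K * (1 / 2 ^ nc l)) :=
            mul_le_mul g2 g1 (abs_nonneg _) (by positivity)
        _ = 2 * ((K + 1) * 2 ^ K) := by field_simp
    · have ha1 : a = 1 := by omega
      subst ha1
      have g1 := ojet_near F hw (natDegree_dvH (c := c) (w := w) hH hK l) (rt_of F hw e1)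
        (a := 1) (δ := 1 / 2 ^ nc' l) (by positivity) fun b hb hbK =>
          sdL_snd e2 hl.le (by rw [if_neg hl.ne]; exact hb) hbK
      simp only [Nat.factorial_one, Nat.cast_one, pow_one, one_mul] at g1
      have g2 : (2 : ℝ) ^ (N l 1 * J) * 2 ^ w ≤ 2 ^ nc' l * 2 := by
        rw [← pow_succ, ← Real.rpow_natCast 2 w, ← Real.rpow_natCast 2 (nc' l + 1),
          ← Real.rpow_add two_pos]
        refine Real.rpow_le_rpow_of_exponent_le one_le_two ?_
        push_cast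
        exact h1 l h.1 h.2.1
      calc _ ≤ (2 : ℝ) ^ (N l 1 * J) * (2 ^ w * ((K + 1) * 2 ^ K * (1 / 2 ^ nc' l))) :=
            mul_le_mul_of_nonneg_left g1 p3.le
        _ = (2 : ℝ) ^ (N l 1 * J) * 2 ^ w * ((K + 1) * 2 ^ K * (1 / 2 ^ nc' l)) := by ring
        _ ≤ 2 ^ nc' l * 2 * ((K + 1) * 2 ^ K * (1 / 2 ^ nc' l)) :=
            mul_le_mul_of_nonneg_right g2 (by positivity)
        _ = 2 * ((K + 1) * 2 ^ K) := by field_simp

end

end Pool.AVG57
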