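import Pool.Agent.H57.AVG.C1a

/-!
# The last place of the chain as moved place, on one event

`AvL`: the inputs on one event and one law: the moved place `v`, the target `v + 1`, the codes of the
own paths (`sdL`) in the context. `avl_ev`: the gradient of the target in the direction of `v` is
closed.
-/

set_option autoImplicit false

namespace Pool.AVG57

open Finset Real MvPolynomial
open Pool.Agent.H49.Ent Pool.Agent.H32.Dense Pool.STK Pool.KA Pool.KSAT Pool.K2S Pool.PB Pool.S6C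
open Pool.GEN Pool.CHT Pool.CHX Pool.ISO Pool.LA91 Pool.AVG71 Pool.AVG5 Pool.D2F2
open Pool.PB.Trl (rt rt_mem t_rt)
open Pool.D2R (hgt gnh GrdE chs)
open Pool.KVA (MI)
open Pool.KAF (rs Pr)
open Pool.BFL (Pb)

variable {m J : ℕ}

section

variable {F : Fam m J} {c : ℕ → Fin m} {v w W K D : ℕ}
  {H : LnT F → ℕ → MvPolynomial (Option (Fin m)) ℝ} {nc nc' : ℕ → ℕ}

/-- The digits of the jets are near for equal digits. -/
theorem jt1_near {N : ℕ → ℝ} {g W E₀ E₁ : ℕ} (h0 : ((g + E₀ : ℕ) : ℝ) ≤ N 0 * J)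
    (h1 : ((g + E₁ : ℕ) : ℝ) ≤ N 1 * J + W) {ω ν : F.Ω}
    (h : jt1 F c v w H N ω = jt1 F c v w H N ν) :
    2 ^ g * |ojet F (c v) 0 (H (slam F w ω) v) ω - ojet F (c v) 0 (H (slam F w ν) v) ν| ≤
      1 / 2 ^ E₀ ∧
    2 ^ g * (|ojet F (c v) 1 (H (slam F w ω) v) ω - ojet F (c v) 1 (H (slam F w ν) v) ν| /
      2 ^ W) ≤ 1 / 2 ^ E₁ := by
  have p2 : (0 : ℝ) < 2 ^ g := by positivity
  have e0 : ⌊(2 : ℝ) ^ (N 0 * J) * ojet F (c v) 0 (H (slam F w ω) v) ω⌋ =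
      ⌊(2 : ℝ) ^ (N 0 * J) * ojet F (c v) 0 (H (slam F w ν) v) ν⌋ := congrFun h (0, 0)
  have e1 : ⌊(2 : ℝ) ^ (N 1 * J) * ojet F (c v) 1 (H (slam F w ω) v) ω⌋ =
      ⌊(2 : ℝ) ^ (N 1 * J) * ojet F (c v) 1 (H (slam F w ν) v) ν⌋ := congrFun h (0, 1)
  have g0 := near_of_floor (Real.rpow_pos_of_pos two_pos (N 0 * J)) e0
  have g1 := near_of_floor (Real.rpow_pos_of_pos two_pos (N 1 * J)) e1
  constructor
  · calc _ ≤ 2 ^ g * (1 / (2 : ℝ) ^ (N 0 * J)) := mul_le_mul_of_nonneg_left g0 p2.le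
      _ ≤ 2 ^ g * (1 / (2 : ℝ) ^ ((g + E₀ : ℕ) : ℝ)) := by
          refine mul_le_mul_of_nonneg_left (one_div_le_one_div_of_le (by positivity) ?_) p2.le
          exact Real.rpow_le_rpow_of_exponent_le one_le_two h0
      _ = 1 / 2 ^ E₀ := by
          rw [Real.rpow_natCast, pow_add _ g]
          field_simp
  · calc _ ≤ 2 ^ g * (1 / (2 : ℝ) ^ (N 1 * J) / 2 ^ W) := by
          exact mul_le_mul_of_nonneg_left (div_le_div_of_nonneg_right g1 (by positivity)) p2.le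
      _ = 2 ^ g * (1 / (2 : ℝ) ^ (N 1 * J + W)) := by
          rw [Real.rpow_add two_pos, Real.rpow_natCast, div_div]
      _ ≤ 2 ^ g * (1 / (2 : ℝ) ^ ((g + E₁ : ℕ) : ℝ)) := by
          refine mul_le_mul_of_nonneg_left (one_div_le_one_div_of_le (by positivity) ?_) p2.le
          exact Real.rpow_le_rpow_of_exponent_le one_le_two h1
      _ = 1 / 2 ^ E₁ := by
          rw [Real.rpow_natCast, pow_add _ g]
          field_simp

/-- **The coefficients of the own path of the moved place** at the window `W`, for equal codes of the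
orders `≥ 2` and near jets. -/
theorem coeL (hwW : w ≤ W) (hW : W ≤ J) (hH : ∀ s l, (H s l).totalDegree ≤ D) (hK : D + 1 ≤ K)
    {g X : ℕ} (hv : g + X + 6 * K ≤ nc' v) {ω ν : F.Ω} (hT : F.T ω = F.T ν)
    (hT1 : F.T1 W ω = F.T1 W ν)
    (h : sdL F c v w K H nc nc' ω = sdL F c v w K H nc nc' ν) {δ₀ δ₁ : ℝ}
    (h0 : 2 ^ g * |ojet F (c v) 0 (H (slam F w ω) v) ω - ojet F (c v) 0 (H (slam F w ν) v) ν| ≤
      δ₀)
    (h1 : 2 ^ g * (|ojet F (c v) 1 (H (slam F w ω) v) ω - ojet F (c v) 1 (H (slam F w ν) v) ν| /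
      2 ^ W) ≤ δ₁) :
    (∀ b, 1 ≤ b → |(Polynomial.C (2 ^ g) * dv W (fun s (_ : Fin m) => H (upw w W s) v) (c v)
        (slam F W ω)).coeff b - (Polynomial.C (2 ^ g) * dv W (fun s (_ : Fin m) =>
          H (upw w W s) v) (c v) (slam F W ν)).coeff b| ≤
        (K + 1) * 2 ^ K * (δ₁ + 1 / 2 ^ X)) ∧
    |(Polynomial.C (2 ^ g) * dv W (fun s (_ : Fin m) => H (upw w W s) v) (c v)
        (slam F W ω)).coeff 0 - (Polynomial.C (2 ^ g) * dv W (fun s (_ : Fin m) =>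
          H (upw w W s) v) (c v) (slam F W ν)).coeff 0| ≤
        (K + 1) * 2 ^ K * (δ₀ + δ₁ + 1 / 2 ^ X) := by
  have p2 : (0 : ℝ) < 2 ^ g := by positivity
  have pW : (0 : ℝ) < 2 ^ W := by positivity
  have hδ₁ : 0 ≤ δ₁ := le_trans (by positivity) h1
  have hδ₀ : 0 ≤ δ₀ := le_trans (by positivity) h0
  have hdeg : ∀ s, (dv W (fun s (_ : Fin m) => H (upw w W s) v) (c v) s).natDegree ≤ K :=
    fun s => (natDegree_dv W (G := fun s (_ : Fin m) => H (upw w W s) v)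
      (fun s _ => hH _ _) _ _).trans hK
  -- the polynomial of the differences
  obtain ⟨P, hP⟩ : ∃ P : Polynomial ℝ, P = Polynomial.C (2 ^ g) *
      dv W (fun s (_ : Fin m) => H (upw w W s) v) (c v) (slam F W ω) - Polynomial.C (2 ^ g) *
      dv W (fun s (_ : Fin m) => H (upw w W s) v) (c v) (slam F W ν) := ⟨_, rfl⟩
  have hPd : P.natDegree ≤ K := by
    rw [hP]
    exact (Polynomial.natDegree_sub_le _ _).trans (max_le
      ((Polynomial.natDegree_C_mul_le _ _).trans (hdeg _))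
      ((Polynomial.natDegree_C_mul_le _ _).trans (hdeg _)))
  have hPc : ∀ b, (Polynomial.C (2 ^ g) * dv W (fun s (_ : Fin m) => H (upw w W s) v) (c v)
        (slam F W ω)).coeff b - (Polynomial.C (2 ^ g) * dv W (fun s (_ : Fin m) =>
          H (upw w W s) v) (c v) (slam F W ν)).coeff b = P.coeff b := fun b => by
    rw [hP, Polynomial.coeff_sub]
  simp only [hPc]
  obtain ⟨ε, hε⟩ : ∃ ε : ℝ, ε = 2 ^ g * ((K + 1) * 2 ^ K * (1 / 2 ^ nc' v)) := ⟨_, rfl⟩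
  have hε0 : 0 ≤ ε := by rw [hε]; positivity
  have hK1 : ((K : ℝ) + 1) ≤ 2 ^ K := by
    have : K + 1 ≤ 2 ^ K := K.lt_two_pow_self
    exact_mod_cast this
  have hεX : (K + 1) * 2 ^ K * ε ≤ 1 / 2 ^ X := by
    have e1 : (2 : ℝ) ^ nc' v = 2 ^ g * 2 ^ X * (2 ^ K) ^ 6 * 2 ^ (nc' v - (g + X + 6 * K)) := by
      rw [← pow_mul, ← pow_add, ← pow_add, ← pow_add]
      congr 1
      omega
    have e2 : (1 : ℝ) ≤ 2 ^ (nc' v - (g + X + 6 * K)) := one_le_pow₀ (by norm_num)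
    have pK : (1 : ℝ) ≤ 2 ^ K := one_le_pow₀ (by norm_num)
    have pX : (0 : ℝ) < 2 ^ X := by positivity
    obtain ⟨A, hA⟩ : ∃ A : ℝ, A = 2 ^ K := ⟨_, rfl⟩
    rw [hε]
    rw [← hA] at hK1 pK e1 ⊢
    have h2 : ((K : ℝ) + 1) * A ≤ A * A := by nlinarith
    have h20 : 0 ≤ ((K : ℝ) + 1) * A := by
      have : (0 : ℝ) ≤ K := Nat.cast_nonneg K
      positivity
    have h3 : ((K : ℝ) + 1) * A * (((K : ℝ) + 1) * A) ≤ A * A * (A * A) :=
      mul_le_mul h2 h2 h20 (by positivity)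
    have h4 : A * A * (A * A) ≤ A ^ 6 := by
      have : A * A * (A * A) = A ^ 4 := by ring
      rw [this]
      exact pow_le_pow_right₀ pK (by norm_num)
    rw [show (K + 1) * A * (2 ^ g * ((K + 1) * A * (1 / 2 ^ nc' v))) =
      2 ^ g * ((K + 1) * A * ((K + 1) * A)) / 2 ^ nc' v by ring,
      div_le_div_iff₀ (by positivity) pX, one_mul, e1]
    calc 2 ^ g * ((K + 1) * A * ((K + 1) * A)) * 2 ^ X ≤ 2 ^ g * (A ^ 6) * 2 ^ X := by
          refine mul_le_mul_of_nonneg_right (mul_le_mul_of_nonneg_left (h3.trans h4) p2.le) pX.le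
      _ = 2 ^ g * 2 ^ X * A ^ 6 * 1 := by ring
      _ ≤ _ := mul_le_mul_of_nonneg_left e2 (by positivity)
  have hb2 : ∀ b ≥ 2, |P.coeff b| ≤ ε := by
    intro b hb
    rw [← hPc, Polynomial.coeff_C_mul, Polynomial.coeff_C_mul, ← mul_sub, abs_mul,
      abs_of_pos p2, hε]
    refine mul_le_mul_of_nonneg_left ?_ p2.le
    exact coef_near F hwW hW (H := fun s => H s v) (natDegree_dvH (c := c) (w := w) hH hK v) hT1
      (a := b) (δ := 1 / 2 ^ nc' v) (by positivity) fun b' hb' hbK =>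
        sdL_snd h le_rfl (by rw [if_pos rfl]; exact hb.trans hb') hbK
  have ht : rt F W ω = rt F W ν := rt_of F hW hT
  have hj : ∀ j, |(Polynomial.taylor (rt F W ω) P).coeff j| = 2 ^ g *
      (|ojet F (c v) j (H (slam F w ω) v) ω - ojet F (c v) j (H (slam F w ν) v) ν| /
        ((j.factorial : ℝ) * (2 ^ W) ^ j)) := by
    intro j
    have j1 := ojet_tay F hW ω (c v) (fun s (_ : Fin m) => H (upw w W s) v) j
    have j2 := ojet_tay F hW ν (c v) (fun s (_ : Fin m) => H (upw w W s) v) j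
    rw [upw_slam F hwW hW] at j1 j2
    rw [← ht] at j2
    have p5 : (0 : ℝ) < (j.factorial : ℝ) * (2 ^ W) ^ j := by positivity
    rw [hP, map_sub, Polynomial.coeff_sub, Polynomial.taylor_mul, Polynomial.taylor_mul,
      Polynomial.taylor_C, Polynomial.coeff_C_mul, Polynomial.coeff_C_mul, j1, j2, ← mul_sub,
      ← sub_div, abs_mul, abs_of_pos p2, abs_div, abs_of_pos p5]
  have hs : |rt F W ω| ≤ 1 := by
    rw [abs_of_nonneg (rt_mem F W ω).1]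
    exact (rt_mem F W ω).2
  have hj0 : |(Polynomial.taylor (rt F W ω) P).coeff 0| ≤ δ₀ := by
    rw [hj 0]
    simpa using h0
  have hj1 : |(Polynomial.taylor (rt F W ω) P).coeff 1| ≤ δ₁ := by
    rw [hj 1]
    simpa using h1
  have pK : (0 : ℝ) ≤ (K + 1) * 2 ^ K := by positivity
  constructor
  · intro b hb
    refine (tay_hi (a₀ := 2) (a₁ := 1) hPd hs hε0 hδ₁ hb2 (fun a a1 a2 => ?_) hb).trans ?_
    · have : a = 1 := by omega
      subst this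
      exact hj1
    · exact mul_le_mul_of_nonneg_left (by linarith) pK
  · refine (tay_hi (a₀ := 2) (a₁ := 0) (δ := δ₀ + δ₁) hPd hs hε0 (by linarith) hb2
      (fun a _ a2 => ?_) le_rfl).trans ?_
    · have : a = 0 ∨ a = 1 := by omega
      rcases this with h5 | h5
      · subst h5
        linarith
      · subst h5
        linarith
    · exact mul_le_mul_of_nonneg_left (by linarith) pK

/-- The constant of the codes of the moved place. -/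
noncomputable def cL (K : ℕ) : ℝ := (K + 1) * Real.log (2 * (3 * ((K + 1) * 2 ^ K) + 1) + 1)

theorem cL_nonneg (K : ℕ) : 0 ≤ cL K := by
  unfold cL
  have h1 : (0 : ℝ) ≤ (K + 1) * 2 ^ K := by positivity
  exact mul_nonneg (by positivity) (Real.log_nonneg (by linarith))

theorem sdL_L (hwW : w ≤ W) (hW : W ≤ J) (p : F.Ω → ℝ) :
    Det p (slam F W) (sdL F c v w K H nc nc') := by
  intro ω ν _ _ e
  have e1 : slam F w ω = slam F w ν := by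
    rw [← upw_slam F hwW hW ω, ← upw_slam F hwW hW ν, e]
  funext l
  unfold sdL cod
  rw [e1]

section one

variable {i q X mm : ℕ} {γ : ℕ → ℕ} {gg : F.Ω → Fin 1 → ℝ} {ζ : Type} {z : F.Ω → ζ}
  {p : F.Ω → ℝ}

/-- **The field `ac`.** -/
theorem ac_sd (hp : IsLaw p) (hwW : w ≤ W) (hW : W ≤ J) (hH : ∀ s l, (H s l).totalDegree ≤ D)
    (hK : D + 1 ≤ K) (hv : γ v + q + (X + mm) + 6 * K ≤ nc' v)
    (hz : ∀ ω ν, 0 < p ω → 0 < p ν → z ω = z ν → F.T1 W ω = F.T1 W ν ∧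
      sdL F c v w K H nc nc' ω = sdL F c v w K H nc nc' ν) {N : ℕ → ℝ}
    (h0 : ((γ v + q + (X + mm) : ℕ) : ℝ) ≤ N 0 * J)
    (h1 : ((γ v + q + (X + mm) : ℕ) : ℝ) ≤ N 1 * J + W) :
    CH p ((adG F c (fun _ : Fin 1 => v) i q w W X mm γ gg H z).ac K)
      (fun ω => (jt1 F c v w H N ω, (rt F W ω, z ω))) ≤ cL K := by
  have hp0 := hp.nonneg
  obtain ⟨d, hd⟩ : ∃ d, d = adG F c (fun _ : Fin 1 => v) i q w W X mm γ gg H z := ⟨_, rfl⟩
  have hX : d.X = X := by rw [hd]; rfl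
  have hm : d.m = mm := by rw [hd]; rfl
  have hA : ∀ o, d.A o 0 = Polynomial.C (2 ^ (γ v + q)) *
      dv W (fun s (_ : Fin m) => H (upw w W s) v) (c v) (slam F W o) := fun o => by rw [hd]; rfl
  have key : ∀ ω ν, 0 < p ω → 0 < p ν → (jt1 F c v w H N ω, (rt F W ω, z ω)) =
      (jt1 F c v w H N ν, (rt F W ν, z ν)) →
      ∀ b, |(d.ac K ω 0 b : ℝ) - d.ac K ν 0 b| ≤ 3 * ((K + 1) * 2 ^ K) + 1 := by
    intro ω ν hω hν e b
    simp only [Prod.mk.injEq] at e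
    obtain ⟨e1, e2, e3⟩ := e
    obtain ⟨z1, z2⟩ := hz ω ν hω hν e3
    obtain ⟨t1, -⟩ := time_eq F hW z1 e2
    obtain ⟨g0, g1⟩ := jt1_near (E₀ := X + mm) (E₁ := X + mm) h0 h1 e1
    obtain ⟨c1, c0⟩ := coeL hwW hW hH hK hv t1 z1 z2 g0 g1
    unfold AD.ac
    rw [hX, hm, hA, hA]
    have pX : (0 : ℝ) < 2 ^ (X + mm) := by positivity
    have pK : (0 : ℝ) ≤ (K + 1) * 2 ^ K := by positivity
    refine floor_near' ?_
    rw [← mul_sub, abs_mul, abs_of_pos pX]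
    rcases Nat.eq_zero_or_pos (b : ℕ) with h | h
    · rw [h]
      calc _ ≤ (2 : ℝ) ^ (X + mm) * ((K + 1) * 2 ^ K * (1 / 2 ^ (X + mm) + 1 / 2 ^ (X + mm) +
            1 / 2 ^ (X + mm))) := mul_le_mul_of_nonneg_left c0 pX.le
        _ = 3 * ((K + 1) * 2 ^ K) := by field_simp; norm_num
    · calc _ ≤ (2 : ℝ) ^ (X + mm) * ((K + 1) * 2 ^ K * (1 / 2 ^ (X + mm) +
            1 / 2 ^ (X + mm))) := mul_le_mul_of_nonneg_left (c1 b h) pX.le
        _ = 2 * ((K + 1) * 2 ^ K) := by field_simp; norm_num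
        _ ≤ _ := by linarith
  have h2 := ch_vec hp.nonneg (fun ω => (jt1 F c v w H N ω, (rt F W ω, z ω))) (K + 1)
    (fun ω => d.ac K ω 0) (c := Real.log (2 * (3 * ((K + 1) * 2 ^ K) + 1) + 1)) fun b =>
      CH_pair_int hp _ _ (by positivity) fun ω ν a a' e => key ω ν a a' e b
  push_cast at h2
  rw [← hd]
  refine le_trans (CH_mono_left (X' := fun ω => d.ac K ω 0) hp0 fun ω ν _ _ e => ?_) h2
  have e1 := (Prod.ext_iff.mp e).1
  funext j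
  have hj : j = 0 := Subsingleton.elim _ _
  rw [hj]
  exact e1

/-- **The field `va`.** -/
theorem va_sd (hp : IsLaw p) (hwW : w ≤ W) (hW : W ≤ J) (hH : ∀ s l, (H s l).totalDegree ≤ D)
    (hK : D + 1 ≤ K) (hv : γ v + q + (X + mm) + 6 * K ≤ nc' v)
    (hz : ∀ ω ν, 0 < p ω → 0 < p ν → z ω = z ν → F.T1 W ω = F.T1 W ν ∧
      sdL F c v w K H nc nc' ω = sdL F c v w K H nc nc' ν) {N : ℕ → ℝ}
    (h0 : ((γ v + q : ℕ) : ℝ) ≤ N 0 * J)
    (h1 : ((γ v + q + (X + mm) : ℕ) : ℝ) ≤ N 1 * J + W) :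
    CH p (fun ω => ((adG F c (fun _ : Fin 1 => v) i q w W X mm γ gg H z).v K ω).2)
      (fun ω => (jt1 F c v w H N ω, (rt F W ω, z ω))) ≤ cL K := by
  have hp0 := hp.nonneg
  obtain ⟨d, hd⟩ : ∃ d, d = adG F c (fun _ : Fin 1 => v) i q w W X mm γ gg H z := ⟨_, rfl⟩
  have hX : d.X = X := by rw [hd]; rfl
  have hm : d.m = mm := by rw [hd]; rfl
  have hA : ∀ o, d.A o 0 = Polynomial.C (2 ^ (γ v + q)) *
      dv W (fun s (_ : Fin m) => H (upw w W s) v) (c v) (slam F W o) := fun o => by rw [hd]; rfl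
  obtain ⟨f, hf⟩ : ∃ f : F.Ω → Fin (K + 1) → ℤ, f = fun ω => Fin.cons
    (d.ac K ω 0 0 / 2 ^ (d.X + d.m)) (fun a : Fin K => d.ac K ω 0 a.succ) := ⟨_, rfl⟩
  have key : ∀ ω ν, 0 < p ω → 0 < p ν → (jt1 F c v w H N ω, (rt F W ω, z ω)) =
      (jt1 F c v w H N ν, (rt F W ν, z ν)) →
      ∀ b, |(f ω b : ℝ) - f ν b| ≤ 3 * ((K + 1) * 2 ^ K) + 1 := by
    intro ω ν hω hν e b
    simp only [Prod.mk.injEq] at e
    obtain ⟨e1, e2, e3⟩ := e
    obtain ⟨z1, z2⟩ := hz ω ν hω hν e3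
    obtain ⟨t1, -⟩ := time_eq F hW z1 e2
    obtain ⟨g0, g1⟩ := jt1_near (E₀ := 0) (E₁ := X + mm) (by simpa using h0) h1 e1
    obtain ⟨c1, c0⟩ := coeL hwW hW hH hK hv t1 z1 z2 g0 g1
    have pX : (0 : ℝ) < 2 ^ (X + mm) := by positivity
    have pK : (0 : ℝ) ≤ (K + 1) * 2 ^ K := by positivity
    have h6 : (1 : ℝ) / 2 ^ (X + mm) ≤ 1 := by
      rw [div_le_one pX]
      exact one_le_pow₀ (by norm_num)
    rw [hf]
    refine Fin.cases ?_ (fun a => ?_) b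
    · simp only [Fin.cons_zero]
      have e4 : ∀ o : F.Ω, d.ac K o 0 0 / 2 ^ (d.X + d.m) = ⌊(d.A o 0).coeff 0⌋ := fun o => by
        unfold AD.ac
        exact floor_div_self _ _
      rw [e4, e4, hA, hA]
      refine floor_near' (c0.trans ?_)
      rw [pow_zero, div_one]
      have h8 := mul_le_mul_of_nonneg_left (show (1 : ℝ) + 1 / 2 ^ (X + mm) + 1 / 2 ^ (X + mm) ≤
        3 by linarith) pK
      linarith
    · simp only [Fin.cons_succ]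
      unfold AD.ac
      rw [hX, hm, hA, hA]
      refine floor_near' ?_
      rw [← mul_sub, abs_mul, abs_of_pos pX]
      have h1 : 1 ≤ (a.succ : ℕ) := by rw [Fin.val_succ]; omega
      calc _ ≤ (2 : ℝ) ^ (X + mm) * ((K + 1) * 2 ^ K * (1 / 2 ^ (X + mm) +
            1 / 2 ^ (X + mm))) := mul_le_mul_of_nonneg_left (c1 _ h1) pX.le
        _ = 2 * ((K + 1) * 2 ^ K) := by field_simp; norm_num
        _ ≤ _ := by linarith
  have h2 := ch_vec hp.nonneg (fun ω => (jt1 F c v w H N ω, (rt F W ω, z ω))) (K + 1) f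
    (c := Real.log (2 * (3 * ((K + 1) * 2 ^ K) + 1) + 1)) fun b =>
      CH_pair_int hp _ _ (by positivity) fun ω ν a a' e => key ω ν a a' e b
  push_cast at h2
  rw [← hd]
  refine le_trans (CH_mono_left (X' := f) hp0 fun ω ν _ _ e => ?_) h2
  have e5 : f ω = f ν := (Prod.ext_iff.mp e).1
  unfold AD.v
  refine Prod.ext ?_ ?_
  · funext j a
    have hj : j = 0 := Subsingleton.elim _ _
    rw [hj]
    have := congrFun e5 a.succ
    rw [hf] at this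
    simpa using this
  · funext j
    have hj : j = 0 := Subsingleton.elim _ _
    rw [hj]
    have := congrFun e5 0
    rw [hf] at this
    simpa using this

end one

end

/-- **The inputs** on one event and for one law: the moved place `v`, the target `v + 1`, the codes of
the own paths of the places `≤ v` in the context. `Yc`: the side information. -/
structure AvL (F : Fam m J) (c : ℕ → Fin m) (v q w W X mm D K ks n : ℕ) (γ nc nc' : ℕ → ℕ)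
    (B : F.Ω → Prop) (G : ℕ → PtT F → ℕ → MvPolynomial (Option (Fin m)) ℝ)
    (H : LnT F → ℕ → MvPolynomial (Option (Fin m)) ℝ) {ζ υ ρ₁ ρ₂ : Type} (zw : F.Ω → ζ)
    (Yc : F.Ω → υ) (Rj : F.Ω → ρ₁) (Rx : F.Ω → ρ₂) (p : F.Ω → ℝ)
    (Nf Nn Nx Nu Nv Mf Mn : ℕ → ℝ) (U Nb e : ℝ) : Prop where
  law : IsLaw p
  sup : ∀ ω, 0 < p ω → B ω
  wW : w ≤ W
  WJ : W ≤ J
  deg : ∀ s l, (H s l).totalDegree ≤ D
  DK : D + 1 ≤ K
  KX : (K : ℝ) ≤ 2 ^ (X + mm)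
  cls : Clsd F (v + 2) w B (G 0) H
  grd : GrdE F c 0 (v + 1) ks n q X γ U B G
  kn : ks ≤ n
  mU : U + 8 * (v + 1 : ℕ) * U + 1 ≤ 2 ^ mm
  zL : Det p (slam F W) zw
  cn : ∀ l < v, γ l + (q + X) + 2 * K ≤ nc l
  cv : γ v + q + (X + mm) + 6 * K ≤ nc' v
  czy : CH p (fun ω => (rt F W ω, zxs F c 0 W zw (sdL F c v w K H nc nc') ω))
    (fun ω => (zw ω, Yc ω)) ≤ e
  cyz : CH p (fun ω => (zw ω, Yc ω))
    (fun ω => (rt F W ω, zxs F c 0 W zw (sdL F c v w K H nc nc') ω)) ≤ e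
  mj : MI p Rj (fun ω => (jt1 F c v w H Nf ω, pr2 F c w H (v + 1) Mf ω))
    (fun ω => ((jt1 F c v w H Nn ω, pr2 F c w H (v + 1) Mn ω), (zw ω, Yc ω))) ≤ e
  mx : MI p Rx (jt1 F c v w H Nf) (fun ω => (jt1 F c v w H Nx ω, (zw ω, Yc ω))) ≤ e
  chj : CH p (chs F (v + 1) ks G) Rj ≤ e
  chx : CH p (chs F (v + 1) n G) Rx ≤ e
  zx : CH p zw Rx ≤ e
  n0 : Nn 0 * J ≤ (γ v + q : ℕ)
  n1 : Nn 1 * J + W ≤ (γ v + q + (X + mm) : ℕ)
  x0 : Nx 0 * J ≤ (γ v + q : ℕ)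
  x1 : Nx 1 * J + W ≤ (γ v + q + (X + mm) : ℕ)
  u0 : Nu 0 * J ≤ (γ v + q : ℕ)
  u1 : Nu 1 * J + W ≤ (γ v + q + (X + mm) : ℕ)
  m0 : Mn 0 * J ≤ (γ (v + 1) + q : ℕ)
  m1 : Mn 1 * J + W ≤ (γ (v + 1) + q : ℕ)
  mf : ((γ (v + 1) + q + X : ℕ) : ℝ) ≤ Mf 0 * J
  f0 : ((γ v + q + (X + mm) : ℕ) : ℝ) ≤ Nf 0 * J
  f1 : ((γ v + q + (X + mm) : ℕ) : ℝ) ≤ Nf 1 * J + W
  v0 : ((γ v + q : ℕ) : ℝ) ≤ Nv 0 * J
  v1 : ((γ v + q + (X + mm) : ℕ) : ℝ) ≤ Nv 1 * J + W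
  ce : cL K ≤ e
  dj : CH p (cod F w (fun s => H s (v + 1)) (c (v + 1)) (γ (v + 1) + q + X) 1 K)
    (fun ω => (jt1 F c v w H Nf ω, (zw ω, Yc ω))) ≤ e
  jt : CH p (cod F w (fun s => H s (v + 1)) (c (v + 1)) (γ (v + 1) + q) 0 K)
    (fun ω => (jt1 F c v w H Nu ω, (Rx ω, Yc ω))) ≤ e
  vf : (Nb - Nv 0 * J) * Real.log 2 - e ≤ CH p (Vh F c v w H Nb)
    (fun ω => (jt1 F c v w H Nv ω, (Rx ω, Yc ω)))

section

variable {F : Fam m J} {c : ℕ → Fin m} {v q w W X mm D K ks n : ℕ} {γ nc nc' : ℕ → ℕ}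
  {B : F.Ω → Prop} {G : ℕ → PtT F → ℕ → MvPolynomial (Option (Fin m)) ℝ}
  {H : LnT F → ℕ → MvPolynomial (Option (Fin m)) ℝ} {ζ υ ρ₁ ρ₂ : Type} {zw : F.Ω → ζ}
  {Yc : F.Ω → υ} {Rj : F.Ω → ρ₁} {Rx : F.Ω → ρ₂} {p : F.Ω → ℝ}
  {Nf Nn Nx Nu Nv Mf Mn : ℕ → ℝ} {U Nb e : ℝ}

namespace AvL

theorem eqz {ω ν : F.Ω} (h : zxs F c 0 W zw (sdL F c v w K H nc nc') ω =
    zxs F c 0 W zw (sdL F c v w K H nc nc') ν) : F.T1 W ω = F.T1 W ν ∧
      sdL F c v w K H nc nc' ω = sdL F c v w K H nc nc' ν :=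
  ⟨(Prod.ext_iff.mp (Prod.ext_iff.mp (Prod.ext_iff.mp h).2).1).2,
    (Prod.ext_iff.mp (Prod.ext_iff.mp (Prod.ext_iff.mp h).2).2).2⟩

/-- **The gradient**. -/
theorem grA (P : AvL F c v q w W X mm D K ks n γ nc nc' B G H zw Yc Rj Rx p Nf Nn Nx Nu Nv Mf Mn
    U Nb e) : GrdA F c (fun _ : Fin 1 => v) (v + 1) q X γ (U + 8 * (v + 1 : ℕ) * U) B (G 0)
      (fun ω _ => gnh F c (v + 1) γ (G 0) (G n) ω v) (zxs F c 0 W zw (sdL F c v w K H nc nc'))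
      (chs F (v + 1) ks G) (chs F (v + 1) n G) := by
  refine toA0 (mv := fun _ : Fin 1 => v) P.grd (Function.injective_of_subsingleton _)
    (fun _ => Nat.lt_succ_self v) (fun ω ν hω hν ht hz _ l hl hj => ?_) P.kn le_rfl
  have h1 : l < v := lt_of_le_of_ne (Nat.lt_succ_iff.1 hl) fun h => hj 0 h.symm
  have h2 := hgt_sd (P.wW.trans P.WJ) P.deg P.DK P.cls hω hν (T_of_t F ht) (eqz hz).2 h1
    (P.cn l h1)
  refine h2.trans ?_
  refine div_le_div_of_nonneg_right (by norm_num) (by positivity)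

/-- **The inputs of the average.** -/
theorem prg (P : AvL F c v q w W X mm D K ks n γ nc nc' B G H zw Yc Rj Rx p Nf Nn Nx Nu Nv Mf Mn
    U Nb e) {j₀ : ℕ} {ε₀ ψ : ℝ} (hT : TimW F p W j₀ ε₀ ψ) (hψ : ψ * J ≤ e) :
    PrG F c (fun _ : Fin 1 => v) (v + 1) q w W X mm D K γ B (G 0) H
      (fun ω _ => gnh F c (v + 1) γ (G 0) (G n) ω v) (zxs F c 0 W zw (sdL F c v w K H nc nc'))
      zw Yc (chs F (v + 1) ks G) (chs F (v + 1) n G) Rj Rx (Vh F c v w H Nb) p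
      (fun _ => Nf) (fun _ => Nn) (fun _ => Nx) (fun _ => Nu) (fun _ => Nv) Mf Mn
      (U + 8 * (v + 1 : ℕ) * U) ((Nb - Nv 0 * J) * Real.log 2) e where
  law := P.law
  sup := P.sup
  wW := P.wW
  WJ := P.WJ
  deg := P.deg
  DK := P.DK
  KX := P.KX
  cls := fun ω hω => ⟨P.cls ω hω (v + 1) (by omega), fun _ => P.cls ω hω v (by omega)⟩
  grd := P.grA
  mU := P.mU
  zT := zxs_T p
  czy := P.czy
  cyz := P.cyz
  ti := (adG_ti P.law hT (zxs_L P.zL (sdL_L P.wW P.WJ p)) (zxs_T p) K).trans hψ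
  mj := P.mj
  mx := P.mx
  chj := P.chj
  chx := P.chx
  zx := P.zx
  n0 := fun _ => P.n0
  n1 := fun _ => P.n1
  x0 := fun _ => P.x0
  x1 := fun _ => P.x1
  u0 := fun _ => P.u0
  u1 := fun _ => P.u1
  m0 := P.m0
  m1 := P.m1
  mf := P.mf
  ac := (ac_sd P.law P.wW P.WJ P.deg P.DK P.cv (fun _ _ _ _ h => eqz h) P.f0 P.f1).trans P.ce
  va := (va_sd P.law P.wW P.WJ P.deg P.DK P.cv (fun _ _ _ _ h => eqz h) P.v0 P.v1).trans P.ce
  dj := P.dj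
  jt := P.jt
  vf := P.vf

end AvL

end

/-- **Closed gradient in the direction of the last place of the chain**, on one event. -/
theorem avl_ev (K : ℕ) (cc ε : ℝ) (hcc : 0 < cc) (hε : 0 < ε) :
    ∃ (κ₂ κ π₀ ι ε₀ : ℝ) (k₁ j₀ X₀ : ℕ), 0 < κ₂ ∧ κ₂ ≤ 1 ∧ 0 < κ ∧ κ ≤ 1 ∧ 0 < π₀ ∧ 0 < ι ∧
      0 < ε₀ ∧
      ∀ {m J : ℕ} {F : Fam m J} {c : ℕ → Fin m} {v q w W X mm D ks n : ℕ} {γ nc nc' : ℕ → ℕ}
        {B : F.Ω → Prop} {G : ℕ → PtT F → ℕ → MvPolynomial (Option (Fin m)) ℝ}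
        {H : LnT F → ℕ → MvPolynomial (Option (Fin m)) ℝ} {ζ υ ρ₁ ρ₂ : Type} {zw : F.Ω → ζ}
        {Yc : F.Ω → υ} {Rj : F.Ω → ρ₁} {Rx : F.Ω → ρ₂} {p : F.Ω → ℝ}
        {Nf Nn Nx Nu Nv Mf Mn : ℕ → ℝ} {U Nb e : ℝ}
        (_ : AvL F c v q w W X mm D K ks n γ nc nc' B G H zw Yc Rj Rx p Nf Nn Nx Nu Nv Mf Mn U
          Nb e)
        {Ur ψ : ℝ}, ((γ v + q + X : ℕ) : ℝ) ≤ Nb → Nb ≤ (γ v + q + (X + mm) : ℕ) →
        Nv 0 * J + X ≤ Nb →
        (∀ a : ℕ, a + ⌊κ * X⌋₊ ≤ X → ∀ E : Set F.Ω, π₀ ≤ Pr p E →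
          CH (rs p E) (Mh F c (v + 1) w H (γ (v + 1) + q + (a + ⌊κ * X⌋₊)))
            (fun ω => (Mh F c (v + 1) w H (γ (v + 1) + q + a) ω, (Vh F c v w H Nb ω,
              (F.T ω, zxs F c 0 W zw (sdL F c v w K H nc nc') ω)))) ≤ Ur) →
        TimW F p W j₀ ε₀ ψ → X₀ ≤ X → W + X ≤ J → ψ * J ≤ e →
        ψ * J ≤ ι * X * Real.log 2 → (mm : ℝ) ≤ ι * X →
        6 * (4 * e + cE0 1 K (U + 8 * (v + 1 : ℕ) * U) + cV K) ≤ ι * X →
        3 * (4 * e + cE0 1 K (U + 8 * (v + 1 : ℕ) * U) + cV K) + mm * Real.log 2 ≤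
          ι * X * Real.log 2 →
        Ur + cR 1 K ((U + 8 * (v + 1 : ℕ) * U) + 2) + (4 * (4 * e +
          cE0 1 K (U + 8 * (v + 1 : ℕ) * U) + cV K) + mm * Real.log 2 + Real.log 2) / π₀ ≤
            (1 - cc) * ⌊κ * X⌋₊ * Real.log 2 →
        ∃ mu : LnT F → Polynomial ℝ, (∀ s, (mu s).natDegree ≤ K) ∧
          (∀ s (u : ℝ), |(mu s).eval u| ≤
            (K + 1) * (2 ^ k₁ * (|u| + 1)) ^ K * (2 : ℝ) ^ (ι * X)) ∧
          Pb p (fun ω => (2 : ℝ) ^ (-(κ₂ * X)) <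
            |gnh F c (v + 1) γ (G 0) (G n) ω v - (mu (slam F W ω)).eval (rt F W ω)|) ≤ ε := by
  obtain ⟨κ₂, κ, π₀, ι, ε₀, k₁, j₀, X₀, a1, a2, a3, a4, a5, a6, a7, Hm⟩ :=
    av1_ev K cc ε hcc hε
  refine ⟨κ₂, κ, π₀, ι, ε₀, k₁, j₀, X₀, a1, a2, a3, a4, a5, a6, a7, ?_⟩
  intro m J F c v q w W X mm D ks n γ nc nc' B G H ζ υ ρ₁ ρ₂ zw Yc Rj Rx p Nf Nn Nx Nu
    Nv Mf Mn U Nb e P Ur ψ hN1 hN2 hNX hrow hT hX hJ hψe hψ hmm n1 n2 n3
  exact Hm (P.prg hT hψe) hN1 hN2 hNX hrow hT (zxs_L P.zL (sdL_L P.wW P.WJ p)) hX hJ hψ hmm n1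
    n2 n3

end Pool.AVG57
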