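import Pool.Agent.H57.AVG.Prg
import Pool.Agent.H57.AVG.Evt

/-!
# Closed gradients on one event, general form

`adG_ti`: the field `ti`. `avg_gen`: from the inputs `PrG` on one event, the time `TimW` and the rows:
the gradient `gg` in the directions of the moved places is a polynomial of the time (a function of
the line and the window) up to `2 ^ (-κ₂ X)`, outside an event of probability `ε`.
-/

set_option autoImplicit false

namespace Pool.AVG57

open Finset Real MvPolynomial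
open Pool.Agent.H49.Ent Pool.Agent.H32.Dense Pool.STK Pool.KA Pool.KSAT Pool.K2S Pool.PB Pool.S6C
open Pool.GEN Pool.CHT Pool.CHX Pool.ISO Pool.LA91 Pool.AVG71 Pool.AVG5 Pool.D2F2
open Pool.PB.Trl (rt rt_mem t_rt)
open Pool.D2R (hgt)
open Pool.KVA (MI)
open Pool.KAF (rs Pr)
open Pool.BFL (Pb)

variable {m J : ℕ}

section

variable {F : Fam m J} {c : ℕ → Fin m} {k : ℕ} {mv : Fin k → ℕ} {i q w W X mm : ℕ} {γ : ℕ → ℕ}
  {gg : F.Ω → Fin k → ℝ} {H : LnT F → ℕ → MvPolynomial (Option (Fin m)) ℝ} {ζ : Type}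
  {z : F.Ω → ζ}

/-- The code of the line is a function of the line and the window. -/
theorem adG_L (p : F.Ω → ℝ) (hz : Det p (slam F W) z) (K : ℕ) :
    Det p (slam F W) ((adG F c mv i q w W X mm γ gg H z).L K) := by
  intro ω ν hω hν e
  have e1 := hz ω ν hω hν e
  have z1 : (adG F c mv i q w W X mm γ gg H z).z ω =
      (adG F c mv i q w W X mm γ gg H z).z ν := e1
  have P1 : (adG F c mv i q w W X mm γ gg H z).P ω =
      (adG F c mv i q w W X mm γ gg H z).P ν := by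
    show Polynomial.C (2 ^ (γ i + q)) * dv W (fun s (_ : Fin m) => H (upw w W s) i)
      (c i) (slam F W ω) = Polynomial.C (2 ^ (γ i + q)) *
      dv W (fun s (_ : Fin m) => H (upw w W s) i) (c i) (slam F W ν)
    rw [e]
  have A1 : (adG F c mv i q w W X mm γ gg H z).A ω =
      (adG F c mv i q w W X mm γ gg H z).A ν := by
    funext j
    show Polynomial.C (2 ^ (γ (mv j) + q)) * dv W (fun s (_ : Fin m) => H (upw w W s) (mv j))
      (c (mv j)) (slam F W ω) = Polynomial.C (2 ^ (γ (mv j) + q)) *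
      dv W (fun s (_ : Fin m) => H (upw w W s) (mv j)) (c (mv j)) (slam F W ν)
    rw [e]
  unfold AD.L AD.ac AD.nc
  rw [z1, P1, A1]

/-- **The field `ti`.** -/
theorem adG_ti {p : F.Ω → ℝ} (hp : IsLaw p) {j₀ : ℕ} {ε₀ ψ : ℝ} (hT : TimW F p W j₀ ε₀ ψ)
    (hz : Det p (slam F W) z) (hzT : Det p z (F.T1 W)) (K : ℕ) :
    MI p (rt F W) ((adG F c mv i q w W X mm γ gg H z).L K)
      ((adG F c mv i q w W X mm γ gg H z).g K) ≤ ψ * J := by
  have h0 := hp.nonneg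
  have hW : W ≤ J := by
    have := hT.le
    omega
  have hL := adG_L (c := c) (mv := mv) (i := i) (q := q) (w := w) (X := X) (mm := mm)
    (γ := γ) (gg := gg) (H := H) p hz K
  have hg : Det p (slam F W) ((adG F c mv i q w W X mm γ gg H z).g K) := fun ω ν a b e =>
    AD.g_of (hL ω ν a b e)
  have hgW : Det p ((adG F c mv i q w W X mm γ gg H z).g K) (F.T1 W) := fun ω ν a b e =>
    hzT ω ν a b (Prod.ext_iff.mp e).1
  have h1 := mi_tim_code hp hT ((adG F c mv i q w W X mm γ gg H z).g K) hg hgW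
    ((adG F c mv i q w W X mm γ gg H z).L K) hL (fun _ => ()) (fun _ => ())
    (fun _ _ _ _ _ => rfl) (E := 0) (by
      have e1 : MI p (fun _ : F.Ω => ()) ((adG F c mv i q w W X mm γ gg H z).L K)
          (fun ω => (F.tw W ω, (adG F c mv i q w W X mm γ gg H z).g K ω)) = 0 := by
        rw [MI_eq h0, CH_eq_zero h0 (fun _ _ _ _ _ => rfl), CH_eq_zero h0 (fun _ _ _ _ _ => rfl),
          sub_zero]
      exact le_of_eq e1)
  rw [add_zero] at h1
  refine le_trans (le_of_eq ?_) h1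
  have e0 : rt F W = F.tw W := by
    funext ω
    exact (tw_rt F hW ω).symm
  rw [e0, MI_eq h0, MI_eq h0]
  congr 1
  · refine CH_congr h0 (fun ω ν _ _ e => ?_) (fun ω ν _ _ e => ?_) (fun _ _ _ _ h => h)
      (fun _ _ _ _ h => h)
    · exact Prod.ext (Prod.ext_iff.mp e).1 rfl
    · exact (Prod.ext_iff.mp (Prod.ext_iff.mp e).1).1
  · refine CH_congr h0 (fun ω ν _ _ e => ?_) (fun ω ν _ _ e => ?_) (fun _ _ _ _ h => h)
      (fun _ _ _ _ h => h)
    · exact Prod.ext (Prod.ext_iff.mp e).1 rfl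
    · exact (Prod.ext_iff.mp (Prod.ext_iff.mp e).1).1

end

/-- **Closed gradients on one event**, general form. -/
theorem avg_gen (k K : ℕ) (cc ε : ℝ) (hcc : 0 < cc) (hε : 0 < ε) :
    ∃ (κ₂ κ π₀ ι ε₀ : ℝ) (k₁ j₀ X₀ : ℕ), 0 < κ₂ ∧ κ₂ ≤ 1 ∧ 0 < κ ∧ κ ≤ 1 ∧ 0 < π₀ ∧ 0 < ι ∧
      0 < ε₀ ∧
      ∀ {m J : ℕ} {F : Fam m J} {c : ℕ → Fin m} {mv : Fin k → ℕ} {i q w W X mm D : ℕ} {γ : ℕ → ℕ}
        {B : F.Ω → Prop} {G₀ : PtT F → ℕ → MvPolynomial (Option (Fin m)) ℝ}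
        {H : LnT F → ℕ → MvPolynomial (Option (Fin m)) ℝ} {gg : F.Ω → Fin k → ℝ}
        {ζ ζ' υ' χ₁ χ₂ ρ₁ ρ₂ υ : Type} {z : F.Ω → ζ} {zw : F.Ω → ζ'} {Yc : F.Ω → υ'}
        {Cj : F.Ω → χ₁} {Cx : F.Ω → χ₂} {Rj : F.Ω → ρ₁} {Rx : F.Ω → ρ₂} {V : F.Ω → υ}
        {M : F.Ω → ℤ} {p : F.Ω → ℝ} {Nf Nn Nx Nu Nv : Fin k → ℕ → ℝ} {Mf Mn : ℕ → ℝ}
        {U Fv e : ℝ}
        (_ : PrG F c mv i q w W X mm D K γ B G₀ H gg z zw Yc Cj Cx Rj Rx V p Nf Nn Nx Nu Nv
          Mf Mn U Fv e)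
        {Ur Bq eV ψ : ℝ}, 0 ≤ Bq → 0 ≤ eV →
        (∀ q' : F.Ω → ℝ, IsLaw q' → (∀ ω, 0 < q' ω → 0 < p ω) →
          CH q' V (fun ω => ((adG F c mv i q w W X mm γ gg H z).T ω,
            (adG F c mv i q w W X mm γ gg H z).g K ω)) ≤ Fv + eV) →
        CH p V (fun ω => ((adG F c mv i q w W X mm γ gg H z).Y K ω,
          (rt F W ω, (adG F c mv i q w W X mm γ gg H z).g K ω))) ≤
          Fv + eV - k * X * Real.log 2 →
        (∀ ω ω', 0 < p ω → 0 < p ω' → V ω = V ω' →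
          (adG F c mv i q w W X mm γ gg H z).T ω = (adG F c mv i q w W X mm γ gg H z).T ω' →
          (adG F c mv i q w W X mm γ gg H z).g K ω =
            (adG F c mv i q w W X mm γ gg H z).g K ω' →
          |((adG F c mv i q w W X mm γ gg H z).Q ω - M ω) -
            ((adG F c mv i q w W X mm γ gg H z).Q ω' - M ω')| ≤ Bq) →
        (∀ j : ℕ, (j + 1) * ⌊κ * X⌋₊ ≤ X → ∀ E : Set F.Ω, π₀ ≤ Pr p E →
          CH (rs p E) (fun ω => M ω / 2 ^ (X - (j + 1) * ⌊κ * X⌋₊))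
            (fun ω => (M ω / 2 ^ (X - j * ⌊κ * X⌋₊), (V ω,
              ((adG F c mv i q w W X mm γ gg H z).T ω,
                (adG F c mv i q w W X mm γ gg H z).g K ω)))) ≤ Ur) →
        TimW F p W j₀ ε₀ ψ → Det p (slam F W) z → X₀ ≤ X → W + X ≤ J →
        ψ * J ≤ ι * X * Real.log 2 → (mm : ℝ) ≤ ι * X →
        6 * (4 * e + cE0 k K U + eV) ≤ ι * X →
        3 * (4 * e + cE0 k K U + eV) + k * mm * Real.log 2 ≤ ι * X * Real.log 2 →
        Ur + cR k K Bq + (4 * (4 * e + cE0 k K U + eV) + k * mm * Real.log 2 + Real.log 2) / π₀ ≤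
          (1 - cc) * ⌊κ * X⌋₊ * Real.log 2 →
        ∃ mu : LnT F → Fin k → Polynomial ℝ, (∀ s j, (mu s j).natDegree ≤ K) ∧
          (∀ s j (u : ℝ), |(mu s j).eval u| ≤
            (K + 1) * (2 ^ k₁ * (|u| + 1)) ^ K * (2 : ℝ) ^ (ι * X)) ∧
          Pb p (fun ω => ∃ j : Fin k, (2 : ℝ) ^ (-(κ₂ * X)) <
            |gg ω j - (mu (slam F W ω) j).eval (rt F W ω)|) ≤ ε := by
  classical
  obtain ⟨κ₂, κ, π₀, ι, ε₀, k₁, j₀, X₀, a1, a2, a3, a4, a5, a6, Hm⟩ := ad_clo k K cc ε hcc hε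
  obtain ⟨κ₃, hκ₃⟩ : ∃ κ₃ : ℝ, κ₃ = min κ₂ 1 / 2 := ⟨_, rfl⟩
  have hm0 : 0 < min κ₂ 1 := lt_min a1 one_pos
  have hκ0 : 0 < κ₃ := by
    rw [hκ₃]
    positivity
  have hκ1 : κ₃ ≤ 1 := by
    rw [hκ₃]
    have := min_le_right κ₂ (1 : ℝ)
    linarith
  refine ⟨κ₃, κ, π₀, ι, ε₀, k₁, j₀, max X₀ ⌈1 / κ₃⌉₊, hκ0, hκ1, a2, a3, a4, a5, a6, ?_⟩
  intro m J F c mv i q w W X mm D γ B G₀ H gg ζ ζ' υ' χ₁ χ₂ ρ₁ ρ₂ υ z zw Yc Cj Cx Rj Rx V M p Nf
    Nn Nx Nu Nv Mf Mn U Fv e P Ur Bq eV ψ hB0 heV hvb hvy hqv hrow hT hz hX hJ hψ hmm n1 n2 n3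
  have hp := P.law
  have h0 := hp.nonneg
  have hW := P.WJ
  have hyp := P.hyp hB0 heV hvb hvy hqv hrow
  have he : 0 ≤ e := (CH_nonneg h0 _ _).trans P.chj
  have hU := P.grd.U0
  have hcE : 0 ≤ cE0 k K U := by
    have hcJ := cJ_nonneg K
    have hcA := cA_nonneg K
    have hl5 : 0 ≤ Real.log 5 := Real.log_nonneg (by norm_num)
    have hlU : 0 ≤ Real.log (2 * (U + 1) + 1) := Real.log_nonneg (by linarith)
    have hlN : 0 ≤ Real.log (2 * (U + 4 * k + 2 * ((K + 1) * (k + 1)) + 1) + 1) := by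
      refine Real.log_nonneg ?_
      have : (0 : ℝ) ≤ 4 * k + 2 * ((K + 1) * (k + 1)) := by positivity
      linarith
    unfold cE0
    positivity
  have hX0 : X₀ ≤ X := (le_max_left _ _).trans hX
  have hXκ : 1 ≤ κ₃ * X := by
    have h1 : (⌈1 / κ₃⌉₊ : ℝ) ≤ X := by exact_mod_cast (le_max_right _ _).trans hX
    have h2 : 1 / κ₃ ≤ X := (Nat.le_ceil _).trans h1
    rwa [div_le_iff₀ hκ0, mul_comm] at h2
  have hLs := adG_L (c := c) (mv := mv) (i := i) (q := q) (w := w) (X := X) (mm := mm)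
    (γ := γ) (gg := gg) (H := H) p hz K
  have hth : (adG F c mv i q w W X mm γ gg H z).th = F.tw W := by
    funext ω
    exact (tw_rt F hW ω).symm
  have hbm : ∀ ω, 0 < p ω → ∀ j, |(adG F c mv i q w W X mm γ gg H z).bb ω j| ≤
      (2 : ℝ) ^ (ι * X) := by
    intro ω hω j
    refine (hyp.bm ω hω j).trans ?_
    show (2 : ℝ) ^ mm ≤ _
    rw [← Real.rpow_natCast 2 mm]
    exact Real.rpow_le_rpow_of_exponent_le one_le_two hmm
  have h1f : (1 - ι) * X * Real.log 2 ≤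
      CH p (fun ω => ⌊(2 : ℝ) ^ X * (adG F c mv i q w W X mm γ gg H z).th ω⌋)
        ((adG F c mv i q w W X mm γ gg H z).L K) := by
    have h1 := hT.f X hJ
    have h2 : CH p (fun ω => ⌊(2 : ℝ) ^ X * F.tw W ω⌋) (slam F W) ≤
        CH p (fun ω => ⌊(2 : ℝ) ^ X * F.tw W ω⌋) ((adG F c mv i q w W X mm γ gg H z).L K) :=
      CH_mono_cond h0 hLs
    rw [hth]
    have h3 : (1 - ι) * X * Real.log 2 = X * Real.log 2 - ι * X * Real.log 2 := by ring
    linarith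
  have h1a : j₀ * Real.log 2 - ε₀ ≤
      CH p (fun ω => ⌊(2 : ℝ) ^ j₀ * (adG F c mv i q w W X mm γ gg H z).th ω⌋)
        ((adG F c mv i q w W X mm γ gg H z).L K) := by
    have h2 : CH p (fun ω => ⌊(2 : ℝ) ^ j₀ * F.tw W ω⌋) (slam F W) ≤
        CH p (fun ω => ⌊(2 : ℝ) ^ j₀ * F.tw W ω⌋) ((adG F c mv i q w W X mm γ gg H z).L K) :=
      CH_mono_cond h0 hLs
    rw [hth]
    exact hT.a.trans h2
  obtain ⟨mu, m1, m2, m3⟩ := Hm p (adG F c mv i q w W X mm γ gg H z) Rj Rx _ _ _ _ V M _ _ Bq Ur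
    hX0 (by positivity) hyp hbm h1f h1a n1 n2 n3
  -- the polynomials as functions of the line and the window
  obtain ⟨f, hf⟩ : ∃ f : LnT F → Fin k → Polynomial ℝ, (∀ s j, (f s j).natDegree ≤ K) ∧
      (∀ s j (u : ℝ), |(f s j).eval u| ≤ (K + 1) * (2 ^ k₁ * (|u| + 1)) ^ K *
        (2 : ℝ) ^ (ι * X)) ∧
      ∀ ω, 0 < p ω → f (slam F W ω) = mu ((adG F c mv i q w W X mm γ gg H z).L K ω) := by
    refine ⟨fun s => if hs : ∃ ω, 0 < p ω ∧ slam F W ω = s then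
      mu ((adG F c mv i q w W X mm γ gg H z).L K hs.choose) else fun _ => 0,
      fun s j => ?_, fun s j u => ?_, fun ω hω => ?_⟩
    · dsimp only
      split_ifs with hs
      · exact m1 _ j
      · simp
    · dsimp only
      split_ifs with hs
      · exact m2 _ j u
      · simp only [Polynomial.eval_zero, abs_zero]
        positivity
    · have hs : ∃ ω', 0 < p ω' ∧ slam F W ω' = slam F W ω := ⟨ω, hω, rfl⟩
      simp only [dif_pos hs]
      rw [hLs _ ω hs.choose_spec.1 hω hs.choose_spec.2]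
  refine ⟨f, hf.1, hf.2.1, le_trans ?_ m3⟩
  unfold Pb
  refine Finset.sum_le_sum fun ω _ => ?_
  by_cases h6 : ∃ j : Fin k, (2 : ℝ) ^ (-(κ₃ * X)) < |gg ω j -
      (f (slam F W ω) j).eval (rt F W ω)|
  · rw [if_pos h6]
    by_cases hω : 0 < p ω
    · rw [if_pos ?_]
      obtain ⟨j, hj⟩ := h6
      refine ⟨j, ?_⟩
      rw [hf.2.2 ω hω] at hj
      have e2 : (adG F c mv i q w W X mm γ gg H z).th ω = rt F W ω := rfl
      have e3 : (adG F c mv i q w W X mm γ gg H z).X = X := rfl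
      have e4 := adG_bbr (c := c) (mv := mv) (i := i) (q := q) (w := w) (W := W) (X := X)
        (mm := mm) (γ := γ) (gg := gg) (H := H) (z := z) ω j
      have e5 : (1 : ℝ) / 2 ^ X ≤ 2 ^ (-(2 * κ₃ * X)) := by
        rw [one_div, ← Real.rpow_natCast, ← Real.rpow_neg two_pos.le]
        refine Real.rpow_le_rpow_of_exponent_le one_le_two ?_
        have h1 : 2 * κ₃ ≤ 1 := by
          rw [hκ₃]
          have := min_le_right κ₂ (1 : ℝ)
          linarith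
        have h2 : 2 * κ₃ * X ≤ 1 * X := mul_le_mul_of_nonneg_right h1 (Nat.cast_nonneg X)
        linarith
      have e6 : (2 : ℝ) ^ (-(κ₂ * X)) ≤ 2 ^ (-(2 * κ₃ * X)) := by
        refine Real.rpow_le_rpow_of_exponent_le one_le_two ?_
        have h1 : 2 * κ₃ ≤ κ₂ := by
          rw [hκ₃]
          have := min_le_left κ₂ (1 : ℝ)
          linarith
        have h2 : 2 * κ₃ * X ≤ κ₂ * X := mul_le_mul_of_nonneg_right h1 (Nat.cast_nonneg X)
        linarith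
      have e7 : 2 * (2 : ℝ) ^ (-(2 * κ₃ * X)) ≤ 2 ^ (-(κ₃ * X)) := by
        have h1 : 2 * (2 : ℝ) ^ (-(2 * κ₃ * X)) = 2 ^ (1 + -(2 * κ₃ * X)) := by
          rw [Real.rpow_add two_pos, Real.rpow_one]
        rw [h1]
        refine Real.rpow_le_rpow_of_exponent_le one_le_two ?_
        linarith
      have e8 := abs_sub_le (gg ω j)
        ((adG F c mv i q w W X mm γ gg H z).bb ω j)
        ((mu ((adG F c mv i q w W X mm γ gg H z).L K ω) j).eval (rt F W ω))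
      rw [e2, e3]
      linarith
    · have : p ω = 0 := le_antisymm (not_lt.1 hω) (h0 ω)
      rw [this]
      split_ifs <;> exact le_rfl
  · rw [if_neg h6]
    split_ifs
    · exact h0 ω
    · exact le_rfl

end Pool.AVG57
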