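import Pool.Agent.H57.AVG.C1n
import Pool.Agent.H45.RPL.Hyp

/-!
# The closed gradient in a class

`c1_cls`: the gradient of the target `v + 1` in the direction of the last place `v` of the chain is a
closed polynomial, on the events of the class, from the inputs `C1C`.
-/

set_option autoImplicit false

namespace Pool.AVG57

open Finset Real MvPolynomial
open Pool.Agent.H49.Ent Pool.Agent.H32.Dense Pool.STK Pool.KA Pool.KSAT Pool.K2S Pool.PB Pool.S6C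
open Pool.GEN Pool.CHT Pool.CHX Pool.ISO Pool.RCD Pool.LA91 Pool.AVG71 Pool.AVG5 Pool.D2F2
open Pool.AVG96 (jetQ prQ MIw)
open Pool.GRD (LbP)
open Pool.PB.Trl (rt rt_mem t_rt)
open Pool.D2R (hgt gnh GrdE chs)
open Pool.KVA (MI)
open Pool.KAF (rs Pr)
open Pool.BFL (Pb)

variable {m : ℕ} {γ : ∀ J : ℕ, Fam m J → Type}

/-- The charts of the windows `k ≤ ks` are closed at windows before `a`. -/
def ClU {J : ℕ} (F : Fam m J) (r ks a : ℕ) (B : F.Ω → Prop)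
    (G : ℕ → PtT F → ℕ → MvPolynomial (Option (Fin m)) ℝ) : Prop :=
  ∀ k ≤ ks, ∃ (wk : ℕ) (Hk : LnT F → ℕ → MvPolynomial (Option (Fin m)) ℝ), wk ≤ a ∧
    Clsd F r wk B (G k) Hk

theorem chs_cl2 {J : ℕ} {F : Fam m J} {v ks : ℕ} {a : ℝ} {B : F.Ω → Prop}
    {G : ℕ → PtT F → ℕ → MvPolynomial (Option (Fin m)) ℝ} (ha : ⌊a * J⌋₊ ≤ J)
    (h : ClU F (v + 2) ks ⌊a * J⌋₊ B G) : Cl2 (ptr F J) (vg a J F) B (chs F (v + 1) ks G) := by
  classical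
  refine ⟨⟨fun b k l => G k b l, fun ω _ => rfl⟩, ?_⟩
  choose wk Hk h1 h2 using h
  refine ⟨fun s (k : Fin (ks + 1)) (l : Fin (v + 1 + 1)) =>
    Hk k (Nat.lt_succ_iff.1 k.2) (upw (wk k (Nat.lt_succ_iff.1 k.2)) ⌊a * J⌋₊ s) l,
    fun ω hω => ?_⟩
  funext k l
  show G k (ptr F J ω) l = Hk k _ (upw _ ⌊a * J⌋₊ (slam F ⌊a * J⌋₊ ω)) l
  rw [upw_slam F (h1 k _) ha]
  exact h2 k _ ω hω l l.2

theorem cl2_up {J : ℕ} {F : Fam m J} {w a : ℝ} {B : F.Ω → Prop} (hwa : w ≤ a) (ha : ⌊a * J⌋₊ ≤ J)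
    {V : Type} {z : F.Ω → V} (h : Cl2 (ptr F J) (vg w J F) B z) :
    Cl2 (ptr F J) (vg a J F) B z := by
  refine h.mono ⟨id, fun _ _ => rfl⟩ ⟨upw ⌊w * J⌋₊ ⌊a * J⌋₊, fun ω _ => ?_⟩
  exact (upw_slam F (Nat.floor_le_floor (mul_le_mul_of_nonneg_right hwa (Nat.cast_nonneg J)))
    ha ω).symm

/-- The near path of the base is few bits given the context. -/
theorem C1E.yfew {J : ℕ} {F : Fam m J} {c : ℕ → Fin m} {r₀ v K M : ℕ} {w : ℝ} {g W D : ℕ}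
    {H : LnT F → ℕ → MvPolynomial (Option (Fin m)) ℝ} {ζ ρ₁ ρ₂ υ : Type} {zw : F.Ω → ζ}
    {zj : F.Ω → ρ₁} {zx : F.Ω → ρ₂} {y : F.Ω → υ} {p : F.Ω → ℝ} {n n' nt : ℕ → ℝ} {Nt nb : ℝ}
    {Df Dn Dx Dd : ℕ → ℕ → ℝ} {Ef En Nv : ℕ → ℝ} {η : ℝ}
    (E : C1E F c r₀ v K M w g H zw zj zx y p n n' nt Nt nb Df Dn Dx Dd Ef En Nv η)
    (law : IsLaw p) (hr : r₀ ≤ v) (hw0 : 0 ≤ w) (wW : ⌊w * J⌋₊ ≤ W) (WJ : W ≤ J)
    (deg : ∀ s l, (H s l).totalDegree ≤ D) (DK : D + 1 ≤ K) :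
    CH p y (fun ω => (rt F W ω, zxs F c 0 W zw (sdL F c v ⌊w * J⌋₊ K H (fun l => ⌊n l * J⌋₊)
      (fun l => ⌊n' l * J⌋₊)) ω)) ≤ 2 * v * cS K + η := by
  have h0 := law.nonneg
  have hwr : (⌊w * J⌋₊ : ℝ) ≤ w * J := Nat.floor_le (by positivity)
  refine CH_via h0 _ (jet2 F c ⌊w * J⌋₊ H 0 r₀ (nd n n' w)) ?_ E.yf fun ω ν _ _ e => ?_
  · refine jet2_sd (nc := fun l => ⌊n l * J⌋₊) (nc' := fun l => ⌊n' l * J⌋₊) law (wW.trans WJ)
      deg DK hr (fun l _ _ => ?_) (fun l _ _ => ?_) _ fun ω ν _ _ e => ?_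
    · unfold nd
      rw [if_pos rfl]
      exact (Nat.lt_floor_add_one _).le
    · have h1 := (Nat.lt_floor_add_one (n' l * J)).le
      unfold nd
      rw [if_neg one_ne_zero]
      push_cast
      linarith
    · obtain ⟨e1, e2⟩ := Prod.ext_iff.mp e
      obtain ⟨e3, e4⟩ := AvL.eqz e2
      exact ⟨(time_eq F WJ e3 e1).1, e4⟩
  · obtain ⟨e1, e2⟩ := Prod.ext_iff.mp e
    obtain ⟨e3, e4⟩ := Prod.ext_iff.mp e2
    obtain ⟨e5, e6⟩ := Prod.ext_iff.mp e4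
    obtain ⟨e7, e8⟩ := AvL.eqz e4
    obtain ⟨e9, -⟩ := Prod.ext_iff.mp e6
    have e10 : F.Z ω = F.Z ν := (Prod.ext_iff.mp e9).1
    refine Prod.ext e1 (Prod.ext e5 ?_)
    exact Prod.ext (time_eq F WJ e7 e3).1 e10

theorem le_eT {v K M : ℕ} {ρ η : ℝ} (hη : 0 ≤ η) (hρ : 0 ≤ ρ) : η ≤ eT v K M ρ η := by
  have hcS := cS_nonneg K
  have hcD := cD_nonneg K
  have hcL := cL_nonneg K
  have hcM := cM_nonneg K M
  have hρl : 0 ≤ Real.log (2 * (ρ + 1) + 1) := Real.log_nonneg (by linarith)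
  have t1 : 0 ≤ ((v : ℝ) + 1) * (2 * η + 2 * cD K) := by positivity
  have t2 : 0 ≤ 4 * (v : ℝ) * cS K := by positivity
  have t3 : 0 ≤ ((v : ℝ) + 1) * (M + 1) * cM K M := by positivity
  have t4 : 0 ≤ ((K : ℝ) + 1) * Real.log (2 * (ρ + 1) + 1) := by positivity
  unfold eT
  linarith

/-- **Closed gradient in the direction of the last place of the chain**, in a class. -/
theorem c1_cls (v K : ℕ) {h ε : ℝ} (hh : 0 < h) (hh1 : h ≤ 1) (hε : 0 < ε) :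
    ∃ (κ₂ ι θ : ℝ) (k₁ : ℕ), 0 < κ₂ ∧ κ₂ ≤ 1 ∧ 0 < ι ∧ 0 < θ ∧ θ ≤ 1 ∧
      ∀ {m : ℕ} {γ : ∀ J : ℕ, Fam m J → Type} {S : PCl m}
        {y : ∀ (J : ℕ) (F : Fam m J), F.Ω → γ J F} {c : ℕ → Fin m} {r₀ : ℕ}
        {w δW j x : ℝ} {p s n n' nt : ℕ → ℝ} {qr ξ μ Nd Nt nb : ℝ} {Df Dn Dx Dd : ℕ → ℕ → ℝ}
        {Ef En Nv : ℕ → ℝ} {lo hi η : ℝ}
        (_ : C1N r₀ v w δW p s n n' nt qr ξ μ Nd Nt nb Df Dn Dx Dd Ef En Nv)
        (_ : C1C S y c r₀ v K w j x p n n' nt Nd Nt nb Df Dn Dx Dd Ef En Nv h lo hi η),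
        0 ≤ η → η ≤ θ * ξ → μ ≤ θ * ξ → s (v + 1) + qr ≤ Nt + θ * ξ →
        lo + θ * ξ ≤ p (v + 1) + qr → s (v + 1) + qr + ξ + θ * ξ ≤ hi →
        ∀ E : ℝ, Bas S (fun J F B => ∀ (ks nn : ℕ) (gm : ℕ → ℕ)
          (G : ℕ → PtT F → ℕ → MvPolynomial (Option (Fin m)) ℝ)
          (H : LnT F → ℕ → MvPolynomial (Option (Fin m)) ℝ) (U : ℝ),
          LbsE F c v K w p s E gm B (G 0) H → ClU F (v + 2) ks ⌊j * J⌋₊ B G →
          ClU F (v + 2) nn ⌊x * J⌋₊ B G → ks ≤ nn →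
          GrdE F c 0 (v + 1) ks nn ⌊qr * J⌋₊ ⌊ξ * J⌋₊ gm U B G → U ≤ 2 ^ (μ / 2 * J) →
          ∃ W : ℕ, ⌊w * J⌋₊ ≤ W ∧ (W : ℝ) ≤ (w + δW) * J ∧ ∃ mu : LnT F → Polynomial ℝ,
            (∀ s, (mu s).natDegree ≤ K + 1) ∧
            (∀ s (u : ℝ), |(mu s).eval u| ≤ ((K + 1 : ℕ) + 1) * (2 ^ k₁ * (|u| + 1)) ^ (K + 1) *
              (2 : ℝ) ^ (ι * ⌊ξ * J⌋₊)) ∧
            Pb (Pool.Agent.H49.Ent.cond F.p B True) (fun ω => (2 : ℝ) ^ (-(κ₂ * ⌊ξ * J⌋₊)) <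
              |gnh F c (v + 1) gm (G 0) (G nn) ω v -
                (mu (slam F W ω)).eval (rt F W ω)|) ≤ ε) := by
  obtain ⟨κ₂, κ, π₀, ι, ε₀, k₁, j₀, X₀, a1, a2, a3, a4, a5, a6, a7, Hm⟩ :=
    avl_ev (K + 1) (h / 2) ε (by positivity) hε
  obtain ⟨A, hA⟩ : ∃ A : ℝ, A = 4 * (2 + 4 * (v + 1) + ((K + 1 : ℕ) + 1)) + 1 := ⟨_, rfl⟩
  have hA0 : 0 ≤ A := by rw [hA]; positivity
  obtain ⟨θ, hθ⟩ : ∃ θ : ℝ, θ = min (min 1 (ι / 4)) (min (ι / (24 * (A + 2)))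
    (h * κ / (32 * (3 + (3 + 4 * A) / π₀)))) := ⟨_, rfl⟩
  have hθ0 : 0 < θ := by
    rw [hθ]
    refine lt_min (lt_min one_pos (by positivity)) (lt_min (by positivity) (by positivity))
  have hθ1 : θ ≤ 1 := by rw [hθ]; exact (min_le_left _ _).trans (min_le_left _ _)
  have hθ2 : θ ≤ ι / 4 := by rw [hθ]; exact (min_le_left _ _).trans (min_le_right _ _)
  have hθ3 : θ ≤ ι / (24 * (A + 2)) := by
    rw [hθ]; exact (min_le_right _ _).trans (min_le_left _ _)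
  have hθ4 : θ ≤ h * κ / (32 * (3 + (3 + 4 * A) / π₀)) := by
    rw [hθ]; exact (min_le_right _ _).trans (min_le_right _ _)
  refine ⟨κ₂, ι, θ, k₁, a1, a2, a6, hθ0, hθ1, ?_⟩
  intro m γ S y c r₀ w δW j x p s n n' nt qr ξ μ Nd Nt nb Df Dn Dx Dd Ef En Nv lo hi η N C hη0
    hη hμ hNt hlo hhi E
  have hξ := N.ξ0
  have hw0 := N.w0
  have hδ := N.δ0
  have hμ0 := N.μ0
  have hqr := N.q0
  obtain ⟨t, ht⟩ : ∃ t : ℝ, t = θ * ξ := ⟨_, rfl⟩
  have ht0 : 0 < t := by rw [ht]; positivity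
  rw [← ht] at hη hμ hNt hlo hhi
  have hw1 : w + δW < 1 := by linarith [N.w1]
  have hn0 : ∀ l ≤ v, 0 ≤ n l := fun l hl => by
    have h1 := N.c0 l hl
    have h2 := N.ps l (by omega)
    linarith [h2.1, h2.2]
  have hn0' : ∀ l ≤ v, 0 ≤ n' l := fun l hl => by
    rcases Nat.lt_or_ge l r₀ with h1 | h1
    · exact (hn0 l hl).trans (N.c1 l h1)
    · rw [N.c2 l h1 hl]
      exact hn0 l hl
  obtain ⟨C₀, hC₀⟩ := C.tm
  -- the grid of the rows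
  obtain ⟨Kg, hKg⟩ : ∃ Kg : ℕ, Kg = ⌈hi / (t / 2)⌉₊ + 1 := ⟨_, rfl⟩
  obtain ⟨R, hR⟩ := exists_bdR v (K + 2) w n n' nt nb Df Dn Dx Dd Ef En Nv (t / 2) Kg
  -- constants
  obtain ⟨C₅, hC₅⟩ : ∃ C₅ : ℝ, C₅ = 4 * (4 * cT v (K + 1) (K + 2)) + |cG v (K + 1)| := ⟨_, rfl⟩
  have hC₅0 : 0 ≤ C₅ := by
    rw [hC₅]
    have := cT_nonneg v (K + 1) (K + 2)
    positivity
  obtain ⟨C₇, hC₇⟩ : ∃ C₇ : ℝ, C₇ = cG v (K + 1) + 2 * Real.log (8 * v + 10) := ⟨_, rfl⟩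
  obtain ⟨C₉, hC₉⟩ : ∃ C₉ : ℝ, C₉ = 2 * v * cS (K + 1) / π₀ + cRw v (K + 1) := ⟨_, rfl⟩
  -- large resolutions
  obtain ⟨J₁, b1⟩ := big 2 (b := ξ / 2) (by positivity)
  obtain ⟨J₂, b2⟩ := big (X₀ + (K + 1 : ℕ) : ℝ) (b := ξ / 2) (by positivity)
  obtain ⟨J₃, b3⟩ := big (24 * C₅) (b := ι * ξ) (by positivity)
  obtain ⟨J₄, b4⟩ := big (C₉ + C₇ + (4 * C₅ + 1) / π₀) (b := h * κ * ξ / 32) (by positivity)
  obtain ⟨J₅, b5⟩ := big 1 (b := κ * ξ / 4) (by positivity)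
  obtain ⟨J₆, b6⟩ := big (8 * v + 11) (b := μ / 2) (by positivity)
  obtain ⟨J₇, b7⟩ := big 1 (b := δW / 2) (by positivity)
  obtain ⟨J₈, b8⟩ := big (j₀ : ℝ) (b := 1 - (w + δW)) (by linarith)
  obtain ⟨J₉, b9⟩ := big 2 (b := t / 2) (by positivity)
  obtain ⟨I₁, d1⟩ := big 2 (b := p v + qr - Dn v 0) (by linarith [N.n0])
  obtain ⟨I₂, d2⟩ := big 4 (b := p v + qr + ξ + μ - (Dn v 1 + w + δW)) (by linarith [N.n1])
  obtain ⟨I₃, d3⟩ := big 2 (b := p v + qr - Dx v 0) (by linarith [N.x0])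
  obtain ⟨I₄, d4⟩ := big 4 (b := p v + qr + ξ + μ - (Dx v 1 + w + δW)) (by linarith [N.x1])
  obtain ⟨I₅, d5⟩ := big 2 (b := p v + qr - nt v) (by linarith [N.u0])
  obtain ⟨I₆, d6⟩ := big 4 (b := p v + qr + ξ + μ - (nt v + δW)) (by linarith [N.u1])
  obtain ⟨I₇, d7⟩ := big 2 (b := p (v + 1) + qr - En 0) (by linarith [N.m0])
  obtain ⟨I₈, d8⟩ := big 2 (b := p (v + 1) + qr - (En 1 + w + δW)) (by linarith [N.m1])
  obtain ⟨I₉, d9⟩ := big 1 (b := Df v 1 + w - (s v + qr + ξ + μ)) (by linarith [N.f1])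
  obtain ⟨L₁, g1⟩ := big 1 (b := Nv 1 + w - (s v + qr + ξ + μ)) (by linarith [N.v1])
  obtain ⟨L₂, g2⟩ := big 4 (b := p v + qr + ξ + μ - nb) (by linarith [N.b1])
  obtain ⟨L₃, g3⟩ := big_all (6 * (K + 1 : ℕ) + 1) (g := fun l => n l - (s l + qr + ξ + μ)) v
    fun l hl => by linarith [N.c0 l hl]
  obtain ⟨Jm, hJm⟩ : ∃ Jm : ℕ, Jm = 1 + J₁ + J₂ + J₃ + J₄ + J₅ + J₆ + J₇ + J₈ + J₉ + I₁ + I₂ +
    I₃ + I₄ + I₅ + I₆ + I₇ + I₈ + I₉ + L₁ + L₂ + L₃ := ⟨_, rfl⟩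
  refine Bas.mono Jm ((alive_cls hC₀ j₀ (ε₀ := ε₀) (δ := δW / 2) (ψ := t) a7 (by positivity)
    ht0).and (C.bas (kq R E (K + 2) K) Kg E (η₁ := t) (τ := t / 2) (π₀ := π₀) ht0 a5)) ?_
  rintro J hJ F B ⟨⟨hPB, hal⟩, CH1⟩ ks nn gm G H U Lb hGj hGx hks grd hU
  -- the resolution
  have hJ1 : 1 ≤ J := by omega
  have hJ0 : (0 : ℝ) ≤ J := Nat.cast_nonneg J
  replace b1 := b1 J (by omega)
  replace b2 := b2 J (by omega)
  replace b3 := b3 J (by omega)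
  replace b4 := b4 J (by omega)
  replace b5 := b5 J (by omega)
  replace b6 := b6 J (by omega)
  replace b7 := b7 J (by omega)
  replace b8 := b8 J (by omega)
  replace b9 := b9 J (by omega)
  replace d1 := d1 J (by omega)
  replace d2 := d2 J (by omega)
  replace d3 := d3 J (by omega)
  replace d4 := d4 J (by omega)
  replace d5 := d5 J (by omega)
  replace d6 := d6 J (by omega)
  replace d7 := d7 J (by omega)
  replace d8 := d8 J (by omega)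
  replace d9 := d9 J (by omega)
  replace g1 := g1 J (by omega)
  replace g2 := g2 J (by omega)
  replace g3 := g3 J (by omega)
  obtain ⟨wn, hwn⟩ : ∃ wn : ℕ, wn = ⌊w * J⌋₊ := ⟨_, rfl⟩
  obtain ⟨q, hq⟩ : ∃ q : ℕ, q = ⌊qr * J⌋₊ := ⟨_, rfl⟩
  obtain ⟨X, hX⟩ : ∃ X : ℕ, X = ⌊ξ * J⌋₊ := ⟨_, rfl⟩
  obtain ⟨mm, hmm⟩ : ∃ mm : ℕ, mm = ⌊μ * J⌋₊ := ⟨_, rfl⟩
  have w1 : (wn : ℝ) ≤ w * J := by rw [hwn]; exact Nat.floor_le (by positivity)
  have w2 : w * J ≤ wn + 1 := by rw [hwn]; exact (Nat.lt_floor_add_one _).le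
  have q1 : (q : ℝ) ≤ qr * J := by rw [hq]; exact Nat.floor_le (by positivity)
  have q2 : qr * J ≤ q + 1 := by rw [hq]; exact (Nat.lt_floor_add_one _).le
  have x1 : (X : ℝ) ≤ ξ * J := by rw [hX]; exact Nat.floor_le (by positivity)
  have x2 : ξ * J ≤ X + 1 := by rw [hX]; exact (Nat.lt_floor_add_one _).le
  have m1 : (mm : ℝ) ≤ μ * J := by rw [hmm]; exact Nat.floor_le (by positivity)
  have m2 : μ * J ≤ mm + 1 := by rw [hmm]; exact (Nat.lt_floor_add_one _).le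
  have y1 : ∀ l ≤ v + 1, p l * J ≤ gm l + 1 := fun l hl => by
    have h1 := (Nat.lt_floor_add_one (p l * J)).le
    have h2 : ((⌊p l * J⌋₊ : ℕ) : ℝ) ≤ gm l := by exact_mod_cast Lb.lo l hl
    linarith only [h1, h2]
  have y2 := Lb.hi
  have yv1 := y1 v (by omega)
  have yv2 := y2 v (by omega)
  have yt1 := y1 (v + 1) le_rfl
  have yt2 := y2 (v + 1) le_rfl
  have X2 : ξ * J / 2 ≤ X := by linarith only [b1, x2]
  have tJ0 : 0 ≤ t * J := by positivity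
  have mt : (mm : ℝ) ≤ t * J := by
    have := mul_le_mul_of_nonneg_right hμ hJ0
    linarith only [this, m1]
  -- the window
  have hwJ : wn ≤ J := by
    have h1 : w * J ≤ 1 * J := mul_le_mul_of_nonneg_right (by linarith only [hw1, hδ]) hJ0
    have : (wn : ℝ) ≤ J := by linarith only [h1, w1]
    exact_mod_cast this
  obtain ⟨I, hI⟩ : ∃ I : ℕ, I = ⌊δW * J⌋₊ := ⟨_, rfl⟩
  have i1 : (I : ℝ) ≤ δW * J := by rw [hI]; exact Nat.floor_le (by positivity)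
  have i2 : δW * J ≤ I + 1 := by rw [hI]; exact (Nat.lt_floor_add_one _).le
  obtain ⟨i, hi', hT⟩ := hal wn I (by linarith only [b7, i2]) (by
    have : ((wn + I + j₀ : ℕ) : ℝ) ≤ J := by
      push_cast
      linarith only [w1, i1, b8]
    exact_mod_cast this)
  obtain ⟨W, hW⟩ : ∃ W : ℕ, W = wn + i := ⟨_, rfl⟩
  rw [← hW] at hT
  have wW : wn ≤ W := by omega
  have W2 : (W : ℝ) ≤ (w + δW) * J := by
    have h1 : (i : ℝ) ≤ I := by exact_mod_cast hi'.le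
    rw [hW]
    push_cast
    linarith only [h1, w1, i1]
  have W1 : w * J - 1 ≤ W := by
    have h1 : (wn : ℝ) ≤ W := by exact_mod_cast wW
    linarith only [h1, w2]
  have WX : W + X ≤ J := by
    have h1 : (w + δW + ξ) * J ≤ 1 * J := mul_le_mul_of_nonneg_right N.w1.le hJ0
    have : ((W + X : ℕ) : ℝ) ≤ J := by
      push_cast
      linarith only [h1, W2, x1]
    exact_mod_cast this
  have WJ : W ≤ J := by omega
  refine ⟨W, by rw [← hwn]; exact wW, W2, ?_⟩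
  -- the records
  have hjJ : ⌊j * J⌋₊ ≤ J := by
    have h1 : j * J ≤ 1 * J := mul_le_mul_of_nonneg_right C.j1 hJ0
    have h2 : (⌊j * J⌋₊ : ℝ) ≤ J := (Nat.floor_le (mul_nonneg (hw0.trans C.wj) hJ0)).trans
      (by linarith only [h1])
    exact_mod_cast h2
  have hxJ : ⌊x * J⌋₊ ≤ J := by
    have h1 : x * J ≤ 1 * J := mul_le_mul_of_nonneg_right C.x1 hJ0
    have h2 : (⌊x * J⌋₊ : ℝ) ≤ J := (Nat.floor_le (mul_nonneg (hw0.trans C.wx) hJ0)).trans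
      (by linarith only [h1])
    exact_mod_cast h2
  obtain ⟨Vw, zw, zw1, zw2⟩ := mx0 (ptr F J) (vg w J F) B
  obtain ⟨Vj, zj, zj1, zj2⟩ := mx0 (ptr F J) (vg j J F) B
  obtain ⟨Vx, zx, zx1, zx2⟩ := mx0 (ptr F J) (vg x J F) B
  have hcl := isLaw_cond F.isLaw hPB
  have hsup : ∀ ω, 0 < Pool.Agent.H49.Ent.cond F.p B True ω → B ω := fun ω hω => by
    have h1 := ((cond_pos_iff F.isLaw.nonneg B True ω).mp hω).2
    exact of_eq_true h1
  -- the values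
  have hgN : ((gm (v + 1) + q + X : ℕ) : ℝ) ≤ Nd * J := by
    have := mul_le_mul_of_nonneg_right N.d0 hJ0
    push_cast
    linarith only [this, yt2, q1, x1]
  have CE := CH1.ev Lb hR N.rv hw0 (by linarith only [hw1, hδ]) hJ1 hPB ht0.le hn0 hn0' (C.yW J F)
    hgN zw1 zw2 zj1 zj2 zx1 zx2
  have hη' : (η + t) * J ≤ 2 * t * J := mul_le_mul_of_nonneg_right (by linarith only [hη]) hJ0
  have hη'0 : 0 ≤ (η + t) * J := by positivity
  have hU0 := grd.U0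
  have hNtJ : (2 : ℝ) ^ (gm (v + 1) + q) ≤ 2 ^ (t * J) * 2 ^ (Nt * J) := by
    rw [← Real.rpow_add two_pos, ← Real.rpow_natCast]
    refine Real.rpow_le_rpow_of_exponent_le one_le_two ?_
    have := mul_le_mul_of_nonneg_right hNt hJ0
    push_cast
    linarith only [this, yt2, q1]
  have hmU : U + 8 * (v + 1 : ℕ) * U + 1 ≤ 2 ^ mm := by
    have k1 : (1 : ℝ) ≤ 2 ^ (μ / 2 * J) := Real.one_le_rpow (by norm_num) (by positivity)
    have k2 : U + 8 * (v + 1 : ℕ) * U + 1 ≤ (8 * v + 10) * 2 ^ (μ / 2 * J) := by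
      have hv : (0 : ℝ) ≤ v := Nat.cast_nonneg v
      push_cast
      have k3 := mul_le_mul_of_nonneg_left hU (show (0 : ℝ) ≤ 8 * v + 9 by positivity)
      linarith only [k3, k1]
    have k4 : ((8 * v + 10 : ℕ) : ℝ) ≤ 2 ^ (8 * v + 10) := by
      have : 8 * v + 10 ≤ 2 ^ (8 * v + 10) := (Nat.lt_two_pow_self).le
      exact_mod_cast this
    have k5 : (2 : ℝ) ^ (8 * v + 10) * 2 ^ (μ / 2 * J) ≤ 2 ^ mm := by
      rw [← Real.rpow_natCast, ← Real.rpow_natCast, ← Real.rpow_add two_pos]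
      refine Real.rpow_le_rpow_of_exponent_le one_le_two ?_
      push_cast
      linarith only [b6, m2]
    refine k2.trans (le_trans ?_ k5)
    push_cast at k4
    exact mul_le_mul_of_nonneg_right k4 (by positivity)
  have hKX : ((K + 1 : ℕ) : ℝ) ≤ 2 ^ (X + mm) := by
    have k1 : ((K + 1 : ℕ) : ℝ) ≤ X := by
      have : (0 : ℝ) ≤ X₀ := Nat.cast_nonneg _
      linarith only [b2, X2, this]
    have k2 : K + 1 ≤ X := by exact_mod_cast k1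
    have k3 : K + 1 ≤ 2 ^ (X + mm) := (Nat.lt_two_pow_self).le.trans
      (Nat.pow_le_pow_right (by norm_num) (k2.trans (Nat.le_add_right _ _)))
    exact_mod_cast k3
  have hcn : ∀ l < v, gm l + (q + X) + 2 * (K + 1) ≤ ⌊n l * J⌋₊ := fun l hl => by
    refine Nat.le_floor ?_
    have k1 := g3 l hl.le
    have k2 := y2 l (by omega)
    have k3 : 0 ≤ μ * J := by positivity
    have k4 : (0 : ℝ) ≤ K := Nat.cast_nonneg K
    push_cast at k1 ⊢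
    linarith only [k1, k2, k3, k4, q1, x1]
  have hcv : gm v + q + (X + mm) + 6 * (K + 1) ≤ ⌊n' v * J⌋₊ := by
    refine Nat.le_floor ?_
    have k1 := g3 v le_rfl
    rw [N.c2 v N.rv le_rfl]
    push_cast at k1 ⊢
    linarith only [k1, yv2, q1, x1, m1]
  have hDn : Dn v 1 * J + W ≤ ((gm v + q + (X + mm) : ℕ) : ℝ) := by
    push_cast
    linarith only [d2, W2, yv1, q2, x2, m2]
  have hDx : Dx v 1 * J + W ≤ ((gm v + q + (X + mm) : ℕ) : ℝ) := by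
    push_cast
    linarith only [d4, W2, yv1, q2, x2, m2]
  have hDu : (nt v - w) * J + W ≤ ((gm v + q + (X + mm) : ℕ) : ℝ) := by
    push_cast
    linarith only [d6, W2, yv1, q2, x2, m2]
  have hnb1 : ((gm v + q + X : ℕ) : ℝ) ≤ nb * J := by
    have := mul_le_mul_of_nonneg_right N.b0 hJ0
    push_cast
    linarith only [this, yv2, q1, x1]
  have hnb2 : nb * J ≤ ((gm v + q + (X + mm) : ℕ) : ℝ) := by
    push_cast
    linarith only [g2, yv1, q2, x2, m2]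
  have hnb3 : Nv 0 * J + X ≤ nb * J := by
    have := mul_le_mul_of_nonneg_right N.b2 hJ0
    linarith only [this, x1]
  have AL : AvL F c v q ⌊w * J⌋₊ W X mm K (K + 1) ks nn gm (fun l => ⌊n l * J⌋₊)
      (fun l => ⌊n' l * J⌋₊) B G H zw (ycL F c r₀ v ⌊w * J⌋₊ (K + 1) H (fun l => ⌊n l * J⌋₊)
        (fun l => ⌊n' l * J⌋₊) (nd n n' w) (y J F)) zj zx
      (Pool.Agent.H49.Ent.cond F.p B True) (Df v) (Dn v) (Dx v) (fun j' => nt v - (j' : ℝ) * w)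
      Nv Ef En U (nb * J) (eT v (K + 1) (K + 2) (2 ^ (t * J)) ((η + t) * J)) := by
    refine CE.avl (ρ := 2 ^ (t * J)) hη'0 N.rv hw0 N.c2 hn0 N.ns N.xs N.ds N.dv
      (fun l l0 l1 => ?_) rfl (by positivity) hNtJ hcl hsup (by rw [← hwn]; exact wW) WJ Lb.deg
      le_rfl hKX Lb.cls (by rw [hq, hX]; exact grd) hks hmU ?_ hcn hcv
      (fun ω ν _ _ e => zj2 _ _ (chs_cl2 hjJ hGj) ω ν e)
      (fun ω ν _ _ e => zx2 _ _ (chs_cl2 hxJ hGx) ω ν e)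
      (fun ω ν _ _ e => zx2 _ _ (cl2_up C.wx hxJ zw1) ω ν e)
      ?_ hDn ?_ hDx ?_ hDu ?_ ?_ ?_ ?_ ?_ ?_ ?_
    · rcases Nat.lt_or_ge l v with h1 | h1
      · exact N.us l l0 h1
      · have h2 : l = v := by omega
        subst h2
        have h3 := N.u0
        have h4 := N.c0 l le_rfl
        have h5 := N.ps l (by omega)
        linarith only [h3, h4, h5.2, hξ, hμ0]
    · intro ω ν hω hν e
      obtain ⟨ψ, hψ⟩ := zw1.2
      rw [hψ ω (hsup ω hω), hψ ν (hsup ν hν)]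
      exact congrArg ψ e
    · push_cast
      linarith only [d1, yv1, q2]
    · push_cast
      linarith only [d3, yv1, q2]
    · push_cast
      linarith only [d5, yv1, q2]
    · push_cast
      linarith only [d7, yt1, q2]
    · push_cast
      linarith only [d8, yt1, q2, W2]
    · have := mul_le_mul_of_nonneg_right N.mf hJ0
      push_cast
      linarith only [this, yt2, q1, x1]
    · have := mul_le_mul_of_nonneg_right N.f0 hJ0
      push_cast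
      linarith only [this, yv2, q1, x1, m1]
    · push_cast
      linarith only [d9, yv2, q1, x1, m1, W1]
    · have := mul_le_mul_of_nonneg_right N.v0 hJ0
      push_cast
      linarith only [this, yv2, q1]
    · push_cast
      linarith only [g1, yv2, q1, x1, m1, W1]
  -- the numbers
  obtain ⟨e, he⟩ : ∃ e : ℝ, e = eT v (K + 1) (K + 2) (2 ^ (t * J)) ((η + t) * J) := ⟨_, rfl⟩
  obtain ⟨f1, f2⟩ := cE0_le (v := v) (K := K + 1) hU0 hU hμ0.le hJ0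
  have f3 := eT_le (v := v) (K := K + 1) (M := K + 2) ht0.le hJ0 hη'
  have f4 := le_eT (v := v) (K := K + 1) (M := K + 2) (ρ := 2 ^ (t * J)) hη'0 (by positivity)
  rw [← he] at f3 f4 AL
  have hμJ : μ * J ≤ t * J := mul_le_mul_of_nonneg_right hμ hJ0
  have hcT := cT_nonneg v (K + 1) (K + 2)
  have hfX : κ * ξ * J / 4 ≤ (⌊κ * X⌋₊ : ℝ) := by
    have k1 := (Nat.lt_floor_add_one (κ * X)).le
    have k2 := mul_le_mul_of_nonneg_left X2 a3.le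
    have k3 : κ * (ξ * J / 2) = κ * ξ * J / 4 + κ * ξ / 4 * J := by ring
    linarith only [k1, k2, k3, b5]
  have hT' : 4 * e + cE0 1 (K + 1) (U + 8 * (v + 1 : ℕ) * U) + cV (K + 1) ≤
      A * (t * J) + C₅ := by
    have k1 := le_abs_self (cG v (K + 1))
    rw [hA, hC₅]
    linarith only [f1, f3, hμJ, k1, hcT]
  obtain ⟨c1, c2, c3, c4, c5⟩ := c1_fin (J := J) (X := X) (mm := mm) (fX := ⌊κ * X⌋₊)
    (T := 4 * e + cE0 1 (K + 1) (U + 8 * (v + 1 : ℕ) * U) + cV (K + 1))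
    (cRv := cR 1 (K + 1) (U + 8 * (v + 1 : ℕ) * U + 2))
    (R₀ := (1 - h) * ⌊κ * X⌋₊ * Real.log 2 + 2 * (t * J) + (2 * (t * J)) / π₀ + C₉)
    (C₇ := C₇) a6 a3 a5 hh hξ hθ0 ht hA0 hJ0 X2 mt hfX hT'
    (by rw [hC₇]; linarith only [f2, hμJ]) le_rfl hθ3 hθ2 hθ4 b3 b4 hC₅0
  have hψe : t * J ≤ e := by
    have : 0 ≤ η * J := by positivity
    linarith only [f4, this]
  -- the rows
  have hrow : ∀ a : ℕ, a + ⌊κ * X⌋₊ ≤ X → ∀ E' : Set F.Ω,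
      π₀ ≤ Pr (Pool.Agent.H49.Ent.cond F.p B True) E' →
      CH (rs (Pool.Agent.H49.Ent.cond F.p B True) E')
        (Mh F c (v + 1) ⌊w * J⌋₊ H (gm (v + 1) + q + (a + ⌊κ * X⌋₊)))
        (fun ω => (Mh F c (v + 1) ⌊w * J⌋₊ H (gm (v + 1) + q + a) ω,
          (Vh F c v ⌊w * J⌋₊ H (nb * J) ω, (F.T ω, zxs F c 0 W zw (sdL F c v ⌊w * J⌋₊ (K + 1) H
            (fun l => ⌊n l * J⌋₊) (fun l => ⌊n' l * J⌋₊)) ω)))) ≤
        (1 - h) * ⌊κ * X⌋₊ * Real.log 2 + 2 * (t * J) + (2 * (t * J)) / π₀ + C₉ := by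
    intro a ha E' hE'
    obtain ⟨B', hB'⟩ : ∃ B' : F.Ω → Prop, B' = fun ω => B ω ∧ ω ∈ E' := ⟨_, rfl⟩
    have r1 : rs (Pool.Agent.H49.Ent.cond F.p B True) E' =
        Pool.Agent.H49.Ent.cond F.p B' True := by
      rw [hB']
      exact Pool.RPL.cond_and_ev F.p (E := fun ω => ω ∈ E') hPB.ne'
    have r2 : π₀ * Pe F.p B ≤ Pe F.p B' := by
      have k1 : Pr (Pool.Agent.H49.Ent.cond F.p B True) E' = Pe F.p B' / Pe F.p B := by
        rw [hB']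
        exact Pe_cond (fun ω => ω ∈ E')
      rw [k1, le_div_iff₀ hPB] at hE'
      exact hE'
    have r3 : Sub B' B := fun ω hω => by
      rw [hB'] at hω
      exact hω.1
    have hPB' : 0 < Pe F.p B' := lt_of_lt_of_le (by positivity) r2
    have hcl' := isLaw_cond F.isLaw hPB'
    -- the grid
    obtain ⟨N₁, hN₁⟩ : ∃ N₁ : ℕ, N₁ = gm (v + 1) + q + a := ⟨_, rfl⟩
    obtain ⟨N₂, hN₂⟩ : ∃ N₂ : ℕ, N₂ = gm (v + 1) + q + (a + ⌊κ * X⌋₊) := ⟨_, rfl⟩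
    have hJp : (0 : ℝ) < J := by exact_mod_cast hJ1
    have hτ : 0 < t / 2 := by positivity
    have n1 : (N₁ : ℝ) = gm (v + 1) + q + a := by rw [hN₁]; push_cast; ring
    have n2 : (N₂ : ℝ) = N₁ + (⌊κ * X⌋₊ : ℝ) := by rw [hN₂, hN₁]; push_cast; ring
    have na : (0 : ℝ) ≤ a := Nat.cast_nonneg a
    have haX : (a : ℝ) + (⌊κ * X⌋₊ : ℝ) ≤ X := by exact_mod_cast ha
    obtain ⟨k, hk⟩ : ∃ k : ℕ, k = ⌊(N₁ : ℝ) / (t / 2 * J)⌋₊ := ⟨_, rfl⟩
    obtain ⟨k', hk'⟩ : ∃ k' : ℕ, k' = ⌈(N₂ : ℝ) / (t / 2 * J)⌉₊ := ⟨_, rfl⟩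
    have hden : 0 < t / 2 * J := by positivity
    have s1 : t / 2 * k * J ≤ N₁ := by
      have k1 : (k : ℝ) ≤ (N₁ : ℝ) / (t / 2 * J) := by
        rw [hk]
        exact Nat.floor_le (by positivity)
      rw [le_div_iff₀ hden] at k1
      linarith only [k1]
    have s2 : (N₁ : ℝ) ≤ t / 2 * k * J + t / 2 * J := by
      have k1 : (N₁ : ℝ) / (t / 2 * J) ≤ k + 1 := by
        rw [hk]
        exact (Nat.lt_floor_add_one _).le
      rw [div_le_iff₀ hden] at k1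
      linarith only [k1]
    have s3 : (N₂ : ℝ) ≤ t / 2 * k' * J := by
      have k1 : (N₂ : ℝ) / (t / 2 * J) ≤ k' := by
        rw [hk']
        exact Nat.le_ceil _
      rw [div_le_iff₀ hden] at k1
      linarith only [k1]
    have s4 : t / 2 * k' * J ≤ N₂ + t / 2 * J := by
      have k1 : (k' : ℝ) ≤ (N₂ : ℝ) / (t / 2 * J) + 1 := by
        rw [hk']
        exact (Nat.ceil_lt_add_one (by positivity)).le
      have k2 := mul_le_mul_of_nonneg_right k1 hden.le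
      have k3 : ((N₂ : ℝ) / (t / 2 * J) + 1) * (t / 2 * J) = N₂ + t / 2 * J := by
        field_simp
      linarith only [k2, k3]
    have hfX0 : (0 : ℝ) ≤ (⌊κ * X⌋₊ : ℝ) := Nat.cast_nonneg _
    have s5 : t / 2 * (k : ℝ) ≤ t / 2 * k' := by
      have k1 : t / 2 * (k : ℝ) * J ≤ t / 2 * k' * J := by linarith only [s1, s3, n2, hfX0]
      exact le_of_mul_le_mul_right k1 hJp
    have s6 : lo ≤ t / 2 * k := by
      have k1 : lo * J ≤ t / 2 * k * J := by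
        have k2 := mul_le_mul_of_nonneg_right hlo hJ0
        linarith only [k2, s2, n1, na, yt1, q2, b9]
      exact le_of_mul_le_mul_right k1 hJp
    have s7 : t / 2 * k' ≤ hi := by
      have k1 : t / 2 * k' * J ≤ hi * J := by
        have k2 := mul_le_mul_of_nonneg_right hhi hJ0
        linarith only [k2, s4, n2, n1, haX, x1, yt2, q1, tJ0]
      exact le_of_mul_le_mul_right k1 hJp
    have s8 : k' < Kg := by
      have k1 : (k' : ℝ) ≤ hi / (t / 2) := by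
        rw [le_div_iff₀ hτ]
        linarith only [s7]
      have k2 : (k' : ℝ) ≤ (⌈hi / (t / 2)⌉₊ : ℝ) := k1.trans (Nat.le_ceil _)
      have k3 : k' ≤ ⌈hi / (t / 2)⌉₊ := by exact_mod_cast k2
      omega
    have s9 : k < Kg := by
      have k1 : (k : ℝ) ≤ k' := le_of_mul_le_mul_left s5 hτ
      have k2 : k ≤ k' := by exact_mod_cast k1
      omega
    have rw1 := CH1.rows Lb hR hw0 (by linarith only [hw1, hδ]) hJ1 zw1 zw2 s9 s8 s6 s5 s7 r3 r2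
    have yf := CE.yfew (W := W) (D := K) hcl N.rv hw0 (by rw [← hwn]; exact wW) WJ Lb.deg le_rfl
    have yf' := Pool.OWN83.ch_part F.isLaw r3 hPB a5 r2 (y J F) _
      (e := (2 * v * cS (K + 1) + (η + t) * J) / π₀) (by
        refine yf.trans (le_of_eq ?_)
        field_simp)
    have ev := row_ev (y := y J F) (zw := zw) (r₀ := r₀) (nc := fun l => ⌊n l * J⌋₊)
      (nc' := fun l => ⌊n' l * J⌋₊) (c := c) (v := v) (K := K + 1) (D := K) (H := H) (W := W)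
      hcl' (w := ⌊w * J⌋₊) (by rw [← hwn]; exact hwJ) WJ Lb.deg le_rfl (n := n) (nb := nb)
      (P₁ := t / 2 * k) (P₂ := t / 2 * k') (N₁ := N₁) (N₂ := N₂)
      (fun l _ => (Nat.lt_floor_add_one _).le) s1 s3
    rw [r1, ← hN₁, ← hN₂]
    refine ev.trans ?_
    have t1 : (1 - h) * (t / 2 * k' - t / 2 * k) * Real.log 2 * J ≤
        (1 - h) * (⌊κ * X⌋₊ : ℝ) * Real.log 2 + t * J := by
      have k1 : (t / 2 * k' - t / 2 * k) * J ≤ (⌊κ * X⌋₊ : ℝ) + t * J := by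
        linarith only [s4, s2, n2]
      have l1 := log2_le
      have l2 := log2_ge
      have k2 : 0 ≤ (1 - h) * Real.log 2 := mul_nonneg (by linarith only [hh1])
        (by linarith only [l2])
      have k3 : (1 - h) * Real.log 2 ≤ 1 := by
        have := mul_le_mul (show 1 - h ≤ 1 by linarith only [hh]) l1 (by linarith only [l2])
          zero_le_one
        linarith only [this]
      have k4 := mul_le_mul_of_nonneg_left k1 k2
      have k5 := mul_le_mul_of_nonneg_right k3 tJ0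
      linarith only [k4, k5]
    have t2 : (2 * v * cS (K + 1) + (η + t) * J) / π₀ ≤
        2 * v * cS (K + 1) / π₀ + (2 * (t * J)) / π₀ := by
      rw [← add_div]
      exact div_le_div_of_nonneg_right (by linarith only [hη']) a5.le
    have t3 : η * J ≤ t * J := mul_le_mul_of_nonneg_right hη hJ0
    rw [hC₉]
    linarith only [rw1, yf', t1, t2, t3]
  have hXX : X₀ ≤ X := by
    have : (X₀ : ℝ) ≤ X := by
      have k1 : (0 : ℝ) ≤ ((K + 1 : ℕ) : ℝ) := Nat.cast_nonneg _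
      linarith only [b2, X2, k1]
    exact_mod_cast this
  obtain ⟨mu, o1, o2, o3⟩ := Hm AL hnb1 hnb2 hnb3 hrow hT hXX WX hψe c4 c3 c1 c2 c5
  rw [← hX]
  exact ⟨mu, o1, o2, o3⟩

end Pool.AVG57
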