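import Pool.Agent.H57.AVG.C1d
import Pool.Agent.H91.LA.Own

/-!
# Labels on one event: the quantities; the rows

`LbsE`: closed charts with coefficient bounds. `LbsE.jet`, `LbsE.jets`, `LbsE.pr`: the digits of the
own jets are functions for the quantities `qJet`, `qJets`, `prQ`. `row_ev`: the rows on the parts.
-/

set_option autoImplicit false

namespace Pool.AVG57

open Finset Real MvPolynomial
open Pool.Agent.H49.Ent Pool.Agent.H32.Dense Pool.STK Pool.KA Pool.KSAT Pool.K2S Pool.PB Pool.S6C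
open Pool.GEN Pool.CHT Pool.CHX Pool.ISO Pool.RCD Pool.LA91 Pool.AVG71 Pool.AVG5 Pool.D2F2
open Pool.AVG96 (jetQ prQ)
open Pool.GRD (LbP)
open Pool.PB.Trl (rt rt_mem t_rt)
open Pool.D2R (hgt gnh GrdE chs)
open Pool.KVA (MI)
open Pool.KAF (rs Pr)
open Pool.BFL (Pb)

variable {m J : ℕ}

/-- **Closed charts on one event**, of precisions `γ l`, with coefficient bounds. -/
structure LbsE (F : Fam m J) (c : ℕ → Fin m) (v K : ℕ) (w : ℝ) (p s : ℕ → ℝ) (E : ℝ)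
    (γ : ℕ → ℕ) (B : F.Ω → Prop) (G₀ : PtT F → ℕ → MvPolynomial (Option (Fin m)) ℝ)
    (H : LnT F → ℕ → MvPolynomial (Option (Fin m)) ℝ) : Prop where
  deg : ∀ s l, (H s l).totalDegree ≤ K
  dep : ∀ s l, DepC c l (H s l)
  cls : Clsd F (v + 2) ⌊w * J⌋₊ B G₀ H
  pos : ∀ ω, B ω → ∀ l ≤ v + 1, |hgt F c G₀ ω l| ≤ 1 / 2 ^ γ l
  lo : ∀ l ≤ v + 1, ⌊p l * J⌋₊ ≤ γ l
  hi : ∀ l ≤ v + 1, (γ l : ℝ) ≤ s l * J
  co : ∀ ω, B ω → ∀ l ≤ v + 1, ∀ b, |(dv ⌊w * J⌋₊ (fun s (_ : Fin m) => H s l) (c l)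
    (slam F ⌊w * J⌋₊ ω)).coeff b| ≤ 2 ^ (E * J)

/-- The number of the values. -/
noncomputable def kq (R E : ℝ) (M K : ℕ) : ℕ :=
  max K ⌈(|R| + M + |E|) * Real.log 2 +
    Real.log (2 * (M.factorial * ((K + 2) * 2 ^ (K + 1))) + 3)⌉₊

section

variable {F : Fam m J} {c : ℕ → Fin m} {v K : ℕ} {w : ℝ} {p s : ℕ → ℝ} {E : ℝ} {γ : ℕ → ℕ}
  {B : F.Ω → Prop} {G₀ : PtT F → ℕ → MvPolynomial (Option (Fin m)) ℝ}
  {H : LnT F → ℕ → MvPolynomial (Option (Fin m)) ℝ}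

namespace LbsE

/-- The label of one place. -/
theorem lb (L : LbsE F c v K w p s E γ B G₀ H) {l : ℕ} (hl : l ≤ v + 1) {e : ℝ} (he : 0 ≤ e) :
    LbP F ((range l).image c) (c l) K J ⌊w * J⌋₊ ⌊(p l - e) * J⌋₊ B (fun a => G₀ a l)
      (fun s => H s l) (nfp K ((range l).image c)) ∧
      ∀ s, nfp K ((range l).image c) (H s l) = H s l := by
  classical
  have hn : ∀ s, nfp K ((range l).image c) (H s l) = H s l := fun s => by
    unfold Pool.LA91.nfp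
    refine if_pos ⟨L.deg s l, fun b b' h1 h2 => L.dep s l b b' h1 fun j hj => ?_⟩
    exact h2 (c j) (Finset.mem_image.2 ⟨j, Finset.mem_range.2 hj, rfl⟩)
  refine ⟨⟨fun v => ?_, fun v b b' h1 h2 => ?_, fun ω hω => L.cls ω hω l (by omega),
    fun ω hω => ?_⟩, hn⟩
  · unfold Pool.LA91.nfp
    split_ifs with h1
    · exact h1.1
    · rw [totalDegree_zero]
      exact Nat.zero_le _
  · unfold Pool.LA91.nfp
    split_ifs with h3
    · exact h3.2 b b' h1 h2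
    · rw [map_zero, map_zero]
  · rw [hn]
    have h1 := L.pos ω hω l hl
    unfold Pool.D2R.hgt at h1
    rw [L.cls ω hω l (by omega)] at h1
    refine h1.trans (one_div_le_one_div_of_le (by positivity)
      (pow_le_pow_right₀ (by norm_num) ((Nat.floor_le_floor
        (mul_le_mul_of_nonneg_right (by linarith) (Nat.cast_nonneg J))).trans (L.lo l hl))))

/-- The bound of the own jets. -/
theorem ojb (L : LbsE F c v K w p s E γ B G₀ H) (hw : ⌊w * J⌋₊ ≤ J) {ω : F.Ω} (hω : B ω) {l : ℕ}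
    (hl : l ≤ v + 1) (a : ℕ) : |ojet F (c l) a (H (slam F ⌊w * J⌋₊ ω) l) ω| ≤
      (a.factorial * (2 ^ ⌊w * J⌋₊) ^ a) * (((K + 1 : ℕ) + 1) * 2 ^ (K + 1) * 2 ^ (E * J)) := by
  have hdeg : ∀ s : LnT F, (dv ⌊w * J⌋₊ (fun s (_ : Fin m) => H s l) (c l) s).natDegree ≤ K + 1 :=
    fun s => natDegree_dv _ (G := fun s (_ : Fin m) => H s l) (fun s _ => L.deg _ _) _ _
  have h1 := tay_coef (hdeg (slam F ⌊w * J⌋₊ ω)) (a := a) (s := rt F ⌊w * J⌋₊ ω)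
    (ε := 2 ^ (E * J)) (by rw [abs_of_nonneg (rt_mem F _ ω).1]; exact (rt_mem F _ ω).2)
    (by positivity) fun b _ => L.co ω hω l hl b
  have p1 : (0 : ℝ) < (a.factorial : ℝ) * (2 ^ ⌊w * J⌋₊) ^ a := by positivity
  rw [ojet_tay F hw ω (c l) (fun s (_ : Fin m) => H s l) a, abs_div, abs_of_pos p1,
    div_le_iff₀ p1] at h1
  linarith

/-- **The digits of one jet.** -/
theorem jet (L : LbsE F c v K w p s E γ B G₀ H) (hw0 : 0 ≤ w) (hw1 : w ≤ 1) (hJ : 1 ≤ J) {l : ℕ}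
    (hl : l ≤ v + 1) {a M : ℕ} (ha : a ≤ M) {N R : ℝ} (hN : |N| ≤ R) {e : ℝ} (he : 0 ≤ e)
    {u : F.Ω → ℤ} (hu : ∀ ω, B ω → u ω = ⌊(2 : ℝ) ^ (N * J) *
      ojet F (c l) a (H (slam F ⌊w * J⌋₊ ω) l) ω⌋) :
    (qJet m ((range l).image c) (c l) a w (p l) N).P (kq R E M K) e J F B u := by
  have hJ1 : (1 : ℝ) ≤ J := by exact_mod_cast hJ
  have hJ0 : (0 : ℝ) ≤ J := by linarith
  have hR : 0 ≤ R := (abs_nonneg N).trans hN
  have hwJ : w * J ≤ J := by nlinarith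
  have hfl : (⌊w * J⌋₊ : ℝ) ≤ J := (Nat.floor_le (by positivity)).trans hwJ
  have hw : ⌊w * J⌋₊ ≤ J := by exact_mod_cast hfl
  obtain ⟨h1, h2⟩ := L.lb hl he
  refine ⟨?_, _, _, _, _, h1.mono (Finset.Subset.refl _) (le_max_left _ _) le_rfl,
    fun ω hω => by rw [h2]; exact hu ω hω⟩
  obtain ⟨Q, hQ⟩ : ∃ Q : ℝ, Q = M.factorial * ((K + 2) * 2 ^ (K + 1)) := ⟨_, rfl⟩
  have hQ0 : 0 ≤ Q := by rw [hQ]; positivity
  obtain ⟨A, hA⟩ : ∃ A : ℝ, A = (|R| + M + |E|) * Real.log 2 := ⟨_, rfl⟩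
  have hl2 : 0 < Real.log 2 := Real.log_pos one_lt_two
  have hA0 : 0 ≤ A := by rw [hA]; positivity
  have hbd : ∀ ω, B ω → |(u ω : ℝ)| ≤ Q * Real.exp (A * J) + 1 := by
    intro ω hω
    rw [hu ω hω]
    have g1 : |(2 : ℝ) ^ (N * J) * ojet F (c l) a (H (slam F ⌊w * J⌋₊ ω) l) ω| ≤
        Q * Real.exp (A * J) := by
      have p3 : (0 : ℝ) < (2 : ℝ) ^ (N * J) := Real.rpow_pos_of_pos two_pos _
      rw [abs_mul, abs_of_pos p3]
      have e1 : ((2 : ℝ) ^ ⌊w * J⌋₊) ^ a ≤ 2 ^ ((M : ℝ) * J) := by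
        rw [← pow_mul, ← Real.rpow_natCast]
        refine Real.rpow_le_rpow_of_exponent_le one_le_two ?_
        push_cast
        have : (a : ℝ) ≤ M := by exact_mod_cast ha
        calc (⌊w * J⌋₊ : ℝ) * a ≤ J * M := mul_le_mul hfl this (Nat.cast_nonneg _) hJ0
          _ = M * J := mul_comm _ _
      have e2 : (2 : ℝ) ^ (N * J) ≤ 2 ^ (|R| * J) := Real.rpow_le_rpow_of_exponent_le one_le_two
        (mul_le_mul_of_nonneg_right (((le_abs_self N).trans hN).trans (le_abs_self R)) hJ0)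
      have e3 : (2 : ℝ) ^ (E * J) ≤ 2 ^ (|E| * J) := Real.rpow_le_rpow_of_exponent_le one_le_two
        (mul_le_mul_of_nonneg_right (le_abs_self E) hJ0)
      have e4 : ((a.factorial : ℕ) : ℝ) ≤ M.factorial := by exact_mod_cast Nat.factorial_le ha
      have e5 : (2 : ℝ) ^ (|R| * J) * 2 ^ ((M : ℝ) * J) * 2 ^ (|E| * J) = Real.exp (A * J) := by
        rw [← Real.rpow_add two_pos, ← Real.rpow_add two_pos, Real.rpow_def_of_pos two_pos, hA]
        congr 1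
        ring
      calc _ ≤ (2 : ℝ) ^ (N * J) * ((a.factorial * (2 ^ ⌊w * J⌋₊) ^ a) *
            (((K + 1 : ℕ) + 1) * 2 ^ (K + 1) * 2 ^ (E * J))) :=
            mul_le_mul_of_nonneg_left (L.ojb hw hω hl a) p3.le
        _ ≤ 2 ^ (|R| * J) * ((M.factorial * 2 ^ ((M : ℝ) * J)) *
            (((K + 1 : ℕ) + 1) * 2 ^ (K + 1) * 2 ^ (|E| * J))) := by gcongr
        _ = Q * (2 ^ (|R| * J) * 2 ^ ((M : ℝ) * J) * 2 ^ (|E| * J)) := by
            rw [hQ]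
            push_cast
            ring
        _ = _ := by rw [e5]
    have g2 := floor_near' (x := (2 : ℝ) ^ (N * J) * ojet F (c l) a
      (H (slam F ⌊w * J⌋₊ ω) l) ω) (y := 0) (D := Q * Real.exp (A * J))
      (by rw [sub_zero]; exact g1)
    simpa using g2
  have h3 := cnt_le_of_abs (p := F.p) (by positivity) hbd
  refine h3.trans ?_
  have h4 : 1 ≤ Real.exp (A * J) := Real.one_le_exp (by positivity)
  have h5 : 2 * (Q * Real.exp (A * J) + 1) + 1 ≤ (2 * Q + 3) * Real.exp (A * J) := by nlinarith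
  refine h5.trans ?_
  have hQ3 : (1 : ℝ) ≤ 2 * Q + 3 := by linarith
  have hlQ : 0 ≤ Real.log (2 * Q + 3) := Real.log_nonneg hQ3
  have h6 : (2 * Q + 3) * Real.exp (A * J) = Real.exp (Real.log (2 * Q + 3) + A * J) := by
    rw [Real.exp_add, Real.exp_log (by linarith)]
  rw [h6]
  refine Real.exp_le_exp.2 ?_
  have h7 : A + Real.log (2 * Q + 3) ≤ (kq R E M K : ℝ) := by
    have h8 : A + Real.log (2 * Q + 3) ≤ (⌈A + Real.log (2 * Q + 3)⌉₊ : ℝ) := Nat.le_ceil _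
    refine h8.trans ?_
    have h9 : ⌈A + Real.log (2 * Q + 3)⌉₊ ≤ kq R E M K := by
      unfold kq
      rw [← hA, ← hQ]
      exact le_max_right _ _
    exact_mod_cast h9
  have h10 : Real.log (2 * Q + 3) ≤ Real.log (2 * Q + 3) * J := by nlinarith
  calc Real.log (2 * Q + 3) + A * J ≤ (A + Real.log (2 * Q + 3)) * J := by linarith
    _ ≤ _ := mul_le_mul_of_nonneg_right h7 hJ0

/-- **The digits of the jets of the chain.** -/
theorem jets (L : LbsE F c v K w p s E γ B G₀ H) (hw0 : 0 ≤ w) (hw1 : w ≤ 1) (hJ : 1 ≤ J)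
    {r₀ r a M : ℕ} (hr : r ≤ v + 2) (ha : a ≤ M) {N : ℕ → ℕ → ℝ} {R : ℝ}
    (hN : ∀ l, r₀ ≤ l → l < r → ∀ j' ≤ a, |N l j'| ≤ R) {e : ℝ} (he : 0 ≤ e) :
    (qJets m c r₀ r a (fun _ _ => w) (fun l _ => p l) N).P (kq R E M K) e J F B
      (jetM F c ⌊w * J⌋₊ H r₀ r a N) := by
  refine ⟨fun i i0 i1 j' hj' => ?_, fun ω _ i j' h => ?_⟩
  · refine L.jet hw0 hw1 hJ (by omega) (hj'.trans ha) (hN i i0 i1 j' hj') he fun ω _ => ?_
    unfold jetM
    rw [if_pos ⟨i0, i1, hj'⟩]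
  · unfold jetM
    rw [if_neg h]

theorem jets1 (L : LbsE F c v K w p s E γ B G₀ H) (hw0 : 0 ≤ w) (hw1 : w ≤ 1) (hJ : 1 ≤ J)
    {r₀ r M : ℕ} (hr : r ≤ v + 2) (ha : 1 ≤ M) {N : ℕ → ℕ → ℝ} {R : ℝ}
    (hN : ∀ l, r₀ ≤ l → l < r → ∀ j' ≤ 1, |N l j'| ≤ R) {e : ℝ} (he : 0 ≤ e) :
    (jetQ m c r₀ r w p N).P (kq R E M K) e J F B (jet2 F c ⌊w * J⌋₊ H r₀ r N) :=
  L.jets hw0 hw1 hJ hr ha hN he

/-- Position and velocity. -/
theorem pr (L : LbsE F c v K w p s E γ B G₀ H) (hw0 : 0 ≤ w) (hw1 : w ≤ 1) (hJ : 1 ≤ J)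
    {l M : ℕ} (hl : l ≤ v + 1) (ha : 1 ≤ M) {N : ℕ → ℝ} {R : ℝ}
    (hN : ∀ j' ≤ 1, |N j'| ≤ R) {e : ℝ} (he : 0 ≤ e) :
    (prQ m c l w (p l) N).P (kq R E M K) e J F B (pr2 F c ⌊w * J⌋₊ H l N) :=
  ⟨L.jet hw0 hw1 hJ hl (Nat.zero_le M) (hN 0 (by norm_num)) he fun _ _ => rfl,
    L.jet hw0 hw1 hJ hl ha (hN 1 le_rfl) he fun _ _ => rfl⟩

end LbsE

end

/-! ### The rows -/

/-- The constant of the rows. -/
noncomputable def cRw (v K : ℕ) : ℝ := 2 * Real.log (2 * 2 + 1) + (v + 1) * cS K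

section

variable {F : Fam m J} {c : ℕ → Fin m} {r₀ v K D W w : ℕ}
  {H : LnT F → ℕ → MvPolynomial (Option (Fin m)) ℝ} {ζ υ : Type} {zw : F.Ω → ζ} {y : F.Ω → υ}
  {p : F.Ω → ℝ} {nc nc' : ℕ → ℕ}

/-- **The rows** in the context of the average, for one law. -/
theorem row_ev (hp : IsLaw p) (hw : w ≤ J) (WJ : W ≤ J) (hH : ∀ s l, (H s l).totalDegree ≤ D)
    (hK : D + 1 ≤ K) {n : ℕ → ℝ} {nb P₁ P₂ : ℝ} {N₁ N₂ : ℕ}
    (hn : ∀ l < v, n l * J ≤ nc l + 1) (h1 : P₁ * J ≤ N₁) (h2 : (N₂ : ℝ) ≤ P₂ * J) :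
    CH p (Mh F c (v + 1) w H N₂) (fun ω => (Mh F c (v + 1) w H N₁ ω,
      (Vh F c v w H (nb * J) ω, (F.T ω, zxs F c 0 W zw (sdL F c v w K H nc nc') ω)))) ≤
      CH p (fun ω => ⌊(2 : ℝ) ^ (P₂ * J) * ojet F (c (v + 1)) 0 (H (slam F w ω) (v + 1)) ω⌋)
        (fun ω => (⌊(2 : ℝ) ^ (P₁ * J) * ojet F (c (v + 1)) 0 (H (slam F w ω) (v + 1)) ω⌋,
          (jetM F c w H r₀ (v + 1) 0 (fun l _ => if l = v then nb else n l) ω,
            (zw ω, y ω)))) +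
      CH p y (fun ω => (rt F W ω, zxs F c 0 W zw (sdL F c v w K H nc nc') ω)) + cRw v K := by
  have h0 := hp.nonneg
  have key : ∀ {x x' s s' : ℝ}, 0 < s → 0 ≤ s' → s' ≤ s → ⌊s * x⌋ = ⌊s * x'⌋ →
      |((⌊s' * x⌋ : ℤ) : ℝ) - ⌊s' * x'⌋| ≤ 2 := by
    intro x x' s s' hs hs' hss e
    have g1 := near_of_floor hs e
    have g2 : |s' * x - s' * x'| ≤ 1 := by
      rw [← mul_sub, abs_mul, abs_of_nonneg hs']
      calc s' * |x - x'| ≤ s * (1 / s) := mul_le_mul hss g1 (abs_nonneg _) hs.le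
        _ = 1 := by field_simp
    have g3 := floor_near' g2
    linarith
  obtain ⟨W₀, hW₀⟩ : ∃ W₀ : F.Ω → ℤ × (ℤ × (ℕ × (ζ × ((F.ζ × ℕ) × ((Fin 0 → ℝ × ℝ) ×
    (Fin (v + 1) → (Fin (K + 1) → ℤ) × (Fin (K + 1) → ℤ))))))), W₀ = fun ω =>
    (Mh F c (v + 1) w H N₁ ω, (Vh F c v w H (nb * J) ω,
      (F.T ω, zxs F c 0 W zw (sdL F c v w K H nc nc') ω))) := ⟨_, rfl⟩
  rw [← hW₀]
  -- the digits of the target, finer
  have b1 : CH p (Mh F c (v + 1) w H N₂)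
      (fun ω => (⌊(2 : ℝ) ^ (P₂ * J) * ojet F (c (v + 1)) 0 (H (slam F w ω) (v + 1)) ω⌋, W₀ ω)) ≤
      Real.log (2 * 2 + 1) := by
    refine CH_pair_int hp _ _ (by norm_num) fun ω ν _ _ e => ?_
    have e1 := (Prod.ext_iff.mp e).1
    unfold Mh
    refine key (Real.rpow_pos_of_pos two_pos (P₂ * J)) (by positivity) ?_ e1
    rw [← Real.rpow_natCast]
    exact Real.rpow_le_rpow_of_exponent_le one_le_two h2
  have b2 : CH p (fun ω => ⌊(2 : ℝ) ^ (P₁ * J) * ojet F (c (v + 1)) 0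
      (H (slam F w ω) (v + 1)) ω⌋) W₀ ≤ Real.log (2 * 2 + 1) := by
    refine CH_pair_int hp _ _ (by norm_num) fun ω ν _ _ e => ?_
    rw [hW₀] at e
    have e1 := (Prod.ext_iff.mp e).1
    unfold Mh at e1
    refine key (s := (2 : ℝ) ^ N₁) (by positivity) (by positivity) ?_ e1
    rw [← Real.rpow_natCast]
    exact Real.rpow_le_rpow_of_exponent_le one_le_two h1
  -- the heights of the chain
  have b3 : CH p (jetM F c w H r₀ (v + 1) 0 (fun l _ => if l = v then nb else n l)) W₀ ≤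
      (v + 1) * cS K := by
    have k1 := CH_near hp (fun ω (i : Fin (v + 1)) => jetM F c w H r₀ (v + 1) 0
      (fun l _ => if l = v then nb else n l) ω i 0) W₀ (D := 2 * ((K + 1) * 2 ^ K) + 1)
      (by positivity) fun ω ν hω hν e i => ?_
    · refine (CH_mono_left h0 fun ω ν _ _ e => ?_).trans (k1.trans (le_of_eq ?_))
      · have e1 := (Prod.ext_iff.mp e).1
        funext l j'
        by_cases h : r₀ ≤ l ∧ l < v + 1 ∧ j' ≤ 0
        · have hj : j' = 0 := by omega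
          rw [hj]
          exact congrFun e1 ⟨l, h.2.1⟩
        · unfold jetM
          rw [if_neg h, if_neg h]
      · rw [Fintype.card_fin]
        unfold cS
        push_cast
        ring
    · rw [hW₀] at e
      obtain ⟨-, e2⟩ := Prod.ext_iff.mp e
      obtain ⟨e3, e4⟩ := Prod.ext_iff.mp e2
      obtain ⟨e5, e6⟩ := Prod.ext_iff.mp e4
      obtain ⟨-, e8⟩ := AvL.eqz e6
      unfold jetM
      by_cases h : r₀ ≤ (i : ℕ) ∧ (i : ℕ) < v + 1 ∧ 0 ≤ 0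
      swap
      · rw [if_neg h, if_neg h, sub_self, abs_zero]
        positivity
      rw [if_pos h, if_pos h]
      dsimp only
      rcases Nat.lt_or_ge (i : ℕ) v with hi | hi
      · rw [if_neg hi.ne]
        refine floor_near' ?_
        have g1 := ojet_near F hw (natDegree_dvH (c := c) (w := w) hH hK i) (rt_of F hw e5)
          (a := 0) (δ := 1 / 2 ^ nc i) (by positivity) fun b hb hbK =>
            cod_near (sdL_fst e8 hi) hb hbK
        simp only [Nat.factorial_zero, Nat.cast_one, pow_zero, mul_one, one_mul] at g1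
        have p3 : (0 : ℝ) < (2 : ℝ) ^ (n i * J) := Real.rpow_pos_of_pos two_pos _
        rw [← mul_sub, abs_mul, abs_of_pos p3]
        have g2 : (2 : ℝ) ^ (n i * J) ≤ 2 ^ nc i * 2 := by
          rw [← pow_succ, ← Real.rpow_natCast]
          refine Real.rpow_le_rpow_of_exponent_le one_le_two ?_
          push_cast
          exact hn i hi
        calc _ ≤ (2 : ℝ) ^ nc i * 2 * ((K + 1) * 2 ^ K * (1 / 2 ^ nc i)) :=
              mul_le_mul g2 g1 (abs_nonneg _) (by positivity)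
          _ = 2 * ((K + 1) * 2 ^ K) := by field_simp
      · have hi' : (i : ℕ) = v := by omega
        rw [if_pos hi']
        have e9 : ⌊(2 : ℝ) ^ (nb * J) * ojet F (c i) 0 (H (slam F w ω) i) ω⌋ =
            ⌊(2 : ℝ) ^ (nb * J) * ojet F (c i) 0 (H (slam F w ν) i) ν⌋ := by
          rw [hi']
          exact e3
        rw [e9, sub_self, abs_zero]
        positivity
  have b4 : CH p y W₀ ≤ CH p y (fun ω => (rt F W ω,
      zxs F c 0 W zw (sdL F c v w K H nc nc') ω)) := by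
    refine CH_mono_cond h0 fun ω ν _ _ e => ?_
    rw [hW₀] at e
    obtain ⟨-, e2⟩ := Prod.ext_iff.mp e
    obtain ⟨e3, e4⟩ := Prod.ext_iff.mp e2
    obtain ⟨e5, e6⟩ := Prod.ext_iff.mp e4
    exact Prod.ext (rt_of F WJ e5) e6
  have c1 := CH_via h0 (Mh F c (v + 1) w H N₂) (fun ω => ⌊(2 : ℝ) ^ (P₂ * J) *
    ojet F (c (v + 1)) 0 (H (slam F w ω) (v + 1)) ω⌋) (W := W₀) le_rfl b1 fun _ _ _ _ e => e
  have c2 := CH_subadd h0 (jetM F c w H r₀ (v + 1) 0 (fun l _ => if l = v then nb else n l)) y W₀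
  have c3 := CH_subadd h0 (fun ω => ⌊(2 : ℝ) ^ (P₁ * J) * ojet F (c (v + 1)) 0
      (H (slam F w ω) (v + 1)) ω⌋) (fun ω => (jetM F c w H r₀ (v + 1) 0
      (fun l _ => if l = v then nb else n l) ω, y ω)) W₀
  have c4 := CH_via h0 (fun ω => ⌊(2 : ℝ) ^ (P₂ * J) *
    ojet F (c (v + 1)) 0 (H (slam F w ω) (v + 1)) ω⌋) (fun ω => (⌊(2 : ℝ) ^ (P₁ * J) *
    ojet F (c (v + 1)) 0 (H (slam F w ω) (v + 1)) ω⌋, (jetM F c w H r₀ (v + 1) 0
      (fun l _ => if l = v then nb else n l) ω, y ω))) (W := W₀) (W' := fun ω =>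
      (⌊(2 : ℝ) ^ (P₁ * J) * ojet F (c (v + 1)) 0 (H (slam F w ω) (v + 1)) ω⌋,
          (jetM F c w H r₀ (v + 1) 0 (fun l _ => if l = v then nb else n l) ω,
            (zw ω, y ω)))) le_rfl le_rfl (fun ω ν _ _ e => by
      obtain ⟨e1, e2⟩ := Prod.ext_iff.mp e
      obtain ⟨e3, e4⟩ := Prod.ext_iff.mp e1
      obtain ⟨e5, e6⟩ := Prod.ext_iff.mp e4
      have e2' : W₀ ω = W₀ ν := e2
      rw [hW₀] at e2'
      obtain ⟨-, e7⟩ := Prod.ext_iff.mp e2'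
      obtain ⟨-, e8⟩ := Prod.ext_iff.mp e7
      obtain ⟨-, e9⟩ := Prod.ext_iff.mp e8
      have e10 : zw ω = zw ν := (Prod.ext_iff.mp e9).1
      exact Prod.ext e3 (Prod.ext e5 (Prod.ext e10 e6)))
  unfold cRw
  linarith

end

end Pool.AVG57
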