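import Pool.Agent.H57.AVG.Gde
import Pool.Agent.H57.AVG.Evg

/-!
# One moved place over exact base coordinates

`zxs`: the context: the record of `w`, the window `W`, the lines of the first `k₀` coordinates, and a
side path `sd`. `Vh`, `Mh`: digits of the own heights of the moved place and of the target. `av1_ev`:
the closed gradient of the target in the direction of the moved place, from the inputs `PrG` and the
rows of the own height of the target.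
-/

set_option autoImplicit false

namespace Pool.AVG57

open Finset Real MvPolynomial
open Pool.Agent.H49.Ent Pool.Agent.H32.Dense Pool.STK Pool.KA Pool.KSAT Pool.K2S Pool.PB Pool.S6C
open Pool.GEN Pool.CHT Pool.CHX Pool.ISO Pool.LA91 Pool.AVG71 Pool.AVG5 Pool.D2F2
open Pool.PB.Trl (rt rt_mem t_rt)
open Pool.D2R (hgt)
open Pool.KVA (MI)
open Pool.KAF (rs Pr)
open Pool.BFL (Pb)

variable {m J : ℕ}

/-- **The context** with a side path. -/
noncomputable def zxs (F : Fam m J) (c : ℕ → Fin m) (k₀ W : ℕ) {ζ σ : Type} (zw : F.Ω → ζ)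
    (sd : F.Ω → σ) (ω : F.Ω) : ζ × ((F.ζ × ℕ) × ((Fin k₀ → ℝ × ℝ) × σ)) :=
  (zw ω, ((slam F W ω).2, ((fun l => (F.u ω (c l), F.d ω (c l))), sd ω)))

/-- The digits of the own height of the moved place. -/
noncomputable def Vh (F : Fam m J) (c : ℕ → Fin m) (v w : ℕ)
    (H : LnT F → ℕ → MvPolynomial (Option (Fin m)) ℝ) (r : ℝ) (ω : F.Ω) : ℤ :=
  ⌊(2 : ℝ) ^ r * ojet F (c v) 0 (H (slam F w ω) v) ω⌋

/-- The digits of the own height of the target. -/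
noncomputable def Mh (F : Fam m J) (c : ℕ → Fin m) (i w : ℕ)
    (H : LnT F → ℕ → MvPolynomial (Option (Fin m)) ℝ) (n : ℕ) (ω : F.Ω) : ℤ :=
  ⌊(2 : ℝ) ^ n * ojet F (c i) 0 (H (slam F w ω) i) ω⌋

section

variable {F : Fam m J} {c : ℕ → Fin m} {k₀ k : ℕ} {mv : Fin k → ℕ} {i v q w W X mm : ℕ}
  {γ : ℕ → ℕ} {gg : F.Ω → Fin k → ℝ} {H : LnT F → ℕ → MvPolynomial (Option (Fin m)) ℝ}
  {ζ σ τ : Type} {zw : F.Ω → ζ} {sd : F.Ω → σ} {sy : F.Ω → τ} {p : F.Ω → ℝ}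

theorem zxs_T (p : F.Ω → ℝ) : Det p (zxs F c k₀ W zw sd) (F.T1 W) := by
  intro ω ν _ _ e
  exact (Prod.ext_iff.mp (Prod.ext_iff.mp (Prod.ext_iff.mp e).2).1).2

theorem zxs_L (hz : Det p (slam F W) zw) (hs : Det p (slam F W) sd) :
    Det p (slam F W) (zxs F c k₀ W zw sd) := by
  intro ω ν hω hν e
  refine Prod.ext (hz ω ν hω hν e) (Prod.ext (Prod.ext_iff.mp e).2 (Prod.ext ?_
    (hs ω ν hω hν e)))
  have e1 : (slam F W ω).1 = (slam F W ν).1 := (Prod.ext_iff.mp e).1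
  have e2 : F.u ω = F.u ν := (Prod.ext_iff.mp e1).1
  have e3 : F.d ω = F.d ν := (Prod.ext_iff.mp e1).2
  funext l
  show (F.u ω (c l), F.d ω (c l)) = (F.u ν (c l), F.d ν (c l))
  rw [e2, e3]

/-- The context from the records and the exact base coordinates. -/
theorem zxs_czy (hp : IsLaw p) (hG : Gd F) (hW : W ≤ J) {e : ℝ}
    (h : CH p sd (fun ω => (zw ω, (yv c k₀ J F ω, sy ω))) ≤ e) :
    CH p (fun ω => (rt F W ω, zxs F c k₀ W zw sd ω))
      (fun ω => (zw ω, (yv c k₀ J F ω, sy ω))) ≤ e := by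
  have h0 := hp.nonneg
  have h1 := CH_le_add h0 (fun ω => (rt F W ω, zxs F c k₀ W zw sd ω)) sd
    (fun ω => (zw ω, (yv c k₀ J F ω, sy ω)))
  have h2 : CH p (fun ω => (rt F W ω, zxs F c k₀ W zw sd ω))
      (fun ω => (sd ω, (zw ω, (yv c k₀ J F ω, sy ω)))) = 0 := by
    refine CH_eq_zero h0 fun ω ν hω hν e => ?_
    simp only [Prod.mk.injEq] at e
    obtain ⟨e1, e2, e3, -⟩ := e
    have key := adM_zy (F := F) (c := c) (k₀ := k₀) (k := 0) (n := 0) (q := 0) (w := 0) (X := 0)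
      (mm := 0)
      (γ := fun _ => 0) (G := fun _ _ _ => 0) (H := fun _ _ => 0) (zw := zw) hG hW p ω ν hω hν
      (Prod.ext e2 e3)
    obtain ⟨k1, k2⟩ := Prod.ext_iff.mp key
    have k1' : rt F W ω = rt F W ν := k1
    obtain ⟨k3, k4⟩ := Prod.ext_iff.mp k2
    obtain ⟨k5, k6⟩ := Prod.ext_iff.mp k4
    exact Prod.ext k1' (Prod.ext k3 (Prod.ext k5 (Prod.ext k6 e1)))
  linarith

/-- The exact base coordinates from the context. -/
theorem zxs_yv (hW : W ≤ J) (p : F.Ω → ℝ) :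
    Det p (fun ω => (rt F W ω, zxs F c k₀ W zw sd ω)) (fun ω => (zw ω, yv c k₀ J F ω)) := by
  intro ω ν hω hν e
  obtain ⟨e1, e2⟩ := Prod.ext_iff.mp e
  obtain ⟨e3, e4⟩ := Prod.ext_iff.mp e2
  obtain ⟨e5, e6⟩ := Prod.ext_iff.mp e4
  obtain ⟨e7, e8⟩ := Prod.ext_iff.mp e6
  exact adM_yz (F := F) (c := c) (k₀ := k₀) (k := 0) (n := 0) (q := 0) (w := 0) (X := 0)
      (mm := 0)
      (γ := fun _ => 0) (G := fun _ _ _ => 0) (H := fun _ _ => 0) (zw := zw) hW p ω ν hω hν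
      (Prod.ext e1 (Prod.ext e3 (Prod.ext e5 e7)))

theorem zxs_cyz (hp : IsLaw p) (hW : W ≤ J) {e : ℝ}
    (h : CH p sy (fun ω => (rt F W ω, zxs F c k₀ W zw sd ω)) ≤ e) :
    CH p (fun ω => (zw ω, (yv c k₀ J F ω, sy ω)))
      (fun ω => (rt F W ω, zxs F c k₀ W zw sd ω)) ≤ e := by
  have h0 := hp.nonneg
  have h1 := CH_le_add h0 (fun ω => (zw ω, (yv c k₀ J F ω, sy ω))) sy
    (fun ω => (rt F W ω, zxs F c k₀ W zw sd ω))
  have h2 : CH p (fun ω => (zw ω, (yv c k₀ J F ω, sy ω)))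
      (fun ω => (sy ω, (rt F W ω, zxs F c k₀ W zw sd ω))) = 0 := by
    refine CH_eq_zero h0 fun ω ν hω hν e => ?_
    obtain ⟨e1, e2⟩ := Prod.ext_iff.mp e
    have key := zxs_yv hW p ω ν hω hν e2
    obtain ⟨k1, k2⟩ := Prod.ext_iff.mp key
    exact Prod.ext k1 (Prod.ext k2 e1)
  linarith

/-- **The heights** as values of the own paths. -/
theorem adG_h (hwW : w ≤ W) (hW : W ≤ J) (ω : F.Ω) (j : Fin k) :
    ((adG F c mv i q w W X mm γ gg H (zxs F c k₀ W zw sd)).A ω j).eval (rt F W ω) =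
      2 ^ (γ (mv j) + q) * ojet F (c (mv j)) 0 (H (slam F w ω) (mv j)) ω := by
  have h1 := jj_adG (c := c) (mv := mv) (i := i) (q := q) (X := X) (mm := mm) (γ := γ) (gg := gg)
    (H := H) (z := zxs F c k₀ W zw sd) hwW hW ω (some j) 0
  have h2 : jj (adG F c mv i q w W X mm γ gg H (zxs F c k₀ W zw sd)) ω (some j) 0 =
      ((adG F c mv i q w W X mm γ gg H (zxs F c k₀ W zw sd)).A ω j).eval (rt F W ω) :=
    jt_zero _ _
  rw [h2] at h1
  simpa using h1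

theorem adG_hP (hwW : w ≤ W) (hW : W ≤ J) (ω : F.Ω) :
    ((adG F c mv i q w W X mm γ gg H (zxs F c k₀ W zw sd)).P ω).eval (rt F W ω) =
      2 ^ (γ i + q) * ojet F (c i) 0 (H (slam F w ω) i) ω := by
  have h1 := jj_adG (c := c) (mv := mv) (i := i) (q := q) (X := X) (mm := mm) (γ := γ) (gg := gg)
    (H := H) (z := zxs F c k₀ W zw sd) hwW hW ω none 0
  have h2 : jj (adG F c mv i q w W X mm γ gg H (zxs F c k₀ W zw sd)) ω none 0 =
      ((adG F c mv i q w W X mm γ gg H (zxs F c k₀ W zw sd)).P ω).eval (rt F W ω) :=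
    jt_zero _ _
  rw [h2] at h1
  simpa using h1

end

section one

variable {F : Fam m J} {c : ℕ → Fin m} {k₀ : ℕ} {i v q w W X mm : ℕ}
  {γ : ℕ → ℕ} {gg : F.Ω → Fin 1 → ℝ} {H : LnT F → ℕ → MvPolynomial (Option (Fin m)) ℝ}
  {ζ : Type} {z : F.Ω → ζ} {p : F.Ω → ℝ}

/-- The constant of the digits of the height of the moved place. -/
noncomputable def cV (K : ℕ) : ℝ := Real.log (2 * ((K + 1) + 1) + 1)

theorem cV_nonneg (K : ℕ) : 0 ≤ cV K := by
  refine Real.log_nonneg ?_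
  have : (0 : ℝ) ≤ K := Nat.cast_nonneg K
  linarith

/-- The value of the own path of the moved place. -/
theorem adG_A1 (hwW : w ≤ W) (hW : W ≤ J) (ω : F.Ω) :
    ((adG F c (fun _ : Fin 1 => v) i q w W X mm γ gg H z).A ω 0).eval (rt F W ω) =
      2 ^ (γ v + q) * ojet F (c v) 0 (H (slam F w ω) v) ω := by
  have h1 := jj_adG (c := c) (mv := fun _ : Fin 1 => v) (i := i) (q := q) (X := X) (mm := mm)
    (γ := γ) (gg := gg) (H := H) (z := z) hwW hW ω (some 0) 0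
  have h2 : jj (adG F c (fun _ : Fin 1 => v) i q w W X mm γ gg H z) ω (some 0) 0 =
      ((adG F c (fun _ : Fin 1 => v) i q w W X mm γ gg H z).A ω 0).eval (rt F W ω) :=
    jt_zero _ _
  rw [h2] at h1
  simpa using h1

theorem adG_P1 (hwW : w ≤ W) (hW : W ≤ J) (ω : F.Ω) :
    ((adG F c (fun _ : Fin 1 => v) i q w W X mm γ gg H z).P ω).eval (rt F W ω) =
      2 ^ (γ i + q) * ojet F (c i) 0 (H (slam F w ω) i) ω := by
  have h1 := jj_adG (c := c) (mv := fun _ : Fin 1 => v) (i := i) (q := q) (X := X) (mm := mm)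
    (γ := γ) (gg := gg) (H := H) (z := z) hwW hW ω none 0
  have h2 : jj (adG F c (fun _ : Fin 1 => v) i q w W X mm γ gg H z) ω none 0 =
      ((adG F c (fun _ : Fin 1 => v) i q w W X mm γ gg H z).P ω).eval (rt F W ω) :=
    jt_zero _ _
  rw [h2] at h1
  simpa using h1

/-- The digits of the height given the code. -/
theorem vy_h {K D : ℕ} (hp : IsLaw p) (hH : ∀ s l, (H s l).totalDegree ≤ D) (hK : D + 1 ≤ K)
    (hwW : w ≤ W) (hW : W ≤ J) {r : ℝ} (hr : r ≤ (γ v + q + (X + mm) : ℕ)) {𝓦 : Type} (Z : F.Ω → 𝓦)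
    (hZ : ∀ ω ν, 0 < p ω → 0 < p ν → Z ω = Z ν → rt F W ω = rt F W ν ∧
      (adG F c (fun _ : Fin 1 => v) i q w W X mm γ gg H z).Y K ω =
        (adG F c (fun _ : Fin 1 => v) i q w W X mm γ gg H z).Y K ν ∧
      (adG F c (fun _ : Fin 1 => v) i q w W X mm γ gg H z).g K ω =
        (adG F c (fun _ : Fin 1 => v) i q w W X mm γ gg H z).g K ν) :
    CH p (Vh F c v w H r) Z ≤ cV K := by
  have hP := adG_pth (c := c) (mv := fun _ : Fin 1 => v) (i := i) (q := q) (w := w) (X := X)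
    (mm := mm) (γ := γ) (gg := gg) (z := z) hp hH hK hW
  refine CH_pair_int hp _ Z (by positivity) fun ω ν hω hν e => ?_
  obtain ⟨h1, h2, h3⟩ := hZ ω ν hω hν e
  have h4 := A_near (d := adG F c (fun _ : Fin 1 => v) i q w W X mm γ gg H z) (K := K)
    (j := 0) h1 (hP.th ω hω) (ac_of h2 h3) (hP.dA ω hω 0) (hP.dA ν hν 0)
  have a1 : ((adG F c (fun _ : Fin 1 => v) i q w W X mm γ gg H z).A ω 0).eval
      ((adG F c (fun _ : Fin 1 => v) i q w W X mm γ gg H z).th ω) =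
      2 ^ (γ v + q) * ojet F (c v) 0 (H (slam F w ω) v) ω := adG_A1 hwW hW ω
  have a2 : ((adG F c (fun _ : Fin 1 => v) i q w W X mm γ gg H z).A ν 0).eval
      ((adG F c (fun _ : Fin 1 => v) i q w W X mm γ gg H z).th ν) =
      2 ^ (γ v + q) * ojet F (c v) 0 (H (slam F w ν) v) ν := adG_A1 hwW hW ν
  have a3 : (2 : ℝ) ^ ((adG F c (fun _ : Fin 1 => v) i q w W X mm γ gg H z).X +
    (adG F c (fun _ : Fin 1 => v) i q w W X mm γ gg H z).m) = 2 ^ (X + mm) := rfl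
  rw [a1, a2, a3] at h4
  unfold Vh
  refine floor_near' ?_
  have p1 : (0 : ℝ) < 2 ^ (X + mm) := by positivity
  have p2 : (0 : ℝ) < 2 ^ (γ v + q) := by positivity
  have p3 : (0 : ℝ) < (2 : ℝ) ^ r := Real.rpow_pos_of_pos two_pos r
  rw [← mul_sub, abs_mul, abs_of_pos p2] at h4
  rw [← mul_sub, abs_mul, abs_of_pos p3]
  have h5 : (2 : ℝ) ^ r ≤ 2 ^ (γ v + q) * 2 ^ (X + mm) := by
    rw [← pow_add, ← Real.rpow_natCast]
    exact Real.rpow_le_rpow_of_exponent_le one_le_two hr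
  rw [le_div_iff₀ p1] at h4
  calc _ ≤ 2 ^ (γ v + q) * 2 ^ (X + mm) * |ojet F (c v) 0 (H (slam F w ω) v) ω -
        ojet F (c v) 0 (H (slam F w ν) v) ν| := mul_le_mul_of_nonneg_right h5 (abs_nonneg _)
    _ = 2 ^ (γ v + q) * |ojet F (c v) 0 (H (slam F w ω) v) ω -
        ojet F (c v) 0 (H (slam F w ν) v) ν| * 2 ^ (X + mm) := by ring
    _ ≤ _ := h4

/-- The near digits of the position. -/
theorem CH_Y1 {Ω β : Type} [Fintype Ω] {q : Ω → ℝ} (hq : IsLaw q) (d : AD Ω β 1) (K : ℕ)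
    {𝓦 : Type} (Z : Ω → 𝓦) : CH q (d.Y K) Z ≤ d.X * Real.log 2 := by
  have h0 := hq.nonneg
  have h1 : CH q (d.Y K) Z ≤ CH q (fun ω => d.Y K ω 0) Z := by
    refine CH_mono_left h0 fun ω ν _ _ e => ?_
    have e1 := (Prod.ext_iff.mp e).1
    funext j
    have hj : j = 0 := Subsingleton.elim _ _
    rw [hj]
    exact e1
  have s4 := CH_le_card h0 hq.sum_one (fun ω => d.Y K ω 0) Z
      (fun _ => Finset.Ico (0 : ℤ) (2 ^ d.X)) (fun ω _ => by
        rw [Finset.mem_Ico]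
        exact AD.Y_mem ω 0)
  rw [Ex_const hq.sum_one, Int.card_Ico, sub_zero] at s4
  have e2 : ((2 : ℤ) ^ d.X).toNat = 2 ^ d.X := by
    have : (2 : ℤ) ^ d.X = ((2 ^ d.X : ℕ) : ℤ) := by push_cast; rfl
    rw [this, Int.toNat_natCast]
  rw [e2] at s4
  push_cast at s4
  rw [Real.log_pow] at s4
  linarith

/-- The field `qv`. -/
theorem qv_h {U : ℝ} (hwW : w ≤ W) (hW : W ≤ J) {r : ℝ} (hr : ((γ v + q + X : ℕ) : ℝ) ≤ r)
    {ω ν : F.Ω} (hb : |(adG F c (fun _ : Fin 1 => v) i q w W X mm γ gg H z).bb ω 0| ≤ U)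
    (hV : Vh F c v w H r ω = Vh F c v w H r ν)
    (hT : (adG F c (fun _ : Fin 1 => v) i q w W X mm γ gg H z).T ω =
      (adG F c (fun _ : Fin 1 => v) i q w W X mm γ gg H z).T ν) :
    |((adG F c (fun _ : Fin 1 => v) i q w W X mm γ gg H z).Q ω - Mh F c i w H (γ i + q + X) ω) -
      ((adG F c (fun _ : Fin 1 => v) i q w W X mm γ gg H z).Q ν -
        Mh F c i w H (γ i + q + X) ν)| ≤ U + 1 := by
  have p1 : (0 : ℝ) < 2 ^ (γ v + q + X) := by positivity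
  have p3 : (0 : ℝ) < (2 : ℝ) ^ r := Real.rpow_pos_of_pos two_pos r
  have b1 : (adG F c (fun _ : Fin 1 => v) i q w W X mm γ gg H z).bb ω =
      (adG F c (fun _ : Fin 1 => v) i q w W X mm γ gg H z).bb ν := (Prod.ext_iff.mp hT).2
  have hv := near_of_floor p3 hV
  have hv2 : |ojet F (c v) 0 (H (slam F w ω) v) ω - ojet F (c v) 0 (H (slam F w ν) v) ν| ≤
      1 / 2 ^ (γ v + q + X) := by
    refine hv.trans (one_div_le_one_div_of_le p1 ?_)
    rw [← Real.rpow_natCast]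
    exact Real.rpow_le_rpow_of_exponent_le one_le_two hr
  have q1 : ∀ o : F.Ω, (adG F c (fun _ : Fin 1 => v) i q w W X mm γ gg H z).Q o =
      2 ^ (γ i + q + X) * ojet F (c i) 0 (H (slam F w o) i) o -
        (adG F c (fun _ : Fin 1 => v) i q w W X mm γ gg H z).bb o 0 *
          (2 ^ (γ v + q + X) * ojet F (c v) 0 (H (slam F w o) v) o) := by
    intro o
    have e1 : (adG F c (fun _ : Fin 1 => v) i q w W X mm γ gg H z).Q o =
        2 ^ X * (((adG F c (fun _ : Fin 1 => v) i q w W X mm γ gg H z).P o).eval (rt F W o) -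
          ∑ j, (adG F c (fun _ : Fin 1 => v) i q w W X mm γ gg H z).bb o j *
            ((adG F c (fun _ : Fin 1 => v) i q w W X mm γ gg H z).A o j).eval (rt F W o)) := rfl
    rw [e1, Fin.sum_univ_one, adG_A1 hwW hW, adG_P1 hwW hW, pow_add _ (γ i + q) X,
      pow_add _ (γ v + q) X]
    ring
  obtain ⟨b, hbe⟩ : ∃ b, b = (adG F c (fun _ : Fin 1 => v) i q w W X mm γ gg H z).bb ω 0 :=
    ⟨_, rfl⟩
  have b2 : (adG F c (fun _ : Fin 1 => v) i q w W X mm γ gg H z).bb ν 0 = b := by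
    rw [hbe, b1]
  rw [← hbe] at hb
  rw [q1 ω, q1 ν, b2, ← hbe]
  unfold Mh
  obtain ⟨x, hx⟩ : ∃ x, x = (2 : ℝ) ^ (γ i + q + X) * ojet F (c i) 0 (H (slam F w ω) i) ω :=
    ⟨_, rfl⟩
  obtain ⟨x', hx'⟩ : ∃ x, x = (2 : ℝ) ^ (γ i + q + X) * ojet F (c i) 0 (H (slam F w ν) i) ν :=
    ⟨_, rfl⟩
  rw [← hx, ← hx']
  have f1 := Int.floor_le x
  have f2 := Int.lt_floor_add_one x
  have f3 := Int.floor_le x'
  have f4 := Int.lt_floor_add_one x'
  have h6 : |b * (2 ^ (γ v + q + X) * ojet F (c v) 0 (H (slam F w ω) v) ω) -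
      b * (2 ^ (γ v + q + X) * ojet F (c v) 0 (H (slam F w ν) v) ν)| ≤ U := by
    rw [← mul_sub, ← mul_sub, abs_mul, abs_mul, abs_of_pos p1]
    rw [le_div_iff₀ p1] at hv2
    have hU : 0 ≤ U := (abs_nonneg _).trans hb
    calc _ ≤ U * 1 := mul_le_mul hb (by linarith) (by positivity) hU
      _ = U := mul_one _
  have h7 := abs_le.mp h6
  rw [abs_le]
  constructor <;> linarith [h7.1, h7.2]

end one

/-- **Closed gradient in the direction of one moved place**, on one event. -/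
theorem av1_ev (K : ℕ) (cc ε : ℝ) (hcc : 0 < cc) (hε : 0 < ε) :
    ∃ (κ₂ κ π₀ ι ε₀ : ℝ) (k₁ j₀ X₀ : ℕ), 0 < κ₂ ∧ κ₂ ≤ 1 ∧ 0 < κ ∧ κ ≤ 1 ∧ 0 < π₀ ∧ 0 < ι ∧
      0 < ε₀ ∧
      ∀ {m J : ℕ} {F : Fam m J} {c : ℕ → Fin m} {v i q w W X mm D : ℕ} {γ : ℕ → ℕ}
        {B : F.Ω → Prop} {G₀ : PtT F → ℕ → MvPolynomial (Option (Fin m)) ℝ}
        {H : LnT F → ℕ → MvPolynomial (Option (Fin m)) ℝ} {gg : F.Ω → Fin 1 → ℝ}
        {ζ ζ' υ' χ₁ χ₂ ρ₁ ρ₂ : Type} {z : F.Ω → ζ} {zw : F.Ω → ζ'} {Yc : F.Ω → υ'}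
        {Cj : F.Ω → χ₁} {Cx : F.Ω → χ₂} {Rj : F.Ω → ρ₁} {Rx : F.Ω → ρ₂}
        {p : F.Ω → ℝ} {Nf Nn Nx Nu Nv : Fin 1 → ℕ → ℝ} {Mf Mn : ℕ → ℝ} {U Nb e : ℝ}
        (_ : PrG F c (fun _ : Fin 1 => v) i q w W X mm D K γ B G₀ H gg z zw Yc Cj Cx Rj Rx
          (Vh F c v w H Nb) p Nf Nn Nx Nu Nv Mf Mn U ((Nb - Nv 0 0 * J) * Real.log 2) e)
        {Ur ψ : ℝ}, ((γ v + q + X : ℕ) : ℝ) ≤ Nb → Nb ≤ (γ v + q + (X + mm) : ℕ) →
        Nv 0 0 * J + X ≤ Nb →
        (∀ a : ℕ, a + ⌊κ * X⌋₊ ≤ X → ∀ E : Set F.Ω, π₀ ≤ Pr p E →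
          CH (rs p E) (Mh F c i w H (γ i + q + (a + ⌊κ * X⌋₊)))
            (fun ω => (Mh F c i w H (γ i + q + a) ω, (Vh F c v w H Nb ω,
              (F.T ω, z ω)))) ≤ Ur) →
        TimW F p W j₀ ε₀ ψ → Det p (slam F W) z → X₀ ≤ X → W + X ≤ J →
        ψ * J ≤ ι * X * Real.log 2 → (mm : ℝ) ≤ ι * X →
        6 * (4 * e + cE0 1 K U + cV K) ≤ ι * X →
        3 * (4 * e + cE0 1 K U + cV K) + mm * Real.log 2 ≤ ι * X * Real.log 2 →
        Ur + cR 1 K (U + 2) + (4 * (4 * e + cE0 1 K U + cV K) + mm * Real.log 2 +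
          Real.log 2) / π₀ ≤ (1 - cc) * ⌊κ * X⌋₊ * Real.log 2 →
        ∃ mu : LnT F → Polynomial ℝ, (∀ s, (mu s).natDegree ≤ K) ∧
          (∀ s (u : ℝ), |(mu s).eval u| ≤
            (K + 1) * (2 ^ k₁ * (|u| + 1)) ^ K * (2 : ℝ) ^ (ι * X)) ∧
          Pb p (fun ω => (2 : ℝ) ^ (-(κ₂ * X)) <
            |gg ω 0 - (mu (slam F W ω)).eval (rt F W ω)|) ≤ ε := by
  obtain ⟨κ₂, κ, π₀, ι, ε₀, k₁, j₀, X₀, a1, a2, a3, a4, a5, a6, a7, Hm⟩ :=
    avg_gen 1 K cc ε hcc hε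
  refine ⟨κ₂, κ, π₀, ι, ε₀, k₁, j₀, X₀, a1, a2, a3, a4, a5, a6, a7, ?_⟩
  intro m J F c v i q w W X mm D γ B G₀ H gg ζ ζ' υ' χ₁ χ₂ ρ₁ ρ₂ z zw Yc Cj Cx Rj Rx p Nf Nn Nx Nu
    Nv Mf Mn U Nb e P Ur ψ hN1 hN2 hNX hrow hT hz hX hJ hψ hmm n1 n2 n3
  have hp := P.law
  have h0 := hp.nonneg
  have hwW := P.wW
  have hW := P.WJ
  have hU := P.grd.U0
  have hl2 : 0 < Real.log 2 := Real.log_pos one_lt_two
  have hF : (X : ℝ) * Real.log 2 ≤ (Nb - Nv 0 0 * J) * Real.log 2 :=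
    mul_le_mul_of_nonneg_right (by linarith) hl2.le
  have hbm : ∀ ω, 0 < p ω →
      |(adG F c (fun _ : Fin 1 => v) i q w W X mm γ gg H z).bb ω 0| ≤ U + 1 :=
    fun ω hω => adG_bm P.grd (P.sup ω hω) 0
  obtain ⟨mu, m1, m2, m3⟩ := Hm P (Ur := Ur) (Bq := U + 2) (eV := cV K) (ψ := ψ)
    (M := Mh F c i w H (γ i + q + X)) (by linarith) (cV_nonneg K)
    (fun q' hq' hpos => by
      have s1 := CH_le_add hq'.nonneg (Vh F c v w H Nb)
        ((adG F c (fun _ : Fin 1 => v) i q w W X mm γ gg H z).Y K)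
        (fun ω => ((adG F c (fun _ : Fin 1 => v) i q w W X mm γ gg H z).T ω,
          (adG F c (fun _ : Fin 1 => v) i q w W X mm γ gg H z).g K ω))
      have s2 := CH_Y1 hq' (adG F c (fun _ : Fin 1 => v) i q w W X mm γ gg H z) K
        (fun ω => ((adG F c (fun _ : Fin 1 => v) i q w W X mm γ gg H z).T ω,
          (adG F c (fun _ : Fin 1 => v) i q w W X mm γ gg H z).g K ω))
      have s3 := vy_h (c := c) (v := v) (i := i) (γ := γ) (gg := gg) (z := z) hq' P.deg P.DK hwW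
        hW hN2 (fun ω => ((adG F c (fun _ : Fin 1 => v) i q w W X mm γ gg H z).Y K ω,
        ((adG F c (fun _ : Fin 1 => v) i q w W X mm γ gg H z).T ω,
          (adG F c (fun _ : Fin 1 => v) i q w W X mm γ gg H z).g K ω)))
        (fun ω ν _ _ e => by
          simp only [Prod.mk.injEq] at e
          exact ⟨(Prod.ext_iff.mp e.2.1).1, e.1, e.2.2⟩)
      have s4 : ((adG F c (fun _ : Fin 1 => v) i q w W X mm γ gg H z).X : ℝ) = X := rfl
      rw [s4] at s2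
      linarith)
    (by
      have s3 := vy_h (c := c) (v := v) (i := i) (γ := γ) (gg := gg) (z := z) hp P.deg P.DK hwW
        hW hN2 (fun ω => ((adG F c (fun _ : Fin 1 => v) i q w W X mm γ gg H z).Y K ω,
        (rt F W ω, (adG F c (fun _ : Fin 1 => v) i q w W X mm γ gg H z).g K ω)))
        (fun ω ν _ _ e => by
          simp only [Prod.mk.injEq] at e
          exact ⟨e.2.1, e.1, e.2.2⟩)
      push_cast
      linarith)
    (fun ω ν hω _ hV hTT _ => by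
      have := qv_h (c := c) (i := i) (γ := γ) (gg := gg) (z := z) hwW hW hN1 (hbm ω hω) hV hTT
      linarith)
    (fun j hj E hE => by
      have e1 : ∀ (a : ℕ), a ≤ X → ∀ ω, Mh F c i w H (γ i + q + X) ω / 2 ^ (X - a) =
          Mh F c i w H (γ i + q + a) ω := by
        intro a ha ω
        unfold Mh
        obtain ⟨x, hx⟩ : ∃ x, x = ojet F (c i) 0 (H (slam F w ω) i) ω := ⟨_, rfl⟩
        rw [← hx]
        have h1 := Int.floor_div_natCast ((2 : ℝ) ^ (γ i + q + X) * x) (2 ^ (X - a))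
        have e1 : (2 : ℝ) ^ (γ i + q + X) * x / ((2 ^ (X - a) : ℕ) : ℝ) =
            2 ^ (γ i + q + a) * x := by
          have e2 : (2 : ℝ) ^ (γ i + q + X) = 2 ^ (γ i + q + a) * 2 ^ (X - a) := by
            rw [← pow_add]
            congr 1
            omega
          rw [e2]
          push_cast
          field_simp
        rw [e1] at h1
        push_cast at h1
        exact h1.symm
      have hj1 : j * ⌊κ * X⌋₊ + ⌊κ * X⌋₊ ≤ X := by
        rw [add_mul, one_mul] at hj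
        exact hj
      have r1 := hrow (j * ⌊κ * X⌋₊) hj1 E hE
      have r2 : (fun ω => Mh F c i w H (γ i + q + X) ω / 2 ^ (X - (j + 1) * ⌊κ * X⌋₊)) =
          Mh F c i w H (γ i + q + (j * ⌊κ * X⌋₊ + ⌊κ * X⌋₊)) := by
        funext ω
        rw [add_mul, one_mul]
        exact e1 _ hj1 ω
      have hE0 : 0 < law p (fun ω => ω ∈ E) True := lt_of_lt_of_le a5 hE
      have hE' : IsLaw (rs p E) :=
        ⟨cond_nonneg h0 (fun ω => ω ∈ E) True, sum_cond p (fun ω => ω ∈ E) hE0.ne'⟩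
      have hqp : ∀ ω, 0 < rs p E ω → 0 < p ω := fun ω hω =>
        ((cond_pos_iff h0 (fun ω => ω ∈ E) True ω).mp hω).1
      rw [r2]
      refine le_trans (CH_mono_cond hE'.nonneg fun ω ν hω hν e => ?_) r1
      simp only [Prod.mk.injEq] at e ⊢
      obtain ⟨e2, e3, e4, e5⟩ := e
      rw [e1 _ (by omega) ω, e1 _ (by omega) ν] at e2
      have z1 : z ω = z ν := (Prod.ext_iff.mp e5).1
      have pω : 0 < p ω := hqp ω hω
      have pν : 0 < p ν := hqp ν hν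
      have t1 := P.zT ω ν pω pν z1
      have t2 : rt F W ω = rt F W ν := (Prod.ext_iff.mp e4).1
      exact ⟨e2, e3, (time_eq F hW t1 t2).1, z1⟩)
    hT hz hX hJ hψ hmm n1 (by rw [Nat.cast_one, one_mul]; exact n2)
    (by rw [Nat.cast_one, one_mul]; exact n3)
  refine ⟨fun s => mu s 0, fun s => m1 s 0, fun s u => m2 s 0 u, le_trans ?_ m3⟩
  unfold Pb
  refine Finset.sum_le_sum fun ω _ => ?_
  by_cases h6 : (2 : ℝ) ^ (-(κ₂ * X)) < |gg ω 0 - (mu (slam F W ω) 0).eval (rt F W ω)|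
  · rw [if_pos h6, if_pos ⟨0, h6⟩]
  · rw [if_neg h6]
    split_ifs
    · exact h0 ω
    · exact le_rfl

end Pool.AVG57
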