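import Pool.Agent.H57.AVG.C1f

/-!
# The values of the inputs on one event

`BdR`: a bound of all digits. `C1H.ev`: the values `C1E` for closed charts and the finest records.
`C1H.rows`: the rows on the parts.
-/

set_option autoImplicit false

namespace Pool.AVG57

open Finset Real MvPolynomial
open Pool.Agent.H49.Ent Pool.Agent.H32.Dense Pool.STK Pool.KA Pool.KSAT Pool.K2S Pool.PB Pool.S6C
open Pool.GEN Pool.CHT Pool.CHX Pool.ISO Pool.RCD Pool.LA91 Pool.AVG71 Pool.AVG5 Pool.D2F2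
open Pool.AVG96 (jetQ prQ MIw)
open Pool.GRD (LbP)
open Pool.PB.Trl (rt rt_mem t_rt)
open Pool.D2R (hgt gnh GrdE chs)
open Pool.KVA (MI)
open Pool.KAF (rs Pr)
open Pool.BFL (Pb)

variable {m : ℕ} {γ : ∀ J : ℕ, Fam m J → Type}

/-- **A bound of all digits.** -/
structure BdR (v M : ℕ) (w : ℝ) (n n' nt : ℕ → ℝ) (nb : ℝ) (Df Dn Dx Dd : ℕ → ℕ → ℝ)
    (Ef En Nv : ℕ → ℝ) (τ : ℝ) (Kg : ℕ) (R : ℝ) : Prop where
  nd : ∀ l ≤ v + 1, ∀ j' ≤ M, |nd n n' w l j'| ≤ R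
  Df : ∀ l ≤ v + 1, ∀ j' ≤ M, |Df l j'| ≤ R
  Dn : ∀ l ≤ v + 1, ∀ j' ≤ M, |Dn l j'| ≤ R
  Dx : ∀ l ≤ v + 1, ∀ j' ≤ M, |Dx l j'| ≤ R
  Dd : ∀ l ≤ v + 1, ∀ j' ≤ M, |Dd l j'| ≤ R
  Ef : ∀ j' ≤ M, |Ef j'| ≤ R
  En : ∀ j' ≤ M, |En j'| ≤ R
  Nv : ∀ j' ≤ M, |Nv j'| ≤ R
  nt : ∀ l ≤ v + 1, ∀ j' ≤ M, |nt l - (j' : ℝ) * w| ≤ R
  n : ∀ l ≤ v + 1, |n l| ≤ R
  nb : |nb| ≤ R
  P : ∀ k < Kg, |τ * (k : ℝ)| ≤ R

/-- The sum of the digits. -/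
noncomputable def bdN (N : ℕ → ℕ → ℝ) (a M : ℕ) : ℝ :=
  ∑ l ∈ range a, ∑ i ∈ range (M + 1), |N l i|

theorem bdN_nonneg (N : ℕ → ℕ → ℝ) (a M : ℕ) : 0 ≤ bdN N a M :=
  Finset.sum_nonneg fun _ _ => Finset.sum_nonneg fun _ _ => abs_nonneg _

theorem le_bdN (N : ℕ → ℕ → ℝ) {a M l i : ℕ} (hl : l < a) (hi : i ≤ M) : |N l i| ≤ bdN N a M := by
  have h1 : |N l i| ≤ ∑ i ∈ range (M + 1), |N l i| :=
    Finset.single_le_sum (f := fun i => |N l i|) (fun _ _ => abs_nonneg _)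
      (Finset.mem_range.2 (Nat.lt_succ_of_le hi))
  have h2 : ∑ i ∈ range (M + 1), |N l i| ≤ bdN N a M :=
    Finset.single_le_sum (f := fun l => ∑ i ∈ range (M + 1), |N l i|)
      (fun _ _ => Finset.sum_nonneg fun _ _ => abs_nonneg _) (Finset.mem_range.2 hl)
  exact h1.trans h2

/-- **There is a bound.** -/
theorem exists_bdR (v M : ℕ) (w : ℝ) (n n' nt : ℕ → ℝ) (nb : ℝ) (Df Dn Dx Dd : ℕ → ℕ → ℝ)
    (Ef En Nv : ℕ → ℝ) (τ : ℝ) (Kg : ℕ) : ∃ R : ℝ, BdR v M w n n' nt nb Df Dn Dx Dd Ef En Nv τ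
      Kg R := by
  obtain ⟨a, ha⟩ : ∃ a : ℝ, a = bdN (nd n n' w) (v + 2) M + bdN Df (v + 2) M +
    bdN Dn (v + 2) M + bdN Dx (v + 2) M + bdN Dd (v + 2) M := ⟨_, rfl⟩
  obtain ⟨b, hb⟩ : ∃ b : ℝ, b = bdN (fun _ i => Ef i) 1 M + bdN (fun _ i => En i) 1 M +
    bdN (fun _ i => Nv i) 1 M + bdN (fun l i => nt l - (i : ℝ) * w) (v + 2) M := ⟨_, rfl⟩
  obtain ⟨d, hd⟩ : ∃ d : ℝ, d = bdN (fun l _ => n l) (v + 2) 0 + |nb| +
    bdN (fun l _ => τ * (l : ℝ)) Kg 0 := ⟨_, rfl⟩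
  have a1 := bdN_nonneg (nd n n' w) (v + 2) M
  have a2 := bdN_nonneg Df (v + 2) M
  have a3 := bdN_nonneg Dn (v + 2) M
  have a4 := bdN_nonneg Dx (v + 2) M
  have a5 := bdN_nonneg Dd (v + 2) M
  have a6 := bdN_nonneg (fun _ i => Ef i) 1 M
  have a7 := bdN_nonneg (fun _ i => En i) 1 M
  have a8 := bdN_nonneg (fun _ i => Nv i) 1 M
  have a9 := bdN_nonneg (fun l i => nt l - (i : ℝ) * w) (v + 2) M
  have a10 := bdN_nonneg (fun l _ => n l) (v + 2) 0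
  have a11 := abs_nonneg nb
  have a12 := bdN_nonneg (fun l _ => τ * (l : ℝ)) Kg 0
  refine ⟨a + b + d, ⟨fun l hl i hi => ?_, fun l hl i hi => ?_, fun l hl i hi => ?_,
    fun l hl i hi => ?_, fun l hl i hi => ?_, fun i hi => ?_, fun i hi => ?_, fun i hi => ?_,
    fun l hl i hi => ?_, fun l hl => ?_, ?_, fun k hk => ?_⟩⟩
  · have := le_bdN (AVG57.nd n n' w) (a := v + 2) (Nat.lt_succ_of_le hl) hi
    linarith
  · have := le_bdN Df (a := v + 2) (Nat.lt_succ_of_le hl) hi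
    linarith
  · have := le_bdN Dn (a := v + 2) (Nat.lt_succ_of_le hl) hi
    linarith
  · have := le_bdN Dx (a := v + 2) (Nat.lt_succ_of_le hl) hi
    linarith
  · have := le_bdN Dd (a := v + 2) (Nat.lt_succ_of_le hl) hi
    linarith
  · have := le_bdN (fun _ i => Ef i) (a := 1) (l := 0) one_pos hi
    linarith
  · have := le_bdN (fun _ i => En i) (a := 1) (l := 0) one_pos hi
    linarith
  · have := le_bdN (fun _ i => Nv i) (a := 1) (l := 0) one_pos hi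
    linarith
  · have := le_bdN (fun l i => nt l - (i : ℝ) * w) (a := v + 2) (Nat.lt_succ_of_le hl) hi
    linarith
  · have := le_bdN (fun l _ => n l) (a := v + 2) (i := 0) (Nat.lt_succ_of_le hl) (le_refl 0)
    linarith
  · linarith
  · have := le_bdN (fun l _ => τ * (l : ℝ)) (a := Kg) (i := 0) hk (le_refl 0)
    linarith

section

variable {y : ∀ (J : ℕ) (F : Fam m J), F.Ω → γ J F} {c : ℕ → Fin m} {r₀ v K : ℕ}
  {w j x : ℝ} {p s n n' nt : ℕ → ℝ} {Nd Nt nb : ℝ} {Df Dn Dx Dd : ℕ → ℕ → ℝ}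
  {Ef En Nv : ℕ → ℝ} {E h lo hi η η₁ τ π₀ R : ℝ} {Kg J : ℕ} {F : Fam m J} {B : F.Ω → Prop}
  {γl : ℕ → ℕ} {G₀ : PtT F → ℕ → MvPolynomial (Option (Fin m)) ℝ}
  {H : LnT F → ℕ → MvPolynomial (Option (Fin m)) ℝ}

/-- **The values for closed charts.** -/
theorem C1H.ev (C : C1H y c r₀ v K (kq R E (K + 2) K) w j x p n n' nt Nd Nt nb Df Dn Dx Dd Ef En
      Nv E h lo hi η η₁ τ π₀ Kg J F B) (L : LbsE F c v K w p s E γl B G₀ H)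
    (D : BdR v (K + 2) w n n' nt nb Df Dn Dx Dd Ef En Nv τ Kg R) (hr : r₀ ≤ v)
    (hw0 : 0 ≤ w) (hw1 : w ≤ 1) (hJ : 1 ≤ J) (hp : 0 < Pe F.p B) (hη₁ : 0 ≤ η₁)
    (hn : ∀ l ≤ v, 0 ≤ n l) (hn' : ∀ l ≤ v, 0 ≤ n' l)
    (hy : ∃ φ : γ J F → F.ζ × ℕ, ∀ ω, φ (y J F ω) = (F.Z ω, F.T ω)) {g : ℕ}
    (hg : (g : ℝ) ≤ Nd * J) {Vw Vj Vx : Type} {zw : F.Ω → Vw} {zj : F.Ω → Vj} {zx : F.Ω → Vx}
    (hw' : Cl2 (ptr F J) (vg w J F) B zw)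
    (hw : ∀ (V' : Type) (z' : F.Ω → V'), Cl2 (ptr F J) (vg w J F) B z' →
      ∀ ω ν, zw ω = zw ν → z' ω = z' ν)
    (hj' : Cl2 (ptr F J) (vg j J F) B zj)
    (hj : ∀ (V' : Type) (z' : F.Ω → V'), Cl2 (ptr F J) (vg j J F) B z' →
      ∀ ω ν, zj ω = zj ν → z' ω = z' ν)
    (hx' : Cl2 (ptr F J) (vg x J F) B zx)
    (hx : ∀ (V' : Type) (z' : F.Ω → V'), Cl2 (ptr F J) (vg x J F) B z' →
      ∀ ω ν, zx ω = zx ν → z' ω = z' ν) :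
    C1E F c r₀ v (K + 1) (K + 2) w g H zw zj zx (y J F) (Pool.Agent.H49.Ent.cond F.p B True) n n'
      nt Nt nb Df Dn Dx Dd Ef En Nv ((η + η₁) * J) := by
  have hcl := isLaw_cond F.isLaw hp
  have h0 := hcl.nonneg
  have hJ0 : (0 : ℝ) ≤ J := Nat.cast_nonneg J
  have hη : η * J ≤ (η + η₁) * J := mul_le_mul_of_nonneg_right (by linarith) hJ0
  have m1 : 1 ≤ K + 2 := by omega
  have jq : ∀ {a b : ℕ} {N : ℕ → ℕ → ℝ}, b ≤ v + 2 → (∀ l ≤ v + 1, ∀ j' ≤ K + 2, |N l j'| ≤ R) →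
      (jetQ m c a b w p N).P (kq R E (K + 2) K) 0 J F B (jet2 F c ⌊w * J⌋₊ H a b N) :=
    fun hb hN => L.jets1 hw0 hw1 hJ hb m1 (fun l _ h2 j' h3 => hN l (by omega) j' (by omega)) le_rfl
  have pq : ∀ {l : ℕ} {N : ℕ → ℝ}, l ≤ v + 1 → (∀ j' ≤ K + 2, |N j'| ≤ R) →
      (prQ m c l w (p l) N).P (kq R E (K + 2) K) 0 J F B (pr2 F c ⌊w * J⌋₊ H l N) :=
    fun hb hN => L.pr hw0 hw1 hJ hb m1 (fun j' h3 => hN j' (by omega)) le_rfl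
  have mxw := mx_fine (f := fun J F => ptr F J) hw' hw
  have mxj := mx_fine (f := fun J F => ptr F J) hj' hj
  have mxx := mx_fine (f := fun J F => ptr F J) hx' hx
  have cN : ∀ {N : ℕ → ℝ} {l : ℕ}, 0 ≤ N l → (0 : ℝ) < 2 ^ ⌊N l * J⌋₊ ∧
      (2 : ℝ) ^ ⌊N l * J⌋₊ ≤ 2 ^ (N l * J) := by
    intro N l hN
    refine ⟨by positivity, ?_⟩
    rw [← Real.rpow_natCast]
    exact Real.rpow_le_rpow_of_exponent_le one_le_two (Nat.floor_le (by positivity))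
  refine ⟨?_, ?_, fun l hl => ?_, fun l hl => ?_, fun l l0 l1 => ?_, ?_, ?_, ?_, ?_, ?_⟩
  · intro ω ν e
    obtain ⟨φ, hφ⟩ := hy
    have h1 : (F.Z ω, F.T ω) = (F.Z ν, F.T ν) := by rw [← hφ ω, ← hφ ν, e]
    exact ⟨(Prod.ext_iff.mp h1).1, (Prod.ext_iff.mp h1).2⟩
  · obtain ⟨V₁, z₁, g1, g2⟩ := C.yf _ (jq (a := 0) (b := r₀) (by omega) D.nd)
    refine ((CH_mono_cond h0 fun ω ν _ _ e => ?_).trans g2).trans hη
    simp only [Prod.mk.injEq] at e ⊢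
    exact ⟨e.1, hw _ _ g1 ω ν e.2.1, e.2.2⟩
  · obtain ⟨s1, s2⟩ := cN (N := n) (hn l (by omega))
    have h1 := (C.y0 l hl).val L (by omega) (u₀ := fun _ => ()) (fun _ _ => rfl) hp hw s1 s2
    rw [cod_eq] at h1
    refine ((CH_mono_cond h0 fun ω ν _ _ e => ?_).trans h1).trans hη
    exact Prod.ext rfl e
  · obtain ⟨s1, s2⟩ := cN (N := n') (hn' l (by omega))
    have h1 := (C.y1 l hl).val L (by omega) (u₀ := fun _ => ()) (fun _ _ => rfl) hp hw s1 s2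
    rw [cod_eq] at h1
    refine ((CH_mono_cond h0 fun ω ν _ _ e => ?_).trans h1).trans hη
    exact Prod.ext rfl e
  · obtain ⟨s1, s2⟩ := cN (N := n') (hn' l l1)
    have h1 := (C.cd l (by omega) l0).val L (by omega) (jq (a := r₀) (b := l) (by omega) D.nd)
      hp hw s1 s2
    rw [cod_eq] at h1
    exact h1.trans hη
  · exact C.mj _ _ zw zj mxw mxj _ _ ⟨jq (a := r₀) (b := v + 1) (by omega) D.Df,
      pq le_rfl D.Ef⟩ ⟨jq (a := r₀) (b := v + 1) (by omega) D.Dn, pq le_rfl D.En⟩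
  · exact C.mx _ _ zw zx mxw mxx _ _ (jq (a := r₀) (b := v + 1) (by omega) D.Df)
      (jq (a := r₀) (b := v + 1) (by omega) D.Dx)
  · have s1 : (0 : ℝ) < 2 ^ g := by positivity
    have s2 : (2 : ℝ) ^ g ≤ 2 ^ (Nd * J) := by
      rw [← Real.rpow_natCast]
      exact Real.rpow_le_rpow_of_exponent_le one_le_two hg
    have h1 := C.dj.val L le_rfl (jq (a := r₀) (b := v + 1) (by omega) D.Dd) hp hw s1 s2
    rw [cod_eq] at h1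
    exact h1.trans hη
  · have h1 := C.jt.val L le_rfl (L.jets (r₀ := r₀) (r := v + 1) (a := K + 2) (M := K + 2)
      (N := fun l j' => nt l - (j' : ℝ) * w) hw0 hw1 hJ (by omega) le_rfl
      (fun l _ h2 j' h3 => D.nt l (by omega) j' h3) le_rfl) hp hx
      (Real.rpow_pos_of_pos two_pos (Nt * J)) le_rfl
    exact h1.trans hη
  · have h1 := C.vf _ _ zw zx mxw mxx _ _ _ _ (jq (a := r₀) (b := v) (by omega) D.nd)
      (L.jet hw0 hw1 hJ (Nat.le_succ v) (Nat.zero_le (K + 2)) (D.Nv 0 (by omega)) le_rfl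
        fun _ _ => rfl)
      (L.jet hw0 hw1 hJ (Nat.le_succ v) (Nat.zero_le (K + 2)) D.nb le_rfl fun _ _ => rfl)
      (L.jet hw0 hw1 hJ (Nat.le_succ v) m1 (D.Nv 1 m1) le_rfl fun _ _ => rfl)
    have h2 : (nb - Nv 0) * Real.log 2 * J - (η + η₁) * J ≤
      ((nb - Nv 0) * Real.log 2 - η) * J := by
      have : 0 ≤ η₁ * J := by positivity
      linarith
    exact h2.trans h1

/-- **The rows.** -/
theorem C1H.rows (C : C1H y c r₀ v K (kq R E (K + 2) K) w j x p n n' nt Nd Nt nb Df Dn Dx Dd Ef En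
      Nv E h lo hi η η₁ τ π₀ Kg J F B) (L : LbsE F c v K w p s E γl B G₀ H)
    (D : BdR v (K + 2) w n n' nt nb Df Dn Dx Dd Ef En Nv τ Kg R)
    (hw0 : 0 ≤ w) (hw1 : w ≤ 1) (hJ : 1 ≤ J) {Vw : Type} {zw : F.Ω → Vw}
    (hw' : Cl2 (ptr F J) (vg w J F) B zw)
    (hw : ∀ (V' : Type) (z' : F.Ω → V'), Cl2 (ptr F J) (vg w J F) B z' →
      ∀ ω ν, zw ω = zw ν → z' ω = z' ν) {k₁ k₂ : ℕ} (h1 : k₁ < Kg) (h2 : k₂ < Kg)
    (h3 : lo ≤ τ * k₁) (h4 : τ * k₁ ≤ τ * k₂) (h5 : τ * k₂ ≤ hi) {B' : F.Ω → Prop}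
    (hB' : Sub B' B) (hP : π₀ * Pe F.p B ≤ Pe F.p B') :
    CH (Pool.Agent.H49.Ent.cond F.p B' True)
      (fun ω => ⌊(2 : ℝ) ^ (τ * k₂ * J) * ojet F (c (v + 1)) 0
        (H (slam F ⌊w * J⌋₊ ω) (v + 1)) ω⌋)
      (fun ω => (⌊(2 : ℝ) ^ (τ * k₁ * J) * ojet F (c (v + 1)) 0
        (H (slam F ⌊w * J⌋₊ ω) (v + 1)) ω⌋, (jetM F c ⌊w * J⌋₊ H r₀ (v + 1) 0
          (fun l _ => if l = v then nb else n l) ω, (zw ω, y J F ω)))) ≤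
      ((1 - h) * (τ * k₂ - τ * k₁) * Real.log 2 + η) * J := by
  refine C.row k₁ h1 k₂ h2 h3 h4 h5 _ zw (mx_fine (f := fun J F => ptr F J) hw' hw) _ _ _
    (L.jets hw0 hw1 hJ (by omega) (Nat.zero_le (K + 2)) (fun l _ h2 j' _ => ?_) le_rfl)
    (L.jet hw0 hw1 hJ le_rfl (Nat.zero_le (K + 2)) (D.P k₁ h1) le_rfl fun _ _ => rfl)
    (L.jet hw0 hw1 hJ le_rfl (Nat.zero_le (K + 2)) (D.P k₂ h2) le_rfl fun _ _ => rfl) B' hB' hP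
  split_ifs
  · exact D.nb
  · exact D.n l (by omega)

end

end Pool.AVG57
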