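import Pool.Agent.H57.AVG.C1h

/-!
# The closed gradient in a class at almost every `g`: the numbers and the mutual informations

`Bx1`: the numbers of a box with the margin `ν`. `C1X`: the numbers, the windows and the two mutual
informations of `C1C` at the standard digits. `c1_ae`: `C1X` at almost every `g`. `C1R`: the other
inputs. `c1_box`: the closed gradient.
-/

set_option autoImplicit false

namespace Pool.AVG57

open Finset Real MvPolynomial MeasureTheory Filter Topology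
open Pool.Agent.H49.Ent Pool.Agent.H32.Dense Pool.STK Pool.KA Pool.KSAT Pool.K2S Pool.PB Pool.S6C
open Pool.GEN Pool.CHT Pool.RCD Pool.LA91 Pool.AVG96

variable {m : ℕ} {γ : ∀ J : ℕ, Fam m J → Type}

/-- The near digits: `d` digits beyond the level at the moved place `v`. -/
noncomputable def dnN (s n n' : ℕ → ℝ) (w d : ℝ) (v l j' : ℕ) : ℝ :=
  if l = v then s v - (j' : ℝ) * w + d else nd n n' w l j'

/-- The far digits at the moved place only. -/
noncomputable def ddN (sn : ℝ → ℕ → ℝ) (a : ℕ → ℝ) (n n' : ℕ → ℝ) (w : ℝ) (v l j' : ℕ) : ℝ :=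
  if l = v then nD sn a v j' else nd n n' w l j'

/-- The digits of the lower places for the own path of the target. -/
noncomputable def ntN (s n : ℕ → ℝ) (d : ℝ) (v l : ℕ) : ℝ := if l = v then s v + d else n l

/-- The near digits of the target. -/
noncomputable def enN (s : ℕ → ℝ) (w d : ℝ) (v j' : ℕ) : ℝ := s (v + 1) - (j' : ℝ) * w + d

/-- The digits of the moved place, of the orders `0` and `1`. -/
noncomputable def nvN (s : ℕ → ℝ) (w q b : ℝ) (v k : ℕ) : ℝ := if k = 0 then s v + q else s v + b - w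

/-- **The numbers of a box.** `q`, `ξ`, `μ`: the parameters; `ν`: the margin; `φ`: the loss of the
labels; `s`, `p`: the levels and the precisions of the labels; `n`, `n'`: the digits. -/
structure Bx1 (sn : ℝ → ℕ → ℝ) (r₀ v : ℕ) (Sl : ℕ → ℝ) (w j x δW q ξ μ ν φ C : ℝ)
    (p s n n' : ℕ → ℝ) : Prop where
  q0 : 0 < q
  ξ0 : 0 < ξ
  μ0 : 0 < μ
  ν0 : 0 < ν
  δ0 : 0 < δW
  δν : δW ≤ ν / 8
  δξ : δW ≤ ξ
  φν : φ ≤ ν / 8
  φμ : φ < μ
  wj : w ≤ j
  wx : w ≤ x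
  jn : ∀ l, r₀ ≤ l → l ≤ v + 1 → Sl l * (j - w) + ν ≤ q
  xn : ∀ l, r₀ ≤ l → l ≤ v → Sl l * (x - w) + ν ≤ q
  qC : q + ξ + μ ≤ C
  base : ∀ l < r₀, 0 ≤ p l ∧ p l ≤ s l ∧ s l + q + ξ + μ < n l ∧ n l ≤ n' l
  sc : ∀ l, r₀ ≤ l → l ≤ v + 1 → s l = sn w l
  p0 : ∀ l, r₀ ≤ l → l ≤ v + 1 → 0 ≤ p l
  pc : Rgh sn r₀ (v + 1) w φ p
  nc : ∀ l, r₀ ≤ l → l ≤ v → sn w l + q + ξ + μ < n l ∧ n l ≤ sn w l + C ∧ n' l = n l

/-- **The numbers, the windows and the mutual informations** at the standard digits. -/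
structure C1X (S : PCl m) (y : ∀ (J : ℕ) (F : Fam m J), F.Ω → γ J F) (c : ℕ → Fin m)
    (r₀ v : ℕ) (sn : ℝ → ℕ → ℝ) (a : ℕ → ℝ) (w j x δW q ξ μ ν : ℝ) (p s n n' : ℕ → ℝ)
    (η : ℝ) : Prop where
  num : C1N r₀ v w δW p s n n' (ntN s n (q - ν / 4) v) q ξ μ (s (v + 1) + q + ξ)
    (s (v + 1) + q - ν) (s v + q + ξ) (nD sn a) (dnN s n n' w (q - ν / 4) v)
    (dnN s n n' w (q - ν / 4) v) (ddN sn a n n' w v) (nD sn a (v + 1)) (enN s w (q - ν / 2) v)
    (nvN s w q (q + ξ + μ + ν) v)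
  tm : ∃ C₀, TmC S C₀
  wj : w ≤ j
  j1 : j ≤ 1
  wx : w ≤ x
  x1 : x ≤ 1
  mj : MIw S (fun J F => ptr F J) y w j
    ((jetQ m c r₀ (v + 1) w p (nD sn a)).prod (prQ m c (v + 1) w (p (v + 1)) (nD sn a (v + 1))))
    ((jetQ m c r₀ (v + 1) w p (dnN s n n' w (q - ν / 4) v)).prod
      (prQ m c (v + 1) w (p (v + 1)) (enN s w (q - ν / 2) v))) η
  mx : MIw S (fun J F => ptr F J) y w x (jetQ m c r₀ (v + 1) w p (nD sn a))
    (jetQ m c r₀ (v + 1) w p (dnN s n n' w (q - ν / 4) v)) η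

/-- **The other inputs** at the standard digits. -/
structure C1R (S : PCl m) (y : ∀ (J : ℕ) (F : Fam m J), F.Ω → γ J F) (c : ℕ → Fin m)
    (r₀ v K : ℕ) (sn : ℝ → ℕ → ℝ) (a : ℕ → ℝ) (w x q ξ μ ν : ℝ) (p s n n' : ℕ → ℝ)
    (h lo hi η : ℝ) : Prop where
  yW : ∀ (J : ℕ) (F : Fam m J), ∃ φ : γ J F → F.ζ × ℕ, ∀ ω, φ (y J F ω) = (F.Z ω, F.T ω)
  yf : YfC S y c r₀ w p n n' η
  y0 : ∀ l < r₀, CdC S y c l K 0 w w (p l) (n l) η (Qt.fn fun _ _ _ => ())
  y1 : ∀ l < r₀, CdC S y c l K 1 w w (p l) (n' l) η (Qt.fn fun _ _ _ => ())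
  cd : ∀ l, r₀ ≤ l → l ≤ v → CdC S y c l K 2 w w (p l) (n' l) η
    (jetQ m c r₀ l w p (nd n n' w))
  dj : CdC S y c (v + 1) K 1 w w (p (v + 1)) (s (v + 1) + q + ξ) η
    (jetQ m c r₀ (v + 1) w p (ddN sn a n n' w v))
  jt : CdC S y c (v + 1) K 0 w x (p (v + 1)) (s (v + 1) + q - ν) η
    (qJets m c r₀ (v + 1) (K + 2) (fun _ _ => w) (fun l _ => p l)
      (fun l j' => ntN s n (q - ν / 4) v l - (j' : ℝ) * w))
  vf : VfC S y c r₀ v w x p n n' (s v + q) (s v + q + ξ) (s v + (q + ξ + μ + ν) - w) η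
  row : ∀ P₁ P₂ : ℝ, lo ≤ P₁ → P₁ ≤ P₂ → P₂ ≤ hi →
    RwC S y c r₀ v w p (fun l => if l = v then s v + q + ξ else n l) P₁ P₂ h η

variable {S : PCl m} {y : ∀ (J : ℕ) (F : Fam m J), F.Ω → γ J F} {c : ℕ → Fin m} {r₀ v K : ℕ}
  {s₀ A B Λ : ℝ} {sn : ℝ → ℕ → ℝ} {G : Set ℝ} {Sl a : ℕ → ℝ}
  {w j x δW q ξ μ ν φ C h lo hi η : ℝ} {p s n n' : ℕ → ℝ}

/-- All the inputs. -/
theorem C1X.cc (X : C1X S y c r₀ v sn a w j x δW q ξ μ ν p s n n' η)
    (R : C1R S y c r₀ v K sn a w x q ξ μ ν p s n n' h lo hi η) :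
    C1C S y c r₀ v K w j x p n n' (ntN s n (q - ν / 4) v) (s (v + 1) + q + ξ)
      (s (v + 1) + q - ν) (s v + q + ξ) (nD sn a) (dnN s n n' w (q - ν / 4) v)
      (dnN s n n' w (q - ν / 4) v) (ddN sn a n n' w v) (nD sn a (v + 1)) (enN s w (q - ν / 2) v)
      (nvN s w q (q + ξ + μ + ν) v) h lo hi η where
  tm := X.tm
  wj := X.wj
  j1 := X.j1
  wx := X.wx
  x1 := X.x1
  yW := R.yW
  yf := R.yf
  y0 := R.y0
  y1 := R.y1
  mj := X.mj
  mx := X.mx
  cd := R.cd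
  dj := R.dj
  jt := R.jt
  vf := R.vf
  row := R.row

/-- **The numbers.** -/
theorem Bx1.num (N : Bx1 sn r₀ v Sl w j x δW q ξ μ ν φ C p s n n') (hr : r₀ ≤ v)
    (hw0 : 0 ≤ w) (hw1 : w + δW + ξ < 1)
    (hv : ∀ j' ≤ 1, sn w v + C < nD sn a v j' + (j' : ℕ) * w)
    (ht : sn w (v + 1) + C < nD sn a (v + 1) 0) :
    C1N r₀ v w δW p s n n' (ntN s n (q - ν / 4) v) q ξ μ (s (v + 1) + q + ξ)
      (s (v + 1) + q - ν) (s v + q + ξ) (nD sn a) (dnN s n n' w (q - ν / 4) v)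
      (dnN s n n' w (q - ν / 4) v) (ddN sn a n n' w v) (nD sn a (v + 1)) (enN s w (q - ν / 2) v)
      (nvN s w q (q + ξ + μ + ν) v) := by
  have hq := N.q0
  have hξ := N.ξ0
  have hμ := N.μ0
  have hν := N.ν0
  have hδ := N.δ0
  have h1 := N.δν
  have h2 := N.δξ
  have h3 := N.φν
  have h4 := N.φμ
  have hC := N.qC
  have sv := N.sc v hr (by omega)
  have st := N.sc (v + 1) (by omega) le_rfl
  have pv := N.pc v hr (by omega)
  have pt := N.pc (v + 1) (by omega) le_rfl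
  have hv0 := hv 0 (by omega)
  have hv1 := hv 1 le_rfl
  push_cast at hv0 hv1
  have e1 : ∀ d : ℝ, dnN s n n' w d v v 0 = s v + d := fun d => by
    unfold dnN
    rw [if_pos rfl]
    push_cast
    ring
  have e2 : ∀ d : ℝ, dnN s n n' w d v v 1 = s v - w + d := fun d => by
    unfold dnN
    rw [if_pos rfl]
    push_cast
    ring
  have e3 : ntN s n (q - ν / 4) v v = s v + (q - ν / 4) := by
    unfold ntN
    rw [if_pos rfl]
  have e4 : enN s w (q - ν / 2) v 0 = s (v + 1) + (q - ν / 2) := by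
    unfold enN
    push_cast
    ring
  have e5 : enN s w (q - ν / 2) v 1 = s (v + 1) - w + (q - ν / 2) := by
    unfold enN
    push_cast
    ring
  have e6 : nvN s w q (q + ξ + μ + ν) v 0 = s v + q := by
    unfold nvN
    rw [if_pos rfl]
  have e7 : nvN s w q (q + ξ + μ + ν) v 1 = s v + (q + ξ + μ + ν) - w := by
    unfold nvN
    rw [if_neg one_ne_zero]
  exact
    { rv := hr
      ps := fun l hl => by
        rcases Nat.lt_or_ge l r₀ with h0 | h0
        · obtain ⟨b1, b2, -, -⟩ := N.base l h0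
          exact ⟨b1, b2⟩
        · exact ⟨N.p0 l h0 hl, by rw [N.sc l h0 hl]; exact (N.pc l h0 hl).2⟩
      w0 := hw0
      δ0 := hδ
      w1 := hw1
      q0 := hq
      ξ0 := hξ
      μ0 := hμ
      n0 := by rw [e1]; linarith only [h3, hν, pv.1, sv]
      n1 := by rw [e2]; linarith only [h3, h2, hμ, hν, pv.1, sv]
      ns := fun l _ h2 j' _ => by
        unfold dnN
        rw [if_neg (by omega)]
      x0 := by rw [e1]; linarith only [h3, hν, pv.1, sv]
      x1 := by rw [e2]; linarith only [h3, h2, hμ, hν, pv.1, sv]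
      xs := fun l _ h2 j' _ => by
        unfold dnN
        rw [if_neg (by omega)]
      u0 := by rw [e3]; linarith only [h3, hν, pv.1, sv]
      u1 := by rw [e3]; linarith only [h3, h2, hμ, hν, pv.1, sv]
      us := fun l _ h2 => by
        unfold ntN
        rw [if_neg (by omega)]
      m0 := by rw [e4]; linarith only [h3, hν, pt.1, st]
      m1 := by rw [e5]; linarith only [h3, h1, hν, pt.1, st]
      mf := by linarith only [ht, hC, hμ, st]
      f0 := by linarith only [hv0, hC, sv]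
      f1 := by linarith only [hv1, hC, sv]
      v0 := by rw [e6]
      v1 := by rw [e7]; linarith only [hν]
      b0 := le_rfl
      b1 := by linarith only [pv.1, sv, h4]
      b2 := by rw [e6]
      c0 := fun l hl => by
        rcases Nat.lt_or_ge l r₀ with h0 | h0
        · obtain ⟨-, -, b1, -⟩ := N.base l h0
          exact b1
        · obtain ⟨b1, -, -⟩ := N.nc l h0 hl
          rw [N.sc l h0 (by omega)]
          exact b1
      c1 := fun l hl => by
        obtain ⟨-, -, -, b1⟩ := N.base l hl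
        exact b1
      c2 := fun l l0 l1 => by
        obtain ⟨-, -, b1⟩ := N.nc l l0 l1
        exact b1
      d0 := le_rfl
      ds := fun l _ h2 j' _ => by
        unfold ddN
        rw [if_neg (by omega)]
      dv := fun j' _ => by
        unfold ddN
        rw [if_pos rfl] }

/-- The far digits of the target: if the slope of the target is more than `1`, the level grows. -/
theorem far_T {g : ℝ} (hS : SlpG sn r₀ (v + 1) G g Sl) (hr : r₀ ≤ v + 1) (hσ : 1 < Sl (v + 1))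
    (hA : A < g)
    (hm : ∀ x ∈ G, ∀ o ∈ G, A ≤ x → x ≤ o → o < B → sn x (v + 1) - x ≤ sn o (v + 1) - o)
    {b : ℝ} (hb : b ∈ G) (hgb : g < b) (hbB : b < B) :
    ∃ γ₀ : ℝ, 0 < γ₀ ∧ ∃ ρ : ℝ, 0 < ρ ∧ ∀ w ∈ G, g - ρ ≤ w → w ≤ g + ρ →
      sn w (v + 1) + γ₀ ≤ sn b (v + 1) ∧ sn w (v + 1) + γ₀ ≤ sn b (v + 1) - b + w := by
  obtain ⟨τ, hτ⟩ : ∃ τ, τ = Sl (v + 1) - 1 := ⟨_, rfl⟩
  have hτ0 : 0 < τ := by rw [hτ]; linarith
  obtain ⟨ρ₁, hρ₁, H1⟩ := hS.sl (v + 1) hr le_rfl (τ / 8) (by positivity)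
  obtain ⟨ρ₂, hρ₂, H2⟩ := hS.gap (1 / 8) (by norm_num)
  obtain ⟨t, ht, t1, t2, t3, t4⟩ : ∃ t : ℝ, 0 < t ∧ t < ρ₁ ∧ t < ρ₂ ∧ g + t < b ∧ A < g - t := by
    obtain ⟨t, ht⟩ : ∃ t : ℝ, t = min (min (ρ₁ / 2) (ρ₂ / 2)) (min ((b - g) / 2) ((g - A) / 2)) :=
      ⟨_, rfl⟩
    have q1 : t ≤ ρ₁ / 2 := by rw [ht]; exact (min_le_left _ _).trans (min_le_left _ _)
    have q2 : t ≤ ρ₂ / 2 := by rw [ht]; exact (min_le_left _ _).trans (min_le_right _ _)
    have q3 : t ≤ (b - g) / 2 := by rw [ht]; exact (min_le_right _ _).trans (min_le_left _ _)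
    have q4 : t ≤ (g - A) / 2 := by rw [ht]; exact (min_le_right _ _).trans (min_le_right _ _)
    refine ⟨t, ?_, by linarith, by linarith, by linarith, by linarith⟩
    rw [ht]
    exact lt_min (lt_min (by positivity) (by positivity)) (lt_min (by linarith) (by linarith))
  obtain ⟨u, hu, u1, u2⟩ := H2 t ht t2 (g + t) (by linarith) le_rfl
  refine ⟨τ * t / 2, by positivity, t / 4, by positivity, fun w hw w1 w2 => ?_⟩
  have k1 := (abs_le.1 (H1 t ht t1 w hw u hu (by linarith) (by linarith) u2)).1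
  have k2 := hm u hu b hb (by linarith) (by linarith) hbB
  have k3 : τ * (5 * t / 8) ≤ τ * (u - w) := mul_le_mul_of_nonneg_left (by linarith) hτ0.le
  have k4 : Sl (v + 1) * (u - w) = τ * (u - w) + (u - w) := by rw [hτ]; ring
  constructor <;> linarith

/-- **The numbers and the mutual informations at almost every `g`.** -/
theorem c1_ae (h : GCh S (fun J F => ptr F J) y c r₀ (v + 1) s₀ A B Λ sn G)
    (hn : HNum S (fun J F => ptr F J) y c r₀ (v + 1) s₀ (PG G A s₀) (B - s₀) Λ (whG G A s₀)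
      (scG sn G A s₀)) (hr : r₀ ≤ v) :
    ∀ᵐ g : ℝ, A < g → g < B → ∀ Sl : ℕ → ℝ, SlpG sn r₀ (v + 1) G g Sl → 1 < Sl (v + 1) →
      ∀ e ν₀ C δ : ℝ, 0 < e → 0 < ν₀ → 0 < C → 0 < δ → ∃ φ : ℝ, 0 < φ ∧ ∃ a : ℕ → ℝ,
        (∀ l, r₀ ≤ l → l ≤ v + 1 → a l ∈ G ∧ g < a l ∧ a l < g + δ ∧ a l < B) ∧
        ∃ ρ : ℝ, 0 < ρ ∧ ∃ (lv : ℕ → ℝ) (σ₀ : ℝ),
          FarR sn G r₀ (v + 1) a Λ (g - ρ) (g + ρ) lv σ₀ ∧ C * ρ ≤ σ₀ / 2 ∧
          C * ρ + σ₀ / 2 ≤ Λ ∧
          ∀ R : ℝ, 0 < R → R < ρ → ∀ w ∈ G, ∀ j x : ℝ, g - R ≤ w → j ≤ g + R → x ≤ g + R →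
            ∀ (δW q ξ μ ν : ℝ) (p s n n' : ℕ → ℝ), ν₀ * R ≤ ν →
            Bx1 sn r₀ v Sl w j x δW q ξ μ ν (φ * R) (C * R) p s n n' →
            C1X S y c r₀ v sn a w j x δW q ξ μ ν p s n n' (e * R) := by
  filter_upwards [mj_Gr h hn (Nat.le_succ_of_le hr)] with g hg hgA hgB Sl hSl hσ e ν₀ C δ he hν hC
    hδ
  have hφ : (0 : ℝ) < ν₀ / 8 / (16 * (((v + 1 : ℕ) : ℝ) + 2)) := by positivity
  obtain ⟨a, ha, lv, σ₀, ρ₁, hρ₁, hρA, hρB, hF, hC1, hC2, -, H⟩ :=
    hg hgA hgB Sl hSl e (ν₀ / 8) C δ _ he (by positivity) hC hδ hφ.le (by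
      rw [mul_div_cancel₀ _ (by positivity)])
  obtain ⟨φ, hφe⟩ : ∃ φ, φ = ν₀ / 8 / (16 * (((v + 1 : ℕ) : ℝ) + 2)) := ⟨_, rfl⟩
  rw [← hφe] at hφ H
  obtain ⟨hb1, hb2, -, hb3⟩ := ha (v + 1) (by omega) le_rfl
  obtain ⟨γ₀, hγ₀, ρ₂, hρ₂, Hf⟩ := far_T hSl (by omega) hσ hgA
    (h.mono (v + 1) (by omega) le_rfl) hb1 hb2 hb3
  obtain ⟨ρ₃, hρ₃, Hs⟩ := hSl.sl (v + 1) (by omega) le_rfl (ν₀ / 2) (by positivity)
  have hσ0 := hF.σ0
  obtain ⟨ρ, hρ, r1, r2, r3, r4, r5⟩ : ∃ ρ : ℝ, 0 < ρ ∧ ρ ≤ ρ₁ ∧ ρ ≤ ρ₂ ∧ ρ ≤ ρ₃ ∧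
      C * ρ < γ₀ ∧ (1 + C) * ρ ≤ B - g := by
    have q1 : 0 < B - g := by linarith
    refine ⟨min (min ρ₁ ρ₂) (min ρ₃ (min (γ₀ / (2 * C)) ((B - g) / (1 + C)))), by positivity,
      (min_le_left _ _).trans (min_le_left _ _), (min_le_left _ _).trans (min_le_right _ _),
      (min_le_right _ _).trans (min_le_left _ _), ?_, ?_⟩
    · have h1 := (min_le_right (min ρ₁ ρ₂) (min ρ₃ (min (γ₀ / (2 * C)) ((B - g) / (1 + C))))).trans
        ((min_le_right _ _).trans (min_le_left _ _))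
      have h2 := mul_le_mul_of_nonneg_left h1 hC.le
      have h3 : C * (γ₀ / (2 * C)) = γ₀ / 2 := by field_simp
      linarith
    · have h1 := (min_le_right (min ρ₁ ρ₂) (min ρ₃ (min (γ₀ / (2 * C)) ((B - g) / (1 + C))))).trans
        ((min_le_right _ _).trans (min_le_right _ _))
      have h2 := mul_le_mul_of_nonneg_left h1 (show (0 : ℝ) ≤ 1 + C by linarith)
      have h3 : (1 + C) * ((B - g) / (1 + C)) = B - g := by field_simp
      linarith
  have hCρ : C * ρ ≤ C * ρ₁ := mul_le_mul_of_nonneg_left r1 hC.le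
  have hF' := hF.mono (A'' := g - ρ) (B'' := g + ρ) (by linarith) (by linarith)
  refine ⟨φ, hφ, a, ha, ρ, hρ, lv, σ₀, hF', by linarith, by linarith, ?_⟩
  intro R hR hRρ w hw j x w1 j2 x2 δW q ξ μ ν p s n n' hνR N
  have hCR : C * R < C * ρ := mul_lt_mul_of_pos_left hRρ hC
  have hCR' : (1 + C) * R ≤ (1 + C) * ρ := mul_le_mul_of_nonneg_left hRρ.le (by linarith)
  have eCR : (1 + C) * R = R + C * R := by ring
  have hνR0 : 0 < ν₀ * R := by positivity
  have eκ : ν₀ / 8 * R = ν₀ * R / 8 := by ring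
  have hq := N.q0
  have hξ := N.ξ0
  have hμ := N.μ0
  have hν' := N.ν0
  have hwj := N.wj
  have hwx := N.wx
  have hqC := N.qC
  have hδν := N.δν
  have hA0 := h.A0
  have hB1 := h.B1
  have hwB : w < B := by linarith
  have st := N.sc (v + 1) (by omega) le_rfl
  have sv := N.sc v hr (by omega)
  have hσt := hSl.nn (v + 1) (by omega) le_rfl
  have hqν : ν ≤ q := by
    have k1 := N.jn (v + 1) (by omega) le_rfl
    have k2 := mul_nonneg hσt (show 0 ≤ j - w by linarith)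
    linarith only [k1, k2]
  -- the near digits
  have hd1 : q - ν / 4 ≤ C * R := by linarith
  have hD : ∀ l, r₀ ≤ l → l < v + 1 → ∀ j' ≤ 1,
      sn w l - (j' : ℕ) * w + (q - ν / 4) ≤ dnN s n n' w (q - ν / 4) v l j' ∧
      dnN s n n' w (q - ν / 4) v l j' ≤ sn w l - (j' : ℕ) * w + C * R := by
    intro l l0 l1 j' hj'
    rcases Nat.lt_or_ge l v with h0 | h0
    · obtain ⟨k1, k2, k3⟩ := N.nc l l0 h0.le
      have e1 : dnN s n n' w (q - ν / 4) v l j' = n l - (j' : ℝ) * w := by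
        unfold dnN nd
        rw [if_neg (by omega)]
        rcases Nat.eq_zero_or_pos j' with rfl | hj
        · rw [if_pos rfl]
          push_cast
          ring
        · rw [if_neg (by omega), k3]
      rw [e1]
      constructor <;> linarith
    · obtain rfl : l = v := by omega
      have e1 : dnN s n n' w (q - ν / 4) l l j' = sn w l - (j' : ℝ) * w + (q - ν / 4) := by
        unfold dnN
        rw [if_pos rfl, sv]
      rw [e1]
      constructor <;> linarith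
  have hp := N.pc
  have Mj := H R hR (by linarith) w hw j w1 hwj j2 p hp (q - ν / 4)
    (dnN s n n' w (q - ν / 4) v) hd1 (fun l l0 l1 => by
      have k1 := N.jn l l0 (by omega)
      rw [eκ]
      linarith) hD
  have Mx := H R hR (by linarith) w hw x w1 hwx x2 p hp (q - ν / 4)
    (dnN s n n' w (q - ν / 4) v) hd1 (fun l l0 l1 => by
      have k1 := N.xn l l0 (by omega)
      rw [eκ]
      linarith) hD
  obtain ⟨f1, f2⟩ := Hf w hw (by linarith) (by linarith)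
  have hT : ∀ j' ≤ 1, enN s w (q - ν / 2) v j' ≤ nD sn a (v + 1) j' := by
    intro j' hj'
    unfold enN nD
    rcases Nat.eq_zero_or_pos j' with rfl | hj
    · push_cast
      linarith
    · obtain rfl : j' = 1 := by omega
      push_cast
      linarith
  have hE : ∀ j' ≤ 1, (∀ o ∈ G, A ≤ o → o ≤ j → sn o (v + 1) - (j' : ℕ) * o ≤
      enN s w (q - ν / 2) v j') ∧
      enN s w (q - ν / 2) v j' ≤ sn w (v + 1) - (j' : ℕ) * w + C * R ∧
      enN s w (q - ν / 2) v j' ≤ nD sn a (v + 1) j' := by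
    intro j' hj'
    have hj0 : (0 : ℝ) ≤ j' := Nat.cast_nonneg j'
    have hj1 : (j' : ℝ) ≤ 1 := by exact_mod_cast hj'
    refine ⟨fun o ho o1 o2 => ?_, ?_, hT j' hj'⟩
    · unfold enN
      rcases le_or_gt w o with k | k
      · have k1 := (abs_le.1 (Hs R hR (by linarith) w hw o ho w1 k (by linarith))).2
        have k2 := N.jn (v + 1) (by omega) le_rfl
        have k3 : Sl (v + 1) * (o - w) ≤ Sl (v + 1) * (j - w) :=
          mul_le_mul_of_nonneg_left (by linarith) hσt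
        have k4 : (j' : ℝ) * w ≤ (j' : ℝ) * o := mul_le_mul_of_nonneg_left k hj0
        have k5 : ν₀ / 2 * R = ν₀ * R / 2 := by ring
        linarith
      · have k1 := h.mono (v + 1) (by omega) le_rfl o ho w hw o1 k.le hwB
        have k4 : (1 - (j' : ℝ)) * o ≤ (1 - (j' : ℝ)) * w :=
          mul_le_mul_of_nonneg_left k.le (by linarith)
        linarith
    · unfold enN
      rw [st]
      linarith
  exact
    { num := N.num hr (by linarith) (by linarith) (fun j' hj' => by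
        have k1 := hF'.far hw (by linarith) (by linarith) hr (Nat.lt_succ_self v) hj'
        have k2 := hF'.lv0 v hr (Nat.lt_succ_self v)
        linarith) (by
        unfold nD
        push_cast
        linarith)
      tm := h.tm
      wj := hwj
      j1 := by linarith
      wx := hwx
      x1 := by linarith
      mj := Mj.2 (by
        have k1 := N.jn (v + 1) (by omega) le_rfl
        rw [eκ]
        linarith) _ hE
      mx := Mx.1 }

end Pool.AVG57
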