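import Pool.Agent.H57.AVG.C1b
import Pool.Agent.H57.AVG.C1s

/-!
# From the inputs of a class to the inputs on one event: entropies

`mx0`: the finest closed function. `MI_mono`, `MI_add`: mutual informations. `sd_few`: the codes
`sdL` are few bits given the jets of the chain and the codes of the base. `jets_sd`: the jets of all
orders from the codes.
-/

set_option autoImplicit false

namespace Pool.AVG57

open Finset Real MvPolynomial
open Pool.Agent.H49.Ent Pool.Agent.H32.Dense Pool.STK Pool.KA Pool.KSAT Pool.K2S Pool.PB Pool.S6C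
open Pool.GEN Pool.CHT Pool.CHX Pool.ISO Pool.RCD Pool.LA91 Pool.AVG71 Pool.AVG5 Pool.D2F2
open Pool.PB.Trl (rt rt_mem t_rt)
open Pool.D2R (hgt gnh GrdE chs)
open Pool.KVA (MI)
open Pool.KAF (rs Pr)
open Pool.BFL (Pb)

/-! ### The finest closed function -/

/-- **The finest closed function** on an event. -/
theorem mx0 {Ω α β : Type} (f : Ω → α) (g : Ω → β) (A : Ω → Prop) :
    ∃ (V : Type) (z : Ω → V), Cl2 f g A z ∧
      ∀ (V' : Type) (z' : Ω → V'), Cl2 f g A z' → ∀ ω ν, z ω = z ν → z' ω = z' ν := by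
  classical
  obtain ⟨r, hr⟩ : ∃ r : Ω → Ω → Prop, r = fun ω ν => (A ω ∧ A ν) ∧ (f ω = f ν ∨ g ω = g ν) :=
    ⟨_, rfl⟩
  refine ⟨Option (Quot r), fun ω => some (Quot.mk r ω), ⟨⟨fun a => if h : ∃ ω, A ω ∧ f ω = a then
    some (Quot.mk r h.choose) else none, fun ω hω => ?_⟩, fun a => if h : ∃ ω, A ω ∧ g ω = a then
    some (Quot.mk r h.choose) else none, fun ω hω => ?_⟩, fun V' z' hz' ω ν e => ?_⟩
  · have h : ∃ ν, A ν ∧ f ν = f ω := ⟨ω, hω, rfl⟩
    dsimp only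
    rw [dif_pos h]
    congr 1
    refine Quot.sound ?_
    rw [hr]
    exact ⟨⟨hω, h.choose_spec.1⟩, Or.inl h.choose_spec.2.symm⟩
  · have h : ∃ ν, A ν ∧ g ν = g ω := ⟨ω, hω, rfl⟩
    dsimp only
    rw [dif_pos h]
    congr 1
    refine Quot.sound ?_
    rw [hr]
    exact ⟨⟨hω, h.choose_spec.1⟩, Or.inr h.choose_spec.2.symm⟩
  · obtain ⟨⟨φ, hφ⟩, ψ, hψ⟩ := hz'
    have key : ∀ ω ν, r ω ν → z' ω = z' ν := by
      intro ω ν h
      rw [hr] at h
      obtain ⟨⟨h1, h2⟩, h3⟩ := h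
      rcases h3 with h3 | h3
      · rw [hφ ω h1, hφ ν h2, h3]
      · rw [hψ ω h1, hψ ν h2, h3]
    exact congrArg (Quot.lift z' key) (Option.some_injective _ e)

/-! ### Entropy -/

section ent

variable {Ω 𝓡 𝓨 𝓦 𝓥 𝓐 : Type} [Fintype Ω] {p : Ω → ℝ}

/-- The mutual information with a function of the variable. -/
theorem MI_mono (h0 : ∀ ω, 0 ≤ p ω) (R : Ω → 𝓡) {X : Ω → 𝓐} {X' : Ω → 𝓨} (W : Ω → 𝓦)
    (h : Det p (fun ω => (X ω, W ω)) X') : MI p R X' W ≤ MI p R X W := by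
  rw [MI_eq h0, MI_eq h0]
  have h1 : CH p R (fun ω => (X ω, W ω)) ≤ CH p R (fun ω => (X' ω, W ω)) :=
    CH_mono_cond h0 fun ω ν hω hν e => Prod.ext (h ω ν hω hν e) (Prod.ext_iff.mp e).2
  linarith

/-- The mutual information with few more bits in the condition. -/
theorem MI_add (h0 : ∀ ω, 0 ≤ p ω) (R : Ω → 𝓡) (X : Ω → 𝓐) {Z : Ω → 𝓦} {Z' : Ω → 𝓥}
    {C : Ω → 𝓨} (h1 : Det p Z' Z) (h2 : Det p (fun ω => (C ω, Z ω)) Z') :
    MI p R X Z' ≤ MI p R X Z + CH p C Z := by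
  rw [MI_eq h0, MI_eq h0]
  have a1 : CH p R Z' ≤ CH p R Z := CH_mono_cond h0 h1
  have a2 := CH_le_add h0 R C (fun ω => (X ω, Z ω))
  have a3 : CH p C (fun ω => (X ω, Z ω)) ≤ CH p C Z :=
    CH_mono_cond h0 fun _ _ _ _ e => (Prod.ext_iff.mp e).2
  have a4 : CH p R (fun ω => (C ω, (X ω, Z ω))) ≤ CH p R (fun ω => (X ω, Z' ω)) :=
    CH_mono_cond h0 fun ω ν hω hν e => by
      obtain ⟨e1, e2⟩ := Prod.ext_iff.mp e
      obtain ⟨e3, e4⟩ := Prod.ext_iff.mp e2
      exact Prod.ext e3 (h2 ω ν hω hν (Prod.ext e1 e4))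
  linarith

end ent

/-! ### The codes given the jets -/

variable {m J : ℕ}

/-- The constant of the codes from the jets. -/
noncomputable def cD (K : ℕ) : ℝ :=
  (K + 1) * Real.log (2 * ((K + 1) * 2 ^ K * (2 + (K + 1) * 2 ^ K) + 1) + 1)

theorem cD_nonneg (K : ℕ) : 0 ≤ cD K := by
  unfold cD
  have h1 : (0 : ℝ) ≤ (K + 1) * 2 ^ K * (2 + (K + 1) * 2 ^ K) := by positivity
  exact mul_nonneg (by positivity) (Real.log_nonneg (by linarith))

section

variable {F : Fam m J} {c : ℕ → Fin m} {v w K D : ℕ}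
  {H : LnT F → ℕ → MvPolynomial (Option (Fin m)) ℝ} {nc nc' : ℕ → ℕ} {p : F.Ω → ℝ}

/-- The codes of all orders from the jets of the orders `0`, `1` and the code of the orders `≥ 2`. -/
theorem cod_jets (hp : IsLaw p) (hw : w ≤ J) (hH : ∀ s l, (H s l).totalDegree ≤ D)
    (hK : D + 1 ≤ K) {l n a₀ : ℕ} {N : ℕ → ℝ} (h0 : (n : ℝ) ≤ N 0 * J)
    (h1 : (n : ℝ) ≤ N 1 * J + w + 1) {𝓦 : Type} (Z : F.Ω → 𝓦)
    (hZ : ∀ ω ν, 0 < p ω → 0 < p ν → Z ω = Z ν → F.T ω = F.T ν ∧ (∀ j' ≤ 1,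
      ⌊(2 : ℝ) ^ (N j' * J) * ojet F (c l) j' (H (slam F w ω) l) ω⌋ =
        ⌊(2 : ℝ) ^ (N j' * J) * ojet F (c l) j' (H (slam F w ν) l) ν⌋) ∧
      cod F w (fun s => H s l) (c l) n 2 K ω = cod F w (fun s => H s l) (c l) n 2 K ν) :
    CH p (cod F w (fun s => H s l) (c l) n a₀ K) Z ≤ cD K := by
  refine cod_few hp Z (D := (K + 1) * 2 ^ K * (2 + (K + 1) * 2 ^ K)) (by positivity)
    fun ω ν hω hν e b _ _ => ?_
  obtain ⟨z1, z2, z3⟩ := hZ ω ν hω hν e
  have p2 : (0 : ℝ) < 2 ^ n := by positivity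
  have hdeg := natDegree_dvH (F := F) (c := c) (w := w) hH hK l
  have g0 := near_of_floor (Real.rpow_pos_of_pos two_pos (N 0 * J)) (z2 0 (by norm_num))
  have g1 := near_of_floor (Real.rpow_pos_of_pos two_pos (N 1 * J)) (z2 1 le_rfl)
  have k0 : |ojet F (c l) 0 (H (slam F w ω) l) ω - ojet F (c l) 0 (H (slam F w ν) l) ν| ≤
      2 / 2 ^ n := by
    refine g0.trans ?_
    have h3 : (2 : ℝ) ^ n ≤ 2 ^ (N 0 * J) := by
      rw [← Real.rpow_natCast]
      exact Real.rpow_le_rpow_of_exponent_le one_le_two h0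
    calc (1 : ℝ) / 2 ^ (N 0 * J) ≤ 1 / 2 ^ n := one_div_le_one_div_of_le p2 h3
      _ ≤ 2 / 2 ^ n := div_le_div_of_nonneg_right (by norm_num) p2.le
  have k1 : |ojet F (c l) 1 (H (slam F w ω) l) ω - ojet F (c l) 1 (H (slam F w ν) l) ν| / 2 ^ w ≤
      2 / 2 ^ n := by
    have p3 : (0 : ℝ) < 2 ^ (N 1 * J) := Real.rpow_pos_of_pos two_pos _
    refine (div_le_div_of_nonneg_right g1 (by positivity)).trans ?_
    rw [div_div, div_le_div_iff₀ (by positivity) p2, one_mul]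
    have h3 : (2 : ℝ) ^ n ≤ 2 * (2 ^ (N 1 * J) * 2 ^ w) := by
      have e4 : (2 : ℝ) * (2 ^ (N 1 * J) * 2 ^ w) = 2 ^ (N 1 * J + w + 1) := by
        rw [Real.rpow_add two_pos, Real.rpow_add two_pos, Real.rpow_one, Real.rpow_natCast]
        ring
      rw [e4, ← Real.rpow_natCast]
      exact Real.rpow_le_rpow_of_exponent_le one_le_two h1
    exact h3
  have h4 := dv_near (F := F) (a := w) hw (k := c l) (N := K) (a₀ := 2)
    (G := fun s (_ : Fin m) => H s l) (ω := ω) (ν := ν) (fun s => hdeg s) (rt_of F hw z1)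
    (ε := 1 / 2 ^ n) (δ := 2 / 2 ^ n) (by positivity) (by positivity) (fun b hb => by
      rcases Nat.lt_or_ge K b with h5 | h5
      · rw [Polynomial.coeff_eq_zero_of_natDegree_lt ((hdeg _).trans_lt h5),
          Polynomial.coeff_eq_zero_of_natDegree_lt ((hdeg _).trans_lt h5), sub_self, abs_zero]
        positivity
      · exact cod_near z3 hb h5) (fun j hj => by
      have : j = 0 ∨ j = 1 := by omega
      rcases this with h5 | h5
      · subst h5
        rw [pow_zero, div_one]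
        exact k0
      · subst h5
        rw [pow_one]
        exact k1) b
  refine h4.trans (le_of_eq ?_)
  field_simp

/-- **The codes `sdL` are few bits** given the codes of the base, the codes of the orders `≥ 2` and
the jets of the chain. -/
theorem sd_few (hp : IsLaw p) (hw : w ≤ J) (hH : ∀ s l, (H s l).totalDegree ≤ D)
    (hK : D + 1 ≤ K) {r₀ : ℕ} {N : ℕ → ℕ → ℝ}
    (hc : ∀ l, r₀ ≤ l → l < v → nc l = nc' l ∧ (nc l : ℝ) ≤ N l 0 * J ∧
      (nc l : ℝ) ≤ N l 1 * J + w + 1) {𝓦 : Type} (Z : F.Ω → 𝓦)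
    (hZ : ∀ ω ν, 0 < p ω → 0 < p ν → Z ω = Z ν → F.T ω = F.T ν ∧
      jet2 F c w H r₀ v N ω = jet2 F c w H r₀ v N ν) {e : ℝ} (he : 0 ≤ e)
    (e0 : ∀ l < r₀, CH p (cod F w (fun s => H s l) (c l) (nc l) 0 K) Z ≤ e)
    (e1 : ∀ l < r₀, CH p (cod F w (fun s => H s l) (c l) (nc' l) 1 K) Z ≤ e)
    (e2 : ∀ l, r₀ ≤ l → l ≤ v → CH p (cod F w (fun s => H s l) (c l) (nc' l) 2 K) Z ≤ e)
    (hr : r₀ ≤ v) :
    CH p (sdL F c v w K H nc nc') Z ≤ (v + 1) * (2 * e + 2 * cD K) := by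
  have h0 := hp.nonneg
  have hcD := cD_nonneg K
  have key : ∀ l : Fin (v + 1), CH p (fun ω => sdL F c v w K H nc nc' ω l) Z ≤
      2 * e + 2 * cD K := by
    intro l
    have hl : (l : ℕ) ≤ v := Nat.lt_succ_iff.1 l.2
    have s1 : CH p (fun ω => sdL F c v w K H nc nc' ω l) Z ≤
        CH p (fun ω => (sdL F c v w K H nc nc' ω l).1) Z +
          CH p (fun ω => (sdL F c v w K H nc nc' ω l).2) Z :=
      CH_subadd h0 (fun ω => (sdL F c v w K H nc nc' ω l).1)
        (fun ω => (sdL F c v w K H nc nc' ω l).2) Z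
    rcases Nat.lt_or_ge (l : ℕ) v with hlv | hlv
    · have f1 : (fun ω => (sdL F c v w K H nc nc' ω l).1) =
          cod F w (fun s => H s l) (c l) (nc l) 0 K := by
        funext ω
        unfold sdL
        simp only [if_neg hlv.ne]
      have f2 : (fun ω => (sdL F c v w K H nc nc' ω l).2) =
          cod F w (fun s => H s l) (c l) (nc' l) 1 K := by
        funext ω
        unfold sdL
        simp only [if_neg hlv.ne]
      rw [f1, f2] at s1
      rcases Nat.lt_or_ge (l : ℕ) r₀ with hlr | hlr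
      · linarith [e0 l hlr, e1 l hlr]
      · obtain ⟨n1, n2, n3⟩ := hc l hlr hlv
        have b : ∀ a₀, CH p (cod F w (fun s => H s l) (c l) (nc l) a₀ K) Z ≤ e + cD K := by
          intro a₀
          refine CH_via h0 _ (cod F w (fun s => H s l) (c l) (nc' l) 2 K) (e2 l hlr hl)
            (W' := fun ω => (cod F w (fun s => H s l) (c l) (nc' l) 2 K ω, Z ω)) ?_
            fun _ _ _ _ e => e
          refine cod_jets hp hw hH hK n2 n3 _ fun ω ν hω hν e => ?_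
          obtain ⟨q1, q2⟩ := Prod.ext_iff.mp e
          obtain ⟨q3, q4⟩ := hZ ω ν hω hν q2
          refine ⟨q3, fun j' hj' => ?_, ?_⟩
          · have q5 := congrFun (congrFun q4 l) j'
            unfold jet2 at q5
            rw [if_pos ⟨hlr, hlv, hj'⟩, if_pos ⟨hlr, hlv, hj'⟩] at q5
            exact q5
          · rw [n1]
            exact q1
        have b0 := b 0
        have b1 := b 1
        rw [n1] at b1
        linarith
    · have hlv' : (l : ℕ) = v := le_antisymm hl hlv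
      have f2 : (fun ω => (sdL F c v w K H nc nc' ω l).2) =
          cod F w (fun s => H s l) (c l) (nc' l) 2 K := by
        funext ω
        unfold sdL
        simp only [if_pos hlv']
      have f1 : CH p (fun ω => (sdL F c v w K H nc nc' ω l).1) Z = 0 := by
        refine CH_eq_zero h0 fun ω ν _ _ _ => ?_
        unfold sdL cod
        simp only [if_pos hlv']
        funext a
        have : ¬ (K + 1 ≤ (a : ℕ)) := by omega
        rw [if_neg this, if_neg this]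
      rw [f2, f1] at s1
      have := e2 l (by omega) hl
      linarith
  refine (CH_fam h0 (sdL F c v w K H nc nc') Z).trans ((Finset.sum_le_sum fun l _ =>
    key l).trans (le_of_eq ?_))
  rw [Finset.sum_const, Finset.card_univ, Fintype.card_fin, nsmul_eq_mul]
  push_cast
  ring

/-! ### The jets of all orders -/

/-- The constant of the jets of the orders `≤ M`. -/
noncomputable def cM (K M : ℕ) : ℝ :=
  Real.log (2 * (2 * (M.factorial * 2 ^ M * ((K + 1) * 2 ^ K)) + 1) + 1)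

theorem cM_nonneg (K M : ℕ) : 0 ≤ cM K M := by
  refine Real.log_nonneg ?_
  have : (0 : ℝ) ≤ M.factorial * 2 ^ M * ((K + 1) * 2 ^ K) := by positivity
  linarith

/-- **The jets of the orders `≤ M`** of the places `r₀ ≤ l ≤ v`, to the digits `nt l - j' w`, from the
codes and the jets of the moved place. -/
theorem jets_sd (hp : IsLaw p) {wr : ℝ} (hwr : 0 ≤ wr) (hwe : w = ⌊wr * J⌋₊) (hw : w ≤ J)
    (hH : ∀ s l, (H s l).totalDegree ≤ D) (hK : D + 1 ≤ K) {r₀ M : ℕ} {nt : ℕ → ℝ}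
    (hn : ∀ l, r₀ ≤ l → l ≤ v → nt l * J ≤ nc l + 1 ∧ nt l * J ≤ nc' l + 1) {𝓦 : Type}
    (Z : F.Ω → 𝓦)
    (hZ : ∀ ω ν, 0 < p ω → 0 < p ν → Z ω = Z ν → F.T ω = F.T ν ∧
      sdL F c v w K H nc nc' ω = sdL F c v w K H nc nc' ν ∧
      ∀ j' ≤ 1, ⌊(2 : ℝ) ^ ((nt v - (j' : ℕ) * wr) * J) * ojet F (c v) j' (H (slam F w ω) v) ω⌋ =
        ⌊(2 : ℝ) ^ ((nt v - (j' : ℕ) * wr) * J) * ojet F (c v) j' (H (slam F w ν) v) ν⌋) :
    CH p (fun ω (i : Fin (v + 1) × Fin (M + 1)) => if r₀ ≤ (i.1 : ℕ) then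
      ⌊(2 : ℝ) ^ ((nt i.1 - (i.2 : ℕ) * wr) * J) *
        ojet F (c i.1) i.2 (H (slam F w ω) i.1) ω⌋ else 0) Z ≤ (v + 1) * (M + 1) * cM K M := by
  have key := CH_near hp (fun ω (i : Fin (v + 1) × Fin (M + 1)) => if r₀ ≤ (i.1 : ℕ) then
      ⌊(2 : ℝ) ^ ((nt i.1 - (i.2 : ℕ) * wr) * J) *
        ojet F (c i.1) i.2 (H (slam F w ω) i.1) ω⌋ else 0) Z
    (D := 2 * (M.factorial * 2 ^ M * ((K + 1) * 2 ^ K)) + 1) (by positivity)
    fun ω ν hω hν e i => ?_
  · refine key.trans (le_of_eq ?_)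
    rw [Fintype.card_prod, Fintype.card_fin, Fintype.card_fin]
    unfold cM
    push_cast
    ring
  · obtain ⟨z1, z2, z3⟩ := hZ ω ν hω hν e
    obtain ⟨⟨l, hl⟩, ⟨a, ha⟩⟩ := i
    dsimp only
    by_cases hlr : r₀ ≤ l
    swap
    · rw [if_neg hlr, if_neg hlr, sub_self, abs_zero]
      positivity
    rw [if_pos hlr, if_pos hlr]
    -- the codes
    by_cases hva : l = v ∧ a ≤ 1
    · obtain ⟨rfl, ha1⟩ := hva
      rw [z3 a ha1, sub_self, abs_zero]
      positivity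
    obtain ⟨n, hn1, hn2⟩ : ∃ n : ℕ, nt l * J ≤ n + 1 ∧ ∀ b, a ≤ b → b ≤ K →
        |(dv w (fun s (_ : Fin m) => H s l) (c l) (slam F w ω)).coeff b -
          (dv w (fun s (_ : Fin m) => H s l) (c l) (slam F w ν)).coeff b| ≤ 1 / 2 ^ n := by
      rcases Nat.lt_or_ge l v with hlv | hlv
      · rcases Nat.eq_zero_or_pos a with h | h
        · exact ⟨nc l, (hn l hlr hlv.le).1, fun b hb hbK =>
            cod_near (sdL_fst z2 hlv) (Nat.zero_le b) hbK⟩
        · exact ⟨nc' l, (hn l hlr hlv.le).2, fun b hb hbK =>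
            sdL_snd z2 hlv.le (by rw [if_neg hlv.ne]; omega) hbK⟩
      · have hlv' : l = v := by omega
        have ha2 : 2 ≤ a := by
          by_contra h
          exact hva ⟨hlv', by omega⟩
        exact ⟨nc' l, (hn l hlr hlv'.le).2, fun b hb hbK =>
          sdL_snd z2 hlv'.le (by rw [if_pos hlv']; omega) hbK⟩
    have h5 := ojet_near F hw (natDegree_dvH (c := c) (w := w) hH hK l) (rt_of F hw z1) (a := a)
      (δ := 1 / 2 ^ n) (by positivity) hn2
    refine floor_near' ?_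
    have p3 : (0 : ℝ) < (2 : ℝ) ^ ((nt l - (a : ℕ) * wr) * J) := Real.rpow_pos_of_pos two_pos _
    rw [← mul_sub, abs_mul, abs_of_pos p3]
    have g2 : (2 : ℝ) ^ ((nt l - (a : ℕ) * wr) * J) * (2 ^ w) ^ a ≤ 2 * 2 ^ n * 2 ^ M := by
      have e4 : (2 : ℝ) ^ ((nt l - (a : ℕ) * wr) * J) * (2 ^ w) ^ a =
          2 ^ ((nt l - (a : ℕ) * wr) * J + w * a) := by
        rw [Real.rpow_add two_pos, ← pow_mul, ← Nat.cast_mul, Real.rpow_natCast]
      have e5 : (2 : ℝ) * 2 ^ n * 2 ^ M = 2 ^ ((n : ℝ) + 1 + M) := by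
        rw [Real.rpow_add two_pos, Real.rpow_add two_pos, Real.rpow_one, Real.rpow_natCast,
          Real.rpow_natCast]
        ring
      rw [e4, e5]
      refine Real.rpow_le_rpow_of_exponent_le one_le_two ?_
      have e6 : (w : ℝ) ≤ wr * J := by
        rw [hwe]
        exact Nat.floor_le (by positivity)
      have e7 : (w : ℝ) * a ≤ wr * J * a := mul_le_mul_of_nonneg_right e6 (Nat.cast_nonneg a)
      have e8 : (0 : ℝ) ≤ M := Nat.cast_nonneg M
      nlinarith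
    have hfa : ((a.factorial : ℕ) : ℝ) ≤ M.factorial := by
      exact_mod_cast Nat.factorial_le (Nat.lt_succ_iff.1 ha)
    calc _ ≤ (2 : ℝ) ^ ((nt l - (a : ℕ) * wr) * J) * ((a.factorial * (2 ^ w) ^ a) *
          ((K + 1) * 2 ^ K * (1 / 2 ^ n))) := mul_le_mul_of_nonneg_left h5 p3.le
      _ = (2 : ℝ) ^ ((nt l - (a : ℕ) * wr) * J) * (2 ^ w) ^ a * (a.factorial *
          ((K + 1) * 2 ^ K * (1 / 2 ^ n))) := by ring
      _ ≤ 2 * 2 ^ n * 2 ^ M * (M.factorial * ((K + 1) * 2 ^ K * (1 / 2 ^ n))) := by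
          refine mul_le_mul g2 (mul_le_mul_of_nonneg_right hfa (by positivity)) (by positivity)
            (by positivity)
      _ = 2 * (M.factorial * 2 ^ M * ((K + 1) * 2 ^ K)) := by field_simp

end

end Pool.AVG57
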