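import Pool.Agent.H57.AVG.Pra

/-!
# `AD.Hyp` from the statements of a class

`Prv`: the inputs on one event and one law, in the letters of a class (`zw`, `yv`, jets over the
labels of the window `w`, codes at the window `w`). `Prv.hyp`: `AD.Hyp` for `adM`.
-/

set_option autoImplicit false

namespace Pool.AVG57

open Finset Real MvPolynomial
open Pool.Agent.H49.Ent Pool.Agent.H32.Dense Pool.STK Pool.KA Pool.KSAT Pool.K2S Pool.PB Pool.S6C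
open Pool.GEN Pool.CHT Pool.CHX Pool.ISO Pool.LA91 Pool.AVG71 Pool.AVG5 Pool.D2F2
open Pool.PB.Trl (rt rt_mem t_rt)
open Pool.D2R (AdW gnh hgt GrdE chs)
open Pool.KVA (MI)
open Pool.KAF (rs Pr)

variable {m J : ℕ}

/-- **The inputs** on one event `B` and for one law `p`. `Rj`, `Rx`: the records of the balls `j`,
`x`; `Nf`, `Mf`: the far digits of the base coordinates and of the target; `Nn`, `Mn`: the near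
digits; `Nu`, `Nv`: the digits of the base coordinates in `jt`, `vf`. -/
structure Prv (F : Fam m J) (c c' : ℕ → Fin m) (k₀ k ks n q w W X mm r kk D K : ℕ) (γ g : ℕ → ℕ)
    (B : F.Ω → Prop) (G : ℕ → PtT F → ℕ → MvPolynomial (Option (Fin m)) ℝ)
    (H : LnT F → ℕ → MvPolynomial (Option (Fin m)) ℝ)
    (G' : PtT F → ℕ → MvPolynomial (Option (Fin m)) ℝ)
    (ψH : LnT F → ℕ → Option (Fin m) → ℝ) {ζ : Type} (zw : F.Ω → ζ) {Dd : ℕ}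
    (Df : Dat F (ℕ → Option (Fin m) → ℝ) r Dd) {ρ₁ ρ₂ : Type} (Rj : F.Ω → ρ₁) (Rx : F.Ω → ρ₂)
    (p : F.Ω → ℝ) (Nf Nn Nx Nu Nv : ℕ → ℕ → ℝ) (Mf Mn : ℕ → ℝ) (u v : ℕ → ℕ) (U e : ℝ) : Prop where
  law : IsLaw p
  sup : ∀ ω, 0 < p ω → B ω
  gd : Gd F
  wW : w ≤ W
  WJ : W ≤ J
  zs : Det p (slam F W) zw
  deg : ∀ s l, (H s l).totalDegree ≤ D
  DK : D + 1 ≤ K
  KX : (K : ℝ) ≤ 2 ^ (X + mm)
  adf : AdF F c c' k₀ k n q W w γ g B G (fun s => H (upw w W s)) G' ψH kk r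
    (adM F c k₀ k n q w W X mm γ G H zw) Df
  grd : GrdE F c k₀ (k₀ + k) ks n q X γ U B G
  mU : U + 1 ≤ 2 ^ mm
  ti : MI p (adM F c k₀ k n q w W X mm γ G H zw).th ((adM F c k₀ k n q w W X mm γ G H zw).L K)
    ((adM F c k₀ k n q w W X mm γ G H zw).g K) ≤ e
  mj : MI p Rj (fun ω => (jet2 F c w H k₀ (k₀ + k) Nf ω, pr2 F c w H (k₀ + k) Mf ω))
    (fun ω => ((jet2 F c w H k₀ (k₀ + k) Nn ω, pr2 F c w H (k₀ + k) Mn ω),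
      (zw ω, yv c k₀ J F ω))) ≤ e
  mx : MI p Rx (jet2 F c w H k₀ (k₀ + k) Nf)
    (fun ω => (jet2 F c w H k₀ (k₀ + k) Nx ω, (zw ω, yv c k₀ J F ω))) ≤ e
  chj : CH p (chs F (k₀ + k) ks G) Rj ≤ e
  chx : CH p (chs F (k₀ + k) n G) Rx ≤ e
  zx : CH p zw Rx ≤ e
  n0 : ∀ l, k₀ ≤ l → l < k₀ + k → Nn l 0 * J ≤ (γ l + q : ℕ)
  n1 : ∀ l, k₀ ≤ l → l < k₀ + k → Nn l 1 * J + W ≤ (γ l + q + (X + mm) : ℕ)
  x0 : ∀ l, k₀ ≤ l → l < k₀ + k → Nx l 0 * J ≤ (γ l + q : ℕ)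
  x1 : ∀ l, k₀ ≤ l → l < k₀ + k → Nx l 1 * J + W ≤ (γ l + q + (X + mm) : ℕ)
  u0 : ∀ l, k₀ ≤ l → l < k₀ + k → Nu l 0 * J ≤ (γ l + q : ℕ)
  u1 : ∀ l, k₀ ≤ l → l < k₀ + k → Nu l 1 * J + W ≤ (γ l + q + (X + mm) : ℕ)
  m0 : Mn 0 * J ≤ (γ (k₀ + k) + q : ℕ)
  m1 : Mn 1 * J + W ≤ (γ (k₀ + k) + q : ℕ)
  mf : ((γ (k₀ + k) + q + X : ℕ) : ℝ) ≤ Mf 0 * J
  ac : CH p ((adM F c k₀ k n q w W X mm γ G H zw).ac K) (fun ω =>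
    (jet2 F c w H k₀ (k₀ + k) Nf ω, ((adM F c k₀ k n q w W X mm γ G H zw).th ω,
      (adM F c k₀ k n q w W X mm γ G H zw).z ω))) ≤ e
  va : CH p (fun ω => ((adM F c k₀ k n q w W X mm γ G H zw).v K ω).2) (fun ω =>
    (jet2 F c w H k₀ (k₀ + k) Nv ω, ((adM F c k₀ k n q w W X mm γ G H zw).th ω,
      (adM F c k₀ k n q w W X mm γ G H zw).z ω))) ≤ e
  dj : CH p (cod F w (fun s => H s (k₀ + k)) (c (k₀ + k)) (γ (k₀ + k) + q + X) 1 K)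
    (fun ω => (jet2 F c w H k₀ (k₀ + k) Nf ω, (zw ω, yv c k₀ J F ω))) ≤ e
  jt : CH p (cod F w (fun s => H s (k₀ + k)) (c (k₀ + k)) (γ (k₀ + k) + q) 0 K)
    (fun ω => (jet2 F c w H k₀ (k₀ + k) Nu ω, (Rx ω, yv c k₀ J F ω))) ≤ e
  vf : ∑ l ∈ range r, ((u l - v l : ℕ) : ℝ) * Real.log 2 - e ≤ CH p (Vfu Df w u)
    (fun ω => (jet2 F c w H k₀ (k₀ + k) Nv ω, (Rx ω, yv c k₀ J F ω)))
  uv : ∀ l < r, v l ≤ u l
  uX : ∀ l, k₀ ≤ l → l < k₀ + k → v l + X ≤ u l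
  vg : ∀ l, k₀ ≤ l → l < k₀ + k → v l ≤ g l + q
  vg' : ∀ l, k₀ + k ≤ l → l < r → v l ≤ g l
  ug : ∀ l, k₀ ≤ l → l < r → g l + q + X ≤ u l

end Pool.AVG57
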