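import Pool.Agent.H57.AVG.Asm

/-!
# `AD.Hyp` from the statements of a class, second part

`Prv.hyp`: `AD.Hyp` for `adM`, from the inputs `Prv` and the rows of the coordinate of the target in
the frame.
-/

set_option autoImplicit false

namespace Pool.AVG57

open Finset Real MvPolynomial
open Pool.Agent.H49.Ent Pool.Agent.H32.Dense Pool.STK Pool.KA Pool.KSAT Pool.K2S Pool.PB Pool.S6C
open Pool.GEN Pool.CHT Pool.CHX Pool.ISO Pool.LA91 Pool.AVG71 Pool.AVG5 Pool.D2F2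
open Pool.PB.Trl (rt rt_mem t_rt)
open Pool.D2R (AdW gnh hgt GrdE chs)
open Pool.KVA (MI)
open Pool.KAF (rs Pr)

variable {m J : ℕ}

/-- The constant of the link. -/
noncomputable def cC (r kk K : ℕ) : ℝ := Cf r kk * (K + 4)

/-- The number of the digits in the frame. -/
noncomputable def cF (r kk K : ℕ) (u v : ℕ → ℕ) : ℝ :=
  ∑ l ∈ range r, ((u l - v l : ℕ) : ℝ) * Real.log 2 + r * Real.log (2 * (cC r kk K + 1) + 1)

/-- The distance of own height and frame. -/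
noncomputable def cB (r kk k : ℕ) (U : ℝ) : ℝ := Cf r kk * (1 + k * (U + 1)) + 1

/-- The constants of the entropies. -/
noncomputable def cE (r kk k K : ℕ) (U : ℝ) : ℝ :=
  cA K + (2 * k + 3) * cJ K + Real.log 5 + k * Real.log (2 * (U + 1) + 1) +
    Real.log (2 * (U + 4 * k + 2 * ((K + 1) * (k + 1)) + 1) + 1) +
      r * Real.log (2 * (cC r kk K + 1) + 1)

section

variable {F : Fam m J} {c c' : ℕ → Fin m} {k₀ k ks n q w W X mm r kk D K : ℕ} {γ g : ℕ → ℕ}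
  {B : F.Ω → Prop} {G : ℕ → PtT F → ℕ → MvPolynomial (Option (Fin m)) ℝ}
  {H : LnT F → ℕ → MvPolynomial (Option (Fin m)) ℝ}
  {G' : PtT F → ℕ → MvPolynomial (Option (Fin m)) ℝ}
  {ψH : LnT F → ℕ → Option (Fin m) → ℝ} {ζ : Type} {zw : F.Ω → ζ} {Dd : ℕ}
  {Df : Dat F (ℕ → Option (Fin m) → ℝ) r Dd} {ρ₁ ρ₂ : Type} {Rj : F.Ω → ρ₁} {Rx : F.Ω → ρ₂}
  {p : F.Ω → ℝ} {Nf Nn Nx Nu Nv : ℕ → ℕ → ℝ} {Mf Mn : ℕ → ℝ} {u v : ℕ → ℕ} {U e : ℝ}

/-- **`AD.Hyp` for `adM`.** -/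
theorem Prv.hyp (P : Prv F c c' k₀ k ks n q w W X mm r kk D K γ g B G H G' ψH zw Df Rj Rx p Nf Nn
      Nx Nu Nv Mf Mn u v U e) {π₀ Ur : ℝ} {h : ℕ}
    (hrow : ∀ j : ℕ, (j + 1) * h ≤ X → ∀ E : Set F.Ω, π₀ ≤ Pr p E →
      CH (rs p E) (fun ω => ⌊(2 : ℝ) ^ (g r + q + X) * Df.v w r ω⌋ / 2 ^ (X - (j + 1) * h))
        (fun ω => (⌊(2 : ℝ) ^ (g r + q + X) * Df.v w r ω⌋ / 2 ^ (X - j * h), (Vfd Df w u v ω,
          ((adM F c k₀ k n q w W X mm γ G H zw).T ω,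
            (adM F c k₀ k n q w W X mm γ G H zw).g K ω)))) ≤ Ur) :
    (adM F c k₀ k n q w W X mm γ G H zw).Hyp K p Rj Rx
      (fun ω => (jet2 F c w H k₀ (k₀ + k) Nn ω, pr2 F c w H (k₀ + k) Mn ω))
      (jet2 F c w H k₀ (k₀ + k) Nx)
      (fun ω => (jet2 F c w H k₀ (k₀ + k) Nf ω, pr2 F c w H (k₀ + k) Mf ω))
      (jet2 F c w H k₀ (k₀ + k) Nf) (Vfu Df w u)
      (fun ω => ⌊(2 : ℝ) ^ (g r + q + X) * Df.v w r ω⌋) (cF r kk K u v)
      (3 * e + cE r kk k K U) (cB r kk k U) Ur π₀ h := by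
  have hp := P.law
  have h0 := hp.nonneg
  have hwW := P.wW
  have hW := P.WJ
  have he : 0 ≤ e := (CH_nonneg h0 _ _).trans P.chj
  have hU := P.grd.U0
  have hcJ := cJ_nonneg K
  have hcA := cA_nonneg K
  have hl5 : 0 ≤ Real.log 5 := Real.log_nonneg (by norm_num)
  have hlU : 0 ≤ Real.log (2 * (U + 1) + 1) := Real.log_nonneg (by linarith)
  have hkU : 0 ≤ k * Real.log (2 * (U + 1) + 1) := by positivity
  have hlN : 0 ≤ Real.log (2 * (U + 4 * k + 2 * ((K + 1) * (k + 1)) + 1) + 1) := by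
    refine Real.log_nonneg ?_
    have : (0 : ℝ) ≤ 4 * k + 2 * ((K + 1) * (k + 1)) := by positivity
    linarith
  have hCf := one_le_Cf r kk
  have hcC : 0 ≤ cC r kk K := by
    unfold cC
    positivity
  have hrC : 0 ≤ r * Real.log (2 * (cC r kk K + 1) + 1) :=
    mul_nonneg (Nat.cast_nonneg r) (Real.log_nonneg (by linarith))
  have hkJ : 0 ≤ (2 * (k : ℝ) + 3) * cJ K := by positivity
  have hk2 : 0 ≤ 2 * (k : ℝ) * cJ K := by positivity
  have hkJ' : (2 * (k : ℝ) + 3) * cJ K = 2 * k * cJ K + 3 * cJ K := by ring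
  have hE0 : cE r kk k K U = cA K + (2 * k + 3) * cJ K + Real.log 5 +
    k * Real.log (2 * (U + 1) + 1) +
    Real.log (2 * (U + 4 * k + 2 * ((K + 1) * (k + 1)) + 1) + 1) +
      r * Real.log (2 * (cC r kk K + 1) + 1) := rfl
  obtain ⟨d, hd⟩ : ∃ d, d = adM F c k₀ k n q w W X mm γ G H zw := ⟨_, rfl⟩
  have hX : d.X = X := by rw [hd]; rfl
  have hm : d.m = mm := by rw [hd]; rfl
  have hPth : Pth d K p := by
    rw [hd]
    exact adM_pth hp P.deg P.DK hW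
  have hyz : Det p (fun ω => (d.th ω, d.z ω)) (fun ω => (zw ω, yv c k₀ J F ω)) := by
    rw [hd]
    exact adM_yz hW p
  have hzy : Det p (fun ω => (zw ω, yv c k₀ J F ω)) (fun ω => (d.th ω, d.z ω)) := by
    rw [hd]
    exact adM_zy P.gd hW p
  have hT1 : Det p d.z (F.T1 W) := by
    intro ω ν _ _ e
    rw [hd] at e
    have e1 := (Prod.ext_iff.mp (Prod.ext_iff.mp e).2).1
    exact (Prod.ext_iff.mp e1).2
  have hdeg : ∀ s, (dv w (fun s (_ : Fin m) => H s (k₀ + k)) (c (k₀ + k)) s).natDegree ≤ K :=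
    fun s => (natDegree_dv w (G := fun s (_ : Fin m) => H s (k₀ + k)) (fun s _ => P.deg s _) _
      s).trans P.DK
  have hadf := P.adf
  have hgrd := P.grd
  have hti := P.ti
  have hac := P.ac
  have hva := P.va
  have f_nc := fun (𝓦 : Type) (Z : F.Ω → 𝓦) (hZ : Det p Z (F.T1 W)) (e : ℝ) => CH_nc (c := c)
    (k₀ := k₀) (k := k) (n := n) (q := q) (X := X) (mm := mm) (γ := γ) (G := G) (zw := zw) hp hwW
    hW hdeg Z hZ (e := e)
  have f_ncd := fun (𝓦 : Type) (Z : F.Ω → 𝓦) (hZ : Det p Z (F.T1 W)) (e : ℝ) => CH_ncd (c := c)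
    (k₀ := k₀) (k := k) (n := n) (q := q) (X := X) (mm := mm) (γ := γ) (G := G) (zw := zw) hp hwW
    hW hdeg Z hZ (e := e)
  have f_val := fun (𝓦 : Type) (Z : F.Ω → 𝓦) (hZ : Det p Z (pr2 F c w H (k₀ + k) Mf)) =>
    CH_val (c := c) (k₀ := k₀) (k := k) (n := n) (q := q) (X := X) (mm := mm) (γ := γ) (G := G)
      (H := H) (zw := zw) hp hwW hW Z P.mf hZ
  have jn := jet2_v (c := c) (k₀ := k₀) (k := k) (n := n) (q := q) (X := X) (mm := mm) (γ := γ)
    (G := G) (zw := zw) hp P.deg P.DK hwW hW P.n0 P.n1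
  have jx := jet2_v (c := c) (k₀ := k₀) (k := k) (n := n) (q := q) (X := X) (mm := mm) (γ := γ)
    (G := G) (zw := zw) hp P.deg P.DK hwW hW P.x0 P.x1
  have ju := jet2_v (c := c) (k₀ := k₀) (k := k) (n := n) (q := q) (X := X) (mm := mm) (γ := γ)
    (G := G) (zw := zw) hp P.deg P.DK hwW hW P.u0 P.u1
  have pn := prN_g (c := c) (k₀ := k₀) (k := k) (n := n) (q := q) (X := X) (mm := mm) (γ := γ)
    (G := G) (zw := zw) hp P.deg P.DK hwW hW P.m0 P.m1
  rw [← hd] at hadf hti hac hva jn jx ju pn hrow ⊢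
  simp only [← hd] at f_nc f_ncd f_val
  have hadw := hadf.adw
  have hth : ∀ ω, 0 < p ω → 0 ≤ d.th ω ∧ d.th ω < 1 := hPth.th
  have hA : ∀ ω, 0 < p ω → ∀ j, (d.A ω j).natDegree ≤ K := hPth.dA
  have hPd : ∀ ω, 0 < p ω → (d.P ω).natDegree ≤ K := hPth.dP
  have hKX : (K : ℝ) ≤ 2 ^ (d.X + d.m) := by
    rw [hX, hm]
    exact P.KX
  have hgrd' : GrdE F c k₀ (k₀ + k) ks n q d.X γ U B G := by
    rw [hX]
    exact hgrd
  have hbm : ∀ ω, B ω → ∀ j, |d.bb ω j| ≤ U + 1 := fun ω hω j => hadw.bm hgrd' hω j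
  have hgv : Det p (fun ω => (d.th ω, d.g K ω)) (fun ω => (d.th ω, d.v K ω)) :=
    fun ω ν a b e => Prod.ext (Prod.ext_iff.mp e).1
      (AD.det_wv p ω ν a b (AD.det_gw p ω ν a b (Prod.ext_iff.mp e).2))
  have hwv : Det p (fun ω => (d.th ω, d.w K ω)) (fun ω => (d.th ω, d.v K ω)) :=
    fun ω ν a b e => Prod.ext (Prod.ext_iff.mp e).1
      (AD.det_wv p ω ν a b (Prod.ext_iff.mp e).2)
  -- the higher codes of the target from the far digits
  have hnc : CH p (fun ω (a : Fin K) => d.nc K ω a.succ)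
      (fun ω => (jet2 F c w H k₀ (k₀ + k) Nf ω, (d.th ω, d.z ω))) ≤ e + cA K := by
    refine f_nc _ _ (fun ω ν a b e => hT1 ω ν a b ?_) e ?_
    · exact (Prod.ext_iff.mp (Prod.ext_iff.mp e).2).2
    · refine le_trans (CH_mono_cond h0 fun ω ν a b e => ?_) P.dj
      exact Prod.ext (Prod.ext_iff.mp e).1 (hyz ω ν a b (Prod.ext_iff.mp e).2)
  refine
    { law := hp
      th := hth
      dP := hPd
      dA := hA
      bm := fun ω hω j => by
        rw [hm]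
        exact (hbm ω (P.sup ω hω) j).trans P.mU
      ti := by linarith
      mj := ?_
      fj := ?_
      Lj := ?_
      bbj := ?_
      mx := ?_
      fx := ?_
      Lx := ?_
      bbx := ?_
      jt := ?_
      Nx := ?_
      vf := ?_
      vb := ?_
      vy := ?_
      B0 := by
        unfold cB
        positivity
      qv := ?_
      row := ?_ }
  · -- mj
    have e1 : MI p Rj (fun ω => (jet2 F c w H k₀ (k₀ + k) Nf ω, pr2 F c w H (k₀ + k) Mf ω))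
        (fun ω => ((jet2 F c w H k₀ (k₀ + k) Nn ω, pr2 F c w H (k₀ + k) Mn ω),
          (d.th ω, d.z ω))) = MI p Rj
        (fun ω => (jet2 F c w H k₀ (k₀ + k) Nf ω, pr2 F c w H (k₀ + k) Mf ω))
        (fun ω => ((jet2 F c w H k₀ (k₀ + k) Nn ω, pr2 F c w H (k₀ + k) Mn ω),
          (zw ω, yv c k₀ J F ω))) := by
      refine MI_cond h0 _ _ (fun ω ν a b e => ?_) (fun ω ν a b e => ?_)
      · exact Prod.ext (Prod.ext_iff.mp e).1 (hyz ω ν a b (Prod.ext_iff.mp e).2)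
      · exact Prod.ext (Prod.ext_iff.mp e).1 (hzy ω ν a b (Prod.ext_iff.mp e).2)
    rw [e1]
    have := P.mj
    linarith
  · -- fj
    have h1 := CH_subadd h0 (jet2 F c w H k₀ (k₀ + k) Nn) (pr2 F c w H (k₀ + k) Mn)
      (fun ω => (d.th ω, d.g K ω))
    have h2 : CH p (jet2 F c w H k₀ (k₀ + k) Nn) (fun ω => (d.th ω, d.g K ω)) ≤
        CH p (jet2 F c w H k₀ (k₀ + k) Nn) (fun ω => (d.th ω, d.v K ω)) := CH_mono_cond h0 hgv
    linarith
  · -- Lj
    have hN : CH p (fun ω => ⌊(2 : ℝ) ^ d.X * (d.P ω).eval (d.th ω)⌋)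
        (fun ω => ((jet2 F c w H k₀ (k₀ + k) Nf ω, pr2 F c w H (k₀ + k) Mf ω),
          ((jet2 F c w H k₀ (k₀ + k) Nn ω, pr2 F c w H (k₀ + k) Mn ω), (d.th ω, d.z ω)))) ≤
        Real.log 5 := by
      rw [hX]
      exact f_val _ _ (fun ω ν a b e => (Prod.ext_iff.mp (Prod.ext_iff.mp e).1).2)
    have h1 := Lj_of hPth hac hnc hN
    linarith
  · -- bbj
    have h1 := hadw.bbj hW hgrd' hp P.sup hth hA hKX Rj
    have := P.chj
    linarith
  · -- mx
    have e1 : MI p Rx (jet2 F c w H k₀ (k₀ + k) Nf) (fun ω => (jet2 F c w H k₀ (k₀ + k) Nx ω,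
        (d.th ω, d.z ω))) = MI p Rx (jet2 F c w H k₀ (k₀ + k) Nf)
        (fun ω => (jet2 F c w H k₀ (k₀ + k) Nx ω, (zw ω, yv c k₀ J F ω))) := by
      refine MI_cond h0 _ _ (fun ω ν a b e => ?_) (fun ω ν a b e => ?_)
      · exact Prod.ext (Prod.ext_iff.mp e).1 (hyz ω ν a b (Prod.ext_iff.mp e).2)
      · exact Prod.ext (Prod.ext_iff.mp e).1 (hzy ω ν a b (Prod.ext_iff.mp e).2)
    rw [e1]
    have := P.mx
    linarith
  · -- fx
    have h2 : CH p (jet2 F c w H k₀ (k₀ + k) Nx) (fun ω => (d.th ω, d.w K ω)) ≤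
        CH p (jet2 F c w H k₀ (k₀ + k) Nx) (fun ω => (d.th ω, d.v K ω)) := CH_mono_cond h0 hwv
    linarith
  · -- Lx
    have h1 := Lx_of (n := jet2 F c w H k₀ (k₀ + k) Nx) h0 hac hnc
    linarith
  · -- bbx
    have h1 := hadw.bbx hW hgrd' hp P.sup hth hA hKX Rx
    have := P.chx
    linarith
  · -- jt
    have h1 : CH p (cod F w (fun s => H s (k₀ + k)) (c (k₀ + k)) (γ (k₀ + k) + q) 0 K)
        (fun ω => (Rx ω, (d.th ω, d.v K ω))) ≤ 2 * k * cJ K + e := by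
      refine CH_via h0 _ (jet2 F c w H k₀ (k₀ + k) Nu) (W' := fun ω =>
        (jet2 F c w H k₀ (k₀ + k) Nu ω, (Rx ω, yv c k₀ J F ω))) (le_trans (CH_mono_cond h0
          fun ω ν _ _ e => (Prod.ext_iff.mp e).2) ju) P.jt (fun ω ν a b e => ?_)
      obtain ⟨e1, e2⟩ := Prod.ext_iff.mp e
      obtain ⟨e3, e4⟩ := Prod.ext_iff.mp e2
      obtain ⟨e5, e6⟩ := Prod.ext_iff.mp e4
      have e7 := hyz ω ν a b (Prod.ext e5 (Prod.ext_iff.mp e6).1)
      exact Prod.ext e1 (Prod.ext e3 (Prod.ext_iff.mp e7).2)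
    have h2 := f_ncd _ _ (fun ω ν a b e => hT1 ω ν a b
      (Prod.ext_iff.mp (Prod.ext_iff.mp (Prod.ext_iff.mp e).2).2).1) _ h1
    rw [← hX] at h2
    linarith
  · -- Nx
    have h1 := hadw.Nx hW hgrd' hp P.sup hth hPd hA hKX (by
      rw [hm]
      exact P.mU) Rx
    have := P.chx
    linarith
  · -- vf
    obtain ⟨W', hW'⟩ : ∃ W' : F.Ω → _, W' = fun ω =>
        (jet2 F c w H k₀ (k₀ + k) Nv ω, (Rx ω, yv c k₀ J F ω)) := ⟨_, rfl⟩
    have h1 := P.vf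
    rw [← hW'] at h1
    have h2 := CH_le_add h0 (Vfu Df w u) (fun ω => (zw ω, (d.v K ω).2)) W'
    have h3 : CH p (fun ω => (zw ω, (d.v K ω).2)) W' ≤ e + e := by
      have a1 := CH_chain h0 (fun ω => (d.v K ω).2) zw W'
      have a2 : CH p (fun ω => (zw ω, (d.v K ω).2)) W' ≤
          CH p (fun ω => ((d.v K ω).2, zw ω)) W' := CH_mono_left h0 fun ω ν _ _ e => by
        obtain ⟨e1, -⟩ := Prod.ext_iff.mp e
        exact Prod.ext (Prod.ext_iff.mp e1).2 (Prod.ext_iff.mp e1).1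
      have a3 : CH p zw W' ≤ CH p zw Rx := CH_mono_cond h0 fun ω ν _ _ e => by
        rw [hW'] at e
        exact (Prod.ext_iff.mp (Prod.ext_iff.mp e).2).1
      have a4 : CH p (fun ω => (d.v K ω).2) (fun ω => (zw ω, W' ω)) ≤
          CH p (fun ω => (d.v K ω).2) (fun ω => (jet2 F c w H k₀ (k₀ + k) Nv ω,
            (d.th ω, d.z ω))) := CH_mono_cond h0 fun ω ν a b e => by
        obtain ⟨e1, e2⟩ := Prod.ext_iff.mp e
        rw [hW'] at e2
        obtain ⟨e3, e4⟩ := Prod.ext_iff.mp e2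
        exact Prod.ext e3 (hzy ω ν a b (Prod.ext e1 (Prod.ext_iff.mp e4).2))
      have := P.zx
      linarith
    have h4 : CH p (Vfu Df w u) (fun ω => ((zw ω, (d.v K ω).2), W' ω)) ≤
        CH p (Vfu Df w u) (fun ω => (Rx ω, (d.th ω, d.v K ω))) :=
      CH_mono_cond h0 fun ω ν a b e => by
        obtain ⟨e1, e2⟩ := Prod.ext_iff.mp e
        obtain ⟨e3, e4⟩ := Prod.ext_iff.mp e1
        rw [hW'] at e2
        obtain ⟨e5, e6⟩ := Prod.ext_iff.mp e2
        obtain ⟨e7, e8⟩ := Prod.ext_iff.mp e6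
        obtain ⟨e9, e10⟩ := Prod.ext_iff.mp (hzy ω ν a b (Prod.ext e3 e8))
        exact Prod.ext e7 (Prod.ext e9 (Prod.ext e10 e4))
    have hF : cF r kk K u v = ∑ l ∈ range r, ((u l - v l : ℕ) : ℝ) * Real.log 2 +
      r * Real.log (2 * (cC r kk K + 1) + 1) := rfl
    linarith
  · -- vb
    exact (hadf.vb_vy hp P.sup P.uv (fun l a b => by
      rw [hX]
      exact P.uX l a b) P.vg P.vg' hth hA hKX (le_refl (cC r kk K))).1
  · -- vy
    have h1 := (hadf.vb_vy hp P.sup P.uv (fun l a b => by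
      rw [hX]
      exact P.uX l a b) P.vg P.vg' hth hA hKX (le_refl (cC r kk K))).2
    refine h1.trans ?_
    have hF : cF r kk K u v = ∑ l ∈ range r, ((u l - v l : ℕ) : ℝ) * Real.log 2 +
      r * Real.log (2 * (cC r kk K + 1) + 1) := rfl
    linarith
  · -- qv
    intro ω ν hω hν hV hT hg
    have h1 := hadf.qv (u := u) (fun l a b => by
      rw [hX]
      exact P.ug l a b) hbm (P.sup ω hω) (P.sup ν hν) hV hT hg
    rw [hX] at h1
    exact h1
  · -- row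
    intro j hj E hE
    rw [hX] at hj ⊢
    refine le_trans ?_ (hrow j hj E hE)
    have hrs : ∀ ω, 0 ≤ rs p E ω := cond_nonneg h0 (fun ω => ω ∈ E) True
    refine CH_mono_cond hrs fun ω ν _ _ e => ?_
    obtain ⟨e1, e2⟩ := Prod.ext_iff.mp e
    obtain ⟨e3, e4⟩ := Prod.ext_iff.mp e2
    refine Prod.ext e1 (Prod.ext ?_ e4)
    funext l
    have e5 : Vfu Df w u ω l = Vfu Df w u ν l := congrFun e3 l
    show Vfu Df w u ω l % 2 ^ (u l - v l) = Vfu Df w u ν l % 2 ^ (u l - v l)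
    rw [e5]

end

end Pool.AVG57
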