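import Pool.Agent.H57.AVG.C1c

/-!
# From the inputs of a class to the inputs on one event

`C1E`: the values on one event of the inputs `C1C`, the records are the finest closed functions.
`C1E.avl`: the inputs `AvL`.
-/

set_option autoImplicit false

namespace Pool.AVG57

open Finset Real MvPolynomial
open Pool.Agent.H49.Ent Pool.Agent.H32.Dense Pool.STK Pool.KA Pool.KSAT Pool.K2S Pool.PB Pool.S6C
open Pool.GEN Pool.CHT Pool.CHX Pool.ISO Pool.RCD Pool.LA91 Pool.AVG71 Pool.AVG5 Pool.D2F2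
open Pool.PB.Trl (rt rt_mem t_rt)
open Pool.D2R (hgt gnh GrdE chs)
open Pool.KVA (MI)
open Pool.KAF (rs Pr)
open Pool.BFL (Pb)

variable {m J : ℕ}

/-- **The digits of the own jets** of the orders `≤ M` of the places `r₀ ≤ l < r`. -/
noncomputable def jetM (F : Fam m J) (c : ℕ → Fin m) (w : ℕ)
    (H : LnT F → ℕ → MvPolynomial (Option (Fin m)) ℝ) (r₀ r M : ℕ) (N : ℕ → ℕ → ℝ) (ω : F.Ω)
    (l j' : ℕ) : ℤ :=
  if r₀ ≤ l ∧ l < r ∧ j' ≤ M then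
    ⌊(2 : ℝ) ^ (N l j' * J) * ojet F (c l) j' (H (slam F w ω) l) ω⌋ else 0

/-- The side information. -/
noncomputable def ycL (F : Fam m J) (c : ℕ → Fin m) (r₀ v w K : ℕ)
    (H : LnT F → ℕ → MvPolynomial (Option (Fin m)) ℝ) (nc nc' : ℕ → ℕ) (N : ℕ → ℕ → ℝ) {υ : Type}
    (y : F.Ω → υ) (ω : F.Ω) : ((ℕ × F.ζ) × ((Fin m → ℤ) × (Fin m → ℤ))) ×
      (υ × ((Fin (v + 1) → (Fin (K + 1) → ℤ) × (Fin (K + 1) → ℤ)) × (ℕ → ℕ → ℤ))) :=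
  (yv c 0 J F ω, (y ω, (sdL F c v w K H nc nc' ω, jet2 F c w H r₀ v N ω)))

/-- **The values of the inputs on one event**, for the law `p`. `η`: the error (in bits). -/
structure C1E (F : Fam m J) (c : ℕ → Fin m) (r₀ v K M : ℕ) (w : ℝ) (g : ℕ)
    (H : LnT F → ℕ → MvPolynomial (Option (Fin m)) ℝ) {ζ ρ₁ ρ₂ υ : Type} (zw : F.Ω → ζ)
    (zj : F.Ω → ρ₁) (zx : F.Ω → ρ₂) (y : F.Ω → υ) (p : F.Ω → ℝ) (n n' nt : ℕ → ℝ) (Nt nb : ℝ)
    (Df Dn Dx Dd : ℕ → ℕ → ℝ) (Ef En Nv : ℕ → ℝ) (η : ℝ) : Prop where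
  yW : ∀ ω ν, y ω = y ν → F.Z ω = F.Z ν ∧ F.T ω = F.T ν
  yf : CH p y (fun ω => (jet2 F c ⌊w * J⌋₊ H 0 r₀ (nd n n' w) ω, (zw ω, F.W ω))) ≤ η
  y0 : ∀ l < r₀, CH p (cod F ⌊w * J⌋₊ (fun s => H s l) (c l) ⌊n l * J⌋₊ 0 K)
    (fun ω => (zw ω, y ω)) ≤ η
  y1 : ∀ l < r₀, CH p (cod F ⌊w * J⌋₊ (fun s => H s l) (c l) ⌊n' l * J⌋₊ 1 K)
    (fun ω => (zw ω, y ω)) ≤ η
  cd : ∀ l, r₀ ≤ l → l ≤ v → CH p (cod F ⌊w * J⌋₊ (fun s => H s l) (c l) ⌊n' l * J⌋₊ 2 K)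
    (fun ω => (jet2 F c ⌊w * J⌋₊ H r₀ l (nd n n' w) ω, (zw ω, y ω))) ≤ η
  mj : MI p zj (fun ω => (jet2 F c ⌊w * J⌋₊ H r₀ (v + 1) Df ω,
      pr2 F c ⌊w * J⌋₊ H (v + 1) Ef ω))
    (fun ω => ((jet2 F c ⌊w * J⌋₊ H r₀ (v + 1) Dn ω, pr2 F c ⌊w * J⌋₊ H (v + 1) En ω),
      (zw ω, y ω))) ≤ η
  mx : MI p zx (jet2 F c ⌊w * J⌋₊ H r₀ (v + 1) Df)
    (fun ω => (jet2 F c ⌊w * J⌋₊ H r₀ (v + 1) Dx ω, (zw ω, y ω))) ≤ η
  dj : CH p (cod F ⌊w * J⌋₊ (fun s => H s (v + 1)) (c (v + 1)) g 1 K)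
    (fun ω => (jet2 F c ⌊w * J⌋₊ H r₀ (v + 1) Dd ω, (zw ω, y ω))) ≤ η
  jt : CH p (Pool.AVG71.cod F ⌊w * J⌋₊ 0 K (2 ^ (Nt * J)) (c (v + 1)) (fun s => H s (v + 1))
    (fun P => P)) (fun ω => (jetM F c ⌊w * J⌋₊ H r₀ (v + 1) M
      (fun l j' => nt l - (j' : ℝ) * w) ω, (zx ω, y ω))) ≤ η
  vf : (nb - Nv 0) * Real.log 2 * J - η ≤ CH p (Vh F c v ⌊w * J⌋₊ H (nb * J))
    (fun ω => (⌊(2 : ℝ) ^ (Nv 0 * J) * ojet F (c v) 0 (H (slam F ⌊w * J⌋₊ ω) v) ω⌋,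
      (⌊(2 : ℝ) ^ (Nv 1 * J) * ojet F (c v) 1 (H (slam F ⌊w * J⌋₊ ω) v) ω⌋,
        (zx ω, (zw ω, (jet2 F c ⌊w * J⌋₊ H r₀ v (nd n n' w) ω, y ω))))))

/-- The total error. -/
noncomputable def eT (v K M : ℕ) (ρ η : ℝ) : ℝ :=
  η + (v + 1) * (2 * η + 2 * cD K) + 4 * v * cS K + cL K + (v + 1) * (M + 1) * cM K M +
    (K + 1) * Real.log (2 * (ρ + 1) + 1)

section

variable {F : Fam m J} {c : ℕ → Fin m} {r₀ v w K D : ℕ}
  {H : LnT F → ℕ → MvPolynomial (Option (Fin m)) ℝ} {p : F.Ω → ℝ}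

theorem jet2_eq {r₀ r r' : ℕ} {N N' : ℕ → ℕ → ℝ} (hr : r' ≤ r)
    (hN : ∀ l, r₀ ≤ l → l < r' → ∀ j' ≤ 1, N l j' = N' l j') {ω ν : F.Ω}
    (h : jet2 F c w H r₀ r N ω = jet2 F c w H r₀ r N ν) :
    jet2 F c w H r₀ r' N' ω = jet2 F c w H r₀ r' N' ν := by
  funext l j'
  unfold jet2
  by_cases h1 : r₀ ≤ l ∧ l < r' ∧ j' ≤ 1
  · rw [if_pos h1, if_pos h1]
    have h2 := congrFun (congrFun h l) j'
    unfold jet2 at h2
    rw [if_pos ⟨h1.1, h1.2.1.trans_le hr, h1.2.2⟩, if_pos ⟨h1.1, h1.2.1.trans_le hr, h1.2.2⟩,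
      hN l h1.1 h1.2.1 j' h1.2.2] at h2
    exact h2
  · rw [if_neg h1, if_neg h1]

/-- The jets of the last place. -/
theorem jet2_last {N : ℕ → ℕ → ℝ} (hr : r₀ ≤ v) {ω ν : F.Ω}
    (h : jet2 F c w H r₀ (v + 1) N ω = jet2 F c w H r₀ (v + 1) N ν) :
    jt1 F c v w H (N v) ω = jt1 F c v w H (N v) ν := by
  funext i
  obtain ⟨i, ⟨a, ha⟩⟩ := i
  have h2 := congrFun (congrFun h v) a
  unfold jet2 at h2
  rw [if_pos ⟨hr, Nat.lt_succ_self v, by omega⟩, if_pos ⟨hr, Nat.lt_succ_self v, by omega⟩] at h2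
  exact h2

/-- The jets of the chain from the jets of the last place and of the others. -/
theorem jet2_join {N N' : ℕ → ℕ → ℝ} {Nn : ℕ → ℝ}
    (hN : ∀ l, r₀ ≤ l → l < v → ∀ j' ≤ 1, N l j' = N' l j') (hv : ∀ j' ≤ 1, N v j' = Nn j')
    {ω ν : F.Ω} (h : jet2 F c w H r₀ v N' ω = jet2 F c w H r₀ v N' ν)
    (h1 : jt1 F c v w H Nn ω = jt1 F c v w H Nn ν) :
    jet2 F c w H r₀ (v + 1) N ω = jet2 F c w H r₀ (v + 1) N ν := by
  funext l j'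
  unfold jet2
  by_cases h2 : r₀ ≤ l ∧ l < v + 1 ∧ j' ≤ 1
  · rw [if_pos h2, if_pos h2]
    rcases Nat.lt_or_ge l v with h3 | h3
    · have h4 := congrFun (congrFun h l) j'
      unfold jet2 at h4
      rw [if_pos ⟨h2.1, h3, h2.2.2⟩, if_pos ⟨h2.1, h3, h2.2.2⟩, ← hN l h2.1 h3 j' h2.2.2] at h4
      exact h4
    · have h5 : l = v := by omega
      subst h5
      have h4 : ⌊(2 : ℝ) ^ (Nn j' * J) * ojet F (c l) j' (H (slam F w ω) l) ω⌋ =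
          ⌊(2 : ℝ) ^ (Nn j' * J) * ojet F (c l) j' (H (slam F w ν) l) ν⌋ :=
        congrFun h1 (0, ⟨j', by omega⟩)
      rw [hv j' h2.2.2]
      exact h4
  · rw [if_neg h2, if_neg h2]

/-- Fewer digits of a code. -/
theorem cod_prec (hp : IsLaw p) {N : ℕ} {s ρ : ℝ} (hs : 0 < s) (hρ : 0 ≤ ρ)
    (h : (2 : ℝ) ^ N ≤ ρ * s) {Hl : LnT F → MvPolynomial (Option (Fin m)) ℝ} {κ : Fin m}
    {a₀ : ℕ} {𝓦 : Type} (Z : F.Ω → 𝓦) :
    CH p (cod F w Hl κ N a₀ K) Z ≤ CH p (Pool.AVG71.cod F w a₀ K s κ Hl (fun P => P)) Z +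
      (K + 1) * Real.log (2 * (ρ + 1) + 1) := by
  refine CH_via hp.nonneg _ (Pool.AVG71.cod F w a₀ K s κ Hl (fun P => P)) le_rfl
    (W' := fun ω => (Pool.AVG71.cod F w a₀ K s κ Hl (fun P => P) ω, Z ω)) ?_ fun _ _ _ _ e => e
  refine cod_few hp _ hρ fun ω ν _ _ e b hb hbK => ?_
  have e1 := congrFun (Prod.ext_iff.mp e).1 ⟨b, Nat.lt_succ_of_le hbK⟩
  unfold Pool.AVG71.cod at e1
  simp only [if_pos hb] at e1
  have h3 := near_of_floor hs e1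
  refine h3.trans ?_
  rw [div_le_div_iff₀ hs (by positivity), one_mul]
  exact h

end

section

variable {F : Fam m J} {c : ℕ → Fin m} {r₀ v K M : ℕ} {w : ℝ} {g q W X mm D ks nn : ℕ}
  {γ : ℕ → ℕ} {B : F.Ω → Prop} {G : ℕ → PtT F → ℕ → MvPolynomial (Option (Fin m)) ℝ}
  {H : LnT F → ℕ → MvPolynomial (Option (Fin m)) ℝ} {ζ ρ₁ ρ₂ υ : Type} {zw : F.Ω → ζ}
  {zj : F.Ω → ρ₁} {zx : F.Ω → ρ₂} {y : F.Ω → υ} {p : F.Ω → ℝ} {n n' nt : ℕ → ℝ} {Nt nb : ℝ}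
  {Df Dn Dx Dd : ℕ → ℕ → ℝ} {Ef En Nv : ℕ → ℝ} {η U ρ : ℝ}

/-- **The inputs on one event.** -/
theorem C1E.avl (E : C1E F c r₀ v K M w g H zw zj zx y p n n' nt Nt nb Df Dn Dx Dd Ef En Nv η)
    (hη : 0 ≤ η) (hr : r₀ ≤ v) (hw0 : 0 ≤ w)
    (hc1 : ∀ l, r₀ ≤ l → l ≤ v → n' l = n l) (hn0 : ∀ l ≤ v, 0 ≤ n l)
    (hDn : ∀ l, r₀ ≤ l → l < v → ∀ j' ≤ 1, Dn l j' = nd n n' w l j')
    (hDx : ∀ l, r₀ ≤ l → l < v → ∀ j' ≤ 1, Dx l j' = nd n n' w l j')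
    (hDd : ∀ l, r₀ ≤ l → l < v → ∀ j' ≤ 1, Dd l j' = nd n n' w l j')
    (hDv : ∀ j' ≤ 1, Dd v j' = Df v j')
    (hnt : ∀ l, r₀ ≤ l → l ≤ v → nt l ≤ n l) (hg : g = γ (v + 1) + q + X)
    (hρ : 0 ≤ ρ) (hNt : (2 : ℝ) ^ (γ (v + 1) + q) ≤ ρ * 2 ^ (Nt * J))
    (law : IsLaw p) (sup : ∀ ω, 0 < p ω → B ω)
    (wW : ⌊w * J⌋₊ ≤ W) (WJ : W ≤ J) (deg : ∀ s l, (H s l).totalDegree ≤ D) (DK : D + 1 ≤ K)
    (KX : (K : ℝ) ≤ 2 ^ (X + mm)) (cls : Clsd F (v + 2) ⌊w * J⌋₊ B (G 0) H)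
    (grd : GrdE F c 0 (v + 1) ks nn q X γ U B G) (kn : ks ≤ nn)
    (mU : U + 8 * (v + 1 : ℕ) * U + 1 ≤ 2 ^ mm) (zL : Det p (slam F ⌊w * J⌋₊) zw)
    (cn : ∀ l < v, γ l + (q + X) + 2 * K ≤ ⌊n l * J⌋₊)
    (cv : γ v + q + (X + mm) + 6 * K ≤ ⌊n' v * J⌋₊)
    (chj : Det p zj (chs F (v + 1) ks G)) (chx : Det p zx (chs F (v + 1) nn G))
    (zwx : Det p zx zw)
    (n0 : Dn v 0 * J ≤ (γ v + q : ℕ)) (n1 : Dn v 1 * J + W ≤ (γ v + q + (X + mm) : ℕ))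
    (x0 : Dx v 0 * J ≤ (γ v + q : ℕ)) (x1 : Dx v 1 * J + W ≤ (γ v + q + (X + mm) : ℕ))
    (u0 : nt v * J ≤ (γ v + q : ℕ)) (u1 : (nt v - w) * J + W ≤ (γ v + q + (X + mm) : ℕ))
    (m0 : En 0 * J ≤ (γ (v + 1) + q : ℕ)) (m1 : En 1 * J + W ≤ (γ (v + 1) + q : ℕ))
    (mf : ((γ (v + 1) + q + X : ℕ) : ℝ) ≤ Ef 0 * J)
    (f0 : ((γ v + q + (X + mm) : ℕ) : ℝ) ≤ Df v 0 * J)
    (f1 : ((γ v + q + (X + mm) : ℕ) : ℝ) ≤ Df v 1 * J + W)
    (v0 : ((γ v + q : ℕ) : ℝ) ≤ Nv 0 * J)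
    (v1 : ((γ v + q + (X + mm) : ℕ) : ℝ) ≤ Nv 1 * J + W) :
    AvL F c v q ⌊w * J⌋₊ W X mm D K ks nn γ (fun l => ⌊n l * J⌋₊) (fun l => ⌊n' l * J⌋₊) B G H
      zw (ycL F c r₀ v ⌊w * J⌋₊ K H (fun l => ⌊n l * J⌋₊) (fun l => ⌊n' l * J⌋₊) (nd n n' w) y)
      zj zx p (Df v) (Dn v) (Dx v) (fun j' => nt v - (j' : ℝ) * w) Nv Ef En U (nb * J)
      (eT v K M ρ η) := by
  have h0 := law.nonneg
  have hcS := cS_nonneg K
  have hcD := cD_nonneg K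
  have hcL := cL_nonneg K
  have hcM := cM_nonneg K M
  have hρl : 0 ≤ Real.log (2 * (ρ + 1) + 1) := Real.log_nonneg (by linarith)
  have hJ0 : (0 : ℝ) ≤ J := Nat.cast_nonneg J
  have hv0 : (0 : ℝ) ≤ v := Nat.cast_nonneg v
  have hK0 : (0 : ℝ) ≤ K := Nat.cast_nonneg K
  have hM0 : (0 : ℝ) ≤ M := Nat.cast_nonneg M
  have t1 : 0 ≤ ((v : ℝ) + 1) * (2 * η + 2 * cD K) := by positivity
  have t2 : 0 ≤ 4 * (v : ℝ) * cS K := by positivity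
  have t3 : 0 ≤ ((v : ℝ) + 1) * (M + 1) * cM K M := by positivity
  have t4 : 0 ≤ ((K : ℝ) + 1) * Real.log (2 * (ρ + 1) + 1) := by positivity
  obtain ⟨wn, hwn⟩ : ∃ wn, wn = ⌊w * J⌋₊ := ⟨_, rfl⟩
  have hwr : (wn : ℝ) ≤ w * J := by rw [hwn]; exact Nat.floor_le (by positivity)
  have hwr' : w * J ≤ wn + 1 := by rw [hwn]; exact (Nat.lt_floor_add_one _).le
  obtain ⟨nc, hnc⟩ : ∃ nc : ℕ → ℕ, nc = fun l => ⌊n l * J⌋₊ := ⟨_, rfl⟩
  obtain ⟨nc', hnc'⟩ : ∃ nc' : ℕ → ℕ, nc' = fun l => ⌊n' l * J⌋₊ := ⟨_, rfl⟩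
  have q1 := E.yW
  have q2 := E.yf
  have q3 := E.y0
  have q4 := E.y1
  have q5 := E.cd
  have q6 := E.mj
  have q7 := E.mx
  have q8 := E.dj
  have q9 := E.jt
  have q10 := E.vf
  rw [← hwn] at q2 q3 q4 q5 q6 q7 q8 q9 q10 wW cls zL ⊢
  have hnl : ∀ l, ⌊n l * J⌋₊ = nc l := fun l => by rw [hnc]
  have hnl' : ∀ l, ⌊n' l * J⌋₊ = nc' l := fun l => by rw [hnc']
  simp only [hnl, hnl'] at q3 q4 q5 cn cv ⊢
  have ncu : ∀ l, n l * J ≤ nc l + 1 := fun l => by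
    rw [hnc]
    exact (Nat.lt_floor_add_one _).le
  have ncu' : ∀ l, n' l * J ≤ nc' l + 1 := fun l => by
    rw [hnc']
    exact (Nat.lt_floor_add_one _).le
  have ncl : ∀ l ≤ v, (nc l : ℝ) ≤ n l * J := fun l hl => by
    rw [hnc]
    exact Nat.floor_le (mul_nonneg (hn0 l hl) hJ0)
  have wJn : wn ≤ J := wW.trans WJ
  -- the codes are few bits
  have hsd : CH p (sdL F c v wn K H nc nc') (fun ω => (jet2 F c wn H r₀ v (nd n n' w) ω,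
      (zw ω, y ω))) ≤ (v + 1) * (2 * η + 2 * cD K) := by
    refine sd_few law wJn deg DK (N := nd n n' w) (r₀ := r₀) (fun l l0 l1 => ?_) _
      (fun ω ν _ _ e => ?_) hη (fun l hl => ?_) (fun l hl => ?_) (fun l l0 l1 => ?_) hr
    · have e1 : n' l = n l := hc1 l l0 l1.le
      have e2 : nc' l = nc l := by rw [hnc, hnc']; simp only [e1]
      refine ⟨e2.symm, ?_, ?_⟩
      · unfold nd
        rw [if_pos rfl]
        exact ncl l l1.le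
      · unfold nd
        rw [if_neg one_ne_zero, e1]
        have := ncl l l1.le
        push_cast
        linarith
    · obtain ⟨e1, e2⟩ := Prod.ext_iff.mp e
      exact ⟨(q1 ω ν (Prod.ext_iff.mp e2).2).2, e1⟩
    · exact (CH_mono_cond h0 fun _ _ _ _ e => (Prod.ext_iff.mp e).2).trans (q3 l hl)
    · exact (CH_mono_cond h0 fun _ _ _ _ e => (Prod.ext_iff.mp e).2).trans (q4 l hl)
    · refine (CH_mono_cond h0 fun ω ν _ _ e => ?_).trans (q5 l l0 l1)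
      obtain ⟨e1, e2⟩ := Prod.ext_iff.mp e
      exact Prod.ext (jet2_eq l1 (fun _ _ _ _ _ => rfl) e1) e2
  have hZn0 : ∀ l, nd n n' w l 0 = n l := fun l => by unfold nd; rw [if_pos rfl]
  have hZn1 : ∀ l, nd n n' w l 1 = n' l - w := fun l => by
    unfold nd
    rw [if_neg one_ne_zero]
    push_cast
    ring
  -- jets from the codes
  have hjs : ∀ a b, b ≤ v → CH p (jet2 F c wn H a b (nd n n' w))
      (fun ω => (rt F W ω, zxs F c 0 W zw (sdL F c v wn K H nc nc') ω)) ≤ 2 * v * cS K := by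
    intro a b hb
    refine jet2_sd (nc := nc) (nc' := nc') law wJn deg DK hb (fun l _ _ => ?_) (fun l _ _ => ?_) _ fun ω ν _ _ e => ?_
    · rw [hZn0]
      exact ncu l
    · rw [hZn1]
      have := ncu' l
      linarith
    · obtain ⟨e1, e2⟩ := Prod.ext_iff.mp e
      obtain ⟨e3, e4⟩ := AvL.eqz e2
      exact ⟨(time_eq F WJ e3 e1).1, e4⟩
  have hyf : CH p y (fun ω => (rt F W ω, zxs F c 0 W zw (sdL F c v wn K H nc nc') ω)) ≤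
      2 * v * cS K + η := by
    refine CH_via h0 _ (jet2 F c wn H 0 r₀ (nd n n' w)) (hjs 0 r₀ hr) q2
      fun ω ν _ _ e => ?_
    obtain ⟨e1, e2⟩ := Prod.ext_iff.mp e
    obtain ⟨e3, e4⟩ := Prod.ext_iff.mp e2
    obtain ⟨e5, e6⟩ := Prod.ext_iff.mp e4
    obtain ⟨e7, e8⟩ := AvL.eqz e4
    obtain ⟨e9, -⟩ := Prod.ext_iff.mp e6
    have e10 : F.Z ω = F.Z ν := (Prod.ext_iff.mp e9).1
    refine Prod.ext e1 (Prod.ext e5 ?_)
    exact Prod.ext (time_eq F WJ e7 e3).1 e10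
  -- the side information from the jets and `y`
  have hYc : ∀ {ω ν : F.Ω}, sdL F c v wn K H nc nc' ω = sdL F c v wn K H nc nc' ν →
      jet2 F c wn H r₀ v (nd n n' w) ω = jet2 F c wn H r₀ v (nd n n' w) ν → y ω = y ν →
      ycL F c r₀ v wn K H nc nc' (nd n n' w) y ω = ycL F c r₀ v wn K H nc nc' (nd n n' w) y ν := by
    intro ω ν e1 e2 e3
    unfold ycL
    have e4 : yv c 0 J F ω = yv c 0 J F ν := by
      obtain ⟨z1, z2⟩ := q1 ω ν e3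
      unfold yv
      refine Prod.ext (Prod.ext z2 z1) (Prod.ext ?_ ?_)
      · funext i
        simp
      · funext i
        simp
    rw [e1, e2, e3, e4]
  have hYc' : ∀ {ω ν : F.Ω}, ycL F c r₀ v wn K H nc nc' (nd n n' w) y ω =
      ycL F c r₀ v wn K H nc nc' (nd n n' w) y ν →
      (sdL F c v wn K H nc nc' ω = sdL F c v wn K H nc nc' ν ∧
      jet2 F c wn H r₀ v (nd n n' w) ω = jet2 F c wn H r₀ v (nd n n' w) ν) ∧ y ω = y ν := by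
    intro ω ν e
    unfold ycL at e
    obtain ⟨e1, e2⟩ := Prod.ext_iff.mp e
    obtain ⟨e3, e4⟩ := Prod.ext_iff.mp e2
    obtain ⟨e5, e6⟩ := Prod.ext_iff.mp e4
    exact ⟨⟨e5, e6⟩, e3⟩
  have heT : eT v K M ρ η = η + (v + 1) * (2 * η + 2 * cD K) + 4 * v * cS K + cL K +
    (v + 1) * (M + 1) * cM K M + (K + 1) * Real.log (2 * (ρ + 1) + 1) := rfl
  have hCHsub : ∀ {𝓦 : Type} (Z : F.Ω → 𝓦), (∀ ω ν, 0 < p ω → 0 < p ν → Z ω = Z ν →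
      jet2 F c wn H r₀ v (nd n n' w) ω = jet2 F c wn H r₀ v (nd n n' w) ν ∧
      (zw ω = zw ν ∧ y ω = y ν)) →
      CH p (sdL F c v wn K H nc nc') Z ≤ (v + 1) * (2 * η + 2 * cD K) := by
    intro 𝓦 Z hZ
    refine (CH_mono_cond h0 fun ω ν a b e => ?_).trans hsd
    obtain ⟨e1, e2, e3⟩ := hZ ω ν a b e
    exact Prod.ext e1 (Prod.ext e2 e3)
  refine ⟨law, sup, wW, WJ, deg, DK, KX, cls, grd, kn, mU, fun ω ν a b e => zL ω ν a b ?_,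
    cn, cv, ?_, ?_, ?_, ?_, ?_, ?_, ?_, n0, n1, x0, x1, ?_, ?_, m0, m1, mf, f0, f1, v0, v1, ?_,
    ?_, ?_, ?_⟩
  · rw [← upw_slam F wW WJ ω, ← upw_slam F wW WJ ν, e]
  · -- czy
    refine le_trans (le_of_eq (CH_eq_zero h0 fun ω ν _ _ e => ?_)) (by rw [heT]; linarith :
      (0 : ℝ) ≤ eT v K M ρ η)
    obtain ⟨e1, e2⟩ := Prod.ext_iff.mp e
    obtain ⟨⟨e7, e8⟩, e9⟩ := hYc' e2
    obtain ⟨z1, z2⟩ := q1 ω ν e9
    refine Prod.ext (rt_of F WJ z2) (Prod.ext e1 (Prod.ext ?_ (Prod.ext ?_ e7)))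
    · show (F.Z ω, F.T1 W ω) = (F.Z ν, F.T1 W ν)
      unfold Fam.T1
      rw [z1, z2]
    · funext l
      exact Fin.elim0 l
  · -- cyz
    refine (zxs_cyz (sy := fun ω => (y ω, (sdL F c v wn K H nc nc' ω,
      jet2 F c wn H r₀ v (nd n n' w) ω))) law WJ (e := 4 * v * cS K + η) ?_).trans
      (by rw [heT]; linarith)
    have b1 := CH_subadd h0 y (fun ω => (sdL F c v wn K H nc nc' ω,
      jet2 F c wn H r₀ v (nd n n' w) ω))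
      (fun ω => (rt F W ω, zxs F c 0 W zw (sdL F c v wn K H nc nc') ω))
    have b2 := CH_subadd h0 (sdL F c v wn K H nc nc') (jet2 F c wn H r₀ v (nd n n' w))
      (fun ω => (rt F W ω, zxs F c 0 W zw (sdL F c v wn K H nc nc') ω))
    have b3 : CH p (sdL F c v wn K H nc nc')
      (fun ω => (rt F W ω, zxs F c 0 W zw (sdL F c v wn K H nc nc') ω)) = 0 :=
      CH_eq_zero h0 fun ω ν _ _ e => (AvL.eqz (Prod.ext_iff.mp e).2).2
    have b4 := hjs r₀ v le_rfl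
    linarith
  · -- mj
    have b1 := MI_mono h0 zj (X := fun ω => (jet2 F c wn H r₀ (v + 1) Df ω,
      pr2 F c wn H (v + 1) Ef ω)) (X' := fun ω => (jt1 F c v wn H (Df v) ω,
      pr2 F c wn H (v + 1) Ef ω)) (fun ω => ((jt1 F c v wn H (Dn v) ω,
      pr2 F c wn H (v + 1) En ω), (zw ω, ycL F c r₀ v wn K H nc nc' (nd n n' w) y ω)))
      (fun ω ν _ _ e => by
        obtain ⟨e1, -⟩ := Prod.ext_iff.mp e
        obtain ⟨e2, e3⟩ := Prod.ext_iff.mp e1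
        exact Prod.ext (jet2_last hr e2) e3)
    have b2 := MI_add h0 zj (fun ω => (jet2 F c wn H r₀ (v + 1) Df ω,
      pr2 F c wn H (v + 1) Ef ω)) (Z := fun ω => ((jet2 F c wn H r₀ (v + 1) Dn ω,
      pr2 F c wn H (v + 1) En ω), (zw ω, y ω))) (Z' := fun ω => ((jt1 F c v wn H (Dn v) ω,
      pr2 F c wn H (v + 1) En ω), (zw ω, ycL F c r₀ v wn K H nc nc' (nd n n' w) y ω)))
      (C := sdL F c v wn K H nc nc') (fun ω ν _ _ e => by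
        obtain ⟨e1, e2⟩ := Prod.ext_iff.mp e
        obtain ⟨e3, e4⟩ := Prod.ext_iff.mp e1
        obtain ⟨e5, e6⟩ := Prod.ext_iff.mp e2
        obtain ⟨⟨e7, e8⟩, e9⟩ := hYc' e6
        exact Prod.ext (Prod.ext (jet2_join hDn (fun _ _ => rfl) e8 e3) e4) (Prod.ext e5 e9))
      (fun ω ν _ _ e => by
        obtain ⟨e1, e2⟩ := Prod.ext_iff.mp e
        obtain ⟨e3, e4⟩ := Prod.ext_iff.mp e2
        obtain ⟨e5, e6⟩ := Prod.ext_iff.mp e3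
        obtain ⟨e7, e8⟩ := Prod.ext_iff.mp e4
        exact Prod.ext (Prod.ext (jet2_last hr e5) e6) (Prod.ext e7
          (hYc e1 (jet2_eq (Nat.le_succ v) hDn e5) e8)))
    have b3 := hCHsub (fun ω => ((jet2 F c wn H r₀ (v + 1) Dn ω, pr2 F c wn H (v + 1) En ω),
      (zw ω, y ω))) (fun ω ν _ _ e => by
        obtain ⟨e3, e4⟩ := Prod.ext_iff.mp e
        obtain ⟨e5, e6⟩ := Prod.ext_iff.mp e3
        obtain ⟨e7, e8⟩ := Prod.ext_iff.mp e4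
        exact ⟨jet2_eq (Nat.le_succ v) hDn e5, e7, e8⟩)
    rw [heT]
    linarith
  · -- mx
    have b1 := MI_mono h0 zx (X := jet2 F c wn H r₀ (v + 1) Df) (X' := jt1 F c v wn H (Df v))
      (fun ω => (jt1 F c v wn H (Dx v) ω, (zw ω, ycL F c r₀ v wn K H nc nc' (nd n n' w) y ω)))
      (fun ω ν _ _ e => jet2_last hr (Prod.ext_iff.mp e).1)
    have b2 := MI_add h0 zx (jet2 F c wn H r₀ (v + 1) Df) (Z := fun ω =>
      (jet2 F c wn H r₀ (v + 1) Dx ω, (zw ω, y ω))) (Z' := fun ω => (jt1 F c v wn H (Dx v) ω,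
      (zw ω, ycL F c r₀ v wn K H nc nc' (nd n n' w) y ω)))
      (C := sdL F c v wn K H nc nc') (fun ω ν _ _ e => by
        obtain ⟨e3, e2⟩ := Prod.ext_iff.mp e
        obtain ⟨e5, e6⟩ := Prod.ext_iff.mp e2
        obtain ⟨⟨e7, e8⟩, e9⟩ := hYc' e6
        exact Prod.ext (jet2_join hDx (fun _ _ => rfl) e8 e3) (Prod.ext e5 e9))
      (fun ω ν _ _ e => by
        obtain ⟨e1, e2⟩ := Prod.ext_iff.mp e
        obtain ⟨e5, e4⟩ := Prod.ext_iff.mp e2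
        obtain ⟨e7, e8⟩ := Prod.ext_iff.mp e4
        exact Prod.ext (jet2_last hr e5) (Prod.ext e7
          (hYc e1 (jet2_eq (Nat.le_succ v) hDx e5) e8)))
    have b3 := hCHsub (fun ω => (jet2 F c wn H r₀ (v + 1) Dx ω, (zw ω, y ω)))
      (fun ω ν _ _ e => by
        obtain ⟨e5, e4⟩ := Prod.ext_iff.mp e
        obtain ⟨e7, e8⟩ := Prod.ext_iff.mp e4
        exact ⟨jet2_eq (Nat.le_succ v) hDx e5, e7, e8⟩)
    rw [heT]
    linarith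
  · rw [CH_eq_zero h0 chj, heT]
    linarith
  · rw [CH_eq_zero h0 chx, heT]
    linarith
  · rw [CH_eq_zero h0 zwx, heT]
    linarith
  · -- u0
    simpa using u0
  · simpa using u1
  · rw [heT]
    linarith
  · -- dj
    rw [hg] at q8
    have b1 : CH p (cod F wn (fun s => H s (v + 1)) (c (v + 1)) (γ (v + 1) + q + X) 1 K)
        (fun ω => (jt1 F c v wn H (Df v) ω, (zw ω,
          ycL F c r₀ v wn K H nc nc' (nd n n' w) y ω))) ≤ η := by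
      refine (CH_mono_cond h0 fun ω ν _ _ e => ?_).trans q8
      obtain ⟨e1, e2⟩ := Prod.ext_iff.mp e
      obtain ⟨e3, e4⟩ := Prod.ext_iff.mp e2
      obtain ⟨⟨e7, e8⟩, e9⟩ := hYc' e4
      exact Prod.ext (jet2_join hDd hDv e8 e1) (Prod.ext e3 e9)
    rw [heT]
    linarith
  · -- jt
    have b0 := cod_prec law (w := wn) (K := K) (N := γ (v + 1) + q) (s := 2 ^ (Nt * J))
      (Real.rpow_pos_of_pos two_pos _) hρ hNt (Hl := fun s => H s (v + 1)) (κ := c (v + 1))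
      (a₀ := 0) (fun ω => (jt1 F c v wn H (fun j' => nt v - (j' : ℝ) * w) ω,
        (zx ω, ycL F c r₀ v wn K H nc nc' (nd n n' w) y ω)))
    have b1 := CH_via h0 (Pool.AVG71.cod F wn 0 K (2 ^ (Nt * J)) (c (v + 1))
      (fun s => H s (v + 1)) (fun P => P)) (fun ω (i : Fin (v + 1) × Fin (M + 1)) =>
        if r₀ ≤ (i.1 : ℕ) then ⌊(2 : ℝ) ^ ((nt i.1 - (i.2 : ℕ) * w) * J) *
          ojet F (c i.1) i.2 (H (slam F wn ω) i.1) ω⌋ else 0)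
      (W := fun ω => (jt1 F c v wn H (fun j' => nt v - (j' : ℝ) * w) ω,
        (zx ω, ycL F c r₀ v wn K H nc nc' (nd n n' w) y ω)))
      (jets_sd (F := F) (c := c) (v := v) (w := wn) (K := K) (D := D) (H := H) (nc := nc)
        (nc' := nc') law hw0 hwn wJn deg DK (r₀ := r₀) (M := M) (nt := nt)
        (fun l l0 l1 => ?_) _ (fun ω ν _ _ e => ?_)) q9 (fun ω ν _ _ e => ?_)
    · rw [heT]
      linarith
    · have e1 := ncu l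
      have e2 := ncu' l
      have e3 := hc1 l l0 l1
      rw [e3] at e2
      have e4 := mul_le_mul_of_nonneg_right (hnt l l0 l1) hJ0
      constructor <;> linarith
    · obtain ⟨e1, e2⟩ := Prod.ext_iff.mp e
      obtain ⟨e3, e4⟩ := Prod.ext_iff.mp e2
      obtain ⟨⟨e7, e8⟩, e9⟩ := hYc' e4
      refine ⟨(q1 ω ν e9).2, e7, fun j' hj' => ?_⟩
      exact congrFun e1 (0, ⟨j', by omega⟩)
    · obtain ⟨e0, e⟩ := Prod.ext_iff.mp e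
      obtain ⟨e1, e2⟩ := Prod.ext_iff.mp e
      obtain ⟨e3, e4⟩ := Prod.ext_iff.mp e2
      obtain ⟨⟨e7, e8⟩, e9⟩ := hYc' e4
      refine Prod.ext ?_ (Prod.ext e3 e9)
      funext l j'
      show jetM F c wn H r₀ (v + 1) M (fun l j' => nt l - (j' : ℝ) * w) ω l j' =
        jetM F c wn H r₀ (v + 1) M (fun l j' => nt l - (j' : ℝ) * w) ν l j'
      unfold jetM
      by_cases h1 : r₀ ≤ l ∧ l < v + 1 ∧ j' ≤ M
      · rw [if_pos h1, if_pos h1]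
        have e10 := congrFun e0 (⟨l, h1.2.1⟩, ⟨j', by omega⟩)
        dsimp only at e10
        rw [if_pos h1.1, if_pos h1.1] at e10
        exact e10
      · rw [if_neg h1, if_neg h1]
  · -- vf
    have b1 := CH_via h0 (Vh F c v wn H (nb * J)) (sdL F c v wn K H nc nc')
      (W := fun ω => (⌊(2 : ℝ) ^ (Nv 0 * J) * ojet F (c v) 0 (H (slam F wn ω) v) ω⌋,
      (⌊(2 : ℝ) ^ (Nv 1 * J) * ojet F (c v) 1 (H (slam F wn ω) v) ω⌋,
        (zx ω, (zw ω, (jet2 F c wn H r₀ v (nd n n' w) ω, y ω))))))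
      (W' := fun ω => (jt1 F c v wn H Nv ω, (zx ω,
        ycL F c r₀ v wn K H nc nc' (nd n n' w) y ω)))
      (hCHsub _ fun ω ν _ _ e => ?_) le_rfl (fun ω ν _ _ e => ?_)
    · rw [heT]
      have e1 : (nb * J - Nv 0 * J) * Real.log 2 = (nb - Nv 0) * Real.log 2 * J := by ring
      rw [e1]
      linarith
    · simp only [Prod.mk.injEq] at e
      obtain ⟨-, -, -, e1, e2, e3⟩ := e
      exact ⟨e2, e1, e3⟩
    · simp only [Prod.mk.injEq] at e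
      obtain ⟨e0, e1, e2, e3, e4, e5, e6⟩ := e
      refine Prod.ext ?_ (Prod.ext e3 (hYc e0 e5 e6))
      funext i
      obtain ⟨i, a⟩ := i
      have ha := a.2
      have : a = 0 ∨ a = 1 := by omega
      rcases this with h | h
      · subst h
        exact e1
      · subst h
        exact e2

end

end Pool.AVG57
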