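import Pool.Agent.H57.AVG.C1e

/-!
# The inputs of a class, on one event

`C1H`: the statements `C1C` at one event, with the finest records. `C1C.bas`: they hold at the events
of the class. `C1H.ev`: the values `C1E` for closed charts.
-/

set_option autoImplicit false

namespace Pool.AVG57

open Finset Real MvPolynomial
open Pool.Agent.H49.Ent Pool.Agent.H32.Dense Pool.STK Pool.KA Pool.KSAT Pool.K2S Pool.PB Pool.S6C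
open Pool.GEN Pool.CHT Pool.CHX Pool.ISO Pool.RCD Pool.LA91 Pool.AVG71 Pool.AVG5 Pool.D2F2
open Pool.AVG96 (jetQ prQ MIw)
open Pool.GRD (LbP)
open Pool.PB.Trl (rt rt_mem t_rt)
open Pool.D2R (hgt gnh GrdE chs)
open Pool.KVA (MI)
open Pool.KAF (rs Pr)
open Pool.BFL (Pb)

variable {m : ℕ} {γ : ∀ J : ℕ, Fam m J → Type}

/-- `CdC` on one event. -/
def CdE {U : Type} (y : ∀ (J : ℕ) (F : Fam m J), F.Ω → γ J F) (c : ℕ → Fin m)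
    (κ K j₀ K₀ : ℕ) (w a pκ N θ E : ℝ) (Q : Qt m U) (J : ℕ) (F : Fam m J) (A : F.Ω → Prop) :
    Prop :=
  ∀ u₀ : F.Ω → U, Q.P K₀ 0 J F A u₀ → ∀ (V : Type) (z : PtT F → V) (z' : LnT F → V)
    (G : V → MvPolynomial (Option (Fin m)) ℝ),
    LbP F ((range κ).image c) (c κ) K J ⌊w * J⌋₊ ⌊pκ * J⌋₊ A z z' G →
    (∀ ω, A ω → ∀ b, |(dv ⌊w * J⌋₊ (fun s (_ : Fin m) => G (z' s)) (c κ)
      (slam F ⌊w * J⌋₊ ω)).coeff b| ≤ 2 ^ (E * J)) →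
    ∃ (V₁ : Type) (z₁ : F.Ω → V₁), Cl2 (ptr F J) (vg a J F) A z₁ ∧
      ∀ s : ℝ, 0 < s → s ≤ 2 ^ (N * J) →
      CH (Pool.Agent.H49.Ent.cond F.p A True) (Pool.AVG71.cod F ⌊w * J⌋₊ j₀ (K + 1) s (c κ) z' G)
        (fun ω => (u₀ ω, (z₁ ω, y J F ω))) ≤ θ * J

theorem CdC.ev {S : PCl m} {U : Type} {y : ∀ (J : ℕ) (F : Fam m J), F.Ω → γ J F}
    {c : ℕ → Fin m} {κ K j₀ : ℕ} {w a pκ N θ : ℝ} {Q : Qt m U}
    (h : CdC S y c κ K j₀ w a pκ N θ Q) (K₀ : ℕ) (E : ℝ) :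
    Bas S (fun J F A => CdE y c κ K j₀ K₀ w a pκ N θ E Q J F A) := by
  obtain ⟨e₀, he, h⟩ := h
  refine (h K₀ E).mono 0 ?_
  intro J _ F A H u₀ hu V z z' G hl hc
  refine H u₀ (Q.mono le_rfl he.le hu) V z z' G (hl.mono (Finset.Subset.refl _) le_rfl ?_) hc
  exact Nat.floor_le_floor (mul_le_mul_of_nonneg_right (by linarith) (Nat.cast_nonneg J))

theorem Mx.up {α β : ∀ J : ℕ, Fam m J → Type} {f : ∀ (J : ℕ) (F : Fam m J), F.Ω → α J F}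
    {g : ∀ (J : ℕ) (F : Fam m J), F.Ω → β J F} {k k' : ℝ} {J : ℕ} {F : Fam m J}
    {A : F.Ω → Prop} {V : Type} {z : F.Ω → V} (h : Mx f g k F A z) (hk : k ≤ k') :
    Mx f g k' F A z :=
  ⟨h.1, fun V' z' hz' => (h.2 V' z' hz').trans
    (mul_le_mul_of_nonneg_right hk (Nat.cast_nonneg J))⟩

/-- **The statements on one event.** -/
structure C1H (y : ∀ (J : ℕ) (F : Fam m J), F.Ω → γ J F) (c : ℕ → Fin m) (r₀ v K K₀ : ℕ)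
    (w j x : ℝ) (p n n' nt : ℕ → ℝ) (Nd Nt nb : ℝ) (Df Dn Dx Dd : ℕ → ℕ → ℝ)
    (Ef En Nv : ℕ → ℝ) (E h lo hi η η₁ τ π₀ : ℝ) (Kg J : ℕ) (F : Fam m J) (B : F.Ω → Prop) :
    Prop where
  yf : ∀ u, (jetQ m c 0 r₀ w p (nd n n' w)).P K₀ 0 J F B u → ∃ (V₁ : Type) (z₁ : F.Ω → V₁),
    Cl2 (ptr F J) (vg w J F) B z₁ ∧
      CH (Pool.Agent.H49.Ent.cond F.p B True) (y J F) (fun ω => (u ω, (z₁ ω, F.W ω))) ≤ η * J
  y0 : ∀ l < r₀, CdE y c l K 0 K₀ w w (p l) (n l) η E (Qt.fn fun _ _ _ => ()) J F B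
  y1 : ∀ l < r₀, CdE y c l K 1 K₀ w w (p l) (n' l) η E (Qt.fn fun _ _ _ => ()) J F B
  mj : ∀ (V₁ V₂ : Type) (z : F.Ω → V₁) (zv : F.Ω → V₂), Mx (fun J F => ptr F J) (vg w) 0 F B z →
    Mx (fun J F => ptr F J) (vg j) 0 F B zv → ∀ a b,
    ((jetQ m c r₀ (v + 1) w p Df).prod (prQ m c (v + 1) w (p (v + 1)) Ef)).P K₀ 0 J F B a →
    ((jetQ m c r₀ (v + 1) w p Dn).prod (prQ m c (v + 1) w (p (v + 1)) En)).P K₀ 0 J F B b →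
    MI (Pool.Agent.H49.Ent.cond F.p B True) zv a (fun ω => (b ω, (z ω, y J F ω))) ≤ (η + η₁) * J
  mx : ∀ (V₁ V₂ : Type) (z : F.Ω → V₁) (zv : F.Ω → V₂), Mx (fun J F => ptr F J) (vg w) 0 F B z →
    Mx (fun J F => ptr F J) (vg x) 0 F B zv → ∀ a b,
    (jetQ m c r₀ (v + 1) w p Df).P K₀ 0 J F B a → (jetQ m c r₀ (v + 1) w p Dx).P K₀ 0 J F B b →
    MI (Pool.Agent.H49.Ent.cond F.p B True) zv a (fun ω => (b ω, (z ω, y J F ω))) ≤ (η + η₁) * J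
  cd : ∀ l < v + 1, r₀ ≤ l → CdE y c l K 2 K₀ w w (p l) (n' l) η E
    (jetQ m c r₀ l w p (nd n n' w)) J F B
  dj : CdE y c (v + 1) K 1 K₀ w w (p (v + 1)) Nd η E (jetQ m c r₀ (v + 1) w p Dd) J F B
  jt : CdE y c (v + 1) K 0 K₀ w x (p (v + 1)) Nt η E
    (qJets m c r₀ (v + 1) (K + 2) (fun _ _ => w) (fun l _ => p l)
      (fun l j' => nt l - (j' : ℝ) * w)) J F B
  vf : ∀ (V₁ V₂ : Type) (z : F.Ω → V₁) (zx : F.Ω → V₂), Mx (fun J F => ptr F J) (vg w) 0 F B z →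
    Mx (fun J F => ptr F J) (vg x) 0 F B zx → ∀ u₀ a b d,
    (jetQ m c r₀ v w p (nd n n' w)).P K₀ 0 J F B u₀ →
    (qJet m ((range v).image c) (c v) 0 w (p v) (Nv 0)).P K₀ 0 J F B a →
    (qJet m ((range v).image c) (c v) 0 w (p v) nb).P K₀ 0 J F B b →
    (qJet m ((range v).image c) (c v) 1 w (p v) (Nv 1)).P K₀ 0 J F B d →
    ((nb - Nv 0) * Real.log 2 - η) * J ≤ CH (Pool.Agent.H49.Ent.cond F.p B True) b
      (fun ω => (a ω, (d ω, (zx ω, (z ω, (u₀ ω, y J F ω))))))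
  row : ∀ k₁ < Kg, ∀ k₂ < Kg, lo ≤ τ * k₁ → τ * k₁ ≤ τ * k₂ → τ * k₂ ≤ hi →
    ∀ (V : Type) (z : F.Ω → V), Mx (fun J F => ptr F J) (vg w) 0 F B z → ∀ u u₁ u₂,
      (qJets m c r₀ (v + 1) 0 (fun _ _ => w) (fun l _ => p l)
        (fun l _ => if l = v then nb else n l)).P K₀ 0 J F B u →
      (qJet m ((range (v + 1)).image c) (c (v + 1)) 0 w (p (v + 1)) (τ * k₁)).P K₀ 0 J F B u₁ →
      (qJet m ((range (v + 1)).image c) (c (v + 1)) 0 w (p (v + 1)) (τ * k₂)).P K₀ 0 J F B u₂ →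
      ∀ B' : F.Ω → Prop, Sub B' B → π₀ * Pe F.p B ≤ Pe F.p B' →
      CH (Pool.Agent.H49.Ent.cond F.p B' True) u₂
        (fun ω => (u₁ ω, (u ω, (z ω, y J F ω)))) ≤
        ((1 - h) * (τ * k₂ - τ * k₁) * Real.log 2 + η) * J

section

variable {S : PCl m} {y : ∀ (J : ℕ) (F : Fam m J), F.Ω → γ J F} {c : ℕ → Fin m} {r₀ v K : ℕ}
  {w j x : ℝ} {p n n' nt : ℕ → ℝ} {Nd Nt nb : ℝ} {Df Dn Dx Dd : ℕ → ℕ → ℝ}
  {Ef En Nv : ℕ → ℝ} {h lo hi η : ℝ}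

/-- **The statements on the events of the class.** -/
theorem C1C.bas (C : C1C S y c r₀ v K w j x p n n' nt Nd Nt nb Df Dn Dx Dd Ef En Nv h lo hi η)
    (K₀ Kg : ℕ) (E : ℝ) {η₁ τ π₀ : ℝ} (hη₁ : 0 < η₁) (hπ₀ : 0 < π₀) :
    Bas S (fun J F B => C1H y c r₀ v K K₀ w j x p n n' nt Nd Nt nb Df Dn Dx Dd Ef En Nv E h lo hi
      η η₁ τ π₀ Kg J F B) := by
  obtain ⟨e₁, he₁, a1⟩ := C.yf
  obtain ⟨k₂, hk₂, e₂, he₂, a2⟩ := C.mj η₁ hη₁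
  obtain ⟨k₃, hk₃, e₃, he₃, a3⟩ := C.mx η₁ hη₁
  obtain ⟨k₄, hk₄, e₄, he₄, a4⟩ := C.vf
  have b1 := Bas.all r₀ fun l hl => (C.y0 l hl).ev K₀ E
  have b2 := Bas.all r₀ fun l hl => (C.y1 l hl).ev K₀ E
  have b3 : Bas S (fun J F B => ∀ l < v + 1, r₀ ≤ l → CdE y c l K 2 K₀ w w (p l) (n' l) η E
      (jetQ m c r₀ l w p (nd n n' w)) J F B) := Bas.all (v + 1) fun l hl => by
    by_cases hr : r₀ ≤ l
    · exact ((C.cd l hr (Nat.lt_succ_iff.1 hl)).ev K₀ E).mono 0 fun J _ F B H _ => H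
    · exact ⟨1, one_pos, 0, fun _ _ _ _ _ h => absurd h hr⟩
  have b4 := C.dj.ev K₀ E
  have b5 := C.jt.ev K₀ E
  have b6 : Bas S (fun J F B => ∀ k₁ < Kg, ∀ k₂ < Kg, lo ≤ τ * k₁ → τ * k₁ ≤ τ * k₂ →
      τ * k₂ ≤ hi → ∀ (V : Type) (z : F.Ω → V), Mx (fun J F => ptr F J) (vg w) 0 F B z →
      ∀ u u₁ u₂, (qJets m c r₀ (v + 1) 0 (fun _ _ => w) (fun l _ => p l)
        (fun l _ => if l = v then nb else n l)).P K₀ 0 J F B u →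
      (qJet m ((range (v + 1)).image c) (c (v + 1)) 0 w (p (v + 1)) (τ * k₁)).P K₀ 0 J F B u₁ →
      (qJet m ((range (v + 1)).image c) (c (v + 1)) 0 w (p (v + 1)) (τ * k₂)).P K₀ 0 J F B u₂ →
      ∀ B' : F.Ω → Prop, Sub B' B → π₀ * Pe F.p B ≤ Pe F.p B' →
      CH (Pool.Agent.H49.Ent.cond F.p B' True) u₂
        (fun ω => (u₁ ω, (u ω, (z ω, y J F ω)))) ≤
        ((1 - h) * (τ * k₂ - τ * k₁) * Real.log 2 + η) * J) := by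
    refine Bas.all Kg fun k₁ _ => Bas.all Kg fun k₂ _ => ?_
    by_cases h1 : lo ≤ τ * k₁ ∧ τ * k₁ ≤ τ * k₂ ∧ τ * k₂ ≤ hi
    swap
    · exact ⟨1, one_pos, 0, fun _ _ _ _ _ g1 g2 g3 => absurd ⟨g1, g2, g3⟩ h1⟩
    obtain ⟨k, hk, e₀, he₀, H⟩ := C.row (τ * k₁) (τ * k₂) h1.1 h1.2.1 h1.2.2 π₀ hπ₀
    refine (H K₀).mono 0 ?_
    intro J _ F B H _ _ _ V z hz u u₁ u₂ hu hu₁ hu₂ B' hB' hPB
    exact H V z (Mx.up hz hk.le) u u₁ u₂ (Qt.mono _ le_rfl he₀.le hu)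
      (Qt.mono _ le_rfl he₀.le hu₁) (Qt.mono _ le_rfl he₀.le hu₂) B' hB' hPB
  refine Bas.mono 0 ((((a1 K₀).and (b1.and b2)).and ((a2 K₀).and (a3 K₀))).and
    ((b3.and (b4.and b5)).and ((a4 K₀).and b6))) ?_
  rintro J - F B ⟨⟨⟨q1, q2, q3⟩, q4, q5⟩, ⟨q6, q7, q8⟩, q9, q10⟩
  refine ⟨fun u hu => q1 u (Qt.mono _ le_rfl he₁.le hu), q2, q3,
    fun V₁ V₂ z zv hz hzv a b ha hb => q4 V₁ V₂ z zv (Mx.up hz hk₂.le) (Mx.up hzv hk₂.le) a b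
      (Qt.mono _ le_rfl he₂.le ha) (Qt.mono _ le_rfl he₂.le hb),
    fun V₁ V₂ z zv hz hzv a b ha hb => q5 V₁ V₂ z zv (Mx.up hz hk₃.le) (Mx.up hzv hk₃.le) a b
      (Qt.mono _ le_rfl he₃.le ha) (Qt.mono _ le_rfl he₃.le hb), q6, q7, q8,
    fun V₁ V₂ z zx hz hzx u₀ a b d hu ha hb hd => q9 V₁ V₂ z zx (Mx.up hz hk₄.le)
      (Mx.up hzx hk₄.le) u₀ a b d (Qt.mono _ le_rfl he₄.le hu) (Qt.mono _ le_rfl he₄.le ha)
      (Qt.mono _ le_rfl he₄.le hb) (Qt.mono _ le_rfl he₄.le hd), q10⟩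

end

/-! ### The values -/

section

variable {y : ∀ (J : ℕ) (F : Fam m J), F.Ω → γ J F} {c : ℕ → Fin m} {r₀ v K K₀ : ℕ}
  {w j x : ℝ} {p s n n' nt : ℕ → ℝ} {Nd Nt nb : ℝ} {Df Dn Dx Dd : ℕ → ℕ → ℝ}
  {Ef En Nv : ℕ → ℝ} {E h lo hi η η₁ τ π₀ : ℝ} {Kg J : ℕ} {F : Fam m J} {B : F.Ω → Prop}
  {γl : ℕ → ℕ} {G₀ : PtT F → ℕ → MvPolynomial (Option (Fin m)) ℝ}
  {H : LnT F → ℕ → MvPolynomial (Option (Fin m)) ℝ}

/-- The codes of one place. -/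
theorem CdE.val {U : Type} {κ j₀ : ℕ} {a N θ : ℝ} {Q : Qt m U}
    (C : CdE y c κ K j₀ K₀ w a (p κ) N θ E Q J F B) (L : LbsE F c v K w p s E γl B G₀ H)
    (hκ : κ ≤ v + 1) {u₀ : F.Ω → U} (hu : Q.P K₀ 0 J F B u₀) (hp : 0 < Pe F.p B) {V : Type}
    {z : F.Ω → V} (hz : ∀ (V' : Type) (z' : F.Ω → V'), Cl2 (ptr F J) (vg a J F) B z' →
      ∀ ω ν, z ω = z ν → z' ω = z' ν) {s' : ℝ} (hs : 0 < s') (hs' : s' ≤ 2 ^ (N * J)) :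
    CH (Pool.Agent.H49.Ent.cond F.p B True) (Pool.AVG71.cod F ⌊w * J⌋₊ j₀ (K + 1) s' (c κ)
      (fun s => H s κ) (fun P => P)) (fun ω => (u₀ ω, (z ω, y J F ω))) ≤ θ * J := by
  obtain ⟨h1, h2⟩ := L.lb hκ le_rfl
  rw [sub_zero] at h1
  have hco : ∀ ω, B ω → ∀ b, |(dv ⌊w * J⌋₊ (fun s (_ : Fin m) =>
      nfp K ((range κ).image c) (H s κ)) (c κ) (slam F ⌊w * J⌋₊ ω)).coeff b| ≤ 2 ^ (E * J) := by
    simp only [h2]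
    exact fun ω hω b => L.co ω hω κ hκ b
  obtain ⟨V₁, z₁, g1, g2⟩ := C u₀ hu _ _ _ _ h1 hco
  have g3 := g2 s' hs hs'
  have e1 : Pool.AVG71.cod F ⌊w * J⌋₊ j₀ (K + 1) s' (c κ) (fun s => H s κ)
      (nfp K ((range κ).image c)) = Pool.AVG71.cod F ⌊w * J⌋₊ j₀ (K + 1) s' (c κ)
      (fun s => H s κ) (fun P => P) := by
    funext ω b
    unfold Pool.AVG71.cod
    simp only [h2]
  rw [e1] at g3
  refine (CH_mono_cond (cond_nonneg F.isLaw.nonneg B True) fun ω ν _ _ e => ?_).trans g3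
  simp only [Prod.mk.injEq] at e ⊢
  exact ⟨e.1, hz _ _ g1 ω ν e.2.1, e.2.2⟩

theorem cod_eq (F : Fam m J) {wn N a₀ K' : ℕ} {Hl : LnT F → MvPolynomial (Option (Fin m)) ℝ}
    {κ : Fin m} : Pool.AVG71.cod F wn a₀ K' (2 ^ N) κ Hl (fun P => P) = cod F wn Hl κ N a₀ K' := by
  funext ω b
  rfl

/-- The finest records. -/
theorem mx_fine {f : ∀ (J : ℕ) (F : Fam m J), F.Ω → PtT F} {a : ℝ} {V : Type} {z : F.Ω → V}
    (hz : Cl2 (f J F) (vg a J F) B z)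
    (h : ∀ (V' : Type) (z' : F.Ω → V'), Cl2 (f J F) (vg a J F) B z' →
      ∀ ω ν, z ω = z ν → z' ω = z' ν) : Mx f (vg a) 0 F B z := by
  refine ⟨hz, fun V' z' hz' => ?_⟩
  rw [CH_eq_zero (cond_nonneg F.isLaw.nonneg B True) fun ω ν _ _ e => h V' z' hz' ω ν e, zero_mul]

end

end Pool.AVG57
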