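import Pool.Agent.H57.AVG.C1g

/-!
# The numbers of the class theorem
-/

set_option autoImplicit false

namespace Pool.AVG57

open Finset Real

/-- Large resolutions. -/
theorem big (a : ℝ) {b : ℝ} (hb : 0 < b) : ∃ J₀ : ℕ, ∀ J : ℕ, J₀ ≤ J → a ≤ b * J := by
  obtain ⟨n, hn⟩ := exists_nat_ge (a / b)
  refine ⟨n, fun J hJ => ?_⟩
  have h1 : (n : ℝ) ≤ J := by exact_mod_cast hJ
  rw [div_le_iff₀ hb] at hn
  nlinarith

theorem big_all (a : ℝ) {g : ℕ → ℝ} : ∀ v : ℕ, (∀ l ≤ v, 0 < g l) →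
    ∃ J₀ : ℕ, ∀ J : ℕ, J₀ ≤ J → ∀ l ≤ v, a ≤ g l * J
  | 0, h => by
    obtain ⟨J₀, h1⟩ := big a (h 0 le_rfl)
    exact ⟨J₀, fun J hJ l hl => by rw [Nat.le_zero.1 hl]; exact h1 J hJ⟩
  | v + 1, h => by
    obtain ⟨J₀, h1⟩ := big_all a v fun l hl => h l (by omega)
    obtain ⟨J₁, h2⟩ := big a (h (v + 1) le_rfl)
    refine ⟨max J₀ J₁, fun J hJ l hl => ?_⟩
    rcases Nat.lt_or_ge l (v + 1) with h3 | h3
    · exact h1 J ((le_max_left _ _).trans hJ) l (by omega)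
    · have : l = v + 1 := le_antisymm hl h3
      rw [this]
      exact h2 J ((le_max_right _ _).trans hJ)

/-- The constants of the total error. -/
noncomputable def cT (v K M : ℕ) : ℝ :=
  (v + 1) * (2 * cD K) + 4 * v * cS K + cL K + (v + 1) * (M + 1) * cM K M + 2 * (K + 1)

theorem cT_nonneg (v K M : ℕ) : 0 ≤ cT v K M := by
  have h1 := cD_nonneg K
  have h2 := cS_nonneg K
  have h3 := cL_nonneg K
  have h4 := cM_nonneg K M
  unfold cT
  positivity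

theorem log5 : Real.log 5 ≤ 2 := by
  have h1 : Real.log 5 ≤ Real.log (Real.exp 2) := by
    refine Real.log_le_log (by norm_num) ?_
    have h2 := Real.add_one_le_exp (1 : ℝ)
    have h3 : Real.exp 2 = Real.exp 1 * Real.exp 1 := by
      rw [← Real.exp_add]
      norm_num
    have h4 := Real.exp_one_gt_d9
    rw [h3]
    nlinarith
  rwa [Real.log_exp] at h1

theorem log2_le : Real.log 2 ≤ 1 := by
  have h := Real.log_two_lt_d9
  linarith

theorem log2_ge : 1 / 2 ≤ Real.log 2 := by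
  have h := Real.log_two_gt_d9
  linarith

/-- **The total error.** -/
theorem eT_le {v K M : ℕ} {t η' : ℝ} {J : ℝ} (ht : 0 ≤ t) (hJ : 0 ≤ J)
    (h2 : η' ≤ 2 * t * J) :
    eT v K M (2 ^ (t * J)) η' ≤ (2 + 4 * (v + 1) + (K + 1)) * (t * J) + cT v K M := by
  have htJ : 0 ≤ t * J := mul_nonneg ht hJ
  have h1 : (1 : ℝ) ≤ 2 ^ (t * J) := Real.one_le_rpow (by norm_num) htJ
  have h3 : Real.log (2 * ((2 : ℝ) ^ (t * J) + 1) + 1) ≤ 2 + t * J := by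
    have h4 : Real.log (2 * ((2 : ℝ) ^ (t * J) + 1) + 1) ≤ Real.log (5 * 2 ^ (t * J)) :=
      Real.log_le_log (by positivity) (by linarith)
    rw [Real.log_mul (by norm_num) (by positivity), Real.log_rpow two_pos] at h4
    have h5 := mul_le_mul_of_nonneg_left log2_le htJ
    linarith [log5]
  have hv : (0 : ℝ) ≤ v := Nat.cast_nonneg v
  have hK : (0 : ℝ) ≤ K := Nat.cast_nonneg K
  have e1 := mul_le_mul_of_nonneg_left h3 (show (0 : ℝ) ≤ (K : ℝ) + 1 by positivity)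
  have e2 := mul_le_mul_of_nonneg_left h2 (show (0 : ℝ) ≤ 2 * ((v : ℝ) + 1) + 1 by positivity)
  unfold eT cT
  nlinarith

/-- The constants of the gradient. -/
noncomputable def cG (v K : ℕ) : ℝ :=
  cA K + (2 * (1 : ℕ) + 3) * cJ' K + 2 * Real.log 5 +
    Real.log (2 * (4 * (1 : ℕ) + 2 * ((K + 1) * ((1 : ℕ) + 1)) + 1) + 3) +
    2 * Real.log (8 * v + 10) + cV K + 2 * Real.log (2 * (6 + 2 * ((K + 1) * ((1 : ℕ) + 1))) + 3)
where cJ' (K : ℕ) : ℝ := Pool.AVG5.cJ K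

theorem log_aff {U a : ℝ} (hU : 0 ≤ U) (ha : 0 ≤ a) :
    Real.log (2 * (U + a) + 1) ≤ Real.log (2 * a + 3) + Real.log (U + 1) := by
  rw [← Real.log_mul (by positivity) (by positivity)]
  refine Real.log_le_log (by positivity) ?_
  nlinarith

theorem log_U {v : ℕ} {U μ J : ℝ} (h0 : 0 ≤ U) (h : U ≤ 2 ^ (μ / 2 * J)) (hμ : 0 ≤ μ)
    (hJ : 0 ≤ J) : Real.log (U + 8 * (v + 1 : ℕ) * U + 1) ≤
      Real.log (8 * v + 10) + μ / 2 * J := by
  have h1 : (1 : ℝ) ≤ 2 ^ (μ / 2 * J) := Real.one_le_rpow (by norm_num) (by positivity)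
  have hv : (0 : ℝ) ≤ v := Nat.cast_nonneg v
  have h2 : U + 8 * (v + 1 : ℕ) * U + 1 ≤ (8 * v + 10) * 2 ^ (μ / 2 * J) := by
    push_cast
    nlinarith [mul_nonneg hv h0]
  have h3 := Real.log_le_log (by positivity) h2
  rw [Real.log_mul (by positivity) (by positivity), Real.log_rpow two_pos] at h3
  have h5 := mul_le_mul_of_nonneg_left log2_le (show 0 ≤ μ / 2 * J by positivity)
  linarith

/-- **The constants with the gradient.** -/
theorem cE0_le {v K : ℕ} {U μ J : ℝ} (h0 : 0 ≤ U) (h : U ≤ 2 ^ (μ / 2 * J)) (hμ : 0 ≤ μ)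
    (hJ : 0 ≤ J) : cE0 1 K (U + 8 * (v + 1 : ℕ) * U) + cV K ≤ μ * J + cG v K ∧
      cR 1 K (U + 8 * (v + 1 : ℕ) * U + 2) ≤ μ * J + cG v K + 2 * Real.log (8 * v + 10) := by
  have hU' : 0 ≤ U + 8 * (v + 1 : ℕ) * U := by positivity
  have hl := log_U (v := v) h0 h hμ hJ
  have a1 := log_aff hU' (a := 1) zero_le_one
  have a2 := log_aff hU' (a := 4 * (1 : ℕ) + 2 * ((K + 1) * ((1 : ℕ) + 1)) + 1) (by positivity)
  have a3 := log_aff hU' (a := 6 + 2 * ((K + 1) * ((1 : ℕ) + 1))) (by positivity)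
  have e1 : (2 : ℝ) * 1 + 3 = 5 := by norm_num
  rw [e1] at a1
  have p1 : 0 ≤ Real.log (5 : ℝ) := Real.log_nonneg (by norm_num)
  have hv : (0 : ℝ) ≤ v := Nat.cast_nonneg v
  have hK : (0 : ℝ) ≤ K := Nat.cast_nonneg K
  have p2 : 0 ≤ Real.log (2 * (6 + 2 * (((K : ℝ) + 1) * ((1 : ℕ) + 1))) + 3) :=
    Real.log_nonneg (by push_cast; nlinarith)
  have p3 : 0 ≤ Real.log (2 * (4 * (1 : ℕ) + 2 * (((K : ℝ) + 1) * ((1 : ℕ) + 1)) + 1) + 3) :=
    Real.log_nonneg (by push_cast; nlinarith)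
  have p4 : 0 ≤ Real.log (8 * (v : ℝ) + 10) := Real.log_nonneg (by linarith)
  have p5 := cA_nonneg K
  have p6 := Pool.AVG5.cJ_nonneg K
  have p7 := cV_nonneg K
  constructor
  · unfold cE0 cG cG.cJ'
    have e2 : U + 8 * (v + 1 : ℕ) * U + 4 * (1 : ℕ) + 2 * ((K + 1) * ((1 : ℕ) + 1)) + 1 =
      U + 8 * (v + 1 : ℕ) * U + (4 * (1 : ℕ) + 2 * ((K + 1) * ((1 : ℕ) + 1)) + 1) := by ring
    rw [e2]
    push_cast at *
    linarith
  · unfold cR cG cG.cJ'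
    have e2 : U + 8 * (v + 1 : ℕ) * U + 2 + 2 * ((K + 1) * ((1 : ℕ) + 1)) + 4 =
      U + 8 * (v + 1 : ℕ) * U + (6 + 2 * ((K + 1) * ((1 : ℕ) + 1))) := by ring
    rw [e2]
    push_cast at *
    linarith

/-- **The last numbers.** `A`: the factor of `t J` in the total error, `C₅` its constant. -/
theorem c1_fin {ι κ π₀ h θ ξ t A C₅ C₇ C₉ J X mm fX T R₀ cRv : ℝ} (hι : 0 < ι)
    (hκ : 0 < κ) (hπ : 0 < π₀) (hh : 0 < h) (hξ : 0 < ξ) (hθ : 0 < θ) (ht : t = θ * ξ)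
    (hA : 0 ≤ A) (hJ : 0 ≤ J) (hX1 : ξ * J / 2 ≤ X) (hmm : mm ≤ t * J)
    (hfX : κ * ξ * J / 4 ≤ fX) (hT : T ≤ A * (t * J) + C₅)
    (hcR : cRv ≤ t * J + C₇) (hR : R₀ ≤ (1 - h) * fX * Real.log 2 + 2 * (t * J) +
      (2 * (t * J)) / π₀ + C₉)
    (θ1 : θ ≤ ι / (24 * (A + 2))) (θ2 : θ ≤ ι / 4)
    (θ3 : θ ≤ h * κ / (32 * (3 + (3 + 4 * A) / π₀)))
    (j1 : 24 * C₅ ≤ ι * ξ * J) (j2 : C₉ + C₇ + (4 * C₅ + 1) / π₀ ≤ h * κ * ξ / 32 * J)
    (hC₅ : 0 ≤ C₅) :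
    6 * T ≤ ι * X ∧ 3 * T + mm * Real.log 2 ≤ ι * X * Real.log 2 ∧ mm ≤ ι * X ∧
    t * J ≤ ι * X * Real.log 2 ∧
    R₀ + cRv + (4 * T + mm * Real.log 2 + Real.log 2) / π₀ ≤ (1 - h / 2) * fX * Real.log 2 := by
  have l1 := log2_le
  have l2 := log2_ge
  have hξJ : 0 ≤ ξ * J := by positivity
  have htJ : t * J = θ * (ξ * J) := by rw [ht]; ring
  have htJ0 : 0 ≤ t * J := by rw [htJ]; positivity
  rw [le_div_iff₀ (by positivity)] at θ1
  have k1 : 24 * (A + 2) * (t * J) ≤ ι * (ξ * J) := by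
    rw [htJ]
    have := mul_le_mul_of_nonneg_right θ1 hξJ
    linarith
  have k2 : 4 * (t * J) ≤ ι * (ξ * J) := by
    rw [htJ]
    have := mul_le_mul_of_nonneg_right θ2 hξJ
    linarith
  have hιX : ι * (ξ * J) / 2 ≤ ι * X := by
    have := mul_le_mul_of_nonneg_left hX1 hι.le
    linarith
  have hιX0 : 0 ≤ ι * X := le_trans (by positivity) hιX
  have hιXl : ι * (ξ * J) / 4 ≤ ι * X * Real.log 2 := by nlinarith
  have hmml : mm * Real.log 2 ≤ t * J := by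
    rcases le_or_gt 0 mm with h1 | h1
    · nlinarith
    · nlinarith
  have j1' : 24 * C₅ ≤ ι * (ξ * J) := by linarith
  have k3 : 24 * (A * (t * J)) + 48 * (t * J) ≤ ι * (ξ * J) := by linarith
  refine ⟨by linarith, by linarith, by linarith, by linarith, ?_⟩
  have hfX0 : 0 ≤ fX := le_trans (by positivity) hfX
  have g1 : h * κ * (ξ * J) / 16 ≤ h / 2 * fX * Real.log 2 := by
    have a1 : h / 2 * (κ * ξ * J / 4) ≤ h / 2 * fX := mul_le_mul_of_nonneg_left hfX (by positivity)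
    have a2 : h / 2 * fX * (1 / 2) ≤ h / 2 * fX * Real.log 2 :=
      mul_le_mul_of_nonneg_left l2 (by positivity)
    have a3 : h / 2 * (κ * ξ * J / 4) * (1 / 2) = h * κ * (ξ * J) / 16 := by ring
    nlinarith
  have q1 : (0 : ℝ) < 3 + (3 + 4 * A) / π₀ := by positivity
  rw [le_div_iff₀ (by positivity)] at θ3
  have g2 : (3 + (3 + 4 * A) / π₀) * (t * J) ≤ h * κ * (ξ * J) / 32 := by
    rw [htJ]
    have := mul_le_mul_of_nonneg_right θ3 hξJ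
    linarith
  have g3 : (4 * T + mm * Real.log 2 + Real.log 2) / π₀ ≤
      (4 * (A * (t * J) + C₅) + t * J + 1) / π₀ := div_le_div_of_nonneg_right (by linarith) hπ.le
  have e1 : (4 * (A * (t * J) + C₅) + t * J + 1) / π₀ + (2 * (t * J)) / π₀ =
      (3 + 4 * A) / π₀ * (t * J) + (4 * C₅ + 1) / π₀ := by
    field_simp
    ring
  have j2' : C₉ + C₇ + (4 * C₅ + 1) / π₀ ≤ h * κ * (ξ * J) / 32 := by linarith
  have e2 : (3 + (3 + 4 * A) / π₀) * (t * J) = 3 * (t * J) + (3 + 4 * A) / π₀ * (t * J) := by ring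
  have e3 : (1 - h / 2) * fX * Real.log 2 = (1 - h) * fX * Real.log 2 +
    h / 2 * fX * Real.log 2 := by ring
  rw [e3]
  linarith

end Pool.AVG57
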