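import Pool.Agent.H3.D2G.RecN
import Pool.Agent.H50.AVG.Asc
import Pool.Agent.H71.CDX.Cdo

/-!
# The closed gradient as a property of the windows

`CgQ`: at the window `g`, in all small boxes, the gradient in the direction of the place `v` is
closed, if at the scale `R` of the box the rate is less than `1 - h` and there are labels. `her_cg`;
`cg_use`: the closed gradient at the windows of a record.
-/

set_option autoImplicit false

namespace Pool.AVG57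

open Finset Real MvPolynomial MeasureTheory Filter Topology
open Pool.Agent.H49.Ent Pool.Agent.H32.Dense Pool.STK Pool.KA Pool.KSAT Pool.K2S Pool.PB Pool.S6C
open Pool.GEN Pool.CHT Pool.CHX Pool.ISO Pool.RCD Pool.LA91 Pool.AVG96 Pool.AVG50 Pool.CDX
open Pool.PKG

/-- **The constants of the closed gradient.** -/
structure Cst where
  κ : ℝ
  ι : ℝ
  θ : ℝ
  k : ℕ

/-- The bounds of the constants. -/
structure Cst.Ok (a : Cst) : Prop where
  κ0 : 0 < a.κ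
  κ1 : a.κ ≤ 1
  ι0 : 0 < a.ι
  θ0 : 0 < a.θ
  θ1 : a.θ ≤ 1

/-- **The rate is less than `1 - h`** near `x₀`, at the scale `R`, up to `e`. -/
def RowR (r : ℝ → ℝ) (x₀ h R e : ℝ) : Prop :=
  ∀ x y : ℝ, |x - x₀| ≤ R → |y - x₀| ≤ R → x ≤ y → r y - r x ≤ (1 - h) * (y - x) + e

/-- **The closed gradient in all small boxes near the window** `g`. `p.1`: the degree of the labels;
`p.2`: the bound of the numbers. -/
def CgQ (v : ℕ) (Φ : (ℕ → ℝ) → Prop) (h : ℝ) (cs : ℕ → Cst) {n : ℕ} (p : ℕ × ℕ) (k₀ : ℕ)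
    (S : PCl n) (_ : List (Fin n) × Fin n → ℝ → ℝ → ℝ) (_ : ℝ) (c : ℕ → Fin n)
    (_ : ℝ → ℝ → ℝ) (r : ℝ → ℝ) (L _ : ℕ → ℝ → ℝ → ℝ) (_ : ℕ → Kg) (G : Set ℝ) (g : ℝ) : Prop :=
  ∀ Sl : ℕ → ℝ, (∀ l, 1 ≤ l → l ≤ v + 1 → HasDerivAt (fun w => L l w w) (Sl l) g) → Φ Sl →
    (∀ l, 1 ≤ l → l ≤ v + 1 → 1 < Sl l) → ∀ R : ℝ, 0 < R → R < (1 / 2) ^ k₀ →
    RowR r (L (v + 1) g g) h R ((1 / 2) ^ k₀ * R) →
    LbR S c 1 p.1 (fun w l => L l w w) G g (2 ^ k₀ * R) (2 ^ k₀ * R) ((1 / 2) ^ k₀ * R)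
      (v + 1) →
    ∀ w ∈ G, ∀ j x : ℝ, |w - g| ≤ R → |j - g| ≤ R → |x - g| ≤ R →
      ∀ (δW q ξ μ ν φ : ℝ) (pl sl : ℕ → ℝ),
      Bx2 (fun w l => L l w w) 1 v Sl w j x δW q ξ μ ν φ ((p.2 + 1) * R) pl sl →
      φ ≤ (1 / 2) ^ k₀ * R → R / (p.2 + 1) ≤ ξ → R / (p.2 + 1) ≤ ν → μ ≤ (cs p.1).θ * ξ →
      ν ≤ (cs p.1).θ * ξ → (cs p.1).θ * ξ + ν ≤ q →
      CGr S c v p.1 w δW j x pl sl q ξ μ (cs p.1).κ (cs p.1).ι (cs p.1).k (1 / 2)

/-- **The numbers of a box in the units of the record**: radius `M`, bound `C`, `th = θ`. -/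
structure MuC (v : ℕ) (Sl : ℕ → ℝ) (X vj qr ξ μ ν dW yp th K₀ M C e : ℝ) : Prop where
  q0 : 0 < qr
  ξ0 : 0 < ξ
  μ0 : 0 < μ
  ν0 : 0 < ν
  δ0 : 0 < dW
  δν : dW ≤ ν / 8
  δξ : dW ≤ ξ
  y0 : 0 ≤ yp
  yν : yp ≤ ν / 8
  yμ : yp < μ
  j0 : -1 ≤ vj
  X0 : -1 ≤ X
  jn : ∀ l, 1 ≤ l → l ≤ v + 1 → Sl l * (vj + 1) + ν ≤ qr
  xn : ∀ l, 1 ≤ l → l ≤ v → Sl l * (X + 1) + ν ≤ qr
  xq : qr ≤ Sl (v + 1) * (X + 1)
  qC : qr + ξ + μ ≤ C * M
  M1 : K₀ + 1 ≤ M
  Mj : K₀ + |vj| ≤ M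
  MX : K₀ + |X| ≤ M
  ye : yp ≤ e * M
  Cξ : M / C ≤ ξ
  Cν : M / C ≤ ν
  μθ : μ ≤ th * ξ
  νθ : ν ≤ th * ξ
  θq : th * ξ + ν ≤ qr

/-- **The closed gradient at the window `t - q` of a record.** -/
theorem cg_use {v : ℕ} {Φ : (ℕ → ℝ) → Prop} {h : ℝ} {cs : ℕ → Cst} {n K N k₀ : ℕ} {S : PCl n}
    {P : List (Fin n) × Fin n → ℝ → ℝ → ℝ} {θ : ℝ} {c : ℕ → Fin n} {Pt : ℝ → ℝ → ℝ} {r : ℝ → ℝ}
    {L T : ℕ → ℝ → ℝ → ℝ} {κ : ℕ → Kg} {G : Set ℝ} {g : ℝ} (hv : v + 2 = n)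
    (hQ : CgQ v Φ h cs (K, N) k₀ S P θ c Pt r L T κ G g) {Sl : ℕ → ℝ}
    (hd : ∀ l < n, HasDerivAt (fun x => L l x x) (Sl l) g) (hΦ : Φ Sl)
    (hS1 : ∀ l, 1 ≤ l → l ≤ v + 1 → 1 < Sl l) {X vj qr ξ μ ν dW yp K₀ M : ℝ}
    (Nm : MuC v Sl X vj qr ξ μ ν dW yp (cs K).θ K₀ M (N + 1) ((1 / 2) ^ k₀)) (hK₀ : 0 ≤ K₀)
    {al : ℝ} {g₀ : ℝ → ℝ} {P₂ : ℕ → List (Fin n) × Fin n → ℝ → ℝ → ℝ} {θ₂ Eb e₂ : ℕ → ℝ}
    {S₀ N₀ : ℕ} {A V : ℕ → ℝ} {S₂ N' : ℕ} {V' : ℕ → ℝ} {K' ε q t : ℝ}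
    (R : RecG S al g₀ P θ P₂ θ₂ Eb e₂ c Pt r h K₀ g L T Sl κ G S₀ N₀ A V S₂ N' V' K' ε q t)
    (hε : ε ≤ (1 / 2) ^ k₀ * M) (hε1 : ε ≤ 1) (hK' : (K₀ + 1) * (Sl (v + 1) + 1) + M ≤ K')
    (hyK : yp + 4 ≤ K') (hq : M * q < (1 / 2) ^ k₀) (hG : t - q ∈ G)
    (hLb : LbR S c 1 K (fun w l => L l w w) G g (2 ^ k₀ * (M * q)) (2 ^ k₀ * (M * q))
      ((1 / 2) ^ k₀ * (M * q)) (v + 1)) :
    CGr S c v K (t - q) (dW * q) (t + vj * q) (t + X * q)
      (fun l => L l (t - q) (t - q) - yp * q) (fun l => L l (t - q) (t - q)) (qr * q) (ξ * q)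
      (μ * q) (cs K).κ (cs K).ι (cs K).k (1 / 2) := by
  have hq0 := R.q0
  have hM1 := Nm.M1
  have hM0 : 0 < M := by linarith
  have hMq : 0 < M * q := mul_pos hM0 hq0
  have hng := R.near
  have hs1 := hS1 (v + 1) (by omega) le_rfl
  have hK0' : K₀ ≤ K' := by nlinarith
  have hK1' : 1 ≤ K' := by nlinarith
  have nr : ∀ a : ℝ, K₀ + |a| ≤ M → |t + a * q - g| ≤ M * q := by
    intro a ha
    have e1 : t + a * q - g = (t - g) + a * q := by ring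
    rw [e1]
    refine (abs_add_le _ _).trans ?_
    rw [abs_mul, abs_of_pos hq0]
    nlinarith
  have nw : |t - q - g| ≤ M * q := by
    have h1 := nr (-1) (by rw [abs_neg, abs_one]; exact hM1)
    have e1 : t + (-1) * q - g = t - q - g := by ring
    rwa [e1] at h1
  have xK : |t - q - t| ≤ K' * q := by
    have e1 : t - q - t = -q := by ring
    rw [e1, abs_neg, abs_of_pos hq0]
    nlinarith
  have ht0 := R.t0
  have ht1 := R.t1
  have hlow : ∀ l, l < n → t - q ≤ L l (t - q) (t - q) := fun l hl =>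
    R.low_at hl (by nlinarith) le_rfl (by nlinarith)
  have hyp : yp * q ≤ t - q := by nlinarith
  have hC1 : (0 : ℝ) < N + 1 := by positivity
  have hgt : |L (v + 1) g g - L (v + 1) t t| ≤ (Sl (v + 1) * K₀ + 1) * q := by
    have h1 : |g - t| ≤ K₀ * q := by rw [abs_sub_comm]; exact hng
    have h2 := R.dL (v + 1) (by omega) g (h1.trans (mul_le_mul_of_nonneg_right hK0' hq0.le))
    have h3 : |Sl (v + 1) * (g - t)| ≤ Sl (v + 1) * K₀ * q := by
      rw [abs_mul, abs_of_pos (by linarith : (0 : ℝ) < Sl (v + 1)), mul_assoc]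
      exact mul_le_mul_of_nonneg_left h1 (by linarith)
    have h4 := abs_le.1 h2
    have h5 := abs_le.1 h3
    have h6 : ε * q ≤ 1 * q := mul_le_mul_of_nonneg_right hε1 hq0.le
    rw [abs_le]
    constructor <;> nlinarith [h4.1, h4.2, h5.1, h5.2]
  refine hQ Sl (fun l _ hl => hd l (by omega)) hΦ hS1 (M * q) hMq hq ?_ hLb (t - q) hG
    (t + vj * q) (t + X * q) nw (nr vj Nm.Mj) (nr X Nm.MX) (dW * q) (qr * q) (ξ * q) (μ * q)
    (ν * q) (yp * q) _ _ ?_ ?_ ?_ ?_ ?_ ?_ ?_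
  · -- the rate
    intro x y hx hy hxy
    have e1 : n - 1 = v + 1 := by omega
    have key : ∀ z : ℝ, |z - L (v + 1) g g| ≤ M * q → |z - L (n - 1) t t| ≤ K' * q := by
      intro z hz
      rw [e1]
      have e2 : z - L (v + 1) t t = (z - L (v + 1) g g) + (L (v + 1) g g - L (v + 1) t t) := by
        ring
      rw [e2]
      refine (abs_add_le _ _).trans ((add_le_add hz hgt).trans ?_)
      nlinarith
    refine (R.row x y (key x hx) (key y hy) hxy).trans ?_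
    have h1 : ε * q ≤ (1 / 2) ^ k₀ * M * q := mul_le_mul_of_nonneg_right hε hq0.le
    linarith [mul_assoc ((1 / 2 : ℝ) ^ k₀) M q]
  · exact {
      q0 := mul_pos Nm.q0 hq0
      ξ0 := mul_pos Nm.ξ0 hq0
      μ0 := mul_pos Nm.μ0 hq0
      ν0 := mul_pos Nm.ν0 hq0
      δ0 := mul_pos Nm.δ0 hq0
      δν := by have := mul_le_mul_of_nonneg_right Nm.δν hq0.le; linarith
      δξ := mul_le_mul_of_nonneg_right Nm.δξ hq0.le
      φν := by have := mul_le_mul_of_nonneg_right Nm.yν hq0.le; linarith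
      φμ := mul_lt_mul_of_pos_right Nm.yμ hq0
      wj := by have := mul_le_mul_of_nonneg_right Nm.j0 hq0.le; linarith
      wx := by have := mul_le_mul_of_nonneg_right Nm.X0 hq0.le; linarith
      jn := fun l l0 l1 => by
        have := mul_le_mul_of_nonneg_right (Nm.jn l l0 l1) hq0.le
        nlinarith
      xn := fun l l0 l1 => by
        have := mul_le_mul_of_nonneg_right (Nm.xn l l0 l1) hq0.le
        nlinarith
      xq := by
        have := mul_le_mul_of_nonneg_right Nm.xq hq0.le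
        nlinarith
      qC := by
        have := mul_le_mul_of_nonneg_right Nm.qC hq0.le
        push_cast
        nlinarith
      base := fun l hl => by
        obtain rfl : l = 0 := by omega
        have h1 := hlow 0 (by omega)
        have h2 := (abs_le.1 (R.l0 (t - q) xK)).2
        have h3 : ε * q ≤ 1 * q := mul_le_mul_of_nonneg_right hε1 hq0.le
        have h4 : 0 ≤ yp * q := mul_nonneg Nm.y0 hq0.le
        have h5 : 1 * q ≤ (N + 1) * (M * q) := by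
          have h6 : 1 * (1 * q) ≤ (N + 1) * (M * q) := by
            have h7 : (1 : ℝ) ≤ N + 1 := by linarith [Nat.cast_nonneg (α := ℝ) N]
            exact mul_le_mul h7 (mul_le_mul_of_nonneg_right (by linarith) hq0.le) (by linarith)
              (by linarith)
          linarith
        refine ⟨by linarith, by linarith, ?_⟩
        show L 0 (t - q) (t - q) ≤ t - q + (N + 1) * (M * q)
        linarith
      sc := fun _ _ _ => rfl
      p0 := fun l l0 l1 => by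
        have h1 := hlow l (by omega)
        linarith
      pc := fun l l0 l1 => ⟨le_rfl, by
        have h4 : 0 ≤ yp * q := mul_nonneg Nm.y0 hq0.le
        linarith⟩ }
  · have := mul_le_mul_of_nonneg_right Nm.ye hq0.le
    linarith [mul_assoc ((1 / 2 : ℝ) ^ k₀) M q]
  · have := mul_le_mul_of_nonneg_right Nm.Cξ hq0.le
    rw [mul_div_right_comm]
    exact this
  · have := mul_le_mul_of_nonneg_right Nm.Cν hq0.le
    rw [mul_div_right_comm]
    exact this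
  · have := mul_le_mul_of_nonneg_right Nm.μθ hq0.le
    linarith [mul_assoc (cs K).θ ξ q]
  · have := mul_le_mul_of_nonneg_right Nm.νθ hq0.le
    linarith [mul_assoc (cs K).θ ξ q]
  · have := mul_le_mul_of_nonneg_right Nm.θq hq0.le
    linarith [mul_assoc (cs K).θ ξ q]

end Pool.AVG57
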