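import Pool.Agent.H57.AVG.Tim
import Pool.Agent.H42.D2.Hz

/-!
# The data of Lemma L1 from a code of the line by integers

`nn`: rounded coefficients of the own path of the target (units `2 ^ -X`), `aa`: rounded positions
of the base coordinates (units `2 ^ -(X + m)`), `base`: the window and the exact own data. `Cd.hd`:
the data of `HD`; the context is `gx` (any function of the code), the cells of the coefficients, the
cells of the positions and the digits of the positions behind the near digits. `Cd.ok`: the fields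
`HD.Ok`; `Cd.y_eq`, `Cd.c_eq`, `Cd.N_eq`: the numbers; `Cd.clo`: closed gradients for a law of a
family behind a window with a living time.
-/

set_option autoImplicit false

namespace Pool.AVG57

open Finset Real
open Pool.Agent.H49.Ent Pool.Agent.H32.Dense Pool.STK Pool.KA Pool.K2S Pool.KAF Pool.M5
open Pool.D2Hz Pool.GEN Pool.GRW Pool.S6C Pool.KSAT Pool.PB Pool.SLO Pool.BFL Pool.MIC Pool.TIE

/-- A code by integers, with the samples. -/
structure Cd (Ω B : Type) (k K : ℕ) where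
  base : Ω → B
  nn : Ω → Fin (K + 1) → ℤ
  aa : Ω → Fin k → ℤ
  th : Ω → ℝ
  bb : Ω → Fin k → ℝ
  X : ℕ
  m : ℕ

/-- The codes. -/
abbrev Lm (B : Type) (k K : ℕ) : Type := B × ((Fin (K + 1) → ℤ) × (Fin k → ℤ))

/-- The contexts. -/
abbrev Gm (β₀ : Type) (k K : ℕ) : Type := β₀ × ((Fin K → ℤ) × ((Fin k → ℤ) × (Fin k → ℤ)))

/-- The path of a code. -/
noncomputable def pol {B : Type} {k K : ℕ} (X : ℕ) (l : Lm B k K) : Polynomial ℝ :=
  ∑ a : Fin (K + 1), Polynomial.C ((l.2.1 a : ℝ) / 2 ^ X) * Polynomial.X ^ (a : ℕ)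

/-- The positions of a code. -/
noncomputable def pos {B : Type} {k K : ℕ} (X m : ℕ) (l : Lm B k K) (j : Fin k) : ℝ :=
  (l.2.2 j : ℝ) / 2 ^ (X + m)

/-- The context of a code. -/
def gam {B β₀ : Type} {k K : ℕ} (gx : Lm B k K → β₀) (X m : ℕ) (l : Lm B k K) : Gm β₀ k K :=
  (gx l, (fun a => l.2.1 a.succ / 2 ^ X, (fun j => l.2.2 j / 2 ^ (X + m),
    fun j => l.2.2 j % 2 ^ m)))

theorem pol_deg {B : Type} {k K : ℕ} (X : ℕ) (l : Lm B k K) : (pol X l).natDegree ≤ K := by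
  unfold pol
  refine Polynomial.natDegree_sum_le_of_forall_le _ _ fun a _ => ?_
  refine (Polynomial.natDegree_C_mul_X_pow_le _ _).trans ?_
  have := a.isLt
  omega

theorem pol_coeff {B : Type} {k K : ℕ} (X : ℕ) (l : Lm B k K) (a : Fin (K + 1)) :
    (pol X l).coeff (a : ℕ) = (l.2.1 a : ℝ) / 2 ^ X := by
  unfold pol
  rw [Polynomial.finsetSum_coeff, Finset.sum_eq_single a]
  · rw [Polynomial.coeff_C_mul_X_pow, if_pos rfl]
  · intro b _ hb
    rw [Polynomial.coeff_C_mul_X_pow, if_neg]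
    intro h
    exact hb (Fin.ext h.symm)
  · intro h
    exact absurd (mem_univ _) h

theorem pol_eval {B : Type} {k K : ℕ} (X : ℕ) (l : Lm B k K) (t : ℝ) :
    (pol X l).eval t = ∑ a : Fin (K + 1), (l.2.1 a : ℝ) / 2 ^ X * t ^ (a : ℕ) := by
  unfold pol
  rw [Polynomial.eval_finsetSum]
  refine Finset.sum_congr rfl fun a _ => ?_
  rw [Polynomial.eval_mul, Polynomial.eval_C, Polynomial.eval_pow, Polynomial.eval_X]

/-- The cell of a fraction. -/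
theorem floor_div_pow (a : ℤ) (n : ℕ) : ⌊(a : ℝ) / 2 ^ n⌋ = a / 2 ^ n := by
  have h0 : (0 : ℝ) < 2 ^ n := by positivity
  have hi : (0 : ℤ) < 2 ^ n := by positivity
  have h1 := Int.emod_add_mul_ediv a (2 ^ n)
  have h3 := Int.emod_nonneg a hi.ne'
  have h4 := Int.emod_lt_of_pos a hi
  have h2 : (a : ℝ) = ((a % 2 ^ n : ℤ) : ℝ) + 2 ^ n * ((a / 2 ^ n : ℤ) : ℝ) := by
    exact_mod_cast h1.symm
  have h3' : (0 : ℝ) ≤ ((a % 2 ^ n : ℤ) : ℝ) := by exact_mod_cast h3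
  have h4' : ((a % 2 ^ n : ℤ) : ℝ) < 2 ^ n := by exact_mod_cast h4
  rw [Int.floor_eq_iff, le_div_iff₀ h0, div_lt_iff₀ h0]
  constructor <;> nlinarith

/-- The digits of a fraction. -/
theorem fract_div_pow (a : ℤ) (n : ℕ) :
    Int.fract ((a : ℝ) / 2 ^ n) = ((a % 2 ^ n : ℤ) : ℝ) / 2 ^ n := by
  have h0 : (0 : ℝ) < 2 ^ n := by positivity
  have h1 := Int.emod_add_mul_ediv a (2 ^ n)
  have h2 : (a : ℝ) = ((a % 2 ^ n : ℤ) : ℝ) + 2 ^ n * ((a / 2 ^ n : ℤ) : ℝ) := by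
    exact_mod_cast h1.symm
  rw [Int.fract, floor_div_pow, sub_eq_iff_eq_add, eq_comm, div_add' _ _ _ h0.ne']
  rw [div_eq_div_iff h0.ne' h0.ne', h2]
  ring

variable {Ω B β₀ : Type} {k K : ℕ}

namespace Cd

variable (D : Cd Ω B k K) (gx : Lm B k K → β₀)

/-- The code. -/
def L (ω : Ω) : Lm B k K := (D.base ω, (D.nn ω, D.aa ω))

/-- The context. -/
def g (ω : Ω) : Gm β₀ k K := gam gx D.X D.m (D.L ω)

/-- The reference code of a context. -/
noncomputable def rf [Nonempty (Lm B k K)] (c : Gm β₀ k K) : Lm B k K :=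
  Function.invFun (gam gx D.X D.m) c

/-- The data of Lemma L1. -/
noncomputable def hd [Nonempty (Lm B k K)] : HD Ω (Lm B k K) (Gm β₀ k K) k where
  L := D.L
  g := D.g gx
  rf := D.rf gx
  nL := pol D.X
  aL := pos D.X D.m
  th := D.th
  bb := D.bb
  SN := 1
  SV := fun _ => 1
  X := D.X
  m := D.m

variable [Nonempty (Lm B k K)]

/-- The reference code has the same context. -/
theorem gam_R (ω : Ω) : gam gx D.X D.m ((D.hd gx).R ω) = gam gx D.X D.m (D.L ω) :=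
  Function.invFun_eq ⟨D.L ω, rfl⟩

theorem nn_R (ω : Ω) (a : Fin K) :
    ((D.hd gx).R ω).2.1 a.succ / 2 ^ D.X = D.nn ω a.succ / 2 ^ D.X :=
  congrFun (Prod.ext_iff.mp (Prod.ext_iff.mp (D.gam_R gx ω)).2).1 a

theorem aa_R (ω : Ω) (j : Fin k) :
    ((D.hd gx).R ω).2.2 j / 2 ^ (D.X + D.m) = D.aa ω j / 2 ^ (D.X + D.m) :=
  congrFun (Prod.ext_iff.mp (Prod.ext_iff.mp (Prod.ext_iff.mp (D.gam_R gx ω)).2).2).1 j

theorem am_R (ω : Ω) (j : Fin k) : ((D.hd gx).R ω).2.2 j % 2 ^ D.m = D.aa ω j % 2 ^ D.m :=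
  congrFun (Prod.ext_iff.mp (Prod.ext_iff.mp (Prod.ext_iff.mp (D.gam_R gx ω)).2).2).2 j

/-- The digits behind the near digits. -/
theorem fl_eq (l : Lm B k K) (j : Fin k) : (D.hd gx).fl l j = l.2.2 j % 2 ^ D.m := by
  have h1 : (2 : ℝ) ^ D.X * (1 * ((l.2.2 j : ℝ) / 2 ^ (D.X + D.m))) = (l.2.2 j : ℝ) / 2 ^ D.m := by
    rw [pow_add]
    field_simp
  have h2 : (D.hd gx).fl l j = ⌊(2 : ℝ) ^ D.m * Int.fract ((l.2.2 j : ℝ) / 2 ^ D.m)⌋ := by
    rw [← h1]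
    rfl
  rw [h2, fract_div_pow]
  have h3 : (2 : ℝ) ^ D.m * (((l.2.2 j % 2 ^ D.m : ℤ) : ℝ) / 2 ^ D.m) =
      ((l.2.2 j % 2 ^ D.m : ℤ) : ℝ) := by
    field_simp
  rw [h3, Int.floor_intCast]

/-- The near digits of the positions. -/
theorem yl_eq (l : Lm B k K) (j : Fin k) :
    (D.hd gx).yl l j = (l.2.2 j % 2 ^ (D.X + D.m)) / 2 ^ D.m := by
  have h2 : (D.hd gx).yl l j =
      ⌊(2 : ℝ) ^ D.X * Int.fract ((l.2.2 j : ℝ) / 2 ^ (D.X + D.m))⌋ := by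
    have : (l.2.2 j : ℝ) / 2 ^ (D.X + D.m) = 1 * ((l.2.2 j : ℝ) / 2 ^ (D.X + D.m)) :=
      (one_mul _).symm
    rw [this]
    rfl
  rw [h2, fract_div_pow, ← floor_div_pow]
  congr 1
  have e0 : (2 : ℝ) ^ (D.X + D.m) = 2 ^ D.X * 2 ^ D.m := pow_add _ _ _
  rw [e0]
  field_simp

/-- The near digits of the coefficients. -/
theorem c_eq (ω : Ω) (a : Fin K) :
    (D.hd gx).c K ω a = D.nn ω a.succ - ((D.hd gx).R ω).2.1 a.succ := by
  have h1 : ((D.hd gx).dn ω).coeff ((a : ℕ) + 1) =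
      ((D.nn ω a.succ : ℝ) - ((D.hd gx).R ω).2.1 a.succ) / 2 ^ D.X := by
    have e1 := pol_coeff D.X (D.L ω) a.succ
    have e2 := pol_coeff D.X ((D.hd gx).R ω) a.succ
    rw [Fin.val_succ] at e1 e2
    have e3 : ((D.hd gx).dn ω).coeff ((a : ℕ) + 1) =
        (pol D.X (D.L ω)).coeff ((a : ℕ) + 1) -
          (pol D.X ((D.hd gx).R ω)).coeff ((a : ℕ) + 1) := by
      rw [← Polynomial.coeff_sub]
      rfl
    rw [e3, e1, e2, sub_div]
    rfl
  have h2 : (D.hd gx).c K ω a =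
      ⌊(2 : ℝ) ^ D.X * (1 * ((D.hd gx).dn ω).coeff ((a : ℕ) + 1))⌋ := rfl
  rw [h2, h1]
  have h3 : (2 : ℝ) ^ D.X * (1 * (((D.nn ω a.succ : ℝ) - ((D.hd gx).R ω).2.1 a.succ) / 2 ^ D.X)) =
      ((D.nn ω a.succ - ((D.hd gx).R ω).2.1 a.succ : ℤ) : ℝ) := by
    push_cast
    field_simp
  rw [h3, Int.floor_intCast]

/-- The number. -/
theorem val_eq (ω : Ω) : (2 : ℝ) ^ D.X * (D.hd gx).val ω =
    ∑ a : Fin (K + 1), ((D.nn ω a : ℝ) - ((D.hd gx).R ω).2.1 a) * D.th ω ^ (a : ℕ) -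
      (∑ j, D.bb ω j * ((D.aa ω j : ℝ) - ((D.hd gx).R ω).2.2 j)) / 2 ^ D.m := by
  have e0 : (2 : ℝ) ^ D.X ≠ 0 := by positivity
  have e00 : (2 : ℝ) ^ D.m ≠ 0 := by positivity
  have h1 : (D.hd gx).val ω = 1 * ((D.hd gx).dn ω).eval (D.th ω) -
      ∑ j, D.bb ω j * (1 * (pos D.X D.m (D.L ω) j - pos D.X D.m ((D.hd gx).R ω) j)) := rfl
  have h2 : ((D.hd gx).dn ω).eval (D.th ω) =
      (pol D.X (D.L ω)).eval (D.th ω) - (pol D.X ((D.hd gx).R ω)).eval (D.th ω) := by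
    rw [← Polynomial.eval_sub]
    rfl
  rw [h1, h2, pol_eval, pol_eval, mul_sub, ← Finset.sum_sub_distrib, one_mul, Finset.mul_sum,
    Finset.mul_sum, Finset.sum_div]
  congr 1
  · refine Finset.sum_congr rfl fun a _ => ?_
    have e1 : (D.L ω).2.1 a = D.nn ω a := rfl
    rw [e1]
    field_simp
  · refine Finset.sum_congr rfl fun j _ => ?_
    have e1 : (D.L ω).2.2 j = D.aa ω j := rfl
    unfold pos
    rw [e1, pow_add]
    field_simp

/-- The cells. -/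
theorem N_eq (ω : Ω) : (D.hd gx).N ω =
    ⌊∑ a : Fin (K + 1), ((D.nn ω a : ℝ) - ((D.hd gx).R ω).2.1 a) * D.th ω ^ (a : ℕ) -
      (∑ j, D.bb ω j * ((D.aa ω j : ℝ) - ((D.hd gx).R ω).2.2 j)) / 2 ^ D.m⌋ := by
  rw [← D.val_eq gx ω]
  rfl

/-- Two integers in one cell. -/
theorem abs_sub_of_div {a b : ℤ} {n : ℕ} (h : a / 2 ^ n = b / 2 ^ n) :
    |(a : ℝ) - b| ≤ 2 ^ n := by
  have h0 : (0 : ℤ) < 2 ^ n := by positivity
  have h1 := Int.emod_add_mul_ediv a (2 ^ n)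
  have h2 := Int.emod_add_mul_ediv b (2 ^ n)
  have h3 := Int.emod_nonneg a h0.ne'
  have h4 := Int.emod_lt_of_pos a h0
  have h5 := Int.emod_nonneg b h0.ne'
  have h6 := Int.emod_lt_of_pos b h0
  have h7 : |a - b| ≤ 2 ^ n := by
    rw [abs_le]
    rw [h] at h1
    constructor <;> linarith
  exact_mod_cast h7

/-- **The fields `HD.Ok`.** -/
theorem ok {p : Ω → ℝ} (hth : ∀ ω, 0 < p ω → 0 ≤ D.th ω ∧ D.th ω < 1)
    (hbb : ∀ ω, 0 < p ω → ∀ j, |D.bb ω j| ≤ 2 ^ D.m) : (D.hd gx).Ok K p where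
  g_L := by
    intro ω ω' _ _ h
    have h1 : D.L ω = D.L ω' := h
    change gam gx D.X D.m (D.L ω) = gam gx D.X D.m (D.L ω')
    rw [h1]
  dg := by
    intro ω _
    exact (Polynomial.natDegree_sub_le _ _).trans (max_le (pol_deg _ _) (pol_deg _ _))
  th0 := hth
  cN := by
    intro ω _ a
    by_cases ha : a < K
    · have e1 := pol_coeff D.X (D.L ω) (Fin.succ ⟨a, ha⟩)
      have e2 := pol_coeff D.X ((D.hd gx).R ω) (Fin.succ ⟨a, ha⟩)
      rw [Fin.val_succ] at e1 e2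
      have e3 : ((D.hd gx).dn ω).coeff (a + 1) =
          (pol D.X (D.L ω)).coeff (a + 1) - (pol D.X ((D.hd gx).R ω)).coeff (a + 1) := by
        rw [← Polynomial.coeff_sub]
        rfl
      have e4 := abs_sub_of_div (D.nn_R gx ω ⟨a, ha⟩)
      have e5 : (D.hd gx).SN = 1 := rfl
      have e6 : (D.L ω).2.1 (Fin.succ ⟨a, ha⟩) = D.nn ω (Fin.succ ⟨a, ha⟩) := rfl
      rw [e5, one_mul, e3, e1, e2, ← sub_div, abs_div, abs_of_pos (by positivity : (0 : ℝ) < 2 ^ D.X),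
        div_le_one (by positivity), e6, abs_sub_comm]
      exact e4
    · have e3 : ((D.hd gx).dn ω).natDegree ≤ K :=
        (Polynomial.natDegree_sub_le _ _).trans (max_le (pol_deg _ _) (pol_deg _ _))
      rw [Polynomial.coeff_eq_zero_of_natDegree_lt (by omega), mul_zero, abs_zero]
      exact zero_le_one
  cV := by
    intro ω _ j
    have h1 : ∀ l : Lm B k K, ⌊(D.hd gx).SV j * (D.hd gx).aL l j⌋ = l.2.2 j / 2 ^ (D.X + D.m) := by
      intro l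
      rw [← floor_div_pow]
      congr 1
      exact one_mul _
    rw [h1, h1]
    exact (D.aa_R gx ω j).symm
  cF := by
    intro ω _ j
    rw [D.fl_eq, D.fl_eq]
    exact (D.am_R gx ω j).symm
  bd := hbb

/-- The shift is a function of the coefficients and the context. -/
theorem det_s (p : Ω → ℝ) : Det p (fun ω => (D.bb ω, (D.th ω, D.g gx ω))) (D.hd gx).s := by
  intro ω ω' _ _ h
  simp only [Prod.mk.injEq] at h
  have h1 : D.bb ω = D.bb ω' := h.1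
  have h2 : D.g gx ω = D.g gx ω' := h.2.2
  have h3 : (D.hd gx).R ω = (D.hd gx).R ω' := congrArg (D.rf gx) h2
  have h4 : ∀ ω, (D.hd gx).s ω =
      (∑ j, D.bb ω j * (((D.hd gx).fl ((D.hd gx).R ω) j : ℝ) / 2 ^ D.m -
        (2 : ℝ) ^ D.X * Int.fract (1 * pos D.X D.m ((D.hd gx).R ω) j))) / 2 ^ D.X := fun _ => rfl
  rw [h4, h4, h1, h3]

/-- The near digits of a code given its context are the positions of the code. -/
theorem CH_y [Fintype Ω] {p : Ω → ℝ} (hp : ∀ ω, 0 ≤ p ω) :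
    CH p (D.hd gx).y (D.hd gx).g = CH p D.aa (D.g gx) := by
  have hy : ∀ ω j, (D.hd gx).y ω j = (D.aa ω j % 2 ^ (D.X + D.m)) / 2 ^ D.m := fun ω j =>
    D.yl_eq gx (D.L ω) j
  refine CH_congr hp (fun ω ω' _ _ e => ?_) (fun ω ω' _ _ e => ?_) (fun _ _ _ _ h => h)
    (fun _ _ _ _ h => h)
  · obtain ⟨e1, e2⟩ := Prod.ext_iff.mp e
    have e1' : (D.hd gx).y ω = (D.hd gx).y ω' := e1
    have e2' : gam gx D.X D.m (D.L ω) = gam gx D.X D.m (D.L ω') := e2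
    funext j
    have e3 := congrFun e1' j
    rw [hy, hy] at e3
    simp only [gam, Prod.mk.injEq] at e2'
    have e4 : D.aa ω j / 2 ^ (D.X + D.m) = D.aa ω' j / 2 ^ (D.X + D.m) := congrFun e2'.2.2.1 j
    have e5 : D.aa ω j % 2 ^ D.m = D.aa ω' j % 2 ^ D.m := congrFun e2'.2.2.2 j
    have e6 : D.aa ω j % 2 ^ (D.X + D.m) = D.aa ω' j % 2 ^ (D.X + D.m) := by
      have f : ∀ a : ℤ, (a % 2 ^ (D.X + D.m)) % 2 ^ D.m = a % 2 ^ D.m := fun a =>
        Int.emod_emod_of_dvd a (pow_dvd_pow 2 (by omega))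
      have f1 := Int.emod_add_mul_ediv (D.aa ω j % 2 ^ (D.X + D.m)) (2 ^ D.m)
      have f2 := Int.emod_add_mul_ediv (D.aa ω' j % 2 ^ (D.X + D.m)) (2 ^ D.m)
      rw [f, e3, e5] at f1
      rw [f] at f2
      rw [← f1, f2]
    have g1 := Int.emod_add_mul_ediv (D.aa ω j) (2 ^ (D.X + D.m))
    have g2 := Int.emod_add_mul_ediv (D.aa ω' j) (2 ^ (D.X + D.m))
    rw [← g1, e4, e6, g2]
  · obtain ⟨e1, e2⟩ := Prod.ext_iff.mp e
    have e1' : D.aa ω = D.aa ω' := e1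
    funext j
    rw [hy, hy, e1']

/-- The near digits of the code given its context. -/
theorem det_yc (p : Ω → ℝ) :
    Det p (fun ω => ((fun a : Fin K => D.nn ω a.succ, D.aa ω), D.g gx ω))
      (fun ω => ((D.hd gx).y ω, (D.hd gx).c K ω)) := by
  intro ω ω' _ _ e
  simp only [Prod.mk.injEq] at e
  have h2 : D.g gx ω = D.g gx ω' := e.2
  have h3 : (D.hd gx).R ω = (D.hd gx).R ω' := congrArg (D.rf gx) h2
  refine Prod.ext ?_ ?_
  · funext j
    change (D.hd gx).yl (D.L ω) j = (D.hd gx).yl (D.L ω') j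
    rw [D.yl_eq, D.yl_eq]
    change D.aa ω j % _ / _ = D.aa ω' j % _ / _
    rw [e.1.2]
  · funext a
    change (D.hd gx).c K ω a = (D.hd gx).c K ω' a
    rw [D.c_eq, D.c_eq, h3, congrFun e.1.1 a]

end Cd

/-- **Closed gradients behind a window with a living time.** `D`: a code of the line (`hL`) with the
time of the window; `hM`: the coefficients are nearly independent of the code given the time and the
context. -/
theorem clo_cod (k K : ℕ) (cc ε : ℝ) (hcc : 0 < cc) (hε : 0 < ε) :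
    ∃ (κ₂ κ π₀ ι ε₀ : ℝ) (k₀ j₀ X₀ : ℕ), 0 < κ₂ ∧ 0 < κ ∧ κ ≤ 1 ∧ 0 < π₀ ∧ 0 < ι ∧ 0 < ε₀ ∧
      ∀ {n J : ℕ} {F : Fam n J} {p : F.Ω → ℝ} (_ : IsLaw p) {W : ℕ} {ψ : ℝ}
        (_ : TimW F p W j₀ ε₀ ψ) {B β₀ : Type} [Nonempty (Lm B k K)] (D : Cd F.Ω B k K)
        (gx : Lm B k K → β₀), D.th = F.tw W → Det p (slam F W) D.L → Det p (D.g gx) (F.T1 W) →
        X₀ ≤ D.X → W + D.X ≤ J → ψ * J ≤ ι / 2 * D.X → ι * D.X ≤ D.m →
        (∀ ω, 0 < p ω → ∀ j, |D.bb ω j| ≤ (2 : ℝ) ^ (ι * D.X)) →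
        Pool.KVA.MI p D.bb D.L (fun ω => (F.tw W ω, D.g gx ω)) ≤ ι / 2 * D.X →
        Pool.KVA.MI p (D.hd gx).N (fun ω => ((D.hd gx).y ω, (D.hd gx).c K ω))
          (fun ω => ((D.hd gx).T ω, D.g gx ω)) ≤ ι * D.X →
        (k - ι) * D.X * Real.log 2 ≤ CH p D.aa (D.g gx) →
        (∀ j : ℕ, (j + 1) * ⌊κ * D.X⌋₊ ≤ D.X → ∀ E : Set F.Ω, π₀ ≤ Pr p E →
          CH (rs p E) (fun ω => (D.hd gx).N ω / 2 ^ (D.X - (j + 1) * ⌊κ * D.X⌋₊))
            (fun ω => (((D.hd gx).N ω / 2 ^ (D.X - j * ⌊κ * D.X⌋₊), (D.hd gx).T ω), D.g gx ω)) ≤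
            (1 - cc) * ⌊κ * D.X⌋₊ * Real.log 2) →
        ∃ mu : Lm B k K → Fin k → Polynomial ℝ, (∀ l i, (mu l i).natDegree ≤ K) ∧
          (∀ l i (u : ℝ), |(mu l i).eval u| ≤
            (K + 1) * (2 ^ k₀ * (|u| + 1)) ^ K * (2 : ℝ) ^ (ι * D.X)) ∧
          Pb p (fun ω => ∃ i, (2 : ℝ) ^ (-(κ₂ * D.X)) <
            |D.bb ω i - (mu (D.L ω) i).eval (F.tw W ω)|) ≤ ε := by
  obtain ⟨κ₂, κ, π₀, ι, ε₀, k₀, j₀, X₀, a1, a2, a3, a4, a5, a6, H⟩ := clo_own k K cc ε hcc hε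
  refine ⟨κ₂, κ, π₀, ι, ε₀, k₀, j₀, X₀, a1, a2, a3, a4, a5, a6, ?_⟩
  intro n J F p hp W ψ ht B β₀ _ D gx hth hL hg hX hJ hψ hm hbb hM h2 h3 h5
  have h0 := hp.nonneg
  have hWJ : W ≤ J := by
    have := ht.le
    omega
  have hX0 : (0 : ℝ) ≤ D.X := Nat.cast_nonneg _
  have hok : (D.hd gx).Ok K p := by
    refine D.ok gx (fun ω _ => ?_) (fun ω hω j => ?_)
    · rw [hth]
      exact tw_mem F hWJ ω
    · refine (hbb ω hω j).trans ?_
      rw [← Real.rpow_natCast 2 D.m]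
      exact Real.rpow_le_rpow_of_exponent_le one_le_two hm
  have hmono : ∀ (Y : F.Ω → ℤ), CH p Y (slam F W) ≤ CH p Y D.L := fun Y =>
    CH_mono_cond h0 (X := Y) hL
  have hgL : Det p (slam F W) (D.g gx) := fun ω ω' a b e =>
    congrArg (gam gx D.X D.m) (hL ω ω' a b e)
  refine (H p (D.hd gx) hX hp hok hbb ?_ ?_ ?_ h2 ?_ h5).imp fun mu hmu => ⟨hmu.1, hmu.2.1, ?_⟩
  · have h1 := mi_tim_code hp ht (D.g gx) hgL hg D.L hL D.bb (D.hd gx).s (by
      rw [← hth]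
      exact D.det_s gx p) hM
    have e1 : (D.hd gx).T = fun ω => (F.tw W ω, (D.bb ω, (D.hd gx).s ω)) := by
      rw [← hth]
      rfl
    rw [e1]
    refine h1.trans ?_
    have : ((D.hd gx).X : ℝ) = D.X := rfl
    rw [this]
    linarith
  · have h1 := ht.f D.X hJ
    have h6 := hmono (fun ω => ⌊(2 : ℝ) ^ D.X * F.tw W ω⌋)
    have e1 : (D.hd gx).th = F.tw W := hth
    have e2 : (D.hd gx).X = D.X := rfl
    have e3 : (D.hd gx).L = D.L := rfl
    rw [e1, e2, e3]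
    have h7 := Real.log_two_gt_d9
    have h8 : 0 ≤ ι * D.X * (Real.log 2 - 1 / 2) := by
      refine mul_nonneg (by positivity) ?_
      norm_num at h7 ⊢
      linarith
    nlinarith
  · have h1 := ht.a
    have h6 := hmono (fun ω => ⌊(2 : ℝ) ^ j₀ * F.tw W ω⌋)
    have e1 : (D.hd gx).th = F.tw W := hth
    have e3 : (D.hd gx).L = D.L := rfl
    rw [e1, e3]
    linarith
  · rw [D.CH_y gx h0]
    exact h3
  · rw [← hth]
    exact hmu.2.2

end Pool.AVG57
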