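import Pool.Agent.H57.AVG.Adm
import Pool.Agent.H5.AVG.Lxj

/-!
# Conversions: windows, codes and jets

`dv_up`: the own path in a later window. `cod`: the code of an own path; `nc_up`, `ncd_up`: the codes
`nc` of `adM` are near if the codes at the window of the charts are equal. `jt_adM`: the jets of
`adM` are the own jets. `jet2`: the digits of the own jets of orders `0`, `1`; `jet2_v`, `jet2_g`:
they are few bits given the context.
-/

set_option autoImplicit false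

namespace Pool.AVG57

open Finset Real MvPolynomial
open Pool.Agent.H49.Ent Pool.Agent.H32.Dense Pool.STK Pool.KA Pool.KSAT Pool.K2S Pool.PB Pool.S6C
open Pool.GEN Pool.CHT Pool.CHX Pool.ISO Pool.LA91 Pool.AVG71 Pool.AVG5
open Pool.PB.Trl (rt rt_mem t_rt)
open Pool.KVA (MI)

variable {m J : ℕ}

/-! ### The own path in a later window -/

/-- The beginning of the window `W` in the window `w`. -/
noncomputable def ofs (F : Fam m J) (w W : ℕ) (ω : F.Ω) : ℝ :=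
  ((slam F W ω).2.2 : ℝ) / 2 ^ (W - w) - ((slam F w ω).2.2 : ℝ)

theorem T1_up (F : Fam m J) {w W : ℕ} (h : w ≤ W) (hW : W ≤ J) (ω : F.Ω) :
    F.T1 W ω / 2 ^ (W - w) = F.T1 w ω := by
  unfold Fam.T1
  rw [Nat.div_div_eq_div_mul, ← pow_add, show J - W + (W - w) = J - w by omega]

theorem ofs_mem (F : Fam m J) {w W : ℕ} (h : w ≤ W) (hW : W ≤ J) (ω : F.Ω) :
    0 ≤ ofs F w W ω ∧ ofs F w W ω < 1 := by
  have e := T1_up F h hW ω
  have h2 : (0 : ℝ) < 2 ^ (W - w) := by positivity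
  have h1 := Nat.div_add_mod (F.T1 W ω) (2 ^ (W - w))
  rw [e] at h1
  have h3 : F.T1 W ω % 2 ^ (W - w) < 2 ^ (W - w) := Nat.mod_lt _ (by positivity)
  have h1' : (2 : ℝ) ^ (W - w) * (F.T1 w ω : ℝ) + ((F.T1 W ω % 2 ^ (W - w) : ℕ) : ℝ) =
      F.T1 W ω := by exact_mod_cast h1
  have h3' : ((F.T1 W ω % 2 ^ (W - w) : ℕ) : ℝ) < 2 ^ (W - w) := by exact_mod_cast h3
  have h4' : (0 : ℝ) ≤ ((F.T1 W ω % 2 ^ (W - w) : ℕ) : ℝ) := Nat.cast_nonneg _
  have h5 : ofs F w W ω = (F.T1 W ω : ℝ) / 2 ^ (W - w) - (F.T1 w ω : ℝ) := rfl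
  rw [h5, sub_nonneg, le_div_iff₀ h2, sub_lt_iff_lt_add, div_lt_iff₀ h2]
  constructor <;> linarith

theorem ofs_of (F : Fam m J) {w W : ℕ} (h : w ≤ W) (hW : W ≤ J) {ω ν : F.Ω}
    (e : F.T1 W ω = F.T1 W ν) : ofs F w W ω = ofs F w W ν := by
  have e1 : F.T1 w ω = F.T1 w ν := by rw [← T1_up F h hW, ← T1_up F h hW, e]
  show (F.T1 W ω : ℝ) / 2 ^ (W - w) - (F.T1 w ω : ℝ) =
    (F.T1 W ν : ℝ) / 2 ^ (W - w) - (F.T1 w ν : ℝ)
  rw [e, e1]

theorem lc_up (F : Fam m J) {w W : ℕ} (h : w ≤ W) (ω : F.Ω) (τ : ℝ) (o : Option (Fin m)) :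
    (lc W (slam F W ω) o).eval τ =
      (lc w (slam F w ω) o).eval (ofs F w W ω + 1 / 2 ^ (W - w) * τ) := by
  have h2 : (2 : ℝ) ^ W = 2 ^ (W - w) * 2 ^ w := by
    rw [← pow_add, Nat.sub_add_cancel h]
  have e1 : ((slam F W ω).2.2 : ℝ) / 2 ^ W + 1 / 2 ^ W * τ =
      ((slam F w ω).2.2 : ℝ) / 2 ^ w + 1 / 2 ^ w * (ofs F w W ω + 1 / 2 ^ (W - w) * τ) := by
    unfold ofs
    rw [h2]
    field_simp
    ring
  cases o with
  | none =>
    simp only [lc, Polynomial.eval_add, Polynomial.eval_mul, Polynomial.eval_C, Polynomial.eval_X]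
    exact e1
  | some j =>
    simp only [lc, Polynomial.eval_add, Polynomial.eval_mul, Polynomial.eval_C, Polynomial.eval_X]
    rw [e1]
    rfl

/-- **The own path in a later window.** -/
theorem dv_up (F : Fam m J) {w W : ℕ} (h : w ≤ W) (hW : W ≤ J)
    (H : LnT F → MvPolynomial (Option (Fin m)) ℝ) (κ : Fin m) (ω : F.Ω) :
    dv W (fun s (_ : Fin m) => H (upw w W s)) κ (slam F W ω) =
      (Polynomial.taylor (ofs F w W ω) (dv w (fun s (_ : Fin m) => H s) κ (slam F w ω))).comp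
        (Polynomial.C (1 / 2 ^ (W - w)) * Polynomial.X) := by
  refine Polynomial.funext fun τ => ?_
  have h2 : (Polynomial.C (1 / 2 ^ (W - w) : ℝ) * Polynomial.X).eval τ = 1 / 2 ^ (W - w) * τ := by
    simp
  rw [Polynomial.eval_comp, h2, Polynomial.taylor_eval]
  unfold dv
  have e0 : (fun o => (lc W (slam F W ω) o).eval τ) = fun o =>
      (lc w (slam F w ω) o).eval (ofs F w W ω + 1 / 2 ^ (W - w) * τ) := by
    funext o
    exact lc_up F h ω τ o
  rw [Polynomial.eval_sub, Polynomial.eval_sub, Pool.KBX.eval_aeval_poly,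
    Pool.KBX.eval_aeval_poly, lc_up F h ω τ, add_comm (1 / 2 ^ (W - w) * τ), e0]
  simp only [upw_slam F h hW]

theorem coef_up (F : Fam m J) {w W : ℕ} (h : w ≤ W) (hW : W ≤ J)
    (H : LnT F → MvPolynomial (Option (Fin m)) ℝ) (κ : Fin m) (ω : F.Ω) (a : ℕ) :
    (dv W (fun s (_ : Fin m) => H (upw w W s)) κ (slam F W ω)).coeff a =
      (Polynomial.taylor (ofs F w W ω) (dv w (fun s (_ : Fin m) => H s) κ
        (slam F w ω))).coeff a * (1 / 2 ^ (W - w)) ^ a := by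
  rw [dv_up F h hW, Polynomial.comp_C_mul_X_coeff]

/-- **Near coefficients in a later window.** -/
theorem coef_near (F : Fam m J) {w W : ℕ} (h : w ≤ W) (hW : W ≤ J)
    {H : LnT F → MvPolynomial (Option (Fin m)) ℝ} {κ : Fin m} {K : ℕ}
    (hK : ∀ s, (dv w (fun s (_ : Fin m) => H s) κ s).natDegree ≤ K) {ω ν : F.Ω}
    (hT : F.T1 W ω = F.T1 W ν) {a : ℕ} {δ : ℝ} (hδ : 0 ≤ δ)
    (hn : ∀ b, a ≤ b → b ≤ K → |(dv w (fun s (_ : Fin m) => H s) κ (slam F w ω)).coeff b -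
      (dv w (fun s (_ : Fin m) => H s) κ (slam F w ν)).coeff b| ≤ δ) :
    |(dv W (fun s (_ : Fin m) => H (upw w W s)) κ (slam F W ω)).coeff a -
      (dv W (fun s (_ : Fin m) => H (upw w W s)) κ (slam F W ν)).coeff a| ≤
      (K + 1) * 2 ^ K * δ := by
  rw [coef_up F h hW, coef_up F h hW, ofs_of F h hW hT, ← sub_mul, ← Polynomial.coeff_sub,
    ← map_sub, abs_mul]
  have hm := ofs_mem F h hW ν
  have h1 := tay_coef (q := dv w (fun s (_ : Fin m) => H s) κ (slam F w ω) -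
    dv w (fun s (_ : Fin m) => H s) κ (slam F w ν)) (N := K)
    ((Polynomial.natDegree_sub_le _ _).trans (max_le (hK _) (hK _))) (a := a)
    (s := ofs F w W ν) (by rw [abs_of_nonneg hm.1]; exact hm.2.le) hδ fun b hb => by
      rw [Polynomial.coeff_sub]
      rcases Nat.lt_or_ge K b with h5 | h5
      · rw [Polynomial.coeff_eq_zero_of_natDegree_lt ((hK _).trans_lt h5),
          Polynomial.coeff_eq_zero_of_natDegree_lt ((hK _).trans_lt h5), sub_self, abs_zero]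
        exact hδ
      · exact hn b hb h5
  have h3 : |((1 : ℝ) / 2 ^ (W - w)) ^ a| ≤ 1 := by
    rw [abs_of_nonneg (by positivity)]
    refine pow_le_one₀ (by positivity) ?_
    rw [div_le_one (by positivity)]
    exact one_le_pow₀ (by norm_num)
  calc _ ≤ (K + 1) * 2 ^ K * δ * 1 := mul_le_mul h1 h3 (abs_nonneg _) (by positivity)
    _ = _ := mul_one _

/-! ### Codes -/

/-- **The code of an own path**, in units `2 ^ -N`. -/
noncomputable def cod (F : Fam m J) (w : ℕ) (H : LnT F → MvPolynomial (Option (Fin m)) ℝ)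
    (κ : Fin m) (N a₀ K : ℕ) (ω : F.Ω) (a : Fin (K + 1)) : ℤ :=
  if a₀ ≤ (a : ℕ) then ⌊(2 : ℝ) ^ N * (dv w (fun s (_ : Fin m) => H s) κ
    (slam F w ω)).coeff (a : ℕ)⌋ else 0

theorem cod_near {F : Fam m J} {w : ℕ} {H : LnT F → MvPolynomial (Option (Fin m)) ℝ} {κ : Fin m}
    {N a₀ K : ℕ} {ω ν : F.Ω} (h : cod F w H κ N a₀ K ω = cod F w H κ N a₀ K ν) {b : ℕ}
    (h1 : a₀ ≤ b) (h2 : b ≤ K) : |(dv w (fun s (_ : Fin m) => H s) κ (slam F w ω)).coeff b -
      (dv w (fun s (_ : Fin m) => H s) κ (slam F w ν)).coeff b| ≤ 1 / 2 ^ N := by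
  have h3 := congrFun h ⟨b, Nat.lt_succ_of_le h2⟩
  unfold cod at h3
  simp only [if_pos h1] at h3
  exact near_of_floor (by positivity) h3

section

variable {F : Fam m J} {c : ℕ → Fin m} {k₀ k n q w W X mm : ℕ} {γ : ℕ → ℕ}
  {G : ℕ → PtT F → ℕ → MvPolynomial (Option (Fin m)) ℝ}
  {H : LnT F → ℕ → MvPolynomial (Option (Fin m)) ℝ} {ζ : Type} {zw : F.Ω → ζ} {B : F.Ω → Prop}

/-- **The codes `nc` of the orders `≥ a₀`** from the code at the window of the charts. -/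
theorem nc_up (hwW : w ≤ W) (hW : W ≤ J) {K a₀ : ℕ}
    (hK : ∀ s, (dv w (fun s (_ : Fin m) => H s (k₀ + k)) (c (k₀ + k)) s).natDegree ≤ K)
    {ω ν : F.Ω} (hT : F.T1 W ω = F.T1 W ν)
    (h : cod F w (fun s => H s (k₀ + k)) (c (k₀ + k)) (γ (k₀ + k) + q + X) a₀ K ω =
      cod F w (fun s => H s (k₀ + k)) (c (k₀ + k)) (γ (k₀ + k) + q + X) a₀ K ν)
    (a : Fin (K + 1)) (ha : a₀ ≤ (a : ℕ)) :
    |(((adM F c k₀ k n q w W X mm γ G H zw).nc K ω a : ℤ) : ℝ) -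
      ((adM F c k₀ k n q w W X mm γ G H zw).nc K ν a : ℤ)| ≤ (K + 1) * 2 ^ K + 1 := by
  unfold AD.nc
  refine floor_near' ?_
  have h1 := coef_near F hwW hW (H := fun s => H s (k₀ + k)) hK hT (a := (a : ℕ))
    (δ := 1 / 2 ^ (γ (k₀ + k) + q + X)) (by positivity) fun b hb hbK =>
      cod_near h (ha.trans hb) hbK
  show |2 ^ X * (Polynomial.C (2 ^ (γ (k₀ + k) + q)) *
    dv W (fun s (_ : Fin m) => H (upw w W s) (k₀ + k)) (c (k₀ + k)) (slam F W ω)).coeff (a : ℕ) -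
    2 ^ X * (Polynomial.C (2 ^ (γ (k₀ + k) + q)) *
    dv W (fun s (_ : Fin m) => H (upw w W s) (k₀ + k)) (c (k₀ + k)) (slam F W ν)).coeff (a : ℕ)| ≤ _
  rw [Polynomial.coeff_C_mul, Polynomial.coeff_C_mul, ← mul_sub, ← mul_sub, abs_mul, abs_mul,
    abs_of_pos (by positivity : (0 : ℝ) < 2 ^ X),
    abs_of_pos (by positivity : (0 : ℝ) < 2 ^ (γ (k₀ + k) + q)), ← mul_assoc, ← pow_add,
    show X + (γ (k₀ + k) + q) = γ (k₀ + k) + q + X by ring]
  refine (mul_le_mul_of_nonneg_left h1 (by positivity)).trans (le_of_eq ?_)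
  field_simp

theorem floor_div_self (x : ℝ) (X : ℕ) : ⌊(2 : ℝ) ^ X * x⌋ / 2 ^ X = ⌊x⌋ := by
  have h1 : (2 : ℤ) ^ X = ((2 ^ X : ℕ) : ℤ) := by push_cast; rfl
  rw [h1, ← Int.floor_div_natCast]
  congr 1
  push_cast
  field_simp

/-- **The upper digits of the codes** from the code at the window of the charts. -/
theorem ncd_up (hwW : w ≤ W) (hW : W ≤ J) {K : ℕ}
    (hK : ∀ s, (dv w (fun s (_ : Fin m) => H s (k₀ + k)) (c (k₀ + k)) s).natDegree ≤ K)
    {ω ν : F.Ω} (hT : F.T1 W ω = F.T1 W ν)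
    (h : cod F w (fun s => H s (k₀ + k)) (c (k₀ + k)) (γ (k₀ + k) + q) 0 K ω =
      cod F w (fun s => H s (k₀ + k)) (c (k₀ + k)) (γ (k₀ + k) + q) 0 K ν) (a : Fin (K + 1)) :
    |(((adM F c k₀ k n q w W X mm γ G H zw).nc K ω a / 2 ^ X : ℤ) : ℝ) -
      ((adM F c k₀ k n q w W X mm γ G H zw).nc K ν a / 2 ^ X : ℤ)| ≤ (K + 1) * 2 ^ K + 1 := by
  have e1 : ∀ o : F.Ω, (adM F c k₀ k n q w W X mm γ G H zw).nc K o a / 2 ^ X =
      ⌊(Polynomial.C (2 ^ (γ (k₀ + k) + q)) *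
    dv W (fun s (_ : Fin m) => H (upw w W s) (k₀ + k)) (c (k₀ + k))
      (slam F W o)).coeff (a : ℕ)⌋ := fun o => floor_div_self _ X
  rw [e1, e1]
  refine floor_near' ?_
  have h1 := coef_near F hwW hW (H := fun s => H s (k₀ + k)) hK hT (a := (a : ℕ))
    (δ := 1 / 2 ^ (γ (k₀ + k) + q)) (by positivity) fun b hb hbK =>
      cod_near h (Nat.zero_le _) hbK
  rw [Polynomial.coeff_C_mul, Polynomial.coeff_C_mul, ← mul_sub, abs_mul,
    abs_of_pos (by positivity : (0 : ℝ) < 2 ^ (γ (k₀ + k) + q))]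
  refine (mul_le_mul_of_nonneg_left h1 (by positivity)).trans (le_of_eq ?_)
  field_simp

/-- **The jets of `adM` are the own jets.** -/
theorem jt_adM (hwW : w ≤ W) (hW : W ≤ J) (ω : F.Ω) (o : Option (Fin k)) (a : ℕ) :
    jj (adM F c k₀ k n q w W X mm γ G H zw) ω o a =
      2 ^ (γ (o.elim (k₀ + k) fun j => k₀ + j) + q) *
        (ojet F (c (o.elim (k₀ + k) fun j => k₀ + j)) a
          (H (slam F w ω) (o.elim (k₀ + k) fun j => k₀ + j)) ω / ((a.factorial : ℝ) * (2 ^ W) ^ a)) := by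
  have key : ∀ l : ℕ, jt (Polynomial.C (2 ^ (γ l + q)) *
      dv W (fun s (_ : Fin m) => H (upw w W s) l) (c l) (slam F W ω)) (rt F W ω) a =
      2 ^ (γ l + q) * (ojet F (c l) a (H (slam F w ω) l) ω /
        ((a.factorial : ℝ) * (2 ^ W) ^ a)) := by
    intro l
    have h1 := ojet_tay F hW ω (c l) (fun s (_ : Fin m) => H (upw w W s) l) a
    rw [upw_slam F hwW hW] at h1
    rw [← h1]
    unfold jt
    rw [Polynomial.taylor_mul, Polynomial.taylor_C, Polynomial.coeff_C_mul]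
  cases o with
  | none => exact key (k₀ + k)
  | some j => exact key (k₀ + j)

end

end Pool.AVG57
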