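import Pool.Agent.H57.AVG.Pra

/-!
# The data of the average: arbitrary moved places, context and gradient

`adG`: the own paths of the moved places `mv` and of the target `i` over the charts of the window `w`,
written in the window `W`; the context `z` and the gradient `gg` are arbitrary. `GrdA`: the
properties of the gradient for samples with the same time, context and charts. `bbG`, `NxG`: the
fields `bbj`, `bbx`, `Nx`.
-/

set_option autoImplicit false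

namespace Pool.AVG57

open Finset Real MvPolynomial
open Pool.Agent.H49.Ent Pool.Agent.H32.Dense Pool.STK Pool.KA Pool.KSAT Pool.K2S Pool.PB Pool.S6C
open Pool.GEN Pool.CHT Pool.CHX Pool.ISO Pool.LA91 Pool.AVG71 Pool.AVG5
open Pool.PB.Trl (rt rt_mem t_rt)
open Pool.D2R (hgt)
open Pool.KVA (MI)

variable {m J : ℕ}

/-- **The data of the average**, general form. -/
noncomputable def adG (F : Fam m J) (c : ℕ → Fin m) {k : ℕ} (mv : Fin k → ℕ) (i q w W X mm : ℕ)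
    (γ : ℕ → ℕ) (gg : F.Ω → Fin k → ℝ)
    (H : LnT F → ℕ → MvPolynomial (Option (Fin m)) ℝ) {ζ : Type} (z : F.Ω → ζ) : AD F.Ω ζ k where
  z := z
  th := rt F W
  P ω := Polynomial.C (2 ^ (γ i + q)) *
    dv W (fun s (_ : Fin m) => H (upw w W s) i) (c i) (slam F W ω)
  A ω j := Polynomial.C (2 ^ (γ (mv j) + q)) *
    dv W (fun s (_ : Fin m) => H (upw w W s) (mv j)) (c (mv j)) (slam F W ω)
  bb ω j := (⌊2 ^ X * gg ω j⌋ : ℤ) / 2 ^ X
  X := X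
  m := mm

/-- **The gradient** for samples with the same time, context and charts, and near heights of the
moved places. `Cj`, `Cx`: the charts of the windows up to `j`, `x`. -/
structure GrdA (F : Fam m J) (c : ℕ → Fin m) {k : ℕ} (mv : Fin k → ℕ) (i q X : ℕ) (γ : ℕ → ℕ)
    (U : ℝ) (B : F.Ω → Prop) (G₀ : PtT F → ℕ → MvPolynomial (Option (Fin m)) ℝ)
    (gg : F.Ω → Fin k → ℝ) {ζ χ₁ χ₂ : Type} (z : F.Ω → ζ) (Cj : F.Ω → χ₁) (Cx : F.Ω → χ₂) :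
    Prop where
  U0 : 0 ≤ U
  bm : ∀ ω, B ω → ∀ j, |gg ω j| ≤ U
  bj : ∀ ω ν, B ω → B ν → F.t ω = F.t ν → z ω = z ν → Cj ω = Cj ν →
    (∀ j, |hgt F c G₀ ω (mv j) - hgt F c G₀ ν (mv j)| ≤ 2 ^ 2 / 2 ^ (γ (mv j) + q)) →
      ∀ j, |gg ω j - gg ν j| ≤ U / 2 ^ X
  bx : ∀ ω ν, B ω → B ν → F.t ω = F.t ν → z ω = z ν → Cx ω = Cx ν →
    (∀ j, |hgt F c G₀ ω (mv j) - hgt F c G₀ ν (mv j)| ≤ 2 ^ 2 / 2 ^ (γ (mv j) + q)) →
      ∀ j, |gg ω j - gg ν j| ≤ U / 2 ^ X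
  nx : ∀ ω ν, B ω → B ν → F.t ω = F.t ν → z ω = z ν → Cx ω = Cx ν →
    (∀ j, |hgt F c G₀ ω (mv j) - hgt F c G₀ ν (mv j)| ≤ 2 ^ 2 / 2 ^ (γ (mv j) + q)) →
      |2 ^ (γ i + q) * (hgt F c G₀ ω i - hgt F c G₀ ν i) - ∑ j, gg ω j *
        (2 ^ (γ (mv j) + q) * (hgt F c G₀ ω (mv j) - hgt F c G₀ ν (mv j)))| ≤ U / 2 ^ X

/-- The charts of `w` are closed, at the moved places and at the target. -/
def ClsG (F : Fam m J) {k : ℕ} (mv : Fin k → ℕ) (i w : ℕ) (B : F.Ω → Prop)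
    (G₀ : PtT F → ℕ → MvPolynomial (Option (Fin m)) ℝ)
    (H : LnT F → ℕ → MvPolynomial (Option (Fin m)) ℝ) : Prop :=
  ∀ ω, B ω → G₀ (ptr F J ω) i = H (slam F w ω) i ∧
    ∀ j, G₀ (ptr F J ω) (mv j) = H (slam F w ω) (mv j)

/-- The time from the window and the position in it. -/
theorem time_eq (F : Fam m J) {W : ℕ} (hW : W ≤ J) {ω ν : F.Ω} (h1 : F.T1 W ω = F.T1 W ν)
    (h2 : rt F W ω = rt F W ν) : F.T ω = F.T ν ∧ F.t ω = F.t ν := by
  rw [← tw_rt F hW, ← tw_rt F hW] at h2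
  have h3 : F.T ω = F.T ν := T_of_tw F hW h1 h2
  refine ⟨h3, ?_⟩
  unfold Fam.t
  rw [h3]

section

variable {F : Fam m J} {c : ℕ → Fin m} {k : ℕ} {mv : Fin k → ℕ} {i q w W X mm : ℕ} {γ : ℕ → ℕ}
  {gg : F.Ω → Fin k → ℝ} {H : LnT F → ℕ → MvPolynomial (Option (Fin m)) ℝ} {ζ χ₁ χ₂ : Type}
  {z : F.Ω → ζ} {Cj : F.Ω → χ₁} {Cx : F.Ω → χ₂} {B : F.Ω → Prop}
  {G₀ : PtT F → ℕ → MvPolynomial (Option (Fin m)) ℝ} {U : ℝ}

/-- The own height at the time of the sample. -/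
theorem dvW_hgt (hwW : w ≤ W) (hW : W ≤ J) {l : ℕ} {ω : F.Ω}
    (h : G₀ (ptr F J ω) l = H (slam F w ω) l) :
    (dv W (fun s (_ : Fin m) => H (upw w W s) l) (c l) (slam F W ω)).eval (rt F W ω) =
      hgt F c G₀ ω l := by
  have h1 := Pool.D2R.dv_hgt (c := c) (G := fun _ => G₀) (H₀ := fun s => H (upw w W s)) hW
    (l := l) (ω := ω) (by
      rw [upw_slam F hwW hW]
      exact h)
  exact h1

theorem adG_valP (hwW : w ≤ W) (hW : W ≤ J) (hc : ClsG F mv i w B G₀ H) {ω : F.Ω} (hω : B ω) :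
    ((adG F c mv i q w W X mm γ gg H z).P ω).eval ((adG F c mv i q w W X mm γ gg H z).th ω) =
      2 ^ (γ i + q) * hgt F c G₀ ω i := by
  show (Polynomial.C (2 ^ (γ i + q)) * dv W (fun s (_ : Fin m) => H (upw w W s) i) (c i)
    (slam F W ω)).eval (rt F W ω) = _
  rw [Polynomial.eval_mul, Polynomial.eval_C, dvW_hgt hwW hW (hc ω hω).1]

theorem adG_valA (hwW : w ≤ W) (hW : W ≤ J) (hc : ClsG F mv i w B G₀ H) {ω : F.Ω} (hω : B ω)
    (j : Fin k) :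
    ((adG F c mv i q w W X mm γ gg H z).A ω j).eval ((adG F c mv i q w W X mm γ gg H z).th ω) =
      2 ^ (γ (mv j) + q) * hgt F c G₀ ω (mv j) := by
  show (Polynomial.C (2 ^ (γ (mv j) + q)) * dv W (fun s (_ : Fin m) => H (upw w W s) (mv j))
    (c (mv j)) (slam F W ω)).eval (rt F W ω) = _
  rw [Polynomial.eval_mul, Polynomial.eval_C, dvW_hgt hwW hW ((hc ω hω).2 j)]

/-- The rounded gradient is near the gradient. -/
theorem adG_bbr (ω : F.Ω) (j : Fin k) :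
    |gg ω j - (adG F c mv i q w W X mm γ gg H z).bb ω j| ≤ 1 / 2 ^ X := by
  have hX : (0 : ℝ) < 2 ^ X := by positivity
  show |gg ω j - (⌊2 ^ X * gg ω j⌋ : ℤ) / 2 ^ X| ≤ 1 / 2 ^ X
  have f1 := Int.floor_le (2 ^ X * gg ω j)
  have f2 := Int.lt_floor_add_one (2 ^ X * gg ω j)
  have e1 : gg ω j - (⌊2 ^ X * gg ω j⌋ : ℤ) / 2 ^ X =
      (2 ^ X * gg ω j - (⌊2 ^ X * gg ω j⌋ : ℤ)) / 2 ^ X := by
    field_simp
  rw [e1, abs_div, abs_of_pos hX, abs_of_nonneg (by linarith)]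
  exact div_le_div_of_nonneg_right (by linarith) hX.le

/-- **The field `bm`.** -/
theorem adG_bm (E : GrdA F c mv i q X γ U B G₀ gg z Cj Cx) {ω : F.Ω} (hω : B ω) (j : Fin k) :
    |(adG F c mv i q w W X mm γ gg H z).bb ω j| ≤ U + 1 := by
  have h1 := adG_bbr (c := c) (mv := mv) (i := i) (q := q) (w := w) (W := W) (X := X) (mm := mm)
    (γ := γ) (gg := gg) (H := H) (z := z) ω j
  have h2 := E.bm ω hω j
  have h3 : (1 : ℝ) / 2 ^ X ≤ 1 := by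
    rw [div_le_one (by positivity)]
    exact one_le_pow₀ (by norm_num)
  have h4 := abs_le.mp h1
  have h5 := abs_le.mp h2
  rw [abs_le]
  constructor <;> linarith [h4.1, h4.2, h5.1, h5.2]

/-- Two paths with equal higher codes and equal upper digits of the constant term are near. -/
theorem eval_near_code {K : ℕ} {A A' : Polynomial ℝ} {s θ : ℝ} (hs : 0 < s) (hA : A.natDegree ≤ K)
    (hA' : A'.natDegree ≤ K) (h01 : 0 ≤ θ ∧ θ < 1) (hK : (K : ℝ) ≤ s)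
    (h0 : |A.coeff 0 - A'.coeff 0| ≤ 1) (h1 : ∀ a : Fin K, |A.coeff (a.succ : ℕ) -
      A'.coeff (a.succ : ℕ)| ≤ 1 / s) : |A.eval θ - A'.eval θ| ≤ 2 ^ 2 := by
  rw [AD.eval_fin hA, AD.eval_fin hA', ← Finset.sum_sub_distrib, Fin.sum_univ_succ]
  have g0 : |A.coeff ((0 : Fin (K + 1)) : ℕ) * θ ^ ((0 : Fin (K + 1)) : ℕ) -
      A'.coeff ((0 : Fin (K + 1)) : ℕ) * θ ^ ((0 : Fin (K + 1)) : ℕ)| ≤ 1 := by
    simp only [Fin.val_zero, pow_zero, mul_one]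
    exact h0
  have g1 : ∀ a ∈ (univ : Finset (Fin K)), |A.coeff (a.succ : ℕ) * θ ^ (a.succ : ℕ) -
      A'.coeff (a.succ : ℕ) * θ ^ (a.succ : ℕ)| ≤ 1 / s := by
    intro a _
    rw [← sub_mul, abs_mul, abs_of_nonneg (pow_nonneg h01.1 _)]
    have c2 : θ ^ (a.succ : ℕ) ≤ 1 := pow_le_one₀ h01.1 h01.2.le
    calc _ ≤ 1 / s * 1 := mul_le_mul (h1 a) c2 (pow_nonneg h01.1 _) (by positivity)
      _ = _ := mul_one _
  refine (abs_add_le _ _).trans ((add_le_add g0 ((Finset.abs_sum_le_sum_abs _ _).trans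
    (Finset.sum_le_sum g1))).trans ?_)
  rw [Finset.sum_const, Finset.card_univ, Fintype.card_fin, nsmul_eq_mul, mul_one_div]
  have : (K : ℝ) / s ≤ 1 := (div_le_one hs).2 hK
  linarith

/-- Equal upper digits of the code: near numbers. -/
theorem near_of_div {x y : ℝ} {n : ℕ} (h : ⌊(2 : ℝ) ^ n * x⌋ / 2 ^ n = ⌊(2 : ℝ) ^ n * y⌋ / 2 ^ n) :
    |x - y| ≤ 1 := by
  rw [floor_div_self, floor_div_self] at h
  have h1 := near_of_floor (s := (1 : ℝ)) one_pos (x := x) (y := y) (by simpa using h)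
  simpa using h1

/-- **Near heights**: equal codes. -/
theorem adG_near (hwW : w ≤ W) (hW : W ≤ J) (hc : ClsG F mv i w B G₀ H) {K : ℕ} {ω ν : F.Ω}
    (hω : B ω) (hν : B ν)
    (hth : (adG F c mv i q w W X mm γ gg H z).th ω = (adG F c mv i q w W X mm γ gg H z).th ν)
    (h01 : 0 ≤ (adG F c mv i q w W X mm γ gg H z).th ω ∧
      (adG F c mv i q w W X mm γ gg H z).th ω < 1)
    (hA : (∀ j, ((adG F c mv i q w W X mm γ gg H z).A ω j).natDegree ≤ K) ∧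
      ∀ j, ((adG F c mv i q w W X mm γ gg H z).A ν j).natDegree ≤ K)
    (hK : (K : ℝ) ≤ 2 ^ (X + mm))
    (h1 : ∀ j (a : Fin K), (adG F c mv i q w W X mm γ gg H z).ac K ω j a.succ =
      (adG F c mv i q w W X mm γ gg H z).ac K ν j a.succ)
    (h2 : ∀ j, (adG F c mv i q w W X mm γ gg H z).ac K ω j 0 / 2 ^ (X + mm) =
      (adG F c mv i q w W X mm γ gg H z).ac K ν j 0 / 2 ^ (X + mm)) (j : Fin k) :
    |hgt F c G₀ ω (mv j) - hgt F c G₀ ν (mv j)| ≤ 2 ^ 2 / 2 ^ (γ (mv j) + q) := by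
  have e1 := adG_valA (c := c) (q := q) (X := X) (mm := mm) (γ := γ) (gg := gg) (z := z) hwW hW hc
    hω j
  have e2 := adG_valA (c := c) (q := q) (X := X) (mm := mm) (γ := γ) (gg := gg) (z := z) hwW hW hc
    hν j
  obtain ⟨d, hd⟩ : ∃ d, d = adG F c mv i q w W X mm γ gg H z := ⟨_, rfl⟩
  have hX : d.X = X := by rw [hd]; rfl
  have hm : d.m = mm := by rw [hd]; rfl
  rw [← hd] at hth h01 hA h1 h2 e1 e2
  rw [← hth] at e2
  have hs : (0 : ℝ) < 2 ^ (X + mm) := by positivity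
  have k1 : ∀ a : Fin K, |(d.A ω j).coeff (a.succ : ℕ) - (d.A ν j).coeff (a.succ : ℕ)| ≤
      1 / 2 ^ (X + mm) := fun a => by
    have h3 := h1 j a
    unfold AD.ac at h3
    rw [hX, hm] at h3
    exact near_of_floor hs h3
  have k0 : |(d.A ω j).coeff 0 - (d.A ν j).coeff 0| ≤ 1 := by
    have h3 := h2 j
    unfold AD.ac at h3
    rw [hX, hm] at h3
    exact near_of_div h3
  have k2 := eval_near_code hs (hA.1 j) (hA.2 j) h01 hK k0 k1
  have hp : (0 : ℝ) < 2 ^ (γ (mv j) + q) := by positivity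
  have e3 : hgt F c G₀ ω (mv j) - hgt F c G₀ ν (mv j) =
      ((d.A ω j).eval (d.th ω) - (d.A ν j).eval (d.th ω)) / 2 ^ (γ (mv j) + q) := by
    rw [e1, e2]
    field_simp
  rw [e3, abs_div, abs_of_pos hp]
  exact div_le_div_of_nonneg_right k2 hp.le

/-- The rounded gradient is few bits given a record which knows the charts `Cc`, time and the upper
digits. -/
theorem adG_bb_v (hwW : w ≤ W) (hW : W ≤ J) (hc : ClsG F mv i w B G₀ H) {χ : Type} {Cc : F.Ω → χ}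
    (hU : 0 ≤ U)
    (hb : ∀ ω ν, B ω → B ν → F.t ω = F.t ν → z ω = z ν → Cc ω = Cc ν →
      (∀ j, |hgt F c G₀ ω (mv j) - hgt F c G₀ ν (mv j)| ≤ 2 ^ 2 / 2 ^ (γ (mv j) + q)) →
        ∀ j, |gg ω j - gg ν j| ≤ U / 2 ^ X)
    {p : F.Ω → ℝ} (hp : IsLaw p) (hpB : ∀ ω, 0 < p ω → B ω) (hz : Det p z (F.T1 W)) {K : ℕ}
    (hth : ∀ ω, 0 < p ω → 0 ≤ (adG F c mv i q w W X mm γ gg H z).th ω ∧
      (adG F c mv i q w W X mm γ gg H z).th ω < 1)
    (hA : ∀ ω, 0 < p ω → ∀ j, ((adG F c mv i q w W X mm γ gg H z).A ω j).natDegree ≤ K)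
    (hK : (K : ℝ) ≤ 2 ^ (X + mm)) {ρ : Type} (R : F.Ω → ρ) :
    CH p (adG F c mv i q w W X mm γ gg H z).bb (fun ω => (R ω,
      ((adG F c mv i q w W X mm γ gg H z).th ω, (adG F c mv i q w W X mm γ gg H z).v K ω))) ≤
      CH p Cc R + k * Real.log (2 * (U + 1) + 1) := by
  have h0 := hp.nonneg
  have hX : (0 : ℝ) < 2 ^ X := by positivity
  obtain ⟨d, hd⟩ : ∃ d, d = adG F c mv i q w W X mm γ gg H z := ⟨_, rfl⟩
  obtain ⟨D, hD⟩ : ∃ D : F.Ω → ρ × (ℝ × (ζ × ((Fin k → Fin K → ℤ) × (Fin k → ℤ)))),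
    D = fun ω => (R ω, (d.th ω, d.v K ω)) := ⟨_, rfl⟩
  have h1 := CH_le_add h0 d.bb Cc D
  have h2 : CH p Cc D ≤ CH p Cc R := CH_mono_cond h0 fun _ _ _ _ e => by
    rw [hD] at e
    exact (Prod.ext_iff.mp e).1
  have h3 : CH p d.bb (fun ω => (Cc ω, D ω)) ≤
      CH p (fun ω (j : Fin k) => ⌊2 ^ X * gg ω j⌋) (fun ω => (Cc ω, D ω)) := by
    refine CH_mono_left h0 fun ω ν hω hν e => ?_
    have e1 := (Prod.ext_iff.mp e).1
    funext j
    have e2 := congrFun e1 j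
    simp only at e2
    rw [hd]
    show (⌊2 ^ X * gg ω j⌋ : ℝ) / 2 ^ X = (⌊2 ^ X * gg ν j⌋ : ℝ) / 2 ^ X
    rw [e2]
  have h4 := Pool.OWN83.CH_vec (p := p) h0
    (fun ω => (Cc ω, D ω)) (c := Real.log (2 * (U + 1) + 1))
    k (fun ω (j : Fin k) => ⌊2 ^ X * gg ω j⌋) (fun j => ?_)
  · rw [← hd, show (fun ω => (R ω, (d.th ω, d.v K ω))) = D from hD.symm]
    linarith
  refine CH_pair_int hp _ _ (by linarith) fun ω ν hω hν e => ?_
  obtain ⟨e1, e2⟩ := Prod.ext_iff.mp e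
  rw [hD, hd] at e2
  obtain ⟨_, e3⟩ := Prod.ext_iff.mp e2
  obtain ⟨e4, e5⟩ := Prod.ext_iff.mp e3
  obtain ⟨e6, e7⟩ := Prod.ext_iff.mp e5
  obtain ⟨e8, e9⟩ := Prod.ext_iff.mp e7
  have e6' : z ω = z ν := e6
  have t1 := time_eq F hW (hz ω ν hω hν e6') e4
  have n1 := adG_near hwW hW hc (hpB ω hω) (hpB ν hν) e4 (hth ω hω) ⟨hA ω hω, hA ν hν⟩ hK
    (fun j a => congrFun (congrFun e8 j) a) (fun j => congrFun e9 j)
  have b1 := hb ω ν (hpB ω hω) (hpB ν hν) t1.2 e6' e1 n1 j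
  rw [le_div_iff₀ hX] at b1
  have b2 : |2 ^ X * gg ω j - 2 ^ X * gg ν j| ≤ U := by
    rw [← mul_sub, abs_mul, abs_of_pos hX, mul_comm]
    exact b1
  have b3 := abs_le.mp b2
  have f1 := Int.floor_le (2 ^ X * gg ω j)
  have f2 := Int.lt_floor_add_one (2 ^ X * gg ω j)
  have f3 := Int.floor_le (2 ^ X * gg ν j)
  have f4 := Int.lt_floor_add_one (2 ^ X * gg ν j)
  rw [abs_le]
  constructor <;> linarith [b3.1, b3.2]

/-- **The field `Nx`.** -/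
theorem adG_Nx (hwW : w ≤ W) (hW : W ≤ J) (hc : ClsG F mv i w B G₀ H)
    (E : GrdA F c mv i q X γ U B G₀ gg z Cj Cx)
    {p : F.Ω → ℝ} (hp : IsLaw p) (hpB : ∀ ω, 0 < p ω → B ω) (hz : Det p z (F.T1 W)) {K : ℕ}
    (hth : ∀ ω, 0 < p ω → 0 ≤ (adG F c mv i q w W X mm γ gg H z).th ω ∧
      (adG F c mv i q w W X mm γ gg H z).th ω < 1)
    (hP : ∀ ω, 0 < p ω → ((adG F c mv i q w W X mm γ gg H z).P ω).natDegree ≤ K)
    (hA : ∀ ω, 0 < p ω → ∀ j, ((adG F c mv i q w W X mm γ gg H z).A ω j).natDegree ≤ K)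
    (hK : (K : ℝ) ≤ 2 ^ (X + mm)) (hm : U + 1 ≤ 2 ^ mm) {ρ : Type} (Rx : F.Ω → ρ) :
    CH p ((adG F c mv i q w W X mm γ gg H z).N K) (fun ω => (Rx ω,
      ((adG F c mv i q w W X mm γ gg H z).T ω, (adG F c mv i q w W X mm γ gg H z).g K ω))) ≤
      CH p Cx Rx + Real.log (2 * (U + 4 * k + 2 * ((K + 1) * (k + 1)) + 1) + 1) := by
  have h0 := hp.nonneg
  have hX : (0 : ℝ) < 2 ^ X := by positivity
  have hbm := fun (ω : F.Ω) (hω : B ω) (j : Fin k) => adG_bm (w := w) (W := W) (mm := mm) (H := H)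
    E hω j
  have hbr := fun (ω : F.Ω) (j : Fin k) => adG_bbr (c := c) (mv := mv) (i := i) (q := q) (w := w)
    (W := W) (X := X) (mm := mm) (γ := γ) (gg := gg) (H := H) (z := z) ω j
  have hvP := fun (ω : F.Ω) (hω : B ω) => adG_valP (c := c) (q := q) (X := X) (mm := mm) (γ := γ)
    (gg := gg) (z := z) hwW hW hc hω
  have hvA := fun (ω : F.Ω) (hω : B ω) (j : Fin k) => adG_valA (c := c) (q := q) (X := X)
    (mm := mm) (γ := γ) (gg := gg) (z := z) hwW hW hc hω j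
  have hnr := fun (ω ν : F.Ω) (hω : B ω) (hν : B ν) => adG_near (c := c) (q := q) (X := X)
    (mm := mm) (γ := γ) (gg := gg) (z := z) (K := K) hwW hW hc hω hν
  have hzz : ∀ ω, (adG F c mv i q w W X mm γ gg H z).z ω = z ω := fun _ => rfl
  have htt : ∀ ω, (adG F c mv i q w W X mm γ gg H z).th ω = rt F W ω := fun _ => rfl
  have hXX : (adG F c mv i q w W X mm γ gg H z).X = X := rfl
  have hmm : (adG F c mv i q w W X mm γ gg H z).m = mm := rfl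
  obtain ⟨d, hd⟩ : ∃ d, d = adG F c mv i q w W X mm γ gg H z := ⟨_, rfl⟩
  simp only [← hd] at *
  have h1 := CH_le_add h0 (d.N K) Cx (fun ω => (Rx ω, (d.T ω, d.g K ω)))
  have h2 : CH p Cx (fun ω => (Rx ω, (d.T ω, d.g K ω))) ≤ CH p Cx Rx :=
    CH_mono_cond h0 fun _ _ _ _ e => (Prod.ext_iff.mp e).1
  have hU := E.U0
  have h3 := AD.N_few hp hth hP hA (fun ω hω j => (hbm ω (hpB ω hω) j).trans (by rw [hmm]; exact hm))
    (fun ω => (Cx ω, (Rx ω, (d.T ω, d.g K ω))))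
    (fun _ _ _ _ e => (Prod.ext_iff.mp (Prod.ext_iff.mp e).2).2) (B := U + 4 * k)
    (by positivity) ?_
  · linarith
  intro ω ν hω hν e
  obtain ⟨e1, e2⟩ := Prod.ext_iff.mp e
  obtain ⟨_, e3⟩ := Prod.ext_iff.mp e2
  obtain ⟨e4, e5⟩ := Prod.ext_iff.mp e3
  have e6 : d.th ω = d.th ν := (Prod.ext_iff.mp e4).1
  have e7 : d.bb ω = d.bb ν := (Prod.ext_iff.mp e4).2
  have e8 := AD.det_wv p ω ν hω hν (AD.det_gw p ω ν hω hν e5)
  obtain ⟨e9, e10⟩ := Prod.ext_iff.mp e8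
  obtain ⟨e11, e12⟩ := Prod.ext_iff.mp e10
  have e9' : z ω = z ν := by
    rw [← hzz ω, ← hzz ν]
    exact e9
  have t1 := time_eq F hW (hz ω ν hω hν e9') (by rw [← htt, ← htt]; exact e6)
  have n1 := hnr ω ν (hpB ω hω) (hpB ν hν) e6 (hth ω hω) ⟨hA ω hω, hA ν hν⟩ hK
    (fun j a => congrFun (congrFun e11 j) a) (fun j => by
      have h9 : d.ac K ω j 0 / 2 ^ (d.X + d.m) = d.ac K ν j 0 / 2 ^ (d.X + d.m) := congrFun e12 j
      rw [hXX, hmm] at h9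
      exact h9)
  have b1 := E.nx ω ν (hpB ω hω) (hpB ν hν) t1.2 e9' e1 n1
  have e13 : d.Q ω - d.Q ν = 2 ^ X *
      (2 ^ (γ i + q) * (hgt F c G₀ ω i - hgt F c G₀ ν i) -
      ∑ j : Fin k, d.bb ω j * (2 ^ (γ (mv j) + q) *
        (hgt F c G₀ ω (mv j) - hgt F c G₀ ν (mv j)))) := by
    unfold AD.Q
    rw [hvP ω (hpB ω hω), hvP ν (hpB ν hν), ← mul_sub, hXX]
    congr 1
    simp only [hvA ω (hpB ω hω), hvA ν (hpB ν hν), ← e7, mul_sub, Finset.sum_sub_distrib]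
    ring
  have b2 : |∑ j : Fin k, (gg ω j - d.bb ω j) *
      (2 ^ (γ (mv j) + q) * (hgt F c G₀ ω (mv j) - hgt F c G₀ ν (mv j)))| ≤
      k * (1 / 2 ^ X * 2 ^ 2) := by
    refine (Finset.abs_sum_le_sum_abs _ _).trans ?_
    refine (Finset.sum_le_sum (g := fun _ => 1 / 2 ^ X * (2 : ℝ) ^ 2) fun j _ => ?_).trans
      (le_of_eq ?_)
    · rw [abs_mul]
      refine mul_le_mul (hbr ω j) ?_ (abs_nonneg _) (by positivity)
      have h5 := n1 j
      have h6 : (0 : ℝ) < 2 ^ (γ (mv j) + q) := by positivity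
      rw [abs_mul, abs_of_pos h6, mul_comm]
      exact (le_div_iff₀ h6).1 h5
    · rw [Finset.sum_const, Finset.card_univ, Fintype.card_fin, nsmul_eq_mul]
  have e14 : 2 ^ (γ i + q) * (hgt F c G₀ ω i - hgt F c G₀ ν i) -
      ∑ j : Fin k, d.bb ω j * (2 ^ (γ (mv j) + q) *
        (hgt F c G₀ ω (mv j) - hgt F c G₀ ν (mv j))) =
      (2 ^ (γ i + q) * (hgt F c G₀ ω i - hgt F c G₀ ν i) -
      ∑ j : Fin k, gg ω j * (2 ^ (γ (mv j) + q) *
        (hgt F c G₀ ω (mv j) - hgt F c G₀ ν (mv j)))) +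
      ∑ j : Fin k, (gg ω j - d.bb ω j) *
      (2 ^ (γ (mv j) + q) * (hgt F c G₀ ω (mv j) - hgt F c G₀ ν (mv j))) := by
    simp only [sub_mul, Finset.sum_sub_distrib]
    ring
  rw [e13, abs_mul, abs_of_pos hX, e14]
  have b3 := (abs_add_le _ _).trans (add_le_add b1 b2)
  refine (mul_le_mul_of_nonneg_left b3 hX.le).trans (le_of_eq ?_)
  field_simp
  ring

end

end Pool.AVG57
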