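import Pool.Agent.H57.AVG.Gda

/-!
# The gradient of `avg_gen` from the relative gradient

`GrdE.toA`: from `GrdE` with all places (`k₀ = 0`): the heights of the places which are not moved are
near, for samples with the same context, a combination `al` of the heights of the moved places
(`al = 0`: the context knows the own path; `al` the derivative of the chart: the context knows the
line of the coordinate). The gradient is the gradient in the moved places plus the gradient in the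
other places times `al`.
-/

set_option autoImplicit false

namespace Pool.AVG57

open Finset Real MvPolynomial
open Pool.Agent.H49.Ent Pool.Agent.H32.Dense Pool.STK Pool.KA Pool.KSAT Pool.K2S Pool.PB Pool.S6C
open Pool.GEN Pool.CHT Pool.CHX Pool.ISO Pool.LA91
open Pool.D2R (hgt gnh GrdE chs chs_eq)

variable {m J : ℕ} {F : Fam m J} {c : ℕ → Fin m} {k ks n i q X : ℕ} {γ : ℕ → ℕ} {U : ℝ}
  {B : F.Ω → Prop} {G : ℕ → PtT F → ℕ → MvPolynomial (Option (Fin m)) ℝ} {mv : Fin k → ℕ}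
  {ζ : Type} {z : F.Ω → ζ}

/-- The places which are not moved. -/
def rstP (mv : Fin k → ℕ) (i : ℕ) : Finset ℕ := (range i) \ (univ.image mv)

theorem mem_rstP {l : ℕ} : l ∈ rstP mv i ↔ l < i ∧ ∀ j, mv j ≠ l := by
  unfold rstP
  simp

/-- **The gradient of the moved places**, the other ones following with `al`. -/
noncomputable def ggA (F : Fam m J) (c : ℕ → Fin m) (mv : Fin k → ℕ) (i : ℕ) (γ : ℕ → ℕ)
    (G G' : PtT F → ℕ → MvPolynomial (Option (Fin m)) ℝ) (al : F.Ω → ℕ → Fin k → ℝ) (ω : F.Ω)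
    (j : Fin k) : ℝ :=
  gnh F c i γ G G' ω (mv j) + ∑ l ∈ rstP mv i, gnh F c i γ G G' ω l * al ω l j

/-- The sum over all places. -/
theorem sum_split (hinj : Function.Injective mv) (hlt : ∀ j, mv j < i) (f : ℕ → ℝ) :
    ∑ l ∈ Finset.Ico 0 i, f l = ∑ j, f (mv j) + ∑ l ∈ rstP mv i, f l := by
  have h1 : Finset.Ico 0 i = range i := by
    ext x
    simp
  have h2 : (univ.image mv) ⊆ range i := by
    intro x hx
    obtain ⟨j, -, rfl⟩ := Finset.mem_image.1 hx
    exact mem_range.2 (hlt j)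
  rw [h1, ← Finset.sum_sdiff h2, Finset.sum_image fun x _ y _ h => hinj h]
  unfold rstP
  ring

/-- **`GrdA` from `GrdE`.** -/
theorem toA (E : GrdE F c 0 i ks n q X γ U B G) (hinj : Function.Injective mv)
    (hlt : ∀ j, mv j < i) {al : F.Ω → ℕ → Fin k → ℝ} {u : ℝ} (hu : 0 ≤ u)
    (ha : ∀ ω, B ω → ∀ l ∈ rstP mv i, ∀ j, |al ω l j| ≤ u)
    (ha2 : ∀ ω ν, B ω → B ν → F.t ω = F.t ν → z ω = z ν → chs F i ks G ω = chs F i ks G ν →
      (∀ j, |hgt F c (G 0) ω (mv j) - hgt F c (G 0) ν (mv j)| ≤ 2 ^ 2 / 2 ^ (γ (mv j) + q)) →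
        ∀ l ∈ rstP mv i, ∀ j, |al ω l j - al ν l j| ≤ u / 2 ^ X)
    (hn : ∀ ω ν, B ω → B ν → F.t ω = F.t ν → z ω = z ν →
      (∀ j, |hgt F c (G 0) ω (mv j) - hgt F c (G 0) ν (mv j)| ≤ 2 ^ 2 / 2 ^ (γ (mv j) + q)) →
        ∀ l ∈ rstP mv i, |hgt F c (G 0) ω l - hgt F c (G 0) ν l| ≤ 2 ^ 2 / 2 ^ (γ l + q) ∧
          |2 ^ (γ l + q) * (hgt F c (G 0) ω l - hgt F c (G 0) ν l) - ∑ j, al ω l j *
            (2 ^ (γ (mv j) + q) * (hgt F c (G 0) ω (mv j) - hgt F c (G 0) ν (mv j)))| ≤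
            u / 2 ^ X)
    (hks : ks ≤ n) {U' : ℝ} (hU' : U + 2 * i * (U * u) ≤ U') :
    GrdA F c mv i q X γ U' B (G 0) (ggA F c mv i γ (G 0) (G n) al) z (chs F i ks G)
      (chs F i n G) := by
  have hU := E.U0
  have hUu : 0 ≤ U * u := by positivity
  have hi0 : (0 : ℝ) ≤ i := Nat.cast_nonneg i
  have hiUu : 0 ≤ i * (U * u) := by positivity
  have hX : (0 : ℝ) < 2 ^ X := by positivity
  have hcard : ((rstP mv i).card : ℝ) ≤ i := by
    have h1 : (rstP mv i).card ≤ (range i).card := Finset.card_le_card (Finset.sdiff_subset)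
    rw [card_range] at h1
    exact_mod_cast h1
  have hle : ∀ x : ℝ, 0 ≤ x → ∑ _l ∈ rstP mv i, x ≤ i * x := by
    intro x hx
    rw [Finset.sum_const, nsmul_eq_mul]
    exact mul_le_mul_of_nonneg_right hcard hx
  -- all heights are near
  have hall : ∀ ω ν, B ω → B ν → F.t ω = F.t ν → z ω = z ν →
      (∀ j, |hgt F c (G 0) ω (mv j) - hgt F c (G 0) ν (mv j)| ≤ 2 ^ 2 / 2 ^ (γ (mv j) + q)) →
      ∀ l < i, 0 ≤ l → |hgt F c (G 0) ω l - hgt F c (G 0) ν l| ≤ 2 ^ 2 / 2 ^ (γ l + q) := by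
    intro ω ν hω hν ht hz hm l hl _
    by_cases h1 : ∃ j, mv j = l
    · obtain ⟨j, rfl⟩ := h1
      exact hm j
    · exact (hn ω ν hω hν ht hz hm l (mem_rstP.2 ⟨hl, fun j hj => h1 ⟨j, hj⟩⟩)).1
  have hbb : ∀ n', (∀ ω ν, B ω → B ν → F.t ω = F.t ν → (∀ l < 0, F.x ω (c l) = F.x ν (c l)) →
      (∀ j < i, 0 ≤ j → |hgt F c (G 0) ω j - hgt F c (G 0) ν j| ≤ 2 ^ 2 / 2 ^ (γ j + q)) →
      (∀ k ≤ n', ∀ l ≤ i, G k (ptr F J ω) l = G k (ptr F J ν) l) → ∀ j < i, 0 ≤ j →
      |gnh F c i γ (G 0) (G n) ω j - gnh F c i γ (G 0) (G n) ν j| ≤ U / 2 ^ X) → ks ≤ n' →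
      ∀ ω ν, B ω → B ν → F.t ω = F.t ν → z ω = z ν → chs F i n' G ω = chs F i n' G ν →
      (∀ j, |hgt F c (G 0) ω (mv j) - hgt F c (G 0) ν (mv j)| ≤ 2 ^ 2 / 2 ^ (γ (mv j) + q)) →
        ∀ j, |ggA F c mv i γ (G 0) (G n) al ω j - ggA F c mv i γ (G 0) (G n) al ν j| ≤
          U' / 2 ^ X := by
    intro n' hb hks' ω ν hω hν ht hz hc hm j
    have hc' : chs F i ks G ω = chs F i ks G ν := by
      funext a l
      exact chs_eq hc a ((Nat.lt_succ_iff.1 a.2).trans hks') l (Nat.lt_succ_iff.1 l.2)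
    have h1 := hb ω ν hω hν ht (fun l hl => absurd hl (Nat.not_lt_zero l))
      (hall ω ν hω hν ht hz hm) (chs_eq hc)
    have h2 := ha2 ω ν hω hν ht hz hc' hm
    have e1 : ggA F c mv i γ (G 0) (G n) al ω j - ggA F c mv i γ (G 0) (G n) al ν j =
        (gnh F c i γ (G 0) (G n) ω (mv j) - gnh F c i γ (G 0) (G n) ν (mv j)) +
        ∑ l ∈ rstP mv i, ((gnh F c i γ (G 0) (G n) ω l - gnh F c i γ (G 0) (G n) ν l) *
          al ω l j + gnh F c i γ (G 0) (G n) ν l * (al ω l j - al ν l j)) := by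
      unfold ggA
      have e2 : ∀ l, (gnh F c i γ (G 0) (G n) ω l - gnh F c i γ (G 0) (G n) ν l) *
          al ω l j + gnh F c i γ (G 0) (G n) ν l * (al ω l j - al ν l j) =
          gnh F c i γ (G 0) (G n) ω l * al ω l j - gnh F c i γ (G 0) (G n) ν l * al ν l j :=
        fun l => by ring
      simp only [e2, Finset.sum_sub_distrib]
      ring
    have e3 : |∑ l ∈ rstP mv i, ((gnh F c i γ (G 0) (G n) ω l - gnh F c i γ (G 0) (G n) ν l) *
          al ω l j + gnh F c i γ (G 0) (G n) ν l * (al ω l j - al ν l j))| ≤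
        2 * i * (U * u) / 2 ^ X := by
      refine (Finset.abs_sum_le_sum_abs _ _).trans ((Finset.sum_le_sum (g := fun _ =>
        2 * (U * u) / 2 ^ X) fun l hl => ?_).trans ((hle _ (by positivity)).trans
          (le_of_eq (by ring))))
      have hl1 := (mem_rstP.1 hl).1
      have b1 : |gnh F c i γ (G 0) (G n) ω l - gnh F c i γ (G 0) (G n) ν l| * |al ω l j| ≤
          U / 2 ^ X * u := mul_le_mul (h1 l hl1 (Nat.zero_le l)) (ha ω hω l hl j)
            (abs_nonneg _) (by positivity)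
      have b2 : |gnh F c i γ (G 0) (G n) ν l| * |al ω l j - al ν l j| ≤ U * (u / 2 ^ X) :=
        mul_le_mul (E.bm ν hν l hl1 (Nat.zero_le l)) (h2 l hl j) (abs_nonneg _) hU
      refine (abs_add_le _ _).trans ?_
      rw [abs_mul, abs_mul]
      refine (add_le_add b1 b2).trans (le_of_eq ?_)
      field_simp
      ring
    rw [e1]
    refine (abs_add_le _ _).trans ((add_le_add (h1 (mv j) (hlt j) (Nat.zero_le _)) e3).trans ?_)
    rw [← add_div]
    exact div_le_div_of_nonneg_right hU' hX.le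
  refine ⟨hU.trans (le_trans (by linarith [hiUu]) hU'), fun ω hω j => ?_,
    hbb ks E.bj le_rfl, hbb n E.bx hks, ?_⟩
  · unfold ggA
    have h1 := E.bm ω hω (mv j) (hlt j) (Nat.zero_le _)
    have e3 : |∑ l ∈ rstP mv i, gnh F c i γ (G 0) (G n) ω l * al ω l j| ≤ i * (U * u) := by
      refine (Finset.abs_sum_le_sum_abs _ _).trans ((Finset.sum_le_sum (g := fun _ =>
        U * u) fun l hl => ?_).trans (hle _ hUu))
      rw [abs_mul]
      exact mul_le_mul (E.bm ω hω l (mem_rstP.1 hl).1 (Nat.zero_le l)) (ha ω hω l hl j)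
        (abs_nonneg _) hU
    refine (abs_add_le _ _).trans ?_
    linarith
  · intro ω ν hω hν ht hz hc hm
    have h1 := E.nx ω ν hω hν ht (fun l hl => absurd hl (Nat.not_lt_zero l))
      (hall ω ν hω hν ht hz hm) (chs_eq hc)
    rw [sum_split hinj hlt] at h1
    obtain ⟨dh, hdh⟩ : ∃ dh : ℕ → ℝ, dh = fun l => 2 ^ (γ l + q) *
      (hgt F c (G 0) ω l - hgt F c (G 0) ν l) := ⟨_, rfl⟩
    obtain ⟨gn, hgn⟩ : ∃ gn : ℕ → ℝ, gn = fun l => gnh F c i γ (G 0) (G n) ω l := ⟨_, rfl⟩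
    have h1' : |dh i - (∑ j, gn (mv j) * dh (mv j) + ∑ l ∈ rstP mv i, gn l * dh l)| ≤
        U / 2 ^ X := by
      rw [hdh, hgn]
      exact h1
    have h3 : ∀ l ∈ rstP mv i, |dh l - ∑ j, al ω l j * dh (mv j)| ≤ u / 2 ^ X := fun l hl => by
      rw [hdh]
      exact (hn ω ν hω hν ht hz hm l hl).2
    have e1 : ∑ j, ggA F c mv i γ (G 0) (G n) al ω j * dh (mv j) =
        ∑ j, gn (mv j) * dh (mv j) + ∑ l ∈ rstP mv i, gn l * ∑ j, al ω l j * dh (mv j) := by
      have e2 : ∀ j, ggA F c mv i γ (G 0) (G n) al ω j * dh (mv j) = gn (mv j) * dh (mv j) +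
          ∑ l ∈ rstP mv i, gn l * (al ω l j * dh (mv j)) := fun j => by
        unfold ggA
        rw [hgn, add_mul, Finset.sum_mul]
        congr 1
        exact Finset.sum_congr rfl fun l _ => by ring
      simp only [e2, Finset.sum_add_distrib, Finset.mul_sum]
      rw [Finset.sum_comm]
    have e3 : ∑ j, ggA F c mv i γ (G 0) (G n) al ω j * (2 ^ (γ (mv j) + q) *
        (hgt F c (G 0) ω (mv j) - hgt F c (G 0) ν (mv j))) =
        ∑ j, ggA F c mv i γ (G 0) (G n) al ω j * dh (mv j) := by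
      rw [hdh]
    have e4 : 2 ^ (γ i + q) * (hgt F c (G 0) ω i - hgt F c (G 0) ν i) = dh i := by
      rw [hdh]
    rw [e3, e4, e1]
    have e5 : dh i - (∑ j, gn (mv j) * dh (mv j) + ∑ l ∈ rstP mv i, gn l * ∑ j, al ω l j *
        dh (mv j)) = (dh i - (∑ j, gn (mv j) * dh (mv j) + ∑ l ∈ rstP mv i, gn l * dh l)) +
        ∑ l ∈ rstP mv i, gn l * (dh l - ∑ j, al ω l j * dh (mv j)) := by
      simp only [mul_sub, Finset.sum_sub_distrib]
      ring
    have e6 : |∑ l ∈ rstP mv i, gn l * (dh l - ∑ j, al ω l j * dh (mv j))| ≤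
        i * (U * (u / 2 ^ X)) := by
      refine (Finset.abs_sum_le_sum_abs _ _).trans ((Finset.sum_le_sum (g := fun _ =>
        U * (u / 2 ^ X)) fun l hl => ?_).trans (hle _ (by positivity)))
      rw [abs_mul]
      refine mul_le_mul ?_ (h3 l hl) (abs_nonneg _) hU
      rw [hgn]
      exact E.bm ω hω l (mem_rstP.1 hl).1 (Nat.zero_le l)
    rw [e5]
    refine (abs_add_le _ _).trans ((add_le_add h1' e6).trans ?_)
    have e7 : U / 2 ^ X + i * (U * (u / 2 ^ X)) = (U + i * (U * u)) / 2 ^ X := by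
      field_simp
    rw [e7]
    exact div_le_div_of_nonneg_right (by linarith) hX.le

/-- **The context knows the own paths of the other places.** -/
theorem toA0 (E : GrdE F c 0 i ks n q X γ U B G) (hinj : Function.Injective mv)
    (hlt : ∀ j, mv j < i)
    (hn : ∀ ω ν, B ω → B ν → F.t ω = F.t ν → z ω = z ν →
      (∀ j, |hgt F c (G 0) ω (mv j) - hgt F c (G 0) ν (mv j)| ≤ 2 ^ 2 / 2 ^ (γ (mv j) + q)) →
        ∀ l < i, (∀ j, mv j ≠ l) →
          |hgt F c (G 0) ω l - hgt F c (G 0) ν l| ≤ 2 ^ 2 / 2 ^ (γ l + (q + X)))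
    (hks : ks ≤ n) {U' : ℝ} (hU' : U + 8 * i * U ≤ U') :
    GrdA F c mv i q X γ U' B (G 0) (fun ω j => gnh F c i γ (G 0) (G n) ω (mv j)) z
      (chs F i ks G) (chs F i n G) := by
  have h1 := toA E hinj hlt (z := z) (al := fun _ _ _ => 0) (u := 4) (by norm_num)
    (fun ω _ l _ j => by simp) (fun ω ν _ _ _ _ _ _ l _ j => by
      rw [sub_self, abs_zero]
      positivity) (fun ω ν hω hν ht hz hm l hl => by
      obtain ⟨h2, h3⟩ := mem_rstP.1 hl
      have h4 := hn ω ν hω hν ht hz hm l h2 h3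
      have hp : (0 : ℝ) < 2 ^ (γ l + q) := by positivity
      have hX : (1 : ℝ) ≤ 2 ^ X := one_le_pow₀ (by norm_num)
      have e1 : (2 : ℝ) ^ (γ l + (q + X)) = 2 ^ (γ l + q) * 2 ^ X := by
        rw [← pow_add]
        congr 1
        omega
      rw [e1] at h4
      refine ⟨h4.trans ?_, ?_⟩
      · refine div_le_div_of_nonneg_left (by positivity) hp ?_
        nlinarith
      · simp only [zero_mul, Finset.sum_const_zero, sub_zero]
        rw [abs_mul, abs_of_pos hp]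
        calc _ ≤ (2 : ℝ) ^ (γ l + q) * (2 ^ 2 / (2 ^ (γ l + q) * 2 ^ X)) :=
              mul_le_mul_of_nonneg_left h4 hp.le
          _ = 4 / 2 ^ X := by
              field_simp
              norm_num) hks (U' := U') (by linarith)
  have e : ggA F c mv i γ (G 0) (G n) (fun _ _ _ => 0) =
      fun ω j => gnh F c i γ (G 0) (G n) ω (mv j) := by
    funext ω j
    unfold ggA
    simp
  rw [e] at h1
  exact h1

end Pool.AVG57
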