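import Pool.Agent.H2.GEN.AttF

/-!
# The high coefficients of the own paths

`nbx_lipd`: increments of a polynomial on a dilated natural box. `coef_long`: the coefficients of a
polynomial which is bounded on a longer interval. `hi_step`: two lines over the same charts of `w`
whose own paths over the lower coordinates are near each other; `φ` is the chart of an earlier
window: the high coefficients of the own paths of the next coordinate are near each other.
`tay_all`: all the coefficients from the high ones and from the low jets at one time.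
-/

set_option autoImplicit false

namespace Pool.AVG57

open Finset Real MvPolynomial
open Pool.GEN Pool.CHT

/-! ### One variable -/

/-- The coefficients on a longer interval. -/
theorem coef_long (D : ℕ) : ∃ C : ℝ, 1 ≤ C ∧ ∀ (q : Polynomial ℝ) (M τ L : ℝ), q.natDegree ≤ D →
    (∀ t ∈ Set.Icc (0 : ℝ) 1, |q.eval t| ≤ M) → 1 ≤ L → |τ| ≤ 1 → ∀ a : ℕ,
      |(q.comp (Polynomial.C τ + Polynomial.C (1 / L) * Polynomial.X)).coeff a| ≤
        C * M / L ^ a := by
  obtain ⟨C, hC, h⟩ := Pool.Agent.H40.FR.unit_coef D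
  obtain ⟨A, hA⟩ : ∃ A : ℝ, A = (D + 1) * 2 ^ D := ⟨_, rfl⟩
  have hA1 : 1 ≤ A := by
    rw [hA]
    have h1 : (1 : ℝ) ≤ 2 ^ D := one_le_pow₀ (by norm_num)
    have h2 : (0 : ℝ) ≤ D := Nat.cast_nonneg _
    nlinarith
  refine ⟨C * (A * C), one_le_mul_of_one_le_of_one_le hC (one_le_mul_of_one_le_of_one_le hA1 hC),
    ?_⟩
  intro q M τ L hq hM hL hτ a
  have hM0 : 0 ≤ M := (abs_nonneg _).trans (hM 0 ⟨le_rfl, zero_le_one⟩)
  obtain ⟨q', hq'⟩ : ∃ q' : Polynomial ℝ, q' = q.comp (Polynomial.C τ + Polynomial.X) := ⟨_, rfl⟩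
  have e1 : q.comp (Polynomial.C τ + Polynomial.C (1 / L) * Polynomial.X) =
      q'.comp (Polynomial.C (1 / L) * Polynomial.X) := by
    rw [hq', Polynomial.comp_assoc]
    simp
  have hd : q'.natDegree ≤ D := by
    rw [hq']
    refine Polynomial.natDegree_comp_le.trans ?_
    have h1 : (Polynomial.C τ + Polynomial.X : Polynomial ℝ).natDegree ≤ 1 :=
      (Polynomial.natDegree_add_le _ _).trans (max_le
        (le_of_eq_of_le (Polynomial.natDegree_C _) (Nat.zero_le _)) Polynomial.natDegree_X_le)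
    calc q.natDegree * (Polynomial.C τ + Polynomial.X : Polynomial ℝ).natDegree ≤ D * 1 :=
          Nat.mul_le_mul hq h1
      _ = D := mul_one _
  have hb : ∀ t ∈ Set.Icc (0 : ℝ) 1, |q'.eval t| ≤ A * C * M := by
    intro t ht
    have h1 : q'.eval t = q.eval (τ + t) := by
      rw [hq', Polynomial.eval_comp]
      simp
    have h2 : |τ + t| ≤ 2 := by
      refine (abs_add_le _ _).trans ?_
      rw [abs_of_nonneg ht.1]
      linarith [ht.2]
    rw [h1, Polynomial.eval_eq_sum_range' (Nat.lt_succ_of_le hq)]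
    refine (Finset.abs_sum_le_sum_abs _ _).trans ?_
    have h3 : ∀ j ∈ range (D + 1), |q.coeff j * (τ + t) ^ j| ≤ C * M * 2 ^ D := by
      intro j hj
      rw [abs_mul, abs_pow]
      refine mul_le_mul (h q M hq hM j) ?_ (by positivity) (by positivity)
      calc |τ + t| ^ j ≤ 2 ^ j := pow_le_pow_left₀ (abs_nonneg _) h2 j
        _ ≤ 2 ^ D := pow_le_pow_right₀ (by norm_num) (Nat.lt_succ_iff.mp (mem_range.1 hj))
    refine (Finset.sum_le_sum h3).trans (le_of_eq ?_)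
    rw [Finset.sum_const, card_range, nsmul_eq_mul, hA]
    push_cast
    ring
  have h4 := h q' (A * C * M) hd hb a
  rw [e1, Polynomial.comp_C_mul_X_coeff, abs_mul, abs_pow, abs_of_nonneg (by positivity :
    (0 : ℝ) ≤ 1 / L), one_div, inv_pow, ← div_eq_mul_inv]
  refine div_le_div_of_nonneg_right (h4.trans (le_of_eq ?_)) (by positivity)
  ring

/-- The coefficients at a shifted centre. -/
theorem tay_coef {N : ℕ} {q : Polynomial ℝ} (hq : q.natDegree ≤ N) {a : ℕ} {ε s : ℝ}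
    (hs : |s| ≤ 1) (hε : 0 ≤ ε) (h : ∀ b ≥ a, |q.coeff b| ≤ ε) :
    |(Polynomial.taylor s q).coeff a| ≤ (N + 1) * 2 ^ N * ε := by
  rw [Polynomial.taylor_coeff, Polynomial.hasseDeriv_apply, Polynomial.sum_over_range' _ (by
    intro n; simp) (N + 1) (Nat.lt_succ_of_le hq), Polynomial.eval_finsetSum]
  refine (Finset.abs_sum_le_sum_abs _ _).trans ?_
  have h3 : ∀ b ∈ range (N + 1), |(Polynomial.monomial (b - a) ((b.choose a : ℝ) *
      q.coeff b)).eval s| ≤ 2 ^ N * ε := by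
    intro b hb
    rw [Polynomial.eval_monomial, abs_mul, abs_mul, abs_pow]
    rcases Nat.lt_or_ge b a with h1 | h1
    · rw [Nat.choose_eq_zero_of_lt h1]
      simp only [Nat.cast_zero, abs_zero, zero_mul]
      positivity
    · have h2 : |((b.choose a : ℕ) : ℝ)| ≤ 2 ^ N := by
        rw [abs_of_nonneg (Nat.cast_nonneg _)]
        have h4 : b.choose a ≤ 2 ^ b := Nat.choose_le_two_pow b a
        have h5 : (2 : ℕ) ^ b ≤ 2 ^ N :=
          Nat.pow_le_pow_right (by norm_num) (Nat.lt_succ_iff.mp (mem_range.1 hb))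
        exact_mod_cast h4.trans h5
      have h6 : |s| ^ (b - a) ≤ 1 := pow_le_one₀ (abs_nonneg _) hs
      calc |((b.choose a : ℕ) : ℝ)| * |q.coeff b| * |s| ^ (b - a) ≤ 2 ^ N * ε * 1 := by
            refine mul_le_mul (mul_le_mul h2 (h b h1) (abs_nonneg _) (by positivity)) h6
              (by positivity) (by positivity)
        _ = 2 ^ N * ε := mul_one _
  refine (Finset.sum_le_sum h3).trans (le_of_eq ?_)
  rw [Finset.sum_const, card_range, nsmul_eq_mul]
  push_cast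
  ring

/-- **All the coefficients** from the high ones and from the low jets at one time. -/
theorem tay_all {N : ℕ} {q : Polynomial ℝ} (hq : q.natDegree ≤ N) {a₀ : ℕ} {ε δ s : ℝ}
    (hs : |s| ≤ 1) (hε : 0 ≤ ε) (hδ : 0 ≤ δ) (h : ∀ b ≥ a₀, |q.coeff b| ≤ ε)
    (hj : ∀ a < a₀, |(Polynomial.taylor s q).coeff a| ≤ δ) (a : ℕ) :
    |q.coeff a| ≤ (N + 1) * 2 ^ N * (δ + (N + 1) * 2 ^ N * ε) := by
  have h1 : ∀ b, |(Polynomial.taylor s q).coeff b| ≤ δ + (N + 1) * 2 ^ N * ε := by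
    intro b
    rcases Nat.lt_or_ge b a₀ with hb | hb
    · have := hj b hb
      have : (0 : ℝ) ≤ (N + 1) * 2 ^ N * ε := by positivity
      linarith [hj b hb]
    · have := tay_coef hq (a := b) hs hε fun b' hb' => h b' (hb.trans hb')
      linarith
  have h2 : Polynomial.taylor (-s) (Polynomial.taylor s q) = q := by
    rw [Polynomial.taylor_taylor]
    simp
  have h3 : (Polynomial.taylor s q).natDegree ≤ N := by
    rw [Polynomial.natDegree_taylor]
    exact hq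
  have h4 := tay_coef h3 (a := a) (ε := δ + (N + 1) * 2 ^ N * ε) (s := -s) (by rwa [abs_neg])
    (by positivity) fun b _ => h1 b
  rwa [h2] at h4

/-! ### Natural boxes -/

variable {m : ℕ}

/-- **The increments** of a polynomial on the box of `2 ^ n` times the sides. -/
theorem nbx_lipd (r : ℕ) (K : ℕ → ℕ) : ∃ c₀ D₁ : ℕ, 1 ≤ D₁ ∧ ∀ {m : ℕ} {c : ℕ → Fin m} {i : ℕ}
    {G : ℕ → MvPolynomial (Option (Fin m)) ℝ} {Q : MvPolynomial (Option (Fin m)) ℝ}
    {g : ℕ → ℕ} {a : ℕ} {t M ρ : ℝ} (n : ℕ), i < r → Set.InjOn c (Set.Iio i) →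
    (∀ l, (G l).totalDegree ≤ K l) → (∀ l, DepC c l (G l)) → DepC c i Q →
    Q.totalDegree ≤ K i → 0 ≤ M → 0 < ρ → ρ ≤ 1 →
    (∀ b, NBx c G g a t i b → |eval b Q| ≤ M) → ∀ b b' : Option (Fin m) → ℝ,
      b none = b' none → |b none - t| ≤ 1 / 2 ^ a →
      (∀ l < i, |b (some (c l)) - eval b (G l)| ≤ 2 ^ n / 2 ^ g l) →
      (∀ l < i, |(b' (some (c l)) - eval b' (G l)) - (b (some (c l)) - eval b (G l))| ≤
        ρ * (2 ^ n / 2 ^ g l)) →
        |eval b' Q - eval b Q| ≤ 2 ^ (c₀ + n * D₁) * M * ρ := by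
  obtain ⟨D, hD⟩ : ∃ D, D = ∑ i ∈ range r, K i * dga K i := ⟨_, rfl⟩
  obtain ⟨C, hC, h⟩ := Pool.Agent.H40.SLP.lip_one D
  obtain ⟨c₁, D₁, hD1, hdil⟩ := nbx_dil r K
  obtain ⟨c₂, hc₂⟩ := pow_unbounded_of_one_lt C (one_lt_two (α := ℝ))
  refine ⟨c₂ + (c₁ + D₁), D₁, hD1, ?_⟩
  intro m c i G Q g a t M ρ n hi hc hdeg hdep hQ hQd hM0 hρ hρ1 hM b b' hbb hb0 hb hb'
  have hDi : K i * dga K i ≤ D := by
    rw [hD]
    exact Finset.single_le_sum (f := fun i => K i * dga K i) (fun _ _ => Nat.zero_le _)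
      (mem_range.2 hi)
  obtain ⟨p, h1, h2, h3, h4, h5⟩ := curve_all hc hdeg hdep b b' i le_rfl
  have hd : ∀ b : Option (Fin m) → ℝ, |b none - t| ≤ 1 / 2 ^ a →
      (∀ l < i, |b (some (c l)) - eval b (G l)| ≤ 2 ^ (n + 1) / 2 ^ g l) →
        |eval b Q| ≤ 2 ^ (c₁ + (n + 1) * D₁) * M :=
    hdil (n + 1) hi hc hdeg hdep hQ hQd hM0 hM
  obtain ⟨f, hf⟩ : ∃ f : Polynomial ℝ, f = (MvPolynomial.aeval p Q).comp
      (Polynomial.C (1 / ρ) * Polynomial.X) := ⟨_, rfl⟩
  have hfe : ∀ s, f.eval s = eval (fun o => (p o).eval (s / ρ)) Q := by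
    intro s
    have e1 : (Polynomial.C (1 / ρ) * Polynomial.X).eval s = s / ρ := by
      simp only [Polynomial.eval_mul, Polynomial.eval_C, Polynomial.eval_X]
      ring
    rw [hf, Polynomial.eval_comp, e1, Pool.KBX.eval_aeval_poly]
  have hfd : f.natDegree ≤ D := by
    rw [hf]
    refine Polynomial.natDegree_comp_le.trans ?_
    calc (MvPolynomial.aeval p Q).natDegree *
          (Polynomial.C (1 / ρ : ℝ) * Polynomial.X).natDegree ≤ D * 1 :=
          Nat.mul_le_mul ((natDegree_aeval_mul Q p h1 hQd).trans hDi)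
            ((Polynomial.natDegree_C_mul_le _ _).trans Polynomial.natDegree_X_le)
      _ = D := mul_one _
  have h6 := h f (2 ^ (c₁ + (n + 1) * D₁) * M) hfd (by
    intro τ hτ
    rw [hfe]
    have hs0 : 0 ≤ τ / ρ := div_nonneg hτ.1 hρ.le
    have hs1 : τ / ρ * ρ ≤ 1 := by
      rw [div_mul_cancel₀ _ hρ.ne']
      exact hτ.2
    refine hd _ ?_ fun l hl => ?_
    · show |(p none).eval (τ / ρ) - t| ≤ _
      have e1 : (p none).eval (τ / ρ) - t = b none - t := by
        rw [h2, ← hbb]; ring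
      rw [e1]
      exact hb0
    · show |(p (some (c l))).eval (τ / ρ) - eval (fun o => (p o).eval (τ / ρ)) (G l)| ≤ _
      rw [h3 l hl, add_sub_cancel_left]
      refine (abs_add_le _ _).trans ?_
      rw [abs_mul, abs_of_nonneg hs0]
      have hp : (0 : ℝ) ≤ 2 ^ n / 2 ^ g l := by positivity
      have h7 : τ / ρ * |(b' (some (c l)) - eval b' (G l)) - (b (some (c l)) - eval b (G l))| ≤
          2 ^ n / 2 ^ g l := by
        calc _ ≤ τ / ρ * (ρ * (2 ^ n / 2 ^ g l)) := mul_le_mul_of_nonneg_left (hb' l hl) hs0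
          _ = (τ / ρ * ρ) * (2 ^ n / 2 ^ g l) := by ring
          _ ≤ 1 * (2 ^ n / 2 ^ g l) := mul_le_mul_of_nonneg_right hs1 hp
          _ = _ := one_mul _
      have h8 : (2 : ℝ) ^ (n + 1) / 2 ^ g l = 2 * (2 ^ n / 2 ^ g l) := by
        rw [pow_succ]
        ring
      rw [h8]
      linarith [hb l hl]) ρ 0 (by rw [abs_of_pos hρ]; linarith) (by simp)
  rw [hfe, hfe, div_self hρ.ne', zero_div, sub_zero, abs_of_pos hρ] at h6
  have e0 : eval (fun o => (p o).eval 0) Q = eval b Q := hQ _ _ (by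
    show (p none).eval 0 = b none
    rw [h2]; ring) h4
  have e1 : eval (fun o => (p o).eval 1) Q = eval b' Q := hQ _ _ (by
    show (p none).eval 1 = b' none
    rw [h2]; ring) h5
  rw [e0, e1] at h6
  refine h6.trans (mul_le_mul_of_nonneg_right ?_ hρ.le)
  rw [← mul_assoc]
  refine mul_le_mul_of_nonneg_right ?_ hM0
  calc C * 2 ^ (c₁ + (n + 1) * D₁) ≤ 2 ^ c₂ * 2 ^ (c₁ + (n + 1) * D₁) :=
        mul_le_mul_of_nonneg_right hc₂.le (by positivity)
    _ = 2 ^ (c₂ + (c₁ + D₁) + n * D₁) := by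
        rw [← pow_add]
        congr 1
        ring

/-- **The high coefficients of the next own path.** `ψ`: the charts; `φ`: the chart of the
coordinate `c i` at an earlier window, `e` a constant. -/
theorem hi_step (r : ℕ) (K : ℕ → ℕ) : ∃ c₀ D₁ : ℕ, 1 ≤ D₁ ∧ ∀ {m : ℕ} {c : ℕ → Fin m} {i : ℕ}
    {ψ : ℕ → MvPolynomial (Option (Fin m)) ℝ} {φ : MvPolynomial (Option (Fin m)) ℝ}
    {g : ℕ → ℕ} {a : ℕ} {t M ρ e ε : ℝ} (n : ℕ), i < r → Set.InjOn c (Set.Iio i) →
    (∀ l, (ψ l).totalDegree ≤ K l) → (∀ l, DepC c l (ψ l)) → DepC c i φ →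
    φ.totalDegree ≤ K i → 0 ≤ M → 0 < ρ → ρ ≤ 1 →
    (∀ b, NBx c ψ g a t i b → |eval b (φ + C e - ψ i)| ≤ M) →
    ∀ p p' : Option (Fin m) → Polynomial ℝ, (∀ o, (p o).natDegree ≤ 1) →
      (∀ o, (p' o).natDegree ≤ 1) → p none = p' none →
      (∀ s ∈ Set.Icc (0 : ℝ) 1, |(p none).eval s - t| ≤ 1 / 2 ^ a) →
      (∀ l < i, ∀ s ∈ Set.Icc (0 : ℝ) 1,
        |(p (some (c l)) - aeval p (ψ l)).eval s| ≤ 2 ^ n / 2 ^ g l) →
      (∀ l < i, ∀ s ∈ Set.Icc (0 : ℝ) 1, |((p' (some (c l)) - aeval p' (ψ l)) -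
        (p (some (c l)) - aeval p (ψ l))).eval s| ≤ ρ * (2 ^ n / 2 ^ g l)) →
      ∀ a₀ : ℕ, (∀ b ≥ a₀, |(p (some (c i)) - aeval p φ).coeff b| ≤ ε) →
        (∀ b ≥ a₀, |(p' (some (c i)) - aeval p' φ).coeff b| ≤ ε) → ∀ b ≥ a₀,
        |((p' (some (c i)) - aeval p' (ψ i)) - (p (some (c i)) - aeval p (ψ i))).coeff b| ≤
          2 * ε + 2 ^ (c₀ + n * D₁) * M * ρ := by
  obtain ⟨c₁, D₁, hD1, hlip⟩ := nbx_lipd r K
  obtain ⟨D, hD⟩ : ∃ D, D = ∑ i ∈ range r, K i := ⟨_, rfl⟩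
  obtain ⟨C', hC', hcoef⟩ := Pool.Agent.H40.FR.unit_coef D
  obtain ⟨c₂, hc₂⟩ := pow_unbounded_of_one_lt C' (one_lt_two (α := ℝ))
  refine ⟨c₂ + c₁, D₁, hD1, ?_⟩
  intro m c i ψ φ g a t M ρ e ε n hi hc hdeg hdep hφ hφd hM0 hρ hρ1 hM p p' hp hp' hpn ht hh hdh
    a₀ hB hB' b hb
  have hDi : K i ≤ D := by
    rw [hD]
    exact Finset.single_le_sum (f := fun i => K i) (fun _ _ => Nat.zero_le _) (mem_range.2 hi)
  obtain ⟨Q, hQ⟩ : ∃ Q : MvPolynomial (Option (Fin m)) ℝ, Q = φ + C e - ψ i := ⟨_, rfl⟩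
  have hQd : Q.totalDegree ≤ K i := by
    rw [hQ]
    refine (totalDegree_sub _ _).trans (max_le ((totalDegree_add _ _).trans (max_le hφd ?_))
      (hdeg i))
    rw [totalDegree_C]
    exact Nat.zero_le _
  have hQdep : DepC c i Q := by
    intro x y h1 h2
    rw [hQ]
    simp only [map_add, map_sub, eval_C, hφ x y h1 h2, hdep i x y h1 h2]
  have hlq : ∀ s ∈ Set.Icc (0 : ℝ) 1, |(aeval p' Q - aeval p Q).eval s| ≤
      2 ^ (c₁ + n * D₁) * M * ρ := by
    intro s hs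
    rw [Polynomial.eval_sub, Pool.KBX.eval_aeval_poly, Pool.KBX.eval_aeval_poly]
    refine hlip n hi hc hdeg hdep hQdep hQd hM0 hρ hρ1 (by rw [hQ]; exact hM) _ _ ?_ (ht s hs)
      (fun l hl => ?_) (fun l hl => ?_)
    · show (p none).eval s = (p' none).eval s
      rw [hpn]
    · have h1 := hh l hl s hs
      rw [Polynomial.eval_sub, Pool.KBX.eval_aeval_poly] at h1
      exact h1
    · have h1 := hdh l hl s hs
      rw [Polynomial.eval_sub, Polynomial.eval_sub, Polynomial.eval_sub,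
        Pool.KBX.eval_aeval_poly, Pool.KBX.eval_aeval_poly] at h1
      exact h1
  have hdq : (aeval p' Q - aeval p Q).natDegree ≤ D := by
    refine (Polynomial.natDegree_sub_le _ _).trans (max_le ?_ ?_)
    · exact (Pool.KBX.natDegree_aeval_le _ _ hp' hQd).trans hDi
    · exact (Pool.KBX.natDegree_aeval_le _ _ hp hQd).trans hDi
  have h5 := hcoef _ _ hdq hlq b
  have e1 : (p' (some (c i)) - aeval p' (ψ i)) - (p (some (c i)) - aeval p (ψ i)) =
      (p' (some (c i)) - aeval p' φ) - (p (some (c i)) - aeval p φ) +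
        (aeval p' Q - aeval p Q) := by
    rw [hQ]
    simp only [map_add, map_sub, algHom_C]
    ring
  rw [e1, Polynomial.coeff_add, Polynomial.coeff_sub]
  refine (abs_add_le _ _).trans ?_
  have h6 := hB b hb
  have h7 := hB' b hb
  have h8 : |(p' (some (c i)) - aeval p' φ).coeff b - (p (some (c i)) - aeval p φ).coeff b| ≤
      2 * ε := by
    rw [abs_le] at h6 h7 ⊢
    constructor <;> linarith [h6.1, h6.2, h7.1, h7.2]
  refine add_le_add h8 (h5.trans ?_)
  calc C' * (2 ^ (c₁ + n * D₁) * M * ρ) ≤ 2 ^ c₂ * (2 ^ (c₁ + n * D₁) * M * ρ) :=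
        mul_le_mul_of_nonneg_right hc₂.le (by positivity)
    _ = 2 ^ (c₂ + c₁ + n * D₁) * M * ρ := by
        rw [show c₂ + c₁ + n * D₁ = c₂ + (c₁ + n * D₁) by ring, pow_add 2 c₂]
        ring

end Pool.AVG57
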