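import Pool.Agent.H57.AVG.Vg

/-!
# The links and the field `qv` for affine charts of the moved coordinates

`AdG`: the own paths `AdW` over a window `w` with charts `G 0` whose heights of the moved coordinates
differ, for two samples with the same data, exactly as the coordinates in the frame (charts which are
affine in the moved coordinates with the coefficients of the frame); the frame of the window `wf` is
near natural charts `G'`, with the same chart of the target. `AdG.lk`, `AdG.lk0`: the links.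
`AdG.vb_vy`, `AdG.qv`: the fields.
-/

set_option autoImplicit false

namespace Pool.AVG57

open Finset Real MvPolynomial
open Pool.Agent.H49.Ent Pool.Agent.H32.Dense Pool.STK Pool.KA Pool.KSAT Pool.K2S Pool.PB Pool.S6C
open Pool.GEN Pool.CHT Pool.CHX Pool.ISO Pool.LA91 Pool.AVG71 Pool.D2F2
open Pool.PB.Trl (rt rt_mem t_rt)
open Pool.D2R (AdW hgt)
open Pool.D2F (cv CvC)

variable {m J : ℕ}

/-- **The own paths over affine charts, and the frame.** -/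
structure AdG (F : Fam m J) (c : ℕ → Fin m) (k₀ k n q w wf : ℕ) (γ : ℕ → ℕ) (B : F.Ω → Prop)
    (G : ℕ → PtT F → ℕ → MvPolynomial (Option (Fin m)) ℝ)
    (H₀ : LnT F → ℕ → MvPolynomial (Option (Fin m)) ℝ)
    (G' : PtT F → ℕ → MvPolynomial (Option (Fin m)) ℝ)
    (ψH : LnT F → ℕ → Option (Fin m) → ℝ) (kk : ℕ) {β : Type} (d : AD F.Ω β k) {D : ℕ}
    (Df : Dat F (ℕ → Option (Fin m) → ℝ) (k₀ + k) D) : Prop where
  adw : AdW F c k₀ k n q w γ B G H₀ d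
  hw : w ≤ J
  gw : Gw F c γ wf kk (k₀ + k + 1) ψH G' B
  Gr : ∀ ω, B ω → G' (ptr F J ω) (k₀ + k) = G 0 (ptr F J ω) (k₀ + k)
  dv : ∀ l ≤ k₀ + k, ∀ ω ω', F.T ω = F.T ω' → ψH (slam F wf ω) = ψH (slam F wf ω') →
      Df.v wf l ω' - Df.v wf l ω = (bt F ω' - bt F ω) (some (c l)) -
        cv (ψH (slam F wf ω) l) (bt F ω' - bt F ω)
  zψ : ∀ ω ν, B ω → B ν → d.z ω = d.z ν → ψH (slam F wf ω) = ψH (slam F wf ν)
  zG : ∀ ω ν, B ω → B ν → d.z ω = d.z ν → ∀ l ≤ k₀ + k,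
    G' (ptr F J ω) l = G' (ptr F J ν) l
  aff : ∀ ω ν, B ω → B ν → F.T ω = F.T ν → d.z ω = d.z ν → ∀ l, k₀ ≤ l → l < k₀ + k →
    hgt F c (G 0) ν l - hgt F c (G 0) ω l = Df.v wf l ν - Df.v wf l ω

/-- The place of a moved coordinate. -/
def plg (k₀ k : ℕ) (j : Fin k) : Fin (k₀ + k) := ⟨k₀ + j, by omega⟩

theorem plg_inj (k₀ k : ℕ) : Function.Injective (plg k₀ k) := by
  intro i j e
  have : k₀ + (i : ℕ) = k₀ + j := congrArg Fin.val e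
  exact Fin.ext (by omega)

section

variable {F : Fam m J} {c : ℕ → Fin m} {k₀ k n q w wf : ℕ} {γ : ℕ → ℕ} {B : F.Ω → Prop}
  {G : ℕ → PtT F → ℕ → MvPolynomial (Option (Fin m)) ℝ}
  {H₀ : LnT F → ℕ → MvPolynomial (Option (Fin m)) ℝ}
  {G' : PtT F → ℕ → MvPolynomial (Option (Fin m)) ℝ}
  {ψH : LnT F → ℕ → Option (Fin m) → ℝ} {kk : ℕ} {β : Type} {d : AD F.Ω β k} {D : ℕ}
  {Df : Dat F (ℕ → Option (Fin m) → ℝ) (k₀ + k) D}

/-- The time. -/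
theorem AdG.tm (h : AdG F c k₀ k n q w wf γ B G H₀ G' ψH kk d Df) {ω ν : F.Ω} (hω : B ω)
    (hν : B ν) (hz : d.z ω = d.z ν) (hth : d.th ω = d.th ν) : F.T ω = F.T ν := by
  have h0 := h.adw.time h.hw hω hν hz hth
  have h1 : (F.T ω : ℝ) / 2 ^ J = (F.T ν : ℝ) / 2 ^ J := h0
  have h2 : (F.T ω : ℝ) = F.T ν := by
    field_simp at h1
    exact h1
  exact_mod_cast h2

/-- The heights of the exact coordinates. -/
theorem AdG.h0 (h : AdG F c k₀ k n q w wf γ B G H₀ G' ψH kk d Df) {ω ν : F.Ω} (hω : B ω)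
    (hν : B ν) (hz : d.z ω = d.z ν) (hth : d.th ω = d.th ν) {l : ℕ} (hl : l < k₀) :
    hgc F c G' l ν = hgc F c G' l ω := by
  have hx := h.adw.pos h.hw hω hν hz hth
  have ht := h.adw.time h.hw hω hν hz hth
  unfold hgc
  rw [← h.zG ω ν hω hν hz l (by omega), hx l hl]
  congr 1
  exact (h.gw.depG (ptr F J ω) l (bt F ω) (bt F ν) ht fun j hj => hx j (by omega)).symm

/-- The exact coordinates in the frame. -/
theorem AdG.v0 (h : AdG F c k₀ k n q w wf γ B G H₀ G' ψH kk d Df) {ω ν : F.Ω} (hω : B ω)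
    (hν : B ν) (hz : d.z ω = d.z ν) (hth : d.th ω = d.th ν) {l : ℕ} (hl : l < k₀) :
    Df.v wf l ν = Df.v wf l ω := by
  have hT := h.tm hω hν hz hth
  have h1 := (gw_cut h.gw (show k₀ ≤ k₀ + k + 1 by omega)).mix (d := cutD Df k₀)
    (fun l hl ω ω' e1 e2 => h.dv l (by omega) ω ω' e1 e2) (le_refl ((2 * (k₀ : ℝ) + 2) * 2 ^ kk))
    hω hν hT (h.zψ ω ν hω hν hz) (fun l hl => h.zG ω ν hω hν hz l (by omega)) le_rfl
    (fun i hi => Or.inr (by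
      rw [h.h0 hω hν hz hth hi, sub_self, abs_zero, mul_zero])) l hl
  have h2 := h1.1
  rw [mul_zero] at h2
  have h3 : (0 : ℝ) < 2 ^ γ l := by positivity
  have h4 := abs_nonneg ((cutD Df k₀).v wf l ν - (cutD Df k₀).v wf l ω)
  have h5 : |(cutD Df k₀).v wf l ν - (cutD Df k₀).v wf l ω| = 0 := by nlinarith
  have h6 : (cutD Df k₀).v wf l ν - (cutD Df k₀).v wf l ω = 0 := abs_eq_zero.1 h5
  have h7 : Df.v wf l ν - Df.v wf l ω = 0 := h6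
  linarith

/-- **The link.** -/
theorem AdG.lk (h : AdG F c k₀ k n q w wf γ B G H₀ G' ψH kk d Df) {p : F.Ω → ℝ}
    (hpB : ∀ ω, 0 < p ω → B ω) {v : ℕ → ℕ}
    (hv : ∀ l, k₀ ≤ l → l < k₀ + k → v l ≤ γ l + q + d.m) {K : ℕ} :
    Lk d K Df wf (plg k₀ k) p v (K + 1) := by
  intro ω ν hω hν hth hg hA j
  have hz : d.z ω = d.z ν := (Prod.ext_iff.mp hg).1
  have hj := j.2
  have hT := h.tm (hpB ω hω) (hpB ν hν) hz hth
  have e1 := h.adw.valA h.hw (hpB ω hω) j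
  have e2 := h.adw.valA h.hw (hpB ν hν) j
  have e3 := hA j
  have e5 := h.aff ω ν (hpB ω hω) (hpB ν hν) hT hz (k₀ + j) (by omega) (by omega)
  rw [e1, e2, ← mul_sub, abs_mul, abs_of_pos (by positivity), abs_sub_comm, e5] at e3
  have hs : (0 : ℝ) < 2 ^ (d.X + d.m) := by positivity
  rw [le_div_iff₀ hs] at e3
  have e4 : ((plg k₀ k j : Fin (k₀ + k)) : ℕ) = k₀ + j := rfl
  rw [← mul_sub, abs_mul, abs_of_pos (by positivity), abs_sub_comm, e4]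
  have h3 : (2 : ℝ) ^ (v (k₀ + j) + d.X) ≤ 2 ^ (γ (k₀ + j) + q) * 2 ^ (d.X + d.m) := by
    rw [← pow_add]
    refine pow_le_pow_right₀ (by norm_num) ?_
    have := hv (k₀ + j) (by omega) (by omega)
    omega
  refine (mul_le_mul_of_nonneg_right h3 (abs_nonneg _)).trans ?_
  linarith

/-- **Equal contexts: near coordinates in the frame.** -/
theorem AdG.lk0 (h : AdG F c k₀ k n q w wf γ B G H₀ G' ψH kk d Df) {p : F.Ω → ℝ}
    (hpB : ∀ ω, 0 < p ω → B ω) {v : ℕ → ℕ}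
    (hv : ∀ l, k₀ ≤ l → l < k₀ + k → v l ≤ γ l + q) {K : ℕ}
    (hth : ∀ ω, 0 < p ω → 0 ≤ d.th ω ∧ d.th ω < 1)
    (hA : ∀ ω, 0 < p ω → ∀ j, (d.A ω j).natDegree ≤ K) (hK : (K : ℝ) ≤ 2 ^ (d.X + d.m)) :
    Lk0 d K Df wf p v 4 := by
  intro ω ν hω hν e1 hg l hl
  have hz : d.z ω = d.z ν := (Prod.ext_iff.mp hg).1
  have hB := hpB ω hω
  have hB' := hpB ν hν
  rcases Nat.lt_or_ge l k₀ with h9 | h9
  · rw [h.v0 hB hB' hz e1 h9, sub_self, abs_zero]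
    norm_num
  · obtain ⟨_, g2⟩ := Prod.ext_iff.mp hg
    obtain ⟨g3, _⟩ := Prod.ext_iff.mp g2
    obtain ⟨g5, g6⟩ := Prod.ext_iff.mp g3
    obtain ⟨g7, _⟩ := Prod.ext_iff.mp g6
    have hnear := h.adw.near h.hw hB hB' e1 (hth ω hω) ⟨hA ω hω, hA ν hν⟩ hK
      (fun j a => congrFun (congrFun g5 j) a) (fun j => congrFun g7 j) l hl h9
    have hT := h.tm hB hB' hz e1
    rw [abs_sub_comm, h.aff ω ν hB hB' hT hz l h9 hl, le_div_iff₀ (by positivity)] at hnear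
    rw [← mul_sub, abs_mul, abs_of_pos (by positivity), abs_sub_comm]
    have h4 : (2 : ℝ) ^ v l ≤ 2 ^ (γ l + q) := pow_le_pow_right₀ (by norm_num) (hv l h9 hl)
    refine (mul_le_mul_of_nonneg_right h4 (abs_nonneg _)).trans ?_
    norm_num at hnear
    linarith

/-- **The fields `vb`, `vy`** for `V = Vfu`. -/
theorem AdG.vb_vy (h : AdG F c k₀ k n q w wf γ B G H₀ G' ψH kk d Df) {p : F.Ω → ℝ}
    (hp : IsLaw p) (hpB : ∀ ω, 0 < p ω → B ω) {u v : ℕ → ℕ} (huv : ∀ l < k₀ + k, v l ≤ u l)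
    (hX : ∀ l, k₀ ≤ l → l < k₀ + k → v l + d.X ≤ u l)
    (hv : ∀ l, k₀ ≤ l → l < k₀ + k → v l ≤ γ l + q) {K : ℕ}
    (hth : ∀ ω, 0 < p ω → 0 ≤ d.th ω ∧ d.th ω < 1)
    (hA : ∀ ω, 0 < p ω → ∀ j, (d.A ω j).natDegree ≤ K) (hK : (K : ℝ) ≤ 2 ^ (d.X + d.m)) :
    (∀ q : F.Ω → ℝ, IsLaw q → (∀ ω, 0 < q ω → 0 < p ω) →
      CH q (Vfu Df wf u) (fun ω => (d.T ω, d.g K ω)) ≤
        ∑ l ∈ range (k₀ + k), ((u l - v l : ℕ) : ℝ) * Real.log 2 +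
          (k₀ + k : ℕ) * Real.log (2 * (K + 4 + 1) + 1)) ∧
    CH p (Vfu Df wf u) (fun ω => (d.Y K ω, (d.th ω, d.g K ω))) ≤
      ∑ l ∈ range (k₀ + k), ((u l - v l : ℕ) : ℝ) * Real.log 2 +
          (k₀ + k : ℕ) * Real.log (2 * (K + 4 + 1) + 1) - k * d.X * Real.log 2 := by
  have hK0 : (0 : ℝ) ≤ K := Nat.cast_nonneg K
  have l1 : Lk0 d K Df wf p v (K + 4) := fun ω ν a b e1 e2 l hl =>
    (h.lk0 hpB hv hth hA hK ω ν a b e1 e2 l hl).trans (by linarith)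
  have l2 : Lk d K Df wf (plg k₀ k) p v (K + 4) := fun ω ν a b e1 e2 e3 j =>
    (h.lk hpB (fun l hl hl' => (hv l hl hl').trans (by omega)) ω ν a b e1 e2 e3 j).trans
      (by linarith)
  exact ⟨vb_u (by linarith) l1 huv, vy_u hp (by linarith) l2 l1 (plg_inj k₀ k) huv
    (fun j => hX _ (by
      show k₀ ≤ k₀ + j
      omega) (by
      show k₀ + (j : ℕ) < k₀ + k
      have := j.2
      omega)) hth hA⟩

/-- **The field `qv`.** -/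
theorem AdG.qv (h : AdG F c k₀ k n q w wf γ B G H₀ G' ψH kk d Df) {u : ℕ → ℕ}
    (hu : ∀ l, k₀ ≤ l → l < k₀ + k → γ l + q + d.X ≤ u l) {K : ℕ} {U : ℝ}
    (hb : ∀ ω, B ω → ∀ j, |d.bb ω j| ≤ U) {ω ν : F.Ω} (hω : B ω) (hν : B ν)
    (hV : Vfu Df wf u ω = Vfu Df wf u ν) (hT : d.T ω = d.T ν) (hg : d.g K ω = d.g K ν) :
    |(d.Q ω - (⌊(2 : ℝ) ^ (γ (k₀ + k) + q + d.X) * Df.v wf (k₀ + k) ω⌋ : ℤ)) -
      (d.Q ν - (⌊(2 : ℝ) ^ (γ (k₀ + k) + q + d.X) * Df.v wf (k₀ + k) ν⌋ : ℤ))| ≤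
      Cf (k₀ + k) kk * (1 + k * U) + 1 := by
  have e4 : d.z ω = d.z ν := (Prod.ext_iff.mp hg).1
  have e5 : d.th ω = d.th ν := (Prod.ext_iff.mp hT).1
  have e6 : d.bb ω = d.bb ν := (Prod.ext_iff.mp hT).2
  have hTT := h.tm hω hν e4 e5
  obtain ⟨s, hs⟩ : ∃ s : ℝ, s = 2 ^ (q + d.X) := ⟨_, rfl⟩
  have hs0 : 0 < s := by
    rw [hs]
    positivity
  -- near coordinates
  have hnr : ∀ l, k₀ ≤ l → l < k₀ + k → 2 ^ (γ l + q + d.X) * |Df.v wf l ν - Df.v wf l ω| ≤ 1 := by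
    intro l h1 hl
    have h2 := near_of_floor (by positivity : (0 : ℝ) < 2 ^ u l) (congrFun hV ⟨l, hl⟩)
    rw [abs_sub_comm] at h2
    rw [le_div_iff₀ (by positivity)] at h2
    have h3 : (2 : ℝ) ^ (γ l + q + d.X) ≤ 2 ^ u l :=
      pow_le_pow_right₀ (by norm_num) (hu l h1 hl)
    have h4 := mul_le_mul_of_nonneg_right h3 (abs_nonneg (Df.v wf l ν - Df.v wf l ω))
    linarith
  have hh : ∀ l < k₀ + k, 2 ^ γ l * |Df.v wf l ν - Df.v wf l ω| ≤ 1 / s ∨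
      2 ^ γ l * |hgc F c G' l ν - hgc F c G' l ω| ≤ 1 / s := by
    intro l hl
    left
    rcases Nat.lt_or_ge l k₀ with h1 | h1
    · rw [h.v0 hω hν e4 e5 h1, sub_self, abs_zero, mul_zero]
      positivity
    · have h2 := hnr l h1 hl
      rw [le_div_iff₀ hs0, hs]
      rw [add_assoc, pow_add] at h2
      linarith
  have hM : (0 : ℝ) ≤ 1 / s := by positivity
  -- the target
  have d1 := h.gw.dif (d := Df) h.dv (le_of_eq rfl) hω hν hTT (h.zψ ω ν hω hν e4)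
    (h.zG ω ν hω hν e4) hM hh
  have d1' : 2 ^ γ (k₀ + k) * |(hgc F c G' (k₀ + k) ν - hgc F c G' (k₀ + k) ω) -
      (Df.v wf (k₀ + k) ν - Df.v wf (k₀ + k) ω)| ≤ Cf (k₀ + k) kk * (1 / s) := d1
  rw [mul_one_div, le_div_iff₀ hs0] at d1'
  have hN : ∀ o, B o → hgc F c G' (k₀ + k) o = hgt F c (G 0) o (k₀ + k) := by
    intro o ho
    unfold hgc hgt
    rw [h.Gr o ho]
  have hC1 := one_le_Cf (k₀ + k) kk
  -- the moved coordinates
  have d2 : ∀ j : Fin k, 2 ^ (γ (k₀ + j) + q + d.X) *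
      |hgt F c (G 0) ν (k₀ + j) - hgt F c (G 0) ω (k₀ + j)| ≤ Cf (k₀ + k) kk := by
    intro j
    have hj := j.2
    rw [h.aff ω ν hω hν hTT e4 (k₀ + j) (by omega) (by omega)]
    exact (hnr (k₀ + j) (by omega) (by omega)).trans hC1
  -- the heights
  have q1 : ∀ o : F.Ω, B o → d.Q o = 2 ^ d.X * (2 ^ (γ (k₀ + k) + q) * hgc F c G' (k₀ + k) o -
      ∑ j : Fin k, d.bb o j * (2 ^ (γ (k₀ + j) + q) * hgt F c (G 0) o (k₀ + j))) := by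
    intro o ho
    unfold AD.Q
    rw [h.adw.valP h.hw ho, hN o ho]
    congr 2
    refine Finset.sum_congr rfl fun j _ => ?_
    rw [h.adw.valA h.hw ho j]
  obtain ⟨N, hNe⟩ : ∃ N : ℕ, N = γ (k₀ + k) + q + d.X := ⟨_, rfl⟩
  rw [← hNe]
  have hN2 : (2 : ℝ) ^ N = 2 ^ d.X * 2 ^ (γ (k₀ + k) + q) := by
    rw [hNe, ← pow_add]
    congr 1
    ring
  have hN3 : (2 : ℝ) ^ N = 2 ^ γ (k₀ + k) * s := by
    rw [hNe, hs, ← pow_add]
    congr 1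
    ring
  obtain ⟨s1, hs1⟩ : ∃ x : ℝ, x = 2 ^ N * ((hgc F c G' (k₀ + k) ν - hgc F c G' (k₀ + k) ω) -
    (Df.v wf (k₀ + k) ν - Df.v wf (k₀ + k) ω)) := ⟨_, rfl⟩
  obtain ⟨s2, hs2⟩ : ∃ x : ℝ, x = ∑ j : Fin k, d.bb ω j * (2 ^ (γ (k₀ + j) + q + d.X) *
    (hgt F c (G 0) ν (k₀ + j) - hgt F c (G 0) ω (k₀ + j))) := ⟨_, rfl⟩
  have b1 : |s1| ≤ Cf (k₀ + k) kk := by
    rw [hs1, abs_mul, abs_of_pos (by positivity : (0 : ℝ) < 2 ^ N), hN3]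
    linarith
  have b2 : |s2| ≤ k * (U * Cf (k₀ + k) kk) := by
    rw [hs2]
    refine (Finset.abs_sum_le_sum_abs _ _).trans ((Finset.sum_le_sum (g := fun _ => U * Cf (k₀ + k) kk)
      fun j _ => ?_).trans (le_of_eq ?_))
    · rw [abs_mul, abs_mul, abs_of_pos (by positivity : (0 : ℝ) < 2 ^ (γ (k₀ + j) + q + d.X))]
      exact mul_le_mul (hb ω hω j) (d2 j) (by positivity) ((abs_nonneg _).trans (hb ω hω j))
    · rw [Finset.sum_const, Finset.card_univ, Fintype.card_fin, nsmul_eq_mul]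
  have key : (d.Q ω - (⌊(2 : ℝ) ^ N * Df.v wf (k₀ + k) ω⌋ : ℤ)) -
      (d.Q ν - (⌊(2 : ℝ) ^ N * Df.v wf (k₀ + k) ν⌋ : ℤ)) =
      (2 ^ N * Df.v wf (k₀ + k) ω - (⌊(2 : ℝ) ^ N * Df.v wf (k₀ + k) ω⌋ : ℤ)) -
      (2 ^ N * Df.v wf (k₀ + k) ν - (⌊(2 : ℝ) ^ N * Df.v wf (k₀ + k) ν⌋ : ℤ)) - s1 + s2 := by
    have k1 : ∑ j : Fin k, d.bb ν j * (2 ^ (γ (k₀ + j) + q) * hgt F c (G 0) ν (k₀ + j)) =
        ∑ j : Fin k, d.bb ω j * (2 ^ (γ (k₀ + j) + q) * hgt F c (G 0) ω (k₀ + j)) +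
        ∑ j : Fin k, d.bb ω j * (2 ^ (γ (k₀ + j) + q) *
          (hgt F c (G 0) ν (k₀ + j) - hgt F c (G 0) ω (k₀ + j))) := by
      rw [← Finset.sum_add_distrib]
      refine Finset.sum_congr rfl fun j _ => ?_
      rw [e6]
      ring
    have k2 : s2 = 2 ^ d.X * ∑ j : Fin k, d.bb ω j * (2 ^ (γ (k₀ + j) + q) *
          (hgt F c (G 0) ν (k₀ + j) - hgt F c (G 0) ω (k₀ + j))) := by
      rw [hs2, Finset.mul_sum]
      refine Finset.sum_congr rfl fun j _ => ?_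
      rw [pow_add (2 : ℝ) (γ (k₀ + j) + q) d.X]
      ring
    rw [q1 ω hω, q1 ν hν, k1, k2, hs1, hN2]
    ring
  rw [key]
  have f1 := Int.floor_le ((2 : ℝ) ^ N * Df.v wf (k₀ + k) ω)
  have f2 := Int.lt_floor_add_one ((2 : ℝ) ^ N * Df.v wf (k₀ + k) ω)
  have f3 := Int.floor_le ((2 : ℝ) ^ N * Df.v wf (k₀ + k) ν)
  have f4 := Int.lt_floor_add_one ((2 : ℝ) ^ N * Df.v wf (k₀ + k) ν)
  have e7 : Cf (k₀ + k) kk * (1 + k * U) + 1 = Cf (k₀ + k) kk + k * (U * Cf (k₀ + k) kk) + 1 := by ring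
  rw [e7]
  rw [abs_le] at b1 b2 ⊢
  constructor <;> linarith [b1.1, b1.2, b2.1, b2.2]

end

end Pool.AVG57
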