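import Pool.Agent.H57.AVG.Jts

/-!
# `AD.Hyp` from the statements of a class, any near digits `V` of the base coordinates

`PrA`: the inputs on one event and one law, in the letters of a class (`zw`, `yv`, jets over the
labels of the window `w`, codes at the window `w`); the variables `V` (near digits of the base
coordinates) and `M` (digits of the target) are arbitrary. `PrA.hyp`: `AD.Hyp` for `adM`.
-/

set_option autoImplicit false

namespace Pool.AVG57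

open Finset Real MvPolynomial
open Pool.Agent.H49.Ent Pool.Agent.H32.Dense Pool.STK Pool.KA Pool.KSAT Pool.K2S Pool.PB Pool.S6C
open Pool.GEN Pool.CHT Pool.CHX Pool.ISO Pool.LA91 Pool.AVG71 Pool.AVG5 Pool.D2F2
open Pool.PB.Trl (rt rt_mem t_rt)
open Pool.D2R (AdW gnh hgt GrdE chs)
open Pool.KVA (MI)
open Pool.KAF (rs Pr)

variable {m J : ℕ}

/-! ### Entropy -/

section ent

variable {Ω 𝓡 𝓨 𝓦 𝓥 𝓐 : Type} [Fintype Ω] {p : Ω → ℝ}

theorem MI_cond (h0 : ∀ ω, 0 ≤ p ω) (R : Ω → 𝓡) (Y : Ω → 𝓨) {W : Ω → 𝓦} {W' : Ω → 𝓥}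
    (h1 : Det p W W') (h2 : Det p W' W) : MI p R Y W = MI p R Y W' := by
  rw [MI_eq h0, MI_eq h0]
  congr 1
  · exact CH_congr h0 (fun _ _ _ _ e => (Prod.ext_iff.mp e).1)
      (fun _ _ _ _ e => (Prod.ext_iff.mp e).1) h1 h2
  · refine CH_congr h0 (fun _ _ _ _ e => (Prod.ext_iff.mp e).1)
      (fun _ _ _ _ e => (Prod.ext_iff.mp e).1) (fun ω ω' a b e => ?_) (fun ω ω' a b e => ?_)
    · exact Prod.ext (Prod.ext_iff.mp e).1 (h1 ω ω' a b (Prod.ext_iff.mp e).2)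
    · exact Prod.ext (Prod.ext_iff.mp e).1 (h2 ω ω' a b (Prod.ext_iff.mp e).2)

/-- Through an intermediate variable. -/
theorem CH_via (h0 : ∀ ω, 0 ≤ p ω) (X : Ω → 𝓐) (A : Ω → 𝓡) {W : Ω → 𝓦} {W' : Ω → 𝓥} {e₁ e₂ : ℝ}
    (hA : CH p A W ≤ e₁) (hX : CH p X W' ≤ e₂) (h : Det p (fun ω => (A ω, W ω)) W') :
    CH p X W ≤ e₁ + e₂ := by
  have h1 := CH_le_add h0 X A W
  have h2 : CH p X (fun ω => (A ω, W ω)) ≤ CH p X W' := CH_mono_cond h0 h
  linarith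

end ent

/-- The code of the target is few bits given the code at the window of the charts. -/
noncomputable def cA (K : ℕ) : ℝ := (K + 1) * Real.log (2 * ((K + 1) * 2 ^ K + 1) + 1)

theorem cA_nonneg (K : ℕ) : 0 ≤ cA K := by
  unfold cA
  have : (0 : ℝ) ≤ (K + 1) * 2 ^ K := by positivity
  exact mul_nonneg (by positivity) (Real.log_nonneg (by linarith))

section

variable {F : Fam m J} {c : ℕ → Fin m} {k₀ k n q w W X mm : ℕ} {γ : ℕ → ℕ}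
  {G : ℕ → PtT F → ℕ → MvPolynomial (Option (Fin m)) ℝ}
  {H : LnT F → ℕ → MvPolynomial (Option (Fin m)) ℝ} {ζ : Type} {zw : F.Ω → ζ} {B : F.Ω → Prop}

/-- The higher codes of the target. -/
theorem CH_nc {p : F.Ω → ℝ} (hp : IsLaw p) (hwW : w ≤ W) (hW : W ≤ J) {K : ℕ}
    (hK : ∀ s, (dv w (fun s (_ : Fin m) => H s (k₀ + k)) (c (k₀ + k)) s).natDegree ≤ K) {𝓦 : Type}
    (Z : F.Ω → 𝓦) (hZ : Det p Z (F.T1 W)) {e : ℝ}
    (h : CH p (cod F w (fun s => H s (k₀ + k)) (c (k₀ + k)) (γ (k₀ + k) + q + X) 1 K) Z ≤ e) :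
    CH p (fun ω (a : Fin K) => (adM F c k₀ k n q w W X mm γ G H zw).nc K ω a.succ) Z ≤
      e + cA K := by
  have h0 := hp.nonneg
  have h1 := CH_le_add h0 (fun ω (a : Fin K) =>
    (adM F c k₀ k n q w W X mm γ G H zw).nc K ω a.succ)
    (cod F w (fun s => H s (k₀ + k)) (c (k₀ + k)) (γ (k₀ + k) + q + X) 1 K) Z
  have h2 := Pool.OWN83.CH_vec (p := p) h0 (fun ω => (cod F w (fun s => H s (k₀ + k))
    (c (k₀ + k)) (γ (k₀ + k) + q + X) 1 K ω, Z ω)) (c := Real.log (2 * ((K + 1) * 2 ^ K + 1) + 1))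
    K (fun ω (a : Fin K) => (adM F c k₀ k n q w W X mm γ G H zw).nc K ω a.succ) (fun a => by
      refine CH_pair_int hp _ _ (by positivity) fun ω ν hω hν e => ?_
      obtain ⟨e1, e2⟩ := Prod.ext_iff.mp e
      exact nc_up hwW hW hK (hZ ω ν hω hν e2) e1 a.succ (by simp))
  have h3 : (K : ℝ) * Real.log (2 * ((K + 1) * 2 ^ K + 1) + 1) ≤ cA K := by
    unfold cA
    have : (0 : ℝ) ≤ (K + 1) * 2 ^ K := by positivity
    have h4 := Real.log_nonneg (show (1 : ℝ) ≤ 2 * ((K + 1) * 2 ^ K + 1) + 1 by linarith)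
    nlinarith
  linarith

/-- The upper digits of the codes of the target. -/
theorem CH_ncd {p : F.Ω → ℝ} (hp : IsLaw p) (hwW : w ≤ W) (hW : W ≤ J) {K : ℕ}
    (hK : ∀ s, (dv w (fun s (_ : Fin m) => H s (k₀ + k)) (c (k₀ + k)) s).natDegree ≤ K) {𝓦 : Type}
    (Z : F.Ω → 𝓦) (hZ : Det p Z (F.T1 W)) {e : ℝ}
    (h : CH p (cod F w (fun s => H s (k₀ + k)) (c (k₀ + k)) (γ (k₀ + k) + q) 0 K) Z ≤ e) :
    CH p (fun ω (a : Fin (K + 1)) => (adM F c k₀ k n q w W X mm γ G H zw).nc K ω a / 2 ^ X) Z ≤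
      e + cA K := by
  have h0 := hp.nonneg
  have h1 := CH_le_add h0 (fun ω (a : Fin (K + 1)) =>
    (adM F c k₀ k n q w W X mm γ G H zw).nc K ω a / 2 ^ X)
    (cod F w (fun s => H s (k₀ + k)) (c (k₀ + k)) (γ (k₀ + k) + q) 0 K) Z
  have h2 := Pool.OWN83.CH_vec (p := p) h0 (fun ω => (cod F w (fun s => H s (k₀ + k))
    (c (k₀ + k)) (γ (k₀ + k) + q) 0 K ω, Z ω)) (c := Real.log (2 * ((K + 1) * 2 ^ K + 1) + 1))
    (K + 1) (fun ω (a : Fin (K + 1)) =>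
      (adM F c k₀ k n q w W X mm γ G H zw).nc K ω a / 2 ^ X) (fun a => by
      refine CH_pair_int hp _ _ (by positivity) fun ω ν hω hν e => ?_
      obtain ⟨e1, e2⟩ := Prod.ext_iff.mp e
      exact ncd_up hwW hW hK (hZ ω ν hω hν e2) e1 a)
  have h3 : ((K + 1 : ℕ) : ℝ) * Real.log (2 * ((K + 1) * 2 ^ K + 1) + 1) = cA K := by
    unfold cA
    push_cast
    ring
  linarith

/-- The height of the target from its far digits. -/
theorem CH_val {p : F.Ω → ℝ} (hp : IsLaw p) (hwW : w ≤ W) (hW : W ≤ J) {𝓦 : Type} (Z : F.Ω → 𝓦)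
    {N : ℕ → ℝ} (hN : ((γ (k₀ + k) + q + X : ℕ) : ℝ) ≤ N 0 * J)
    (hZ : Det p Z (pr2 F c w H (k₀ + k) N)) :
    CH p (fun ω => ⌊(2 : ℝ) ^ X * ((adM F c k₀ k n q w W X mm γ G H zw).P ω).eval
      ((adM F c k₀ k n q w W X mm γ G H zw).th ω)⌋) Z ≤ Real.log 5 := by
  have e1 : ∀ ω, ((adM F c k₀ k n q w W X mm γ G H zw).P ω).eval
      ((adM F c k₀ k n q w W X mm γ G H zw).th ω) =
      2 ^ (γ (k₀ + k) + q) * ojet F (c (k₀ + k)) 0 (H (slam F w ω) (k₀ + k)) ω := by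
    intro ω
    have h1 := jt_adM (c := c) (k₀ := k₀) (k := k) (n := n) (q := q) (X := X) (mm := mm) (γ := γ)
      (G := G) (H := H) (zw := zw) hwW hW ω none 0
    have h2 : jj (adM F c k₀ k n q w W X mm γ G H zw) ω none 0 =
        ((adM F c k₀ k n q w W X mm γ G H zw).P ω).eval
          ((adM F c k₀ k n q w W X mm γ G H zw).th ω) := jt_zero _ _
    rw [← h2, h1]
    simp
  have h3 : (5 : ℝ) = 2 * 2 + 1 := by norm_num
  rw [h3]
  refine CH_pair_int hp _ _ (by norm_num) fun ω ν hω hν e => ?_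
  have e2 := (Prod.ext_iff.mp (hZ ω ν hω hν e)).1
  have e3 := near_of_floor (Real.rpow_pos_of_pos two_pos _) e2
  rw [e1, e1]
  have h5 : |(2 : ℝ) ^ X * (2 ^ (γ (k₀ + k) + q) * ojet F (c (k₀ + k)) 0
      (H (slam F w ω) (k₀ + k)) ω) - 2 ^ X * (2 ^ (γ (k₀ + k) + q) * ojet F (c (k₀ + k)) 0
      (H (slam F w ν) (k₀ + k)) ν)| ≤ 1 := by
    rw [← mul_sub, ← mul_sub, abs_mul, abs_mul, abs_of_pos (by positivity : (0 : ℝ) < 2 ^ X),
      abs_of_pos (by positivity : (0 : ℝ) < 2 ^ (γ (k₀ + k) + q)), ← mul_assoc, ← pow_add,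
      show X + (γ (k₀ + k) + q) = γ (k₀ + k) + q + X by ring]
    have h6 : (2 : ℝ) ^ (γ (k₀ + k) + q + X) ≤ 2 ^ (N 0 * J) := by
      rw [← Real.rpow_natCast]
      exact Real.rpow_le_rpow_of_exponent_le one_le_two hN
    have h7 : (0 : ℝ) < 2 ^ (N 0 * (J : ℝ)) := Real.rpow_pos_of_pos two_pos _
    calc _ ≤ (2 : ℝ) ^ (N 0 * (J : ℝ)) * (1 / 2 ^ (N 0 * (J : ℝ))) :=
          mul_le_mul h6 e3 (abs_nonneg _) h7.le
      _ = 1 := by field_simp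
  have h8 := floor_near' h5
  linarith

end

/-- The constants of the entropies. -/
noncomputable def cE0 (k K : ℕ) (U : ℝ) : ℝ :=
  cA K + (2 * k + 3) * cJ K + Real.log 5 + k * Real.log (2 * (U + 1) + 1) +
    Real.log (2 * (U + 4 * k + 2 * ((K + 1) * (k + 1)) + 1) + 1)

/-- **The inputs** on one event `B` and for one law `p`. `Rj`, `Rx`: the records of the balls `j`,
`x`; `Nf`, `Mf`: the far digits of the base coordinates and of the target; `Nn`, `Mn`: the near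
digits; `Nu`, `Nv`: the digits of the base coordinates in `jt`, `vf`; `V`: near digits of the base
coordinates, `Fv` bits. -/
structure PrA (F : Fam m J) (c : ℕ → Fin m) (k₀ k ks n q w W X mm D K : ℕ) (γ : ℕ → ℕ)
    (B : F.Ω → Prop) (G : ℕ → PtT F → ℕ → MvPolynomial (Option (Fin m)) ℝ)
    (H : LnT F → ℕ → MvPolynomial (Option (Fin m)) ℝ) {ζ : Type} (zw : F.Ω → ζ)
    {ρ₁ ρ₂ υ : Type} (Rj : F.Ω → ρ₁) (Rx : F.Ω → ρ₂) (V : F.Ω → υ)
    (p : F.Ω → ℝ) (Nf Nn Nx Nu Nv : ℕ → ℕ → ℝ) (Mf Mn : ℕ → ℝ) (U Fv e : ℝ) : Prop where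
  law : IsLaw p
  sup : ∀ ω, 0 < p ω → B ω
  gd : Gd F
  wW : w ≤ W
  WJ : W ≤ J
  deg : ∀ s l, (H s l).totalDegree ≤ D
  DK : D + 1 ≤ K
  KX : (K : ℝ) ≤ 2 ^ (X + mm)
  adw : AdW F c k₀ k n q W γ B G (fun s => H (upw w W s)) (adM F c k₀ k n q w W X mm γ G H zw)
  grd : GrdE F c k₀ (k₀ + k) ks n q X γ U B G
  mU : U + 1 ≤ 2 ^ mm
  ti : MI p (adM F c k₀ k n q w W X mm γ G H zw).th ((adM F c k₀ k n q w W X mm γ G H zw).L K)
    ((adM F c k₀ k n q w W X mm γ G H zw).g K) ≤ e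
  mj : MI p Rj (fun ω => (jet2 F c w H k₀ (k₀ + k) Nf ω, pr2 F c w H (k₀ + k) Mf ω))
    (fun ω => ((jet2 F c w H k₀ (k₀ + k) Nn ω, pr2 F c w H (k₀ + k) Mn ω),
      (zw ω, yv c k₀ J F ω))) ≤ e
  mx : MI p Rx (jet2 F c w H k₀ (k₀ + k) Nf)
    (fun ω => (jet2 F c w H k₀ (k₀ + k) Nx ω, (zw ω, yv c k₀ J F ω))) ≤ e
  chj : CH p (chs F (k₀ + k) ks G) Rj ≤ e
  chx : CH p (chs F (k₀ + k) n G) Rx ≤ e
  zx : CH p zw Rx ≤ e
  n0 : ∀ l, k₀ ≤ l → l < k₀ + k → Nn l 0 * J ≤ (γ l + q : ℕ)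
  n1 : ∀ l, k₀ ≤ l → l < k₀ + k → Nn l 1 * J + W ≤ (γ l + q + (X + mm) : ℕ)
  x0 : ∀ l, k₀ ≤ l → l < k₀ + k → Nx l 0 * J ≤ (γ l + q : ℕ)
  x1 : ∀ l, k₀ ≤ l → l < k₀ + k → Nx l 1 * J + W ≤ (γ l + q + (X + mm) : ℕ)
  u0 : ∀ l, k₀ ≤ l → l < k₀ + k → Nu l 0 * J ≤ (γ l + q : ℕ)
  u1 : ∀ l, k₀ ≤ l → l < k₀ + k → Nu l 1 * J + W ≤ (γ l + q + (X + mm) : ℕ)
  m0 : Mn 0 * J ≤ (γ (k₀ + k) + q : ℕ)
  m1 : Mn 1 * J + W ≤ (γ (k₀ + k) + q : ℕ)
  mf : ((γ (k₀ + k) + q + X : ℕ) : ℝ) ≤ Mf 0 * J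
  ac : CH p ((adM F c k₀ k n q w W X mm γ G H zw).ac K) (fun ω =>
    (jet2 F c w H k₀ (k₀ + k) Nf ω, ((adM F c k₀ k n q w W X mm γ G H zw).th ω,
      (adM F c k₀ k n q w W X mm γ G H zw).z ω))) ≤ e
  va : CH p (fun ω => ((adM F c k₀ k n q w W X mm γ G H zw).v K ω).2) (fun ω =>
    (jet2 F c w H k₀ (k₀ + k) Nv ω, ((adM F c k₀ k n q w W X mm γ G H zw).th ω,
      (adM F c k₀ k n q w W X mm γ G H zw).z ω))) ≤ e
  dj : CH p (cod F w (fun s => H s (k₀ + k)) (c (k₀ + k)) (γ (k₀ + k) + q + X) 1 K)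
    (fun ω => (jet2 F c w H k₀ (k₀ + k) Nf ω, (zw ω, yv c k₀ J F ω))) ≤ e
  jt : CH p (cod F w (fun s => H s (k₀ + k)) (c (k₀ + k)) (γ (k₀ + k) + q) 0 K)
    (fun ω => (jet2 F c w H k₀ (k₀ + k) Nu ω, (Rx ω, yv c k₀ J F ω))) ≤ e
  vf : Fv - e ≤ CH p V (fun ω => (jet2 F c w H k₀ (k₀ + k) Nv ω, (Rx ω, yv c k₀ J F ω)))

section

variable {F : Fam m J} {c : ℕ → Fin m} {k₀ k ks n q w W X mm D K : ℕ} {γ : ℕ → ℕ}
  {B : F.Ω → Prop} {G : ℕ → PtT F → ℕ → MvPolynomial (Option (Fin m)) ℝ}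
  {H : LnT F → ℕ → MvPolynomial (Option (Fin m)) ℝ} {ζ : Type} {zw : F.Ω → ζ}
  {ρ₁ ρ₂ υ : Type} {Rj : F.Ω → ρ₁} {Rx : F.Ω → ρ₂} {V : F.Ω → υ} {M : F.Ω → ℤ}
  {p : F.Ω → ℝ} {Nf Nn Nx Nu Nv : ℕ → ℕ → ℝ} {Mf Mn : ℕ → ℝ} {U Fv e : ℝ}

/-- **`AD.Hyp` for `adM`.** -/
theorem PrA.hyp (P : PrA F c k₀ k ks n q w W X mm D K γ B G H zw Rj Rx V p Nf Nn
      Nx Nu Nv Mf Mn U Fv e) {π₀ Ur Bq eV : ℝ} {h : ℕ} (hB0 : 0 ≤ Bq) (heV : 0 ≤ eV)
    (hvb : ∀ q' : F.Ω → ℝ, IsLaw q' → (∀ ω, 0 < q' ω → 0 < p ω) →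
      CH q' V (fun ω => ((adM F c k₀ k n q w W X mm γ G H zw).T ω,
        (adM F c k₀ k n q w W X mm γ G H zw).g K ω)) ≤ Fv + eV)
    (hvy : CH p V (fun ω => ((adM F c k₀ k n q w W X mm γ G H zw).Y K ω,
        ((adM F c k₀ k n q w W X mm γ G H zw).th ω,
          (adM F c k₀ k n q w W X mm γ G H zw).g K ω))) ≤
      Fv + eV - k * X * Real.log 2)
    (hqv : ∀ ω ω', 0 < p ω → 0 < p ω' → V ω = V ω' →
      (adM F c k₀ k n q w W X mm γ G H zw).T ω = (adM F c k₀ k n q w W X mm γ G H zw).T ω' →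
      (adM F c k₀ k n q w W X mm γ G H zw).g K ω =
        (adM F c k₀ k n q w W X mm γ G H zw).g K ω' →
      |((adM F c k₀ k n q w W X mm γ G H zw).Q ω - M ω) -
        ((adM F c k₀ k n q w W X mm γ G H zw).Q ω' - M ω')| ≤ Bq)
    (hrow : ∀ j : ℕ, (j + 1) * h ≤ X → ∀ E : Set F.Ω, π₀ ≤ Pr p E →
      CH (rs p E) (fun ω => M ω / 2 ^ (X - (j + 1) * h))
        (fun ω => (M ω / 2 ^ (X - j * h), (V ω,
          ((adM F c k₀ k n q w W X mm γ G H zw).T ω,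
            (adM F c k₀ k n q w W X mm γ G H zw).g K ω)))) ≤ Ur) :
    (adM F c k₀ k n q w W X mm γ G H zw).Hyp K p Rj Rx
      (fun ω => (jet2 F c w H k₀ (k₀ + k) Nn ω, pr2 F c w H (k₀ + k) Mn ω))
      (jet2 F c w H k₀ (k₀ + k) Nx)
      (fun ω => (jet2 F c w H k₀ (k₀ + k) Nf ω, pr2 F c w H (k₀ + k) Mf ω))
      (jet2 F c w H k₀ (k₀ + k) Nf) V M (Fv + eV) (3 * e + cE0 k K U + eV) Bq Ur π₀ h := by
  have hp := P.law
  have h0 := hp.nonneg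
  have hwW := P.wW
  have hW := P.WJ
  have he : 0 ≤ e := (CH_nonneg h0 _ _).trans P.chj
  have hU := P.grd.U0
  have hcJ := cJ_nonneg K
  have hcA := cA_nonneg K
  have hl5 : 0 ≤ Real.log 5 := Real.log_nonneg (by norm_num)
  have hlU : 0 ≤ Real.log (2 * (U + 1) + 1) := Real.log_nonneg (by linarith)
  have hkU : 0 ≤ k * Real.log (2 * (U + 1) + 1) := by positivity
  have hlN : 0 ≤ Real.log (2 * (U + 4 * k + 2 * ((K + 1) * (k + 1)) + 1) + 1) := by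
    refine Real.log_nonneg ?_
    have : (0 : ℝ) ≤ 4 * k + 2 * ((K + 1) * (k + 1)) := by positivity
    linarith
  have hkJ : 0 ≤ (2 * (k : ℝ) + 3) * cJ K := by positivity
  have hk2 : 0 ≤ 2 * (k : ℝ) * cJ K := by positivity
  have hkJ' : (2 * (k : ℝ) + 3) * cJ K = 2 * k * cJ K + 3 * cJ K := by ring
  have hE0 : cE0 k K U = cA K + (2 * k + 3) * cJ K + Real.log 5 +
    k * Real.log (2 * (U + 1) + 1) +
    Real.log (2 * (U + 4 * k + 2 * ((K + 1) * (k + 1)) + 1) + 1) := rfl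
  obtain ⟨d, hd⟩ : ∃ d, d = adM F c k₀ k n q w W X mm γ G H zw := ⟨_, rfl⟩
  have hX : d.X = X := by rw [hd]; rfl
  have hm : d.m = mm := by rw [hd]; rfl
  have hPth : Pth d K p := by
    rw [hd]
    exact adM_pth hp P.deg P.DK hW
  have hyz : Det p (fun ω => (d.th ω, d.z ω)) (fun ω => (zw ω, yv c k₀ J F ω)) := by
    rw [hd]
    exact adM_yz hW p
  have hzy : Det p (fun ω => (zw ω, yv c k₀ J F ω)) (fun ω => (d.th ω, d.z ω)) := by
    rw [hd]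
    exact adM_zy P.gd hW p
  have hT1 : Det p d.z (F.T1 W) := by
    intro ω ν _ _ e
    rw [hd] at e
    have e1 := (Prod.ext_iff.mp (Prod.ext_iff.mp e).2).1
    exact (Prod.ext_iff.mp e1).2
  have hdeg : ∀ s, (dv w (fun s (_ : Fin m) => H s (k₀ + k)) (c (k₀ + k)) s).natDegree ≤ K :=
    fun s => (natDegree_dv w (G := fun s (_ : Fin m) => H s (k₀ + k)) (fun s _ => P.deg s _) _
      s).trans P.DK
  have hadw := P.adw
  have hgrd := P.grd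
  have hti := P.ti
  have hac := P.ac
  have hva := P.va
  have f_nc := fun (𝓦 : Type) (Z : F.Ω → 𝓦) (hZ : Det p Z (F.T1 W)) (e : ℝ) => CH_nc (c := c)
    (k₀ := k₀) (k := k) (n := n) (q := q) (X := X) (mm := mm) (γ := γ) (G := G) (zw := zw) hp hwW
    hW hdeg Z hZ (e := e)
  have f_ncd := fun (𝓦 : Type) (Z : F.Ω → 𝓦) (hZ : Det p Z (F.T1 W)) (e : ℝ) => CH_ncd (c := c)
    (k₀ := k₀) (k := k) (n := n) (q := q) (X := X) (mm := mm) (γ := γ) (G := G) (zw := zw) hp hwW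
    hW hdeg Z hZ (e := e)
  have f_val := fun (𝓦 : Type) (Z : F.Ω → 𝓦) (hZ : Det p Z (pr2 F c w H (k₀ + k) Mf)) =>
    CH_val (c := c) (k₀ := k₀) (k := k) (n := n) (q := q) (X := X) (mm := mm) (γ := γ) (G := G)
      (H := H) (zw := zw) hp hwW hW Z P.mf hZ
  have jn := jet2_v (c := c) (k₀ := k₀) (k := k) (n := n) (q := q) (X := X) (mm := mm) (γ := γ)
    (G := G) (zw := zw) hp P.deg P.DK hwW hW P.n0 P.n1
  have jx := jet2_v (c := c) (k₀ := k₀) (k := k) (n := n) (q := q) (X := X) (mm := mm) (γ := γ)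
    (G := G) (zw := zw) hp P.deg P.DK hwW hW P.x0 P.x1
  have ju := jet2_v (c := c) (k₀ := k₀) (k := k) (n := n) (q := q) (X := X) (mm := mm) (γ := γ)
    (G := G) (zw := zw) hp P.deg P.DK hwW hW P.u0 P.u1
  have pn := prN_g (c := c) (k₀ := k₀) (k := k) (n := n) (q := q) (X := X) (mm := mm) (γ := γ)
    (G := G) (zw := zw) hp P.deg P.DK hwW hW P.m0 P.m1
  rw [← hd] at hadw hti hac hva jn jx ju pn hvb hvy hqv hrow ⊢
  simp only [← hd] at f_nc f_ncd f_val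
  have hth : ∀ ω, 0 < p ω → 0 ≤ d.th ω ∧ d.th ω < 1 := hPth.th
  have hA : ∀ ω, 0 < p ω → ∀ j, (d.A ω j).natDegree ≤ K := hPth.dA
  have hPd : ∀ ω, 0 < p ω → (d.P ω).natDegree ≤ K := hPth.dP
  have hKX : (K : ℝ) ≤ 2 ^ (d.X + d.m) := by
    rw [hX, hm]
    exact P.KX
  have hgrd' : GrdE F c k₀ (k₀ + k) ks n q d.X γ U B G := by
    rw [hX]
    exact hgrd
  have hbm : ∀ ω, B ω → ∀ j, |d.bb ω j| ≤ U + 1 := fun ω hω j => hadw.bm hgrd' hω j
  have hgv : Det p (fun ω => (d.th ω, d.g K ω)) (fun ω => (d.th ω, d.v K ω)) :=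
    fun ω ν a b e => Prod.ext (Prod.ext_iff.mp e).1
      (AD.det_wv p ω ν a b (AD.det_gw p ω ν a b (Prod.ext_iff.mp e).2))
  have hwv : Det p (fun ω => (d.th ω, d.w K ω)) (fun ω => (d.th ω, d.v K ω)) :=
    fun ω ν a b e => Prod.ext (Prod.ext_iff.mp e).1
      (AD.det_wv p ω ν a b (Prod.ext_iff.mp e).2)
  -- the higher codes of the target from the far digits
  have hnc : CH p (fun ω (a : Fin K) => d.nc K ω a.succ)
      (fun ω => (jet2 F c w H k₀ (k₀ + k) Nf ω, (d.th ω, d.z ω))) ≤ e + cA K := by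
    refine f_nc _ _ (fun ω ν a b e => hT1 ω ν a b ?_) e ?_
    · exact (Prod.ext_iff.mp (Prod.ext_iff.mp e).2).2
    · refine le_trans (CH_mono_cond h0 fun ω ν a b e => ?_) P.dj
      exact Prod.ext (Prod.ext_iff.mp e).1 (hyz ω ν a b (Prod.ext_iff.mp e).2)
  refine
    { law := hp
      th := hth
      dP := hPd
      dA := hA
      bm := fun ω hω j => by
        rw [hm]
        exact (hbm ω (P.sup ω hω) j).trans P.mU
      ti := by linarith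
      mj := ?_
      fj := ?_
      Lj := ?_
      bbj := ?_
      mx := ?_
      fx := ?_
      Lx := ?_
      bbx := ?_
      jt := ?_
      Nx := ?_
      vf := ?_
      vb := ?_
      vy := ?_
      B0 := hB0
      qv := ?_
      row := ?_ }
  · -- mj
    have e1 : MI p Rj (fun ω => (jet2 F c w H k₀ (k₀ + k) Nf ω, pr2 F c w H (k₀ + k) Mf ω))
        (fun ω => ((jet2 F c w H k₀ (k₀ + k) Nn ω, pr2 F c w H (k₀ + k) Mn ω),
          (d.th ω, d.z ω))) = MI p Rj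
        (fun ω => (jet2 F c w H k₀ (k₀ + k) Nf ω, pr2 F c w H (k₀ + k) Mf ω))
        (fun ω => ((jet2 F c w H k₀ (k₀ + k) Nn ω, pr2 F c w H (k₀ + k) Mn ω),
          (zw ω, yv c k₀ J F ω))) := by
      refine MI_cond h0 _ _ (fun ω ν a b e => ?_) (fun ω ν a b e => ?_)
      · exact Prod.ext (Prod.ext_iff.mp e).1 (hyz ω ν a b (Prod.ext_iff.mp e).2)
      · exact Prod.ext (Prod.ext_iff.mp e).1 (hzy ω ν a b (Prod.ext_iff.mp e).2)
    rw [e1]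
    have := P.mj
    linarith
  · -- fj
    have h1 := CH_subadd h0 (jet2 F c w H k₀ (k₀ + k) Nn) (pr2 F c w H (k₀ + k) Mn)
      (fun ω => (d.th ω, d.g K ω))
    have h2 : CH p (jet2 F c w H k₀ (k₀ + k) Nn) (fun ω => (d.th ω, d.g K ω)) ≤
        CH p (jet2 F c w H k₀ (k₀ + k) Nn) (fun ω => (d.th ω, d.v K ω)) := CH_mono_cond h0 hgv
    linarith
  · -- Lj
    have hN : CH p (fun ω => ⌊(2 : ℝ) ^ d.X * (d.P ω).eval (d.th ω)⌋)
        (fun ω => ((jet2 F c w H k₀ (k₀ + k) Nf ω, pr2 F c w H (k₀ + k) Mf ω),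
          ((jet2 F c w H k₀ (k₀ + k) Nn ω, pr2 F c w H (k₀ + k) Mn ω), (d.th ω, d.z ω)))) ≤
        Real.log 5 := by
      rw [hX]
      exact f_val _ _ (fun ω ν a b e => (Prod.ext_iff.mp (Prod.ext_iff.mp e).1).2)
    have h1 := Lj_of hPth hac hnc hN
    linarith
  · -- bbj
    have h1 := hadw.bbj hW hgrd' hp P.sup hth hA hKX Rj
    have := P.chj
    linarith
  · -- mx
    have e1 : MI p Rx (jet2 F c w H k₀ (k₀ + k) Nf) (fun ω => (jet2 F c w H k₀ (k₀ + k) Nx ω,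
        (d.th ω, d.z ω))) = MI p Rx (jet2 F c w H k₀ (k₀ + k) Nf)
        (fun ω => (jet2 F c w H k₀ (k₀ + k) Nx ω, (zw ω, yv c k₀ J F ω))) := by
      refine MI_cond h0 _ _ (fun ω ν a b e => ?_) (fun ω ν a b e => ?_)
      · exact Prod.ext (Prod.ext_iff.mp e).1 (hyz ω ν a b (Prod.ext_iff.mp e).2)
      · exact Prod.ext (Prod.ext_iff.mp e).1 (hzy ω ν a b (Prod.ext_iff.mp e).2)
    rw [e1]
    have := P.mx
    linarith
  · -- fx
    have h2 : CH p (jet2 F c w H k₀ (k₀ + k) Nx) (fun ω => (d.th ω, d.w K ω)) ≤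
        CH p (jet2 F c w H k₀ (k₀ + k) Nx) (fun ω => (d.th ω, d.v K ω)) := CH_mono_cond h0 hwv
    linarith
  · -- Lx
    have h1 := Lx_of (n := jet2 F c w H k₀ (k₀ + k) Nx) h0 hac hnc
    linarith
  · -- bbx
    have h1 := hadw.bbx hW hgrd' hp P.sup hth hA hKX Rx
    have := P.chx
    linarith
  · -- jt
    have h1 : CH p (cod F w (fun s => H s (k₀ + k)) (c (k₀ + k)) (γ (k₀ + k) + q) 0 K)
        (fun ω => (Rx ω, (d.th ω, d.v K ω))) ≤ 2 * k * cJ K + e := by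
      refine CH_via h0 _ (jet2 F c w H k₀ (k₀ + k) Nu) (W' := fun ω =>
        (jet2 F c w H k₀ (k₀ + k) Nu ω, (Rx ω, yv c k₀ J F ω))) (le_trans (CH_mono_cond h0
          fun ω ν _ _ e => (Prod.ext_iff.mp e).2) ju) P.jt (fun ω ν a b e => ?_)
      obtain ⟨e1, e2⟩ := Prod.ext_iff.mp e
      obtain ⟨e3, e4⟩ := Prod.ext_iff.mp e2
      obtain ⟨e5, e6⟩ := Prod.ext_iff.mp e4
      have e7 := hyz ω ν a b (Prod.ext e5 (Prod.ext_iff.mp e6).1)
      exact Prod.ext e1 (Prod.ext e3 (Prod.ext_iff.mp e7).2)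
    have h2 := f_ncd _ _ (fun ω ν a b e => hT1 ω ν a b
      (Prod.ext_iff.mp (Prod.ext_iff.mp (Prod.ext_iff.mp e).2).2).1) _ h1
    rw [← hX] at h2
    linarith
  · -- Nx
    have h1 := hadw.Nx hW hgrd' hp P.sup hth hPd hA hKX (by
      rw [hm]
      exact P.mU) Rx
    have := P.chx
    linarith
  · -- vf
    obtain ⟨W', hW'⟩ : ∃ W' : F.Ω → _, W' = fun ω =>
        (jet2 F c w H k₀ (k₀ + k) Nv ω, (Rx ω, yv c k₀ J F ω)) := ⟨_, rfl⟩
    have h1 := P.vf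
    rw [← hW'] at h1
    have h2 := CH_le_add h0 V (fun ω => (zw ω, (d.v K ω).2)) W'
    have h3 : CH p (fun ω => (zw ω, (d.v K ω).2)) W' ≤ e + e := by
      have a1 := CH_chain h0 (fun ω => (d.v K ω).2) zw W'
      have a2 : CH p (fun ω => (zw ω, (d.v K ω).2)) W' ≤
          CH p (fun ω => ((d.v K ω).2, zw ω)) W' := CH_mono_left h0 fun ω ν _ _ e => by
        obtain ⟨e1, -⟩ := Prod.ext_iff.mp e
        exact Prod.ext (Prod.ext_iff.mp e1).2 (Prod.ext_iff.mp e1).1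
      have a3 : CH p zw W' ≤ CH p zw Rx := CH_mono_cond h0 fun ω ν _ _ e => by
        rw [hW'] at e
        exact (Prod.ext_iff.mp (Prod.ext_iff.mp e).2).1
      have a4 : CH p (fun ω => (d.v K ω).2) (fun ω => (zw ω, W' ω)) ≤
          CH p (fun ω => (d.v K ω).2) (fun ω => (jet2 F c w H k₀ (k₀ + k) Nv ω,
            (d.th ω, d.z ω))) := CH_mono_cond h0 fun ω ν a b e => by
        obtain ⟨e1, e2⟩ := Prod.ext_iff.mp e
        rw [hW'] at e2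
        obtain ⟨e3, e4⟩ := Prod.ext_iff.mp e2
        exact Prod.ext e3 (hzy ω ν a b (Prod.ext e1 (Prod.ext_iff.mp e4).2))
      have := P.zx
      linarith
    have h4 : CH p V (fun ω => ((zw ω, (d.v K ω).2), W' ω)) ≤
        CH p V (fun ω => (Rx ω, (d.th ω, d.v K ω))) :=
      CH_mono_cond h0 fun ω ν a b e => by
        obtain ⟨e1, e2⟩ := Prod.ext_iff.mp e
        obtain ⟨e3, e4⟩ := Prod.ext_iff.mp e1
        rw [hW'] at e2
        obtain ⟨e5, e6⟩ := Prod.ext_iff.mp e2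
        obtain ⟨e7, e8⟩ := Prod.ext_iff.mp e6
        obtain ⟨e9, e10⟩ := Prod.ext_iff.mp (hzy ω ν a b (Prod.ext e3 e8))
        exact Prod.ext e7 (Prod.ext e9 (Prod.ext e10 e4))
    linarith
  · -- vb
    exact hvb
  · -- vy
    rw [hX]
    linarith
  · -- qv
    exact hqv
  · -- row
    rw [hX]
    exact hrow

end

end Pool.AVG57
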