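import Pool.Agent.H57.AVG.Vu
import Pool.Agent.H23.D2.Grd3
import Pool.Agent.H4.D2.Dif

/-!
# The links `Lk`, `Lk0` and the field `qv` for any number of moved coordinates

`AdF`: the own paths `AdW` over a window `w` together with the frame of the coordinates `c' l`,
`l ≤ r`, over a window `wf` (the target is `c' r`), whose charts are natural. `AdF.lk`, `AdF.lk0`: the links. `AdF.vb`,
`AdF.vy`, `AdF.qv`: the fields.
-/

set_option autoImplicit false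

namespace Pool.AVG57

open Finset Real MvPolynomial
open Pool.Agent.H49.Ent Pool.Agent.H32.Dense Pool.STK Pool.KA Pool.KSAT Pool.K2S Pool.PB Pool.S6C
open Pool.GEN Pool.CHT Pool.CHX Pool.ISO Pool.LA91 Pool.AVG71 Pool.D2F2
open Pool.PB.Trl (rt rt_mem t_rt)
open Pool.D2R (AdW hgt)
open Pool.D2F (cv CvC)

variable {m J : ℕ}

/-- A part of a natural box. -/
theorem gw_cut {F : Fam m J} {c : ℕ → Fin m} {g : ℕ → ℕ} {W k r r' : ℕ}
    {ψH : LnT F → ℕ → Option (Fin m) → ℝ} {G : PtT F → ℕ → MvPolynomial (Option (Fin m)) ℝ}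
    {B : F.Ω → Prop} (h : Gw F c g W k r ψH G B) (hr : r' ≤ r) : Gw F c g W k r' ψH G B where
  inj := h.inj.mono (Set.Iio_subset_Iio hr)
  depG := h.depG
  pos := fun ω hω l hl => h.pos ω hω l (by omega)
  nat := fun l hl => h.nat l (by omega)
  frm := fun ω hω l hl => h.frm ω hω l (by omega)

/-- The data of a smaller frame. -/
def cutD {F : Fam m J} {κ : Type} {r D : ℕ} (d : Dat F κ r D) (r' : ℕ) : Dat F κ r' D :=
  ⟨d.fc, d.P, d.gp, d.SV, d.SE, d.SG, d.P1, d.gD⟩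

/-- **The own paths over a window and the frame** of the coordinates `c' l`, `l ≤ r`. -/
structure AdF (F : Fam m J) (c c' : ℕ → Fin m) (k₀ k n q w wf : ℕ) (γ g : ℕ → ℕ) (B : F.Ω → Prop)
    (G : ℕ → PtT F → ℕ → MvPolynomial (Option (Fin m)) ℝ)
    (H₀ : LnT F → ℕ → MvPolynomial (Option (Fin m)) ℝ)
    (G' : PtT F → ℕ → MvPolynomial (Option (Fin m)) ℝ)
    (ψH : LnT F → ℕ → Option (Fin m) → ℝ) (kk r : ℕ) {β : Type} (d : AD F.Ω β k) {D : ℕ}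
    (Df : Dat F (ℕ → Option (Fin m) → ℝ) r D) : Prop where
  adw : AdW F c k₀ k n q w γ B G H₀ d
  hw : w ≤ J
  kr : k₀ + k ≤ r
  cl : ∀ l < k₀ + k, c' l = c l
  cr : c' r = c (k₀ + k)
  gl : ∀ l < k₀ + k, g l = γ l
  gr : g r = γ (k₀ + k)
  Gl : ∀ y, ∀ l < k₀ + k, G' y l = G 0 y l
  Gr : ∀ y, G' y r = G 0 y (k₀ + k)
  gw : Gw F c' g wf kk (r + 1) ψH G' B
  dv : ∀ l ≤ r, ∀ ω ω', F.T ω = F.T ω' → ψH (slam F wf ω) = ψH (slam F wf ω') →
      Df.v wf l ω' - Df.v wf l ω = (bt F ω' - bt F ω) (some (c' l)) -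
        cv (ψH (slam F wf ω) l) (bt F ω' - bt F ω)
  zψ : ∀ ω ν, B ω → B ν → d.z ω = d.z ν → ψH (slam F wf ω) = ψH (slam F wf ν)
  zG : ∀ ω ν, B ω → B ν → d.z ω = d.z ν → ∀ l ≤ r, G' (ptr F J ω) l = G' (ptr F J ν) l

section

variable {F : Fam m J} {c c' : ℕ → Fin m} {k₀ k n q w wf : ℕ} {γ g : ℕ → ℕ} {B : F.Ω → Prop}
  {G : ℕ → PtT F → ℕ → MvPolynomial (Option (Fin m)) ℝ}
  {H₀ : LnT F → ℕ → MvPolynomial (Option (Fin m)) ℝ}
  {G' : PtT F → ℕ → MvPolynomial (Option (Fin m)) ℝ}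
  {ψH : LnT F → ℕ → Option (Fin m) → ℝ} {kk r : ℕ} {β : Type} {d : AD F.Ω β k} {D : ℕ}
  {Df : Dat F (ℕ → Option (Fin m) → ℝ) r D}

/-- The time. -/
theorem AdF.tm (h : AdF F c c' k₀ k n q w wf γ g B G H₀ G' ψH kk r d Df) {ω ν : F.Ω} (hω : B ω)
    (hν : B ν) (hz : d.z ω = d.z ν) (hth : d.th ω = d.th ν) : F.T ω = F.T ν := by
  have h0 := h.adw.time h.hw hω hν hz hth
  have h1 : (F.T ω : ℝ) / 2 ^ J = (F.T ν : ℝ) / 2 ^ J := h0
  have h2 : (F.T ω : ℝ) = F.T ν := by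
    field_simp at h1
    exact h1
  exact_mod_cast h2

/-- The heights of the first coordinates. -/
theorem AdF.hg (h : AdF F c c' k₀ k n q w wf γ g B G H₀ G' ψH kk r d Df) {l : ℕ} (hl : l < k₀ + k)
    (ω : F.Ω) : hgc F c' G' l ω = hgt F c (G 0) ω l := by
  unfold hgc hgt
  rw [h.cl l hl, h.Gl _ l hl]

/-- The height of the target. -/
theorem AdF.hN (h : AdF F c c' k₀ k n q w wf γ g B G H₀ G' ψH kk r d Df) (ω : F.Ω) :
    hgc F c' G' r ω = hgt F c (G 0) ω (k₀ + k) := by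
  unfold hgc hgt
  rw [h.cr, h.Gr]

/-- The heights of the exact coordinates. -/
theorem AdF.h0 (h : AdF F c c' k₀ k n q w wf γ g B G H₀ G' ψH kk r d Df) {ω ν : F.Ω} (hω : B ω)
    (hν : B ν) (hz : d.z ω = d.z ν) (hth : d.th ω = d.th ν) {l : ℕ} (hl : l < k₀) :
    hgc F c' G' l ν = hgc F c' G' l ω := by
  have hx := h.adw.pos h.hw hω hν hz hth
  have ht := h.adw.time h.hw hω hν hz hth
  have hk := h.kr
  have e1 : ∀ j < k₀, F.x ω (c' j) = F.x ν (c' j) := fun j hj => by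
    rw [h.cl j (by omega), hx j hj]
  unfold hgc
  rw [← h.zG ω ν hω hν hz l (by omega), e1 l hl]
  congr 1
  exact (h.gw.depG (ptr F J ω) l (bt F ω) (bt F ν) ht fun j hj => e1 j (by omega)).symm

/-- **Near heights and near coordinates in the frame** for the first `r'` coordinates. -/
theorem AdF.mix (h : AdF F c c' k₀ k n q w wf γ g B G H₀ G' ψH kk r d Df) {r' : ℕ} (hr : r' ≤ r)
    {ω ν : F.Ω} (hω : B ω) (hν : B ν) (hz : d.z ω = d.z ν) (hth : d.th ω = d.th ν) {M : ℝ}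
    (hM : 0 ≤ M) (hh : ∀ l < r', 2 ^ g l * |Df.v wf l ν - Df.v wf l ω| ≤ M ∨
      2 ^ g l * |hgc F c' G' l ν - hgc F c' G' l ω| ≤ M) :
    ∀ l < r', 2 ^ g l * |Df.v wf l ν - Df.v wf l ω| ≤
        (((2 * r + 2) * 2 ^ kk : ℝ)) ^ ((r + 4) * r) * M ∧
      2 ^ g l * |hgc F c' G' l ν - hgc F c' G' l ω| ≤
        (((2 * r + 2) * 2 ^ kk : ℝ)) ^ ((r + 4) * r) * M := by
  have hT := h.tm hω hν hz hth
  have hr' : (r' : ℝ) ≤ r := by exact_mod_cast hr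
  have hk2 : (0 : ℝ) < 2 ^ kk := by positivity
  have hY : (2 * (r' : ℝ) + 2) * 2 ^ kk ≤ (2 * r + 2) * 2 ^ kk :=
    mul_le_mul_of_nonneg_right (by linarith) hk2.le
  have h1 := (gw_cut h.gw (show r' ≤ r + 1 by omega)).mix (d := cutD Df r')
    (fun l hl ω ω' e1 e2 => h.dv l (by omega) ω ω' e1 e2) hY hω hν hT (h.zψ ω ν hω hν hz)
    (fun l hl => h.zG ω ν hω hν hz l (by omega)) hM hh
  have hY1 : (1 : ℝ) ≤ (2 * r + 2) * 2 ^ kk := by
    have h2 : (1 : ℝ) ≤ 2 ^ kk := one_le_pow₀ (by norm_num)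
    have h3 : (0 : ℝ) ≤ r := Nat.cast_nonneg r
    nlinarith
  have h2 : (((2 * r + 2) * 2 ^ kk : ℝ)) ^ ((r' + 4) * r') ≤
      (((2 * r + 2) * 2 ^ kk : ℝ)) ^ ((r + 4) * r) :=
    pow_le_pow_right₀ hY1 (Nat.mul_le_mul (by omega) hr)
  have h3 := mul_le_mul_of_nonneg_right h2 hM
  exact fun l hl => ⟨(h1 l hl).1.trans h3, (h1 l hl).2.trans h3⟩

/-- The place of a moved coordinate. -/
def pl (k₀ : ℕ) {k r : ℕ} (hkr : k₀ + k ≤ r) (j : Fin k) : Fin r := ⟨k₀ + j, by omega⟩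

theorem pl_inj (k₀ : ℕ) {k r : ℕ} (hkr : k₀ + k ≤ r) : Function.Injective (pl k₀ hkr) := by
  intro i j e
  have : k₀ + (i : ℕ) = k₀ + j := congrArg Fin.val e
  exact Fin.ext (by omega)

/-- **The link** for all moved coordinates. -/
theorem AdF.lk (h : AdF F c c' k₀ k n q w wf γ g B G H₀ G' ψH kk r d Df) {p : F.Ω → ℝ}
    (hpB : ∀ ω, 0 < p ω → B ω) {v : ℕ → ℕ}
    (hv : ∀ l, k₀ ≤ l → l < k₀ + k → v l ≤ g l + q + d.m) {K : ℕ} :
    Lk d K Df wf (pl k₀ h.kr) p v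
      ((((2 * r + 2) * 2 ^ kk : ℝ)) ^ ((r + 4) * r) * (K + 1)) := by
  intro ω ν hω hν hth hg hA j
  have hz : d.z ω = d.z ν := (Prod.ext_iff.mp hg).1
  have hkr := h.kr
  have hj := j.2
  obtain ⟨C, hC⟩ : ∃ C : ℝ, C = (((2 * r + 2) * 2 ^ kk : ℝ)) ^ ((r + 4) * r) := ⟨_, rfl⟩
  have hs : (0 : ℝ) < 2 ^ (d.X + d.m) := by positivity
  have h1 := h.mix hkr (hpB ω hω) (hpB ν hν) hz hth
    (M := (K + 1) / 2 ^ (d.X + d.m) / 2 ^ q) (by positivity) (fun l hl => by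
      right
      rcases Nat.lt_or_ge l k₀ with h2 | h2
      · rw [h.h0 (hpB ω hω) (hpB ν hν) hz hth h2, sub_self, abs_zero, mul_zero]
        positivity
      · obtain ⟨i, rfl⟩ : ∃ i : Fin k, l = k₀ + i := ⟨⟨l - k₀, by omega⟩, by
          show l = k₀ + (l - k₀)
          omega⟩
        have e1 := h.adw.valA h.hw (hpB ω hω) i
        have e2 := h.adw.valA h.hw (hpB ν hν) i
        have e3 := hA i
        rw [e1, e2, ← mul_sub, abs_mul, abs_of_pos (by positivity)] at e3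
        rw [h.hg hl, h.hg hl, h.gl _ hl, abs_sub_comm, le_div_iff₀ (by positivity)]
        rw [pow_add] at e3
        linarith) (k₀ + j) (by omega)
  have h2 := h1.1
  rw [← hC] at h2
  have hC0 : 0 ≤ C := by
    rw [hC]
    positivity
  have e4 : ((pl k₀ h.kr j : Fin r) : ℕ) = k₀ + j := rfl
  rw [← hC, ← mul_sub, abs_mul, abs_of_pos (by positivity), abs_sub_comm, e4]
  have h3 : (2 : ℝ) ^ (v (k₀ + j) + d.X) ≤ 2 ^ g (k₀ + j) * (2 ^ (d.X + d.m) * 2 ^ q) := by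
    rw [← pow_add, ← pow_add]
    refine pow_le_pow_right₀ (by norm_num) ?_
    have := hv (k₀ + j) (by omega) (by omega)
    omega
  refine (mul_le_mul_of_nonneg_right h3 (abs_nonneg _)).trans ?_
  have h4 := mul_le_mul_of_nonneg_right h2 (by positivity : (0 : ℝ) ≤ 2 ^ (d.X + d.m) * 2 ^ q)
  refine le_trans (le_of_eq (by ring)) (h4.trans (le_of_eq ?_))
  field_simp

/-- **Equal contexts: near coordinates in the frame.** -/
theorem AdF.lk0 (h : AdF F c c' k₀ k n q w wf γ g B G H₀ G' ψH kk r d Df) {p : F.Ω → ℝ}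
    (hpB : ∀ ω, 0 < p ω → B ω) {v : ℕ → ℕ}
    (hv : ∀ l, k₀ ≤ l → l < k₀ + k → v l ≤ g l + q)
    (hv' : ∀ l, k₀ + k ≤ l → l < r → v l ≤ g l) {K : ℕ}
    (hth : ∀ ω, 0 < p ω → 0 ≤ d.th ω ∧ d.th ω < 1)
    (hA : ∀ ω, 0 < p ω → ∀ j, (d.A ω j).natDegree ≤ K) (hK : (K : ℝ) ≤ 2 ^ (d.X + d.m)) :
    Lk0 d K Df wf p v ((((2 * r + 2) * 2 ^ kk : ℝ)) ^ ((r + 4) * r) * 4) := by
  intro ω ν hω hν e1 hg l hl
  have hz : d.z ω = d.z ν := (Prod.ext_iff.mp hg).1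
  have hkr := h.kr
  have hB := hpB ω hω
  have hB' := hpB ν hν
  obtain ⟨C, hC⟩ : ∃ C : ℝ, C = (((2 * r + 2) * 2 ^ kk : ℝ)) ^ ((r + 4) * r) := ⟨_, rfl⟩
  have hC0 : 0 ≤ C := by
    rw [hC]
    positivity
  obtain ⟨_, g2⟩ := Prod.ext_iff.mp hg
  obtain ⟨g3, _⟩ := Prod.ext_iff.mp g2
  obtain ⟨g5, g6⟩ := Prod.ext_iff.mp g3
  obtain ⟨g7, _⟩ := Prod.ext_iff.mp g6
  have hnear := h.adw.near h.hw hB hB' e1 (hth ω hω) ⟨hA ω hω, hA ν hν⟩ hK
    (fun j a => congrFun (congrFun g5 j) a) (fun j => congrFun g7 j)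
  -- the heights
  have hhV : ∀ l < k₀ + k, 2 ^ g l * |hgc F c' G' l ν - hgc F c' G' l ω| ≤ 4 / 2 ^ q := by
    intro l hl
    rcases Nat.lt_or_ge l k₀ with h2 | h2
    · rw [h.h0 hB hB' hz e1 h2, sub_self, abs_zero, mul_zero]
      positivity
    · have h3 := hnear l hl h2
      rw [h.hg hl, h.hg hl, h.gl _ hl, abs_sub_comm, le_div_iff₀ (by positivity)]
      rw [le_div_iff₀ (by positivity), pow_add] at h3
      norm_num at h3
      linarith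
  rw [← hC, ← mul_sub, abs_mul, abs_of_pos (by positivity), abs_sub_comm]
  rcases Nat.lt_or_ge l (k₀ + k) with h2 | h2
  · rcases Nat.lt_or_ge l k₀ with h9 | h9
    · -- the exact coordinates
      have h3 := h.mix (r' := k₀) (by omega) hB hB' hz e1 (M := 0) le_rfl (fun i hi => by
        right
        rw [h.h0 hB hB' hz e1 hi, sub_self, abs_zero, mul_zero]) l h9
      rw [mul_zero] at h3
      have h4 : |Df.v wf l ν - Df.v wf l ω| = 0 := by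
        have h5 := h3.1
        have h6 : (0 : ℝ) < 2 ^ g l := by positivity
        have h7 := abs_nonneg (Df.v wf l ν - Df.v wf l ω)
        nlinarith
      rw [h4, mul_zero]
      positivity
    · have h3 := (h.mix hkr hB hB' hz e1 (M := 4 / 2 ^ q) (by positivity) (fun i hi =>
        Or.inr (hhV i hi)) l h2).1
      rw [← hC] at h3
      have h4 : (2 : ℝ) ^ v l ≤ 2 ^ g l * 2 ^ q := by
        rw [← pow_add]
        exact pow_le_pow_right₀ (by norm_num) (hv l h9 h2)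
      refine (mul_le_mul_of_nonneg_right h4 (abs_nonneg _)).trans ?_
      have h5 := mul_le_mul_of_nonneg_right h3 (by positivity : (0 : ℝ) ≤ 2 ^ q)
      refine le_trans (le_of_eq (by ring)) (h5.trans (le_of_eq ?_))
      field_simp
  · have h3 := (h.mix le_rfl hB hB' hz e1 (M := 4) (by norm_num) (fun i hi => by
      right
      rcases Nat.lt_or_ge i (k₀ + k) with h4 | h4
      · refine (hhV i h4).trans ?_
        exact div_le_self (by norm_num) (one_le_pow₀ (by norm_num))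
      · have hG := h.zG ω ν hB hB' hz i hi.le
        have p1 := h.gw.pos ω hB i (by omega)
        have p2 := h.gw.pos ν hB' i (by omega)
        rw [le_div_iff₀ (by positivity)] at p1 p2
        have p3 : |hgc F c' G' i ν - hgc F c' G' i ω| ≤ |hgc F c' G' i ν| + |hgc F c' G' i ω| :=
          abs_sub _ _
        have p4 : |hgc F c' G' i ω| * 2 ^ g i ≤ 1 := p1
        have p5 : |hgc F c' G' i ν| * 2 ^ g i ≤ 1 := p2
        have p6 : (0 : ℝ) < 2 ^ g i := by positivity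
        nlinarith) l hl).1
    rw [← hC] at h3
    refine (mul_le_mul_of_nonneg_right (pow_le_pow_right₀ (by norm_num) (hv' l h2 hl))
      (abs_nonneg _)).trans h3

/-- The constant. -/
noncomputable def Cf (r kk : ℕ) : ℝ := (((2 * (r + 1 : ℕ) + 2) * 2 ^ kk : ℝ)) ^ ((r + 5) * (r + 1))

theorem one_le_Cf (r kk : ℕ) : 1 ≤ Cf r kk := by
  unfold Cf
  refine one_le_pow₀ ?_
  have h2 : (1 : ℝ) ≤ 2 ^ kk := one_le_pow₀ (by norm_num)
  have h3 : (0 : ℝ) ≤ ((r + 1 : ℕ) : ℝ) := Nat.cast_nonneg _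
  nlinarith

theorem C_le_Cf (r kk : ℕ) : (((2 * r + 2) * 2 ^ kk : ℝ)) ^ ((r + 4) * r) ≤ Cf r kk := by
  unfold Cf
  have h2 : (0 : ℝ) < 2 ^ kk := by positivity
  have h3 : (0 : ℝ) ≤ (r : ℝ) := Nat.cast_nonneg _
  have h1 : ((2 * (r : ℝ) + 2) * 2 ^ kk : ℝ) ≤ (2 * (r + 1 : ℕ) + 2) * 2 ^ kk := by
    push_cast
    exact mul_le_mul_of_nonneg_right (by linarith) h2.le
  have h4 : (1 : ℝ) ≤ (2 * (r + 1 : ℕ) + 2) * 2 ^ kk := by
    have h2 : (1 : ℝ) ≤ 2 ^ kk := one_le_pow₀ (by norm_num)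
    have h3 : (0 : ℝ) ≤ ((r + 1 : ℕ) : ℝ) := Nat.cast_nonneg _
    nlinarith
  exact (pow_le_pow_left₀ (by positivity) h1 _).trans
    (pow_le_pow_right₀ h4 (Nat.mul_le_mul (by omega) (by omega)))

/-- **The fields `vb`, `vy`** for `V = Vfu`. -/
theorem AdF.vb_vy (h : AdF F c c' k₀ k n q w wf γ g B G H₀ G' ψH kk r d Df) {p : F.Ω → ℝ}
    (hp : IsLaw p) (hpB : ∀ ω, 0 < p ω → B ω) {u v : ℕ → ℕ} (huv : ∀ l < r, v l ≤ u l)
    (hX : ∀ l, k₀ ≤ l → l < k₀ + k → v l + d.X ≤ u l)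
    (hv : ∀ l, k₀ ≤ l → l < k₀ + k → v l ≤ g l + q)
    (hv' : ∀ l, k₀ + k ≤ l → l < r → v l ≤ g l) {K : ℕ}
    (hth : ∀ ω, 0 < p ω → 0 ≤ d.th ω ∧ d.th ω < 1)
    (hA : ∀ ω, 0 < p ω → ∀ j, (d.A ω j).natDegree ≤ K) (hK : (K : ℝ) ≤ 2 ^ (d.X + d.m)) {Cb : ℝ}
    (hCb : Cf r kk * (K + 4) ≤ Cb) :
    (∀ q : F.Ω → ℝ, IsLaw q → (∀ ω, 0 < q ω → 0 < p ω) →
      CH q (Vfu Df wf u) (fun ω => (d.T ω, d.g K ω)) ≤
        ∑ l ∈ range r, ((u l - v l : ℕ) : ℝ) * Real.log 2 + r * Real.log (2 * (Cb + 1) + 1)) ∧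
    CH p (Vfu Df wf u) (fun ω => (d.Y K ω, (d.th ω, d.g K ω))) ≤
      ∑ l ∈ range r, ((u l - v l : ℕ) : ℝ) * Real.log 2 + r * Real.log (2 * (Cb + 1) + 1) -
        k * d.X * Real.log 2 := by
  have hK0 : (0 : ℝ) ≤ K := Nat.cast_nonneg K
  have h1 := C_le_Cf r kk
  have h2 := one_le_Cf r kk
  have h3 : (0 : ℝ) ≤ (((2 * r + 2) * 2 ^ kk : ℝ)) ^ ((r + 4) * r) := by positivity
  have hCb0 : 0 ≤ Cb := le_trans (by positivity) hCb
  have l1 : Lk0 d K Df wf p v Cb := fun ω ν a b e1 e2 l hl =>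
    (h.lk0 hpB hv hv' hth hA hK ω ν a b e1 e2 l hl).trans (le_trans (by nlinarith) hCb)
  have l2 : Lk d K Df wf (pl k₀ h.kr) p v Cb := fun ω ν a b e1 e2 e3 j =>
    (h.lk hpB (fun l hl hl' => (hv l hl hl').trans (by omega)) ω ν a b e1 e2 e3 j).trans
      (le_trans (by nlinarith) hCb)
  exact ⟨vb_u hCb0 l1 huv, vy_u hp hCb0 l2 l1 (pl_inj k₀ h.kr) huv (fun j => hX _ (by
    show k₀ ≤ k₀ + j
    omega) (by
    show k₀ + (j : ℕ) < k₀ + k
    have := j.2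
    omega)) hth hA⟩

/-- **The field `qv`**: the own height and the digits of the coordinate of the target in the frame
differ by a part known from the frame digits of the other coordinates, the time and the context. -/
theorem AdF.qv (h : AdF F c c' k₀ k n q w wf γ g B G H₀ G' ψH kk r d Df) {u : ℕ → ℕ}
    (hu : ∀ l, k₀ ≤ l → l < r → g l + q + d.X ≤ u l) {K : ℕ} {U : ℝ}
    (hb : ∀ ω, B ω → ∀ j, |d.bb ω j| ≤ U) {ω ν : F.Ω} (hω : B ω) (hν : B ν)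
    (hV : Vfu Df wf u ω = Vfu Df wf u ν) (hT : d.T ω = d.T ν) (hg : d.g K ω = d.g K ν) :
    |(d.Q ω - (⌊(2 : ℝ) ^ (g r + q + d.X) * Df.v wf r ω⌋ : ℤ)) -
      (d.Q ν - (⌊(2 : ℝ) ^ (g r + q + d.X) * Df.v wf r ν⌋ : ℤ))| ≤ Cf r kk * (1 + k * U) + 1 := by
  have e4 : d.z ω = d.z ν := (Prod.ext_iff.mp hg).1
  have e5 : d.th ω = d.th ν := (Prod.ext_iff.mp hT).1
  have e6 : d.bb ω = d.bb ν := (Prod.ext_iff.mp hT).2
  have hkr := h.kr
  have hC := C_le_Cf r kk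
  have hTT := h.tm hω hν e4 e5
  obtain ⟨s, hs⟩ : ∃ s : ℝ, s = 2 ^ (q + d.X) := ⟨_, rfl⟩
  have hs0 : 0 < s := by
    rw [hs]
    positivity
  -- near coordinates
  have hh : ∀ l < r, 2 ^ g l * |Df.v wf l ν - Df.v wf l ω| ≤ 1 / s ∨
      2 ^ g l * |hgc F c' G' l ν - hgc F c' G' l ω| ≤ 1 / s := by
    intro l hl
    rcases Nat.lt_or_ge l k₀ with h1 | h1
    · right
      rw [h.h0 hω hν e4 e5 h1, sub_self, abs_zero, mul_zero]
      positivity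
    · left
      have h2 := near_of_floor (by positivity : (0 : ℝ) < 2 ^ u l) (congrFun hV ⟨l, hl⟩)
      rw [abs_sub_comm] at h2
      rw [le_div_iff₀ (by positivity)] at h2
      rw [le_div_iff₀ hs0, hs]
      refine le_trans ?_ h2
      have h3 : (2 : ℝ) ^ g l * 2 ^ (q + d.X) ≤ 2 ^ u l := by
        rw [← pow_add]
        refine pow_le_pow_right₀ (by norm_num) ?_
        have := hu l h1 hl
        omega
      have h4 := mul_le_mul_of_nonneg_right h3 (abs_nonneg (Df.v wf l ν - Df.v wf l ω))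
      linarith
  have hM : (0 : ℝ) ≤ 1 / s := by positivity
  -- the target
  have d1 := h.gw.dif (d := Df) h.dv (le_of_eq rfl) hω hν hTT (h.zψ ω ν hω hν e4)
    (h.zG ω ν hω hν e4) hM hh
  have d1' : 2 ^ g r * |(hgc F c' G' r ν - hgc F c' G' r ω) - (Df.v wf r ν - Df.v wf r ω)| ≤
      Cf r kk * (1 / s) := d1
  rw [mul_one_div, le_div_iff₀ hs0] at d1'
  -- the moved coordinates
  have d2 : ∀ j : Fin k, 2 ^ (g (k₀ + j) + q + d.X) *
      |hgc F c' G' (k₀ + j) ν - hgc F c' G' (k₀ + j) ω| ≤ Cf r kk := by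
    intro j
    have hj := j.2
    have h1 := (h.mix le_rfl hω hν e4 e5 hM hh (k₀ + j) (by omega)).2
    have h2 := h1.trans (mul_le_mul_of_nonneg_right hC hM)
    rw [mul_one_div, le_div_iff₀ hs0, hs] at h2
    rw [add_assoc, pow_add]
    linarith
  -- the heights
  have q1 : ∀ o : F.Ω, B o → d.Q o = 2 ^ d.X * (2 ^ (g r + q) * hgc F c' G' r o -
      ∑ j : Fin k, d.bb o j * (2 ^ (g (k₀ + j) + q) * hgc F c' G' (k₀ + j) o)) := by
    intro o ho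
    unfold AD.Q
    rw [h.adw.valP h.hw ho, h.hN, h.gr]
    congr 2
    refine Finset.sum_congr rfl fun j _ => ?_
    have hj := j.2
    rw [h.adw.valA h.hw ho j, h.hg (by omega), h.gl _ (by omega)]
  obtain ⟨N, hN⟩ : ∃ N : ℕ, N = g r + q + d.X := ⟨_, rfl⟩
  rw [← hN]
  have hN2 : (2 : ℝ) ^ N = 2 ^ d.X * 2 ^ (g r + q) := by
    rw [hN, ← pow_add]
    congr 1
    ring
  have hN3 : (2 : ℝ) ^ N = 2 ^ g r * s := by
    rw [hN, hs, ← pow_add]
    congr 1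
    ring
  obtain ⟨s1, hs1⟩ : ∃ x : ℝ, x = 2 ^ N * ((hgc F c' G' r ν - hgc F c' G' r ω) -
    (Df.v wf r ν - Df.v wf r ω)) := ⟨_, rfl⟩
  obtain ⟨s2, hs2⟩ : ∃ x : ℝ, x = ∑ j : Fin k, d.bb ω j * (2 ^ (g (k₀ + j) + q + d.X) *
    (hgc F c' G' (k₀ + j) ν - hgc F c' G' (k₀ + j) ω)) := ⟨_, rfl⟩
  have b1 : |s1| ≤ Cf r kk := by
    rw [hs1, abs_mul, abs_of_pos (by positivity : (0 : ℝ) < 2 ^ N), hN3]
    linarith
  have b2 : |s2| ≤ k * (U * Cf r kk) := by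
    rw [hs2]
    refine (Finset.abs_sum_le_sum_abs _ _).trans ((Finset.sum_le_sum (g := fun _ => U * Cf r kk)
      fun j _ => ?_).trans (le_of_eq ?_))
    · rw [abs_mul, abs_mul, abs_of_pos (by positivity : (0 : ℝ) < 2 ^ (g (k₀ + j) + q + d.X))]
      exact mul_le_mul (hb ω hω j) (d2 j) (by positivity) ((abs_nonneg _).trans (hb ω hω j))
    · rw [Finset.sum_const, Finset.card_univ, Fintype.card_fin, nsmul_eq_mul]
  have key : (d.Q ω - (⌊(2 : ℝ) ^ N * Df.v wf r ω⌋ : ℤ)) -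
      (d.Q ν - (⌊(2 : ℝ) ^ N * Df.v wf r ν⌋ : ℤ)) =
      (2 ^ N * Df.v wf r ω - (⌊(2 : ℝ) ^ N * Df.v wf r ω⌋ : ℤ)) -
      (2 ^ N * Df.v wf r ν - (⌊(2 : ℝ) ^ N * Df.v wf r ν⌋ : ℤ)) - s1 + s2 := by
    have k1 : ∑ j : Fin k, d.bb ν j * (2 ^ (g (k₀ + j) + q) * hgc F c' G' (k₀ + j) ν) =
        ∑ j : Fin k, d.bb ω j * (2 ^ (g (k₀ + j) + q) * hgc F c' G' (k₀ + j) ω) +
        ∑ j : Fin k, d.bb ω j * (2 ^ (g (k₀ + j) + q) *
          (hgc F c' G' (k₀ + j) ν - hgc F c' G' (k₀ + j) ω)) := by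
      rw [← Finset.sum_add_distrib]
      refine Finset.sum_congr rfl fun j _ => ?_
      rw [e6]
      ring
    have k2 : s2 = 2 ^ d.X * ∑ j : Fin k, d.bb ω j * (2 ^ (g (k₀ + j) + q) *
          (hgc F c' G' (k₀ + j) ν - hgc F c' G' (k₀ + j) ω)) := by
      rw [hs2, Finset.mul_sum]
      refine Finset.sum_congr rfl fun j _ => ?_
      rw [pow_add (2 : ℝ) (g (k₀ + j) + q) d.X]
      ring
    rw [q1 ω hω, q1 ν hν, k1, k2, hs1, hN2]
    ring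
  rw [key]
  have f1 := Int.floor_le ((2 : ℝ) ^ N * Df.v wf r ω)
  have f2 := Int.lt_floor_add_one ((2 : ℝ) ^ N * Df.v wf r ω)
  have f3 := Int.floor_le ((2 : ℝ) ^ N * Df.v wf r ν)
  have f4 := Int.lt_floor_add_one ((2 : ℝ) ^ N * Df.v wf r ν)
  have e7 : Cf r kk * (1 + k * U) + 1 = Cf r kk + k * (U * Cf r kk) + 1 := by ring
  rw [e7]
  rw [abs_le] at b1 b2 ⊢
  constructor <;> linarith [b1.1, b1.2, b2.1, b2.2]

end

end Pool.AVG57
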