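import Pool.Agent.H57.AVG.Vu
import Pool.Agent.H23.D2.Grd3

/-!
# The field `qv` for one moved coordinate

`lip_one`: two samples with the same time, the same lower coordinates and the same labels: the change
of the label of the target is at most the natural gradient times the change of the moved coordinate.
`qv_one`: the own height `Q` and the digits `M` of the target differ by a part known from the frame
digits, the time and the context.
-/

set_option autoImplicit false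

namespace Pool.AVG57

open Finset Real MvPolynomial
open Pool.Agent.H49.Ent Pool.Agent.H32.Dense Pool.STK Pool.KA Pool.KSAT Pool.K2S Pool.PB Pool.S6C
open Pool.GEN Pool.CHT Pool.CHX Pool.ISO Pool.LA91 Pool.AVG71 Pool.D2F2
open Pool.PB.Trl (rt rt_mem t_rt)
open Pool.D2R

variable {m J : ℕ}

/-- **The change of the label of the target** under a change of the last coordinate. -/
theorem lip_one {F : Fam m J} {c : ℕ → Fin m} {n : ℕ} {Kc : ℕ → ℕ} {a w e : ℕ} {g : ℕ → ℕ}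
    {A : F.Ω → Prop} {G : PtT F → ℕ → MvPolynomial (Option (Fin m)) ℝ}
    {H : LnT F → ℕ → MvPolynomial (Option (Fin m)) ℝ} (h : ChOK F c n Kc a w e g A G H)
    (hc : Set.InjOn c (Set.Iio n)) {k₀ : ℕ} (hk : k₀ + 1 < n) {ω ν : F.Ω} (hω : A ω) (hν : A ν)
    (ht : F.t ω = F.t ν) (hx : ∀ l < k₀, F.x ω (c l) = F.x ν (c l))
    (hG : G (ptr F J ω) k₀ = G (ptr F J ν) k₀) :
    |eval (bt F ω) (G (ptr F J ω) (k₀ + 1)) - eval (bt F ν) (G (ptr F J ω) (k₀ + 1))| ≤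
      2 ^ (e + nlp g k₀ (k₀ + 1)) * |F.x ω (c k₀) - F.x ν (c k₀)| := by
  classical
  obtain ⟨Δ, hΔ⟩ : ∃ Δ : ℝ, Δ = F.x ν (c k₀) - F.x ω (c k₀) := ⟨_, rfl⟩
  obtain ⟨δ, hδ⟩ : ∃ δ : Option (Fin m) → ℝ, δ = fun o => if o = some (c k₀) then Δ else 0 :=
    ⟨_, rfl⟩
  have hδ0 : δ none = 0 := by rw [hδ]; rfl
  have hδk : δ (some (c k₀)) = Δ := by rw [hδ]; simp
  have hne : ∀ l < k₀, c l ≠ c k₀ := fun l hl e => by
    have := hc (show l ∈ Set.Iio n by simp only [Set.mem_Iio]; omega)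
      (show k₀ ∈ Set.Iio n by simp only [Set.mem_Iio]; omega) e
    omega
  have hδl : ∀ l < k₀, δ (some (c l)) = 0 := fun l hl => by
    rw [hδ]
    simp [hne l hl]
  have hbn : ∀ ω : F.Ω, bt F ω none = F.t ω := fun _ => rfl
  have hbs : ∀ (ω : F.Ω) k, bt F ω (some k) = F.x ω k := fun _ _ => rfl
  -- the labels
  have hDk := h.depG (ptr F J ω) k₀
  have hDi := h.depG (ptr F J ω) (k₀ + 1)
  have hGk : eval (bt F ν) (G (ptr F J ω) k₀) = eval (bt F ω) (G (ptr F J ω) k₀) :=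
    hDk _ _ (by rw [hbn, hbn, ht]) fun l hl => by rw [hbs, hbs, hx l hl]
  have hp1 := h.pos ω hω k₀ (by omega)
  have hp2 := h.pos ν hν k₀ (by omega)
  rw [← hG, hGk] at hp2
  -- the path
  have hM : ∀ u ∈ Set.Icc (0 : ℝ) 1,
      |dd (G (ptr F J ω) (k₀ + 1)) (fun o => bt F ω o + u * δ o) δ| ≤
      2 ^ (e + nlp g k₀ (k₀ + 1)) * |Δ| := by
    intro u hu
    have h1 : dd (G (ptr F J ω) (k₀ + 1)) (fun o => bt F ω o + u * δ o) δ =
        eval (fun o => bt F ω o + u * δ o) (pderiv (some (c k₀)) (G (ptr F J ω) (k₀ + 1))) * Δ := by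
      unfold dd
      rw [Finset.sum_eq_single (some (c k₀))]
      · rw [hδk]
      · intro o _ ho
        rw [hδ]
        simp [ho]
      · intro h2
        exact absurd (Finset.mem_univ _) h2
    rw [h1, abs_mul]
    refine mul_le_mul_of_nonneg_right ?_ (abs_nonneg _)
    refine h.lip ω hω (k₀ + 1) hk _ ⟨?_, fun l hl => ?_⟩ k₀ (by omega)
    · rw [hδ0, hbn]
      simp
    · rcases Nat.lt_succ_iff_lt_or_eq.1 hl with h2 | h2
      · have e1 : eval (fun o => bt F ω o + u * δ o) (G (ptr F J ω) l) =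
            eval (bt F ω) (G (ptr F J ω) l) :=
          h.depG (ptr F J ω) l _ _ (by rw [hδ0]; ring) fun j hj => by
            rw [hδl j (by omega)]
            ring
        rw [e1, hδl l h2, mul_zero, add_zero]
        exact h.pos ω hω l (by omega)
      · subst h2
        have e1 : eval (fun o => bt F ω o + u * δ o) (G (ptr F J ω) l) =
            eval (bt F ω) (G (ptr F J ω) l) :=
          h.depG (ptr F J ω) l _ _ (by rw [hδ0]; ring) fun j hj => by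
            rw [hδl j hj]
            ring
        rw [e1, hδk, hbs, hΔ]
        have e2 : F.x ω (c l) + u * (F.x ν (c l) - F.x ω (c l)) -
            eval (bt F ω) (G (ptr F J ω) l) = (1 - u) * (F.x ω (c l) -
            eval (bt F ω) (G (ptr F J ω) l)) + u * (F.x ν (c l) -
            eval (bt F ω) (G (ptr F J ω) l)) := by ring
        rw [e2]
        refine (abs_add_le _ _).trans ?_
        rw [abs_mul, abs_mul, abs_of_nonneg (by linarith [hu.2] : 0 ≤ 1 - u), abs_of_nonneg hu.1]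
        nlinarith [hu.1, hu.2]
  have h3 := mv_seg (G (ptr F J ω) (k₀ + 1)) (bt F ω) δ hM 1 ⟨zero_le_one, le_rfl⟩
  have h4 : eval (fun o => bt F ω o + 1 * δ o) (G (ptr F J ω) (k₀ + 1)) =
      eval (bt F ν) (G (ptr F J ω) (k₀ + 1)) :=
    hDi _ _ (by rw [hδ0, hbn, hbn, ht]; ring) fun l hl => by
      rcases Nat.lt_succ_iff_lt_or_eq.1 hl with h2 | h2
      · rw [hδl l h2, hbs, hbs, hx l h2]
        ring
      · subst h2
        rw [hδk, hbs, hbs, hΔ]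
        ring
  rw [h4, abs_sub_comm] at h3
  rw [abs_sub_comm (F.x ω (c k₀)), ← hΔ]
  exact h3

section

variable {F : Fam m J} {c : ℕ → Fin m} {k₀ n q w : ℕ} {γ : ℕ → ℕ} {B : F.Ω → Prop}
  {G : ℕ → PtT F → ℕ → MvPolynomial (Option (Fin m)) ℝ}
  {H₀ : LnT F → ℕ → MvPolynomial (Option (Fin m)) ℝ} {β : Type} {d : AD F.Ω β 1}
  {κ : Type} {r D : ℕ}

/-- **The field `qv`** for one moved coordinate `c k₀`, target `c (k₀ + 1)`. `c'`: the enumeration of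
the coordinates of the frame, `l₀`: the place of the moved coordinate. -/
theorem qv_one (h : AdW F c k₀ 1 n q w γ B G H₀ d) (hw : w ≤ J) {n₀ a e : ℕ} {Kc : ℕ → ℕ}
    {Hc : LnT F → ℕ → MvPolynomial (Option (Fin m)) ℝ}
    (hok : ChOK F c n₀ Kc a w e γ B (G 0) Hc) (hc : Set.InjOn c (Set.Iio n₀))
    (hn₀ : k₀ + 1 < n₀)
    (zH : ∀ ω ν, B ω → B ν → d.z ω = d.z ν → ∀ l ≤ k₀ + 1, H₀ (slam F w ω) l = H₀ (slam F w ν) l)
    {Df : Dat F κ r D} {W : ℕ} {A : F.Ω → Prop} {c' : ℕ → Fin m} {E₀ : ℕ}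
    (hF : FrD Df A W c' E₀) (hBA : Sub B A) {l₀ : Fin r} (hl₀ : c' l₀ = c k₀)
    (hl : ∀ j < (l₀ : ℕ), ∃ i < k₀, c' j = c i)
    (zf : ∀ ω ν, B ω → B ν → d.z ω = d.z ν → d.th ω = d.th ν →
      Df.fc (slam F W ω) = Df.fc (slam F W ν))
    {u : ℕ → ℕ} (hu : e + max (γ k₀) (γ (k₀ + 1)) + q + d.X ≤ u l₀) {K : ℕ} {U : ℝ}
    (hb : ∀ ω, B ω → |d.bb ω 0| ≤ U) {ω ω' : F.Ω} (hω : B ω) (hω' : B ω')
    (hV : Vfu Df W u ω = Vfu Df W u ω') (hT : d.T ω = d.T ω') (hg : d.g K ω = d.g K ω') :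
    |(d.Q ω - F.X (γ (k₀ + 1) + q + d.X) ω (c (k₀ + 1))) -
      (d.Q ω' - F.X (γ (k₀ + 1) + q + d.X) ω' (c (k₀ + 1)))| ≤ 2 + U := by
  have e4 : d.z ω = d.z ω' := (Prod.ext_iff.mp hg).1
  have e5 : d.th ω = d.th ω' := (Prod.ext_iff.mp hT).1
  have e6 : d.bb ω = d.bb ω' := (Prod.ext_iff.mp hT).2
  have htt := h.time hw hω hω' e4 e5
  have hx := h.pos hw hω hω' e4 e5
  have hTT : F.T ω = F.T ω' := by
    have h1 : (F.T ω : ℝ) / 2 ^ J = (F.T ω' : ℝ) / 2 ^ J := htt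
    have h2 : (F.T ω : ℝ) = F.T ω' := by
      field_simp at h1
      exact h1
    exact_mod_cast h2
  have hl01 : l₀.1 < r := l₀.2
  -- the moved coordinate
  obtain ⟨φ, -, f2⟩ := hF.frm ω' ω (hBA _ hω') (hBA _ hω) hTT.symm (zf ω ω' hω hω' e4 e5).symm
    l₀ hl01.le
  have f3 : ∑ i ∈ range (l₀ : ℕ), φ i * (F.x ω (c' i) - F.x ω' (c' i)) = 0 :=
    Finset.sum_eq_zero fun i hi => by
      obtain ⟨i', hi', e⟩ := hl i (Finset.mem_range.1 hi)
      rw [e, hx i' hi', sub_self, mul_zero]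
  rw [f3, sub_zero, hl₀] at f2
  have f4 : |F.x ω (c k₀) - F.x ω' (c k₀)| ≤ 1 / 2 ^ u l₀ := by
    rw [← f2]
    exact near_of_floor (by positivity) (congrFun hV l₀)
  -- the labels
  have hH : ∀ l ≤ k₀ + 1, G 0 (ptr F J ω) l = G 0 (ptr F J ω') l := fun l hl => by
    rw [h.cls ω hω l (by omega), h.cls ω' hω' l (by omega), zH ω ω' hω hω' e4 l hl]
  have g1 := lip_one hok hc hn₀ hω hω' htt hx (hH k₀ (by omega))
  have g2 : eval (bt F ω) (G 0 (ptr F J ω) k₀) = eval (bt F ω') (G 0 (ptr F J ω) k₀) :=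
    hok.depG (ptr F J ω) k₀ _ _ htt fun l hl => hx l hl
  -- the heights
  have q1 : d.Q ω = 2 ^ d.X * (2 ^ (γ (k₀ + 1) + q) * hgt F c (G 0) ω (k₀ + 1) -
      d.bb ω 0 * (2 ^ (γ k₀ + q) * hgt F c (G 0) ω k₀)) := by
    unfold AD.Q
    rw [h.valP hw hω, Fin.sum_univ_one, h.valA hw hω 0]
    rfl
  have q2 : d.Q ω' = 2 ^ d.X * (2 ^ (γ (k₀ + 1) + q) * hgt F c (G 0) ω' (k₀ + 1) -
      d.bb ω 0 * (2 ^ (γ k₀ + q) * hgt F c (G 0) ω' k₀)) := by
    unfold AD.Q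
    rw [h.valP hw hω', Fin.sum_univ_one, h.valA hw hω' 0, e6]
    rfl
  have k1 : hgt F c (G 0) ω k₀ - hgt F c (G 0) ω' k₀ = F.x ω (c k₀) - F.x ω' (c k₀) := by
    unfold hgt
    rw [← hH k₀ (by omega), ← g2]
    ring
  have k2 : hgt F c (G 0) ω (k₀ + 1) - hgt F c (G 0) ω' (k₀ + 1) =
      (F.x ω (c (k₀ + 1)) - F.x ω' (c (k₀ + 1))) -
      (eval (bt F ω) (G 0 (ptr F J ω) (k₀ + 1)) - eval (bt F ω') (G 0 (ptr F J ω) (k₀ + 1))) := by
    unfold hgt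
    rw [← hH (k₀ + 1) le_rfl]
    ring
  obtain ⟨N, hN⟩ : ∃ N : ℕ, N = γ (k₀ + 1) + q + d.X := ⟨_, rfl⟩
  have hN2 : (2 : ℝ) ^ N = 2 ^ d.X * 2 ^ (γ (k₀ + 1) + q) := by
    rw [hN, ← pow_add]
    congr 1
    ring
  -- the digits of the target
  have m1 : ∀ ω : F.Ω, 0 ≤ 2 ^ N * F.x ω (c (k₀ + 1)) - F.X N ω (c (k₀ + 1)) ∧
      2 ^ N * F.x ω (c (k₀ + 1)) - F.X N ω (c (k₀ + 1)) ≤ 1 := fun ω => by
    have h1 := Int.floor_le ((2 : ℝ) ^ N * F.x ω (c (k₀ + 1)))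
    have h2 := Int.lt_floor_add_one ((2 : ℝ) ^ N * F.x ω (c (k₀ + 1)))
    have h3 : (F.X N ω (c (k₀ + 1)) : ℝ) = ⌊(2 : ℝ) ^ N * F.x ω (c (k₀ + 1))⌋ := rfl
    rw [h3]
    constructor <;> linarith
  rw [← hN]
  obtain ⟨a1, a2⟩ := m1 ω
  obtain ⟨a3, a4⟩ := m1 ω'
  -- the two errors
  obtain ⟨s1, hs1⟩ : ∃ s : ℝ, s = 2 ^ N * (eval (bt F ω) (G 0 (ptr F J ω) (k₀ + 1)) -
    eval (bt F ω') (G 0 (ptr F J ω) (k₀ + 1))) := ⟨_, rfl⟩
  obtain ⟨s2, hs2⟩ : ∃ s : ℝ, s = d.bb ω 0 * (2 ^ (γ k₀ + q + d.X) *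
    (F.x ω (c k₀) - F.x ω' (c k₀))) := ⟨_, rfl⟩
  have b1 : |s1| ≤ 1 := by
    rw [hs1, abs_mul, abs_of_pos (by positivity : (0 : ℝ) < 2 ^ N)]
    refine (mul_le_mul_of_nonneg_left (g1.trans (mul_le_mul_of_nonneg_left f4 (by positivity)))
      (by positivity)).trans ?_
    rw [← mul_assoc, ← pow_add, mul_one_div, div_le_one (by positivity)]
    refine pow_le_pow_right₀ (by norm_num) (le_trans ?_ hu)
    have h9 : nlp γ k₀ (k₀ + 1) = max (γ k₀) (γ (k₀ + 1)) - γ (k₀ + 1) := by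
      unfold nlp
      congr 1
      have : Finset.Icc k₀ (k₀ + 1) = {k₀, k₀ + 1} := by
        ext x
        simp only [Finset.mem_Icc, Finset.mem_insert, Finset.mem_singleton]
        omega
      rw [this, Finset.sup_insert, Finset.sup_singleton]
    rw [h9, hN]
    have := le_max_right (γ k₀) (γ (k₀ + 1))
    omega
  have b2 : |s2| ≤ U := by
    rw [hs2, abs_mul, abs_mul, abs_of_pos (by positivity : (0 : ℝ) < 2 ^ (γ k₀ + q + d.X))]
    have h1 : (2 : ℝ) ^ (γ k₀ + q + d.X) * |F.x ω (c k₀) - F.x ω' (c k₀)| ≤ 1 := by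
      refine (mul_le_mul_of_nonneg_left f4 (by positivity)).trans ?_
      rw [mul_one_div, div_le_one (by positivity)]
      refine pow_le_pow_right₀ (by norm_num) (le_trans ?_ hu)
      have := le_max_left (γ k₀) (γ (k₀ + 1))
      omega
    calc _ ≤ |d.bb ω 0| * 1 := mul_le_mul_of_nonneg_left h1 (abs_nonneg _)
      _ ≤ U := by rw [mul_one]; exact hb ω hω
  have key : (d.Q ω - F.X N ω (c (k₀ + 1))) - (d.Q ω' - F.X N ω' (c (k₀ + 1))) =
      (2 ^ N * F.x ω (c (k₀ + 1)) - F.X N ω (c (k₀ + 1))) -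
      (2 ^ N * F.x ω' (c (k₀ + 1)) - F.X N ω' (c (k₀ + 1))) - s1 - s2 := by
    have k1' : hgt F c (G 0) ω k₀ = hgt F c (G 0) ω' k₀ + (F.x ω (c k₀) - F.x ω' (c k₀)) := by
      linarith
    have k2' : hgt F c (G 0) ω (k₀ + 1) = hgt F c (G 0) ω' (k₀ + 1) +
      ((F.x ω (c (k₀ + 1)) - F.x ω' (c (k₀ + 1))) -
      (eval (bt F ω) (G 0 (ptr F J ω) (k₀ + 1)) - eval (bt F ω') (G 0 (ptr F J ω) (k₀ + 1)))) := by
      linarith
    rw [q1, q2, k1', k2', hs1, hs2, hN2, show γ k₀ + q + d.X = d.X + (γ k₀ + q) by ring,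
      pow_add (2 : ℝ) d.X (γ k₀ + q)]
    ring
  rw [key]
  rw [abs_le] at b1 b2 ⊢
  constructor <;> linarith [b1.1, b1.2, b2.1, b2.2]

end

end Pool.AVG57
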