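import Pool.Agent.H57.AVG.Vy

/-!
# The fields `vb`, `vy` for all frame digits to the levels `u`

`Vfu`: the digits of the positions in the frame to the levels `u`. `vfu_few`: their entropy, if the
positions are near to levels `v'`. `vb_u`, `vy_u`: the fields.
-/

set_option autoImplicit false

namespace Pool.AVG57

open Finset Real MvPolynomial
open Pool.Agent.H49.Ent Pool.Agent.H32.Dense Pool.STK Pool.KA Pool.KSAT Pool.K2S Pool.PB Pool.S6C
open Pool.GEN Pool.CHT Pool.LA91 Pool.AVG71 Pool.D2F2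
open Pool.PB.Trl (rt rt_mem t_rt)
open Pool.OWN68 (CH_pis CH_le_Hu)

variable {m J : ℕ}

/-- **Digits to a level**, if the numbers are near to a level before. -/
theorem dig_few {Ω T : Type} [Fintype Ω] {p : Ω → ℝ} (hp : IsLaw p) (x : Ω → ℝ) (Z : Ω → T)
    {u v : ℕ} (huv : v ≤ u) {K : ℝ} (hK : 0 ≤ K)
    (hx : ∀ ω ω', 0 < p ω → 0 < p ω' → Z ω = Z ω' →
      |(2 : ℝ) ^ v * x ω - 2 ^ v * x ω'| ≤ K) :
    CH p (fun ω => ⌊(2 : ℝ) ^ u * x ω⌋) Z ≤
      ((u - v : ℕ) : ℝ) * Real.log 2 + Real.log (2 * (K + 1) + 1) := by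
  have h0 := hp.nonneg
  have s1 : CH p (fun ω => ⌊(2 : ℝ) ^ v * x ω⌋) Z ≤ Real.log (2 * (K + 1) + 1) :=
    CH_pair_int hp _ Z (by linarith) fun ω ω' a b e => floor_near' (hx ω ω' a b e)
  have s2 := CH_le_add h0 (fun ω => ⌊(2 : ℝ) ^ u * x ω⌋) (fun ω => ⌊(2 : ℝ) ^ v * x ω⌋) Z
  have hdiv : ∀ ω, ⌊(2 : ℝ) ^ u * x ω⌋ / 2 ^ (u - v) = ⌊(2 : ℝ) ^ v * x ω⌋ := by
    intro ω
    have h1 := Int.floor_div_natCast ((2 : ℝ) ^ u * x ω) (2 ^ (u - v))
    have e1 : (2 : ℝ) ^ u * x ω / ((2 ^ (u - v) : ℕ) : ℝ) = 2 ^ v * x ω := by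
      have e2 : (2 : ℝ) ^ u = 2 ^ v * 2 ^ (u - v) := by
        rw [← pow_add]
        congr 1
        omega
      rw [e2]
      push_cast
      field_simp
    rw [e1] at h1
    push_cast at h1
    exact h1.symm
  have s3 : CH p (fun ω => ⌊(2 : ℝ) ^ u * x ω⌋) (fun ω => (⌊(2 : ℝ) ^ v * x ω⌋, Z ω)) ≤
      CH p (fun ω => ⌊(2 : ℝ) ^ u * x ω⌋ % 2 ^ (u - v))
      (fun ω => (⌊(2 : ℝ) ^ v * x ω⌋, Z ω)) := by
    refine CH_mono_left h0 fun ω ω' _ _ e => ?_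
    simp only [Prod.mk.injEq] at e
    obtain ⟨e1, e2, -⟩ := e
    have a1 := Int.emod_add_mul_ediv ⌊(2 : ℝ) ^ u * x ω⌋ (2 ^ (u - v))
    have a2 := Int.emod_add_mul_ediv ⌊(2 : ℝ) ^ u * x ω'⌋ (2 ^ (u - v))
    rw [hdiv ω, e1, e2] at a1
    rw [hdiv ω'] at a2
    exact a1.symm.trans a2
  have s4 := CH_le_card h0 hp.sum_one (fun ω => ⌊(2 : ℝ) ^ u * x ω⌋ % 2 ^ (u - v))
      (fun ω => (⌊(2 : ℝ) ^ v * x ω⌋, Z ω))
      (fun _ => Finset.Ico (0 : ℤ) (2 ^ (u - v))) (fun ω _ => by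
        rw [Finset.mem_Ico]
        exact ⟨Int.emod_nonneg _ (by positivity), Int.emod_lt_of_pos _ (by positivity)⟩)
  rw [Ex_const hp.sum_one, Int.card_Ico, sub_zero] at s4
  have e2 : ((2 : ℤ) ^ (u - v)).toNat = 2 ^ (u - v) := by
    have : (2 : ℤ) ^ (u - v) = ((2 ^ (u - v) : ℕ) : ℤ) := by push_cast; rfl
    rw [this, Int.toNat_natCast]
  rw [e2] at s4
  push_cast at s4
  rw [Real.log_pow] at s4
  linarith

section

variable {F : Fam m J} {κ : Type} {r D : ℕ}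

/-- **All frame digits to the levels `u`**, if the positions are near to the levels `v'`. -/
theorem vfu_few (d : Dat F κ r D) (W : ℕ) {u v : ℕ → ℕ} {p : F.Ω → ℝ} (hp : IsLaw p) {γ : Type}
    (Z : F.Ω → γ) (huv : ∀ l < r, v l ≤ u l) {K : ℝ} (hK : 0 ≤ K)
    (h : ∀ ω ω', 0 < p ω → 0 < p ω' → Z ω = Z ω' → ∀ l < r,
      |(2 : ℝ) ^ v l * d.v W l ω - 2 ^ v l * d.v W l ω'| ≤ K) :
    CH p (Vfu d W u) Z ≤ ∑ l ∈ range r, ((u l - v l : ℕ) : ℝ) * Real.log 2 +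
      r * Real.log (2 * (K + 1) + 1) := by
  have h0 := hp.nonneg
  refine (CH_pis h0 _ _).trans ?_
  rw [← Fin.sum_univ_eq_sum_range (fun l => ((u l - v l : ℕ) : ℝ) * Real.log 2)]
  refine (Finset.sum_le_sum (g := fun l : Fin r => ((u l - v l : ℕ) : ℝ) * Real.log 2 +
    Real.log (2 * (K + 1) + 1)) fun l _ => ?_).trans (le_of_eq ?_)
  · exact dig_few hp (fun ω => d.v W l ω) Z (huv l l.2) hK fun ω ω' a b e => h ω ω' a b e l l.2
  · rw [Finset.sum_add_distrib, Finset.sum_const, Finset.card_univ, Fintype.card_fin,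
      nsmul_eq_mul]

/-- The levels raised by `X` at the places `i j`. -/
noncomputable def upl (v : ℕ → ℕ) (X : ℕ) {k : ℕ} (i : Fin k → Fin r) (l : ℕ) : ℕ :=
  open Classical in if ∃ j, (i j : ℕ) = l then v l + X else v l

theorem sum_upl {u v : ℕ → ℕ} {X k : ℕ} (i : Fin k → Fin r) (hi : Function.Injective i)
    (huv : ∀ l < r, v l ≤ u l) (hX : ∀ j, v (i j) + X ≤ u (i j)) :
    ∑ l ∈ range r, ((u l - upl v X i l : ℕ) : ℝ) * Real.log 2 =
      ∑ l ∈ range r, ((u l - v l : ℕ) : ℝ) * Real.log 2 - k * X * Real.log 2 := by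
  classical
  rw [← Fin.sum_univ_eq_sum_range (fun l => ((u l - v l : ℕ) : ℝ) * Real.log 2),
    ← Fin.sum_univ_eq_sum_range (fun l => ((u l - upl v X i l : ℕ) : ℝ) * Real.log 2)]
  have h1 : ∀ l : Fin r, ((u l - upl v X i l : ℕ) : ℝ) * Real.log 2 =
      ((u l - v l : ℕ) : ℝ) * Real.log 2 - if l ∈ Finset.univ.image i then
        X * Real.log 2 else 0 := by
    intro l
    by_cases hl : l ∈ Finset.univ.image i
    · rw [if_pos hl]
      obtain ⟨j, -, rfl⟩ := Finset.mem_image.1 hl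
      have h2 : upl v X i (i j) = v (i j) + X := by
        unfold upl
        rw [if_pos ⟨j, rfl⟩]
      have h3 := hX j
      rw [h2, Nat.cast_sub h3, Nat.cast_sub (huv _ (i j).2)]
      push_cast
      ring
    · rw [if_neg hl, sub_zero]
      have h2 : upl v X i l = v l := by
        unfold upl
        rw [if_neg]
        rintro ⟨j, hj⟩
        exact hl (Finset.mem_image.2 ⟨j, Finset.mem_univ _, Fin.ext hj⟩)
      rw [h2]
  rw [Finset.sum_congr rfl fun l _ => h1 l, Finset.sum_sub_distrib, Finset.sum_ite_mem,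
    Finset.univ_inter, Finset.sum_const, Finset.card_image_of_injective _ hi, Finset.card_univ,
    Fintype.card_fin, nsmul_eq_mul]
  ring

variable {β : Type} {k : ℕ}

/-- The positions in the frame are near for equal contexts. -/
def Lk0 (d : AD F.Ω β k) (K : ℕ) (Df : Dat F κ r D) (W : ℕ) (p : F.Ω → ℝ) (v : ℕ → ℕ)
    (B : ℝ) : Prop :=
  ∀ ω ω', 0 < p ω → 0 < p ω' → d.th ω = d.th ω' → d.g K ω = d.g K ω' → ∀ l < r,
    |(2 : ℝ) ^ v l * Df.v W l ω - 2 ^ v l * Df.v W l ω'| ≤ B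

/-- **The field `vb`** for `V = Vfu`. -/
theorem vb_u {d : AD F.Ω β k} {K : ℕ} {Df : Dat F κ r D} {W : ℕ} {p : F.Ω → ℝ} {u v : ℕ → ℕ}
    {B : ℝ} (hB : 0 ≤ B) (h0 : Lk0 d K Df W p v B) (huv : ∀ l < r, v l ≤ u l) :
    ∀ q : F.Ω → ℝ, IsLaw q → (∀ ω, 0 < q ω → 0 < p ω) →
      CH q (Vfu Df W u) (fun ω => (d.T ω, d.g K ω)) ≤
        ∑ l ∈ range r, ((u l - v l : ℕ) : ℝ) * Real.log 2 + r * Real.log (2 * (B + 1) + 1) := by
  intro q hq hqp
  refine vfu_few Df W hq _ huv hB fun ω ω' a b e l hl => ?_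
  obtain ⟨e1, e2⟩ := Prod.ext_iff.mp e
  exact h0 ω ω' (hqp ω a) (hqp ω' b) (Prod.ext_iff.mp e1).1 e2 l hl

/-- **The field `vy`** for `V = Vfu`. -/
theorem vy_u {d : AD F.Ω β k} {K : ℕ} {Df : Dat F κ r D} {W : ℕ} {i : Fin k → Fin r}
    {p : F.Ω → ℝ} (hp : IsLaw p) {u v : ℕ → ℕ} {B : ℝ} (hB : 0 ≤ B) (h : Lk d K Df W i p v B)
    (h0 : Lk0 d K Df W p v B) (hi : Function.Injective i) (huv : ∀ l < r, v l ≤ u l)
    (hX : ∀ j, v (i j) + d.X ≤ u (i j)) (hth : ∀ ω, 0 < p ω → 0 ≤ d.th ω ∧ d.th ω < 1)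
    (hA : ∀ ω, 0 < p ω → ∀ j, (d.A ω j).natDegree ≤ K) :
    CH p (Vfu Df W u) (fun ω => (d.Y K ω, (d.th ω, d.g K ω))) ≤
      ∑ l ∈ range r, ((u l - v l : ℕ) : ℝ) * Real.log 2 + r * Real.log (2 * (B + 1) + 1) -
        k * d.X * Real.log 2 := by
  classical
  have h1 := vfu_few Df W hp (fun ω => (d.Y K ω, (d.th ω, d.g K ω))) (u := u)
    (v := upl v d.X i) (K := B) (fun l hl => by
      unfold upl
      split_ifs with hj
      · obtain ⟨j, hj⟩ := hj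
        have := hX j
        rwa [hj] at this
      · exact huv l hl) hB fun ω ω' a b e l hl => by
      simp only [Prod.mk.injEq] at e
      obtain ⟨e1, e2, e3⟩ := e
      unfold upl
      split_ifs with hj
      · obtain ⟨j, hj⟩ := hj
        have := h ω ω' a b e2 e3 (fun j => A_near e2 (hth ω a) (ac_of e1 e3) (hA ω a j)
          (hA ω' b j)) j
        rwa [hj] at this
      · exact h0 ω ω' a b e2 e3 l hl
  rw [sum_upl i hi huv hX] at h1
  linarith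

end

end Pool.AVG57
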